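import Pool.Agent.Lib.MP_5d4057_al.NU.CuspH

/-! A nilpotent subgroup of finite index (C14). -/

namespace Pool.Agent.Lib.MP_5d4057_al.NU

open Matrix MeasureTheory Filter Topology Pool.Agent.Lib.MP_5d4057_al
  Pool.Agent.Lib.MP_5d4057_al.Hyb Pool.Agent.Lib.MP_5d4057_al.HM
  Pool.Agent.Lib.MP_5d4057_al.HM.Kak

open scoped ComplexOrder MatrixOrder Matrix.Norms.L2Operator ENNReal

open scoped commutatorElement

variable {n m : ℕ}

/-- Abstract lemma: if all iterated commutators of length `k` of elements of a generating set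
vanish, the group is nilpotent. (`T (k - j)` is contained in the `j`-th term of the upper central
series: modulo it the elements of `T (k - j - 1)` commute with the generators.) -/
theorem nilp_of_sets {D : Type} [Group D] (S : Set D) (hS : Subgroup.closure S = ⊤)
    (T : ℕ → Set D) (h0 : S ⊆ T 0) (h : ∀ j, ∀ s ∈ S, ∀ t ∈ T j, s * t * s⁻¹ * t⁻¹ ∈ T (j + 1))
    (k : ℕ) (hk : T k ⊆ {1}) : Group.IsNilpotent D := by
  have key : ∀ j ≤ k, T (k - j) ⊆ (Subgroup.upperCentralSeries D j : Set D) := by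
    intro j
    induction j with
    | zero =>
      intro _ x hx
      rw [Nat.sub_zero] at hx
      rw [hk hx]
      exact Subgroup.one_mem _
    | succ j ih =>
      intro hj t ht
      have hj' : k - j = k - (j + 1) + 1 := by omega
      have ih' := ih (by omega)
      rw [SetLike.mem_coe, Subgroup.mem_upperCentralSeries_succ_iff]
      intro y
      have hy : y ∈ Subgroup.closure S := by rw [hS]; exact Subgroup.mem_top y
      induction hy using Subgroup.closure_induction with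
      | mem s hs =>
        have h1 := h (k - (j + 1)) s hs t ht
        rw [← hj'] at h1
        have h2 := Subgroup.inv_mem _ (ih' h1)
        have e : ⁅t, s⁆ = (s * t * s⁻¹ * t⁻¹)⁻¹ := by
          rw [commutatorElement_def]; group
        rw [e]; exact h2
      | one => rw [commutatorElement_one_right]; exact Subgroup.one_mem _
      | mul x y _ _ hx hy =>
        have e : ⁅t, x * y⁆ = ⁅t, x⁆ * (x * ⁅t, y⁆ * x⁻¹) := by
          rw [commutatorElement_def, commutatorElement_def, commutatorElement_def]; group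
        rw [e]
        exact Subgroup.mul_mem _ hx (Subgroup.Normal.conj_mem inferInstance _ hy x)
      | inv x _ hx =>
        have e : ⁅t, x⁻¹⁆ = x⁻¹ * ⁅t, x⁆⁻¹ * x⁻¹⁻¹ := by
          rw [commutatorElement_def, commutatorElement_def]; group
        rw [e]
        exact Subgroup.Normal.conj_mem inferInstance _ (Subgroup.inv_mem _ hx) _
  refine ⟨k, ?_⟩
  rw [eq_top_iff, ← hS, Subgroup.closure_le]
  intro s hs
  have h1 := key k le_rfl
  rw [Nat.sub_self] at h1
  exact h1 (h0 hs)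

/-- A group generated by a set `A` and finitely generated is generated by a finite subset of `A`. -/
theorem exists_finite_gen {D : Type} [Group D] [Group.FG D] (A : Set D)
    (hA : Subgroup.closure A = ⊤) : ∃ S : Set D, S.Finite ∧ S ⊆ A ∧ Subgroup.closure S = ⊤ := by
  have h1 : ∀ x ∈ Subgroup.closure A, ∃ S : Set D, S.Finite ∧ S ⊆ A ∧ x ∈ Subgroup.closure S := by
    intro x hx
    induction hx using Subgroup.closure_induction with
    | mem s hs =>
      exact ⟨{s}, Set.finite_singleton s, Set.singleton_subset_iff.2 hs,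
        Subgroup.subset_closure (Set.mem_singleton s)⟩
    | one => exact ⟨∅, Set.finite_empty, Set.empty_subset _, Subgroup.one_mem _⟩
    | mul x y _ _ hx hy =>
      obtain ⟨S, h1, h2, h3⟩ := hx
      obtain ⟨S', h1', h2', h3'⟩ := hy
      exact ⟨S ∪ S', h1.union h1', Set.union_subset h2 h2',
        Subgroup.mul_mem _ (Subgroup.closure_mono Set.subset_union_left h3)
          (Subgroup.closure_mono Set.subset_union_right h3')⟩
    | inv x _ hx =>
      obtain ⟨S, h1, h2, h3⟩ := hx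
      exact ⟨S, h1, h2, Subgroup.inv_mem _ h3⟩
  obtain ⟨F, hF, hF'⟩ := Group.fg_iff.1 (inferInstance : Group.FG D)
  choose! f hf using fun x (_ : x ∈ F) => h1 x (by rw [hA]; exact Subgroup.mem_top x)
  refine ⟨⋃ x ∈ F, f x, hF'.biUnion fun x hx => (hf x hx).1,
    Set.iUnion₂_subset fun x hx => (hf x hx).2.1, ?_⟩
  rw [eq_top_iff, ← hF, Subgroup.closure_le]
  intro x hx
  exact Subgroup.closure_mono (Set.subset_biUnion_of_mem hx) (hf x hx).2.2

variable {Γ : Subgroup (SUGroup n)}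

/-- C14. `Δ` = the subgroup generated by `{x ∈ Γ ∩ PS ξ | fro (Dg ξ x - 1) < 1/32}`. Finite index:
`fro_Dg_inv_mul`, `Dg_pigeon`. Finitely generated: `exists_word` for `Γ ∩ PS ξ` and Schreier
(`Subgroup.fg_of_index_ne_zero`). Nilpotent: for large `τ` the finitely many generators have
`ds (fl ξ τ) x < 1/16` (`ds_flow_lim`); `T j = {x ∈ Δ | ds (fl ξ τ) x ≤ (1/16) (1/3)^j}`
(`ds_comm_le'`); `T k = {1}` for some `k` (`finite_ds`). -/
theorem exists_nilp (hd : DiscreteTopology Γ) {ξ : Fin n → ℂ} (hP : Par Γ ξ) {R : ℝ}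
    (hc : ∀ g ∈ PS ξ, ∃ γ ∈ Γ, γ ∈ St ξ ∧ ch (γ * g) ≤ R) :
    ∃ Δ : Subgroup (SUGroup n), Δ ≤ Γ ⊓ PS ξ ∧ Δ.relIndex (Γ ⊓ PS ξ) ≠ 0 ∧
      Group.IsNilpotent Δ := by
  have hξ : nq ξ = 1 := hP.1
  set A : Set (SUGroup n) := {x | x ∈ Γ ∧ x ∈ PS ξ ∧ fro (Dg ξ x - 1) < 1 / 32} with hA
  set Δ : Subgroup (SUGroup n) := Subgroup.closure A with hΔ
  set Λ : Subgroup (SUGroup n) := Γ ⊓ PS ξ with hΛ
  have hle : Δ ≤ Λ := by
    rw [hΔ, Subgroup.closure_le]
    rintro x ⟨h1, h2, _⟩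
    exact ⟨h1, h2⟩
  have hfi : Δ.relIndex Λ ≠ 0 := by
    intro h0
    obtain ⟨N, hN⟩ := Dg_pigeon ξ hξ (e := 1 / 32) (by norm_num)
    have hinf : Infinite (Λ ⧸ Δ.subgroupOf Λ) := by
      rw [Subgroup.relIndex] at h0
      exact Subgroup.index_eq_zero_iff_infinite.1 h0
    let e : ℕ ↪ (Λ ⧸ Δ.subgroupOf Λ) := Infinite.natEmbedding _
    let f : ℕ → SUGroup n := fun i => ((e i).out : Λ)
    have hf : ∀ i, f i ∈ Λ := fun i => ((e i).out : Λ).2
    obtain ⟨i, j, hij, _, hfr⟩ := hN f fun i => (hf i).2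
    have h1 : (f i)⁻¹ * f j ∈ A := by
      refine ⟨Γ.mul_mem (Γ.inv_mem (hf i).1) (hf j).1,
        (PS ξ).mul_mem ((PS ξ).inv_mem (hf i).2) (hf j).2, ?_⟩
      rw [fro_Dg_inv_mul hξ (hf i).2 (hf j).2]
      exact hfr
    have h2 : (f i)⁻¹ * f j ∈ Δ := Subgroup.subset_closure h1
    have h3 : e i = e j := by
      rw [← QuotientGroup.out_eq' (e i), ← QuotientGroup.out_eq' (e j), QuotientGroup.eq,
        Subgroup.mem_subgroupOf]
      exact h2
    exact hij.ne (e.injective h3)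
  refine ⟨Δ, hle, hfi, ?_⟩
  have hdΛ : DiscreteTopology Λ := by
    have := hd
    exact DiscreteTopology.of_subset (s := (Γ : Set (SUGroup n))) inferInstance
      (fun x hx => hx.1)
  have hcΛ : ∀ g ∈ PS ξ, ∃ δ ∈ Λ, ch (δ * g) ≤ R := by
    intro g hg
    obtain ⟨γ, h1, h2, h3⟩ := hc g hg
    exact ⟨γ, ⟨h1, hP.2 γ h1 h2⟩, h3⟩
  obtain ⟨S₀, C, hS₀, hS₀Λ, hw⟩ := exists_word hξ hdΛ inf_le_right hcΛ
  have hFGΛ : Group.FG Λ := by
    rw [Group.fg_iff_subgroup_fg, Subgroup.fg_iff]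
    refine ⟨S₀, ?_, hS₀⟩
    apply le_antisymm
    · rw [Subgroup.closure_le]
      exact hS₀Λ
    · intro δ hδ
      obtain ⟨l, h1, h2, _⟩ := hw δ hδ
      rw [← h2]
      exact Subgroup.list_prod_mem _ fun x hx => Subgroup.subset_closure (h1 x hx)
  have : (Δ.subgroupOf Λ).FiniteIndex := ⟨hfi⟩
  have hFG' : Group.FG (Δ.subgroupOf Λ) := inferInstance
  have hFGΔ : Group.FG Δ :=
    Group.fg_of_surjective (f := (Subgroup.subgroupOfEquivOfLe hle).toMonoidHom)
      (Subgroup.subgroupOfEquivOfLe hle).surjective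
  have htop : Subgroup.closure (((↑) : Δ → SUGroup n) ⁻¹' A) = ⊤ :=
    Subgroup.closure_closure_coe_preimage
  obtain ⟨S, hSf, hSA, hS⟩ := exists_finite_gen _ htop
  have hτ : ∀ᶠ t : ℝ in atTop, ∀ s ∈ S, ds (fl ξ t) (s : SUGroup n) < 1 / 16 := by
    rw [Filter.eventually_all_finite hSf]
    intro s hs
    have h1 : (s : SUGroup n) ∈ A := hSA hs
    have h2 := ds_flow_lim hξ (x := (s : SUGroup n)) (PS_le_St ξ h1.2.1)
    exact h2.eventually (gt_mem_nhds (by linarith [h1.2.2]))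
  obtain ⟨t, ht⟩ := hτ.exists
  set g := fl ξ t with hg
  let T : ℕ → Set Δ := fun j => {x | ds g (x : SUGroup n) ≤ 1 / 16 * (1 / 3) ^ j}
  have hk : ∃ k, T k ⊆ {1} := by
    by_cases hex : ∃ γ ∈ Γ, γ ≠ 1
    · obtain ⟨γ, hγ, h1⟩ := hex
      obtain ⟨γ₀, h2, h3, h4⟩ := exists_min_ds hd g hγ h1
      have hpos : 0 < ds g γ₀ :=
        lt_of_le_of_ne (ds_nonneg _ _) fun h => h3 (ds_eq_zero.1 h.symm)
      obtain ⟨k, hk⟩ := exists_pow_lt_of_lt_one hpos (by norm_num : (1 / 3 : ℝ) < 1)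
      refine ⟨k, fun x hx => ?_⟩
      have hx' : ds g (x : SUGroup n) ≤ 1 / 16 * (1 / 3) ^ k := hx
      by_contra hne
      have h5 := h4 x (hle x.2).1 fun h => hne (Subtype.ext h)
      have h6 : (0 : ℝ) < (1 / 3) ^ k := by positivity
      linarith
    · push Not at hex
      exact ⟨0, fun x _ => Subtype.ext (hex x (hle x.2).1)⟩
  obtain ⟨k, hk⟩ := hk
  refine nilp_of_sets S hS T ?_ ?_ k hk
  · intro s hs
    have := ht s hs
    show ds g (s : SUGroup n) ≤ 1 / 16 * (1 / 3) ^ 0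
    linarith
  · intro j s hs x hx
    have hx' : ds g (x : SUGroup n) ≤ 1 / 16 * (1 / 3) ^ j := hx
    have h1 : (1 / 3 : ℝ) ^ j ≤ 1 := pow_le_one₀ (by norm_num) (by norm_num)
    have h2 := ht s hs
    have h3 := ds_comm_le (g := g) (a := (s : SUGroup n)) (b := (x : SUGroup n))
      (by linarith) (by linarith)
    show ds g (((s * x * s⁻¹ * x⁻¹ : Δ) : SUGroup n)) ≤ 1 / 16 * (1 / 3) ^ (j + 1)
    rw [pow_succ]
    calc _ ≤ 1 / 3 * ds g (x : SUGroup n) := h3
      _ ≤ _ := by linarith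

end Pool.Agent.Lib.MP_5d4057_al.NU
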