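import Pool.Agent.Lib.MP_5d4057_al.NU.CuspK

/-! The height function (C18). -/

namespace Pool.Agent.Lib.MP_5d4057_al.NU

open Matrix MeasureTheory Filter Topology Pool.Agent.Lib.MP_5d4057_al
  Pool.Agent.Lib.MP_5d4057_al.Hyb Pool.Agent.Lib.MP_5d4057_al.HM
  Pool.Agent.Lib.MP_5d4057_al.HM.Kak

open scoped ComplexOrder MatrixOrder Matrix.Norms.L2Operator ENNReal

variable {n m : ℕ}

/-- The height function: `1` or the largest `yp (pe ξ) v / |κ|` over the transvections of `Γ`. -/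
noncomputable def hty (Γ : Subgroup (SUGroup n)) (v : Vec n) : ℝ :=
  max 1 (sSup {r : ℝ | ∃ γ ∈ Γ, ∃ ξ κ, IsTv γ ξ κ ∧ r = yp (pe ξ) v / |κ|})

variable {Γ : Subgroup (SUGroup n)}

private theorem cl_J (j : Fin (n + 1)) : ‖J n j j‖ = 1 := by
  rw [J, diagonal_apply_eq]
  split_ifs <;> simp

private theorem cl_rk_apply (u : Vec n) (i j : Fin (n + 1)) :
    rk n u u i j = u i * (star (u j) * J n j j) := by
  rw [rk, vecMulVec_apply, J, vecMul_diagonal, diagonal_apply_eq, Pi.star_apply]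

private theorem cl_rk_smul (c : ℂ) (a : Vec n) :
    rk n (c • a) (c • a) = ((‖c‖ ^ 2 : ℝ) : ℂ) • rk n a a := by
  have h : c * star c = ((‖c‖ ^ 2 : ℝ) : ℂ) := by
    rw [RCLike.star_def, Complex.mul_conj']
    push_cast
    rfl
  ext i j
  rw [Matrix.smul_apply, cl_rk_apply, cl_rk_apply, Pi.smul_apply, Pi.smul_apply, smul_eq_mul,
    smul_eq_mul, smul_eq_mul, star_mul, ← h]
  ring

private theorem cl_fro_smul (c : ℂ) (A : Mat m) : fro (c • A) = ‖c‖ * fro A := by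
  have h : fro (c • A) ^ 2 = (‖c‖ * fro A) ^ 2 := by
    rw [mul_pow, fro_sq, fro_sq, Finset.mul_sum]
    refine Finset.sum_congr rfl fun i _ => ?_
    rw [Finset.mul_sum]
    refine Finset.sum_congr rfl fun j _ => ?_
    rw [Matrix.smul_apply, smul_eq_mul, norm_mul, mul_pow]
  exact (sq_eq_sq₀ (fro_nonneg _) (mul_nonneg (norm_nonneg _) (fro_nonneg _))).1 h

private theorem cl_fro_rk {ξ : Fin n → ℂ} (hξ : nq ξ = 1) : fro (rk n (pe ξ) (pe ξ)) = 2 := by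
  have h1 : ∑ i : Fin (n + 1), ‖pe ξ i‖ ^ 2 = 2 := by
    have h0 : ∑ i : Fin n, ‖pe ξ i.castSucc‖ ^ 2 = 1 := by
      rw [← hξ, nq]
      refine Finset.sum_congr rfl fun i _ => ?_
      rw [pe_castSucc]
    rw [Fin.sum_univ_castSucc, pe_last, h0]
    norm_num
  have h2 : fro (rk n (pe ξ) (pe ξ)) ^ 2 = 2 ^ 2 := by
    rw [fro_sq]
    calc ∑ i, ∑ j, ‖rk n (pe ξ) (pe ξ) i j‖ ^ 2 = ∑ i, ∑ j, ‖pe ξ i‖ ^ 2 * ‖pe ξ j‖ ^ 2 := by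
          refine Finset.sum_congr rfl fun i _ => Finset.sum_congr rfl fun j _ => ?_
          rw [cl_rk_apply, norm_mul, norm_mul, norm_star, cl_J, mul_one, mul_pow]
      _ = (∑ i, ‖pe ξ i‖ ^ 2) * ∑ j, ‖pe ξ j‖ ^ 2 := by rw [Finset.sum_mul_sum]
      _ = 2 ^ 2 := by rw [h1]; norm_num
  exact (sq_eq_sq₀ (fro_nonneg _) (by norm_num)).1 h2

private theorem cl_conj {γ γ' : SUGroup n} {ξ : Fin n → ℂ} {κ : ℝ} (h : IsTv γ ξ κ) :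
    IsTv (γ' * γ * γ'⁻¹) (mv γ' ξ) (κ * ‖ml γ' ξ‖ ^ 2) := by
  obtain ⟨hξ, hκ, hM⟩ := h
  refine ⟨nq_mv hξ _, mul_ne_zero hκ (pow_ne_zero _ (norm_ne_zero_iff.2 (ml_ne_zero hξ _))), ?_⟩
  rw [toMatrix_mul, toMatrix_mul, hM, Matrix.mul_add, Matrix.add_mul, Matrix.mul_one,
    toMatrix_mul_inv, Matrix.mul_smul, Matrix.smul_mul, conj_rk]
  have e : γ'.toMatrix *ᵥ pe ξ = ml γ' ξ • pe (mv γ' ξ) := act_pe hξ γ'
  rw [e, cl_rk_smul, smul_smul]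
  push_cast
  congr 2
  ring

private theorem cl_ds {γ : SUGroup n} {ξ : Fin n → ℂ} {κ : ℝ} (h : IsTv γ ξ κ) (g : SUGroup n) :
    ds g γ = |κ| * ‖ml g⁻¹ ξ‖ ^ 2 * 2 := by
  obtain ⟨h1, h2, h3⟩ := cl_conj (γ' := g⁻¹) h
  rw [inv_inv] at h3
  rw [ds, h3, add_sub_cancel_left, cl_fro_smul, cl_fro_rk h1, norm_mul, Complex.norm_I, mul_one,
    Complex.norm_real, Real.norm_eq_abs, abs_mul, abs_of_nonneg (sq_nonneg ‖ml g⁻¹ ξ‖)]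

/-- `ds g γ = |κ| |g⁻¹ p|² = 2 |κ| |⟨g e, p⟩|²`, `p = pe ξ`. -/
theorem IsTv.ds {γ : SUGroup n} {ξ : Fin n → ℂ} {κ : ℝ} (h : IsTv γ ξ κ) (g : SUGroup n) :
    ds g γ * (yp (pe ξ) (act g (base n)) / |κ|) = 2 := by
  rw [cl_ds h g, yp_pe]
  have h5 : 0 < ‖ml g⁻¹ ξ‖ := norm_pos_iff.2 (ml_ne_zero h.1 _)
  have h6 : 0 < |κ| := abs_pos.2 h.2.1
  field_simp

theorem IsTv.mem_St {γ : SUGroup n} {ξ : Fin n → ℂ} {κ : ℝ} (h : IsTv γ ξ κ) : γ ∈ St ξ := by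
  obtain ⟨hξ, _, hM⟩ := h
  refine ⟨1, ?_⟩
  have h0 : hm n (pe ξ) (pe ξ) = 0 := by
    change herm (pe ξ) (pe ξ) = 0
    rw [herm_self, q_pe, hξ, sub_self, Complex.ofReal_zero]
  rw [act, hM, add_mulVec, one_mulVec, smul_mulVec, rk_mulVec, one_smul, h0, zero_smul, smul_zero,
    add_zero]

theorem IsTv.ne_one {γ : SUGroup n} {ξ : Fin n → ℂ} {κ : ℝ} (h : IsTv γ ξ κ) : γ ≠ 1 := by
  intro h1
  have h2 := IsTv.ds h 1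
  rw [ds_eq_zero.2 h1, zero_mul] at h2
  norm_num at h2

/-- Conjugation: `γ' γ γ'⁻¹` is the transvection of `mv γ' ξ` with parameter `κ |ml γ' ξ|²`. -/
theorem IsTv.conj {γ γ' : SUGroup n} {ξ : Fin n → ℂ} {κ : ℝ} (h : IsTv γ ξ κ) :
    IsTv (γ' * γ * γ'⁻¹) (mv γ' ξ) (κ * ‖ml γ' ξ‖ ^ 2) := cl_conj h

private theorem cl_pow {γ δ : SUGroup n} {ξ : Fin n → ℂ} {κ : ℝ} (h : IsTv γ ξ κ) (hδ : δ ∈ St ξ)
    (k : ℕ) : IsTv (δ ^ k * γ * (δ ^ k)⁻¹) ξ (κ * (‖ml δ ξ‖ ^ k) ^ 2) := by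
  have hξ := h.1
  induction k with
  | zero => simpa using h
  | succ k ih =>
    have h1 := cl_conj (γ' := δ) ih
    rw [(mem_St hξ).1 hδ] at h1
    have e1 : δ * (δ ^ k * γ * (δ ^ k)⁻¹) * δ⁻¹ = δ ^ (k + 1) * γ * (δ ^ (k + 1))⁻¹ := by
      rw [pow_succ' δ k, _root_.mul_inv_rev]
      group
    have e2 : κ * (‖ml δ ξ‖ ^ k) ^ 2 * ‖ml δ ξ‖ ^ 2 = κ * (‖ml δ ξ‖ ^ (k + 1)) ^ 2 := by
      rw [pow_succ]
      ring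
    rwa [e1, e2] at h1

private theorem cl_ds_pos {γ : SUGroup n} (g : SUGroup n) (h : γ ≠ 1) : 0 < ds g γ :=
  lt_of_le_of_ne (ds_nonneg _ _) fun h2 => h (ds_eq_zero.1 h2.symm)

private theorem cl_key (hd : DiscreteTopology Γ) {γ : SUGroup n} {ξ : Fin n → ℂ} {κ : ℝ}
    (hγ : γ ∈ Γ) (h : IsTv γ ξ κ) {δ : SUGroup n} (hδ : δ ∈ Γ) (hs : δ ∈ St ξ) :
    1 ≤ ‖ml δ ξ‖ := by
  by_contra hlt
  rw [not_le] at hlt
  obtain ⟨γ₀, h2, h3, h4⟩ := exists_min_ds hd 1 hγ h.ne_one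
  have h0 : 0 < ds 1 γ₀ := cl_ds_pos 1 h3
  have hκ : 0 < |κ| := abs_pos.2 h.2.1
  obtain ⟨k, hk⟩ := exists_pow_lt_of_lt_one (show 0 < ds 1 γ₀ / (|κ| * 2) by positivity) hlt
  have h5 := cl_pow h hs k
  have h6 : δ ^ k * γ * (δ ^ k)⁻¹ ∈ Γ :=
    Γ.mul_mem (Γ.mul_mem (Γ.pow_mem hδ k) hγ) (Γ.inv_mem (Γ.pow_mem hδ k))
  have h7 := h4 _ h6 h5.ne_one
  rw [cl_ds h5 1, inv_one, ml_one, norm_one, abs_mul, abs_of_nonneg (sq_nonneg (‖ml δ ξ‖ ^ k))]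
    at h7
  have h8 : 0 ≤ ‖ml δ ξ‖ ^ k := by positivity
  have h9 : ‖ml δ ξ‖ ^ k ≤ 1 := pow_le_one₀ (norm_nonneg _) hlt.le
  rw [lt_div_iff₀ (by positivity)] at hk
  have h10 : (‖ml δ ξ‖ ^ k) ^ 2 ≤ ‖ml δ ξ‖ ^ k := by nlinarith
  have h11 : |κ| * (‖ml δ ξ‖ ^ k) ^ 2 ≤ |κ| * ‖ml δ ξ‖ ^ k := mul_le_mul_of_nonneg_left h10 hκ.le
  nlinarith

private theorem cl_par (hd : DiscreteTopology Γ) {γ : SUGroup n} {ξ : Fin n → ℂ} {κ : ℝ}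
    (hγ : γ ∈ Γ) (h : IsTv γ ξ κ) : Par Γ ξ := by
  refine ⟨h.1, fun δ hδ hs => ?_⟩
  have hm := (mem_St h.1).1 hs
  rw [mem_PS h.1]
  refine ⟨hm, le_antisymm ?_ (cl_key hd hγ h hδ hs)⟩
  have h1 := cl_key hd hγ h (Γ.inv_mem hδ) ((St ξ).inv_mem hs)
  have h2 : mv δ⁻¹ ξ = ξ := (mem_St h.1).1 ((St ξ).inv_mem hs)
  rw [ml_inv h.1, h2, norm_inv] at h1
  have h3 : 0 < ‖ml δ ξ‖ := norm_pos_iff.2 (ml_ne_zero h.1 _)
  rwa [one_le_inv₀ h3] at h1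

/-- A line with a transvection in a discrete group is parabolic. -/
theorem IsTv.par (hd : DiscreteTopology Γ) {γ : SUGroup n} {ξ : Fin n → ℂ} {κ : ℝ} (hγ : γ ∈ Γ)
    (h : IsTv γ ξ κ) : Par Γ ξ := cl_par hd hγ h

private theorem cl_pos {γ : SUGroup n} {ξ : Fin n → ℂ} {κ : ℝ} (h : IsTv γ ξ κ) (g : SUGroup n) :
    0 < yp (pe ξ) (act g (base n)) / |κ| :=
  div_pos (yp_pos (pe_ne_zero ξ) (by rw [q_pe, h.1, sub_self]) (orbit_mem g)) (abs_pos.2 h.2.1)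

private theorem cl_bdd (hd : DiscreteTopology Γ) (g : SUGroup n) :
    BddAbove {r : ℝ | ∃ γ ∈ Γ, ∃ ξ κ, IsTv γ ξ κ ∧ r = yp (pe ξ) (act g (base n)) / |κ|} := by
  by_cases hex : ∃ γ ∈ Γ, γ ≠ 1
  · obtain ⟨γ, hγ, h1⟩ := hex
    obtain ⟨γ₀, h2, h3, h4⟩ := exists_min_ds hd g hγ h1
    have h0 : 0 < ds g γ₀ := cl_ds_pos g h3
    refine ⟨2 / ds g γ₀, ?_⟩
    rintro r ⟨γ', hγ', ξ, κ, h5, rfl⟩
    have h6 := IsTv.ds h5 g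
    have h7 := h4 γ' hγ' h5.ne_one
    have h8 := cl_pos h5 g
    rw [le_div_iff₀ h0, mul_comm]
    calc ds g γ₀ * (yp (pe ξ) (act g (base n)) / |κ|)
        ≤ ds g γ' * (yp (pe ξ) (act g (base n)) / |κ|) := mul_le_mul_of_nonneg_right h7 h8.le
      _ = 2 := h6
  · refine ⟨0, ?_⟩
    rintro r ⟨γ', hγ', ξ, κ, h5, rfl⟩
    exact absurd ⟨γ', hγ', h5.ne_one⟩ hex

theorem le_hty (hd : DiscreteTopology Γ) {γ : SUGroup n} {ξ : Fin n → ℂ} {κ : ℝ} (hγ : γ ∈ Γ)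
    (h : IsTv γ ξ κ) (g : SUGroup n) :
    yp (pe ξ) (act g (base n)) / |κ| ≤ hty Γ (act g (base n)) :=
  (le_csSup (cl_bdd hd g) ⟨γ, hγ, ξ, κ, h, rfl⟩).trans (le_max_right _ _)

theorem exists_hty (hd : DiscreteTopology Γ) (g : SUGroup n) (h : 1 < hty Γ (act g (base n))) :
    ∃ γ ∈ Γ, ∃ ξ κ, IsTv γ ξ κ ∧
      hty Γ (act g (base n)) = yp (pe ξ) (act g (base n)) / |κ| := by
  rw [hty] at h ⊢
  have hb := cl_bdd hd g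
  have h1 := (lt_max_iff.1 h).resolve_left (lt_irrefl _)
  set S := {r : ℝ | ∃ γ ∈ Γ, ∃ ξ κ, IsTv γ ξ κ ∧ r = yp (pe ξ) (act g (base n)) / |κ|} with hS
  have hne : S.Nonempty := by
    by_contra hne
    rw [Set.not_nonempty_iff_eq_empty] at hne
    rw [hne, Real.sSup_empty] at h1
    linarith
  obtain ⟨r1, hr1, hr1'⟩ := exists_lt_of_lt_csSup hne h1
  have hfin : (S ∩ Set.Ici 1).Finite := by
    refine ((finite_ds hd (ch g) 2).image fun γ => 2 / ds g γ).subset ?_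
    rintro r ⟨⟨γ, hγ, ξ, κ, h5, rfl⟩, h6⟩
    have h7 := IsTv.ds h5 g
    have h8 : 0 < ds g γ := cl_ds_pos g h5.ne_one
    have h9 : (1 : ℝ) ≤ yp (pe ξ) (act g (base n)) / |κ| := h6
    refine ⟨γ, ⟨hγ, g, le_rfl, ?_⟩, ?_⟩
    · nlinarith
    · change 2 / ds g γ = _
      rw [div_eq_iff h8.ne', mul_comm]
      exact h7.symm
  obtain ⟨r0, hr0, hmax⟩ := Set.exists_max_image (S ∩ Set.Ici 1) id hfin ⟨r1, hr1, hr1'.le⟩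
  have h7 : (1 : ℝ) ≤ r0 := hr0.2
  have h8 : sSup S = r0 := by
    refine le_antisymm (csSup_le hne fun r hr => ?_) (le_csSup hb hr0.1)
    rcases le_total 1 r with h9 | h9
    · exact hmax r ⟨hr, h9⟩
    · exact h9.trans h7
  obtain ⟨⟨γ, hγ, ξ, κ, h5, h6⟩, _⟩ := hr0
  refine ⟨γ, hγ, ξ, κ, h5, ?_⟩
  rw [h8, ← h6, max_eq_right h7]

/-- Uniqueness: if a transvection attains the maximum `≥ 16` at `g`, it attains it at every `h` where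
its height is `≥ 16` (`ds_fixed`, `Par.unique`). -/
theorem hty_unique (hd : DiscreteTopology Γ) (hT : TF Γ) {γ : SUGroup n} {ξ : Fin n → ℂ} {κ : ℝ}
    (hγ : γ ∈ Γ) (h : IsTv γ ξ κ) {g : SUGroup n}
    (hg : hty Γ (act g (base n)) = yp (pe ξ) (act g (base n)) / |κ|)
    {g' : SUGroup n} (h16 : 16 ≤ yp (pe ξ) (act g' (base n)) / |κ|) :
    hty Γ (act g' (base n)) = yp (pe ξ) (act g' (base n)) / |κ| := by
  refine le_antisymm ?_ (le_hty hd hγ h g')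
  have h1 : 16 ≤ hty Γ (act g' (base n)) := h16.trans (le_hty hd hγ h g')
  obtain ⟨γ', hγ', ξ', κ', h2, h3⟩ := exists_hty hd g' (by linarith)
  have h4 : ds g' γ ≤ 1 / 8 := by
    have e := IsTv.ds h g'
    have e0 := ds_nonneg g' γ
    nlinarith
  have h5 : ds g' γ' ≤ 1 / 8 := by
    have e := IsTv.ds h2 g'
    have e0 := ds_nonneg g' γ'
    rw [← h3] at e
    nlinarith
  have h6 : γ' ∈ St ξ := ds_fixed hd hT hγ hγ' h.ne_one h2.ne_one h4 h5 h.1 h.mem_St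
  have h7 : ξ' = ξ := (IsTv.par hd hγ h).unique hT hγ' h2.ne_one h6 h2.1 h2.mem_St
  subst h7
  have h8 := le_hty hd hγ' h2 g
  rw [hg] at h8
  have hq : q (pe ξ') = 0 := by rw [q_pe, h.1, sub_self]
  have h9 : 0 < yp (pe ξ') (act g (base n)) := yp_pos (pe_ne_zero ξ') hq (orbit_mem g)
  have h10 : 0 < yp (pe ξ') (act g' (base n)) := yp_pos (pe_ne_zero ξ') hq (orbit_mem g')
  have hκ : 0 < |κ| := abs_pos.2 h.2.1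
  have hκ' : 0 < |κ'| := abs_pos.2 h2.2.1
  have h11 : |κ| ≤ |κ'| := by
    rw [div_le_div_iff₀ hκ' hκ] at h8
    exact le_of_mul_le_mul_left h8 h9
  rw [h3]
  gcongr

private theorem cl_sub {δ : SUGroup n} (hδ : δ ∈ Γ) (v : Vec n) :
    {r : ℝ | ∃ γ ∈ Γ, ∃ ξ κ, IsTv γ ξ κ ∧ r = yp (pe ξ) (act δ v) / |κ|} ⊆
      {r : ℝ | ∃ γ ∈ Γ, ∃ ξ κ, IsTv γ ξ κ ∧ r = yp (pe ξ) v / |κ|} := by
  rintro r ⟨γ, hγ, ξ, κ, h, rfl⟩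
  refine ⟨_, Γ.mul_mem (Γ.mul_mem (Γ.inv_mem hδ) hγ) (Γ.inv_mem (Γ.inv_mem hδ)), _, _,
    cl_conj (γ' := δ⁻¹) h, ?_⟩
  have e : act δ⁻¹ (pe ξ) = ml δ⁻¹ ξ • pe (mv δ⁻¹ ξ) := act_pe h.1 _
  have e1 : act δ (act δ⁻¹ (pe ξ)) = pe ξ := by rw [← act_mul, mul_inv_cancel, act_one]
  have h5 : 0 < ‖ml δ⁻¹ ξ‖ := norm_pos_iff.2 (ml_ne_zero h.1 _)
  have h6 : 0 < |κ| := abs_pos.2 h.2.1
  have e2 : yp (pe ξ) (act δ v) = yp (pe (mv δ⁻¹ ξ)) v / ‖ml δ⁻¹ ξ‖ ^ 2 := by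
    rw [← yp_smul, ← e, ← yp_act δ (act δ⁻¹ (pe ξ)), e1]
  rw [e2, abs_mul, abs_of_nonneg (sq_nonneg ‖ml δ⁻¹ ξ‖)]
  field_simp

private theorem cl_inv {δ : SUGroup n} (hδ : δ ∈ Γ) (v : Vec n) :
    hty Γ (act δ v) = hty Γ v := by
  rw [hty, hty]
  congr 2
  refine Set.Subset.antisymm (cl_sub hδ v) ?_
  have h := cl_sub (Γ.inv_mem hδ) (act δ v)
  rwa [← act_mul, inv_mul_cancel, act_one] at h

private theorem cl_hom : Homog (hty Γ) := by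
  intro c hc v hv
  rw [hty, hty]
  congr 2
  ext r
  have h : ∀ ξ : Fin n → ℂ, yp (pe ξ) (c • v) = yp (pe ξ) v := fun ξ =>
    yp_homog (pe ξ) c hc v hv
  simp only [h]

/-- The loxodromic ends are compact. -/
private theorem cl_lox {δ : SUGroup n} {ξ : Fin n → ℂ} (hδ : δ ∈ Γ) (hξ : nq ξ = 1)
    (hs : δ ∈ St ξ) (h1 : ‖ml δ ξ‖ ≠ 1) (R₀ : ℝ) :
    ∃ R' : ℝ, ∀ (κ : SUGroup n) (t : ℝ) (x : SUGroup n), ch κ ≤ R₀ → 0 ≤ t → wt x ≤ 2 →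
      ∃ γ ∈ Γ, ch (γ * (κ * fl (mv κ⁻¹ ξ) t * x)) ≤ R' := by
  obtain ⟨R', hR'⟩ := lox_end (Γ := Γ) hδ hξ hs h1 R₀
  refine ⟨2 * R' * 2, fun κ t x hκ ht hx => ?_⟩
  obtain ⟨γ, hγ, h2⟩ := hR' κ t hκ ht
  refine ⟨γ, hγ, ?_⟩
  rw [← mul_assoc γ]
  have h3 := ch_mul_le' (γ * (κ * fl (mv κ⁻¹ ξ) t)) x
  have h4 := one_le_ch (γ * (κ * fl (mv κ⁻¹ ξ) t))
  have h5 := one_le_ch x
  have h6 := (ch_le_wt x).trans hx
  calc _ ≤ 2 * ch (γ * (κ * fl (mv κ⁻¹ ξ) t)) * ch x := h3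
    _ ≤ 2 * R' * 2 := by gcongr; linarith

/-- The height on a ray to the line of a transvection. -/
private theorem cl_ray (hd : DiscreteTopology Γ) {γ₁ : SUGroup n} {ξ : Fin n → ℂ} {κ₁ : ℝ}
    (hγ₁ : γ₁ ∈ Γ) (h : IsTv γ₁ ξ κ₁) {R₀ : ℝ} (κ : SUGroup n) (t : ℝ) (x : SUGroup n)
    (hκ : ch κ ≤ R₀) (ht : 0 ≤ t) (hx : wt x ≤ 2) :
    ch (κ * fl (mv κ⁻¹ ξ) t * x) ^ 2 ≤ (8 * R₀) ^ 2 * (16 * R₀ ^ 2 * |κ₁|) *
      hty Γ (act (κ * fl (mv κ⁻¹ ξ) t * x) (base n)) := by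
  have hξ := h.1
  have hq : q (pe ξ) = 0 := by rw [q_pe, hξ, sub_self]
  have hκ₁ : 0 < |κ₁| := abs_pos.2 h.2.1
  have hch := one_le_ch κ
  have hR₀ : 1 ≤ R₀ := hch.trans hκ
  have h1 := le_hty hd hγ₁ h (κ * fl (mv κ⁻¹ ξ) t * x)
  have h2 := yp_harn (pe_ne_zero ξ) hq (κ * fl (mv κ⁻¹ ξ) t * x) x⁻¹
  rw [mul_inv_cancel_right, yp_ray hξ, wt_inv] at h2
  have h3 : (1 : ℝ) / (2 * R₀) ^ 2 ≤ yp (pe ξ) (act κ (base n)) := by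
    rw [yp_pe, one_div]
    have h4 := (norm_ml_le hξ κ⁻¹).1
    rw [wt_inv] at h4
    have h5 : 0 < ‖ml κ⁻¹ ξ‖ := norm_pos_iff.2 (ml_ne_zero hξ _)
    have h6 : ‖ml κ⁻¹ ξ‖ ≤ 2 * R₀ := h4.trans ((wt_le κ).trans (by linarith))
    gcongr
  set H := hty Γ (act (κ * fl (mv κ⁻¹ ξ) t * x) (base n)) with hH
  set Y := yp (pe ξ) (act (κ * fl (mv κ⁻¹ ξ) t * x) (base n)) with hY
  have hY0 : 0 < Y := yp_pos (pe_ne_zero ξ) hq (orbit_mem _)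
  have hwx := one_le_wt x
  have h7 : Real.exp (2 * t) * (1 / (2 * R₀) ^ 2) ≤ 2 ^ 2 * Y := by
    calc Real.exp (2 * t) * (1 / (2 * R₀) ^ 2)
        ≤ Real.exp (2 * t) * yp (pe ξ) (act κ (base n)) :=
          mul_le_mul_of_nonneg_left h3 (Real.exp_pos _).le
      _ ≤ wt x ^ 2 * Y := h2
      _ ≤ 2 ^ 2 * Y := by gcongr
  rw [div_le_iff₀ hκ₁] at h1
  have h8 : Real.exp (2 * t) ≤ 16 * R₀ ^ 2 * |κ₁| * H := by
    rw [mul_one_div, div_le_iff₀ (by positivity)] at h7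
    calc Real.exp (2 * t) ≤ 2 ^ 2 * Y * (2 * R₀) ^ 2 := h7
      _ ≤ 2 ^ 2 * (H * |κ₁|) * (2 * R₀) ^ 2 := by gcongr
      _ = 16 * R₀ ^ 2 * |κ₁| * H := by ring
  have h9 : ch (fl (mv κ⁻¹ ξ) t) ≤ Real.exp t := by
    refine (ch_le_wt _).trans ((wt_fl_le _ _).trans ?_)
    rw [abs_of_nonneg ht]
  have h10 := ch_mul_le' (κ * fl (mv κ⁻¹ ξ) t) x
  have h11 := ch_mul_le' κ (fl (mv κ⁻¹ ξ) t)
  have h12 := (ch_le_wt x).trans hx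
  have h13 := one_le_ch x
  have h14 := one_le_ch (fl (mv κ⁻¹ ξ) t)
  have h15 : ch (κ * fl (mv κ⁻¹ ξ) t * x) ≤ 8 * R₀ * Real.exp t := by
    calc ch (κ * fl (mv κ⁻¹ ξ) t * x) ≤ 2 * ch (κ * fl (mv κ⁻¹ ξ) t) * ch x := h10
      _ ≤ 2 * (2 * ch κ * ch (fl (mv κ⁻¹ ξ) t)) * ch x := by gcongr
      _ ≤ 2 * (2 * R₀ * Real.exp t) * 2 := by gcongr
      _ = _ := by ring
  have h16 := one_le_ch (κ * fl (mv κ⁻¹ ξ) t * x)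
  calc ch (κ * fl (mv κ⁻¹ ξ) t * x) ^ 2 ≤ (8 * R₀ * Real.exp t) ^ 2 := by gcongr
    _ = (8 * R₀) ^ 2 * Real.exp (2 * t) := by
        rw [two_mul, Real.exp_add]
        ring
    _ ≤ (8 * R₀) ^ 2 * (16 * R₀ ^ 2 * |κ₁| * H) := by gcongr
    _ = _ := by ring

/-- Depth: modulo `Γ` the distance to the base point is controlled by the height
(`exists_rays`, `lox_end`, `horo`, `exists_unip`, `exists_transv`, `yp_ray`). -/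
theorem hty_depth (hn : 2 ≤ n) {χ : SUGroup n → ℝ} (hL : Lat Γ χ) (hT : TF Γ) (hTor : Tor Γ) :
    ∃ C : ℝ, 0 < C ∧ ∀ g : SUGroup n, ∃ γ ∈ Γ, ch (γ * g) ^ 2 ≤ C * hty Γ (act g (base n)) := by
  obtain ⟨R₀, X, hX⟩ := exists_rays hL hT
  have key : ∀ ξ ∈ X, ∃ C : ℝ, ∀ (κ : SUGroup n) (t : ℝ) (x : SUGroup n), ch κ ≤ R₀ → 0 ≤ t →
      wt x ≤ 2 → ∃ γ ∈ Γ, ch (γ * (κ * fl (mv κ⁻¹ ξ) t * x)) ^ 2 ≤
        C * hty Γ (act (κ * fl (mv κ⁻¹ ξ) t * x) (base n)) := by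
    intro ξ hξX
    have hξ := hX.unit ξ hξX
    by_cases hP : Par Γ ξ
    · obtain ⟨x₀, hx₀, hx₀1, hx₀s⟩ := hX.fixed ξ hξX
      obtain ⟨R₁, hR₁⟩ := horo hT hTor hL.disc hX hP ⟨x₀, hx₀, hx₀1, hx₀s⟩
      obtain ⟨Δ, hΔ, _, hΔ1, R₂, hR₂⟩ := exists_unip hL.disc hP hR₁
      obtain ⟨γ₁, hγ₁, κ₁, h⟩ := exists_transv hn hξ (hΔ.trans inf_le_right) hΔ1 hR₂
      refine ⟨(8 * R₀) ^ 2 * (16 * R₀ ^ 2 * |κ₁|), fun κ t x hκ ht hx => ⟨1, Γ.one_mem, ?_⟩⟩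
      rw [one_mul]
      exact cl_ray hL.disc (hΔ hγ₁).1 h κ t x hκ ht hx
    · have h1 : ∃ δ ∈ Γ, δ ∈ St ξ ∧ ‖ml δ ξ‖ ≠ 1 := by
        by_contra hne
        push Not at hne
        refine hP ⟨hξ, fun δ hδ hs => ?_⟩
        rw [mem_PS hξ]
        exact ⟨(mem_St hξ).1 hs, hne δ hδ hs⟩
      obtain ⟨δ, hδ, hs, h2⟩ := h1
      obtain ⟨R', hR'⟩ := cl_lox hδ hξ hs h2 R₀
      refine ⟨R' ^ 2, fun κ t x hκ ht hx => ?_⟩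
      obtain ⟨γ, hγ, h3⟩ := hR' κ t x hκ ht hx
      refine ⟨γ, hγ, ?_⟩
      have h4 := one_le_ch (γ * (κ * fl (mv κ⁻¹ ξ) t * x))
      have h5 : 1 ≤ hty Γ (act (κ * fl (mv κ⁻¹ ξ) t * x) (base n)) := le_max_left _ _
      calc ch (γ * (κ * fl (mv κ⁻¹ ξ) t * x)) ^ 2 ≤ R' ^ 2 * 1 := by rw [mul_one]; gcongr
        _ ≤ _ := by gcongr
  choose! B hB using key
  obtain ⟨M, hM⟩ : ∃ M : ℝ, ∀ ξ ∈ X, B ξ ≤ M := by
    obtain ⟨M, hM⟩ := (hX.fin.image B).bddAbove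
    exact ⟨M, fun ξ hξ => hM ⟨ξ, hξ, rfl⟩⟩
  refine ⟨max 1 (max (R₀ ^ 2) M), by positivity, fun g => ?_⟩
  have h0 : 1 ≤ hty Γ (act g (base n)) := le_max_left _ _
  obtain ⟨γ, hγ, h1 | ⟨κ, ξ, t, x, hξ, hκ, ht, hx, h2⟩⟩ := hX.cover g
  · refine ⟨γ, hγ, ?_⟩
    have h3 := one_le_ch (γ * g)
    calc ch (γ * g) ^ 2 ≤ R₀ ^ 2 * 1 := by rw [mul_one]; gcongr
      _ ≤ max 1 (max (R₀ ^ 2) M) * hty Γ (act g (base n)) := by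
          gcongr
          exact (le_max_left _ _).trans (le_max_right _ _)
  · obtain ⟨γ', hγ', h4⟩ := hB ξ hξ κ t x hκ ht hx
    rw [← h2, act_mul, cl_inv hγ] at h4
    refine ⟨γ' * γ, Γ.mul_mem hγ' hγ, ?_⟩
    rw [mul_assoc]
    refine h4.trans ?_
    gcongr
    exact (hM ξ hξ).trans ((le_max_right _ _).trans (le_max_right _ _))

/-- Sublevel sets are compact modulo `Γ`: `exists_rays`, `lox_end`, `horo`, `exists_unip`,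
`exists_transv`, `yp_ray`. -/
theorem hty_cpt (hn : 2 ≤ n) {χ : SUGroup n → ℝ} (hL : Lat Γ χ) (hT : TF Γ) (hTor : Tor Γ)
    (R : ℝ) : ∃ R' : ℝ, ∀ g : SUGroup n, hty Γ (act g (base n)) ≤ R →
      ∃ γ ∈ Γ, ch (γ * g) ≤ R' := by
  obtain ⟨C, hC, h⟩ := hty_depth hn hL hT hTor
  refine ⟨C * R, fun g hg => ?_⟩
  obtain ⟨γ, hγ, h1⟩ := h g
  refine ⟨γ, hγ, ?_⟩
  have h2 := one_le_ch (γ * g)
  calc ch (γ * g) ≤ ch (γ * g) ^ 2 := by nlinarith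
    _ ≤ C * hty Γ (act g (base n)) := h1
    _ ≤ C * R := by gcongr

/-- Invariance (for all vectors). -/
theorem hty_act {γ : SUGroup n} (hγ : γ ∈ Γ) (v : Vec n) : hty Γ (act γ v) = hty Γ v :=
  cl_inv hγ v

/-- If `γ` normalises `Γ` the height function of `Γ` is invariant under `γ`. -/
theorem hty_act_of_normal {δ : SUGroup n} (hδ : ∀ γ : SUGroup n, γ ∈ Γ ↔ δ * γ * δ⁻¹ ∈ Γ)
    (v : Vec n) : hty Γ (act δ v) = hty Γ v := by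
  have key : ∀ (δ : SUGroup n) (v : Vec n), (∀ γ ∈ Γ, δ⁻¹ * γ * δ ∈ Γ) →
      {r : ℝ | ∃ γ ∈ Γ, ∃ ξ κ, IsTv γ ξ κ ∧ r = yp (pe ξ) (act δ v) / |κ|} ⊆
        {r : ℝ | ∃ γ ∈ Γ, ∃ ξ κ, IsTv γ ξ κ ∧ r = yp (pe ξ) v / |κ|} := by
    rintro δ v hδ r ⟨γ, hγ, ξ, κ, h, rfl⟩
    have hm := hδ γ hγ
    have h0 := cl_conj (γ' := δ⁻¹) h
    rw [inv_inv] at h0
    refine ⟨_, hm, _, _, h0, ?_⟩
    have e : act δ⁻¹ (pe ξ) = ml δ⁻¹ ξ • pe (mv δ⁻¹ ξ) := act_pe h.1 _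
    have e1 : act δ (act δ⁻¹ (pe ξ)) = pe ξ := by rw [← act_mul, mul_inv_cancel, act_one]
    have h5 : 0 < ‖ml δ⁻¹ ξ‖ := norm_pos_iff.2 (ml_ne_zero h.1 _)
    have h6 : 0 < |κ| := abs_pos.2 h.2.1
    have e2 : yp (pe ξ) (act δ v) = yp (pe (mv δ⁻¹ ξ)) v / ‖ml δ⁻¹ ξ‖ ^ 2 := by
      rw [← yp_smul, ← e, ← yp_act δ (act δ⁻¹ (pe ξ)), e1]
    rw [e2, abs_mul, abs_of_nonneg (sq_nonneg ‖ml δ⁻¹ ξ‖)]
    field_simp
  rw [hty, hty]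
  congr 2
  refine Set.Subset.antisymm (key δ v fun γ hγ => ?_) ?_
  · rw [hδ]
    have e : δ * (δ⁻¹ * γ * δ) * δ⁻¹ = γ := by group
    rwa [e]
  · have h := key δ⁻¹ (act δ v) fun γ hγ => ?_
    · rwa [← act_mul, inv_mul_cancel, act_one] at h
    · rw [inv_inv]
      exact (hδ γ).1 hγ

private theorem cl_harn (hd : DiscreteTopology Γ) (g x : SUGroup n) :
    hty Γ (act (g * x) (base n)) ≤ wt x ^ 2 * hty Γ (act g (base n)) := by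
  have hw : 1 ≤ wt x ^ 2 := one_le_pow₀ (one_le_wt x)
  have h1 : 1 ≤ hty Γ (act g (base n)) := le_max_left _ _
  rcases le_or_gt (hty Γ (act (g * x) (base n))) 1 with h | h
  · nlinarith
  · obtain ⟨γ, hγ, ξ, κ, h2, h3⟩ := exists_hty hd (g * x) h
    have hq : q (pe ξ) = 0 := by rw [q_pe, h2.1, sub_self]
    have h4 := yp_harn (pe_ne_zero ξ) hq g x
    have hκ : 0 < |κ| := abs_pos.2 h2.2.1
    have h5 := le_hty hd hγ h2 g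
    rw [h3]
    calc yp (pe ξ) (act (g * x) (base n)) / |κ|
        ≤ (wt x ^ 2 * yp (pe ξ) (act g (base n))) / |κ| := by gcongr
      _ = wt x ^ 2 * (yp (pe ξ) (act g (base n)) / |κ|) := by rw [mul_div_assoc]
      _ ≤ _ := mul_le_mul_of_nonneg_left h5 (by positivity)

/-- C18. -/
theorem ht_hty (hn : 2 ≤ n) {χ : SUGroup n → ℝ} (hL : Lat Γ χ) (hT : TF Γ) (hTor : Tor Γ) :
    Ht Γ 64 (hty Γ) where
  hom := cl_hom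
  inv γ hγ v _ := cl_inv hγ v
  one_le _ _ := le_max_left _ _
  harn := cl_harn hL.disc
  nul := by
    intro g hg
    obtain ⟨γ, hγ, ξ, κ, h2, h3⟩ := exists_hty hL.disc g (by linarith)
    have hκ : 0 < |κ| := abs_pos.2 h2.2.1
    have hs : 0 < Real.sqrt |κ| := Real.sqrt_pos.2 hκ
    have e : ∀ v : Vec n, yp (((Real.sqrt |κ| : ℝ) : ℂ) • pe ξ) v = yp (pe ξ) v / |κ| := by
      intro v
      rw [yp_smul, Complex.norm_real, Real.norm_eq_abs, abs_of_pos hs, Real.sq_sqrt hκ.le]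
    refine ⟨((Real.sqrt |κ| : ℝ) : ℂ) • pe ξ,
      smul_ne_zero (Complex.ofReal_ne_zero.2 hs.ne') (pe_ne_zero ξ), ?_, ?_, ?_, ?_⟩
    · rw [q_smul, q_pe, h2.1, sub_self, mul_zero]
    · rw [e, h3]
    · intro h
      rw [e]
      exact le_hty hL.disc hγ h2 h
    · intro h h4
      rw [e] at h4 ⊢
      exact hty_unique hL.disc hT hγ h2 h3 (by linarith)
  cpt := by
    intro R
    obtain ⟨R', hR'⟩ := hty_cpt hn hL hT hTor R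
    exact ⟨{x | ch x ≤ R'}, isCompact_ball R', fun g hg => hR' g hg⟩

/-- Either `Γ` contains a transvection or it is cocompact. -/
theorem coc_or_tv (hn : 2 ≤ n) {χ : SUGroup n → ℝ} (hL : Lat Γ χ) (hT : TF Γ) (hTor : Tor Γ) :
    Coc Γ ∨ ∃ γ ∈ Γ, ∃ ξ κ, IsTv γ ξ κ := by
  by_cases h : ∃ γ ∈ Γ, ∃ ξ κ, IsTv γ ξ κ
  · exact Or.inr h
  · left
    obtain ⟨R', hR'⟩ := hty_cpt hn hL hT hTor 1
    refine ⟨hL.disc, {x | ch x ≤ R'}, isCompact_ball R', fun g => hR' g ?_⟩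
    rw [hty]
    have e : {r : ℝ | ∃ γ ∈ Γ, ∃ ξ κ, IsTv γ ξ κ ∧ r = yp (pe ξ) (act g (base n)) / |κ|} = ∅ := by
      rw [Set.eq_empty_iff_forall_notMem]
      rintro r ⟨γ, hγ, ξ, κ, h1, _⟩
      exact h ⟨γ, hγ, ξ, κ, h1⟩
    rw [e, Real.sSup_empty]
    norm_num

end Pool.Agent.Lib.MP_5d4057_al.NU
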