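import Pool.Agent.Lib.MP_5d4057_al.NU.LatA
import Pool.Agent.Lib.MP_5d4057_al.HM.Mom

/-! Convergence of `∑_γ ch (γ g) ^ (-2 s)` for discrete subgroups. -/

set_option autoImplicit false

namespace Pool.Agent.Lib.MP_5d4057_al.NU

open Matrix MeasureTheory Filter Topology Pool.Agent.Lib.MP_5d4057_al
  Pool.Agent.Lib.MP_5d4057_al.Hyb Pool.Agent.Lib.MP_5d4057_al.HM

open scoped ComplexOrder MatrixOrder Matrix.Norms.L2Operator ENNReal

variable {n : ℕ} {Γ : Subgroup (SUGroup n)}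

/-- the ball of radius two has positive finite measure -/
theorem ball_two (n : ℕ) : 0 < mu n {x : SUGroup n | ch x ≤ 2} ∧
    mu n {x : SUGroup n | ch x ≤ 2} < ⊤ := by
  refine ⟨?_, (isCompact_ball 2).measure_lt_top⟩
  have ho : IsOpen {x : SUGroup n | ch x < 2} := isOpen_lt continuous_ch continuous_const
  have hne : ({x : SUGroup n | ch x < 2}).Nonempty := ⟨1, by
    show ch (1 : SUGroup n) < 2
    rw [ch_one]
    norm_num⟩
  exact lt_of_lt_of_le (ho.measure_pos (mu n) hne) (measure_mono fun x (hx : ch x < 2) => hx.le)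

/-- the kernel along the orbit is comparable near a point -/
theorem inv_ch_le (s : ℕ) (y x : SUGroup n) :
    (ch y ^ (2 * s))⁻¹ ≤ wt x ^ (2 * s) * (ch (y * x) ^ (2 * s))⁻¹ := by
  have h1 : ch (y * x) ≤ wt x * ch y := by
    have h2 := ch_mul_le_wt x⁻¹ y⁻¹
    rw [← _root_.mul_inv_rev, ch_inv, wt_inv, ch_inv] at h2
    exact h2
  have p1 := ch_pos y
  have p2 := ch_pos (y * x)
  have h2 : ch (y * x) ^ (2 * s) ≤ wt x ^ (2 * s) * ch y ^ (2 * s) := by
    rw [← mul_pow]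
    exact pow_le_pow_left₀ p2.le h1 _
  have p3 : 0 < ch y ^ (2 * s) := pow_pos p1 _
  have p4 : 0 < ch (y * x) ^ (2 * s) := pow_pos p2 _
  rw [inv_le_iff_one_le_mul₀ p3, mul_assoc, mul_comm (ch (y * x) ^ (2 * s))⁻¹, ← mul_assoc,
    ← div_eq_mul_inv, one_le_div p4]
  exact h2

/-- L5, convergence. -/
theorem tsum_ch_lt (h : DiscreteTopology Γ) {s : ℕ} (hs : n < s) (g : SUGroup n) :
    ∑' γ : Γ, ENNReal.ofReal ((ch ((γ : SUGroup n) * g) ^ (2 * s))⁻¹) < ⊤ := by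
  have := countable_disc h
  obtain ⟨hv0, hv1⟩ := ball_two n
  obtain ⟨V, hV⟩ : ∃ V : Set (SUGroup n), V = {x : SUGroup n | ch x ≤ 2} := ⟨_, rfl⟩
  rw [← hV] at hv0 hv1
  have hVm : MeasurableSet V := by
    rw [hV]
    exact measurableSet_le continuous_ch.measurable measurable_const
  obtain ⟨M, hM⟩ := card_le h (4 * ch g)
  obtain ⟨φ, hφ⟩ : ∃ φ : SUGroup n → ℝ≥0∞, φ = fun y => ENNReal.ofReal ((ch y ^ (2 * s))⁻¹) :=
    ⟨_, rfl⟩
  have hcont : Continuous fun y : SUGroup n => (ch y ^ (2 * s))⁻¹ :=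
    (continuous_ch.pow _).inv₀ fun y => (pow_pos (ch_pos y) _).ne'
  have hφm : Measurable φ := by
    rw [hφ]
    exact hcont.measurable.ennreal_ofReal
  have hφi : ∫⁻ y, φ y ∂(mu n) < ⊤ := by
    rw [hφ]
    exact (integrable_inv hs).lintegral_lt_top
  -- one term
  have h1 : ∀ γ : Γ, φ ((γ : SUGroup n) * g) * mu n V ≤ ENNReal.ofReal (4 ^ (2 * s)) *
      ∫⁻ z, V.indicator (fun _ => (1 : ℝ≥0∞)) (((γ : SUGroup n) * g)⁻¹ * z) * φ z ∂(mu n) := by
    intro γ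
    have e1 : ∫⁻ z, V.indicator (fun _ => (1 : ℝ≥0∞)) (((γ : SUGroup n) * g)⁻¹ * z) * φ z ∂(mu n) =
        ∫⁻ x, V.indicator (fun _ => (1 : ℝ≥0∞)) x * φ ((γ : SUGroup n) * g * x) ∂(mu n) := by
      have h2 := lintegral_mul_left_eq_self (μ := mu n) (fun z =>
        V.indicator (fun _ => (1 : ℝ≥0∞)) (((γ : SUGroup n) * g)⁻¹ * z) * φ z) ((γ : SUGroup n) * g)
      simp only [inv_mul_cancel_left] at h2
      exact h2.symm
    have e2 : φ ((γ : SUGroup n) * g) * mu n V =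
        ∫⁻ x, V.indicator (fun _ => φ ((γ : SUGroup n) * g)) x ∂(mu n) := by
      rw [lintegral_indicator_const hVm]
    rw [e1, e2, ← lintegral_const_mul' _ _ ENNReal.ofReal_ne_top]
    refine lintegral_mono fun x => ?_
    show V.indicator (fun _ => φ ((γ : SUGroup n) * g)) x ≤ ENNReal.ofReal (4 ^ (2 * s)) *
      (V.indicator (fun _ => (1 : ℝ≥0∞)) x * φ ((γ : SUGroup n) * g * x))
    by_cases hx : x ∈ V
    · rw [Set.indicator_of_mem hx, Set.indicator_of_mem hx, one_mul, hφ]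
      show ENNReal.ofReal _ ≤ ENNReal.ofReal _ * ENNReal.ofReal _
      rw [← ENNReal.ofReal_mul (by positivity)]
      refine ENNReal.ofReal_le_ofReal ?_
      refine (inv_ch_le s ((γ : SUGroup n) * g) x).trans ?_
      have hx2 : ch x ≤ 2 := by
        rw [hV] at hx
        exact hx
      have h3 : wt x ≤ 4 := by linarith [wt_le x]
      have h4 : wt x ^ (2 * s) ≤ 4 ^ (2 * s) :=
        pow_le_pow_left₀ (by linarith [one_le_wt x]) h3 _
      exact mul_le_mul_of_nonneg_right h4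
        (inv_nonneg.2 (pow_nonneg (ch_pos _).le _))
    · rw [Set.indicator_of_notMem hx]
      exact zero_le
  -- the multiplicity
  have h2 : ∀ z : SUGroup n, ∑' γ : Γ, V.indicator (fun _ => (1 : ℝ≥0∞))
      (((γ : SUGroup n) * g)⁻¹ * z) ≤ M := by
    intro z
    obtain ⟨hfin, hcard⟩ := hM z
    have e1 : ∑' γ : Γ, V.indicator (fun _ => (1 : ℝ≥0∞)) (((γ : SUGroup n) * g)⁻¹ * z) =
        ∑' γ : Γ, V.indicator (fun _ => (1 : ℝ≥0∞)) (g⁻¹ * ((γ : SUGroup n) * z)) := by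
      rw [← (Equiv.inv Γ).tsum_eq fun γ : Γ =>
        V.indicator (fun _ => (1 : ℝ≥0∞)) (g⁻¹ * ((γ : SUGroup n) * z))]
      refine tsum_congr fun γ => ?_
      rw [Equiv.inv_apply, Subgroup.coe_inv, _root_.mul_inv_rev, mul_assoc]
    rw [e1]
    have e2 : ∀ γ ∉ hfin.toFinset,
        V.indicator (fun _ => (1 : ℝ≥0∞)) (g⁻¹ * ((γ : SUGroup n) * z)) = 0 := by
      intro γ hγ
      rw [Set.Finite.mem_toFinset] at hγ
      refine Set.indicator_of_notMem (fun hx => hγ ?_) _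
      rw [hV] at hx
      have hx' : ch (g⁻¹ * ((γ : SUGroup n) * z)) ≤ 2 := hx
      show ch ((γ : SUGroup n) * z) ≤ 4 * ch g
      have h3 := ch_mul_le' g (g⁻¹ * ((γ : SUGroup n) * z))
      rw [mul_inv_cancel_left] at h3
      nlinarith [ch_pos g]
    rw [tsum_eq_sum e2]
    calc ∑ γ ∈ hfin.toFinset, V.indicator (fun _ => (1 : ℝ≥0∞)) (g⁻¹ * ((γ : SUGroup n) * z))
        ≤ ∑ γ ∈ hfin.toFinset, (1 : ℝ≥0∞) :=
          Finset.sum_le_sum fun γ _ => Set.indicator_le_self' (fun _ _ => zero_le) _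
      _ = (hfin.toFinset.card : ℝ≥0∞) := by simp
      _ ≤ M := by
          rw [← Set.ncard_eq_toFinset_card _ hfin]
          exact_mod_cast hcard
  have h3 : (∑' γ : Γ, φ ((γ : SUGroup n) * g)) * mu n V ≤
      ENNReal.ofReal (4 ^ (2 * s)) * (M * ∫⁻ z, φ z ∂(mu n)) := by
    rw [← ENNReal.tsum_mul_right]
    refine (ENNReal.tsum_le_tsum h1).trans ?_
    rw [ENNReal.tsum_mul_left]
    refine mul_le_mul_right ?_ _
    rw [← lintegral_tsum fun γ => ?_, ← lintegral_const_mul _ hφm]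
    · refine lintegral_mono fun z => ?_
      show ∑' γ : Γ, V.indicator (fun _ => (1 : ℝ≥0∞)) (((γ : SUGroup n) * g)⁻¹ * z) * φ z ≤
        M * φ z
      rw [ENNReal.tsum_mul_right]
      exact mul_le_mul_left (h2 z) _
    · have hm1 : Measurable fun z : SUGroup n =>
          V.indicator (fun _ => (1 : ℝ≥0∞)) (((γ : SUGroup n) * g)⁻¹ * z) :=
        (measurable_const.indicator hVm).comp (measurable_const_mul _)
      exact (hm1.mul hφm).aemeasurable
  have h4 : (∑' γ : Γ, φ ((γ : SUGroup n) * g)) * mu n V < ⊤ :=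
    lt_of_le_of_lt h3 (ENNReal.mul_lt_top ENNReal.ofReal_lt_top
      (ENNReal.mul_lt_top (ENNReal.natCast_lt_top M) hφi))
  have h5 : (∑' γ : Γ, φ ((γ : SUGroup n) * g)) < ⊤ := by
    by_contra h6
    rw [top_le_iff.1 (not_lt.1 h6), ENNReal.top_mul hv0.ne'] at h4
    exact lt_irrefl _ h4
  rw [hφ] at h5
  exact h5

theorem summable_ch (h : DiscreteTopology Γ) {s : ℕ} (hs : n < s) (g : SUGroup n) :
    Summable fun γ : Γ => (ch ((γ : SUGroup n) * g) ^ (2 * s))⁻¹ := by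
  have h1 := ENNReal.summable_toReal (tsum_ch_lt h hs g).ne
  refine h1.congr fun γ => ?_
  rw [ENNReal.toReal_ofReal (inv_nonneg.2 (pow_nonneg (ch_pos _).le _))]

/-- the form with inverses on the left -/
theorem summable_ch_inv (h : DiscreteTopology Γ) {s : ℕ} (hs : n < s) (g : SUGroup n) :
    Summable fun γ : Γ => (ch ((γ : SUGroup n)⁻¹ * g) ^ (2 * s))⁻¹ := by
  have h1 := (Equiv.inv Γ).summable_iff.2 (summable_ch h hs g)
  refine h1.congr fun γ => ?_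
  simp

/-- the minimum of `ch` on an orbit -/
theorem exists_min_ch (h : DiscreteTopology Γ) (g : SUGroup n) :
    ∃ γ₀ : Γ, ∀ γ : Γ, ch ((γ₀ : SUGroup n) * g) ≤ ch ((γ : SUGroup n) * g) := by
  obtain ⟨M, hM⟩ := card_le h (ch g)
  obtain ⟨hfin, -⟩ := hM g
  have hne : {γ : Γ | ch ((γ : SUGroup n) * g) ≤ ch g}.Nonempty := ⟨1, by simp⟩
  obtain ⟨γ₀, h0, h1⟩ := Set.exists_min_image _ (fun γ : Γ => ch ((γ : SUGroup n) * g)) hfin hne
  refine ⟨γ₀, fun γ => ?_⟩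
  by_cases hγ : ch ((γ : SUGroup n) * g) ≤ ch g
  · exact h1 γ hγ
  · have h2 : ch ((γ₀ : SUGroup n) * g) ≤ ch g := h0
    linarith

/-- The orbit sum is uniformly bounded. -/
theorem sum_ch_unif (h : DiscreteTopology Γ) {s : ℕ} (hs : 2 * n + 2 ≤ s) : ∃ C : ℝ, 0 < C ∧
    ∀ g : SUGroup n, ∑' γ : Γ, (ch ((γ : SUGroup n) * g) ^ (2 * s))⁻¹ ≤ C := by
  have h0 := summable_ch h (s := n + 1) (by omega) 1
  simp only [mul_one] at h0
  obtain ⟨S, hS⟩ : ∃ S : ℝ, S = ∑' γ : Γ, (ch (γ : SUGroup n) ^ (2 * (n + 1)))⁻¹ := ⟨_, rfl⟩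
  have hS0 : 0 ≤ S := by
    rw [hS]
    exact tsum_nonneg fun γ => inv_nonneg.2 (pow_nonneg (ch_pos _).le _)
  refine ⟨2 ^ s * S + 1, by positivity, fun g => ?_⟩
  obtain ⟨γ₀, hγ₀⟩ := exists_min_ch h g
  obtain ⟨g₀, hg₀⟩ : ∃ g₀ : SUGroup n, g₀ = (γ₀ : SUGroup n) * g := ⟨_, rfl⟩
  have hmin : ∀ γ : Γ, ch g₀ ≤ ch ((γ : SUGroup n) * g₀) := by
    intro γ
    have h1 := hγ₀ (γ * γ₀)
    rw [Subgroup.coe_mul, mul_assoc, ← hg₀] at h1
    exact h1
  have e1 : ∑' γ : Γ, (ch ((γ : SUGroup n) * g) ^ (2 * s))⁻¹ =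
      ∑' γ : Γ, (ch ((γ : SUGroup n) * g₀) ^ (2 * s))⁻¹ := by
    rw [← (Equiv.mulRight γ₀).tsum_eq fun γ : Γ => (ch ((γ : SUGroup n) * g) ^ (2 * s))⁻¹]
    refine tsum_congr fun γ => ?_
    rw [Equiv.coe_mulRight, Subgroup.coe_mul, mul_assoc, ← hg₀]
  have h1 : ∀ γ : Γ, (ch ((γ : SUGroup n) * g₀) ^ (2 * s))⁻¹ ≤
      2 ^ s * (ch (γ : SUGroup n) ^ (2 * (n + 1)))⁻¹ := by
    intro γ
    have p0 := one_le_ch (γ : SUGroup n)
    have p1 := ch_pos ((γ : SUGroup n) * g₀)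
    have h2 : ch (γ : SUGroup n) ≤ 2 * ch ((γ : SUGroup n) * g₀) ^ 2 := by
      have h3 := ch_mul_le' ((γ : SUGroup n) * g₀) g₀⁻¹
      rw [mul_inv_cancel_right, ch_inv] at h3
      have h4 := hmin γ
      nlinarith
    have h3 : ch (γ : SUGroup n) ^ s ≤ 2 ^ s * ch ((γ : SUGroup n) * g₀) ^ (2 * s) := by
      have h4 := pow_le_pow_left₀ (by linarith) h2 s
      rwa [mul_pow, ← pow_mul] at h4
    have h4 : ch (γ : SUGroup n) ^ (2 * (n + 1)) ≤ ch (γ : SUGroup n) ^ s :=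
      pow_le_pow_right₀ p0 (by omega)
    have p2 : 0 < ch (γ : SUGroup n) ^ (2 * (n + 1)) := pow_pos (by linarith) _
    have p3 : 0 < ch ((γ : SUGroup n) * g₀) ^ (2 * s) := pow_pos p1 _
    rw [← div_eq_mul_inv, inv_le_comm₀ p3 (by positivity), inv_div, div_le_iff₀ (by positivity)]
    linarith
  have hs1 := summable_ch h (s := s) (by omega) g₀
  rw [e1]
  have h2 := hs1.tsum_le_tsum h1 (h0.mul_left _)
  rw [tsum_mul_left, ← hS] at h2
  linarith

/-- The orbit sum is continuous. -/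
theorem continuous_sum_ch (h : DiscreteTopology Γ) {s : ℕ} (hs : n < s) :
    Continuous fun g : SUGroup n => ∑' γ : Γ, (ch ((γ : SUGroup n) * g) ^ (2 * s))⁻¹ := by
  rw [continuous_iff_continuousAt]
  intro g
  have hnb : {x : SUGroup n | wt (g⁻¹ * x) < 2} ∈ 𝓝 g := by
    have h1 : Continuous fun x : SUGroup n => wt (g⁻¹ * x) :=
      continuous_wt.comp (continuous_const_mul _)
    refine (isOpen_lt h1 continuous_const).mem_nhds ?_
    show wt (g⁻¹ * g) < 2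
    rw [inv_mul_cancel, wt_one]
    norm_num
  have hco : ContinuousOn (fun g : SUGroup n =>
      ∑' γ : Γ, (ch ((γ : SUGroup n) * g) ^ (2 * s))⁻¹) {x : SUGroup n | wt (g⁻¹ * x) < 2} := by
    refine continuousOn_tsum (u := fun γ : Γ =>
      2 ^ (2 * s) * (ch ((γ : SUGroup n) * g) ^ (2 * s))⁻¹) (fun γ => ?_)
      ((summable_ch h hs g).mul_left _) (fun γ x hx => ?_)
    · exact (((continuous_ch.comp (continuous_const_mul _)).pow _).inv₀ fun y =>
        (pow_pos (ch_pos _) _).ne').continuousOn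
    · have hx' : wt (g⁻¹ * x) < 2 := hx
      have h1 := inv_ch_le s ((γ : SUGroup n) * x) (g⁻¹ * x)⁻¹
      have e : (γ : SUGroup n) * x * (g⁻¹ * x)⁻¹ = (γ : SUGroup n) * g := by group
      rw [e, wt_inv] at h1
      have h2 : wt (g⁻¹ * x) ^ (2 * s) ≤ 2 ^ (2 * s) :=
        pow_le_pow_left₀ (by linarith [one_le_wt (g⁻¹ * x)]) hx'.le _
      have h3 : 0 ≤ (ch ((γ : SUGroup n) * g) ^ (2 * s))⁻¹ :=
        inv_nonneg.2 (pow_nonneg (ch_pos _).le _)
      rw [Real.norm_eq_abs, abs_of_nonneg (inv_nonneg.2 (pow_nonneg (ch_pos _).le _))]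
      exact h1.trans (mul_le_mul_of_nonneg_right h2 h3)
  exact hco.continuousAt hnb

end Pool.Agent.Lib.MP_5d4057_al.NU
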