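import Pool.Agent.Lib.MP_5d4057_al.NU.LatA2
import Pool.Agent.Lib.MP_5d4057_al.NU.SumCh

/-! A lattice has an integrable partition of unity (L5). -/

namespace Pool.Agent.Lib.MP_5d4057_al.NU

open Matrix MeasureTheory Filter Topology Pool.Agent.Lib.MP_5d4057_al
  Pool.Agent.Lib.MP_5d4057_al.Hyb Pool.Agent.Lib.MP_5d4057_al.HM
  Pool.Agent.Lib.MP_5d4057_al.HM.Kak

open scoped ComplexOrder MatrixOrder Matrix.Norms.L2Operator ENNReal

variable {n m : ℕ}

variable {Γ : Subgroup (SUGroup n)}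

/-- `χ = ch^(-2a) / ∑_γ ch(γ ·)^(-2a)`, `a = n + 1`: everything except integrability. -/
theorem exists_chi (hd : DiscreteTopology Γ) : ∃ χ : SUGroup n → ℝ, Continuous χ ∧
    (∀ g, 0 < χ g) ∧ ∀ g, ∑' γ : Γ, χ ((γ : SUGroup n) * g) = 1 := by
  have hchpos : ∀ x : SUGroup n, 0 < ch x := fun x => lt_of_lt_of_le one_pos (one_le_ch x)
  set φ : SUGroup n → ℝ := fun g => (ch g ^ (2 * (n + 1)))⁻¹ with hφ
  have hφpos : ∀ g, 0 < φ g := fun g => inv_pos.2 (pow_pos (hchpos g) _)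
  have hφc : Continuous φ := (continuous_ch.pow _).inv₀ fun g => (pow_pos (hchpos g) _).ne'
  set Θ : SUGroup n → ℝ := fun g => ∑' γ : Γ, φ ((γ : SUGroup n) * g) with hΘ
  have hΘc : Continuous Θ := continuous_sum_ch hd (by omega)
  have hsum : ∀ g, Summable fun γ : Γ => φ ((γ : SUGroup n) * g) := fun g =>
    summable_ch hd (by omega) g
  have hΘpos : ∀ g, 0 < Θ g := fun g =>
    (hsum g).tsum_pos (fun γ => (hφpos _).le) 1 (hφpos _)
  have hinv : ∀ (γ : Γ) (g : SUGroup n), Θ ((γ : SUGroup n) * g) = Θ g := by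
    intro γ g
    rw [hΘ]
    show ∑' δ : Γ, φ ((δ : SUGroup n) * (γ * g)) = ∑' δ : Γ, φ ((δ : SUGroup n) * g)
    rw [← (Equiv.mulRight γ).tsum_eq fun δ : Γ => φ ((δ : SUGroup n) * g)]
    refine tsum_congr fun δ => ?_
    rw [Equiv.coe_mulRight, Subgroup.coe_mul, mul_assoc]
  refine ⟨fun g => φ g / Θ g, hφc.div hΘc fun g => (hΘpos g).ne',
    fun g => div_pos (hφpos g) (hΘpos g), fun g => ?_⟩
  have h1 : ∀ γ : Γ, φ ((γ : SUGroup n) * g) / Θ ((γ : SUGroup n) * g) =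
      φ ((γ : SUGroup n) * g) / Θ g := fun γ => by rw [hinv]
  rw [tsum_congr h1, tsum_div_const]
  exact div_self (hΘpos g).ne'

/-- A lower semicontinuous function which is invariant descends to the quotient. -/
theorem lsc_lift {G : Type} [Group G] [TopologicalSpace G] [IsTopologicalGroup G]
    {Δ : Subgroup G} {X : Type} [TopologicalSpace X] {F : X × G → ℝ≥0∞}
    (hF : LowerSemicontinuous F) (hinv : ∀ x g, ∀ δ ∈ Δ, F (x, g * δ) = F (x, g)) :
    ∃ F' : X × (G ⧸ Δ) → ℝ≥0∞, LowerSemicontinuous F' ∧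
      ∀ x (g : G), F' (x, (g : G ⧸ Δ)) = F (x, g) := by
  have hwd : ∀ x, ∀ a b : G, (QuotientGroup.leftRel Δ).r a b → F (x, a) = F (x, b) := by
    intro x a b h
    have h1 : a⁻¹ * b ∈ Δ := QuotientGroup.leftRel_apply.1 h
    rw [← hinv x a _ h1, mul_inv_cancel_left]
  refine ⟨fun p => Quotient.liftOn' p.2 (fun g => F (p.1, g)) (hwd p.1), ?_, fun x g => rfl⟩
  rw [lowerSemicontinuous_iff_isOpen_preimage]
  intro t
  have hop : IsOpenMap (Prod.map (id : X → X) (fun g : G => (g : G ⧸ Δ))) :=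
    IsOpenMap.id.prodMap QuotientGroup.isOpenMap_coe
  have h1 := hop _ (hF.isOpen_preimage t)
  convert h1 using 1
  ext ⟨x, y⟩
  obtain ⟨g, rfl⟩ := QuotientGroup.mk_surjective y
  constructor
  · intro h
    exact ⟨(x, g), h, rfl⟩
  · rintro ⟨⟨x', g'⟩, h, he⟩
    have he1 : x' = x := congrArg Prod.fst he
    have he2 : (g' : G ⧸ Δ) = (g : G ⧸ Δ) := congrArg Prod.snd he
    subst he1
    have h2 : F (x', g') = F (x', g) := hwd x' g' g (QuotientGroup.leftRel_apply.2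
      (QuotientGroup.eq.1 he2))
    show t < F (x', g)
    rw [← h2]
    exact h

/-- The image of a nonempty open set has positive measure. -/
theorem quot_pos {G : Type} [Group G] [TopologicalSpace G] [IsTopologicalGroup G]
    [SecondCountableTopology G] {Δ : Subgroup G} [MeasurableSpace (G ⧸ Δ)] [BorelSpace (G ⧸ Δ)]
    (ν : Measure (G ⧸ Δ)) (hν0 : ν ≠ 0)
    (hinv : ∀ (g : G) (s : Set (G ⧸ Δ)), MeasurableSet s → ν ((fun x => g • x) ⁻¹' s) = ν s)
    {W : Set G} (hWo : IsOpen W) (hW1 : (1 : G) ∈ W) :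
    ν ((fun g : G => (g : G ⧸ Δ)) '' W) ≠ 0 := by
  classical
  have hop : IsOpenMap (fun g : G => (g : G ⧸ Δ)) := QuotientGroup.isOpenMap_coe
  intro h0
  apply hν0
  have hcov : ∀ g : G, ν ((fun g : G => (g : G ⧸ Δ)) '' ((fun w => g * w) '' W)) = 0 := by
    intro g
    have h1 := hinv g⁻¹ ((fun g : G => (g : G ⧸ Δ)) '' W) (hop W hWo).measurableSet
    have h2 : (fun g : G => (g : G ⧸ Δ)) '' ((fun w => g * w) '' W) ⊆
        (fun x => g⁻¹ • x) ⁻¹' ((fun g : G => (g : G ⧸ Δ)) '' W) := by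
      rintro x ⟨y, ⟨w, hw, rfl⟩, rfl⟩
      refine ⟨w, hw, ?_⟩
      show (w : G ⧸ Δ) = ((g⁻¹ * (g * w) : G) : G ⧸ Δ)
      rw [inv_mul_cancel_left]
    exact measure_mono_null h2 (h1.trans h0)
  obtain ⟨s, hs, hsc⟩ := TopologicalSpace.isOpen_iUnion_countable
    (fun g : G => (fun w => g * w) '' W) (fun g => isOpenMap_mul_left g W hWo)
  have huniv : (Set.univ : Set (G ⧸ Δ)) ⊆
      ⋃ g ∈ s, (fun g : G => (g : G ⧸ Δ)) '' ((fun w => g * w) '' W) := by
    intro x _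
    obtain ⟨g, rfl⟩ := QuotientGroup.mk_surjective x
    have hg : g ∈ ⋃ g : G, (fun w => g * w) '' W :=
      Set.mem_iUnion.2 ⟨g, 1, hW1, mul_one g⟩
    rw [← hsc] at hg
    obtain ⟨i, hi, hgi⟩ := Set.mem_iUnion₂.1 hg
    exact Set.mem_iUnion₂.2 ⟨i, hi, g, hgi, rfl⟩
  rw [← Measure.measure_univ_eq_zero]
  refine measure_mono_null huniv ?_
  rw [measure_biUnion_null_iff hs]
  intro g _
  exact hcov g

/-- A continuous function on `G` with bounded sums over the cosets of a lattice is integrable. -/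
theorem lintegral_lt_top_of_lattice (h : IsLattice Γ) {f : SUGroup n → ℝ} (hfc : Continuous f)
    (hf0 : ∀ g, 0 ≤ f g) {c₀ : ℝ≥0∞} (hc₀ : c₀ ≠ ⊤)
    (hsum : ∀ g, ∑' γ : Γ, ENNReal.ofReal (f (g * γ)) ≤ c₀) :
    ∫⁻ g, ENNReal.ofReal (f g) ∂(mu n) < ⊤ := by
  obtain ⟨hd, ν, hν0, hνf, hinv⟩ := h
  have := countable_disc hd
  let _ : MeasurableSpace (SUGroup n ⧸ Γ) := borel _
  have : BorelSpace (SUGroup n ⧸ Γ) := ⟨rfl⟩
  have : IsFiniteMeasure ν := ⟨lt_top_iff_ne_top.2 hνf⟩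
  have hchpos : ∀ x : SUGroup n, 0 < ch x := fun x => lt_of_lt_of_le one_pos (one_le_ch x)
  obtain ⟨ψ, hψ⟩ : ∃ ψ : SUGroup n → ℝ, ψ = fun x => max 0 (2 - ch x) := ⟨_, rfl⟩
  have hψc : Continuous ψ := by
    rw [hψ]
    exact continuous_const.max (continuous_const.sub continuous_ch)
  have hψ0 : ∀ x, 0 ≤ ψ x := fun x => by rw [hψ]; exact le_max_left _ _
  have hψs : ∀ x, 2 < ch x → ψ x = 0 := by
    intro x hx
    rw [hψ]
    exact max_eq_left (by linarith)
  obtain ⟨k, hk⟩ : ∃ k : SUGroup n × SUGroup n → ℝ≥0∞,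
      k = fun p => ENNReal.ofReal (f p.2 * ψ (p.1⁻¹ * p.2)) := ⟨_, rfl⟩
  have hkc : Continuous k := by
    rw [hk]
    refine ENNReal.continuous_ofReal.comp ?_
    exact (hfc.comp continuous_snd).mul (hψc.comp (continuous_fst.inv.mul continuous_snd))
  obtain ⟨F, hF⟩ : ∃ F : SUGroup n × SUGroup n → ℝ≥0∞,
      F = fun p => ∑' γ : Γ, k (p.1, p.2 * γ) := ⟨_, rfl⟩
  have hFl : LowerSemicontinuous F := by
    rw [hF]
    refine lowerSemicontinuous_tsum fun γ => Continuous.lowerSemicontinuous ?_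
    exact hkc.comp (continuous_fst.prodMk (continuous_snd.mul continuous_const))
  have hFi : ∀ x g, ∀ δ ∈ Γ, F (x, g * δ) = F (x, g) := by
    intro x g δ hδ
    rw [hF]
    show ∑' γ : Γ, k (x, g * δ * γ) = ∑' γ : Γ, k (x, g * γ)
    rw [← (Equiv.mulLeft (⟨δ, hδ⟩ : Γ)).tsum_eq fun γ : Γ => k (x, g * γ)]
    refine tsum_congr fun γ => ?_
    rw [Equiv.coe_mulLeft, Subgroup.coe_mul, mul_assoc]
  obtain ⟨F', hF'l, hF'⟩ := lsc_lift hFl hFi
  have hF'm : Measurable F' := hF'l.measurable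
  -- the sets
  obtain ⟨T, hT⟩ : ∃ T : Set (SUGroup n), T = {x | ch x < 2} := ⟨_, rfl⟩
  have hTo : IsOpen T := by
    rw [hT]
    exact isOpen_lt continuous_ch continuous_const
  have hT1 : (1 : SUGroup n) ∈ T := by
    rw [hT]
    show ch (1 : SUGroup n) < 2
    rw [ch_one]
    norm_num
  obtain ⟨Q, hQ⟩ : ∃ Q : Set (SUGroup n ⧸ Γ), Q = (fun g : SUGroup n => (g : SUGroup n ⧸ Γ)) '' T :=
    ⟨_, rfl⟩
  have hQo : IsOpen Q := by
    rw [hQ]
    exact QuotientGroup.isOpenMap_coe T hTo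
  have hQ0 : ν Q ≠ 0 := by
    rw [hQ]
    exact quot_pos ν hν0 hinv hTo hT1
  obtain ⟨b, hb⟩ : ∃ b : ℝ≥0∞, b = mu n {x : SUGroup n | ch x ≤ 8} := ⟨_, rfl⟩
  have hbf : b < ⊤ := by
    rw [hb]
    exact (isCompact_ball 8).measure_lt_top
  have hνi : ∀ (a : SUGroup n) (Φ : SUGroup n ⧸ Γ → ℝ≥0∞), Measurable Φ →
      ∫⁻ y, Φ (a • y) ∂ν = ∫⁻ y, Φ y ∂ν := by
    intro a Φ hΦ
    have hm : Measurable fun y : SUGroup n ⧸ Γ => a • y := (continuous_const_smul a).measurable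
    have h1 : Measure.map (fun y : SUGroup n ⧸ Γ => a • y) ν = ν := by
      refine Measure.ext fun s hs => ?_
      rw [Measure.map_apply hm hs]
      exact hinv a s hs
    conv_rhs => rw [← h1]
    rw [lintegral_map hΦ hm]
  -- the inequality for each `g`
  have key : ∀ g, ν Q * ∫⁻ x, k (g, x) ∂(mu n) ≤ b * ∫⁻ y, F' (g, y) ∂ν := by
    intro g
    have hFg : Measurable fun y => F' (g, y) := hF'm.comp measurable_prodMk_left
    obtain ⟨B, hB⟩ : ∃ B : Set (SUGroup n), B = {h | ch (g⁻¹ * h) ≤ 8} := ⟨_, rfl⟩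
    have hBm : MeasurableSet B := by
      rw [hB]
      exact measurableSet_le (continuous_ch.comp (continuous_const_mul g⁻¹)).measurable
        measurable_const
    have hBb : mu n B = b := by
      rw [hB, hb]
      exact measure_preimage_mul (mu n) g⁻¹ {x : SUGroup n | ch x ≤ 8}
    have hcm : Continuous fun p : SUGroup n × (SUGroup n ⧸ Γ) => (g, p.1 • p.2) :=
      continuous_const.prodMk continuous_smul
    have hlsc : Measurable fun p : SUGroup n × (SUGroup n ⧸ Γ) => F' (g, p.1 • p.2) :=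
      hF'm.comp hcm.measurable
    have h1 : ∫⁻ h in B, ∫⁻ y in Q, F' (g, h • y) ∂ν ∂(mu n) =
        ∫⁻ y in Q, ∫⁻ h in B, F' (g, h • y) ∂(mu n) ∂ν :=
      lintegral_lintegral_swap (f := fun h y => F' (g, h • y)) hlsc.aemeasurable
    calc ν Q * ∫⁻ x, k (g, x) ∂(mu n)
        = ∫⁻ _y in Q, ∫⁻ x, k (g, x) ∂(mu n) ∂ν := by
          rw [lintegral_const, Measure.restrict_apply MeasurableSet.univ, Set.univ_inter, mul_comm]
      _ ≤ ∫⁻ y in Q, ∫⁻ h in B, F' (g, h • y) ∂(mu n) ∂ν := by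
          refine setLIntegral_mono' hQo.measurableSet ?_
          intro y hy
          rw [hQ] at hy
          obtain ⟨t, ht, rfl⟩ := hy
          rw [hT] at ht
          have ht' : ch t < 2 := ht
          rw [← lintegral_mul_right_eq_self (fun x => k (g, x)) t, ← lintegral_indicator hBm]
          refine lintegral_mono fun h => ?_
          by_cases hh : h ∈ B
          · rw [Set.indicator_of_mem hh]
            show k (g, h * t) ≤ F' (g, ((h * t : SUGroup n) : SUGroup n ⧸ Γ))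
            rw [hF', hF]
            show k (g, h * t) ≤ ∑' γ : Γ, k (g, h * t * γ)
            refine le_trans (le_of_eq ?_) (ENNReal.le_tsum (1 : Γ))
            rw [Subgroup.coe_one, mul_one]
          · rw [Set.indicator_of_notMem hh]
            rw [hB] at hh
            have hh' : 8 < ch (g⁻¹ * h) := lt_of_not_ge hh
            rw [hk]
            show ENNReal.ofReal (f (h * t) * ψ (g⁻¹ * (h * t))) ≤ 0
            rw [hψs, mul_zero, ENNReal.ofReal_zero]
            have h2 : ch (g⁻¹ * h) ≤ 2 * ch (g⁻¹ * (h * t)) * ch t := by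
              have h3 := ch_mul_le' (g⁻¹ * (h * t)) t⁻¹
              rw [ch_inv] at h3
              have h4 : g⁻¹ * (h * t) * t⁻¹ = g⁻¹ * h := by group
              rwa [h4] at h3
            have h5 := hchpos (g⁻¹ * (h * t))
            nlinarith
      _ = ∫⁻ h in B, ∫⁻ y in Q, F' (g, h • y) ∂ν ∂(mu n) := h1.symm
      _ ≤ ∫⁻ _h in B, ∫⁻ y, F' (g, y) ∂ν ∂(mu n) := by
          refine lintegral_mono fun h => ?_
          refine (setLIntegral_le_lintegral _ _).trans (le_of_eq ?_)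
          exact hνi h (fun y => F' (g, y)) hFg
      _ = b * ∫⁻ y, F' (g, y) ∂ν := by
          rw [lintegral_const, Measure.restrict_apply MeasurableSet.univ, Set.univ_inter, hBb,
            mul_comm]
  -- integration over `g`
  obtain ⟨c, hc⟩ : ∃ c : ℝ≥0∞, c = ∫⁻ x, ENNReal.ofReal (ψ x) ∂(mu n) := ⟨_, rfl⟩
  have hkg : ∀ x, ∫⁻ g, k (g, x) ∂(mu n) = ENNReal.ofReal (f x) * c := by
    intro x
    have e1 : ∀ g, k (g, x) = ENNReal.ofReal (f x) * ENNReal.ofReal (ψ (g⁻¹ * x)) := by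
      intro g
      rw [hk]
      exact ENNReal.ofReal_mul (hf0 x)
    simp only [e1]
    have hm : Measurable fun g : SUGroup n => ENNReal.ofReal (ψ (g⁻¹ * x)) :=
      (hψc.comp (continuous_inv.mul continuous_const)).measurable.ennreal_ofReal
    rw [lintegral_const_mul _ hm, hc]
    congr 1
    have e2 : ∫⁻ g, ENNReal.ofReal (ψ (g⁻¹ * x)) ∂(mu n) =
        ∫⁻ g, ENNReal.ofReal (ψ (g * x)) ∂(mu n) := by
      rw [← lintegral_inv_eq_self (fun g => ENNReal.ofReal (ψ (g * x)))]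
    rw [e2]
    exact lintegral_mul_right_eq_self (fun g => ENNReal.ofReal (ψ g)) x
  have hcf : c < ⊤ := by
    have h1 : ∀ x : SUGroup n, ENNReal.ofReal (ψ x) ≤
        {x : SUGroup n | ch x ≤ 2}.indicator (fun _ => 2) x := by
      intro x
      by_cases hx : ch x ≤ 2
      · rw [Set.indicator_of_mem (show x ∈ {x : SUGroup n | ch x ≤ 2} from hx)]
        have h2 : ψ x ≤ 2 := by
          rw [hψ]
          exact max_le (by norm_num) (by linarith [hchpos x])
        refine (ENNReal.ofReal_le_ofReal h2).trans (le_of_eq ?_)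
        norm_num
      · rw [hψs x (lt_of_not_ge hx), ENNReal.ofReal_zero]
        exact zero_le
    rw [hc]
    refine lt_of_le_of_lt (lintegral_mono h1) ?_
    rw [lintegral_indicator_const (measurableSet_le continuous_ch.measurable measurable_const)]
    exact ENNReal.mul_lt_top (by norm_num) (isCompact_ball 2).measure_lt_top
  have hc0 : c ≠ 0 := by
    rw [hc]
    have hm : Measurable fun x : SUGroup n => ENNReal.ofReal (ψ x) := hψc.measurable.ennreal_ofReal
    rw [← pos_iff_ne_zero, lintegral_pos_iff_support hm]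
    refine (hTo.measure_pos (mu n) ⟨1, hT1⟩).trans_le (measure_mono ?_)
    intro x hx
    rw [hT] at hx
    have hx' : ch x < 2 := hx
    rw [Function.mem_support]
    have h2 : 0 < ψ x := by
      rw [hψ]
      exact lt_max_of_lt_right (by linarith)
    exact (ENNReal.ofReal_pos.2 h2).ne'
  have hLHS : ∫⁻ g, ν Q * ∫⁻ x, k (g, x) ∂(mu n) ∂(mu n) =
      ν Q * (c * ∫⁻ x, ENNReal.ofReal (f x) ∂(mu n)) := by
    have h1 : ∫⁻ g, ∫⁻ x, k (g, x) ∂(mu n) ∂(mu n) = ∫⁻ x, ∫⁻ g, k (g, x) ∂(mu n) ∂(mu n) :=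
      lintegral_lintegral_swap (f := fun g x => k (g, x)) hkc.measurable.aemeasurable
    rw [lintegral_const_mul _ (hkc.measurable.lintegral_prod_right'), h1]
    simp only [hkg]
    rw [lintegral_mul_const _ hfc.measurable.ennreal_ofReal, mul_comm c]
  have hRHS : ∫⁻ g, b * ∫⁻ y, F' (g, y) ∂ν ∂(mu n) ≤ b * (c₀ * c * ν Set.univ) := by
    have h1 : ∫⁻ g, ∫⁻ y, F' (g, y) ∂ν ∂(mu n) = ∫⁻ y, ∫⁻ g, F' (g, y) ∂(mu n) ∂ν :=
      lintegral_lintegral_swap (f := fun g y => F' (g, y)) hF'm.aemeasurable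
    rw [lintegral_const_mul _ (hF'm.lintegral_prod_right'), h1]
    refine mul_le_mul_right ?_ _
    rw [← lintegral_const]
    refine lintegral_mono fun y => ?_
    obtain ⟨x, rfl⟩ := QuotientGroup.mk_surjective y
    have h2 : ∫⁻ g, F' (g, ((x : SUGroup n) : SUGroup n ⧸ Γ)) ∂(mu n) =
        ∑' γ : Γ, ENNReal.ofReal (f (x * γ)) * c := by
      simp only [hF']
      rw [hF]
      show ∫⁻ g, ∑' γ : Γ, k (g, x * γ) ∂(mu n) = _
      have hm3 : ∀ γ : Γ, AEMeasurable (fun g : SUGroup n => k (g, x * γ)) (mu n) := by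
        intro γ
        have hc3 : Continuous fun g : SUGroup n => k (g, x * (γ : SUGroup n)) :=
          hkc.comp (continuous_id.prodMk continuous_const)
        exact hc3.measurable.aemeasurable
      rw [lintegral_tsum hm3]
      exact tsum_congr fun γ => hkg _
    show ∫⁻ g, F' (g, ((x : SUGroup n) : SUGroup n ⧸ Γ)) ∂(mu n) ≤ c₀ * c
    rw [h2, ENNReal.tsum_mul_right]
    exact mul_le_mul_left (hsum x) _
  have hfin : ν Q * (c * ∫⁻ x, ENNReal.ofReal (f x) ∂(mu n)) < ⊤ := by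
    rw [← hLHS]
    refine lt_of_le_of_lt ((lintegral_mono key).trans hRHS) ?_
    exact ENNReal.mul_lt_top hbf (ENNReal.mul_lt_top (ENNReal.mul_lt_top
      (lt_top_iff_ne_top.2 hc₀) hcf) (lt_top_iff_ne_top.2 hνf))
  by_contra htop
  have htop' : ∫⁻ x, ENNReal.ofReal (f x) ∂(mu n) = ⊤ := not_lt_top_iff.1 htop
  rw [htop', ENNReal.mul_top hc0, ENNReal.mul_top hQ0] at hfin
  exact lt_irrefl _ hfin

/-- L5. -/
theorem exists_lat (h : IsLattice Γ) : ∃ χ : SUGroup n → ℝ, Lat Γ χ := by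
  obtain ⟨χ, hc, hp, hs⟩ := exists_chi h.1
  refine ⟨χ, h.1, hc, hp, hs, ?_⟩
  have hfc : Continuous fun g : SUGroup n => χ g⁻¹ := hc.comp continuous_inv
  have h1 : ∫⁻ g, ENNReal.ofReal (χ g⁻¹) ∂(mu n) < ⊤ := by
    refine lintegral_lt_top_of_lattice h hfc (fun g => (hp _).le) (c₀ := 1) ENNReal.one_ne_top ?_
    intro g
    have hsm : Summable fun γ : Γ => χ ((γ : SUGroup n) * g⁻¹) := by
      by_contra h0
      have h1 := hs g⁻¹
      rw [tsum_eq_zero_of_not_summable h0] at h1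
      exact zero_ne_one h1
    have e1 : ∑' γ : Γ, ENNReal.ofReal (χ (g * (γ : SUGroup n))⁻¹) =
        ∑' γ : Γ, ENNReal.ofReal (χ ((γ : SUGroup n) * g⁻¹)) := by
      rw [← (Equiv.inv Γ).tsum_eq fun γ : Γ => ENNReal.ofReal (χ ((γ : SUGroup n) * g⁻¹))]
      refine tsum_congr fun γ => ?_
      rw [_root_.mul_inv_rev, Equiv.inv_apply, Subgroup.coe_inv]
    rw [e1, ← ENNReal.ofReal_tsum_of_nonneg (fun γ => (hp _).le) hsm, hs, ENNReal.ofReal_one]
  have h2 : ∫⁻ g, ENNReal.ofReal (χ g) ∂(mu n) < ⊤ := by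
    rw [← lintegral_inv_eq_self (fun g => ENNReal.ofReal (χ g))]
    exact h1
  refine ⟨hc.aestronglyMeasurable, ?_⟩
  rw [hasFiniteIntegral_iff_ofReal (Filter.Eventually.of_forall fun g => (hp g).le)]
  exact h2

end Pool.Agent.Lib.MP_5d4057_al.NU
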