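import Pool.Agent.Lib.MP_5d4057_al.NU.CuspDefs

/-! The Frobenius norm, displacements, the commutator estimate, finiteness (C1, C2). -/

namespace Pool.Agent.Lib.MP_5d4057_al.NU

open Matrix MeasureTheory Filter Topology Pool.Agent.Lib.MP_5d4057_al
  Pool.Agent.Lib.MP_5d4057_al.Hyb Pool.Agent.Lib.MP_5d4057_al.HM
  Pool.Agent.Lib.MP_5d4057_al.HM.Kak

open scoped ComplexOrder MatrixOrder Matrix.Norms.L2Operator ENNReal

variable {n m : ℕ}

private theorem mulVec_sq_le (A : Mat m) (v : Fin m → ℂ) :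
    ∑ i, ‖(A *ᵥ v) i‖ ^ 2 ≤ ‖A‖ ^ 2 * ∑ i, ‖v i‖ ^ 2 := by
  have h := A.l2_opNorm_mulVec (WithLp.toLp 2 v)
  have h1 : ‖(EuclideanSpace.equiv (Fin m) ℂ).symm (A *ᵥ (WithLp.toLp 2 v).ofLp)‖ ^ 2 =
      ∑ i, ‖(A *ᵥ v) i‖ ^ 2 := by
    rw [EuclideanSpace.norm_sq_eq]
    rfl
  have h2 : ‖(WithLp.toLp 2 v : EuclideanSpace ℂ (Fin m))‖ ^ 2 = ∑ i, ‖v i‖ ^ 2 := by
    rw [EuclideanSpace.norm_sq_eq]
  rw [← h1, ← h2, ← mul_pow]
  exact pow_le_pow_left₀ (norm_nonneg _) h 2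

private theorem norm_le_of_sq {A : Mat m} {c : ℝ} (hc : 0 ≤ c)
    (h : ∀ v : Fin m → ℂ, ∑ i, ‖(A *ᵥ v) i‖ ^ 2 ≤ c ^ 2 * ∑ i, ‖v i‖ ^ 2) : ‖A‖ ≤ c := by
  rw [← l2_opNorm_toEuclideanCLM]
  refine ContinuousLinearMap.opNorm_le_bound _ hc fun x => ?_
  refine (sq_le_sq₀ (by positivity) (by positivity)).mp ?_
  rw [mul_pow, EuclideanSpace.norm_sq_eq, EuclideanSpace.norm_sq_eq]
  exact h x.ofLp

theorem fro_nonneg (A : Mat m) : 0 ≤ fro A := Real.sqrt_nonneg _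

theorem fro_sq (A : Mat m) : fro A ^ 2 = ∑ i, ∑ j, ‖A i j‖ ^ 2 :=
  Real.sq_sqrt (Finset.sum_nonneg fun _ _ => Finset.sum_nonneg fun _ _ => sq_nonneg _)

/-- Comparison of Frobenius norms. -/
private theorem fro_le_of_sq {A : Mat m} {c : ℝ} (hc : 0 ≤ c) (h : fro A ^ 2 ≤ c ^ 2) :
    fro A ≤ c := le_of_sq_le_sq h hc

theorem fro_sq_trace (A : Mat m) : fro A ^ 2 = (Aᴴ * A).trace.re := by
  rw [fro_sq, Matrix.trace, Complex.re_sum, Finset.sum_comm]
  refine Finset.sum_congr rfl fun j _ => ?_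
  rw [diag_apply, Matrix.mul_apply, Complex.re_sum]
  refine Finset.sum_congr rfl fun i _ => ?_
  rw [conjTranspose_apply, RCLike.star_def, Complex.conj_mul']
  norm_cast

theorem fro_eq_zero {A : Mat m} : fro A = 0 ↔ A = 0 := by
  constructor
  · intro h
    have h1 := fro_sq A
    rw [h] at h1
    have h2 : ∑ i, ∑ j, ‖A i j‖ ^ 2 = 0 := by rw [← h1]; norm_num
    ext i j
    rw [Finset.sum_eq_zero_iff_of_nonneg
      (fun _ _ => Finset.sum_nonneg fun _ _ => sq_nonneg _)] at h2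
    have h3 := h2 i (Finset.mem_univ i)
    rw [Finset.sum_eq_zero_iff_of_nonneg (fun _ _ => sq_nonneg _)] at h3
    have h4 := h3 j (Finset.mem_univ j)
    exact norm_eq_zero.1 (pow_eq_zero_iff two_ne_zero |>.1 h4)
  · rintro rfl
    simp [fro]

private theorem fro_eq_norm (A : Mat m) :
    fro A = ‖(WithLp.toLp 2 fun p : Fin m × Fin m => A p.1 p.2 : EuclideanSpace ℂ (Fin m × Fin m))‖ := by
  rw [EuclideanSpace.norm_eq, fro, Fintype.sum_prod_type]

theorem fro_add_le (A B : Mat m) : fro (A + B) ≤ fro A + fro B := by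
  rw [fro_eq_norm, fro_eq_norm, fro_eq_norm]
  have h : (WithLp.toLp 2 fun p : Fin m × Fin m => (A + B) p.1 p.2 :
      EuclideanSpace ℂ (Fin m × Fin m)) =
      WithLp.toLp 2 (fun p : Fin m × Fin m => A p.1 p.2) +
        WithLp.toLp 2 (fun p : Fin m × Fin m => B p.1 p.2) := rfl
  rw [h]
  exact norm_add_le _ _

theorem fro_neg (A : Mat m) : fro (-A) = fro A := by
  simp [fro]

/-- The triangle inequality for differences. -/
theorem fro_sub_le (A B : Mat m) : fro (A - B) ≤ fro A + fro B := by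
  rw [sub_eq_add_neg, ← fro_neg B]
  exact fro_add_le _ _

theorem fro_conjTranspose (A : Mat m) : fro Aᴴ = fro A := by
  rw [fro, fro, Finset.sum_comm]
  simp [conjTranspose_apply]

theorem continuous_fro : Continuous (fro (m := m)) := by
  refine Continuous.sqrt ?_
  refine continuous_finsetSum _ fun i _ => continuous_finsetSum _ fun j _ => ?_
  exact ((continuous_id.matrix_elem i j).norm).pow 2

theorem norm_le_fro (A : Mat m) : ‖A‖ ≤ fro A := by
  refine norm_le_of_sq (fro_nonneg A) fun v => ?_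
  rw [fro_sq, Finset.sum_mul]
  refine Finset.sum_le_sum fun i _ => ?_
  have h1 : ‖(A *ᵥ v) i‖ ≤ ∑ j, ‖A i j‖ * ‖v j‖ := by
    refine (norm_sum_le (Finset.univ : Finset (Fin m)) fun j => A i j * v j).trans (le_of_eq ?_)
    exact Finset.sum_congr rfl fun j _ => norm_mul _ _
  calc ‖(A *ᵥ v) i‖ ^ 2 ≤ (∑ j, ‖A i j‖ * ‖v j‖) ^ 2 := pow_le_pow_left₀ (norm_nonneg _) h1 2
    _ ≤ _ := Finset.sum_mul_sq_le_sq_mul_sq _ _ _

private theorem fro_sq_col (A : Mat m) : fro A ^ 2 = ∑ j, ∑ i, ‖A i j‖ ^ 2 := by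
  rw [fro_sq, Finset.sum_comm]

theorem fro_le_norm (A : Mat m) : fro A ≤ Real.sqrt m * ‖A‖ := by
  refine fro_le_of_sq (by positivity) ?_
  rw [mul_pow, Real.sq_sqrt (Nat.cast_nonneg m), fro_sq_col]
  calc ∑ j, ∑ i, ‖A i j‖ ^ 2 ≤ ∑ _j : Fin m, ‖A‖ ^ 2 := by
        refine Finset.sum_le_sum fun j _ => ?_
        have h := mulVec_sq_le A (Pi.single j 1)
        have h2 : ∑ i, ‖(Pi.single j (1 : ℂ) : Fin m → ℂ) i‖ ^ 2 = 1 := by
          rw [Finset.sum_eq_single j]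
          · simp
          · intro i _ hi
            rw [Pi.single_eq_of_ne hi]; simp
          · simp
        rw [h2, mul_one] at h
        simpa [mulVec_single_one] using h
    _ = _ := by simp

theorem fro_mul_le_left (A B : Mat m) : fro (A * B) ≤ ‖A‖ * fro B := by
  refine fro_le_of_sq (mul_nonneg (norm_nonneg _) (fro_nonneg _)) ?_
  rw [mul_pow, fro_sq_col, fro_sq_col, Finset.mul_sum]
  refine Finset.sum_le_sum fun j _ => ?_
  exact mulVec_sq_le A fun i => B i j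

theorem fro_mul_le_right (A B : Mat m) : fro (A * B) ≤ fro A * ‖B‖ := by
  rw [← fro_conjTranspose, conjTranspose_mul, mul_comm (fro A), ← fro_conjTranspose A,
    ← l2_opNorm_conjTranspose B]
  exact fro_mul_le_left _ _

theorem fro_unitary_mul {U : Mat m} (hU : Uᴴ * U = 1) (A : Mat m) : fro (U * A) = fro A := by
  have h : fro (U * A) ^ 2 = fro A ^ 2 := by
    rw [fro_sq_trace, fro_sq_trace, conjTranspose_mul, Matrix.mul_assoc, ← Matrix.mul_assoc Uᴴ,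
      hU, Matrix.one_mul]
  exact (sq_eq_sq₀ (fro_nonneg _) (fro_nonneg _)).1 h

theorem fro_mul_unitary {U : Mat m} (hU : U * Uᴴ = 1) (A : Mat m) : fro (A * U) = fro A := by
  rw [← fro_conjTranspose, conjTranspose_mul, fro_unitary_mul, fro_conjTranspose]
  rw [conjTranspose_conjTranspose, hU]

private theorem toMatrix_mulVec_last (x : SUGroup n) (v : Vec n) :
    ‖act x v (Fin.last n)‖ ≤
      Real.sqrt (ch x ^ 2 - 1) * Real.sqrt (∑ i : Fin n, ‖v i.castSucc‖ ^ 2) +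
        ch x * ‖v (Fin.last n)‖ := by
  have h1 : act x v (Fin.last n) =
      ∑ i : Fin n, x.toMatrix (Fin.last n) i.castSucc * v i.castSucc +
        x.toMatrix (Fin.last n) (Fin.last n) * v (Fin.last n) := by
    rw [act, mulVec, dotProduct, Fin.sum_univ_castSucc]
  rw [h1]
  refine (norm_add_le _ _).trans (add_le_add ?_ ?_)
  · rw [← sum_row x]
    calc _ ≤ ∑ i : Fin n, ‖x.toMatrix (Fin.last n) i.castSucc * v i.castSucc‖ :=
          norm_sum_le _ _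
      _ = ∑ i : Fin n, ‖x.toMatrix (Fin.last n) i.castSucc‖ * ‖v i.castSucc‖ := by
          simp only [norm_mul]
      _ ≤ _ := Real.sum_mul_le_sqrt_mul_sqrt _ _ _
  · rw [norm_mul, ch]

theorem norm_toMatrix_le (x : SUGroup n) : ‖x.toMatrix‖ ≤ wt x := by
  have hw := one_le_wt x
  refine norm_le_of_sq (by linarith) fun v => ?_
  have hq := q_act x v
  rw [q_eq, q_eq] at hq
  have hl := toMatrix_mulVec_last x v
  have hc := one_le_ch x
  have hS : Real.sqrt (ch x ^ 2 - 1) ^ 2 = ch x ^ 2 - 1 := Real.sq_sqrt (by nlinarith)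
  have hS0 := Real.sqrt_nonneg (ch x ^ 2 - 1)
  have hU : Real.sqrt (∑ i : Fin n, ‖v i.castSucc‖ ^ 2) ^ 2 = ∑ i : Fin n, ‖v i.castSucc‖ ^ 2 :=
    Real.sq_sqrt (Finset.sum_nonneg fun _ _ => sq_nonneg _)
  have hU0 := Real.sqrt_nonneg (∑ i : Fin n, ‖v i.castSucc‖ ^ 2)
  have e1 : ∑ i, ‖(x.toMatrix *ᵥ v) i‖ ^ 2 =
      ∑ i : Fin n, ‖act x v i.castSucc‖ ^ 2 + ‖act x v (Fin.last n)‖ ^ 2 := by
    rw [Fin.sum_univ_castSucc]; rfl
  have e2 : ∑ i, ‖v i‖ ^ 2 = ∑ i : Fin n, ‖v i.castSucc‖ ^ 2 + ‖v (Fin.last n)‖ ^ 2 :=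
    Fin.sum_univ_castSucc _
  rw [e1, e2, wt]
  generalize Real.sqrt (ch x ^ 2 - 1) = S at *
  generalize Real.sqrt (∑ i : Fin n, ‖v i.castSucc‖ ^ 2) = U at *
  have hL0 := norm_nonneg (act x v (Fin.last n))
  generalize ‖act x v (Fin.last n)‖ = L at *
  have hs := norm_nonneg (v (Fin.last n))
  generalize ‖v (Fin.last n)‖ = s at *
  have hL : L ^ 2 ≤ (S * U + ch x * s) ^ 2 := pow_le_pow_left₀ hL0 hl 2
  rw [← hU] at hq ⊢
  nlinarith [mul_nonneg (mul_nonneg hS0 (by linarith : (0:ℝ) ≤ ch x)) (sq_nonneg (U - s))]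

theorem fro_toMatrix_le (x : SUGroup n) : fro x.toMatrix ≤ 2 * Real.sqrt (n + 1) * ch x := by
  have h1 := fro_le_norm x.toMatrix
  have h2 := (norm_toMatrix_le x).trans (wt_le x)
  have h3 := Real.sqrt_nonneg ((n : ℝ) + 1)
  push_cast at h1
  calc fro x.toMatrix ≤ Real.sqrt (n + 1) * ‖x.toMatrix‖ := h1
    _ ≤ Real.sqrt (n + 1) * (2 * ch x) := mul_le_mul_of_nonneg_left h2 h3
    _ = _ := by ring

/-- An entry is bounded by the Frobenius norm. -/
theorem norm_entry_le_fro (A : Mat m) (i j : Fin m) : ‖A i j‖ ≤ fro A := by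
  have h : ‖A i j‖ ^ 2 ≤ fro A ^ 2 := by
    rw [fro_sq]
    calc ‖A i j‖ ^ 2 ≤ ∑ j, ‖A i j‖ ^ 2 :=
          Finset.single_le_sum (f := fun j => ‖A i j‖ ^ 2) (fun _ _ => sq_nonneg _)
            (Finset.mem_univ j)
      _ ≤ _ := Finset.single_le_sum (f := fun i => ∑ j, ‖A i j‖ ^ 2)
            (fun _ _ => Finset.sum_nonneg fun _ _ => sq_nonneg _) (Finset.mem_univ i)
  exact le_of_sq_le_sq h (fro_nonneg _)

theorem ch_le_fro (x : SUGroup n) : ch x ≤ fro x.toMatrix := norm_entry_le_fro _ _ _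

private theorem J_mul_J' : J n * J n = 1 := by
  rw [J, diagonal_mul_diagonal, ← diagonal_one]
  congr 1
  funext i
  split_ifs <;> norm_num

private theorem J_conjTranspose' : (J n)ᴴ = J n := by
  rw [J, diagonal_conjTranspose]
  congr 1
  funext i
  rw [Pi.star_apply]
  split_ifs <;> simp

/-- The inverse is `J x^* J`. -/
theorem inv_toMatrix_eq (x : SUGroup n) : (x⁻¹).toMatrix = J n * x.toMatrixᴴ * J n := by
  calc (x⁻¹).toMatrix = (J n * J n) * (x⁻¹).toMatrix := by rw [J_mul_J', Matrix.one_mul]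
    _ = (J n * (x.toMatrixᴴ * J n * x.toMatrix)) * (x⁻¹).toMatrix := by rw [pres]
    _ = J n * x.toMatrixᴴ * J n * (x.toMatrix * (x⁻¹).toMatrix) := by
        simp only [Matrix.mul_assoc]
    _ = _ := by rw [toMatrix_mul_inv, Matrix.mul_one]

/-- Elements of `K` are unitary. -/
theorem unitary_of_ch {k : SUGroup n} (hk : ch k = 1) : k.toMatrixᴴ * k.toMatrix = 1 := by
  have hr := sum_row k
  have hc := sum_col k
  rw [hk] at hr hc
  have hr' : ∀ j : Fin n, k.toMatrix (Fin.last n) j.castSucc = 0 := by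
    intro j
    rw [one_pow, sub_self, Finset.sum_eq_zero_iff_of_nonneg (fun _ _ => sq_nonneg _)] at hr
    exact norm_eq_zero.1 (pow_eq_zero_iff two_ne_zero |>.1 (hr j (Finset.mem_univ j)))
  have hc' : ∀ j : Fin n, k.toMatrix j.castSucc (Fin.last n) = 0 := by
    intro j
    rw [one_pow, sub_self, Finset.sum_eq_zero_iff_of_nonneg (fun _ _ => sq_nonneg _)] at hc
    exact norm_eq_zero.1 (pow_eq_zero_iff two_ne_zero |>.1 (hc j (Finset.mem_univ j)))
  have hJ : J n * k.toMatrix = k.toMatrix * J n := by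
    ext i j
    rw [J, diagonal_mul, mul_diagonal]
    refine Fin.lastCases ?_ (fun i => ?_) i <;> refine Fin.lastCases ?_ (fun j => ?_) j
    · rw [mul_comm]
    · rw [hr' j, mul_zero, zero_mul]
    · rw [hc' i, mul_zero, zero_mul]
    · rw [if_neg (Fin.castSucc_lt_last i).ne, if_neg (Fin.castSucc_lt_last j).ne, mul_comm]
  calc k.toMatrixᴴ * k.toMatrix = k.toMatrixᴴ * k.toMatrix * (J n * J n) := by
        rw [J_mul_J', Matrix.mul_one]
    _ = k.toMatrixᴴ * (k.toMatrix * J n) * J n := by simp only [Matrix.mul_assoc]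
    _ = k.toMatrixᴴ * (J n * k.toMatrix) * J n := by rw [hJ]
    _ = (k.toMatrixᴴ * J n * k.toMatrix) * J n := by simp only [Matrix.mul_assoc]
    _ = 1 := by rw [pres, J_mul_J']

private theorem J_unitary : (J n)ᴴ * J n = 1 := by rw [J_conjTranspose', J_mul_J']

/-- The Frobenius distance to `1` of an element and its inverse agree. -/
theorem fro_inv_sub_one (x : SUGroup n) : fro ((x⁻¹).toMatrix - 1) = fro (x.toMatrix - 1) := by
  have h : (x⁻¹).toMatrix - 1 = J n * ((x.toMatrix - 1)ᴴ * J n) := by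
    rw [inv_toMatrix_eq, conjTranspose_sub, conjTranspose_one, Matrix.sub_mul, Matrix.mul_sub,
      Matrix.one_mul, J_mul_J', Matrix.mul_assoc]
  rw [h, fro_unitary_mul J_unitary, fro_mul_unitary, fro_conjTranspose]
  rw [J_conjTranspose', J_mul_J']

theorem ds_nonneg (g γ : SUGroup n) : 0 ≤ ds g γ := fro_nonneg _

theorem ds_eq_zero {g γ : SUGroup n} : ds g γ = 0 ↔ γ = 1 := by
  rw [ds, fro_eq_zero, sub_eq_zero, ← toMatrix_one (m := n), toMatrix_injective.eq_iff]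
  constructor
  · intro h
    have h1 : γ = g * (g⁻¹ * γ * g) * g⁻¹ := by group
    rw [h1, h]; group
  · rintro rfl; group

theorem ds_one_left (γ : SUGroup n) : ds 1 γ = fro (γ.toMatrix - 1) := by
  rw [ds, inv_one, one_mul, mul_one]

theorem ds_mul (g x γ : SUGroup n) : ds (g * x) γ = ds x (g⁻¹ * γ * g) := by
  rw [ds, ds]
  congr 3
  group

private theorem conj_sub_one (x y : SUGroup n) :
    (x⁻¹ * y * x).toMatrix - 1 = (x⁻¹).toMatrix * (y.toMatrix - 1) * x.toMatrix := by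
  rw [toMatrix_mul, toMatrix_mul, Matrix.mul_sub, Matrix.sub_mul, Matrix.mul_one,
    toMatrix_inv_mul]

theorem ds_mul_le (g x γ : SUGroup n) : ds (g * x) γ ≤ wt x ^ 2 * ds g γ := by
  have hw := one_le_wt x
  rw [ds_mul, ds, conj_sub_one]
  have h1 : ‖(x⁻¹).toMatrix‖ ≤ wt x := by
    rw [← wt_inv x]; exact norm_toMatrix_le _
  have h2 := norm_toMatrix_le x
  have h3 : fro ((g⁻¹ * γ * g).toMatrix - 1) = ds g γ := rfl
  have h4 := ds_nonneg g γ
  calc _ ≤ fro ((x⁻¹).toMatrix * ((g⁻¹ * γ * g).toMatrix - 1)) * ‖x.toMatrix‖ :=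
        fro_mul_le_right _ _
    _ ≤ (‖(x⁻¹).toMatrix‖ * fro ((g⁻¹ * γ * g).toMatrix - 1)) * ‖x.toMatrix‖ :=
        mul_le_mul_of_nonneg_right (fro_mul_le_left _ _) (norm_nonneg _)
    _ ≤ (wt x * ds g γ) * wt x := by
        rw [h3]
        exact mul_le_mul (mul_le_mul_of_nonneg_right h1 h4) h2 (norm_nonneg _) (by positivity)
    _ = _ := by ring

theorem ds_mul_K (g γ : SUGroup n) {k : SUGroup n} (hk : ch k = 1) : ds (g * k) γ = ds g γ := by
  have hw : wt k = 1 := by rw [wt, hk]; norm_num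
  apply le_antisymm
  · have := ds_mul_le g k γ
    rwa [hw, one_pow, one_mul] at this
  · have := ds_mul_le (g * k) k⁻¹ γ
    rwa [wt_inv, hw, one_pow, one_mul, mul_inv_cancel_right] at this

theorem ds_conj (δ g γ : SUGroup n) : ds (δ * g) γ = ds g (δ⁻¹ * γ * δ) := ds_mul _ _ _

theorem ds_inv_le {g γ : SUGroup n} : ds g γ⁻¹ ≤ ds g γ := by
  have h : g⁻¹ * γ⁻¹ * g = (g⁻¹ * γ * g)⁻¹ := by group
  rw [ds, h, fro_inv_sub_one, ds]

theorem continuous_ds (γ : SUGroup n) : Continuous fun g : SUGroup n => ds g γ := by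
  unfold ds
  refine continuous_fro.comp (((continuous_toMatrix n).comp ?_).sub continuous_const)
  exact (continuous_inv.mul continuous_const).mul continuous_id

private theorem comm_aux (a b : SUGroup n) :
    fro ((a * b * a⁻¹ * b⁻¹).toMatrix - 1) ≤
      2 * fro (a.toMatrix - 1) * fro (b.toMatrix - 1) * (1 + fro (a.toMatrix - 1)) *
        (1 + fro (b.toMatrix - 1)) := by
  have h1 : (a * b * a⁻¹ * b⁻¹).toMatrix - 1 =
      (((a.toMatrix - 1) * (b.toMatrix - 1) - (b.toMatrix - 1) * (a.toMatrix - 1)) *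
        (a⁻¹).toMatrix) * (b⁻¹).toMatrix := by
    have e : (a.toMatrix - 1) * (b.toMatrix - 1) - (b.toMatrix - 1) * (a.toMatrix - 1) =
        a.toMatrix * b.toMatrix - b.toMatrix * a.toMatrix := by
      noncomm_ring
    rw [e, Matrix.sub_mul, Matrix.sub_mul, ← toMatrix_mul, ← toMatrix_mul, ← toMatrix_mul,
      ← toMatrix_mul, ← toMatrix_mul, ← toMatrix_mul, mul_inv_cancel_right, mul_inv_cancel,
      toMatrix_one]
  have h2 : ∀ x : SUGroup n, ‖(x⁻¹).toMatrix‖ ≤ 1 + fro (x.toMatrix - 1) := by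
    intro x
    rw [← fro_inv_sub_one]
    have e : (x⁻¹).toMatrix = 1 + ((x⁻¹).toMatrix - 1) := by abel
    calc ‖(x⁻¹).toMatrix‖ = ‖1 + ((x⁻¹).toMatrix - 1)‖ := by rw [← e]
      _ ≤ ‖(1 : Mat (n + 1))‖ + ‖(x⁻¹).toMatrix - 1‖ := norm_add_le _ _
      _ ≤ 1 + fro ((x⁻¹).toMatrix - 1) := by
          refine add_le_add ?_ (norm_le_fro _)
          rw [norm_one]
  have hA := fro_nonneg (a.toMatrix - 1)
  have hB := fro_nonneg (b.toMatrix - 1)
  have h3 : fro ((a.toMatrix - 1) * (b.toMatrix - 1) - (b.toMatrix - 1) * (a.toMatrix - 1)) ≤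
      2 * fro (a.toMatrix - 1) * fro (b.toMatrix - 1) := by
    have e1 := fro_sub_le ((a.toMatrix - 1) * (b.toMatrix - 1))
      ((b.toMatrix - 1) * (a.toMatrix - 1))
    have e2 := (fro_mul_le_left (a.toMatrix - 1) (b.toMatrix - 1)).trans
      (mul_le_mul_of_nonneg_right (norm_le_fro _) hB)
    have e3 := (fro_mul_le_left (b.toMatrix - 1) (a.toMatrix - 1)).trans
      (mul_le_mul_of_nonneg_right (norm_le_fro _) hA)
    linarith
  rw [h1]
  refine (fro_mul_le_right _ _).trans ?_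
  refine mul_le_mul ((fro_mul_le_right _ _).trans ?_) (h2 b) (norm_nonneg _) (by positivity)
  exact mul_le_mul h3 (h2 a) (norm_nonneg _) (by positivity)

private theorem ds_comm_aux (g a b : SUGroup n) :
    ds g (a * b * a⁻¹ * b⁻¹) ≤
      2 * ds g a * ds g b * (1 + ds g a) * (1 + ds g b) := by
  have h : g⁻¹ * (a * b * a⁻¹ * b⁻¹) * g =
      (g⁻¹ * a * g) * (g⁻¹ * b * g) * (g⁻¹ * a * g)⁻¹ * (g⁻¹ * b * g)⁻¹ := by group
  rw [ds, h]
  exact comm_aux _ _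

/-- C1. -/
theorem ds_comm_le {g a b : SUGroup n} (ha : ds g a ≤ 1 / 8) (hb : ds g b ≤ 1 / 8) :
    ds g (a * b * a⁻¹ * b⁻¹) ≤ 1 / 3 * ds g b := by
  have h := ds_comm_aux g a b
  have ha0 := ds_nonneg g a
  have hb0 := ds_nonneg g b
  have h1 : 2 * ds g a * (1 + ds g a) * (1 + ds g b) ≤ 2 * (1 / 8) * (1 + 1 / 8) * (1 + 1 / 8) := by
    gcongr
  have h2 := mul_le_mul_of_nonneg_right h1 hb0
  nlinarith

/-- C1 in general form. -/
theorem ds_comm_le' {g a b : SUGroup n} {e : ℝ} (he : e ≤ 1 / 8) (ha : ds g a ≤ e)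
    (hb : ds g b ≤ e) : ds g (a * b * a⁻¹ * b⁻¹) ≤ 3 * e * ds g b := by
  have h := ds_comm_aux g a b
  have ha0 := ds_nonneg g a
  have hb0 := ds_nonneg g b
  have he0 : 0 ≤ e := ha0.trans ha
  have h1 : 2 * ds g a * (1 + ds g a) * (1 + ds g b) ≤ 2 * e * (1 + 1 / 8) * (1 + 1 / 8) := by
    gcongr <;> linarith
  have h2 := mul_le_mul_of_nonneg_right h1 hb0
  have h3 := mul_nonneg he0 hb0
  nlinarith

theorem finite_ch {Γ : Subgroup (SUGroup n)} (hd : DiscreteTopology Γ) (R : ℝ) :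
    {γ : SUGroup n | γ ∈ Γ ∧ ch γ ≤ R}.Finite := by
  have h1 := Subgroup.tendsto_coe_cofinite_of_discrete Γ ⟨hd⟩
  have h2 := h1 (isCompact_ball R).compl_mem_cocompact
  rw [mem_map, mem_cofinite] at h2
  refine (h2.image (Subtype.val)).subset ?_
  rintro γ ⟨hγ, hc⟩
  refine ⟨⟨γ, hγ⟩, ?_, rfl⟩
  simpa using hc

/-- C2. -/
theorem finite_ds {Γ : Subgroup (SUGroup n)} (hd : DiscreteTopology Γ) (R R' : ℝ) :
    {γ : SUGroup n | γ ∈ Γ ∧ ∃ g : SUGroup n, ch g ≤ R ∧ ds g γ ≤ R'}.Finite := by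
  refine (finite_ch hd (4 * R ^ 2 * (R' + fro (1 : Mat (n + 1))))).subset ?_
  rintro γ ⟨hγ, g, hg, hd'⟩
  refine ⟨hγ, ?_⟩
  have h1 : ch (g⁻¹ * γ * g) ≤ R' + fro (1 : Mat (n + 1)) := by
    refine (ch_le_fro _).trans ?_
    have e : (g⁻¹ * γ * g).toMatrix = ((g⁻¹ * γ * g).toMatrix - 1) + 1 := by abel
    rw [e]
    exact (fro_add_le _ _).trans (by gcongr; exact hd')
  have h2 : γ = g * (g⁻¹ * γ * g) * g⁻¹ := by group
  have h3 := ch_mul_le' (g * (g⁻¹ * γ * g)) g⁻¹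
  have h4 := ch_mul_le' g (g⁻¹ * γ * g)
  rw [← h2, ch_inv] at h3
  have hg1 := one_le_ch g
  have hc1 := one_le_ch (g⁻¹ * γ * g)
  calc ch γ ≤ 2 * ch (g * (g⁻¹ * γ * g)) * ch g := h3
    _ ≤ 2 * (2 * ch g * ch (g⁻¹ * γ * g)) * ch g := by gcongr
    _ = 4 * ch g ^ 2 * ch (g⁻¹ * γ * g) := by ring
    _ ≤ 4 * R ^ 2 * (R' + fro (1 : Mat (n + 1))) := by gcongr

/-- Some element of smallest displacement. -/
theorem exists_min_ds {Γ : Subgroup (SUGroup n)} (hd : DiscreteTopology Γ) (g : SUGroup n)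
    {γ : SUGroup n} (hγ : γ ∈ Γ) (h1 : γ ≠ 1) : ∃ γ₀ ∈ Γ, γ₀ ≠ 1 ∧ ∀ γ' ∈ Γ, γ' ≠ 1 →
      ds g γ₀ ≤ ds g γ' := by
  have hf : {γ' : SUGroup n | γ' ∈ Γ ∧ γ' ≠ 1 ∧ ds g γ' ≤ ds g γ}.Finite := by
    refine (finite_ds hd (ch g) (ds g γ)).subset ?_
    rintro γ' ⟨h1, _, h2⟩
    exact ⟨h1, g, le_rfl, h2⟩
  obtain ⟨γ₀, ⟨h2, h3, h4⟩, h5⟩ := hf.exists_minimalFor (ds g) _ ⟨γ, hγ, h1, le_rfl⟩
  refine ⟨γ₀, h2, h3, fun γ' h6 h7 => ?_⟩
  by_cases h8 : ds g γ' ≤ ds g γ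
  · rcases le_total (ds g γ₀) (ds g γ') with h9 | h9
    · exact h9
    · exact h5 ⟨h6, h7, h8⟩ h9
  · linarith [not_le.1 h8]

end Pool.Agent.Lib.MP_5d4057_al.NU
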