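import Pool.Agent.Lib.MP_5d4057_al.NU.LatA
import Pool.Agent.Lib.MP_5d4057_al.NU.CuspC

/-! Subgroups of finite index, invariant measure, thick part (L6 - L8). -/

namespace Pool.Agent.Lib.MP_5d4057_al.NU

open Matrix MeasureTheory Filter Topology Pool.Agent.Lib.MP_5d4057_al
  Pool.Agent.Lib.MP_5d4057_al.Hyb Pool.Agent.Lib.MP_5d4057_al.HM
  Pool.Agent.Lib.MP_5d4057_al.HM.Kak

open scoped ComplexOrder MatrixOrder Matrix.Norms.L2Operator ENNReal

variable {n m : ℕ}

variable {Γ : Subgroup (SUGroup n)} {χ : SUGroup n → ℝ}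

/-- L6: `χ'(g) = ∑_i χ(c_i g)` over representatives of the left cosets `c_i Γ'`. -/
theorem Lat.finite_index (hL : Lat Γ χ) {Γ' : Subgroup (SUGroup n)} (hle : Γ' ≤ Γ)
    (hfi : Γ'.relIndex Γ ≠ 0) : ∃ χ' : SUGroup n → ℝ, Lat Γ' χ' := by
  have hd := hL.disc
  obtain ⟨S, hS⟩ : ∃ S : Subgroup Γ, S = Γ'.subgroupOf Γ := ⟨_, rfl⟩
  have hSf : S.FiniteIndex := by
    rw [hS]
    exact ⟨hfi⟩
  have : Finite (Γ ⧸ S) := Subgroup.finite_quotient_of_finiteIndex
  have : Fintype (Γ ⧸ S) := Fintype.ofFinite _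
  have hSm : ∀ x : Γ, x ∈ S ↔ (x : SUGroup n) ∈ Γ' := by
    intro x
    rw [hS]
    exact Subgroup.mem_subgroupOf
  -- the decomposition of `Γ`
  obtain ⟨c, hc⟩ : ∃ c : Γ ⧸ S → Γ, ∀ i, (c i : Γ ⧸ S) = i :=
    ⟨fun i => i.out, fun i => QuotientGroup.out_eq' i⟩
  let e : (Γ ⧸ S) × Γ' ≃ Γ :=
    { toFun := fun p => c p.1 * ⟨p.2, hle p.2.2⟩
      invFun := fun γ => ((γ : Γ ⧸ S), ⟨(((c (γ : Γ ⧸ S))⁻¹ * γ : Γ) : SUGroup n), by
        have h1 : (c (γ : Γ ⧸ S))⁻¹ * γ ∈ S := QuotientGroup.eq.1 (hc _)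
        exact (hSm _).1 h1⟩)
      left_inv := by
        rintro ⟨i, γ'⟩
        have h1 : ((c i * ⟨γ', hle γ'.2⟩ : Γ) : Γ ⧸ S) = i := by
          have h2 : (c i : Γ ⧸ S) = ((c i * ⟨γ', hle γ'.2⟩ : Γ) : Γ ⧸ S) := by
            refine QuotientGroup.eq.2 ((hSm _).2 ?_)
            rw [inv_mul_cancel_left]
            exact γ'.2
          rw [← h2, hc i]
        refine Prod.ext h1 (Subtype.ext ?_)
        show (((c ((c i * ⟨γ', hle γ'.2⟩ : Γ) : Γ ⧸ S))⁻¹ * (c i * ⟨γ', hle γ'.2⟩) : Γ) :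
          SUGroup n) = γ'
        rw [h1, inv_mul_cancel_left]
      right_inv := by
        intro γ
        refine Subtype.ext ?_
        show ((c (γ : Γ ⧸ S) : Γ) : SUGroup n) * (((c (γ : Γ ⧸ S))⁻¹ * γ : Γ) : SUGroup n) = γ
        rw [← Subgroup.coe_mul, mul_inv_cancel_left] }
  refine ⟨fun g => ∑ i, χ ((c i : SUGroup n) * g), ?_, ?_, ?_, ?_, ?_⟩
  · exact DiscreteTopology.of_continuous_injective
      (f := Subgroup.inclusion hle) (continuous_inclusion hle) (Subgroup.inclusion_injective hle)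
  · exact continuous_finsetSum _ fun i _ => hL.cont.comp (continuous_const_mul _)
  · intro g
    exact Finset.sum_pos (fun i _ => hL.pos _) ⟨((1 : Γ) : Γ ⧸ S), Finset.mem_univ _⟩
  · intro g
    have hsum := hL.summable g
    have h1 : Summable fun p : (Γ ⧸ S) × Γ' => χ (((e p : Γ) : SUGroup n) * g) :=
      e.summable_iff.2 hsum
    have h2 := h1.tsum_prod' (fun i => h1.prod_factor i)
    have h3 : ∑' p : (Γ ⧸ S) × Γ', χ (((e p : Γ) : SUGroup n) * g) = 1 := by
      rw [e.tsum_eq fun γ : Γ => χ ((γ : SUGroup n) * g), hL.sum g]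
    rw [h3, tsum_fintype] at h2
    rw [h2, ← Summable.tsum_finsetSum fun i _ => h1.prod_factor i]
    refine tsum_congr fun γ' => Finset.sum_congr rfl fun i _ => ?_
    show χ ((c i : SUGroup n) * ((γ' : SUGroup n) * g)) =
      χ (((c i * ⟨γ', hle γ'.2⟩ : Γ) : SUGroup n) * g)
    rw [Subgroup.coe_mul, mul_assoc]
  · exact integrable_finsetSum _ fun i _ => hL.int.comp_mul_left _

/-- L7. -/
theorem Lat.isLattice (hL : Lat Γ χ) : IsLattice Γ := by
  let _ : MeasurableSpace (SUGroup n ⧸ Γ) := borel _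
  have : BorelSpace (SUGroup n ⧸ Γ) := ⟨rfl⟩
  obtain ⟨ν, hν⟩ : ∃ ν : Measure (SUGroup n ⧸ Γ), ν = Measure.map
      (fun g : SUGroup n => (g : SUGroup n ⧸ Γ))
      ((mu n).withDensity fun g => ENNReal.ofReal (χ g⁻¹)) := ⟨_, rfl⟩
  have hπ : Measurable fun g : SUGroup n => (g : SUGroup n ⧸ Γ) :=
    (QuotientGroup.continuous_mk).measurable
  -- the value of the measure
  have hval : ∀ s : Set (SUGroup n ⧸ Γ), MeasurableSet s →
      ν s = LI χ fun g => s.indicator 1 ((g⁻¹ : SUGroup n) : SUGroup n ⧸ Γ) := by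
    intro s hs
    have hs' : MeasurableSet ((fun g : SUGroup n => (g : SUGroup n ⧸ Γ)) ⁻¹' s) := hπ hs
    rw [hν, Measure.map_apply hπ hs, withDensity_apply _ hs', ← lintegral_indicator hs',
      ← lintegral_inv_eq_self]
    refine lintegral_congr fun g => ?_
    by_cases hg : ((g⁻¹ : SUGroup n) : SUGroup n ⧸ Γ) ∈ s
    · have hg' : g⁻¹ ∈ (fun g : SUGroup n => (g : SUGroup n ⧸ Γ)) ⁻¹' s := hg
      rw [Set.indicator_of_mem hg', inv_inv]
      show ENNReal.ofReal (χ g) =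
        ENNReal.ofReal (χ g) * s.indicator 1 ((g⁻¹ : SUGroup n) : SUGroup n ⧸ Γ)
      rw [Set.indicator_of_mem hg, Pi.one_apply, mul_one]
    · have hg' : g⁻¹ ∉ (fun g : SUGroup n => (g : SUGroup n ⧸ Γ)) ⁻¹' s := hg
      rw [Set.indicator_of_notMem hg']
      show 0 = ENNReal.ofReal (χ g) * s.indicator 1 ((g⁻¹ : SUGroup n) : SUGroup n ⧸ Γ)
      rw [Set.indicator_of_notMem hg, mul_zero]
  have huniv : ν Set.univ = LI χ 1 := by
    rw [hval _ MeasurableSet.univ]
    simp only [Set.indicator_univ]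
    rfl
  refine ⟨hL.disc, ν, ?_, ?_, ?_⟩
  · intro h0
    have h1 : LI χ 1 = 0 := by
      rw [← huniv, h0]
      rfl
    unfold LI at h1
    simp only [Pi.one_apply, mul_one] at h1
    rw [lintegral_eq_zero_iff hL.measurable] at h1
    have h2 : ∀ᵐ g ∂(mu n), False := by
      filter_upwards [h1] with g hg
      exact (ENNReal.ofReal_pos.2 (hL.pos g)).ne' hg
    have h3 : mu n = 0 := by
      rw [← Measure.measure_univ_eq_zero]
      have h4 := ae_iff.1 h2
      simpa using h4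
    exact NeZero.ne (mu n) h3
  · rw [huniv]
    exact hL.LI_one.ne
  · intro a s hs
    have hm : Measurable fun y : SUGroup n ⧸ Γ => a • y := (continuous_const_smul a).measurable
    rw [hval _ hs, hval _ (hm hs)]
    obtain ⟨f, hf⟩ : ∃ f : SUGroup n → ℝ≥0∞,
        f = fun g => s.indicator 1 ((g⁻¹ : SUGroup n) : SUGroup n ⧸ Γ) := ⟨_, rfl⟩
    have hfm : Measurable f := by
      rw [hf]
      exact (measurable_one.indicator hs).comp (hπ.comp measurable_inv)
    have hfi : ∀ γ ∈ Γ, ∀ g, f (γ * g) = f g := by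
      intro γ hγ g
      have h1 : (((γ * g)⁻¹ : SUGroup n) : SUGroup n ⧸ Γ) = ((g⁻¹ : SUGroup n) : SUGroup n ⧸ Γ) := by
        refine QuotientGroup.eq.2 ?_
        rw [inv_inv, mul_inv_cancel_right]
        exact hγ
      rw [hf]
      show s.indicator 1 (((γ * g)⁻¹ : SUGroup n) : SUGroup n ⧸ Γ) =
        s.indicator 1 ((g⁻¹ : SUGroup n) : SUGroup n ⧸ Γ)
      rw [h1]
    have h1 : (fun g : SUGroup n => ((fun x : SUGroup n ⧸ Γ => a • x) ⁻¹' s).indicator
        (1 : SUGroup n ⧸ Γ → ℝ≥0∞) ((g⁻¹ : SUGroup n) : SUGroup n ⧸ Γ)) =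
        fun g => f (g * a⁻¹) := by
      funext g
      rw [hf]
      have h2 : ((g * a⁻¹)⁻¹ : SUGroup n) = a * g⁻¹ := by group
      show _ = s.indicator 1 (((g * a⁻¹)⁻¹ : SUGroup n) : SUGroup n ⧸ Γ)
      rw [h2]
      rfl
    rw [h1, LI_mul_right hL hfi hfm.aemeasurable, hf]

/-- L8: the thick part is compact modulo `Γ`. -/
theorem thick (hL : Lat Γ χ) {e : ℝ} (he : 0 < e) : ∃ R : ℝ, ∀ g : SUGroup n,
    (∀ γ ∈ Γ, γ ≠ 1 → e ≤ ds g γ) → ∃ γ ∈ Γ, ch (γ * g) ≤ R := by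
  classical
  have := hL.countable
  -- the neighbourhood
  obtain ⟨W, hWo, hW1, hW2, hWe⟩ : ∃ W : Set (SUGroup n), IsOpen W ∧ (1 : SUGroup n) ∈ W ∧
      (∀ w ∈ W, ch w < 2) ∧ ∀ w ∈ W, ∀ w' ∈ W, fro ((w * w'⁻¹).toMatrix - 1) < e := by
    have hc : Continuous fun x : SUGroup n => fro (x.toMatrix - 1) :=
      continuous_fro.comp ((continuous_toMatrix n).sub continuous_const)
    have ho : IsOpen {x : SUGroup n | fro (x.toMatrix - 1) < e} := isOpen_lt hc continuous_const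
    have h0 : (1 : SUGroup n) ∈ {x : SUGroup n | fro (x.toMatrix - 1) < e} := by
      show fro ((1 : SUGroup n).toMatrix - 1) < e
      rw [toMatrix_one, sub_self, fro_eq_zero.2 rfl]
      exact he
    obtain ⟨V, hV, hVs⟩ := exists_nhds_split_inv (ho.mem_nhds h0)
    obtain ⟨U, hUV, hU, hU1⟩ := mem_nhds_iff.1 hV
    refine ⟨U ∩ {w | ch w < 2}, hU.inter (isOpen_lt continuous_ch continuous_const),
      ⟨hU1, ?_⟩, fun w hw => hw.2, ?_⟩
    · show ch (1 : SUGroup n) < 2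
      rw [ch_one]
      norm_num
    · intro w hw w' hw'
      have h1 : w / w' ∈ {x : SUGroup n | fro (x.toMatrix - 1) < e} :=
        hVs w (hUV hw.1) w' (hUV hw'.1)
      rw [div_eq_mul_inv] at h1
      exact h1
  obtain ⟨Th, hTh⟩ : ∃ Th : Set (SUGroup n), Th = {g | ∀ γ ∈ Γ, γ ≠ 1 → e ≤ ds g γ} := ⟨_, rfl⟩
  -- separated sets
  obtain ⟨Sep, hSep⟩ : ∃ Sep : Finset (SUGroup n) → Prop, Sep = fun A => (∀ a ∈ A, a ∈ Th) ∧
      ∀ a ∈ A, ∀ b ∈ A, ∀ γ ∈ Γ, ∀ w ∈ W, ∀ w' ∈ W, γ * (a * w) = b * w' → a = b := ⟨_, rfl⟩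
  have hWpos : 0 < mu n W := hWo.measure_pos (mu n) ⟨1, hW1⟩
  have hcard : ∀ A, Sep A → (A.card : ℝ≥0∞) * mu n W ≤ LI χ 1 := by
    intro A hA
    rw [hSep] at hA
    obtain ⟨hA1, hA2⟩ := hA
    obtain ⟨φ, hφ⟩ : ∃ φ : SUGroup n → ℝ≥0∞,
        φ = fun z => ∑ a ∈ A, W.indicator 1 (a⁻¹ * z) := ⟨_, rfl⟩
    have hWm : ∀ a : SUGroup n, Measurable fun z : SUGroup n =>
        W.indicator (1 : SUGroup n → ℝ≥0∞) (a⁻¹ * z) := fun a =>
      (measurable_one.indicator hWo.measurableSet).comp (measurable_const_mul a⁻¹)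
    have hφm : Measurable φ := by
      rw [hφ]
      exact Finset.measurable_fun_sum _ fun a _ => hWm a
    have h1 : ∫⁻ z, φ z ∂(mu n) = A.card * mu n W := by
      rw [hφ, lintegral_finsetSum _ fun a _ => hWm a, ← nsmul_eq_mul, ← Finset.sum_const]
      refine Finset.sum_congr rfl fun a _ => ?_
      rw [lintegral_mul_left_eq_self (fun z => W.indicator (1 : SUGroup n → ℝ≥0∞) z) a⁻¹,
        lintegral_indicator_one hWo.measurableSet]
    -- the sum over the group is at most one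
    have h2 : ∀ z, ∑' γ : Γ, φ ((γ : SUGroup n) * z) ≤ 1 := by
      intro z
      have e1 : ∑' γ : Γ, φ ((γ : SUGroup n) * z) =
          ∑' p : Γ × A, W.indicator (1 : SUGroup n → ℝ≥0∞) ((p.2 : SUGroup n)⁻¹ *
            ((p.1 : SUGroup n) * z)) := by
        have e2 : ∑' p : Γ × A, W.indicator (1 : SUGroup n → ℝ≥0∞) ((p.2 : SUGroup n)⁻¹ *
            ((p.1 : SUGroup n) * z)) = ∑' (γ : Γ) (a : A), W.indicator (1 : SUGroup n → ℝ≥0∞)
              ((a : SUGroup n)⁻¹ * ((γ : SUGroup n) * z)) :=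
          ENNReal.tsum_prod (f := fun (γ : Γ) (a : A) =>
            W.indicator (1 : SUGroup n → ℝ≥0∞) ((a : SUGroup n)⁻¹ * ((γ : SUGroup n) * z)))
        rw [e2]
        refine tsum_congr fun γ => ?_
        rw [hφ, tsum_fintype]
        exact (Finset.sum_coe_sort A fun a => W.indicator (1 : SUGroup n → ℝ≥0∞)
          (a⁻¹ * ((γ : SUGroup n) * z))).symm
      rw [e1]
      by_cases hex : ∃ p : Γ × A, (p.2 : SUGroup n)⁻¹ * ((p.1 : SUGroup n) * z) ∈ W
      · obtain ⟨⟨γ₀, a₀⟩, h0⟩ := hex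
        rw [tsum_eq_single (γ₀, a₀)]
        · exact Set.indicator_le_self' (fun _ _ => zero_le) _
        · rintro ⟨γ, a⟩ hne
          refine Set.indicator_of_notMem ?_ _
          intro h3
          apply hne
          have h0' : (a₀ : SUGroup n)⁻¹ * ((γ₀ : SUGroup n) * z) ∈ W := h0
          have h3' : (a : SUGroup n)⁻¹ * ((γ : SUGroup n) * z) ∈ W := h3
          have h4 : ((γ₀ * γ⁻¹ : Γ) : SUGroup n) *
              ((a : SUGroup n) * ((a : SUGroup n)⁻¹ * ((γ : SUGroup n) * z))) =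
              (a₀ : SUGroup n) * ((a₀ : SUGroup n)⁻¹ * ((γ₀ : SUGroup n) * z)) := by
            rw [mul_inv_cancel_left, mul_inv_cancel_left, Subgroup.coe_mul, Subgroup.coe_inv]
            group
          have h5 : (a : SUGroup n) = a₀ :=
            hA2 a a.2 a₀ a₀.2 _ (γ₀ * γ⁻¹).2 _ h3' _ h0' h4
          have h6 : a = a₀ := Subtype.ext h5
          subst h6
          have h7 : γ₀ * γ⁻¹ = 1 := by
            by_contra h8
            have h9 := hA1 a a.2
            rw [hTh] at h9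
            have h10 := h9 _ (γ₀ * γ⁻¹).2 (fun h11 => h8 (Subtype.ext h11))
            have h12 := hWe _ h0' _ h3'
            have h13 : (a : SUGroup n)⁻¹ * ((γ₀ : SUGroup n) * z) *
                ((a : SUGroup n)⁻¹ * ((γ : SUGroup n) * z))⁻¹ =
                (a : SUGroup n)⁻¹ * ((γ₀ * γ⁻¹ : Γ) : SUGroup n) * (a : SUGroup n) := by
              rw [Subgroup.coe_mul, Subgroup.coe_inv]
              group
            rw [h13] at h12
            exact absurd h12 (not_lt.2 h10)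
          have h8 : γ = γ₀ := by
            rw [mul_inv_eq_one] at h7
            exact h7.symm
          rw [h8]
      · have h3 : ∀ p : Γ × A, W.indicator (1 : SUGroup n → ℝ≥0∞) ((p.2 : SUGroup n)⁻¹ *
            ((p.1 : SUGroup n) * z)) = 0 := fun p =>
          Set.indicator_of_notMem (fun h4 => hex ⟨p, h4⟩) _
        rw [tsum_congr h3, tsum_zero]
        exact zero_le
    have h3 := lunfold_le hL (f := 1) (fun _ _ _ => rfl) measurable_one.aemeasurable
      hφm.aemeasurable h2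
    simp only [Pi.one_apply, mul_one, one_mul] at h3
    rw [← h1]
    exact h3
  -- a maximal separated set
  obtain ⟨N, hN⟩ : ∃ N : ℕ, ∀ A, Sep A → A.card ≤ N := by
    have h1 : LI χ 1 / mu n W ≠ ⊤ := (ENNReal.div_lt_top hL.LI_one.ne hWpos.ne').ne
    obtain ⟨N, hN⟩ := ENNReal.exists_nat_gt h1
    refine ⟨N, fun A hA => ?_⟩
    have h2 : (A.card : ℝ≥0∞) ≤ LI χ 1 / mu n W := by
      rw [ENNReal.le_div_iff_mul_le (Or.inl hWpos.ne') (Or.inr hL.LI_one.ne)]
      exact hcard A hA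
    have h3 := h2.trans hN.le
    exact_mod_cast h3
  have hempty : Sep ∅ := by
    rw [hSep]
    exact ⟨fun a ha => absurd ha (Finset.notMem_empty a), fun a ha => absurd ha (Finset.notMem_empty a)⟩
  obtain ⟨A, hA, hmax⟩ : ∃ A, Sep A ∧ ∀ A', Sep A' → A'.card ≤ A.card := by
    have h1 : ∃ k, ∃ A, Sep A ∧ A.card = N - k := by
      by_contra h2
      push Not at h2
      exact h2 N ∅ hempty (by simp)
    obtain ⟨A, hA, hc⟩ := Nat.find_spec h1
    refine ⟨A, hA, fun A' hA' => ?_⟩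
    by_contra h3
    push Not at h3
    have h4 := hN A' hA'
    have h5 : N - A'.card < Nat.find h1 := by omega
    exact Nat.find_min h1 h5 ⟨A', hA', by omega⟩
  obtain ⟨R, hR⟩ : ∃ R : ℝ, ∀ a ∈ A, ch a ≤ R := by
    obtain ⟨R, hR⟩ := (A.finite_toSet.image ch).bddAbove
    exact ⟨R, fun a ha => hR ⟨a, ha, rfl⟩⟩
  refine ⟨16 * max R 1, fun g hg => ?_⟩
  have hgT : g ∈ Th := by
    rw [hTh]
    exact hg
  have hA' := hA
  rw [hSep] at hA'
  obtain ⟨hA1, hA2⟩ := hA'
  -- `g` is related to an element of the maximal set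
  obtain ⟨a, ha, γ, hγ, w, hw, w', hw', hrel⟩ : ∃ a ∈ A, ∃ γ ∈ Γ, ∃ w ∈ W, ∃ w' ∈ W,
      γ * (g * w) = a * w' := by
    by_contra hno
    push Not at hno
    have hgA : g ∉ A := by
      intro h1
      exact hno g h1 1 Γ.one_mem 1 hW1 1 hW1 (by rw [one_mul])
    have h1 : Sep (insert g A) := by
      rw [hSep]
      refine ⟨?_, ?_⟩
      · intro a ha
        rcases Finset.mem_insert.1 ha with rfl | ha
        · exact hgT
        · exact hA1 a ha
      · intro a ha b hb γ hγ w hw w' hw' h2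
        rcases Finset.mem_insert.1 ha with ha1 | ha1
        · rcases Finset.mem_insert.1 hb with hb1 | hb1
          · rw [ha1, hb1]
          · rw [ha1] at h2
            exact absurd h2 (hno b hb1 γ hγ w hw w' hw')
        · rcases Finset.mem_insert.1 hb with hb1 | hb1
          · refine absurd ?_ (hno a ha1 γ⁻¹ (Γ.inv_mem hγ) w' hw' w hw)
            rw [← hb1, ← h2, inv_mul_cancel_left]
          · exact hA2 a ha1 b hb1 γ hγ w hw w' hw' h2
    have h2 := hmax _ h1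
    rw [Finset.card_insert_of_notMem hgA] at h2
    omega
  refine ⟨γ, hγ, ?_⟩
  have h1 : γ * g = a * w' * w⁻¹ := by
    rw [← hrel]
    group
  rw [h1]
  have h2 := ch_mul_le' (a * w') w⁻¹
  have h3 := ch_mul_le' a w'
  rw [ch_inv] at h2
  have h4 := hW2 w hw
  have h5 := hW2 w' hw'
  have h6 := hR a ha
  have h7 := one_le_ch a
  have h8 := one_le_ch (a * w')
  have h9 := one_le_ch w
  have h10 := one_le_ch w'
  have h11 : ch a ≤ max R 1 := h6.trans (le_max_left _ _)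
  have h12 : ch (a * w') ≤ 4 * ch a := by nlinarith
  have h13 : ch (a * w' * w⁻¹) ≤ 4 * ch (a * w') := by nlinarith
  linarith

end Pool.Agent.Lib.MP_5d4057_al.NU
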