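import Mathlib

/-! Selberg's lemma: a finitely generated linear group over a field of characteristic zero has a
normal torsion free subgroup of finite index. -/

set_option autoImplicit false

namespace Pool.Agent.Lib.MP_5d4057_al.NU

open Matrix

private theorem sel_jac : IsJacobsonRing ℤ := by
  rw [isJacobsonRing_iff_prime_eq]
  intro P hP
  by_cases h : P = ⊥
  · subst h
    refine le_antisymm ?_ Ideal.le_jacobson
    intro x hx
    rw [Ideal.mem_bot]
    by_contra hx0
    obtain ⟨p, hp, hp'⟩ := Nat.exists_infinite_primes (x.natAbs + 1)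
    have hmax : (Ideal.span {(p : ℤ)}).IsMaximal :=
      PrincipalIdealRing.isMaximal_of_irreducible (Nat.prime_iff_prime_int.mp hp').irreducible
    have := Ideal.mem_sInf.mp hx (I := Ideal.span {(p : ℤ)}) ⟨bot_le, hmax⟩
    rw [Ideal.mem_span_singleton] at this
    have h2 := Int.natAbs_dvd_natAbs.mpr this
    simp only [Int.natAbs_natCast] at h2
    have := Nat.le_of_dvd (Int.natAbs_pos.mpr hx0) h2
    omega
  · have := hP.isMaximal h
    exact Ideal.jacobson_eq_self_of_isMaximal

/-- a field of finite type over the integers is finite -/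
private theorem sel_field (S : Type) [Field S] (h : (Int.castRingHom S).FiniteType) :
    Finite S ∧ ∃ p : ℕ, p.Prime ∧ (p : S) = 0 := by
  have := sel_jac
  have hfin : Module.Finite ℤ S := RingHom.finite_algebraMap.1 (by
    rw [algebraMap_int_eq]
    exact RingHom.finite_iff_finiteType_of_isJacobsonRing.2 h)
  obtain ⟨p, hp⟩ := CharP.exists S
  rcases Nat.eq_zero_or_pos p with h | h
  · subst h
    have : CharZero S := CharP.charP_to_charZero S
    exfalso
    have hint : Algebra.IsIntegral ℤ S := Algebra.IsIntegral.of_finite ℤ S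
    have h2 : IsIntegral ℤ ((2 : S)⁻¹) := hint.isIntegral _
    have h3 : IsIntegral ℤ ((2 : ℚ)⁻¹) := by
      have : (algebraMap ℚ S) ((2 : ℚ)⁻¹) = (2 : S)⁻¹ := by simp
      rw [← this] at h2
      exact (isIntegral_algebraMap_iff (algebraMap ℚ S).injective).mp h2
    obtain ⟨y, hy⟩ := IsIntegrallyClosed.isIntegral_iff.mp h3
    have h4 : (2 : ℤ) * y = 1 := by
      have : (2 : ℚ) * (y : ℚ) = 1 := by
        rw [show (y : ℚ) = 2⁻¹ from hy]; norm_num
      exact_mod_cast this
    omega
  · have : NeZero p := ⟨h.ne'⟩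
    refine ⟨?_, p, ?_, CharP.cast_eq_zero S p⟩
    · let := ZMod.algebra S p
      have : Module.Finite (ZMod p) S := by
        have : IsScalarTower ℤ (ZMod p) S := inferInstance
        exact Module.Finite.of_restrictScalars_finite ℤ (ZMod p) S
      exact Module.finite_of_finite (ZMod p)
    · exact (CharP.char_is_prime_or_zero S p).resolve_right h.ne'

/-- a maximal ideal of a ring of finite type over the integers -/
private theorem sel_max (R : Type) [CommRing R] [Nontrivial R]
    (h : (Int.castRingHom R).FiniteType) :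
    ∃ (m : Ideal R) (p : ℕ), m ≠ ⊤ ∧ Finite (R ⧸ m) ∧ p.Prime ∧ (p : R) ∈ m := by
  obtain ⟨m, hm⟩ := Ideal.exists_maximal R
  have hft : (Int.castRingHom (R ⧸ m)).FiniteType := by
    have e : Int.castRingHom (R ⧸ m) = (Ideal.Quotient.mk m).comp (Int.castRingHom R) :=
      RingHom.ext_int _ _
    rw [e]
    exact h.comp_surjective Ideal.Quotient.mk_surjective
  let _ : Field (R ⧸ m) := Ideal.Quotient.field m
  obtain ⟨h1, p, hp, h2⟩ := sel_field (R ⧸ m) hft
  refine ⟨m, p, hm.ne_top, h1, hp, ?_⟩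
  rw [← Ideal.Quotient.eq_zero_iff_mem, map_natCast]
  exact h2

/-- two ideals with finite quotients and different residue characteristics -/
private theorem sel_two (R : Type) [CommRing R] [IsDomain R] [CharZero R]
    (h : (Int.castRingHom R).FiniteType) :
    ∃ (m₁ m₂ : Ideal R) (p₁ p₂ : ℕ), m₁ ≠ ⊤ ∧ m₂ ≠ ⊤ ∧ Finite (R ⧸ m₁) ∧ Finite (R ⧸ m₂) ∧
      p₁.Prime ∧ p₂.Prime ∧ (p₁ : R) ∈ m₁ ∧ (p₂ : R) ∈ m₂ ∧ p₁ ≠ p₂ := by
  obtain ⟨m₁, p₁, h1, h2, h3, h4⟩ := sel_max R h
  have hp0 : (p₁ : R) ≠ 0 := Nat.cast_ne_zero.2 h3.ne_zero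
  let R' := Localization.Away (p₁ : R)
  have hinj : Function.Injective (algebraMap R R') :=
    IsLocalization.injective R' (powers_le_nonZeroDivisors_of_noZeroDivisors hp0)
  have : Nontrivial R' := hinj.nontrivial
  have hft : (Int.castRingHom R').FiniteType := by
    have e : Int.castRingHom R' = (algebraMap R R').comp (Int.castRingHom R) :=
      RingHom.ext_int _ _
    have h' : Algebra.FiniteType R R' := IsLocalization.finiteType_of_monoid_fg
      (Submonoid.powers (p₁ : R)) R'
    rw [e]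
    exact RingHom.FiniteType.comp (RingHom.finiteType_algebraMap.2 h') h
  obtain ⟨m', p₂, h5, h6, h7, h8⟩ := sel_max R' hft
  refine ⟨m₁, m'.comap (algebraMap R R'), p₁, p₂, h1, ?_, h2, ?_, h3, h7, h4, ?_, ?_⟩
  · rw [Ne, Ideal.comap_eq_top_iff]
    exact h5
  · exact Finite.of_injective _ (Ideal.quotientMap_injective (I := m') (f := algebraMap R R'))
  · rw [Ideal.mem_comap, map_natCast]
    exact h8
  · rintro rfl
    apply h5
    apply Ideal.eq_top_of_isUnit_mem _ h8
    have h9 := IsLocalization.Away.algebraMap_isUnit (S := R') (p₁ : R)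
    rwa [map_natCast] at h9

private theorem sel_pow {A : Type} [Ring A] (x : A) (q : ℕ) :
    ∃ y : A, (1 + x) ^ q = 1 + (q : A) * x + x * x * y := by
  induction q with
  | zero => exact ⟨0, by simp⟩
  | succ q ih =>
    obtain ⟨y, hy⟩ := ih
    refine ⟨(q : A) + y + y * x, ?_⟩
    have h : (q : A) * x = x * (q : A) := (Nat.cast_commute q x).eq
    rw [pow_succ, hy, Nat.cast_succ]
    have e1 : (1 + (q : A) * x + x * x * y) * (1 + x) =
        1 + x + (q : A) * x + (q : A) * x * x + x * x * y + x * x * y * x := by noncomm_ring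
    have e2 : 1 + ((q : A) + 1) * x + x * x * ((q : A) + y + y * x) =
        1 + x + (q : A) * x + x * x * (q : A) + x * x * y + x * x * y * x := by noncomm_ring
    have e3 : (q : A) * x * x = x * x * (q : A) := by
      rw [mul_assoc, (Nat.cast_commute q (x * x)).eq]
    rw [e1, e2, e3]

private theorem sel_mul {R : Type} [CommRing R] {n : ℕ} {I J : Ideal R}
    {x y : Matrix (Fin n) (Fin n) R} (hx : ∀ i j, x i j ∈ I) (hy : ∀ i j, y i j ∈ J) (i j : Fin n) :
    (x * y) i j ∈ I * J := by
  rw [Matrix.mul_apply]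
  exact Ideal.sum_mem _ fun l _ => Ideal.mul_mem_mul (hx i l) (hy l j)

/-- elements of prime order which are congruent to `1` -/
private theorem sel_one {R : Type} [CommRing R] [IsDomain R] [IsNoetherianRing R] {n : ℕ}
    {m : Ideal R} (hm : m ≠ ⊤) {p q : ℕ} (hp : p.Prime) (hq : q.Prime) (hpq : p ≠ q)
    (hpm : (p : R) ∈ m) (x : Matrix (Fin n) (Fin n) R) (hx : ∀ i j, x i j ∈ m)
    (h : (1 + x) ^ q = 1) : x = 0 := by
  obtain ⟨y, hy⟩ := sel_pow x q
  rw [h] at hy
  have e1 : ∀ i j, (q : R) * x i j = - (x * x * y) i j := by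
    intro i j
    have h1 : (q : Matrix (Fin n) (Fin n) R) * x + x * x * y = 0 := by
      have h2 : (1 : Matrix (Fin n) (Fin n) R) + ((q : Matrix (Fin n) (Fin n) R) * x + x * x * y) =
          1 + 0 := by
        rw [add_zero, ← add_assoc]
        exact hy.symm
      exact add_left_cancel h2
    have h2 := congrFun (congrFun h1 i) j
    have h3 : ((q : Matrix (Fin n) (Fin n) R) * x) i j = (q : R) * x i j := by
      rw [← nsmul_eq_mul, Matrix.smul_apply, nsmul_eq_mul]
    rw [Matrix.add_apply, h3, Matrix.zero_apply] at h2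
    exact eq_neg_of_add_eq_zero_left h2
  obtain ⟨a, b, hab⟩ : ∃ a b : ℤ, a * q + b * p = 1 := by
    have h1 : IsCoprime (q : ℤ) (p : ℤ) := by
      rw [Nat.isCoprime_iff_coprime]
      exact (Nat.coprime_primes hq hp).2 (Ne.symm hpq)
    exact h1
  have hk : ∀ k : ℕ, ∀ i j, x i j ∈ m ^ (k + 1) := by
    intro k
    induction k with
    | zero =>
      intro i j
      rw [zero_add, pow_one]
      exact hx i j
    | succ k ih =>
      intro i j
      have h1 : x i j = (a : R) * ((q : R) * x i j) + (b : R) * ((p : R) * x i j) := by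
        have h2 : ((a * q + b * p : ℤ) : R) = 1 := by rw [hab, Int.cast_one]
        push_cast at h2
        linear_combination (- x i j) * h2
      rw [h1, e1]
      refine Ideal.add_mem _ (Ideal.mul_mem_left _ _ (neg_mem ?_)) (Ideal.mul_mem_left _ _ ?_)
      · have h3 := sel_mul (sel_mul ih hx) (J := ⊤) (y := y) (fun _ _ => trivial) i j
        rw [← pow_succ, Ideal.mul_top] at h3
        exact h3
      · have h4 := Ideal.mul_mem_mul hpm (ih i j)
        rwa [← pow_succ'] at h4
  ext i j
  have h5 : x i j ∈ (⨅ k : ℕ, m ^ k) := by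
    rw [Ideal.mem_iInf]
    intro k
    exact Ideal.pow_le_pow_right (Nat.le_succ k) (hk k i j)
  have h6 := Ideal.iInf_pow_eq_bot_of_isDomain m hm
  rw [h6, Ideal.mem_bot] at h5
  rw [h5, Matrix.zero_apply]

/-- Selberg's lemma for a group of matrices with entries in a finitely generated ring. -/
theorem selberg_ring {G : Type} [Group G] {K : Type} [Field K] [CharZero K] {n : ℕ}
    (f : G →* Matrix (Fin n) (Fin n) K) (hf : Function.Injective f) (E : Finset K)
    (hE : ∀ g : G, ∀ i j, f g i j ∈ Algebra.adjoin ℤ (E : Set K)) :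
    ∃ N : Subgroup G, N.Normal ∧ N.FiniteIndex ∧ ∀ g ∈ N, ∀ k : ℕ, 0 < k → g ^ k = 1 → g = 1 := by
  classical
  let R : Subalgebra ℤ K := Algebra.adjoin ℤ (E : Set K)
  have hR : Algebra.FiniteType ℤ R := (Subalgebra.fg_iff_finiteType _).mp ⟨E, rfl⟩
  have hgen : ∀ g : G, ∀ i j, f g i j ∈ R := hE
  -- the group over `R`
  let φ : Matrix (Fin n) (Fin n) R →+* Matrix (Fin n) (Fin n) K := R.val.toRingHom.mapMatrix
  have hφ : Function.Injective φ := by
    intro A B hAB
    ext i j
    exact congrFun (congrFun hAB i) j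
  let F : G →* Matrix (Fin n) (Fin n) R :=
    { toFun := fun g => Matrix.of fun i j => ⟨f g i j, hgen g i j⟩
      map_one' := by
        apply hφ
        exact (map_one f).trans (map_one φ).symm
      map_mul' := by
        intro g h
        apply hφ
        have e : ∀ g, φ (Matrix.of fun i j => (⟨f g i j, hgen g i j⟩ : R)) = f g := fun _ => rfl
        refine (e (g * h)).trans ((map_mul f g h).trans ?_)
        rw [map_mul φ, e, e] }
  have hF : ∀ g, φ (F g) = f g := fun _ => rfl
  have : IsNoetherianRing R := Algebra.FiniteType.isNoetherianRing ℤ R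
  have : CharZero R := (algebraMap R K).charZero
  have hR' : (Int.castRingHom R).FiniteType := by
    have e : Int.castRingHom R = algebraMap ℤ R := RingHom.ext_int _ _
    rw [e]
    exact RingHom.finiteType_algebraMap.2 hR
  obtain ⟨m₁, m₂, p₁, p₂, h1, h2, h3, h4, h5, h6, h7, h8, h9⟩ := sel_two R hR'
  let ψ₁ : G →* Matrix (Fin n) (Fin n) (R ⧸ m₁) :=
    (RingHom.toMonoidHom (Ideal.Quotient.mk m₁).mapMatrix).comp F
  let ψ₂ : G →* Matrix (Fin n) (Fin n) (R ⧸ m₂) :=
    (RingHom.toMonoidHom (Ideal.Quotient.mk m₂).mapMatrix).comp F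
  let Ψ : G →* (Matrix (Fin n) (Fin n) (R ⧸ m₁))ˣ × (Matrix (Fin n) (Fin n) (R ⧸ m₂))ˣ :=
    ψ₁.toHomUnits.prod ψ₂.toHomUnits
  refine ⟨Ψ.ker, inferInstance, ?_, ?_⟩
  · have hfi : Finite (Matrix (Fin n) (Fin n) (R ⧸ m₁)) :=
      inferInstanceAs (Finite (Fin n → Fin n → R ⧸ m₁))
    have hfi' : Finite (Matrix (Fin n) (Fin n) (R ⧸ m₂)) :=
      inferInstanceAs (Finite (Fin n → Fin n → R ⧸ m₂))
    exact Subgroup.finiteIndex_ker Ψ
  · -- no torsion
    have hcong : ∀ g ∈ Ψ.ker, (∀ i j, (F g - 1) i j ∈ m₁) ∧ (∀ i j, (F g - 1) i j ∈ m₂) := by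
      intro g hg
      rw [MonoidHom.mem_ker, MonoidHom.prod_apply, Prod.mk_eq_one] at hg
      obtain ⟨ha, hb⟩ := hg
      have ha' : ψ₁ g = 1 := congrArg Units.val ha
      have hb' : ψ₂ g = 1 := congrArg Units.val hb
      constructor
      · intro i j
        rw [← Ideal.Quotient.eq_zero_iff_mem, Matrix.sub_apply, map_sub, sub_eq_zero]
        have h := congrFun (congrFun ha' i) j
        have e : ψ₁ g i j = Ideal.Quotient.mk m₁ (F g i j) := rfl
        rw [← e, h, Matrix.one_apply, Matrix.one_apply]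
        split_ifs <;> simp
      · intro i j
        rw [← Ideal.Quotient.eq_zero_iff_mem, Matrix.sub_apply, map_sub, sub_eq_zero]
        have h := congrFun (congrFun hb' i) j
        have e : ψ₂ g i j = Ideal.Quotient.mk m₂ (F g i j) := rfl
        rw [← e, h, Matrix.one_apply, Matrix.one_apply]
        split_ifs <;> simp
    have hprime : ∀ g ∈ Ψ.ker, ∀ q : ℕ, q.Prime → g ^ q = 1 → g = 1 := by
      intro g hg q hq hgq
      obtain ⟨ha, hb⟩ := hcong g hg
      have e : (1 + (F g - 1)) ^ q = 1 := by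
        rw [add_sub_cancel, ← map_pow, hgq, map_one]
      have h0 : F g - 1 = 0 := by
        by_cases hpq : p₁ = q
        · exact sel_one h2 h6 hq (by rintro rfl; exact h9 hpq) h8 _ hb e
        · exact sel_one h1 h5 hq hpq h7 _ ha e
      apply hf
      rw [← hF, sub_eq_zero.1 h0, map_one, map_one]
    intro g hg k hk hgk
    by_contra hne
    have hfin : IsOfFinOrder g := isOfFinOrder_iff_pow_eq_one.2 ⟨k, hk, hgk⟩
    have ho : orderOf g ≠ 1 := fun h => hne (orderOf_eq_one_iff.1 h)
    obtain ⟨q, hq, hdvd⟩ := Nat.exists_prime_and_dvd ho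
    have h10 : (g ^ (orderOf g / q)) ^ q = 1 := by
      rw [← pow_mul, Nat.div_mul_cancel hdvd, pow_orderOf_eq_one]
    have h11 := hprime _ (Ψ.ker.pow_mem hg _) q hq h10
    have h12 := orderOf_dvd_of_pow_eq_one h11
    have hpos : 0 < orderOf g := hfin.orderOf_pos
    have h13 : 0 < orderOf g / q := Nat.div_pos (Nat.le_of_dvd hpos hdvd) hq.pos
    have h14 := Nat.le_of_dvd h13 h12
    have h15 : orderOf g / q < orderOf g := Nat.div_lt_self hpos hq.one_lt
    omega

/-- Selberg's lemma. -/
theorem selberg {G : Type} [Group G] [Group.FG G] {K : Type} [Field K] [CharZero K] {n : ℕ}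
    (f : G →* Matrix (Fin n) (Fin n) K) (hf : Function.Injective f) :
    ∃ N : Subgroup G, N.Normal ∧ N.FiniteIndex ∧ ∀ g ∈ N, ∀ k : ℕ, 0 < k → g ^ k = 1 → g = 1 := by
  classical
  obtain ⟨S, hS⟩ := Group.FG.out (G := G)
  -- the ring of the entries
  let E : Finset K := (S ∪ S.image (fun g => g⁻¹)).biUnion
    (fun g => Finset.univ.image (fun ij : Fin n × Fin n => f g ij.1 ij.2))
  refine selberg_ring f hf E ?_
  have h1 : ∀ g : G, g ∈ Submonoid.closure ((S : Set G) ∪ (S : Set G)⁻¹) := by
    intro g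
    rw [← Subgroup.closure_toSubmonoid, hS]
    trivial
  intro g
  refine Submonoid.closure_induction
    (motive := fun g _ => ∀ i j, f g i j ∈ Algebra.adjoin ℤ (E : Set K)) ?_ ?_ ?_ (h1 g)
  · intro g hg i j
    apply Algebra.subset_adjoin
    rw [Finset.mem_coe]
    refine Finset.mem_biUnion.2 ⟨g, ?_, Finset.mem_image.2 ⟨(i, j), Finset.mem_univ _, rfl⟩⟩
    rcases hg with hg | hg
    · exact Finset.mem_union_left _ hg
    · refine Finset.mem_union_right _ (Finset.mem_image.2 ⟨g⁻¹, hg, inv_inv g⟩)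
  · intro i j
    rw [map_one, Matrix.one_apply]
    split_ifs
    · exact one_mem _
    · exact zero_mem _
  · intro g h _ _ hg hh i j
    rw [map_mul, Matrix.mul_apply]
    exact sum_mem fun l _ => mul_mem (hg i l) (hh l j)

end Pool.Agent.Lib.MP_5d4057_al.NU
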