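import Pool.Agent.Lib.MP_5d4057_al.NU.Defs
import Pool.Agent.Lib.MP_5d4057_al.NU.Selberg
import Pool.Agent.Lib.MP_5d4057_al.HM.WideB

/-! Selberg's lemma for the groups of the construction (blueprint h37_nu, S2 and C3). -/

set_option autoImplicit false

namespace Pool.Agent.Lib.MP_5d4057_al.NU

open Matrix Pool.Agent.Lib.MP_5d4057_al Pool.Agent.Lib.MP_5d4057_al.Hyb
  Pool.Agent.Lib.MP_5d4057_al.HM

/-- The entries of the matrices in `S` lie in one finitely generated ring. -/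
def FGE {n : ℕ} (S : Set (Matrix (Fin n) (Fin n) ℂ)) : Prop :=
  ∃ E : Finset ℂ, ∀ A ∈ S, ∀ i j, A i j ∈ Algebra.adjoin ℤ (E : Set ℂ)

section FGE

variable {n : ℕ} {S T : Set (Matrix (Fin n) (Fin n) ℂ)}

theorem FGE.mono (h : FGE T) (hST : S ⊆ T) : FGE S := by
  obtain ⟨E, hE⟩ := h
  exact ⟨E, fun A hA => hE A (hST hA)⟩

/-- two sets have a common ring -/
private theorem FGE.common {k : ℕ} {U : Set (Matrix (Fin k) (Fin k) ℂ)} (hS : FGE S)
    (hU : FGE U) : ∃ E : Finset ℂ, (∀ A ∈ S, ∀ i j, A i j ∈ Algebra.adjoin ℤ (E : Set ℂ)) ∧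
      ∀ A ∈ U, ∀ i j, A i j ∈ Algebra.adjoin ℤ (E : Set ℂ) := by
  classical
  obtain ⟨E, hE⟩ := hS
  obtain ⟨F, hF⟩ := hU
  refine ⟨E ∪ F, fun A hA i j => ?_, fun A hA i j => ?_⟩
  · exact Algebra.adjoin_mono (by rw [Finset.coe_union]; exact Set.subset_union_left) (hE A hA i j)
  · exact Algebra.adjoin_mono (by rw [Finset.coe_union]; exact Set.subset_union_right) (hF A hA i j)

theorem FGE.union (hS : FGE S) (hT : FGE T) : FGE (S ∪ T) := by
  obtain ⟨E, h1, h2⟩ := FGE.common hS hT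
  exact ⟨E, fun A hA => hA.elim (h1 A) (h2 A)⟩

theorem FGE.of_finite (h : S.Finite) : FGE S := by
  classical
  refine ⟨h.toFinset.biUnion
    (fun A => Finset.univ.image (fun ij : Fin n × Fin n => A ij.1 ij.2)), fun A hA i j => ?_⟩
  apply Algebra.subset_adjoin
  rw [Finset.mem_coe, Finset.mem_biUnion]
  exact ⟨A, h.mem_toFinset.2 hA, Finset.mem_image.2 ⟨(i, j), Finset.mem_univ _, rfl⟩⟩

theorem FGE.mul (hS : FGE S) (hT : FGE T) : FGE {A | ∃ B ∈ S, ∃ C ∈ T, A = B * C} := by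
  obtain ⟨E, h1, h2⟩ := FGE.common hS hT
  refine ⟨E, ?_⟩
  rintro _ ⟨B, hB, C, hC, rfl⟩ i j
  rw [Matrix.mul_apply]
  exact Subalgebra.sum_mem _ fun l _ => Subalgebra.mul_mem _ (h1 B hB i l) (h2 C hC l j)

theorem FGE.closure (hS : FGE S) :
    FGE (Submonoid.closure S : Set (Matrix (Fin n) (Fin n) ℂ)) := by
  obtain ⟨E, hE⟩ := hS
  refine ⟨E, fun A hA => ?_⟩
  refine Submonoid.closure_induction
    (motive := fun A _ => ∀ i j, A i j ∈ Algebra.adjoin ℤ (E : Set ℂ)) ?_ ?_ ?_ hA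
  · intro A hA
    exact hE A hA
  · intro i j
    rw [Matrix.one_apply]
    split_ifs
    · exact Subalgebra.one_mem _
    · exact Subalgebra.zero_mem _
  · intro A B _ _ hA hB i j
    rw [Matrix.mul_apply]
    exact Subalgebra.sum_mem _ fun l _ => Subalgebra.mul_mem _ (hA i l) (hB l j)

theorem FGE.dsum (hS : FGE S) : FGE (dsum 1 '' S) := by
  obtain ⟨E, hE⟩ := hS
  refine ⟨E, ?_⟩
  rintro _ ⟨A, hA, rfl⟩ i j
  refine Fin.cases ?_ (fun i => ?_) i <;> refine Fin.cases ?_ (fun j => ?_) j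
  · rw [dsum_zero_zero]
    exact Subalgebra.one_mem _
  · rw [dsum_zero_succ]
    exact Subalgebra.zero_mem _
  · rw [dsum_succ_zero]
    exact Subalgebra.zero_mem _
  · rw [dsum_succ_succ]
    exact hE A hA i j

end FGE

section groups

variable {n m : ℕ}

/-- The entries of the elements of `Γ` lie in one finitely generated ring. -/
def FGG (Γ : Subgroup (SUGroup n)) : Prop :=
  FGE (SUGroup.toMatrix '' (Γ : Set (SUGroup n)))

theorem FGG.mono {Γ Δ : Subgroup (SUGroup n)} (h : FGG Δ) (hle : Γ ≤ Δ) : FGG Γ :=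
  FGE.mono h (Set.image_mono hle)

/-- Passing to a group in which the given one has finite index. -/
theorem FGG.of_relIndex {Γ Δ : Subgroup (SUGroup n)} (h : FGG Δ) (hfin : Δ.relIndex Γ ≠ 0) :
    FGG Γ := by
  have hfi : (Δ.subgroupOf Γ).FiniteIndex := ⟨hfin⟩
  have hq : Finite (Γ ⧸ Δ.subgroupOf Γ) := Subgroup.finite_quotient_of_finiteIndex
  let R : Set (Matrix (Fin (n + 1)) (Fin (n + 1)) ℂ) :=
    Set.range fun c : Γ ⧸ Δ.subgroupOf Γ => (c.out : SUGroup n).toMatrix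
  have hR : FGE R := FGE.of_finite (Set.finite_range _)
  refine FGE.mono (FGE.mul hR h) ?_
  rintro _ ⟨γ, hγ, rfl⟩
  let c : Γ ⧸ Δ.subgroupOf Γ := QuotientGroup.mk ⟨γ, hγ⟩
  refine ⟨_, ⟨c, rfl⟩, ((c.out : SUGroup n)⁻¹ * γ).toMatrix, ⟨_, ?_, rfl⟩, ?_⟩
  · have h1 : (QuotientGroup.mk c.out : Γ ⧸ Δ.subgroupOf Γ) = QuotientGroup.mk ⟨γ, hγ⟩ :=
      QuotientGroup.out_eq' c
    have h2 : (c.out)⁻¹ * ⟨γ, hγ⟩ ∈ Δ.subgroupOf Γ := QuotientGroup.eq.1 h1
    exact h2
  · rw [← toMatrix_mul, mul_inv_cancel_left]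

/-- The ring of integers is contained in a finitely generated ring. -/
theorem exists_fg_integers (K : Subfield ℂ) (hK : NumberField K) :
    ∃ E : Finset ℂ, ∀ x ∈ integers K, x ∈ Algebra.adjoin ℤ (E : Set ℂ) := by
  classical
  have hfin : Module.Finite ℤ (NumberField.RingOfIntegers K) := inferInstance
  obtain ⟨S, hS⟩ := hfin.fg_top
  let φ : NumberField.RingOfIntegers K →ₗ[ℤ] ℂ :=
    ((K.subtype.comp (algebraMap (NumberField.RingOfIntegers K) K)).toIntAlgHom).toLinearMap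
  refine ⟨S.image φ, fun x hx => ?_⟩
  obtain ⟨hx1, hx2⟩ := hx
  have hint : IsIntegral ℤ (⟨x, hx1⟩ : K) := by
    have h1 : IsIntegral ℤ x := hx2
    have h2 : IsIntegral ℤ (algebraMap K ℂ ⟨x, hx1⟩) := h1
    exact (isIntegral_algebraMap_iff (algebraMap K ℂ).injective).1 h2
  let y : NumberField.RingOfIntegers K := ⟨⟨x, hx1⟩, hint⟩
  have hy : φ y = x := rfl
  have h3 : y ∈ Submodule.span ℤ (S : Set (NumberField.RingOfIntegers K)) := by
    rw [hS]; trivial
  have h4 : φ y ∈ Submodule.span ℤ (φ '' (S : Set (NumberField.RingOfIntegers K))) :=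
    Submodule.apply_mem_span_image_of_mem_span φ h3
  rw [hy] at h4
  have h5 : Submodule.span ℤ (φ '' (S : Set (NumberField.RingOfIntegers K))) ≤
      Subalgebra.toSubmodule (Algebra.adjoin ℤ ((S.image φ : Finset ℂ) : Set ℂ)) := by
    rw [Submodule.span_le, Finset.coe_image]
    exact Algebra.subset_adjoin
  exact h5 h4

theorem fgg_integralPoints {K : Subfield ℂ} (hK : NumberField K)
    {B : Matrix (Fin (m + 1)) (Fin (m + 1)) ℂ} (hB : B.det ≠ 0) :
    FGG (integralPoints m K B) := by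
  obtain ⟨E, hE⟩ := exists_fg_integers K hK
  have h1 : FGE {A : Matrix (Fin (m + 1)) (Fin (m + 1)) ℂ | ∀ i j, A i j ∈ integers K} :=
    ⟨E, fun A hA i j => hE _ (hA i j)⟩
  have h2 : FGE ({B} : Set (Matrix (Fin (m + 1)) (Fin (m + 1)) ℂ)) :=
    FGE.of_finite (Set.finite_singleton _)
  have h3 : FGE ({B⁻¹} : Set (Matrix (Fin (m + 1)) (Fin (m + 1)) ℂ)) :=
    FGE.of_finite (Set.finite_singleton _)
  refine FGE.mono (FGE.mul (FGE.mul h2 h1) h3) ?_
  rintro _ ⟨g, hg, rfl⟩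
  refine ⟨B * (B⁻¹ * g.toMatrix * B), ⟨B, rfl, _, hg.1, rfl⟩, B⁻¹, rfl, ?_⟩
  have hu := isUnit_iff_ne_zero.2 hB
  calc g.toMatrix = 1 * g.toMatrix * 1 := by rw [Matrix.one_mul, Matrix.mul_one]
    _ = (B * B⁻¹) * g.toMatrix * (B * B⁻¹) := by rw [Matrix.mul_nonsing_inv _ hu]
    _ = _ := by simp only [Matrix.mul_assoc]

/-- A group commensurable with `SU(H, O_K)`. -/
theorem fgg_of_commensurable {Γ : Subgroup (SUGroup m)} {K : Subfield ℂ}
    {H : Matrix (Fin (m + 1)) (Fin (m + 1)) K} {B : Matrix (Fin (m + 1)) (Fin (m + 1)) ℂ}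
    (hf : IsForm m K H B) (hc : Subgroup.Commensurable Γ (integralPoints m K B)) : FGG Γ :=
  FGG.of_relIndex (fgg_integralPoints hf.cm.1 hf.det) hc.2

theorem fgg_of_isArithmetic {Γ : Subgroup (SUGroup m)} (h : IsArithmetic m Γ) : FGG Γ := by
  obtain ⟨K, H, B, hf, -, hc⟩ := h
  exact fgg_of_commensurable hf hc

theorem fgg_of_isArithmeticOver {Γ : Subgroup (SUGroup m)} {K : Subfield ℂ}
    (h : IsArithmeticOver m K Γ) : FGG Γ := by
  obtain ⟨H, B, hf, hc⟩ := h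
  exact fgg_of_commensurable hf hc

/-- The hybrid of two groups. -/
theorem fgg_hybrid {Γ : Fin 2 → Subgroup (SUGroup m)} (h : ∀ b, FGG (Γ b))
    (g : Fin 2 → SUGroup (m + 1)) : FGG (hybrid Γ g) := by
  have h1 : ∀ b, FGE {A | ∃ γ ∈ Γ b, A = (g b * extend m γ * (g b)⁻¹).toMatrix} := by
    intro b
    refine FGE.mono (FGE.mul (FGE.mul (FGE.of_finite (Set.finite_singleton (g b).toMatrix))
      (FGE.dsum (h b))) (FGE.of_finite (Set.finite_singleton ((g b)⁻¹).toMatrix))) ?_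
    rintro _ ⟨γ, hγ, rfl⟩
    exact ⟨_, ⟨_, rfl, _, ⟨_, ⟨γ, hγ, rfl⟩, rfl⟩, rfl⟩, _, rfl, rfl⟩
  refine FGE.mono (FGE.closure (FGE.union (h1 0) (h1 1))) ?_
  rintro _ ⟨x, hx, rfl⟩
  refine Subgroup.closure_induction_left
    (p := fun x _ => x.toMatrix ∈ Submonoid.closure _) ?_ ?_ ?_ hx
  · exact Submonoid.one_mem _
  · rintro x ⟨b, γ, hγ, rfl⟩ y _ hy
    rw [toMatrix_mul]
    refine Submonoid.mul_mem _ (Submonoid.subset_closure ?_) hy
    fin_cases b
    · exact Or.inl ⟨γ, hγ, rfl⟩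
    · exact Or.inr ⟨γ, hγ, rfl⟩
  · rintro x ⟨b, γ, hγ, rfl⟩ y _ hy
    rw [toMatrix_mul]
    refine Submonoid.mul_mem _ (Submonoid.subset_closure ?_) hy
    have e : (g b * extend m γ * (g b)⁻¹)⁻¹ = g b * extend m γ⁻¹ * (g b)⁻¹ := by
      rw [map_inv]; group
    rw [e]
    fin_cases b
    · exact Or.inl ⟨γ⁻¹, Subgroup.inv_mem _ hγ, rfl⟩
    · exact Or.inr ⟨γ⁻¹, Subgroup.inv_mem _ hγ, rfl⟩

end groups

section torsion

variable {n : ℕ}

/-- (C3) A torsion free discrete group has no elements with fixed points. -/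
theorem tf_of_torsion_free {Γ : Subgroup (SUGroup n)} (hd : DiscreteTopology Γ)
    (ht : ∀ γ ∈ Γ, ∀ k : ℕ, 0 < k → γ ^ k = 1 → γ = 1) : TF Γ := by
  intro γ hγ v hv c hc
  obtain ⟨g, c0, hc0, rfl⟩ := exists_act_eq hv
  have h1 : act γ (act g (base n)) = c • act g (base n) := by
    have h := hc
    rw [act_smul, smul_comm] at h
    exact smul_right_injective _ hc0 h
  obtain ⟨x, hx⟩ : ∃ x, x = g⁻¹ * γ * g := ⟨_, rfl⟩
  have h2 : act x (base n) = c • base n := by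
    rw [hx, act_mul, act_mul, h1, act_smul, ← act_mul, inv_mul_cancel, act_one]
  have h3 : ∀ k : ℕ, act (x ^ k) (base n) = c ^ k • base n := by
    intro k
    induction k with
    | zero => rw [pow_zero, pow_zero, act_one, one_smul]
    | succ k ih => rw [pow_succ', act_mul, ih, act_smul, h2, smul_smul, ← pow_succ]
  have h5 : ‖c‖ = 1 := by
    have h := q_act x (base n)
    rw [h2, q_smul, q_base] at h
    have h4 : ‖c‖ ^ 2 = 1 := by linarith
    exact (pow_eq_one_iff_of_nonneg (norm_nonneg c) two_ne_zero).1 h4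
  have h6 : ∀ k : ℕ, ch (x ^ k) ≤ 1 := by
    intro k
    have h : (x ^ k).toMatrix (Fin.last n) (Fin.last n) = act (x ^ k) (base n) (Fin.last n) := by
      rw [act, base, mulVec_single_one]
      rfl
    rw [ch, h, h3, Pi.smul_apply, base, Pi.single_eq_same, smul_eq_mul, mul_one, norm_pow, h5,
      one_pow]
  -- the powers lie in a finite set
  have h7 : IsCompact ((fun y : SUGroup n => g * y * g⁻¹) '' {y | ch y ≤ 1}) :=
    (isCompact_ball 1).image (by fun_prop)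
  have hcl : IsClosed (Γ : Set (SUGroup n)) := Subgroup.isClosed_of_discrete
  have h8 : ((Γ : Set (SUGroup n)) ∩
      ((fun y : SUGroup n => g * y * g⁻¹) '' {y | ch y ≤ 1})).Finite := by
    refine (h7.inter_left hcl).finite ?_
    exact ⟨DiscreteTopology.of_subset hd Set.inter_subset_left⟩
  have h9 : ∀ k : ℕ, γ ^ k ∈ (Γ : Set (SUGroup n)) ∩
      ((fun y : SUGroup n => g * y * g⁻¹) '' {y | ch y ≤ 1}) := by
    intro k
    refine ⟨Γ.pow_mem hγ k, x ^ k, h6 k, ?_⟩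
    have h : x ^ k = g⁻¹ * γ ^ k * g := by
      rw [hx]
      have e := conj_pow (i := k) (a := g⁻¹) (b := γ)
      rwa [inv_inv] at e
    show g * x ^ k * g⁻¹ = γ ^ k
    rw [h]
    group
  obtain ⟨a, -, b, -, hab, he⟩ := Set.infinite_univ.exists_ne_map_eq_of_mapsTo
    (f := fun k : ℕ => γ ^ k) (fun k _ => h9 k) h8
  have key : ∀ a b : ℕ, a < b → γ ^ a = γ ^ b → γ = 1 := by
    intro a b hab he
    refine ht γ hγ (b - a) (by omega) ?_
    rw [pow_sub _ hab.le, ← he, mul_inv_cancel]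
  rcases lt_or_gt_of_ne hab with h | h
  · exact key a b h he
  · exact key b a h he.symm

/-- (S) A discrete group with entries in a finitely generated ring has a normal subgroup of finite
index without fixed points. -/
theorem exists_tf {Γ : Subgroup (SUGroup n)} (hd : DiscreteTopology Γ) (h : FGG Γ) :
    ∃ Γ' : Subgroup (SUGroup n), Γ' ≤ Γ ∧ Γ'.relIndex Γ ≠ 0 ∧ (Γ'.subgroupOf Γ).Normal ∧
      TF Γ' := by
  obtain ⟨E, hE⟩ := h
  let f : Γ →* Matrix (Fin (n + 1)) (Fin (n + 1)) ℂ :=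
    { toFun := fun γ => (γ : SUGroup n).toMatrix
      map_one' := rfl
      map_mul' := fun _ _ => rfl }
  obtain ⟨N, hN1, hN2, hN3⟩ := selberg_ring f
    (fun a b hab => Subtype.ext (toMatrix_injective hab)) E
    (fun γ i j => hE _ ⟨γ, γ.2, rfl⟩ i j)
  have hsub : (N.map Γ.subtype).subgroupOf Γ = N :=
    Subgroup.comap_map_eq_self_of_injective Γ.subtype_injective N
  refine ⟨N.map Γ.subtype, Subgroup.map_subtype_le N, ?_, ?_, tf_of_torsion_free ?_ ?_⟩
  · rw [Subgroup.relIndex, hsub]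
    exact hN2.index_ne_zero
  · rw [hsub]
    exact hN1
  · exact DiscreteTopology.of_subset hd (Subgroup.map_subtype_le N)
  · rintro _ ⟨γ, hγ, rfl⟩ k hk he
    have h1 : γ ^ k = 1 := Subtype.ext he
    rw [hN3 γ hγ k hk h1]
    rfl

end torsion

end Pool.Agent.Lib.MP_5d4057_al.NU
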