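import Pool.Agent.Lib.MP_5d4057_al.NU.Thm
import Pool.Agent.Lib.MP_5d4057_al.NU.CuspL
import Pool.Agent.Lib.MP_5d4057_al.NU.CuspN
import Pool.Agent.Lib.MP_5d4057_al.NU.LatB
import Pool.Agent.Lib.MP_5d4057_al.NU.LatC
import Pool.Agent.Lib.MP_5d4057_al.NU.SelB

/-! Pluriharmonic metrics for lattices with entries in a finitely generated ring. -/

namespace Pool.Agent.Lib.MP_5d4057_al.NU

open Matrix MeasureTheory Filter Topology Pool.Agent.Lib.MP_5d4057_al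
  Pool.Agent.Lib.MP_5d4057_al.Hyb Pool.Agent.Lib.MP_5d4057_al.HM

open scoped ComplexOrder MatrixOrder Matrix.Norms.L2Operator ENNReal

variable {n m : ℕ}

/-- As `exists_tf`, with the conclusion that the subgroup is torsion free. -/
theorem exists_tor {Γ : Subgroup (SUGroup n)} (h : FGG Γ) :
    ∃ Γ' : Subgroup (SUGroup n), Γ' ≤ Γ ∧ Γ'.relIndex Γ ≠ 0 ∧ (Γ'.subgroupOf Γ).Normal ∧
      Tor Γ' := by
  obtain ⟨E, hE⟩ := h
  let f : Γ →* Matrix (Fin (n + 1)) (Fin (n + 1)) ℂ :=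
    { toFun := fun γ => (γ : SUGroup n).toMatrix
      map_one' := rfl
      map_mul' := fun _ _ => rfl }
  obtain ⟨N, hN1, hN2, hN3⟩ := selberg_ring f
    (fun a b hab => Subtype.ext (toMatrix_injective hab)) E
    (fun γ i j => hE _ ⟨γ, γ.2, rfl⟩ i j)
  have hsub : (N.map Γ.subtype).subgroupOf Γ = N :=
    Subgroup.comap_map_eq_self_of_injective Γ.subtype_injective N
  refine ⟨N.map Γ.subtype, Subgroup.map_subtype_le N, ?_, ?_, ?_⟩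
  · rw [Subgroup.relIndex, hsub]
    exact hN2.index_ne_zero
  · rw [hsub]
    exact hN1
  · rintro _ ⟨γ, hγ, rfl⟩ k hk he
    have h1 : γ ^ k = 1 := Subtype.ext he
    rw [hN3 γ hγ k hk h1]
    rfl

/-- A height function for `Γ` from one of a normal subgroup of finite index. -/
theorem ht_of_normal {Γ Γ' : Subgroup (SUGroup n)} (hle : Γ' ≤ Γ)
    (hN : (Γ'.subgroupOf Γ).Normal) {T : ℝ} (h : Ht Γ' T (hty Γ')) : Ht Γ T (hty Γ') where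
  hom := h.hom
  inv := fun γ hγ v _ => by
    refine hty_act_of_normal (fun δ => ⟨fun hδ => ?_, fun hδ => ?_⟩) v
    · have h1 := hN.conj_mem ⟨δ, hle hδ⟩ (by rwa [Subgroup.mem_subgroupOf]) ⟨γ, hγ⟩
      rwa [Subgroup.mem_subgroupOf] at h1
    · have h1 := hN.conj_mem ⟨γ * δ * γ⁻¹, hle hδ⟩ (by rwa [Subgroup.mem_subgroupOf]) ⟨γ⁻¹, Γ.inv_mem hγ⟩
      rw [Subgroup.mem_subgroupOf] at h1
      have e : γ⁻¹ * (γ * δ * γ⁻¹) * (γ⁻¹)⁻¹ = δ := by group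
      rw [← e]
      exact h1
  one_le := h.one_le
  harn := h.harn
  nul := h.nul
  cpt := fun R => by
    obtain ⟨F, hF, h1⟩ := h.cpt R
    refine ⟨F, hF, fun g hg => ?_⟩
    obtain ⟨γ, hγ, h2⟩ := h1 g hg
    exact ⟨γ, hle hγ, h2⟩

/-- Polynomial growth passes to a larger group in which the index is finite. -/
theorem grow_of_relIndex {Γ Γ' : Subgroup (SUGroup n)} (hle : Γ' ≤ Γ)
    (hfi : Γ'.relIndex Γ ≠ 0) (t : ℂ ≃+* ℂ) {N : ℕ} {C : ℝ} (hC : 0 < C)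
    (h : Grow (rhoT t Γ') N C) : ∃ (C' : ℝ), 0 < C' ∧ Grow (rhoT t Γ) N C' := by
  have hfin : (Γ'.subgroupOf Γ).FiniteIndex := ⟨hfi⟩
  have : Fintype (Γ ⧸ Γ'.subgroupOf Γ) := Subgroup.fintypeQuotientOfFiniteIndex
  obtain ⟨S, hS⟩ : ∃ S : Finset Γ, ∀ γ : Γ, ∃ c ∈ S, (c⁻¹ * γ) ∈ Γ'.subgroupOf Γ := by
    classical
    refine ⟨Finset.univ.image (fun q : Γ ⧸ Γ'.subgroupOf Γ => q.out), fun γ => ?_⟩
    refine ⟨(γ : Γ ⧸ Γ'.subgroupOf Γ).out, Finset.mem_image.2 ⟨_, Finset.mem_univ _, rfl⟩, ?_⟩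
    exact QuotientGroup.eq.1 (QuotientGroup.out_eq' _)
  obtain ⟨K, hK⟩ : ∃ K : ℝ, ∀ c ∈ S, ‖rhoT t Γ c‖ * (2 * ch ((c : SUGroup n)⁻¹)) ^ N ≤ K := by
    refine ⟨∑ c ∈ S, ‖rhoT t Γ c‖ * (2 * ch ((c : SUGroup n)⁻¹)) ^ N, fun c hc => ?_⟩
    exact Finset.single_le_sum (f := fun c : Γ => ‖rhoT t Γ c‖ * (2 * ch ((c : SUGroup n)⁻¹)) ^ N)
      (fun c _ => mul_nonneg (norm_nonneg _) (pow_nonneg (by linarith [ch_pos ((c : SUGroup n)⁻¹)]) _)) hc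
  refine ⟨C * (|K| + 1), by positivity, fun γ => ?_⟩
  obtain ⟨c, hc, hcγ⟩ := hS γ
  rw [Subgroup.mem_subgroupOf] at hcγ
  have h1 := h ⟨_, hcγ⟩
  have e1 : rhoT t Γ γ = rhoT t Γ c * rhoT t Γ' ⟨_, hcγ⟩ := by
    have e2 : γ = c * (c⁻¹ * γ) := by group
    conv_lhs => rw [e2, map_mul]
    rfl
  have h2 : ch (((c⁻¹ * γ : Γ) : SUGroup n)) ≤ 2 * ch ((c : SUGroup n)⁻¹) * ch (γ : SUGroup n) :=
    ch_mul_le' _ _
  have h3 : ch (((c⁻¹ * γ : Γ) : SUGroup n)) ^ N ≤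
      (2 * ch ((c : SUGroup n)⁻¹)) ^ N * ch (γ : SUGroup n) ^ N := by
    rw [← mul_pow]
    exact pow_le_pow_left₀ (ch_pos _).le h2 _
  have h4 : 0 ≤ ch (γ : SUGroup n) ^ N := pow_nonneg (ch_pos _).le _
  calc ‖rhoT t Γ γ‖ ≤ ‖rhoT t Γ c‖ * ‖rhoT t Γ' ⟨_, hcγ⟩‖ := by
        rw [e1]
        exact norm_mul_le _ _
    _ ≤ ‖rhoT t Γ c‖ * (C * ((2 * ch ((c : SUGroup n)⁻¹)) ^ N * ch (γ : SUGroup n) ^ N)) := by
        refine mul_le_mul_of_nonneg_left (h1.trans ?_) (norm_nonneg _)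
        exact mul_le_mul_of_nonneg_left h3 hC.le
    _ = C * (‖rhoT t Γ c‖ * (2 * ch ((c : SUGroup n)⁻¹)) ^ N) * ch (γ : SUGroup n) ^ N := by ring
    _ ≤ C * (|K| + 1) * ch (γ : SUGroup n) ^ N := by
        refine mul_le_mul_of_nonneg_right (mul_le_mul_of_nonneg_left ?_ hC.le) h4
        exact (hK c hc).trans ((le_abs_self K).trans (by linarith))

/-- A lattice with entries in a finitely generated ring: partition of unity, height, growth. -/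
theorem exists_data (hn : 2 ≤ n) {Γ : Subgroup (SUGroup n)} (hL : IsLattice Γ) (hf : FGG Γ)
    (t : ℂ ≃+* ℂ) : ∃ (χ : SUGroup n → ℝ) (y : Vec n → ℝ) (N : ℕ) (C : ℝ), Lat Γ χ ∧ Ht Γ 64 y ∧
      Grow (rhoT t Γ) N C := by
  obtain ⟨χ, hχ⟩ := exists_lat hL
  obtain ⟨Γ', hle, hfi, hN, hTor⟩ := exists_tor hf
  obtain ⟨χ', hχ'⟩ := hχ.finite_index hle hfi
  have hTF := tf_of_tor hχ'.disc hTor
  obtain ⟨N, C, hC, hG⟩ := grow_rhoT hn hχ' hTF hTor t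
  obtain ⟨C', hC', hG'⟩ := grow_of_relIndex hle hfi t hC hG
  exact ⟨χ, hty Γ', N, C', hχ, ht_of_normal hle hN (ht_hty hn hχ' hTF hTor), hG'⟩

/-- THEOREM H for lattices with entries in a finitely generated ring. -/
theorem exists_harm_lat (hn : 2 ≤ n) {Γ : Subgroup (SUGroup n)} (hL : IsLattice Γ) (hf : FGG Γ)
    (t : ℂ ≃+* ℂ) : ∃ F : Vec n → Mat (n + 1), Harm F ∧ Equi (rhoT t Γ) F ∧
      ∃ (N : ℕ) (C : ℝ), LipMet n (n + 1) N C F := by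
  obtain ⟨χ, y, N, C, h1, h2, h3⟩ := exists_data hn hL hf t
  exact exists_harm_N (by omega) (Nat.succ_pos _) h1 h2 _ h3
    (span_rhoT t _ (span_top (by omega) Γ hL))

end Pool.Agent.Lib.MP_5d4057_al.NU
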