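import Pool.Agent.Lib.MP_5d4057_al.NU.CuspA

/-! The geodesic flow and the projections `Pp ξ`, `P0 ξ`, `Pp (-ξ)`. -/

namespace Pool.Agent.Lib.MP_5d4057_al.NU

open Matrix MeasureTheory Filter Topology Pool.Agent.Lib.MP_5d4057_al
  Pool.Agent.Lib.MP_5d4057_al.Hyb Pool.Agent.Lib.MP_5d4057_al.HM
  Pool.Agent.Lib.MP_5d4057_al.HM.Kak

open scoped ComplexOrder MatrixOrder Matrix.Norms.L2Operator ENNReal

variable {n m : ℕ}

/-- Matrices of the plane of `(ξ, 0)` and `e_n`. -/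
private def nn (ξ : Fin n → ℂ) (a b c d : ℂ) : Mat (n + 1) :=
  a • vecMulVec (vec ξ) (star (vec ξ)) + b • vecMulVec (vec ξ) (base n) +
    c • vecMulVec (base n) (star (vec ξ)) + d • vecMulVec (base n) (base n)

private theorem MM_eq (ξ : Fin n → ℂ) (a b c d : ℂ) : MM ξ a b c d = 1 + nn ξ a b c d := by
  rw [MM, nn]
  module

private theorem nn_mul {ξ : Fin n → ℂ} (hξ : nq ξ = 1) (a b c d a' b' c' d' : ℂ) :
    nn ξ a b c d * nn ξ a' b' c' d' =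
      nn ξ (a * a' + b * c') (a * b' + b * d') (c * a' + d * c') (c * b' + d * d') := by
  simp only [nn, add_mul, mul_add, smul_mul_smul_comm, vecMulVec_mul_vecMulVec,
    star_vec_dot, star_vec_dot_base, base_dot_vec, base_dot_base,
    zero_smul, smul_zero, one_smul, vecMulVec_zero, hξ, Complex.ofReal_one]
  module

private theorem nn_zero (ξ : Fin n → ℂ) : nn ξ 0 0 0 0 = 0 := by
  simp [nn]

private theorem nn_add (ξ : Fin n → ℂ) (a b c d a' b' c' d' : ℂ) :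
    nn ξ a b c d + nn ξ a' b' c' d' = nn ξ (a + a') (b + b') (c + c') (d + d') := by
  simp only [nn]
  module

private theorem nn_smul (ξ : Fin n → ℂ) (r a b c d : ℂ) :
    r • nn ξ a b c d = nn ξ (r * a) (r * b) (r * c) (r * d) := by
  simp only [nn]
  module

private theorem vec_neg (ξ : Fin n → ℂ) : vec (-ξ) = -vec ξ := by
  funext i
  refine Fin.lastCases ?_ (fun i => ?_) i
  · rw [Pi.neg_apply, vec_last, vec_last, neg_zero]
  · rw [Pi.neg_apply, vec_castSucc, vec_castSucc, Pi.neg_apply]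

private theorem Pp_eq (ξ : Fin n → ℂ) : Pp ξ = nn ξ (1 / 2) (1 / 2) (1 / 2) (1 / 2) := by
  rw [Pp, pe, nn, star_add, star_base, vecMulVec_add, add_vecMulVec, add_vecMulVec]
  module

private theorem Pp_neg_eq (ξ : Fin n → ℂ) :
    Pp (-ξ) = nn ξ (1 / 2) (-1 / 2) (-1 / 2) (1 / 2) := by
  rw [Pp, pe, nn, vec_neg, star_add, star_base, vecMulVec_add, add_vecMulVec, add_vecMulVec,
    star_neg, vecMulVec_neg, neg_vecMulVec, neg_vecMulVec, vecMulVec_neg]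
  module

private theorem P0_eq (ξ : Fin n → ℂ) : P0 ξ = 1 - nn ξ 1 0 0 1 := by
  rw [P0, Pp_eq, Pp_neg_eq, sub_sub, nn_add]
  norm_num

private theorem J_eq_nn (ξ : Fin n → ℂ) : J n = 1 + nn ξ 0 0 0 (-2) := by
  rw [J_eq_MM ξ, MM_eq]

theorem fl_eq {ξ : Fin n → ℂ} (hξ : nq ξ = 1) (t : ℝ) : fl ξ t = flow ξ hξ t := by
  rw [fl, dif_pos hξ]

theorem fl_zero (ξ : Fin n → ℂ) : fl ξ 0 = 1 := by
  by_cases h : nq ξ = 1
  · rw [fl_eq h, flow_zero]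
  · rw [fl, dif_neg h]

theorem fl_add (ξ : Fin n → ℂ) (s t : ℝ) : fl ξ (s + t) = fl ξ s * fl ξ t := by
  by_cases h : nq ξ = 1
  · rw [fl_eq h, fl_eq h, fl_eq h, flow_add]
  · rw [fl, fl, fl, dif_neg h, dif_neg h, dif_neg h, one_mul]

theorem fl_neg (ξ : Fin n → ℂ) (t : ℝ) : fl ξ (-t) = (fl ξ t)⁻¹ := by
  rw [eq_inv_iff_mul_eq_one, ← fl_add, neg_add_cancel, fl_zero]

theorem ch_fl {ξ : Fin n → ℂ} (hξ : nq ξ = 1) (t : ℝ) : ch (fl ξ t) = Real.cosh t := by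
  rw [fl_eq hξ, ch_flow]

theorem wt_fl {ξ : Fin n → ℂ} (hξ : nq ξ = 1) (t : ℝ) : wt (fl ξ t) = Real.exp |t| := by
  rcases le_total 0 t with h | h
  · rw [fl_eq hξ, wt_flow hξ h, abs_of_nonneg h]
  · rw [abs_of_nonpos h, ← wt_inv, ← fl_neg, fl_eq hξ, wt_flow hξ (by linarith)]

theorem wt_fl_le (ξ : Fin n → ℂ) (t : ℝ) : wt (fl ξ t) ≤ Real.exp |t| := by
  by_cases h : nq ξ = 1
  · rw [wt_fl h]
  · rw [fl, dif_neg h, wt_one]
    exact Real.one_le_exp (abs_nonneg t)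

theorem continuous_fl (ξ : Fin n → ℂ) : Continuous fun t : ℝ => fl ξ t := by
  by_cases h : nq ξ = 1
  · have : (fun t : ℝ => fl ξ t) = flow ξ h := funext fun t => fl_eq h t
    rw [this]
    exact continuous_flow h
  · have : (fun t : ℝ => fl ξ t) = fun _ => 1 := funext fun t => by rw [fl, dif_neg h]
    rw [this]
    exact continuous_const

theorem Pp_mul_self {ξ : Fin n → ℂ} (hξ : nq ξ = 1) : Pp ξ * Pp ξ = Pp ξ := by
  rw [Pp_eq, nn_mul hξ]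
  norm_num

theorem Pp_mul_neg (ξ : Fin n → ℂ) (hξ : nq ξ = 1) : Pp ξ * Pp (-ξ) = 0 := by
  rw [Pp_eq, Pp_neg_eq, nn_mul hξ, ← nn_zero ξ]
  norm_num

theorem Pp_neg_mul (ξ : Fin n → ℂ) (hξ : nq ξ = 1) : Pp (-ξ) * Pp ξ = 0 := by
  rw [Pp_neg_eq, Pp_eq, nn_mul hξ, ← nn_zero ξ]
  norm_num

theorem Pp_mul_P0 (ξ : Fin n → ℂ) (hξ : nq ξ = 1) : Pp ξ * P0 ξ = 0 := by
  rw [Pp_eq, P0_eq, Matrix.mul_sub, Matrix.mul_one, nn_mul hξ]
  norm_num

theorem P0_mul_Pp (ξ : Fin n → ℂ) (hξ : nq ξ = 1) : P0 ξ * Pp ξ = 0 := by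
  rw [Pp_eq, P0_eq, Matrix.sub_mul, Matrix.one_mul, nn_mul hξ]
  norm_num

theorem P0_neg (ξ : Fin n → ℂ) : P0 (-ξ) = P0 ξ := by
  rw [P0, P0, neg_neg, sub_right_comm]

theorem P0_mul_self {ξ : Fin n → ℂ} (hξ : nq ξ = 1) : P0 ξ * P0 ξ = P0 ξ := by
  rw [P0_eq, Matrix.mul_sub, Matrix.sub_mul, Matrix.mul_one, Matrix.sub_mul, Matrix.one_mul,
    nn_mul hξ]
  norm_num

theorem P_sum (ξ : Fin n → ℂ) : Pp ξ + P0 ξ + Pp (-ξ) = (1 : Mat (n + 1)) := by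
  rw [P0]
  abel

theorem Pp_herm (ξ : Fin n → ℂ) : (Pp ξ)ᴴ = Pp ξ := by
  rw [Pp, conjTranspose_smul, conjTranspose_vecMulVec, star_star]
  congr 1
  norm_num

theorem P0_herm (ξ : Fin n → ℂ) : (P0 ξ)ᴴ = P0 ξ := by
  rw [P0, conjTranspose_sub, conjTranspose_sub, Pp_herm, Pp_herm, conjTranspose_one]

/-- `J` exchanges the two isotropic lines and is `1` on the complement. -/
theorem J_eq_P {ξ : Fin n → ℂ} (hξ : nq ξ = 1) : J n * Pp ξ = Pp (-ξ) * J n ∧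
    J n * P0 ξ = P0 ξ ∧ P0 ξ * J n = P0 ξ := by
  refine ⟨?_, ?_, ?_⟩
  · rw [J_eq_nn ξ, Pp_eq, Pp_neg_eq, Matrix.add_mul, Matrix.mul_add, Matrix.one_mul,
      Matrix.mul_one, nn_mul hξ, nn_mul hξ, nn_add, nn_add]
    norm_num
  · rw [J_eq_nn ξ, P0_eq, Matrix.add_mul, Matrix.mul_sub, Matrix.mul_sub, Matrix.one_mul,
      Matrix.mul_one, nn_mul hξ]
    norm_num
  · rw [J_eq_nn ξ, P0_eq, Matrix.mul_add, Matrix.sub_mul, Matrix.sub_mul, Matrix.one_mul,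
      Matrix.mul_one, nn_mul hξ]
    norm_num

theorem toMatrix_fl {ξ : Fin n → ℂ} (hξ : nq ξ = 1) (t : ℝ) : (fl ξ t).toMatrix =
    (Real.exp t : ℂ) • Pp ξ + P0 ξ + (Real.exp (-t) : ℂ) • Pp (-ξ) := by
  rw [fl_eq hξ, toMatrix_flow, MM_eq, Pp_eq, Pp_neg_eq, P0_eq, nn_smul, nn_smul, Real.cosh_eq,
    Real.sinh_eq]
  have h : ∀ A B C : Mat (n + 1), A + (1 - B) + C = 1 + (A + C - B) := fun A B C => by abel
  rw [h]
  congr 1
  rw [eq_sub_iff_add_eq, nn_add, nn_add]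
  push_cast
  congr 1 <;> ring

/-- `Pp ξ` acts by the Hermitian product. -/
private theorem Pp_mulVec (ξ : Fin n → ℂ) (v : Vec n) :
    Pp ξ *ᵥ v = ((1 / 2 : ℂ) * (star (pe ξ) ⬝ᵥ v)) • pe ξ := by
  rw [Pp, smul_mulVec, vecMulVec_mulVec, ← smul_smul]
  congr 1
  funext i
  rw [Pi.smul_apply, Pi.smul_apply, MulOpposite.smul_eq_mul_unop, MulOpposite.unop_op,
    smul_eq_mul, mul_comm]

private theorem star_pe_dot (ξ : Fin n → ℂ) (v : Vec n) :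
    star (pe ξ) ⬝ᵥ v = -herm (pe (-ξ)) v := by
  rw [herm_eq, dotProduct, Fin.sum_univ_castSucc, Pi.star_apply, pe_last, pe_last, neg_sub,
    star_one, sub_eq_add_neg, add_comm, ← Finset.sum_neg_distrib]
  congr 1
  refine Finset.sum_congr rfl fun i _ => ?_
  rw [Pi.star_apply, pe_castSucc, pe_castSucc, Pi.neg_apply, star_neg]
  ring

private theorem herm_pe_self {ξ : Fin n → ℂ} (hξ : nq ξ = 1) : herm (pe ξ) (pe ξ) = 0 := by
  rw [herm_self, q_pe, hξ, sub_self, Complex.ofReal_zero]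

private theorem herm_pe_neg {ξ : Fin n → ℂ} (hξ : nq ξ = 1) : herm (pe (-ξ)) (pe ξ) = -2 := by
  have h1 := star_pe_dot ξ (pe ξ)
  have h2 : star (pe ξ) ⬝ᵥ pe ξ = 2 := by
    rw [pe, star_add, star_base, add_dotProduct, dotProduct_add, dotProduct_add, star_vec_dot,
      star_vec_dot_base, base_dot_vec, base_dot_base, hξ]
    norm_num
  rw [h2] at h1
  rw [h1, neg_neg]

private theorem Pp_pe {ξ : Fin n → ℂ} (hξ : nq ξ = 1) : Pp ξ *ᵥ pe ξ = pe ξ := by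
  rw [Pp_mulVec, star_pe_dot, herm_pe_neg hξ]
  norm_num

private theorem Pp_pe_neg {ξ : Fin n → ℂ} (hξ : nq ξ = 1) : Pp ξ *ᵥ pe (-ξ) = 0 := by
  rw [Pp_mulVec, star_pe_dot, herm_pe_self (by rw [nq_neg, hξ])]
  norm_num

private theorem P0_pe {ξ : Fin n → ℂ} (hξ : nq ξ = 1) : P0 ξ *ᵥ pe ξ = 0 := by
  rw [P0, sub_mulVec, sub_mulVec, one_mulVec, Pp_pe hξ]
  have h := Pp_pe_neg (ξ := -ξ) (by rw [nq_neg, hξ])
  rw [neg_neg] at h
  rw [h, sub_self, sub_zero]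

theorem fl_pe {ξ : Fin n → ℂ} (hξ : nq ξ = 1) (t : ℝ) :
    act (fl ξ t) (pe ξ) = (Real.exp t : ℂ) • pe ξ := by
  have h := Pp_pe_neg (ξ := -ξ) (by rw [nq_neg, hξ])
  rw [neg_neg] at h
  rw [act, toMatrix_fl hξ, add_mulVec, add_mulVec, smul_mulVec, smul_mulVec, Pp_pe hξ, P0_pe hξ,
    h, smul_zero, add_zero, add_zero]

theorem fl_pe_neg {ξ : Fin n → ℂ} (hξ : nq ξ = 1) (t : ℝ) :
    act (fl ξ t) (pe (-ξ)) = (Real.exp (-t) : ℂ) • pe (-ξ) := by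
  have hξ' : nq (-ξ) = 1 := by rw [nq_neg, hξ]
  have h := P0_pe hξ'
  rw [P0_neg] at h
  rw [act, toMatrix_fl hξ, add_mulVec, add_mulVec, smul_mulVec, smul_mulVec, Pp_pe_neg hξ,
    h, Pp_pe hξ', smul_zero, zero_add, zero_add]

theorem fl_orth {ξ : Fin n → ℂ} (hξ : nq ξ = 1) (t : ℝ) {v : Vec n} (h1 : herm (pe ξ) v = 0)
    (h2 : herm (pe (-ξ)) v = 0) : act (fl ξ t) v = v := by
  have e1 : Pp ξ *ᵥ v = 0 := by
    rw [Pp_mulVec, star_pe_dot, h2, neg_zero, mul_zero, zero_smul]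
  have e2 : Pp (-ξ) *ᵥ v = 0 := by
    rw [Pp_mulVec, star_pe_dot, neg_neg, h1, neg_zero, mul_zero, zero_smul]
  rw [act, toMatrix_fl hξ, add_mulVec, add_mulVec, smul_mulVec, smul_mulVec, e1, e2, P0,
    sub_mulVec, sub_mulVec, e1, e2, one_mulVec, smul_zero, smul_zero]
  simp

theorem mv_fl {ξ : Fin n → ℂ} (hξ : nq ξ = 1) (t : ℝ) : mv (fl ξ t) ξ = ξ :=
  (eq_of_act_pe hξ (fl_pe hξ t)).2

theorem ml_fl {ξ : Fin n → ℂ} (hξ : nq ξ = 1) (t : ℝ) : ml (fl ξ t) ξ = (Real.exp t : ℂ) :=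
  (eq_of_act_pe hξ (fl_pe hξ t)).1

theorem fl_mem_St {ξ : Fin n → ℂ} (hξ : nq ξ = 1) (t : ℝ) : fl ξ t ∈ St ξ :=
  ⟨_, fl_pe hξ t⟩

/-- Polar decomposition. -/
theorem exists_fl (hn : 1 ≤ n) (x : SUGroup n) : ∃ (ξ : Fin n → ℂ) (t : ℝ) (k : SUGroup n),
    nq ξ = 1 ∧ 0 ≤ t ∧ ch k = 1 ∧ x = fl ξ t * k ∧ wt x = Real.exp t := by
  obtain ⟨ξ, hξ, t, k, ht, hk, hx⟩ := exists_polar hn x
  have h1 : ch x = ch (fl ξ t) := by
    rw [hx, fl_eq hξ, (ch_mul_of_ch_eq_one hk _).2]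
  refine ⟨ξ, t, k, hξ, ht, hk, by rw [hx, fl_eq hξ], ?_⟩
  rw [wt_eq_of_ch h1, wt_fl hξ, abs_of_nonneg ht]

/-- Along the ray from `g` to `ξ` the direction of `ξ` is constant. -/
theorem mv_ray {ξ : Fin n → ℂ} (hξ : nq ξ = 1) (g : SUGroup n) (t : ℝ) :
    mv (g * fl (mv g⁻¹ ξ) t)⁻¹ ξ = mv g⁻¹ ξ := by
  rw [_root_.mul_inv_rev, mv_mul hξ, ← fl_neg, mv_fl (nq_mv hξ _)]

/-- The height grows exponentially along the ray. -/
theorem yp_ray {ξ : Fin n → ℂ} (hξ : nq ξ = 1) (g : SUGroup n) (t : ℝ) :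
    yp (pe ξ) (act (g * fl (mv g⁻¹ ξ) t) (base n)) =
      Real.exp (2 * t) * yp (pe ξ) (act g (base n)) := by
  rw [yp_pe, yp_pe, _root_.mul_inv_rev, ml_mul hξ, ← fl_neg, ml_fl (nq_mv hξ _), norm_mul,
    Complex.norm_real, Real.norm_eq_abs, abs_of_pos (Real.exp_pos _), mul_pow, mul_inv,
    ← Real.exp_nat_mul, ← Real.exp_neg]
  congr 2
  push_cast
  ring

/-- An element mapping the line of `ξ` to the line of `η` is block triangular. -/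
theorem block_zero {ξ η : Fin n → ℂ} (hξ : nq ξ = 1) (hη : nq η = 1) {x : SUGroup n}
    (hx : mv x ξ = η) : P0 η * x.toMatrix * Pp ξ = 0 ∧ Pp (-η) * x.toMatrix * Pp ξ = 0 ∧
      Pp (-η) * x.toMatrix * P0 ξ = 0 := by
  have key : ∀ {ξ η : Fin n → ℂ}, nq ξ = 1 → nq η = 1 → ∀ {x : SUGroup n}, mv x ξ = η →
      P0 η * x.toMatrix * Pp ξ = 0 ∧ Pp (-η) * x.toMatrix * Pp ξ = 0 := by
    intro ξ η hξ hη x hx
    have h1 : x.toMatrix * Pp ξ = (1 / 2 * ml x ξ : ℂ) • vecMulVec (pe η) (star (pe ξ)) := by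
      have h2 : x.toMatrix *ᵥ pe ξ = ml x ξ • pe η := by
        rw [← hx]
        exact act_pe hξ x
      rw [Pp, Matrix.mul_smul, mul_vecMulVec, h2, smul_vecMulVec, smul_smul]
    have h3 := Pp_pe_neg (ξ := -η) (by rw [nq_neg, hη])
    rw [neg_neg] at h3
    constructor
    · rw [Matrix.mul_assoc, h1, Matrix.mul_smul, mul_vecMulVec, P0_pe hη, zero_vecMulVec,
        smul_zero]
    · rw [Matrix.mul_assoc, h1, Matrix.mul_smul, mul_vecMulVec, h3, zero_vecMulVec,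
        smul_zero]
  refine ⟨(key hξ hη hx).1, (key hξ hη hx).2, ?_⟩
  have h1 : mv x⁻¹ η = ξ := by rw [← hx, mv_inv_mv hξ]
  have h2 := congrArg conjTranspose (key hη hξ h1).1
  rw [conjTranspose_mul, conjTranspose_mul, Pp_herm, P0_herm, conjTranspose_zero] at h2
  have h3 : ((x⁻¹).toMatrix)ᴴ = J n * x.toMatrix * J n := by
    have h4 : ((x⁻¹).toMatrix)ᴴ * J n * (x⁻¹).toMatrix = J n := pres x⁻¹
    calc ((x⁻¹).toMatrix)ᴴ = ((x⁻¹).toMatrix)ᴴ * (J n * ((x⁻¹).toMatrix * x.toMatrix) * J n) := by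
          rw [toMatrix_inv_mul, Matrix.mul_one, J_mul_J, Matrix.mul_one]
      _ = (((x⁻¹).toMatrix)ᴴ * J n * (x⁻¹).toMatrix) * x.toMatrix * J n := by
          simp only [Matrix.mul_assoc]
      _ = _ := by rw [h4]
  have hJ := J_eq_P hη
  have hJ' := J_eq_P hξ
  calc Pp (-η) * x.toMatrix * P0 ξ = Pp (-η) * (J n * J n) * x.toMatrix * (J n * P0 ξ) := by
        rw [J_mul_J, Matrix.mul_one, hJ'.2.1]
    _ = (Pp (-η) * J n) * (J n * x.toMatrix * J n) * P0 ξ := by simp only [Matrix.mul_assoc]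
    _ = J n * (Pp η * (((x⁻¹).toMatrix)ᴴ * P0 ξ)) := by
        rw [← hJ.1, h3]
        simp only [Matrix.mul_assoc]
    _ = 0 := by rw [h2, Matrix.mul_zero]

end Pool.Agent.Lib.MP_5d4057_al.NU
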