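import Pool.Agent.Lib.MP_5d4057_al.HM.Boot

/-! The bootstrap with two exponents (A13 of the blueprint of NU): the function `u` grows
qualitatively with exponent `N`, its average at the fixed level `t` with exponent `N'`. -/

set_option autoImplicit false

namespace Pool.Agent.Lib.MP_5d4057_al.NU

open Matrix MeasureTheory Filter Topology Finset Pool.Agent.Lib.MP_5d4057_al
  Pool.Agent.Lib.MP_5d4057_al.Hyb Pool.Agent.Lib.MP_5d4057_al.HM Pool.Agent.Lib.MP_5d4057_al.HM.Boot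

variable {n : ℕ}

/-- `boot_five` with two exponents. -/
theorem boot_fiveN {s₀ : ℕ} (h : CsOK n s₀) {N N' : ℕ} {C : ℝ} {u : SUGroup n → ℝ}
    (hu : Gr N C u) (hC : 0 ≤ C) {A : ℕ} (hA : 2 * s₀ + 4 * N + 2 ≤ A)
    (hcomm : ∀ a b, A ≤ a → A ≤ b → ∀ g, Q a (Q b u) g = Q b (Q a u) g)
    (hlap : ∀ a b, A ≤ a → A ≤ b → ∀ g, lam n a * (Q a (Q b u) g - Q (a + 1) (Q b u) g) =
      lam n b * (Q a (Q b u) g - Q a (Q (b + 1) u) g))
    {s t : ℕ} (hs : A ≤ s) (hs' : 2 * s₀ + 4 * N' + 2 ≤ s) (ht : A ≤ t)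
    (hsub : ∀ g, u g ≤ Q s u g) {B : ℝ} (hB : 0 ≤ B)
    (hPt : ∀ g, Q t u g ≤ B * ch g ^ (2 * N')) (g : SUGroup n) :
    u g ≤ cfive n N' * B * ch g ^ (2 * N') := by
  have hgt := h.gt
  obtain ⟨D, hD⟩ : ∃ D : ℝ, D = 4 ^ N * Real.exp (2 * n) := ⟨_, rfl⟩
  obtain ⟨D', hD'⟩ : ∃ D' : ℝ, D' = 4 ^ N' * Real.exp (2 * n) := ⟨_, rfl⟩
  have hD0 : 0 ≤ D := by
    rw [hD]
    positivity
  have hD0' : 0 ≤ D' := by
    rw [hD']
    positivity
  have hQ : ∀ b, A ≤ b → Gr N (D * C) (Q b u) := fun b hb => by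
    rw [hD]
    exact hu.Q_gr h hC (by omega)
  have hDC : 0 ≤ D * C := mul_nonneg hD0 hC
  have hs0 : (0 : ℝ) < s := by
    have : 0 < s := by omega
    exact_mod_cast this
  obtain ⟨hsum, hsum4⟩ := lam_sum h (s := s) (by omega)
  -- the bound for `P_(2s) U`
  have hW : ∀ g, Q (2 * s) u g ≤ 16 * Real.exp (2 * n) * D' * B * ch g ^ (2 * N') := by
    intro g
    have hg0 : 0 ≤ ch g ^ (2 * N) := pow_nonneg (ch_pos g).le _
    have hg0' : 0 ≤ ch g ^ (2 * N') := pow_nonneg (ch_pos g).le _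
    have hbd : ∀ a, A ≤ a → ∀ b, A ≤ b → |Q a (Q b u) g| ≤ D * (D * C) * ch g ^ (2 * N) := by
      intro a ha b hb
      have h1 := (hQ b hb).Q_gr h hDC (s := a) (by omega)
      rw [abs_of_nonneg (h1.nonneg g)]
      rw [hD] at h1 ⊢
      exact h1.le g
    have key := tele_lim (lam n) (fun a b => Q a (Q b u) g) (fun b => Q b u g) (fun a => Q a u g)
      s t (D * (D * C) * ch g ^ (2 * N)) (fun b hb => lam_pos h (by omega))
      (fun a ha => lam_pos h (by omega)) (fun a ha b hb => hlap a b (by omega) (by omega) g)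
      hsum (lam_sum h (s := t) (by omega)).1 (fun a ha b hb => hbd a (by omega) b (by omega))
      (fun b hb => (hQ b (by omega)).tendsto_Q h hDC (fun g k hk => Q_mul_K b u g hk) t g)
      (fun a ha => by
        have h1 := (hQ a (by omega)).tendsto_Q h hDC (fun g k hk => Q_mul_K a u g hk) s g
        refine h1.congr fun I => ?_
        exact (hcomm a (s + I) (by omega) (by omega) g).symm)
      (fun a ha => by
        have g1 := hu.integrable h hC (s := a) (by omega) g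
        have g2 := (hQ s hs).integrable h hDC (s := a) (by omega) g
        exact integral_mono g1 g2 fun x =>
          mul_le_mul_of_nonneg_left (hsub (g * x)) (kap_nonneg' h (by omega) x))
    have hright : ∑' j, (lam n (s + j))⁻¹ * Q t (Q (s + j) u) g ≤
        D' * B * ch g ^ (2 * N') * (4 / s) := by
      have h1 : ∀ j, (lam n (s + j))⁻¹ * Q t (Q (s + j) u) g ≤
          (lam n (s + j))⁻¹ * (D' * B * ch g ^ (2 * N')) := by
        intro j
        refine mul_le_mul_of_nonneg_left ?_ (inv_pos.2 (lam_pos h (by omega))).le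
        rw [hcomm t (s + j) (by omega) (by omega) g]
        have h2 : Gr N' B (Q t u) := ⟨(hQ t ht).cont, (hQ t ht).nonneg, hPt⟩
        have h3 := h2.Q_le h hB (s := s + j) (by omega) (by omega) g
        rw [hD']
        exact h3
      have h2 : Summable fun j => (lam n (s + j))⁻¹ * (D' * B * ch g ^ (2 * N')) :=
        hsum.mul_right _
      have h3 : Summable fun j => (lam n (s + j))⁻¹ * Q t (Q (s + j) u) g := by
        refine Summable.of_nonneg_of_le (fun j => ?_) h1 h2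
        refine mul_nonneg (inv_pos.2 (lam_pos h (by omega))).le ?_
        exact (hQ (s + j) (by omega)).Q_nonneg h (by omega) g
      refine (h3.tsum_le_tsum h1 h2).trans ?_
      rw [tsum_mul_right, mul_comm]
      exact mul_le_mul_of_nonneg_left hsum4 (by positivity)
    have hleft : ∑ j ∈ range s, (lam n (s + j))⁻¹ * Q (s + j) u g ≤
        ∑' j, (lam n (s + j))⁻¹ * Q (s + j) u g := by
      have h1 : Summable fun j => (lam n (s + j))⁻¹ * Q (s + j) u g := by
        refine Summable.of_nonneg_of_le (f := fun j => (lam n (s + j))⁻¹ * (D * C * ch g ^ (2 * N)))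
          (fun j => ?_) (fun j => ?_) (hsum.mul_right _)
        · exact mul_nonneg (inv_pos.2 (lam_pos h (by omega))).le
            (hu.Q_nonneg h (by omega) g)
        · exact mul_le_mul_of_nonneg_left ((hQ (s + j) (by omega)).le g)
            (inv_pos.2 (lam_pos h (by omega))).le
      exact h1.sum_le_tsum _ fun j _ => mul_nonneg (inv_pos.2 (lam_pos h (by omega))).le
            (hu.Q_nonneg h (by omega) g)
    have h1 := hu.Q_two_le h hC (s := s) (by omega) g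
    refine h1.trans ?_
    calc 4 * Real.exp (2 * n) * s * ∑ j ∈ range s, (lam n (s + j))⁻¹ * Q (s + j) u g
        ≤ 4 * Real.exp (2 * n) * s * (D' * B * ch g ^ (2 * N') * (4 / s)) :=
          mul_le_mul_of_nonneg_left (hleft.trans (key.trans hright)) (by positivity)
      _ = _ := by
          field_simp
          ring
  have h2 : Gr N' (16 * Real.exp (2 * n) * D' * B) (Q (2 * s) u) :=
    ⟨(hQ (2 * s) (by omega)).cont, (hQ (2 * s) (by omega)).nonneg, hW⟩
  have h3 := h2.Q_le h (by positivity) (s := s / 2) (by omega) (by omega) g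
  have h4 := hu.Q_le_QQ h hC (s := s) (by omega) g
  refine (hsub g).trans (h4.trans ?_)
  calc 2 * Real.exp (4 * n + 1) * Q (s / 2) (Q (2 * s) u) g
      ≤ 2 * Real.exp (4 * n + 1) * (4 ^ N' * Real.exp (2 * n) *
        (16 * Real.exp (2 * n) * D' * B) * ch g ^ (2 * N')) :=
        mul_le_mul_of_nonneg_left h3 (by positivity)
    _ = _ := by
        unfold cfive
        rw [hD']
        ring

/-- Harnack inequality of the averages, from the base point. -/
theorem Q_harn {s₀ : ℕ} (h : CsOK n s₀) {N : ℕ} {C : ℝ} {u : SUGroup n → ℝ} (hu : Gr N C u)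
    (hC : 0 ≤ C) {s : ℕ} (hs : s₀ + N ≤ s + 1) (g : SUGroup n) :
    Q s u g ≤ wt g ^ (2 * s) * Q s u 1 := by
  have hcs := h.pos s (by omega)
  have e1 : Q s u g = ∫ y, kap s (g⁻¹ * y) * u y ∂(mu n) := by
    unfold Q
    have h1 := integral_mul_left_eq_self (μ := mu n) (fun y => kap s (g⁻¹ * y) * u y) g
    simp only [inv_mul_cancel_left] at h1
    exact h1
  have e2 : Q s u 1 = ∫ y, kap s y * u y ∂(mu n) := by
    unfold Q
    simp only [one_mul]
  have i1 := hu.integrable h hC hs g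
  have i2 : Integrable (fun y : SUGroup n => kap s (g⁻¹ * y) * u y) (mu n) := by
    have h1 := i1.comp_mul_left g⁻¹
    simp only [mul_inv_cancel_left] at h1
    exact h1
  have i3 := hu.integrable h hC hs 1
  simp only [one_mul] at i3
  rw [e1, e2, ← integral_const_mul]
  refine integral_mono i2 (i3.const_mul _) fun y => ?_
  show kap s (g⁻¹ * y) * u y ≤ wt g ^ (2 * s) * (kap s y * u y)
  rw [← mul_assoc]
  refine mul_le_mul_of_nonneg_right ?_ (hu.nonneg y)
  unfold kap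
  rw [← mul_div_assoc]
  refine div_le_div_of_nonneg_right ?_ hcs.le
  have h1 : ch y ≤ wt g * ch (g⁻¹ * y) := by
    have h2 := ch_mul_le_wt g (g⁻¹ * y)
    rwa [mul_inv_cancel_left] at h2
  have p1 := ch_pos y
  have p2 := ch_pos (g⁻¹ * y)
  have h2 : ch y ^ (2 * s) ≤ wt g ^ (2 * s) * ch (g⁻¹ * y) ^ (2 * s) := by
    rw [← mul_pow]
    exact pow_le_pow_left₀ p1.le h1 _
  have p3 : 0 < ch y ^ (2 * s) := pow_pos p1 _
  have p4 : 0 < ch (g⁻¹ * y) ^ (2 * s) := pow_pos p2 _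
  rw [inv_le_iff_one_le_mul₀ p4, mul_assoc, mul_comm (ch y ^ (2 * s))⁻¹, ← mul_assoc,
    ← div_eq_mul_inv, one_le_div p3]
  exact h2

/-- A13 of the blueprint: a family of almost subharmonic functions which is bounded in measure is
uniformly bounded; the growth is only assumed for the functions themselves. -/
theorem boot_sixN {s₀ : ℕ} (h : CsOK n s₀) {N A : ℕ} (hA : 2 * s₀ + 4 * N + 2 ≤ A)
    {F₀ : Set (SUGroup n)} (hF₀ : IsCompact F₀) {C₀ : ℝ} (hC₀ : 0 < C₀)
    {ψ : ℝ → ℝ → ℝ} (hψ : ∀ R, Tendsto (ψ R) atTop (𝓝 0)) :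
    ∃ C₁ : ℝ, 0 < C₁ ∧ ∀ (s : ℕ) (u : SUGroup n → ℝ), 2 * s₀ + 4 * A + 2 ≤ s → Continuous u →
      (∀ g, 0 ≤ u g) →
      (∀ M, (∀ g ∈ F₀, u g ≤ M) → ∀ g, u g ≤ C₀ * M * ch g ^ (2 * N)) →
      (∀ R T, (mu n).real {g | ch g ≤ R ∧ T < u g} ≤ ψ R T) →
      (∀ a b, A ≤ a → A ≤ b → ∀ g, Q a (Q b u) g = Q b (Q a u) g) →
      (∀ a b, A ≤ a → A ≤ b → ∀ g, lam n a * (Q a (Q b u) g - Q (a + 1) (Q b u) g) =
        lam n b * (Q a (Q b u) g - Q a (Q (b + 1) u) g)) →
      (∀ g, u g ≤ Q s u g) → ∀ g, u g ≤ C₁ * ch g ^ (2 * N) := by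
  have hgt := h.gt
  have hct := h.pos A (by omega)
  rcases F₀.eq_empty_or_nonempty with hemp | hne
  · -- no core: every such function vanishes
    refine ⟨1, one_pos, fun s u hs hc h0 hg0 hvol hcomm hlap hsub g => ?_⟩
    have h1 := hg0 0 (fun g hg => by
      rw [hemp] at hg
      exact absurd hg (Set.notMem_empty g)) g
    have h2 : 0 ≤ ch g ^ (2 * N) := pow_nonneg (ch_pos g).le _
    rw [mul_zero, zero_mul] at h1
    rw [one_mul]
    exact h1.trans h2
  -- a bound for `ch` on `F₀`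
  obtain ⟨R₀, hR₀, hR₀1⟩ : ∃ R₀ : ℝ, 1 ≤ R₀ ∧ ∀ y ∈ F₀, ch y ≤ R₀ := by
    obtain ⟨y, -, hy⟩ := hF₀.exists_isMaxOn hne continuous_ch.continuousOn
    exact ⟨ch y, one_le_ch y, fun z hz => hy hz⟩
  obtain ⟨K, hK⟩ : ∃ K : ℝ, K = cfive n A * 4 ^ A * R₀ ^ (2 * A) := ⟨_, rfl⟩
  have hK0 : 0 < K := by
    rw [hK]
    have := cfive_pos n A
    positivity
  obtain ⟨L, hL⟩ : ∃ L : ℝ, L = C₀ * 4 ^ N := ⟨_, rfl⟩
  have hL0 : 0 < L := by
    rw [hL]
    positivity
  -- choice of `R`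
  obtain ⟨R, hR1, hR⟩ : ∃ R : ℝ, 1 ≤ R ∧ K * L * (Real.exp (2 * n) / R ^ 2) ≤ 1 / 4 := by
    obtain ⟨X, hX⟩ : ∃ X : ℝ, X = K * L * Real.exp (2 * n) := ⟨_, rfl⟩
    have hX0 : 0 < X := by
      rw [hX]
      positivity
    refine ⟨1 + 4 * X, by linarith, ?_⟩
    rw [← mul_div_assoc, ← hX, div_le_div_iff₀ (by positivity) (by norm_num)]
    nlinarith
  -- choice of `T`
  obtain ⟨T, hT1, hT⟩ : ∃ T : ℝ, 1 ≤ T ∧ K * L * (ψ (2 * 1 * R) T / cs n A) ≤ 1 / 4 := by
    have h1 : Tendsto (fun T => K * L * (ψ (2 * 1 * R) T / cs n A)) atTop (𝓝 0) := by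
      simpa using ((hψ (2 * 1 * R)).div_const (cs n A)).const_mul (K * L)
    have h2 := (h1.eventually (gt_mem_nhds (by norm_num : (0 : ℝ) < 1 / 4))).and
      (eventually_ge_atTop (1 : ℝ))
    obtain ⟨T, hT, hT1⟩ := h2.exists
    exact ⟨T, hT1, hT.le⟩
  refine ⟨C₀ * (2 * K * T), by positivity, fun s u hs hc h0 hg0 hvol hcomm hlap hsub g => ?_⟩
  obtain ⟨y₁, hy₁, hmax⟩ := hF₀.exists_isMaxOn hne hc.continuousOn
  obtain ⟨M, hM⟩ : ∃ M, M = u y₁ := ⟨_, rfl⟩
  have hM0 : 0 ≤ M := hM ▸ h0 y₁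
  have hMb : ∀ g ∈ F₀, u g ≤ M := fun g hg => by
    rw [hM]
    exact hmax hg
  have hgrow := hg0 M hMb
  have hu : Gr N (C₀ * M) u := ⟨hc, h0, hgrow⟩
  have hCM : 0 ≤ C₀ * M := by positivity
  obtain ⟨ε, hε⟩ : ∃ ε : ℝ, ε = L * (Real.exp (2 * n) / R ^ 2 + ψ (2 * 1 * R) T / cs n A) :=
    ⟨_, rfl⟩
  have hKε : K * ε ≤ 1 / 2 := by
    rw [hε]
    have : K * (L * (Real.exp (2 * n) / R ^ 2 + ψ (2 * 1 * R) T / cs n A)) =
        K * L * (Real.exp (2 * n) / R ^ 2) + K * L * (ψ (2 * 1 * R) T / cs n A) := by ring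
    rw [this]
    linarith
  have hN1 : Q A u 1 ≤ T + M * ε := by
    have h1 := hu.Q_split h hCM (t := A) (by omega) (R₀ := 1) le_rfl hR1 (by linarith : 0 ≤ T)
      (y := 1) (le_of_eq ch_one)
    refine h1.trans ?_
    have h2 : (mu n).real {z | ch z ≤ 2 * 1 * R ∧ T < u z} / cs n A ≤
        ψ (2 * 1 * R) T / cs n A := div_le_div_of_nonneg_right (hvol _ _) hct.le
    have h3 : C₀ * M * 4 ^ N * 1 ^ (2 * N) = M * L := by
      rw [hL, one_pow]
      ring
    rw [h3, hε, ← mul_assoc]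
    have h4 : 0 ≤ M * L := by positivity
    have h5 := mul_le_mul_of_nonneg_left (add_le_add_right h2 (Real.exp (2 * n) / R ^ 2)) h4
    linarith
  have hQ0 : 0 ≤ Q A u 1 := hu.Q_nonneg h (by omega) 1
  have hNt0 : 0 ≤ T + M * ε := hQ0.trans hN1
  have hPt : ∀ g, Q A u g ≤ 4 ^ A * (T + M * ε) * ch g ^ (2 * A) := by
    intro g
    have h1 := Q_harn h hu hCM (s := A) (by omega) g
    have h2 : wt g ^ (2 * A) ≤ (2 * ch g) ^ (2 * A) :=
      pow_le_pow_left₀ (by linarith [one_le_wt g]) (wt_le g) _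
    have h3 : (2 * ch g) ^ (2 * A) = 4 ^ A * ch g ^ (2 * A) := by
      rw [mul_pow, pow_mul (2 : ℝ) 2 A]
      norm_num
    have h4 : 0 ≤ 4 ^ A * ch g ^ (2 * A) := by
      have := ch_pos g
      positivity
    calc Q A u g ≤ wt g ^ (2 * A) * Q A u 1 := h1
      _ ≤ (4 ^ A * ch g ^ (2 * A)) * Q A u 1 := by
          rw [← h3]
          exact mul_le_mul_of_nonneg_right h2 hQ0
      _ ≤ (4 ^ A * ch g ^ (2 * A)) * (T + M * ε) := mul_le_mul_of_nonneg_left hN1 h4
      _ = _ := by ring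
  have h5 := boot_fiveN h hu hCM hA hcomm hlap (s := s) (t := A) (by omega) hs le_rfl hsub
    (B := 4 ^ A * (T + M * ε)) (by positivity) hPt
  -- the bound for `M`
  have hM2 : M ≤ K * (T + M * ε) := by
    have h6 := h5 y₁
    rw [← hM] at h6
    refine h6.trans ?_
    have h7 : ch y₁ ^ (2 * A) ≤ R₀ ^ (2 * A) := pow_le_pow_left₀ (ch_pos y₁).le (hR₀1 y₁ hy₁) _
    have h8 : 0 ≤ cfive n A * (4 ^ A * (T + M * ε)) := by
      have := cfive_pos n A
      positivity
    refine (mul_le_mul_of_nonneg_left h7 h8).trans (le_of_eq ?_)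
    rw [hK]
    ring
  have hM3 : M ≤ 2 * K * T := by
    have h9 : K * (T + M * ε) = K * T + M * (K * ε) := by ring
    have h10 : M * (K * ε) ≤ M * (1 / 2) := mul_le_mul_of_nonneg_left hKε hM0
    linarith
  refine (hgrow g).trans ?_
  refine mul_le_mul_of_nonneg_right ?_ (pow_nonneg (ch_pos g).le _)
  exact mul_le_mul_of_nonneg_left hM3 hC₀.le

end Pool.Agent.Lib.MP_5d4057_al.NU
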