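import Pool.Agent.Lib.MP_5d4057_al.NU.LatA

/-! Part L of the blueprint h37_nu: the swap (L2), sums over orbits. -/

namespace Pool.Agent.Lib.MP_5d4057_al.NU

open Matrix MeasureTheory Filter Topology Pool.Agent.Lib.MP_5d4057_al
  Pool.Agent.Lib.MP_5d4057_al.Hyb Pool.Agent.Lib.MP_5d4057_al.HM

open scoped ComplexOrder MatrixOrder Matrix.Norms.L2Operator ENNReal

variable {n m : ℕ} {Γ : Subgroup (SUGroup n)} {χ : SUGroup n → ℝ}

private theorem aem_shear {Φ : SUGroup n → SUGroup n → ℝ≥0∞}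
    (hm : AEMeasurable (Function.uncurry Φ) ((mu n).prod (mu n))) :
    AEMeasurable (fun p : SUGroup n × SUGroup n => Φ p.1 (p.1 * p.2)) ((mu n).prod (mu n)) :=
  hm.comp_quasiMeasurePreserving (measurePreserving_prod_mul (mu n) (mu n)).quasiMeasurePreserving

private theorem aem_swap {Φ : SUGroup n → SUGroup n → ℝ≥0∞}
    (hm : AEMeasurable (Function.uncurry Φ) ((mu n).prod (mu n))) :
    AEMeasurable (Function.uncurry fun g h => Φ h g) ((mu n).prod (mu n)) :=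
  hm.comp_quasiMeasurePreserving
    (Measure.measurePreserving_swap (μ := mu n) (ν := mu n)).quasiMeasurePreserving

private theorem aem_left {Ψ : SUGroup n → SUGroup n → ℝ≥0∞}
    (hΨ : AEMeasurable (Function.uncurry Ψ) ((mu n).prod (mu n))) :
    ∀ᵐ g ∂(mu n), AEMeasurable (fun x => Ψ g x) (mu n) := by
  have h2 := hΨ.aestronglyMeasurable.prodMk_left
  filter_upwards [h2] with g hg
  exact hg.aemeasurable

/-- Interchange of the integrals. -/
theorem LI_lintegral (h : Lat Γ χ) {κ : SUGroup n → ℝ≥0∞} (hκ : AEMeasurable κ (mu n))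
    (Ψ : SUGroup n → SUGroup n → ℝ≥0∞)
    (hΨ : AEMeasurable (Function.uncurry Ψ) ((mu n).prod (mu n))) :
    LI χ (fun g => ∫⁻ x, κ x * Ψ g x ∂(mu n)) =
      ∫⁻ x, κ x * LI χ (fun g => Ψ g x) ∂(mu n) := by
  have hm1 : AEMeasurable (fun p : SUGroup n × SUGroup n => ENNReal.ofReal (χ p.1))
      ((mu n).prod (mu n)) := (h.measurable.comp measurable_fst).aemeasurable
  have hm2 : AEMeasurable (fun p : SUGroup n × SUGroup n => κ p.2)
      ((mu n).prod (mu n)) :=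
    hκ.comp_quasiMeasurePreserving Measure.quasiMeasurePreserving_snd
  have hχκ : AEMeasurable (fun p : SUGroup n × SUGroup n => ENNReal.ofReal (χ p.1) * κ p.2)
      ((mu n).prod (mu n)) := hm1.mul hm2
  have hsec := aem_left hΨ
  have hsec' := aem_left (aem_swap hΨ)
  have e1 : LI χ (fun g => ∫⁻ x, κ x * Ψ g x ∂(mu n)) =
      ∫⁻ g, ∫⁻ x, ENNReal.ofReal (χ g) * κ x * Ψ g x ∂(mu n) ∂(mu n) := by
    unfold LI
    refine lintegral_congr_ae ?_
    filter_upwards [hsec] with g hg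
    have h3 : ∫⁻ x, ENNReal.ofReal (χ g) * (κ x * Ψ g x) ∂(mu n) =
        ENNReal.ofReal (χ g) * ∫⁻ x, κ x * Ψ g x ∂(mu n) :=
      lintegral_const_mul'' _ (hκ.mul hg)
    rw [← h3]
    simp only [mul_assoc]
  have e2 : ∫⁻ x, κ x * LI χ (fun g => Ψ g x) ∂(mu n) =
      ∫⁻ x, ∫⁻ g, ENNReal.ofReal (χ g) * κ x * Ψ g x ∂(mu n) ∂(mu n) := by
    refine lintegral_congr_ae ?_
    filter_upwards [hsec'] with x hx
    have h3 : ∫⁻ g, κ x * (ENNReal.ofReal (χ g) * Ψ g x) ∂(mu n) =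
        κ x * ∫⁻ g, ENNReal.ofReal (χ g) * Ψ g x ∂(mu n) :=
      lintegral_const_mul'' _ (h.measurable.aemeasurable.mul hx)
    unfold LI
    rw [← h3]
    refine lintegral_congr fun g => ?_
    ring
  rw [e1, e2]
  have hh : AEMeasurable (Function.uncurry fun g x => ENNReal.ofReal (χ g) * κ x * Ψ g x)
      ((mu n).prod (mu n)) := hχκ.mul hΨ
  exact lintegral_lintegral_swap hh

/-- The kernel can be moved to the other variable (blueprint L2). -/
theorem LI_swap (h : Lat Γ χ) {Φ : SUGroup n → SUGroup n → ℝ≥0∞}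
    (hm : AEMeasurable (Function.uncurry Φ) ((mu n).prod (mu n)))
    (hΦ : ∀ γ ∈ Γ, ∀ g g' : SUGroup n, Φ (γ * g) (γ * g') = Φ g g')
    {κ : SUGroup n → ℝ≥0∞} (hκ : AEMeasurable κ (mu n)) (hκi : ∀ x, κ x⁻¹ = κ x) :
    LI χ (fun g => ∫⁻ x, κ x * Φ g (g * x) ∂(mu n)) =
      LI χ (fun g => ∫⁻ x, κ x * Φ (g * x) g ∂(mu n)) := by
  have hm1 : AEMeasurable (Function.uncurry fun g x => Φ g (g * x)) ((mu n).prod (mu n)) :=
    aem_shear (Φ := Φ) hm
  have hm2 : AEMeasurable (Function.uncurry fun g x => Φ (g * x) g) ((mu n).prod (mu n)) :=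
    aem_shear (Φ := fun g h => Φ h g) (aem_swap (Φ := Φ) hm)
  have hs2 : ∀ᵐ x ∂(mu n), AEMeasurable (fun g => Φ (g * x) g) (mu n) :=
    aem_left (Ψ := fun x g => Φ (g * x) g) (aem_swap (Φ := fun g x => Φ (g * x) g) hm2)
  have hs2' : ∀ᵐ x ∂(mu n), AEMeasurable (fun g => Φ (g * x⁻¹) g) (mu n) := by
    have h0 := (Measure.measurePreserving_inv (mu n)).quasiMeasurePreserving
    exact h0.ae (p := fun x => AEMeasurable (fun g => Φ (g * x) g) (mu n)) hs2
  have e0 := LI_lintegral h hκ (fun g x => Φ g (g * x)) hm1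
  have e1 := LI_lintegral h hκ (fun g x => Φ (g * x) g) hm2
  have e3 : ∀ᵐ x ∂(mu n), κ x * LI χ (fun g => Φ g (g * x)) =
      κ x * LI χ (fun g => Φ (g * x⁻¹) g) := by
    filter_upwards [hs2'] with x hx
    have h4 := LI_mul_right h (f := fun g => Φ (g * x⁻¹) g)
      (fun γ hγ g => by rw [mul_assoc]; exact hΦ γ hγ _ _) hx x
    rw [← h4]
    simp only [mul_inv_cancel_right]
  have e4 : ∫⁻ x, κ x⁻¹ * LI χ (fun g => Φ (g * x⁻¹⁻¹) g) ∂(mu n) =
      ∫⁻ x, κ x * LI χ (fun g => Φ (g * x⁻¹) g) ∂(mu n) :=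
    lintegral_inv_eq_self (fun x => κ x * LI χ (fun g => Φ (g * x⁻¹) g))
  rw [e0, e1, lintegral_congr_ae e3, ← e4]
  refine lintegral_congr fun x => ?_
  rw [hκi, inv_inv]

end Pool.Agent.Lib.MP_5d4057_al.NU
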