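import Pool.Agent.Lib.MP_5d4057_al.NU.BochN4

/-! Pluriharmonicity for lattices. -/

namespace Pool.Agent.Lib.MP_5d4057_al.NU

open Matrix MeasureTheory Filter Topology Pool.Agent.Lib.MP_5d4057_al
  Pool.Agent.Lib.MP_5d4057_al.Hyb Pool.Agent.Lib.MP_5d4057_al.HM

open scoped ComplexOrder MatrixOrder Matrix.Norms.L2Operator ENNReal

set_option maxSynthPendingDepth 3

variable {n m : ℕ}

variable {Γ : Subgroup (SUGroup n)} {χ : SUGroup n → ℝ}

/-- The vanishing of the Bochner expression. -/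
theorem bochL_zeroN (hn : 1 ≤ n) (h : Lat Γ χ) {T : ℝ} {y : Vec n → ℝ} (hy : Ht Γ T y)
    {ρ : Γ →* Mat m} {F : Vec n → Mat m} (hF : Met ρ F) {N : ℕ} {C : ℝ}
    (hL : LipMet n m N C F)
    (hD : ∀ x, LI χ (fun g => ENNReal.ofReal
      (dT (F (act g (base n))) (F (act (g * x) (base n))) ^ 2)) ≤
        ENNReal.ofReal (C * Real.log (wt x) ^ 2)) (g : SUGroup n) : bochL F g = 0 := by
  obtain ⟨hF2, -, -, -, -⟩ := reg_conv hn hL
  have hi := integrable_enN h hF2 hF.pos hD
  obtain ⟨B, hB0, hB⟩ := exists_cf hy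
  -- the radii
  obtain ⟨R, hR⟩ : ∃ R : ℕ → ℝ, ∀ k : ℕ, R k = k + 1 + |T| := ⟨fun k => k + 1 + |T|, fun k => rfl⟩
  have hR1 : ∀ k, 1 ≤ R k := fun k => by
    rw [hR]
    have := abs_nonneg T
    have : (0 : ℝ) ≤ k := Nat.cast_nonneg k
    linarith
  have hRT : ∀ k, T ≤ Real.exp (R k) := fun k => by
    have h1 := Real.add_one_le_exp (R k)
    have h2 := le_abs_self T
    have h3 : (0 : ℝ) ≤ k := Nat.cast_nonneg k
    rw [hR] at h1 ⊢
    linarith
  have hRlim : Tendsto R atTop atTop := by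
    have h1 : Tendsto (fun k : ℕ => (k : ℝ) + (1 + |T|)) atTop atTop :=
      tendsto_atTop_add_const_right _ _ tendsto_natCast_atTop_atTop
    exact h1.congr fun k => by rw [hR]; ring
  choose φ Q hQ hφ hφ1 using fun k => hB (R k) (hR1 k) (hRT k)
  have hc := bochL_cont hF2 hF.pos
  have h0 := bochL_nonneg hF.pos
  have hint : ∀ k, Integrable (fun g => χ g • (φ k (act g (base n)) ^ 2 * bochL F g)) (mu n) :=
    fun k => h.integrable_smul ((hφ k).cont' hc).aestronglyMeasurable
      (((hφ k).off_mul _).bdd (hQ k) ((hφ k).cont' hc)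
        ((hφ k).inv' (fun γ hγ g => bochL_inv hF hF2 γ hγ g)))
  have hle : ∀ k, ∫⁻ g, ENNReal.ofReal (χ g) *
      ENNReal.ofReal (φ k (act g (base n)) ^ 2 * bochL F g) ∂(mu n) ≤
      ENNReal.ofReal (4 * n * (B / R k) ^ 2 * II χ (enN F)) := by
    intro k
    have h1 := II_boch_le hn h (hQ k) (hφ k) hF hL hi
    refine le_trans (le_of_eq ?_) (ENNReal.ofReal_le_ofReal h1)
    have hnn : ∀ g, 0 ≤ χ g • (φ k (act g (base n)) ^ 2 * bochL F g) := fun g =>
      mul_nonneg (h.pos g).le (mul_nonneg (sq_nonneg _) (h0 g))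
    rw [II, ofReal_integral_eq_lintegral_ofReal (hint k) (Eventually.of_forall hnn)]
    refine lintegral_congr fun g => ?_
    rw [smul_eq_mul, ENNReal.ofReal_mul (h.pos g).le]
  have hlim : ∀ g, Tendsto (fun k => ENNReal.ofReal (χ g) *
      ENNReal.ofReal (φ k (act g (base n)) ^ 2 * bochL F g)) atTop
      (𝓝 (ENNReal.ofReal (χ g) * ENNReal.ofReal (bochL F g))) := by
    intro g
    refine tendsto_const_nhds.congr' ?_
    filter_upwards [hRlim.eventually_gt_atTop (Real.log (y (act g (base n))))] with k hk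
    rw [hφ1 k _ (orbit_mem g) hk, one_pow, one_mul]
  have hfat := lintegral_liminf_le' (μ := mu n) (u := atTop) (f := fun k g =>
      ENNReal.ofReal (χ g) * ENNReal.ofReal (φ k (act g (base n)) ^ 2 * bochL F g)) fun k =>
    (h.measurable.mul ((hφ k).cont' hc).measurable.ennreal_ofReal).aemeasurable
  have hz : Tendsto (fun k => ENNReal.ofReal (4 * n * (B / R k) ^ 2 * II χ (enN F))) atTop
      (𝓝 0) := by
    have h1 : Tendsto (fun k => B / R k) atTop (𝓝 0) := hRlim.const_div_atTop B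
    have h2 := ((h1.pow 2).const_mul (4 * (n : ℝ))).mul_const (II χ (enN F))
    rw [zero_pow two_ne_zero, mul_zero, zero_mul] at h2
    have h3 := ENNReal.tendsto_ofReal h2
    rwa [ENNReal.ofReal_zero] at h3
  have hI : LI χ (fun g => ENNReal.ofReal (bochL F g)) = 0 := by
    refine le_antisymm ?_ bot_le
    calc LI χ (fun g => ENNReal.ofReal (bochL F g)) = ∫⁻ g, liminf (fun k =>
          ENNReal.ofReal (χ g) * ENNReal.ofReal (φ k (act g (base n)) ^ 2 * bochL F g))
          atTop ∂(mu n) := by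
          rw [LI]
          exact lintegral_congr fun g => (hlim g).liminf_eq.symm
      _ ≤ _ := hfat
      _ ≤ liminf (fun k => ENNReal.ofReal (4 * n * (B / R k) ^ 2 * II χ (enN F))) atTop :=
          liminf_le_liminf (Eventually.of_forall hle)
      _ = 0 := hz.liminf_eq
  exact eq_zero_of_LI h hc h0 hI g

section
variable {F : Vec n → Mat m}

/-- the consequences in the frame -/
theorem frame_zeroN (hh : Homog F) (hp : ∀ v ∈ Cone n, (F v).PosDef)
    (hF2 : ContDiffOn ℝ 2 F (Cone n)) (g : SUGroup n) (h0 : bochL F g = 0)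
    (i j : Fin (n + 1)) :
    tau F (act g (base n)) (act g (Pi.single i 1)) (act g (Pi.single j 1)) = 0 ∧
      thz F (act g (base n)) (act g (Pi.single i 1)) *
          thz F (act g (base n)) (act g (Pi.single j 1)) =
        thz F (act g (base n)) (act g (Pi.single j 1)) *
          thz F (act g (base n)) (act g (Pi.single i 1)) := by
  have hv := orbit_mem g
  have hp := hp _ hv
  rw [bochL] at h0
  have h1 : ∀ i j : Fin n, (nF (F (act g (base n))) (tau F (act g (base n))
      (act g (Pi.single i.castSucc 1)) (act g (Pi.single j.castSucc 1))) +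
      nF (F (act g (base n))) (thz F (act g (base n)) (act g (Pi.single i.castSucc 1)) *
          thz F (act g (base n)) (act g (Pi.single j.castSucc 1)) -
        thz F (act g (base n)) (act g (Pi.single j.castSucc 1)) *
          thz F (act g (base n)) (act g (Pi.single i.castSucc 1)))) = 0 := by
    have hnn : ∀ i j : Fin n, 0 ≤ (nF (F (act g (base n))) (tau F (act g (base n))
      (act g (Pi.single i.castSucc 1)) (act g (Pi.single j.castSucc 1))) +
      nF (F (act g (base n))) (thz F (act g (base n)) (act g (Pi.single i.castSucc 1)) *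
          thz F (act g (base n)) (act g (Pi.single j.castSucc 1)) -
        thz F (act g (base n)) (act g (Pi.single j.castSucc 1)) *
          thz F (act g (base n)) (act g (Pi.single i.castSucc 1)))) := fun i j =>
      add_nonneg (nF_nonneg hp _) (nF_nonneg hp _)
    intro i j
    have h2 := (Finset.sum_eq_zero_iff_of_nonneg
      (fun i _ => Finset.sum_nonneg fun j _ => hnn i j)).1 h0 i (Finset.mem_univ i)
    exact (Finset.sum_eq_zero_iff_of_nonneg (fun j _ => hnn i j)).1 h2 j (Finset.mem_univ j)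
  refine Fin.lastCases ?_ (fun i => ?_) i
  · have e : act g (Pi.single (Fin.last n) 1) = act g (base n) := rfl
    obtain ⟨-, t2, t3, -⟩ := tau_self hh hv hF2 (act g (Pi.single j 1))
    rw [e, t2, t3, Matrix.zero_mul, Matrix.mul_zero]
    exact ⟨rfl, rfl⟩
  · refine Fin.lastCases ?_ (fun j => ?_) j
    · have e : act g (Pi.single (Fin.last n) 1) = act g (base n) := rfl
      obtain ⟨t1, -, t3, -⟩ := tau_self hh hv hF2 (act g (Pi.single i.castSucc 1))
      rw [e, t1, t3, Matrix.zero_mul, Matrix.mul_zero]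
      exact ⟨rfl, rfl⟩
    · have h2 := h1 i j
      have h3 := nF_nonneg hp (tau F (act g (base n)) (act g (Pi.single i.castSucc 1))
        (act g (Pi.single j.castSucc 1)))
      have h4 := nF_nonneg hp (thz F (act g (base n)) (act g (Pi.single i.castSucc 1)) *
          thz F (act g (base n)) (act g (Pi.single j.castSucc 1)) -
        thz F (act g (base n)) (act g (Pi.single j.castSucc 1)) *
          thz F (act g (base n)) (act g (Pi.single i.castSucc 1)))
      refine ⟨nF_eq_zero hp (by linarith), sub_eq_zero.1 (nF_eq_zero hp (by linarith))⟩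

theorem orbit_zeroN (hh : Homog F) (hp : ∀ v ∈ Cone n, (F v).PosDef)
    (hF2 : ContDiffOn ℝ 2 F (Cone n)) (g : SUGroup n) (h0 : bochL F g = 0) (ξ η : Vec n) :
    tau F (act g (base n)) ξ η = 0 ∧
      thz F (act g (base n)) ξ * thz F (act g (base n)) η =
        thz F (act g (base n)) η * thz F (act g (base n)) ξ := by
  have hfr := frame_zeroN hh hp hF2 g h0
  have hs := bc_sesq_tau hF2 (orbit_mem g)
  have e1 := bc_exp g ξ
  have e2 := bc_exp g η
  generalize act g⁻¹ ξ = a at e1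
  generalize act g⁻¹ η = b at e2
  subst e1 e2
  refine ⟨?_, ?_⟩
  · rw [hs.sum₁]
    refine Finset.sum_eq_zero fun k _ => ?_
    rw [hs.sum₂]
    refine Finset.sum_eq_zero fun l _ => ?_
    rw [bc_tau_smul₂, bc_tau_smul₁ hF2 (orbit_mem g), (hfr k l).1, smul_zero, smul_zero]
  · rw [bc_thz_sum, bc_thz_sum, Finset.sum_mul_sum, Finset.sum_mul_sum, Finset.sum_comm]
    refine Finset.sum_congr rfl fun k _ => Finset.sum_congr rfl fun l _ => ?_
    rw [smul_mul_assoc, mul_smul_comm, smul_mul_assoc, mul_smul_comm, (hfr l k).2,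
      smul_comm]

/-- Pluriharmonicity from the vanishing of the Bochner expression. -/
theorem pluri_of_bochL (hh : Homog F) (hp : ∀ v ∈ Cone n, (F v).PosDef)
    (hF2 : ContDiffOn ℝ 2 F (Cone n)) (h0 : ∀ g, bochL F g = 0) :
    (∀ v ∈ Cone n, ∀ ξ η : Vec n, dzb (fun w => dz F w ξ) v η =
      (1 / 2 : ℂ) • (dzb F v η * (F v)⁻¹ * dz F v ξ + dz F v ξ * (F v)⁻¹ * dzb F v η)) ∧
    ∀ v ∈ Cone n, ∀ ξ η : Vec n,
      dz F v ξ * (F v)⁻¹ * dz F v η = dz F v η * (F v)⁻¹ * dz F v ξ := by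
  have key : ∀ v ∈ Cone n, ∀ ξ η : Vec n, tau F v ξ η = 0 ∧
      thz F v ξ * thz F v η = thz F v η * thz F v ξ := by
    intro v hv ξ η
    obtain ⟨g, c, hc, rfl⟩ := exists_act_eq hv
    have ht := tr_scl hh hc
    have hg := orbit_mem g
    have e : ∀ ζ : Vec n, ζ = c • (c⁻¹ • ζ) := fun ζ => by rw [smul_inv_smul₀ hc]
    obtain ⟨z1, z2⟩ := orbit_zeroN hh hp hF2 g (h0 g) (c⁻¹ • ξ) (c⁻¹ • η)
    have t1 := ht.tau hF2 hg (c⁻¹ • ξ) (c⁻¹ • η)
    have t2 := ht.thz hF2 hg (c⁻¹ • ξ)
    have t3 := ht.thz hF2 hg (c⁻¹ • η)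
    simp only [sclL_apply, ← e] at t1 t2 t3
    rw [conjTranspose_one, inv_one, Matrix.one_mul, Matrix.mul_one] at t1 t2 t3
    rw [t1, t2, t3]
    exact ⟨z1, z2⟩
  refine ⟨fun v hv ξ η => ?_, fun v hv ξ η => ?_⟩
  · have h := (key v hv ξ η).1
    have hu := (hp v hv).isUnit
    have h1 : F v * (F v)⁻¹ = 1 :=
      Matrix.mul_nonsing_inv _ ((Matrix.isUnit_iff_isUnit_det _).mp hu)
    rw [tau] at h
    have h2 := (smul_eq_zero.1 h).resolve_left (by norm_num)
    have h3 := congrArg (fun X => F v * X) h2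
    simp only [← Matrix.mul_assoc, h1, Matrix.one_mul, Matrix.mul_zero] at h3
    exact sub_eq_zero.1 h3
  · have h := (key v hv ξ η).2
    have hu := (hp v hv).isUnit
    have h1 : F v * (F v)⁻¹ = 1 :=
      Matrix.mul_nonsing_inv _ ((Matrix.isUnit_iff_isUnit_det _).mp hu)
    rw [thz, thz, smul_mul_assoc, mul_smul_comm, smul_mul_assoc, mul_smul_comm, smul_smul,
      smul_smul] at h
    have h2 := smul_right_injective (Mat m) (show (1 / 2 : ℂ) * (1 / 2) ≠ 0 by norm_num) h
    have h3 := congrArg (fun X => F v * X) h2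
    calc dz F v ξ * (F v)⁻¹ * dz F v η = F v * ((F v)⁻¹ * dz F v ξ * ((F v)⁻¹ * dz F v η)) := by
          simp only [← Matrix.mul_assoc, h1, Matrix.one_mul]
      _ = F v * ((F v)⁻¹ * dz F v η * ((F v)⁻¹ * dz F v ξ)) := h3
      _ = _ := by simp only [← Matrix.mul_assoc, h1, Matrix.one_mul]

end

/-- RESULT (A17): a Lipschitz metric with finite energy which is a subsolution together with its
inverse is pluriharmonic, for lattices. -/
theorem pluriharmonicN (hn : 1 ≤ n) (h : Lat Γ χ) {T : ℝ} {y : Vec n → ℝ} (hy : Ht Γ T y)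
    {ρ : Γ →* Mat m} {F : Vec n → Mat m} (hF : Met ρ F) {N : ℕ} {C : ℝ}
    (hL : LipMet n m N C F)
    (hD : ∀ x, LI χ (fun g => ENNReal.ofReal
      (dT (F (act g (base n))) (F (act (g * x) (base n))) ^ 2)) ≤
        ENNReal.ofReal (C * Real.log (wt x) ^ 2)) :
    (∀ v ∈ Cone n, ∀ ξ η : Vec n, dzb (fun w => dz F w ξ) v η =
      (1 / 2 : ℂ) • (dzb F v η * (F v)⁻¹ * dz F v ξ + dz F v ξ * (F v)⁻¹ * dzb F v η)) ∧
    ∀ v ∈ Cone n, ∀ ξ η : Vec n,
      dz F v ξ * (F v)⁻¹ * dz F v η = dz F v η * (F v)⁻¹ * dz F v ξ :=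
  pluri_of_bochL hF.hom hF.pos (reg_conv hn hL).1 fun g => bochL_zeroN hn h hy hF hL hD g

end Pool.Agent.Lib.MP_5d4057_al.NU
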