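import Pool.Agent.Lib.MP_5d4057_al.NU.LGJ

/-! The limit metric for lattices (blueprint h37_nu, A11, A12, A14). Owner: helper58. -/

namespace Pool.Agent.Lib.MP_5d4057_al.NU

open Matrix MeasureTheory Filter Topology Pool.Agent.Lib.MP_5d4057_al
  Pool.Agent.Lib.MP_5d4057_al.Hyb Pool.Agent.Lib.MP_5d4057_al.HM

open scoped ComplexOrder MatrixOrder Matrix.Norms.L2Operator ENNReal

variable {n m : ℕ}

variable {Γ : Subgroup (SUGroup n)} {χ : SUGroup n → ℝ}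

namespace LG

open DD

private theorem tr_smul_re (t : ℝ) (A : Mat m) : ((t : ℂ) • A).trace.re = t * A.trace.re := by
  rw [trace_smul, smul_eq_mul, Complex.mul_re, Complex.ofReal_re, Complex.ofReal_im, zero_mul,
    sub_zero]

theorem adm_smul {N : ℕ} {C : ℝ} {A : Vec n → Mat m} (h : Adm N C A) (t : ℝ) :
    Adm N (|t| * C) fun v => (t : ℂ) • A v := by
  refine ⟨h.meas.const_smul (t : ℂ), fun g => ?_⟩
  rw [norm_smul, Complex.norm_real, Real.norm_eq_abs, mul_assoc]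
  exact mul_le_mul_of_nonneg_left (h.bound g) (abs_nonneg t)

theorem adm_mono {N : ℕ} {C C' : ℝ} {A : Vec n → Mat m} (h : Adm N C A) (hC : C ≤ C') :
    Adm N C' A :=
  ⟨h.meas, fun g => (h.bound g).trans (mul_le_mul_of_nonneg_right hC (pow_nonneg (ch_pos g).le _))⟩

theorem grow_smul {F₀ : Set (SUGroup n)} {N : ℕ} {C : ℝ} {H L : Vec n → Mat m} {t : ℝ} (ht : 0 < t)
    (h : ∀ K : ℝ, (∀ g ∈ F₀, (H (act g (base n)) + L (act g (base n))).trace.re ≤ K) →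
      ∀ g : SUGroup n, (H (act g (base n)) + L (act g (base n))).trace.re ≤
        C * K * ch g ^ (2 * N)) :
    ∀ K : ℝ, (∀ g ∈ F₀, ((t : ℂ) • H (act g (base n)) + (t : ℂ) • L (act g (base n))).trace.re ≤
      K) → ∀ g : SUGroup n, ((t : ℂ) • H (act g (base n)) + (t : ℂ) • L (act g (base n))).trace.re ≤
        C * K * ch g ^ (2 * N) := by
  intro K hK g
  have h1 := h (t⁻¹ * K) (fun g hg => by
    have h2 := hK g hg
    rw [← smul_add, tr_smul_re] at h2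
    have h3 := mul_le_mul_of_nonneg_left h2 (inv_pos.2 ht).le
    rwa [← mul_assoc, inv_mul_cancel₀ ht.ne', one_mul] at h3) g
  rw [← smul_add, tr_smul_re]
  have h3 := mul_le_mul_of_nonneg_left h1 ht.le
  refine h3.trans (le_of_eq ?_)
  field_simp

theorem grow_inv_smul {F₀ : Set (SUGroup n)} {N : ℕ} {C : ℝ} {H L : Vec n → Mat m} {t : ℝ}
    (ht : 0 < t)
    (h : ∀ K : ℝ, (∀ g ∈ F₀, ((H (act g (base n)))⁻¹ + (L (act g (base n)))⁻¹).trace.re ≤ K) →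
      ∀ g : SUGroup n, ((H (act g (base n)))⁻¹ + (L (act g (base n)))⁻¹).trace.re ≤
        C * K * ch g ^ (2 * N)) :
    ∀ K : ℝ, (∀ g ∈ F₀, (((t : ℂ) • H (act g (base n)))⁻¹ +
      ((t : ℂ) • L (act g (base n)))⁻¹).trace.re ≤ K) → ∀ g : SUGroup n,
      (((t : ℂ) • H (act g (base n)))⁻¹ + ((t : ℂ) • L (act g (base n)))⁻¹).trace.re ≤
        C * K * ch g ^ (2 * N) := by
  have e : ∀ A B : Mat m, (((t : ℂ) • A)⁻¹ + ((t : ℂ) • B)⁻¹).trace.re =
      t⁻¹ * (A⁻¹ + B⁻¹).trace.re := by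
    intro A B
    rw [inv_smul_mat ht, inv_smul_mat ht, ← smul_add, tr_smul_re]
  intro K hK g
  have h1 := h (t * K) (fun g hg => by
    have h2 := hK g hg
    rw [e] at h2
    have h3 := mul_le_mul_of_nonneg_left h2 ht.le
    rwa [← mul_assoc, mul_inv_cancel₀ ht.ne', one_mul] at h3) g
  rw [e]
  have h3 := mul_le_mul_of_nonneg_left h1 (inv_pos.2 ht).le
  refine h3.trans (le_of_eq ?_)
  field_simp

theorem adm_inv_smul {N : ℕ} {C : ℝ} {A : Vec n → Mat m} (h : Adm N C fun v => (A v)⁻¹) {t : ℝ}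
    (ht : 0 < t) : Adm N (|t⁻¹| * C) fun v => ((t : ℂ) • A v)⁻¹ := by
  have e : (fun v => ((t : ℂ) • A v)⁻¹) = fun v => ((t⁻¹ : ℝ) : ℂ) • (A v)⁻¹ :=
    funext fun v => inv_smul_mat ht
  rw [e]
  exact adm_smul h t⁻¹

theorem adm_iv_iv {ρ : Γ →* Mat m} {N : ℕ} {C : ℝ} {A : Vec n → Mat m} (hA : Met ρ A)
    (h : Adm N C A) : Adm N C fun v => ((A v)⁻¹)⁻¹ := by
  have invinv : ∀ A : Mat m, A.PosDef → A⁻¹⁻¹ = A := fun A hA =>
    Matrix.nonsing_inv_nonsing_inv _ ((Matrix.isUnit_iff_isUnit_det _).1 hA.isUnit)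
  refine ⟨h.meas.congr (ae_of_all _ fun g => ?_), fun g => ?_⟩
  · exact (invinv _ (hA.pos _ (orbit_mem g))).symm
  · rw [invinv _ (hA.pos _ (orbit_mem g))]
    exact h.bound g

/-- The bounds of the trace and of the trace of the inverse give all bounds. -/
theorem bounds_of_trace {ρ : Γ →* Mat m} {N : ℕ} {C : ℝ} {H L : Vec n → Mat m} (hH : Met ρ H)
    (hL : Met ρ L)
    (u1 : ∀ g : SUGroup n, (H (act g (base n)) + L (act g (base n))).trace.re ≤ C * ch g ^ (2 * N))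
    (u2 : ∀ g : SUGroup n, ((H (act g (base n)))⁻¹ + (L (act g (base n)))⁻¹).trace.re ≤
      C * ch g ^ (2 * N)) (g : SUGroup n) :
    (‖H (act g (base n))‖ ≤ C * ch g ^ (2 * N) ∧ ‖L (act g (base n))‖ ≤ C * ch g ^ (2 * N)) ∧
      (‖(H (act g (base n)))⁻¹‖ ≤ C * ch g ^ (2 * N) ∧
        ‖(L (act g (base n)))⁻¹‖ ≤ C * ch g ^ (2 * N)) := by
  have pH := met_pos hH g
  have pL := met_pos hL g
  have w1 := u1 g
  have w2 := u2 g
  rw [trace_add, Complex.add_re] at w1 w2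
  have e1 := norm_le_trace pH.posSemidef
  have e2 := norm_le_trace pL.posSemidef
  have e3 := norm_le_trace pH.inv.posSemidef
  have e4 := norm_le_trace pL.inv.posSemidef
  have f1 := (norm_nonneg _).trans e1
  have f2 := (norm_nonneg _).trans e2
  have f3 := (norm_nonneg _).trans e3
  have f4 := (norm_nonneg _).trans e4
  exact ⟨⟨by linarith, by linarith⟩, ⟨by linarith, by linarith⟩⟩

end LG

open LG DD in
/-- RESULT of A11 - A14: the limit metric. -/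
theorem exists_limit_N (hn : 1 ≤ n) (hm : 0 < m) (hΓ : Lat Γ χ) (ρ : Γ →* Mat m)
    (hρ : Submodule.span ℂ (Set.range ρ) = ⊤) {F₀ : Set (SUGroup n)} {N s₀ : ℕ} {C : ℝ}
    (hF₀ : IsCompact F₀) (hne : F₀.Nonempty) (hC : 0 < C)
    (hPN : ∀ s : ℕ, s₀ ≤ s → ∃ H L : Vec n → Mat m, PN ρ χ F₀ N C s H L) :
    ∃ (N' : ℕ) (C' : ℝ) (F : Vec n → Mat m), LimN ρ χ N' C' F := by
  have _ := hne
  have hχ := CutG.of_lat hΓ
  obtain ⟨C₀, D, hC₀, h1⟩ := nor_of hn hm hχ hρ C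
  obtain ⟨ψ, hψ, h2⟩ := vol_bound n m D
  obtain ⟨s₁, h3⟩ := boot_pairN hn m N hF₀ hC
  obtain ⟨C₁, hC₁, h4⟩ := h3 ψ hψ
  set S := s₀ + (2 * n + 2) + s₁ + (n + N + 1) with hS
  have hlev : ∀ j, S ≤ lev S j := fun j => Nat.le_add_right _ _
  have key : ∀ s, S ≤ s → ∃ H L : Vec n → Mat m, NorG ρ χ C₀ D s H L ∧
      ∀ g : SUGroup n, (‖H (act g (base n))‖ ≤ C₁ * ch g ^ (2 * N) ∧
        ‖L (act g (base n))‖ ≤ C₁ * ch g ^ (2 * N)) ∧
      (‖(H (act g (base n)))⁻¹‖ ≤ C₁ * ch g ^ (2 * N) ∧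
        ‖(L (act g (base n)))⁻¹‖ ≤ C₁ * ch g ^ (2 * N)) := by
    intro s hs
    obtain ⟨H, L, hp⟩ := hPN s (by omega)
    have hHH := fd_of_harn hχ hp.pair.metH hp.harnH
    have hLL := fd_of_harn hχ hp.pair.metL hp.harnL
    have hLH := fd_of_energy hχ (by omega : n < s) hp.pair.metH hp.pair.metL hHH
      (lt_of_le_of_lt hp.energy ENNReal.ofReal_lt_top)
    obtain ⟨t, ht, hN⟩ := h1 s (by omega) H L hp.pair hLL hLH hp.energy
    refine ⟨_, _, hN, ?_⟩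
    obtain ⟨C', a1, a2, a3, a4⟩ := hp.adm
    have hCC : 0 ≤ C' := adm_nonneg a1
    set K : ℝ := (|t| + |t⁻¹|) * C' with hK
    have hK1 : |t| * C' ≤ K := mul_le_mul_of_nonneg_right (by linarith [abs_nonneg t⁻¹]) hCC
    have hK2 : |t⁻¹| * C' ≤ K := mul_le_mul_of_nonneg_right (by linarith [abs_nonneg t]) hCC
    have b1 := adm_mono (adm_smul a1 t) hK1
    have b2 := adm_mono (adm_smul a2 t) hK1
    have b3 := adm_mono (adm_inv_smul a3 ht) hK2
    have b4 := adm_mono (adm_inv_smul a4 ht) hK2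
    have b5 := adm_iv_iv hN.pair.metH b1
    have b6 := adm_iv_iv hN.pair.metL b2
    have k1 := grow_smul (H := H) (L := L) ht hp.up
    have k2 := grow_inv_smul (H := H) (L := L) ht hp.dn
    have hN' := hN.inv
    have m1 := h2 Γ ρ χ C₀ s _ _ hN
    have m2 := h2 Γ (dual ρ) χ C₀ s _ _ hN'
    have q1 := h4 Γ ρ s (by omega) (fun v => (t : ℂ) • H v) (fun v => (t : ℂ) • L v) hN.pair
      ⟨K, b1, b2, b3, b4⟩
    have q2 := h4 Γ (dual ρ) s (by omega) (fun v => ((t : ℂ) • H v)⁻¹)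
      (fun v => ((t : ℂ) • L v)⁻¹) hN'.pair ⟨K, b3, b4, b5, b6⟩
    have u1 := q1 k1 m1
    have u2 := q2 k2 m2
    have u3 := bounds_of_trace (H := fun v => (t : ℂ) • H v) (L := fun v => (t : ℂ) • L v)
      hN.pair.metH hN.pair.metL u1 u2
    intro g
    exact u3 g
  choose H L hN hb using fun j => key (lev S j) (hlev j)
  obtain ⟨C', F, hF⟩ := exists_limit_of hχ hC₀ hC₁ (by omega : n + N + 1 ≤ S) hN hb
  exact ⟨N, C', F, hF⟩

end Pool.Agent.Lib.MP_5d4057_al.NU
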