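import Pool.Agent.Lib.MP_5d4057_al.NU.LipN1
import Pool.Agent.Lib.MP_5d4057_al.HM.LipF
import Pool.Agent.Lib.MP_5d4057_al.HM.LipP
import Pool.Agent.Lib.MP_5d4057_al.HM.LipR

/-! Regularity of the limit for lattices, part 2 (blueprint h37_nu, A15). -/

namespace Pool.Agent.Lib.MP_5d4057_al.NU

open Matrix MeasureTheory Filter Topology Pool.Agent.Lib.MP_5d4057_al
  Pool.Agent.Lib.MP_5d4057_al.Hyb Pool.Agent.Lib.MP_5d4057_al.HM

open scoped ComplexOrder MatrixOrder Matrix.Norms.L2Operator ENNReal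

variable {n m : ℕ}

variable {Γ : Subgroup (SUGroup n)} {χ : SUGroup n → ℝ}

variable {ρ : Γ →* Mat m} {N : ℕ} {C : ℝ} {F : Vec n → Mat m}

/-- `lint_sig` for a fixed radius. -/
private theorem lsig (hΓ : Lat Γ χ) (hF : LimN ρ χ N C F) (T : ℝ) :
    ∃ M : ℝ, 0 ≤ M ∧ ∀ (a : SUGroup n) (r : ℝ), 0 ≤ r → r ≤ 1 → ‖a.toMatrix - 1‖ ≤ r →
      ∫⁻ g, ib T g * ENNReal.ofReal (sig (F (act g (base n))) (F (act (a * g) (base n)))) ∂(mu n) ≤
        ENNReal.ofReal (M * r ^ 2) := by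
  have hL := hF.limMet hΓ
  obtain ⟨M, hM0, hM⟩ := hF.dq hΓ T
  obtain ⟨R, hR1, hR⟩ := hL.dT_bound (max T (4 * T))
  refine ⟨m * R ^ 2 * M, by positivity, fun a r hr0 hr1 har => ?_⟩
  have h1 : ∀ g, ib T g * ENNReal.ofReal (sig (F (act g (base n))) (F (act (a * g) (base n)))) ≤
      ENNReal.ofReal (m * R ^ 2) * (ib T g * Dq F g (a * g)) := by
    intro g
    by_cases hg : ch g ≤ T
    · have h2 := lp_ch_four (har.trans hr1) g
      have h3 : ch g ≤ max T (4 * T) := hg.trans (le_max_left _ _)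
      have h4 : ch (a * g) ≤ max T (4 * T) := by
        refine le_trans ?_ (le_max_right _ _)
        linarith
      have h5 := sig_le_dT (hL.opos g) (hL.opos (a * g)) hR1 (hR g h3).1 (hR g h3).2 (hR _ h4).1
        (hR _ h4).2
      rw [mul_left_comm]
      refine mul_le_mul_right ?_ _
      unfold Dq
      rw [← ENNReal.ofReal_mul (by positivity)]
      exact ENNReal.ofReal_le_ofReal h5
    · have : ib T g = 0 := by unfold ib; rw [if_neg hg]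
      rw [this]; simp
  calc ∫⁻ g, ib T g * ENNReal.ofReal (sig (F (act g (base n))) (F (act (a * g) (base n)))) ∂(mu n)
      ≤ ∫⁻ g, ENNReal.ofReal (m * R ^ 2) * (ib T g * Dq F g (a * g)) ∂(mu n) := lintegral_mono h1
    _ = ENNReal.ofReal (m * R ^ 2) * ∫⁻ g, (ib T g * Dq F g (a * g)) ∂(mu n) :=
        lintegral_const_mul' _ _ ENNReal.ofReal_ne_top
    _ ≤ ENNReal.ofReal (m * R ^ 2) * ENNReal.ofReal (M * r ^ 2) := by
        gcongr
        exact hM a r hr0 hr1 har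
    _ = _ := by rw [← ENNReal.ofReal_mul (by positivity), mul_assoc _ M]

/-- `LipF.lint_sq`. -/
theorem LimN.sq (hΓ : Lat Γ χ) (hF : LimN ρ χ N C F) (T : ℝ) :
    ∃ M : ℝ, 0 ≤ M ∧ ∀ (a : SUGroup n) (r : ℝ), 0 ≤ r → r ≤ 1 → ‖a.toMatrix - 1‖ ≤ r →
      ∫⁻ g, ib T g * ENNReal.ofReal (‖F (act (a * g) (base n)) - F (act g (base n))‖ ^ 2) ∂(mu n) ≤
          ENNReal.ofReal (M * r ^ 2) ∧
      ∫⁻ g, ib T g * ENNReal.ofReal (‖(F (act (a * g) (base n)))⁻¹ - (F (act g (base n)))⁻¹‖ ^ 2)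
        ∂(mu n) ≤ ENNReal.ofReal (M * r ^ 2) := by
  have hL := hF.limMet hΓ
  obtain ⟨M, hM0, hM⟩ := lsig hΓ hF T
  obtain ⟨R, hR1, hR⟩ := hL.dT_bound (max T (4 * T))
  have hR0 : 0 < R := by linarith
  refine ⟨R ^ 2 * M, by positivity, fun a r hr0 hr1 har => ?_⟩
  have key : ∀ G : SUGroup n → ℝ, (∀ g, ch g ≤ T → G g ≤
      R ^ 2 * sig (F (act g (base n))) (F (act (a * g) (base n)))) →
      ∫⁻ g, ib T g * ENNReal.ofReal (G g) ∂(mu n) ≤ ENNReal.ofReal (R ^ 2 * M * r ^ 2) := by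
    intro G hG
    calc ∫⁻ g, ib T g * ENNReal.ofReal (G g) ∂(mu n)
        ≤ ∫⁻ g, ENNReal.ofReal (R ^ 2) * (ib T g * ENNReal.ofReal (sig (F (act g (base n)))
          (F (act (a * g) (base n))))) ∂(mu n) := by
          refine lintegral_mono fun g => ?_
          by_cases hg : ch g ≤ T
          · rw [mul_left_comm]
            refine mul_le_mul_right ?_ _
            rw [← ENNReal.ofReal_mul (by positivity)]
            exact ENNReal.ofReal_le_ofReal (hG g hg)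
          · have : ib T g = 0 := by unfold ib; rw [if_neg hg]
            simp only [this, zero_mul, mul_zero, le_refl]
      _ = ENNReal.ofReal (R ^ 2) * ∫⁻ g, (ib T g * ENNReal.ofReal (sig (F (act g (base n)))
          (F (act (a * g) (base n))))) ∂(mu n) := lintegral_const_mul' _ _ ENNReal.ofReal_ne_top
      _ ≤ ENNReal.ofReal (R ^ 2) * ENNReal.ofReal (M * r ^ 2) := by
          gcongr; exact hM a r hr0 hr1 har
      _ = _ := by rw [← ENNReal.ofReal_mul (by positivity), mul_assoc]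
  have hb : ∀ g, ch g ≤ T → (ch g ≤ max T (4 * T) ∧ ch (a * g) ≤ max T (4 * T)) := by
    intro g hg
    have h2 := lp_ch_four (har.trans hr1) g
    exact ⟨hg.trans (le_max_left _ _), le_trans (by linarith) (le_max_right _ _)⟩
  constructor
  · refine key _ fun g hg => ?_
    obtain ⟨h3, h4⟩ := hb g hg
    exact norm_sub_sq_le (hL.opos g) (hL.opos (a * g)) hR0 (hR g h3).1 (hR _ h4).1
  · refine key _ fun g hg => ?_
    obtain ⟨h3, h4⟩ := hb g hg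
    rw [← sig_inv (hL.opos g) (hL.opos (a * g))]
    exact norm_sub_sq_le (hL.opos g).inv (hL.opos (a * g)).inv hR0 (hR g h3).2 (hR _ h4).2

/-- `LipF.exists_moll_ae`. -/
theorem LimN.moll (hΓ : Lat Γ χ) (hF : LimN ρ χ N C F) :
    ∃ Φ : ℕ → Mat (n + 1) → ℝ, (∀ k, Ax.Mo n (Φ k)) ∧
      (∀ k A, (1 / 2 : ℝ) ^ k < ‖A - 1‖ → Φ k A = 0) ∧
      (∀ᵐ g ∂(mu n), Tendsto (fun k => lav (Φ k) F (act g (base n))) atTop
        (𝓝 (F (act g (base n))))) ∧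
      ∀ᵐ g ∂(mu n), Tendsto (fun k => lav (Φ k) (fun v => (F v)⁻¹) (act g (base n))) atTop
        (𝓝 (F (act g (base n)))⁻¹) := by
  have hL := hF.limMet hΓ
  choose Φ hΦ using fun k : ℕ => exists_moll n (ε := (1 / 2 : ℝ) ^ k) (by positivity)
  have hle : ∀ k : ℕ, (1 / 2 : ℝ) ^ k ≤ 1 := fun k => pow_le_one₀ (by norm_num) (by norm_num)
  have key : ∀ G : Vec n → Mat m, Homog G → Adm N C G → (∀ T : ℝ, ∃ M : ℝ, 0 ≤ M ∧
      ∀ (a : SUGroup n) (r : ℝ), 0 ≤ r → r ≤ 1 → ‖a.toMatrix - 1‖ ≤ r →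
      ∫⁻ g, ib T g * ENNReal.ofReal (‖G (act (a * g) (base n)) - G (act g (base n))‖ ^ 2) ∂(mu n) ≤
          ENNReal.ofReal (M * r ^ 2)) →
      ∀ᵐ g ∂(mu n), Tendsto (fun k => lav (Φ k) G (act g (base n))) atTop
        (𝓝 (G (act g (base n)))) := by
    intro G hG hA hM
    have h1 : ∀ᵐ g ∂(mu n), Tendsto (fun k => ENNReal.ofReal
        ‖lav (Φ k) G (act g (base n)) - G (act g (base n))‖) atTop (𝓝 0) := by
      refine lf_ae (fun k => ?_) fun T => ?_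
      · exact ((continuous_orb (lav_contDiffOn (hΦ k).1 hA).continuousOn).aestronglyMeasurable.sub
          hA.meas).norm.aemeasurable.ennreal_ofReal
      · obtain ⟨M, hM0, hM'⟩ := hM T
        obtain ⟨K, hK0, hK⟩ := lf_lint hG hA T hM0 hM'
        exact ⟨K, hK0, fun k => hK (Φ k) (hΦ k).1 (hΦ k).2.1 _ (by positivity) (hle k) (hΦ k).2.2⟩
    filter_upwards [h1] with g hg
    rw [tendsto_iff_norm_sub_tendsto_zero]
    have h2 := (ENNReal.tendsto_toReal (a := 0) ENNReal.zero_ne_top).comp hg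
    simpa only [Function.comp_def, ENNReal.toReal_ofReal (norm_nonneg _), ENNReal.toReal_zero]
      using h2
  refine ⟨Φ, fun k => ⟨(hΦ k).1, (hΦ k).2.1, fun A hA => (hΦ k).2.2 A (lt_of_le_of_lt (hle k) hA)⟩,
    fun k => (hΦ k).2.2, ?_, ?_⟩
  · refine key F hL.hom hL.adm fun T => ?_
    obtain ⟨M, hM0, hM⟩ := LimN.sq hΓ hF T
    exact ⟨M, hM0, fun a r h1 h2 h3 => (hM a r h1 h2 h3).1⟩
  · refine key (fun v => (F v)⁻¹) hL.hom_inv hL.adm_inv fun T => ?_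
    obtain ⟨M, hM0, hM⟩ := LimN.sq hΓ hF T
    exact ⟨M, hM0, fun a r h1 h2 h3 => (hM a r h1 h2 h3).2⟩

/-- The two point function is below its averages (`Lip.sig_le_P`; in `HM/LipP` without `Coc`, from the mollifiers). -/
theorem LimN.sig_le_P (hn : 1 ≤ n) (hΓ : Lat Γ χ) (hF : LimN ρ χ N C F) : ∃ t₀ : ℕ, ∀ t,
    t₀ ≤ t → ∀ a : SUGroup n, ∀ᵐ g ∂(mu n),
      sig (F (act g (base n))) (F (act (a * g) (base n))) ≤
        P t (fun v => sig (F v) (F (act a v))) (act g (base n)) := by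
  obtain ⟨t₀, h⟩ := sig_le_P_of (ρ := ρ) (χ := χ) hn N
  obtain ⟨Φ, h1, _, h3, h4⟩ := LimN.moll hΓ hF
  exact ⟨t₀, fun t ht a => h t ht C F (hF.limMet hΓ) ⟨Φ, h1, h3, h4⟩ a⟩

/-- `LipE.ae_lip`. -/
theorem LimN.ae_lip (hn : 1 ≤ n) (hΓ : Lat Γ χ) (hF : LimN ρ χ N C F) :
    ∃ (N₁ : ℕ) (C₁ : ℝ), 0 ≤ C₁ ∧ ∀ a : SUGroup n, ‖a.toMatrix - 1‖ ≤ 1 → ∀ᵐ g ∂(mu n),
      ‖F (act (a * g) (base n)) - F (act g (base n))‖ ≤
        C₁ * ‖a.toMatrix - 1‖ * ch g ^ (2 * N₁) := by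
  have hL := hF.limMet hΓ
  obtain ⟨t₀, h⟩ := LimN.sig_le_P hn hΓ hF
  obtain ⟨t₁, h'⟩ := hF.P_sig_le hΓ
  obtain ⟨t, ht⟩ : ∃ t : ℕ, t = t₀ + t₁ := ⟨_, rfl⟩
  obtain ⟨M, hM0, hM⟩ := h' t (by omega)
  refine ⟨N + t, (|C| + 1) * 4 ^ (2 * N) * (M + 1), by positivity, fun a ha => ?_⟩
  filter_upwards [h t (by omega) a] with g hg
  have h1 := hg.trans (hM a ha g)
  have hg1 := one_le_ch g
  have hg0 := ch_pos g
  obtain ⟨R, hR⟩ : ∃ R : ℝ, R = (|C| + 1) * (4 * ch g) ^ (2 * N) := ⟨_, rfl⟩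
  have hR0 : 0 < R := by rw [hR]; positivity
  have hbd : ∀ y : SUGroup n, ch y ≤ 4 * ch g → ‖F (act y (base n))‖ ≤ R := by
    intro y hy
    refine (hF.bound y).trans ?_
    rw [hR]
    exact mul_le_mul ((le_abs_self C).trans (by linarith)) (pow_le_pow_left₀ (ch_pos y).le hy _)
      (pow_nonneg (ch_pos y).le _) (by positivity)
  have h2 := norm_sub_sq_le (hL.opos g) (hL.opos (a * g)) hR0 (hbd g (by linarith))
    (hbd _ (lp_ch_four ha g))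
  obtain ⟨δ, hδ⟩ : ∃ δ : ℝ, δ = ‖a.toMatrix - 1‖ := ⟨_, rfl⟩
  have hδ0 : 0 ≤ δ := by rw [hδ]; exact norm_nonneg _
  rw [← hδ] at h1 ⊢
  have h3 : ‖F (act (a * g) (base n)) - F (act g (base n))‖ ^ 2 ≤
      (R * (M + 1) * δ * ch g ^ (2 * t)) ^ 2 := by
    refine h2.trans ((mul_le_mul_of_nonneg_left h1 (by positivity)).trans ?_)
    have h4 : M ≤ (M + 1) ^ 2 := by nlinarith
    have h5 : ch g ^ (2 * t) ≤ (ch g ^ (2 * t)) ^ 2 := by
      have : 1 ≤ ch g ^ (2 * t) := one_le_pow₀ hg1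
      nlinarith
    calc R ^ 2 * (M * δ ^ 2 * ch g ^ (2 * t))
        ≤ R ^ 2 * ((M + 1) ^ 2 * δ ^ 2 * (ch g ^ (2 * t)) ^ 2) := by gcongr
      _ = _ := by ring
  have h6 := (pow_le_pow_iff_left₀ (norm_nonneg _) (by positivity) (by norm_num)).1 h3
  refine h6.trans (le_of_eq ?_)
  rw [hR, mul_pow, show 2 * (N + t) = 2 * N + 2 * t by ring, pow_add]
  ring

/-- RESULT (`LipR.exists_rep`). -/
theorem exists_lip_N (hn : 1 ≤ n) (hΓ : Lat Γ χ) (hF : LimN ρ χ N C F) :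
    ∃ F' : Vec n → Mat m, Met ρ F' ∧
      (∀ᵐ g ∂(mu n), F' (act g (base n)) = F (act g (base n))) ∧
      ∃ (N' : ℕ) (C' : ℝ), Adm N' C' F' ∧ Adm N' C' (fun v => (F' v)⁻¹) ∧
        ∀ a g : SUGroup n, ‖a.toMatrix - 1‖ ≤ 1 →
          ‖F' (act (a * g) (base n)) - F' (act g (base n))‖ ≤
            C' * ‖a.toMatrix - 1‖ * ch g ^ (2 * N') := by
  obtain ⟨N₁, C₁, _, h⟩ := LimN.ae_lip hn hΓ hF
  exact exists_rep hF.hom hF.equi hF.pos hF.meas hF.bound hF.boundInv h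

end Pool.Agent.Lib.MP_5d4057_al.NU
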