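import Pool.Agent.Lib.MP_5d4057_al.NU.LevN4
import Pool.Agent.Lib.MP_5d4057_al.NU.Limit
import Pool.Agent.Lib.MP_5d4057_al.NU.LipN2
import Pool.Agent.Lib.MP_5d4057_al.NU.BochN5
import Pool.Agent.Lib.MP_5d4057_al.HM.Sub
import Pool.Agent.Lib.MP_5d4057_al.HM.RegC
import Pool.Agent.Lib.MP_5d4057_al.HM.AppDefs

/-! Existence of pluriharmonic metrics for lattices (blueprint h37_nu, part A). -/

namespace Pool.Agent.Lib.MP_5d4057_al.NU

open Matrix MeasureTheory Filter Topology Pool.Agent.Lib.MP_5d4057_al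
  Pool.Agent.Lib.MP_5d4057_al.Hyb Pool.Agent.Lib.MP_5d4057_al.HM

open scoped ComplexOrder MatrixOrder Matrix.Norms.L2Operator ENNReal

variable {n m : ℕ}

variable {Γ : Subgroup (SUGroup n)} {χ : SUGroup n → ℝ}

private theorem th_pow_le {N N₀ : ℕ} {C C₀ a t : ℝ} (hN : N ≤ N₀) (hC : C ≤ C₀) (hC₀ : 0 ≤ C₀)
    (ht : 1 ≤ t) (h : a ≤ C * t ^ (2 * N)) : a ≤ C₀ * t ^ (2 * N₀) := by
  have h0 : (0 : ℝ) ≤ t ^ (2 * N) := pow_nonneg (zero_le_one.trans ht) _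
  exact h.trans ((mul_le_mul_of_nonneg_right hC h0).trans
    (mul_le_mul_of_nonneg_left (pow_le_pow_right₀ ht (Nat.mul_le_mul_left 2 hN)) hC₀))

private theorem th_adm_mono {E : Type} [NormedAddCommGroup E] [NormedSpace ℝ E] {N N₀ : ℕ}
    {C C₀ : ℝ} (hN : N ≤ N₀) (hC : C ≤ C₀) (hC₀ : 0 ≤ C₀) {f : Vec n → E} (h : Adm N C f) :
    Adm N₀ C₀ f :=
  ⟨h.meas, fun y => th_pow_le hN hC hC₀ (one_le_ch y) (h.bound y)⟩

private theorem th_approx_mono {N N₀ : ℕ} {C C₀ : ℝ} (hN : N ≤ N₀) (hC : C ≤ C₀) (hC₀ : 0 ≤ C₀)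
    {s : ℕ → ℕ} {M : ℕ → Vec n → Mat m} {F F' : Vec n → Mat m} (h : Approx N C s M F)
    (hae : ∀ᵐ g ∂(mu n), F' (act g (base n)) = F (act g (base n))) : Approx N₀ C₀ s M F' where
  tends := h.tends
  hom := h.hom
  cont := h.cont
  pos := h.pos
  bound := fun j g => th_pow_le hN hC hC₀ (one_le_ch g) (h.bound j g)
  boundInv := fun j g => th_pow_le hN hC hC₀ (one_le_ch g) (h.boundInv j g)
  sub := h.sub
  lim := by
    filter_upwards [h.lim, hae] with g h1 h2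
    rw [h2]
    exact h1

/-- The limit metric in its Lipschitz version satisfies the hypotheses of the regularity theory. -/
theorem lipMet_of (hn : 1 ≤ n) {ρ : Γ →* Mat m} {F F' : Vec n → Mat m} {N N' : ℕ} {C C' : ℝ}
    (hsub : ∃ s M, Approx N C s M F) (hsub' : ∃ s M, Approx N C s M fun v => (F v)⁻¹)
    (hM : Met ρ F') (hae : ∀ᵐ g ∂(mu n), F' (act g (base n)) = F (act g (base n)))
    (hadm : Adm N' C' F') (hadmi : Adm N' C' (fun v => (F' v)⁻¹))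
    (hlip : ∀ a g : SUGroup n, ‖a.toMatrix - 1‖ ≤ 1 →
      ‖F' (act (a * g) (base n)) - F' (act g (base n))‖ ≤
        C' * ‖a.toMatrix - 1‖ * ch g ^ (2 * N')) :
    ∃ (N₀ : ℕ) (C₀ : ℝ), LipMet n m N₀ C₀ F' := by
  obtain ⟨N₀, hN₀⟩ : ∃ N₀ : ℕ, N₀ = max N N' := ⟨_, rfl⟩
  obtain ⟨C₀, hC₀⟩ : ∃ C₀ : ℝ, C₀ = max 0 (max C C') := ⟨_, rfl⟩
  have hN1 : N ≤ N₀ := hN₀ ▸ le_max_left _ _
  have hN2 : N' ≤ N₀ := hN₀ ▸ le_max_right _ _
  have hC0 : 0 ≤ C₀ := hC₀ ▸ le_max_left _ _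
  have hC1 : C ≤ C₀ := hC₀ ▸ (le_max_left _ _).trans (le_max_right _ _)
  have hC2 : C' ≤ C₀ := hC₀ ▸ (le_max_right _ _).trans (le_max_right _ _)
  have hA : Adm N₀ C₀ F' := th_adm_mono hN2 hC2 hC0 hadm
  have hAi : Adm N₀ C₀ (fun v => (F' v)⁻¹) := th_adm_mono hN2 hC2 hC0 hadmi
  have hcone : ∀ g : SUGroup n, act g (base n) ∈ Cone n := fun g => orbit_mem g
  have hinv : ∀ v ∈ Cone n, ((F' v)⁻¹)⁻¹ = F' v := fun v hv =>
    Matrix.nonsing_inv_nonsing_inv _ ((Matrix.isUnit_iff_isUnit_det _).1 (hM.pos v hv).isUnit)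
  have hAii : Adm N₀ C₀ (fun v => ((F' v)⁻¹)⁻¹) := by
    refine ⟨?_, fun y => ?_⟩
    · have h : (fun y : SUGroup n => ((F' (act y (base n)))⁻¹)⁻¹) =
          fun y : SUGroup n => F' (act y (base n)) := by
        funext y
        exact hinv _ (hcone y)
      rw [h]
      exact hA.meas
    · rw [hinv _ (hcone y)]
      exact hA.bound y
  exact ⟨N₀, C₀,
    { hom := hM.hom
      cont := hM.cont
      pos := hM.pos
      adm := hA
      admInv := hAi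
      lip := fun a g ha => by
        refine (hlip a g ha).trans ?_
        have h0 : 0 ≤ ‖a.toMatrix - 1‖ := norm_nonneg _
        have h1 : (0 : ℝ) ≤ ch g ^ (2 * N') := pow_nonneg (zero_le_one.trans (one_le_ch g)) _
        exact mul_le_mul (mul_le_mul_of_nonneg_right hC2 h0)
          (pow_le_pow_right₀ (one_le_ch g) (Nat.mul_le_mul_left 2 hN2)) h1 (mul_nonneg hC0 h0)
      sub := fun Φ hΦ hΦ1 v hv => by
        obtain ⟨s, M, hs⟩ := hsub
        exact lap_ge_en hn (th_approx_mono hN1 hC1 hC0 hs hae) hM.hom hA hAi hM.pos hΦ hΦ1 hv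
      sub' := fun Φ hΦ hΦ1 v hv => by
        obtain ⟨s, M, hs⟩ := hsub'
        have hae' : ∀ᵐ g ∂(mu n), (fun v => (F' v)⁻¹) (act g (base n)) =
            (fun v => (F v)⁻¹) (act g (base n)) := by
          filter_upwards [hae] with g h2
          simp only [h2]
        have h3 : Approx N₀ C₀ s M (fun v => (F' v)⁻¹) := th_approx_mono hN1 hC1 hC0 hs hae'
        have h4 : Homog (fun v => (F' v)⁻¹) := by
          intro c hc w hw
          simp only [hM.hom c hc w hw]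
        have h5 : ∀ w ∈ Cone n, ((fun v => (F' v)⁻¹) w).PosDef := fun w hw => (hM.pos w hw).inv
        exact lap_ge_en (F := fun v => (F' v)⁻¹) hn h3 h4 hAi hAii h5 hΦ hΦ1 hv }⟩

/-- The displacement bound for a function which is equal almost everywhere. -/
theorem dist_ae {F F' : Vec n → Mat m} {C : ℝ}
    (hae : ∀ᵐ g ∂(mu n), F' (act g (base n)) = F (act g (base n)))
    (hd : ∀ x : SUGroup n, LI χ (fun g => ENNReal.ofReal
      (dT (F (act g (base n))) (F (act (g * x) (base n))) ^ 2)) ≤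
        ENNReal.ofReal (C * Real.log (wt x) ^ 2)) (x : SUGroup n) :
    LI χ (fun g => ENNReal.ofReal
      (dT (F' (act g (base n))) (F' (act (g * x) (base n))) ^ 2)) ≤
        ENNReal.ofReal (C * Real.log (wt x) ^ 2) := by
  refine le_trans (le_of_eq ?_) (hd x)
  have h2 : ∀ᵐ g ∂(mu n), F' (act (g * x) (base n)) = F (act (g * x) (base n)) := by
    have h3 := (measurePreserving_mul_right (mu n) x).quasiMeasurePreserving.ae hae
    exact h3
  unfold LI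
  refine lintegral_congr_ae ?_
  filter_upwards [hae, h2] with g h3 h4
  rw [h3, h4]

/-- Monotonicity in the constants. -/
theorem LipMet.mono' {N : ℕ} {C C' : ℝ} {F : Vec n → Mat m} (h : LipMet n m N C F)
    (hC : C ≤ C') : LipMet n m N C' F where
  hom := h.hom
  cont := h.cont
  pos := h.pos
  adm := ⟨h.adm.meas, fun g => (h.adm.bound g).trans
    (mul_le_mul_of_nonneg_right hC (pow_nonneg (ch_pos g).le _))⟩
  admInv := ⟨h.admInv.meas, fun g => (h.admInv.bound g).trans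
    (mul_le_mul_of_nonneg_right hC (pow_nonneg (ch_pos g).le _))⟩
  lip := fun a g ha => (h.lip a g ha).trans (mul_le_mul_of_nonneg_right
    (mul_le_mul_of_nonneg_right hC (norm_nonneg _)) (pow_nonneg (ch_pos g).le _))
  sub := h.sub
  sub' := h.sub'

/-- THEOREM H for lattices. Assembly: `exists_PN`, `exists_limit_N`, `exists_lip_N`, `lap_ge_en`, `reg_two` (as in `HM.Thm`),
`pluriharmonicN`. -/
theorem exists_plur_N (hn : 1 ≤ n) (hm : 0 < m) (hΓ : Lat Γ χ) {T : ℝ} {y : Vec n → ℝ}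
    (hy : Ht Γ T y) (ρ : Γ →* Mat m) {N₀ : ℕ} {C₀ : ℝ} (hg : Grow ρ N₀ C₀)
    (hρ : Submodule.span ℂ (Set.range ρ) = ⊤) :
    ∃ F : Vec n → Mat m, Met ρ F ∧ (∃ (N : ℕ) (C : ℝ), LipMet n m N C F) ∧
      ContDiffOn ℝ 2 F (Cone n) ∧
      (∀ v ∈ Cone n, Lap F v = en F v) ∧
      (∀ v ∈ Cone n, ∀ ξ η : Vec n, dzb (fun w => dz F w ξ) v η =
        (1 / 2 : ℂ) • (dzb F v η * (F v)⁻¹ * dz F v ξ + dz F v ξ * (F v)⁻¹ * dzb F v η)) ∧
      ∀ v ∈ Cone n, ∀ ξ η : Vec n,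
        dz F v ξ * (F v)⁻¹ * dz F v η = dz F v η * (F v)⁻¹ * dz F v ξ := by
  obtain ⟨F₀, N, s₀, C, hc, hne, hC, hPN⟩ := exists_PN hn hm hΓ hy ρ hg hρ
  obtain ⟨N₁, C₁, F, hF⟩ := exists_limit_N hn hm hΓ ρ hρ hc hne hC hPN
  obtain ⟨F', hM, hae, N₂, C₂, h1, h2, h3⟩ := exists_lip_N hn hΓ hF
  obtain ⟨N₃, C₃, hL⟩ := lipMet_of hn hF.sub hF.sub' hM hae h1 h2 h3
  obtain ⟨hcd, hh⟩ := reg_two hn hL
  have hD := dist_ae (χ := χ) hae hF.dist
  obtain ⟨p1, p2⟩ := pluriharmonicN hn hΓ hy hM (LipMet.mono' hL (le_max_left C₃ C₁))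
    (fun x => (hD x).trans (ENNReal.ofReal_le_ofReal
      (mul_le_mul_of_nonneg_right (le_max_right C₃ C₁) (sq_nonneg _))))
  exact ⟨F', hM, ⟨N₃, C₃, hL⟩, hcd, hh, p1, p2⟩

/-- In the form of the application (`dz_dzb`, as in `HM.AppHarm`). -/
theorem exists_harm_N (hn : 1 ≤ n) (hm : 0 < m) (hΓ : Lat Γ χ) {T : ℝ} {y : Vec n → ℝ}
    (hy : Ht Γ T y) (ρ : Γ →* Mat m) {N₀ : ℕ} {C₀ : ℝ} (hg : Grow ρ N₀ C₀)
    (hρ : Submodule.span ℂ (Set.range ρ) = ⊤) : ∃ F : Vec n → Mat m, Harm F ∧ Equi ρ F ∧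
      ∃ (N : ℕ) (C : ℝ), LipMet n m N C F := by
  obtain ⟨F, hM, hL, hcd, -, p1, p2⟩ := exists_plur_N hn hm hΓ hy ρ hg hρ
  refine ⟨F, ⟨hcd, hM.hom, hM.pos, fun v hv ξ η => ?_, p2⟩, hM.equi, hL⟩
  rw [dz_dzb (hcd.contDiffAt ((isOpen_cone n).mem_nhds hv))]
  exact p1 v hv ξ η

end Pool.Agent.Lib.MP_5d4057_al.NU
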