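import Pool.Agent.Lib.MP_5d4057_al.NU.CuspDefs
import Pool.Agent.Lib.MP_5d4057_al.Hyb.Rk

/-! The action on isotropic lines, heights, stabilisers (elementary facts for part C). -/

namespace Pool.Agent.Lib.MP_5d4057_al.NU

open Matrix MeasureTheory Filter Topology Pool.Agent.Lib.MP_5d4057_al
  Pool.Agent.Lib.MP_5d4057_al.Hyb Pool.Agent.Lib.MP_5d4057_al.HM
  Pool.Agent.Lib.MP_5d4057_al.HM.Kak

open scoped ComplexOrder MatrixOrder Matrix.Norms.L2Operator ENNReal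

variable {n m : ℕ}

private theorem ca_cauchy (v w : Fin n → ℂ) :
    ‖∑ i : Fin n, v i * w i‖ ≤ Real.sqrt (nq v) * Real.sqrt (nq w) := by
  have h1 : ‖∑ i : Fin n, v i * w i‖ ≤ ∑ i : Fin n, ‖v i‖ * ‖w i‖ := by
    refine (norm_sum_le _ _).trans (le_of_eq ?_)
    refine Finset.sum_congr rfl fun i _ => ?_
    rw [norm_mul]
  refine h1.trans ?_
  rw [nq, nq, ← Real.sqrt_mul (Finset.sum_nonneg fun _ _ => by positivity)]
  apply Real.le_sqrt_of_sq_le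
  exact Finset.sum_mul_sq_le_sq_mul_sq _ _ _

private theorem ca_herm_base (w : Vec n) : herm (base n) w = -w (Fin.last n) := by
  rw [herm_eq, base_last, Finset.sum_eq_zero]
  · simp
  · intro i _
    rw [base_castSucc]
    simp

theorem pe_last (ξ : Fin n → ℂ) : pe ξ (Fin.last n) = 1 := by
  rw [pe, Pi.add_apply, vec_last, base_last, zero_add]

theorem pe_castSucc (ξ : Fin n → ℂ) (i : Fin n) : pe ξ i.castSucc = ξ i := by
  rw [pe, Pi.add_apply, vec_castSucc, base_castSucc, add_zero]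

theorem pe_ne_zero (ξ : Fin n → ℂ) : pe ξ ≠ 0 := by
  intro h
  have h1 := congrFun h (Fin.last n)
  rw [pe_last, Pi.zero_apply] at h1
  exact one_ne_zero h1

theorem nq_neg (ξ : Fin n → ℂ) : nq (-ξ) = nq ξ := by
  rw [nq, nq]
  refine Finset.sum_congr rfl fun i _ => ?_
  rw [Pi.neg_apply, norm_neg]

theorem neg_ne_self {ξ : Fin n → ℂ} (hξ : nq ξ = 1) : -ξ ≠ ξ := by
  intro h
  have h0 : ξ = 0 := by
    funext i
    have h1 : -ξ i = ξ i := congrFun h i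
    have h2 : (2 : ℂ) * ξ i = 0 := by linear_combination -h1
    exact (mul_eq_zero.1 h2).resolve_left two_ne_zero
  rw [h0, nq_zero] at hξ
  exact zero_ne_one hξ

theorem q_pe (ξ : Fin n → ℂ) : q (pe ξ) = nq ξ - 1 := by
  rw [q_eq, pe_last, nq, norm_one, one_pow]
  congr 1
  refine Finset.sum_congr rfl fun i _ => ?_
  rw [pe_castSucc]

theorem herm_pe (ξ η : Fin n → ℂ) : herm (pe ξ) (pe η) = ∑ i, star (ξ i) * η i - 1 := by
  rw [herm_eq, pe_last, pe_last, star_one, mul_one]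
  congr 1
  refine Finset.sum_congr rfl fun i _ => ?_
  rw [pe_castSucc, pe_castSucc]

theorem herm_base_pe (ξ : Fin n → ℂ) : herm (base n) (pe ξ) = -1 := by
  rw [ca_herm_base, pe_last]

/-- Equality case of Cauchy - Schwarz. -/
theorem herm_pe_ne {ξ η : Fin n → ℂ} (hξ : nq ξ = 1) (hη : nq η = 1) (h : ξ ≠ η) :
    herm (pe ξ) (pe η) ≠ 0 := by
  intro h0
  apply h
  rw [herm_pe, sub_eq_zero] at h0
  have h1 : nq (ξ - η) = nq ξ + nq η - 2 * (∑ i, star (ξ i) * η i).re := by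
    rw [Complex.re_sum, nq, nq, nq, Finset.mul_sum, ← Finset.sum_add_distrib,
      ← Finset.sum_sub_distrib]
    refine Finset.sum_congr rfl fun i _ => ?_
    rw [Pi.sub_apply, ← Complex.normSq_eq_norm_sq, ← Complex.normSq_eq_norm_sq,
      ← Complex.normSq_eq_norm_sq]
    simp only [Complex.normSq_apply, Complex.sub_re, Complex.sub_im, Complex.mul_re,
      Complex.star_def, Complex.conj_re, Complex.conj_im]
    ring
  rw [h0, hξ, hη, Complex.one_re] at h1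
  have h2 : nq (ξ - η) = 0 := by rw [h1]; norm_num
  funext i
  have h3 := (Finset.sum_eq_zero_iff_of_nonneg (fun _ _ => sq_nonneg _)).1 h2 i
    (Finset.mem_univ i)
  have h4 : ‖(ξ - η) i‖ = 0 := by
    exact pow_eq_zero_iff (two_ne_zero) |>.1 h3
  rw [norm_eq_zero, Pi.sub_apply, sub_eq_zero] at h4
  exact h4

theorem two_smul_base (ξ : Fin n → ℂ) : pe ξ + pe (-ξ) = (2 : ℂ) • base n := by
  funext j
  refine Fin.lastCases ?_ (fun i => ?_) j
  · rw [Pi.add_apply, pe_last, pe_last, Pi.smul_apply, base_last, smul_eq_mul]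
    norm_num
  · rw [Pi.add_apply, pe_castSucc, pe_castSucc, Pi.smul_apply, base_castSucc, Pi.neg_apply,
      smul_zero, add_neg_cancel]

/-- Every isotropic vector is a multiple of some `pe ξ`, `|ξ| = 1`. -/
theorem exists_pe {p : Vec n} (hp : p ≠ 0) (hq : q p = 0) : p (Fin.last n) ≠ 0 ∧
    ∃ ξ : Fin n → ℂ, nq ξ = 1 ∧ p = p (Fin.last n) • pe ξ := by
  have h0 : p (Fin.last n) ≠ 0 := by
    intro h
    apply hp
    rw [q_eq, h, norm_zero] at hq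
    have h1 : ∑ i : Fin n, ‖p i.castSucc‖ ^ 2 = 0 := by linarith
    funext j
    refine Fin.lastCases ?_ (fun i => ?_) j
    · exact h
    · have h3 := (Finset.sum_eq_zero_iff_of_nonneg (fun _ _ => sq_nonneg _)).1 h1 i
        (Finset.mem_univ i)
      exact norm_eq_zero.1 (pow_eq_zero_iff (two_ne_zero) |>.1 h3)
  have h2 : p = p (Fin.last n) • pe (fun i => p i.castSucc / p (Fin.last n)) := by
    funext j
    refine Fin.lastCases ?_ (fun i => ?_) j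
    · rw [Pi.smul_apply, pe_last, smul_eq_mul, mul_one]
    · rw [Pi.smul_apply, pe_castSucc, smul_eq_mul, mul_div_cancel₀ _ h0]
  refine ⟨h0, fun i => p i.castSucc / p (Fin.last n), ?_, h2⟩
  rw [h2, q_smul, q_pe] at hq
  have h3 : ‖p (Fin.last n)‖ ^ 2 ≠ 0 := pow_ne_zero _ (norm_ne_zero_iff.2 h0)
  have h4 := (mul_eq_zero.1 hq).resolve_left h3
  linarith

private theorem ca_act {ξ : Fin n → ℂ} (hξ : nq ξ = 1) (g : SUGroup n) :
    ml g ξ ≠ 0 ∧ act g (pe ξ) ≠ 0 := by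
  have h0 : act g (pe ξ) ≠ 0 := by
    intro h
    apply pe_ne_zero ξ
    have h1 := congrArg (act g⁻¹) h
    rw [← act_mul, inv_mul_cancel, act_one] at h1
    rw [h1, act, mulVec_zero]
  have h1 : q (act g (pe ξ)) = 0 := by rw [q_act, q_pe, hξ, sub_self]
  exact ⟨(exists_pe h0 h1).1, h0⟩

theorem act_pe {ξ : Fin n → ℂ} (hξ : nq ξ = 1) (g : SUGroup n) :
    act g (pe ξ) = ml g ξ • pe (mv g ξ) := by
  have h := (ca_act hξ g).1
  funext j
  refine Fin.lastCases ?_ (fun i => ?_) j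
  · rw [Pi.smul_apply, pe_last, smul_eq_mul, mul_one, ml]
  · rw [Pi.smul_apply, pe_castSucc, smul_eq_mul, mv, mul_div_cancel₀ _ h]

theorem ml_ne_zero {ξ : Fin n → ℂ} (hξ : nq ξ = 1) (g : SUGroup n) : ml g ξ ≠ 0 := (ca_act hξ g).1

theorem nq_mv {ξ : Fin n → ℂ} (hξ : nq ξ = 1) (g : SUGroup n) : nq (mv g ξ) = 1 := by
  have h := act_pe hξ g
  have h1 : q (act g (pe ξ)) = 0 := by rw [q_act, q_pe, hξ, sub_self]
  rw [h, q_smul, q_pe] at h1
  have h3 : ‖ml g ξ‖ ^ 2 ≠ 0 := pow_ne_zero _ (norm_ne_zero_iff.2 (ml_ne_zero hξ g))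
  have h4 := (mul_eq_zero.1 h1).resolve_left h3
  linarith

/-- Uniqueness. -/
theorem eq_of_act_pe {ξ η : Fin n → ℂ} {g : SUGroup n} {c : ℂ} (hξ : nq ξ = 1)
    (h : act g (pe ξ) = c • pe η) : ml g ξ = c ∧ mv g ξ = η := by
  have h1 : ml g ξ = c := by
    rw [ml, h, Pi.smul_apply, pe_last, smul_eq_mul, mul_one]
  refine ⟨h1, ?_⟩
  have h2 := ml_ne_zero hξ g
  funext i
  rw [mv, h1, h, Pi.smul_apply, pe_castSucc, smul_eq_mul]
  rw [h1] at h2
  exact mul_div_cancel_left₀ _ h2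

theorem mv_one (ξ : Fin n → ℂ) : mv (1 : SUGroup n) ξ = ξ := by
  funext i
  rw [mv, ml, act_one, pe_last, pe_castSucc, div_one]

theorem ml_one (ξ : Fin n → ℂ) : ml (1 : SUGroup n) ξ = 1 := by
  rw [ml, act_one, pe_last]

private theorem ca_mul {ξ : Fin n → ℂ} (hξ : nq ξ = 1) (g h : SUGroup n) :
    ml (g * h) ξ = ml g (mv h ξ) * ml h ξ ∧ mv (g * h) ξ = mv g (mv h ξ) := by
  apply eq_of_act_pe hξ
  rw [act_mul, act_pe hξ h, act_smul, act_pe (nq_mv hξ h) g, smul_smul, mul_comm]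

theorem mv_mul {ξ : Fin n → ℂ} (hξ : nq ξ = 1) (g h : SUGroup n) :
    mv (g * h) ξ = mv g (mv h ξ) := (ca_mul hξ g h).2

theorem ml_mul {ξ : Fin n → ℂ} (hξ : nq ξ = 1) (g h : SUGroup n) :
    ml (g * h) ξ = ml g (mv h ξ) * ml h ξ := (ca_mul hξ g h).1

theorem mv_inv_mv {ξ : Fin n → ℂ} (hξ : nq ξ = 1) (g : SUGroup n) : mv g⁻¹ (mv g ξ) = ξ := by
  rw [← mv_mul hξ, inv_mul_cancel, mv_one]

theorem mv_mv_inv {ξ : Fin n → ℂ} (hξ : nq ξ = 1) (g : SUGroup n) : mv g (mv g⁻¹ ξ) = ξ := by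
  rw [← mv_mul hξ, mul_inv_cancel, mv_one]

theorem ml_inv {ξ : Fin n → ℂ} (hξ : nq ξ = 1) (g : SUGroup n) :
    ml g⁻¹ ξ = (ml g (mv g⁻¹ ξ))⁻¹ := by
  have h := ml_mul hξ g g⁻¹
  rw [mul_inv_cancel, ml_one] at h
  exact eq_inv_of_mul_eq_one_right h.symm

theorem mem_St {ξ : Fin n → ℂ} (hξ : nq ξ = 1) {g : SUGroup n} : g ∈ St ξ ↔ mv g ξ = ξ := by
  constructor
  · rintro ⟨c, hc⟩
    exact (eq_of_act_pe hξ hc).2
  · intro h
    refine ⟨ml g ξ, ?_⟩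
    rw [act_pe hξ g, h]

theorem mem_PS {ξ : Fin n → ℂ} (hξ : nq ξ = 1) {g : SUGroup n} :
    g ∈ PS ξ ↔ mv g ξ = ξ ∧ ‖ml g ξ‖ = 1 := by
  constructor
  · rintro ⟨c, hc1, hc⟩
    refine ⟨(eq_of_act_pe hξ hc).2, ?_⟩
    rw [(eq_of_act_pe hξ hc).1, hc1]
  · rintro ⟨h, h1⟩
    refine ⟨ml g ξ, h1, ?_⟩
    rw [act_pe hξ g, h]

theorem PS_le_St (ξ : Fin n → ℂ) : PS ξ ≤ St ξ := by
  rintro g ⟨c, _, hc⟩
  exact ⟨c, hc⟩

theorem act_of_mem_St {ξ : Fin n → ℂ} (hξ : nq ξ = 1) {g : SUGroup n} (hg : g ∈ St ξ) :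
    act g (pe ξ) = ml g ξ • pe ξ := by
  rw [act_pe hξ g, (mem_St hξ).1 hg]

private theorem ca_conj {ξ : Fin n → ℂ} (hξ : nq ξ = 1) (g x : SUGroup n) :
    mv (g⁻¹ * x * g) (mv g⁻¹ ξ) = mv g⁻¹ (mv x ξ) := by
  rw [mv_mul (nq_mv hξ _), mv_mv_inv hξ, mv_mul hξ]

/-- Conjugation: the line of `ξ` seen from `g` is the line of `mv g⁻¹ ξ`. -/
theorem conj_mem_St {ξ : Fin n → ℂ} (hξ : nq ξ = 1) {g x : SUGroup n} :
    g⁻¹ * x * g ∈ St (mv g⁻¹ ξ) ↔ x ∈ St ξ := by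
  rw [mem_St (nq_mv hξ _), mem_St hξ, ca_conj hξ]
  constructor
  · intro h
    have h1 := congrArg (mv g) h
    rwa [mv_mv_inv (nq_mv hξ _), mv_mv_inv hξ] at h1
  · intro h
    rw [h]

private theorem ca_ml_conj {ξ : Fin n → ℂ} (hξ : nq ξ = 1) {g x : SUGroup n} (hx : x ∈ St ξ) :
    ml (g⁻¹ * x * g) (mv g⁻¹ ξ) = ml x ξ := by
  rw [ml_mul (nq_mv hξ _), mv_mv_inv hξ, ml_mul hξ, (mem_St hξ).1 hx, ml_inv hξ g]
  have h := ml_ne_zero (nq_mv hξ g⁻¹) g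
  field_simp

theorem conj_mem_PS {ξ : Fin n → ℂ} (hξ : nq ξ = 1) {g x : SUGroup n} :
    g⁻¹ * x * g ∈ PS (mv g⁻¹ ξ) ↔ x ∈ PS ξ := by
  rw [mem_PS (nq_mv hξ _), mem_PS hξ, ← mem_St (nq_mv hξ _), ← mem_St hξ, conj_mem_St hξ]
  constructor
  · rintro ⟨h1, h2⟩
    rw [ca_ml_conj hξ h1] at h2
    exact ⟨h1, h2⟩
  · rintro ⟨h1, h2⟩
    rw [← ca_ml_conj hξ (g := g) h1] at h2
    exact ⟨h1, h2⟩

theorem ml_conj {ξ : Fin n → ℂ} (hξ : nq ξ = 1) {g x : SUGroup n} (hx : x ∈ St ξ) :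
    ml (g⁻¹ * x * g) (mv g⁻¹ ξ) = ml x ξ := ca_ml_conj hξ hx

private theorem ca_cont (v : Vec n) : Continuous fun g : SUGroup n => act g v := by
  unfold act
  exact (continuous_toMatrix n).matrix_mulVec continuous_const

private theorem ca_mlc (ξ : Fin n → ℂ) : Continuous fun g : SUGroup n => ml g ξ :=
  (continuous_apply (Fin.last n)).comp (ca_cont (pe ξ))

private theorem ca_eq {ξ : Fin n → ℂ} {g : SUGroup n} {c : ℂ} (h : act g (pe ξ) = c • pe ξ) :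
    ml g ξ = c := by
  rw [ml, h, Pi.smul_apply, pe_last, smul_eq_mul, mul_one]

theorem isClosed_St (ξ : Fin n → ℂ) :
    IsClosed ((St ξ : Subgroup (SUGroup n)) : Set (SUGroup n)) := by
  have h : ((St ξ : Subgroup (SUGroup n)) : Set (SUGroup n)) =
      {g | act g (pe ξ) = ml g ξ • pe ξ} := by
    ext g
    constructor
    · rintro ⟨c, hc⟩
      change act g (pe ξ) = ml g ξ • pe ξ
      rw [ca_eq hc, hc]
    · intro h
      exact ⟨ml g ξ, h⟩
  rw [h]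
  exact isClosed_eq (ca_cont _) ((ca_mlc ξ).smul continuous_const)

theorem isClosed_PS (ξ : Fin n → ℂ) :
    IsClosed ((PS ξ : Subgroup (SUGroup n)) : Set (SUGroup n)) := by
  have h : ((PS ξ : Subgroup (SUGroup n)) : Set (SUGroup n)) =
      {g | act g (pe ξ) = ml g ξ • pe ξ} ∩ {g | ‖ml g ξ‖ = 1} := by
    ext g
    constructor
    · rintro ⟨c, hc1, hc⟩
      refine ⟨?_, ?_⟩
      · change act g (pe ξ) = ml g ξ • pe ξ
        rw [ca_eq hc, hc]
      · change ‖ml g ξ‖ = 1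
        rw [ca_eq hc, hc1]
    · rintro ⟨h1, h2⟩
      exact ⟨ml g ξ, h2, h1⟩
  rw [h]
  exact (isClosed_eq (ca_cont _) ((ca_mlc ξ).smul continuous_const)).inter
    (isClosed_eq (ca_mlc ξ).norm continuous_const)

theorem continuous_ml (ξ : Fin n → ℂ) : Continuous fun g : SUGroup n => ml g ξ := ca_mlc ξ

/-- `|ch x - sh x| <= |<x e, (ξ,1)>| <= ch x + sh x` (for `x = g⁻¹`: `ml g ξ = -<e, g (ξ,1)>`). -/
theorem norm_ml_le {ξ : Fin n → ℂ} (hξ : nq ξ = 1) (g : SUGroup n) :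
    ‖ml g ξ‖ ≤ wt g ∧ 1 ≤ wt g * ‖ml g ξ‖ := by
  have h1 : ml g ξ = ∑ i : Fin n, g.toMatrix (Fin.last n) i.castSucc * ξ i +
      g.toMatrix (Fin.last n) (Fin.last n) := by
    rw [ml, act, mulVec, dotProduct, Fin.sum_univ_castSucc, pe_last, mul_one]
    congr 1
    refine Finset.sum_congr rfl fun i _ => ?_
    rw [pe_castSucc]
  have h2 : ‖∑ i : Fin n, g.toMatrix (Fin.last n) i.castSucc * ξ i‖ ≤
      Real.sqrt (ch g ^ 2 - 1) := by
    refine (ca_cauchy (fun i => g.toMatrix (Fin.last n) i.castSucc) ξ).trans (le_of_eq ?_)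
    rw [hξ, Real.sqrt_one, mul_one, nq, sum_row]
  have h3 : 0 ≤ ch g ^ 2 - 1 := by
    have := one_le_ch g
    nlinarith
  have h4 := Real.sq_sqrt h3
  have h5 := Real.sqrt_nonneg (ch g ^ 2 - 1)
  have h6 : ch g = ‖g.toMatrix (Fin.last n) (Fin.last n)‖ := rfl
  have h7 := one_le_ch g
  rw [wt, h1]
  set S := Real.sqrt (ch g ^ 2 - 1)
  set a := ∑ i : Fin n, g.toMatrix (Fin.last n) i.castSucc * ξ i
  set b := g.toMatrix (Fin.last n) (Fin.last n)
  constructor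
  · have := norm_add_le a b
    linarith
  · have h8 : ‖b‖ ≤ ‖a + b‖ + ‖a‖ := by
      have := norm_sub_le (a + b) a
      rwa [add_sub_cancel_left] at this
    have h9 : ch g - S ≤ ‖a + b‖ := by linarith
    have h10 : (ch g + S) * (ch g - S) = 1 := by linear_combination -h4
    rw [← h10]
    exact mul_le_mul_of_nonneg_left h9 (by linarith)

theorem yp_smul (c : ℂ) (p v : Vec n) : yp (c • p) v = yp p v / ‖c‖ ^ 2 := by
  rw [yp, yp, herm_smul_right, norm_mul, mul_pow, mul_comm, div_mul_eq_div_div]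

theorem yp_act (g : SUGroup n) (p v : Vec n) : yp (act g p) (act g v) = yp p v := by
  rw [yp, yp, herm_act, q_act]

theorem yp_homog (p : Vec n) : Homog (yp p) := by
  intro c hc v _
  have h : ‖c‖ ^ 2 ≠ 0 := pow_ne_zero _ (norm_ne_zero_iff.2 hc)
  rw [yp, yp, herm_smul_left, q_smul, norm_mul, norm_star, mul_pow, ← mul_neg,
    mul_div_mul_left _ _ h]

/-- The height of `g e` over `ξ`. -/
theorem yp_pe (ξ : Fin n → ℂ) (g : SUGroup n) :
    yp (pe ξ) (act g (base n)) = (‖ml g⁻¹ ξ‖ ^ 2)⁻¹ := by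
  have h : herm (act g (base n)) (pe ξ) = -ml g⁻¹ ξ := by
    rw [← herm_act g⁻¹, ← act_mul, inv_mul_cancel, act_one, ca_herm_base, ml]
  rw [yp, q_orbit, h, norm_neg, neg_neg, one_div]

theorem yp_pos {p : Vec n} (hp : p ≠ 0) (hq : q p = 0) {v : Vec n} (hv : v ∈ Cone n) :
    0 < yp p v := by
  have h1 : q v < 0 := hv
  have h2 : herm v p ≠ 0 := by
    intro h
    have h3 := q_pos_of_orth hv h hp
    rw [hq] at h3
    exact lt_irrefl _ h3
  have h3 : 0 < ‖herm v p‖ := norm_pos_iff.2 h2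
  rw [yp]
  have h4 : 0 < -q v := by linarith
  positivity

theorem yp_harn {p : Vec n} (hp : p ≠ 0) (hq : q p = 0) (g x : SUGroup n) :
    yp p (act (g * x) (base n)) ≤ wt x ^ 2 * yp p (act g (base n)) := by
  obtain ⟨h0, ξ, hξ, h⟩ := exists_pe hp hq
  have hc : 0 < ‖p (Fin.last n)‖ := norm_pos_iff.2 h0
  rw [h, yp_smul, yp_smul, yp_pe, yp_pe, _root_.mul_inv_rev, ml_mul hξ, norm_mul, mul_pow]
  have h1 := (norm_ml_le (nq_mv hξ g⁻¹) x⁻¹).2
  rw [wt_inv] at h1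
  have h2 : 0 < ‖ml x⁻¹ (mv g⁻¹ ξ)‖ := norm_pos_iff.2 (ml_ne_zero (nq_mv hξ g⁻¹) x⁻¹)
  have h3 : 0 < ‖ml g⁻¹ ξ‖ := norm_pos_iff.2 (ml_ne_zero hξ g⁻¹)
  set a := ‖ml x⁻¹ (mv g⁻¹ ξ)‖
  set b := ‖ml g⁻¹ ξ‖
  have h4 : (a ^ 2)⁻¹ ≤ wt x ^ 2 := by
    rw [inv_le_comm₀ (by positivity) (by have := one_le_wt x; positivity)]
    rw [inv_le_iff_one_le_mul₀ (by have := one_le_wt x; positivity)]
    calc (1 : ℝ) = 1 ^ 2 := by norm_num
      _ ≤ (wt x * a) ^ 2 := pow_le_pow_left₀ (by norm_num) h1 2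
      _ = a ^ 2 * wt x ^ 2 := by ring
  rw [mul_inv, ← mul_div_assoc]
  gcongr

theorem continuousOn_yp {p : Vec n} (hp : p ≠ 0) (hq : q p = 0) :
    ContinuousOn (yp p) (Cone n) := by
  have hh : ∀ w : Vec n, Continuous fun v : Vec n => herm v w := by
    intro w
    have : (fun v : Vec n => herm v w) = fun v => ∑ i : Fin n, star (v i.castSucc) * w i.castSucc -
      star (v (Fin.last n)) * w (Fin.last n) := funext fun v => herm_eq v w
    rw [this]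
    fun_prop
  have hqc : Continuous (q (n := n)) := by
    have : q (n := n) = fun v => ∑ i : Fin n, ‖v i.castSucc‖ ^ 2 - ‖v (Fin.last n)‖ ^ 2 :=
      funext q_eq
    rw [this]
    fun_prop
  have h1 : yp p = fun v : Vec n => -q v / ‖herm v p‖ ^ 2 := rfl
  rw [h1]
  apply ContinuousOn.div
  · exact hqc.neg.continuousOn
  · exact ((hh p).norm.pow 2).continuousOn
  · intro v hv h
    have h2 : herm v p = 0 := norm_eq_zero.1 (pow_eq_zero_iff (two_ne_zero) |>.1 h)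
    have h3 := q_pos_of_orth hv h2 hp
    rw [hq] at h3
    exact lt_irrefl _ h3

end Pool.Agent.Lib.MP_5d4057_al.NU
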