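import Pool.Agent.Lib.MP_5d4057_al.NU.FlowN
import Pool.Agent.Lib.MP_5d4057_al.HM.SmoothA

/-! Smooth cut-off functions in the height. -/

namespace Pool.Agent.Lib.MP_5d4057_al.NU

open Matrix MeasureTheory Filter Topology Pool.Agent.Lib.MP_5d4057_al
  Pool.Agent.Lib.MP_5d4057_al.Hyb Pool.Agent.Lib.MP_5d4057_al.HM

open scoped ComplexOrder MatrixOrder Matrix.Norms.L2Operator ENNReal

variable {n m : ℕ}

variable {Γ : Subgroup (SUGroup n)}

/-- A smooth invariant cut-off function supported in `Γ Q` with derivatives at most `ε`. -/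
structure Cf (Γ : Subgroup (SUGroup n)) (Q : Set (SUGroup n)) (ε : ℝ) (φ : Vec n → ℝ) : Prop where
  hom : Homog φ
  cd : ContDiffOn ℝ (⊤ : ℕ∞) φ (Cone n)
  nonneg : ∀ v ∈ Cone n, 0 ≤ φ v
  le_one : ∀ v ∈ Cone n, φ v ≤ 1
  inv : ∀ γ ∈ Γ, ∀ v ∈ Cone n, φ (act γ v) = φ v
  off : ∀ g : SUGroup n, (¬ ∃ γ ∈ Γ, γ * g ∈ Q) → φ =ᶠ[𝓝 (act g (base n))] fun _ => 0
  der : ∀ (g : SUGroup n) (ξ : Fin n → ℂ), ∑ i, ‖ξ i‖ ^ 2 = 1 →
    |fderiv ℝ φ (act g (base n)) (act g (vec ξ))| ≤ ε

/-- The smooth transition is Lipschitz. -/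
theorem trans_lip : ∃ B : ℝ, 0 ≤ B ∧ ∀ a b : ℝ,
    |Real.smoothTransition a - Real.smoothTransition b| ≤ B * |a - b| := by
  have hcd : ContDiff ℝ 1 Real.smoothTransition :=
    Real.smoothTransition.contDiff (n := 1)
  have hc : Continuous (deriv Real.smoothTransition) := hcd.continuous_deriv le_rfl
  obtain ⟨B, hB⟩ := (isCompact_Icc (a := (0 : ℝ)) (b := 1)).exists_bound_of_continuousOn
    hc.continuousOn
  have h0 : 0 ≤ B := (norm_nonneg _).trans (hB 0 ⟨le_rfl, zero_le_one⟩)
  refine ⟨B, h0, fun a b => ?_⟩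
  have h1 := Convex.norm_image_sub_le_of_norm_deriv_le (𝕜 := ℝ) (f := Real.smoothTransition)
    (s := Set.Icc (0 : ℝ) 1) (fun x _ => (hcd.differentiable (by norm_num)).differentiableAt) hB
    (convex_Icc 0 1) (Set.projIcc (0 : ℝ) 1 zero_le_one b).2
    (Set.projIcc (0 : ℝ) 1 zero_le_one a).2
  rw [Real.smoothTransition.projIcc, Real.smoothTransition.projIcc] at h1
  have h2 := (LipschitzWith.projIcc (zero_le_one (α := ℝ))).dist_le_mul a b
  rw [NNReal.coe_one, one_mul, Subtype.dist_eq, Real.dist_eq, Real.dist_eq] at h2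
  exact h1.trans (mul_le_mul_of_nonneg_left h2 h0)

theorem continuousOn_sec_n : ContinuousOn (sec n) (Cone n) := by
  rw [(isClosedEmbedding_toMatrix n).isInducing.continuousOn_iff]
  exact (contDiffOn_sec n).continuousOn

section
variable {T : ℝ} {y : Vec n → ℝ}

theorem Ht.pos (hy : Ht Γ T y) {v : Vec n} (hv : v ∈ Cone n) : 0 < y v :=
  lt_of_lt_of_le one_pos (hy.one_le v hv)

theorem Ht.harn' (hy : Ht Γ T y) (g h : SUGroup n) :
    y (act h (base n)) ≤ wt (g⁻¹ * h) ^ 2 * y (act g (base n)) := by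
  have h1 := hy.harn g (g⁻¹ * h)
  rwa [mul_inv_cancel_left] at h1

/-- `|log y(h) - log y(g)| ≤ 2 log wt(g⁻¹ h)`. -/
theorem Ht.log_le (hy : Ht Γ T y) (g h : SUGroup n) :
    |Real.log (y (act h (base n))) - Real.log (y (act g (base n)))| ≤
      2 * Real.log (wt (g⁻¹ * h)) := by
  have key : ∀ g h : SUGroup n, Real.log (y (act h (base n))) ≤
      2 * Real.log (wt (g⁻¹ * h)) + Real.log (y (act g (base n))) := by
    intro g h
    have h1 := Real.log_le_log (hy.pos (orbit_mem h)) (hy.harn' g h)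
    have h2 : 0 < wt (g⁻¹ * h) := lt_of_lt_of_le one_pos (HM.one_le_wt _)
    rw [Real.log_mul (by positivity) (hy.pos (orbit_mem g)).ne', Real.log_pow] at h1
    exact_mod_cast h1
  have h1 := key g h
  have h2 := key h g
  have h3 : wt (h⁻¹ * g) = wt (g⁻¹ * h) := by
    rw [← HM.wt_inv, _root_.mul_inv_rev, inv_inv]
  rw [h3] at h2
  rw [abs_le]
  constructor <;> linarith

theorem Ht.cont_c (hy : Ht Γ T y) : ContinuousOn y (Cone n) := by
  have hG : Continuous fun g : SUGroup n => Real.log (y (act g (base n))) := by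
    rw [continuous_iff_continuousAt]
    intro g
    have h1 : Tendsto (fun h : SUGroup n => 2 * Real.log (wt (g⁻¹ * h))) (𝓝 g) (𝓝 0) := by
      have h2 : Tendsto (fun h : SUGroup n => wt (g⁻¹ * h)) (𝓝 g) (𝓝 1) := by
        have h3 : Continuous fun h : SUGroup n => wt (g⁻¹ * h) :=
          continuous_wt.comp (continuous_const_mul g⁻¹)
        have h4 := h3.tendsto g
        rwa [inv_mul_cancel, wt_one] at h4
      have h5 := (h2.log one_ne_zero).const_mul 2
      rwa [Real.log_one, mul_zero] at h5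
    rw [ContinuousAt, tendsto_iff_norm_sub_tendsto_zero]
    exact squeeze_zero (fun h => norm_nonneg _) (fun h => hy.log_le g h) h1
  have h1 : ContinuousOn (fun v => Real.exp (Real.log (y (act (sec n v) (base n))))) (Cone n) :=
    Real.continuous_exp.comp_continuousOn (hG.comp_continuousOn continuousOn_sec_n)
  refine h1.congr fun v hv => ?_
  obtain ⟨c, hc, h⟩ := sec_spec hv
  show y v = Real.exp (Real.log (y (act (sec n v) (base n))))
  rw [Real.exp_log (hy.pos (orbit_mem _))]
  conv_lhs => rw [h]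
  rw [hy.hom c hc _ (orbit_mem _)]

private theorem yp_smul (p v : Vec n) {c : ℂ} (hc : c ≠ 0) : yp p (c • v) = yp p v := by
  have h : ‖c‖ ^ 2 ≠ 0 := pow_ne_zero 2 (norm_ne_zero_iff.mpr hc)
  unfold yp
  rw [q_smul, herm_smul_left, norm_mul, norm_star, mul_pow, ← mul_neg, mul_div_mul_left _ _ h]

theorem contDiffAt_yp {p v : Vec n} (h : herm v p ≠ 0) :
    ContDiffAt ℝ (⊤ : ℕ∞) (yp p) v := by
  have h1 : ContDiff ℝ (⊤ : ℕ∞) fun w : Vec n => herm w p :=
    contDiff_herm.comp (contDiff_id.prodMk contDiff_const)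
  have h2 : ContDiff ℝ (⊤ : ℕ∞) fun w : Vec n => ‖herm w p‖ ^ 2 := (contDiff_norm_sq ℝ).comp h1
  have h3 : ContDiff ℝ (⊤ : ℕ∞) fun w : Vec n => -q w := contDiff_q.neg
  refine ContDiffAt.div h3.contDiffAt h2.contDiffAt ?_
  exact pow_ne_zero 2 (norm_ne_zero_iff.mpr h)

/-- Near a point of height at least `T` the height is smooth. -/
theorem Ht.smooth (hy : Ht Γ T y) {v : Vec n} (hv : v ∈ Cone n) (hT : T ≤ y v) :
    ∃ p : Vec n, herm v p ≠ 0 ∧ y =ᶠ[𝓝 v] yp p := by
  obtain ⟨g, c, hc, rfl⟩ := exists_act_eq hv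
  rw [hy.hom c hc _ (orbit_mem g)] at hT
  obtain ⟨p, -, -, h1, -, h2⟩ := hy.nul g hT
  have hy0 : 0 < yp p (act g (base n)) := h1 ▸ hy.pos (orbit_mem g)
  have hne : herm (c • act g (base n)) p ≠ 0 := by
    intro h0
    rw [← yp_smul p _ hc, yp, h0, norm_zero] at hy0
    norm_num at hy0
  have hev : ∀ᶠ w in 𝓝 (c • act g (base n)), T < 4 * yp p w := by
    have h3 : ContinuousAt (fun w => 4 * yp p w) (c • act g (base n)) :=
      (contDiffAt_yp hne).continuousAt.const_smul (4 : ℝ)
    refine h3.eventually_const_lt ?_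
    show T < 4 * yp p (c • act g (base n))
    rw [yp_smul p _ hc]
    rw [h1] at hT
    linarith
  refine ⟨p, hne, ?_⟩
  filter_upwards [hev, (isOpen_cone n).mem_nhds hv] with w hw hwc
  obtain ⟨h, d, hd, rfl⟩ := exists_act_eq hwc
  rw [yp_smul p _ hd] at hw
  rw [hy.hom d hd _ (orbit_mem h), yp_smul p _ hd]
  exact h2 h hw.le

theorem log_wt_of_cosh {x : SUGroup n} {t : ℝ} (h : ch x = Real.cosh t) :
    Real.log (wt x) = |t| := by
  rw [wt, h, ← Real.cosh_abs t, ← Real.sinh_sq, Real.sqrt_sq (Real.sinh_nonneg_iff.2 (abs_nonneg t)),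
    Real.cosh_add_sinh, Real.log_exp]

/-- Cut-off functions. -/
theorem exists_cf (hy : Ht Γ T y) : ∃ B : ℝ, 0 ≤ B ∧ ∀ R : ℝ, 1 ≤ R → T ≤ Real.exp R →
    ∃ (φ : Vec n → ℝ) (Q : Set (SUGroup n)), IsCompact Q ∧ Cf Γ Q (B / R) φ ∧
      ∀ v ∈ Cone n, Real.log (y v) < R → φ v = 1 := by
  obtain ⟨B, hB0, hB⟩ := trans_lip
  refine ⟨2 * B, by positivity, fun R hR hT => ?_⟩
  have hR0 : 0 < R := lt_of_lt_of_le one_pos hR
  obtain ⟨Q, hQ, hQc⟩ := hy.cpt (Real.exp (2 * R))
  have hlog : ContinuousOn (fun v => Real.log (y v)) (Cone n) := fun v hv =>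
    (hy.cont_c v hv).log (hy.pos hv).ne'
  have hone : ∀ v, Real.log (y v) < R → Real.smoothTransition (2 - Real.log (y v) / R) = 1 := by
    intro v h
    refine Real.smoothTransition.one_of_one_le ?_
    have : Real.log (y v) / R < 1 := by rwa [div_lt_one hR0]
    linarith
  refine ⟨fun v => Real.smoothTransition (2 - Real.log (y v) / R), Q, hQ,
    ⟨fun c hc v hv => ?_, fun v hv => ?_, fun v _ => Real.smoothTransition.nonneg _,
      fun v _ => Real.smoothTransition.le_one _, fun γ hγ v hv => ?_, fun g hg => ?_,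
      fun g ξ hξ => ?_⟩, fun v _ h => hone v h⟩
  · simp only [hy.hom c hc v hv]
  · refine ContDiffAt.contDiffWithinAt ?_
    by_cases h : Real.log (y v) < R
    · have h1 : ∀ᶠ w in 𝓝 v, Real.log (y w) < R :=
        (hlog.continuousAt ((isOpen_cone n).mem_nhds hv)).eventually_lt_const h
      have h2 : (fun v => Real.smoothTransition (2 - Real.log (y v) / R)) =ᶠ[𝓝 v] fun _ => 1 := by
        filter_upwards [h1] with w hw
        exact hone w hw
      exact contDiffAt_const.congr_of_eventuallyEq h2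
    · have h1 : T ≤ y v := by
        refine hT.trans ?_
        rw [← Real.le_log_iff_exp_le (hy.pos hv)]
        exact not_lt.1 h
      obtain ⟨p, hp, he⟩ := hy.smooth hv h1
      have h2 : (fun v => Real.smoothTransition (2 - Real.log (y v) / R)) =ᶠ[𝓝 v]
          fun w => Real.smoothTransition (2 - Real.log (yp p w) / R) := by
        filter_upwards [he] with w hw
        rw [hw]
      have h3 : yp p v ≠ 0 := by
        rw [← he.eq_of_nhds]
        exact (hy.pos hv).ne'
      refine ContDiffAt.congr_of_eventuallyEq ?_ h2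
      exact Real.smoothTransition.contDiffAt.comp v
        (contDiffAt_const.sub (((contDiffAt_yp hp).log h3).div_const R))
  · simp only [hy.inv γ hγ v hv]
  · have h1 : Real.exp (2 * R) < y (act g (base n)) := by
      by_contra h2
      exact hg (hQc g (not_lt.1 h2))
    have h2 : 2 * R < Real.log (y (act g (base n))) := by
      rwa [Real.lt_log_iff_exp_lt (hy.pos (orbit_mem g))]
    have h3 : ∀ᶠ w in 𝓝 (act g (base n)), 2 * R < Real.log (y w) :=
      (hlog.continuousAt ((isOpen_cone n).mem_nhds (orbit_mem g))).eventually_const_lt h2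
    filter_upwards [h3] with w hw
    refine Real.smoothTransition.zero_of_nonpos ?_
    have : 2 < Real.log (y w) / R := by rwa [lt_div_iff₀ hR0]
    linarith
  · obtain ⟨b, hb0, hb, hbc, hch, hbd⟩ := exists_flow ξ hξ
    have hd : DifferentiableAt ℝ (fun v => Real.smoothTransition (2 - Real.log (y v) / R))
        (act (g * b 0) (base n)) := by
      rw [hb0, mul_one]
      have hv := orbit_mem g
      by_cases h : Real.log (y (act g (base n))) < R
      · have h1 : ∀ᶠ w in 𝓝 (act g (base n)), Real.log (y w) < R :=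
          (hlog.continuousAt ((isOpen_cone n).mem_nhds hv)).eventually_lt_const h
        have h2 : (fun v => Real.smoothTransition (2 - Real.log (y v) / R)) =ᶠ[𝓝 (act g (base n))]
            fun _ => 1 := by
          filter_upwards [h1] with w hw
          exact hone w hw
        exact (differentiableAt_const _).congr_of_eventuallyEq h2
      · have h1 : T ≤ y (act g (base n)) := by
          refine hT.trans ?_
          rw [← Real.le_log_iff_exp_le (hy.pos hv)]
          exact not_lt.1 h
        obtain ⟨p, hp, he⟩ := hy.smooth hv h1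
        have h2 : (fun v => Real.smoothTransition (2 - Real.log (y v) / R)) =ᶠ[𝓝 (act g (base n))]
            fun w => Real.smoothTransition (2 - Real.log (yp p w) / R) := by
          filter_upwards [he] with w hw
          rw [hw]
        have h3 : yp p (act g (base n)) ≠ 0 := by
          rw [← he.eq_of_nhds]
          exact (hy.pos hv).ne'
        refine DifferentiableAt.congr_of_eventuallyEq ?_ h2
        have h4 : ContDiffAt ℝ (⊤ : ℕ∞) (fun w => Real.smoothTransition (2 - Real.log (yp p w) / R))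
            (act g (base n)) := Real.smoothTransition.contDiffAt.comp _
          (contDiffAt_const.sub (((contDiffAt_yp hp).log h3).div_const R))
        exact h4.differentiableAt (by norm_num)
    have h1 := hasDerivAt_flow hbd g 0 hd
    rw [hb0, mul_one] at h1
    have h2 := h1.le_of_lip' (C := 2 * B / R) (by positivity) (Filter.Eventually.of_forall
      fun t => ?_)
    · exact h2
    · rw [hb0, mul_one, Real.norm_eq_abs, Real.norm_eq_abs, sub_zero]
      refine (hB _ _).trans ?_
      have h3 := hy.log_le g (g * b t)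
      rw [inv_mul_cancel_left, log_wt_of_cosh (hch t)] at h3
      have h4 : (2 - Real.log (y (act (g * b t) (base n))) / R) -
          (2 - Real.log (y (act g (base n))) / R) =
          -((Real.log (y (act (g * b t) (base n))) - Real.log (y (act g (base n)))) / R) := by
        ring
      rw [h4, abs_neg, abs_div, abs_of_pos hR0]
      calc B * (|Real.log (y (act (g * b t) (base n))) - Real.log (y (act g (base n)))| / R) ≤
          B * ((2 * |t|) / R) := by gcongr
        _ = 2 * B / R * |t| := by ring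

end

end Pool.Agent.Lib.MP_5d4057_al.NU
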