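import Pool.Agent.Lib.MP_5d4057_al.NU.Base
import Pool.Agent.Lib.MP_5d4057_al.HM.LipE

/-! Regularity of the limit for lattices, part 1 (blueprint h37_nu, A15): all constants are polynomial in the radius. -/

namespace Pool.Agent.Lib.MP_5d4057_al.NU

open Matrix MeasureTheory Filter Topology Pool.Agent.Lib.MP_5d4057_al
  Pool.Agent.Lib.MP_5d4057_al.Hyb Pool.Agent.Lib.MP_5d4057_al.HM

open scoped ComplexOrder MatrixOrder Matrix.Norms.L2Operator ENNReal

variable {n m : ℕ}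

variable {Γ : Subgroup (SUGroup n)} {χ : SUGroup n → ℝ}

theorem ib_le_pow {T : ℝ} (hT : 0 ≤ T) (s : ℕ) (x : SUGroup n) :
    ib T x ≤ ENNReal.ofReal (T ^ (2 * s)) * ENNReal.ofReal ((ch x ^ (2 * s))⁻¹) := by
  unfold ib
  split_ifs with h
  · rw [← ENNReal.ofReal_mul (by positivity), ← ENNReal.ofReal_one]
    refine ENNReal.ofReal_le_ofReal ?_
    have h0 := ch_pos x
    rw [← div_eq_mul_inv, le_div_iff₀ (by positivity), one_mul]
    exact pow_le_pow_left₀ h0.le h _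
  · exact zero_le

/-- Counting: `#{γ : ch(γ g) ≤ T} ≤ #{γ : ch γ ≤ 2T²} ≤ M T^k` (`Lat.summable_ch`), then `Lat.unfold_le` with `φ = ib T`. -/
theorem Lat.ball_poly (hΓ : Lat Γ χ) : ∃ (M : ℝ) (k : ℕ), 0 < M ∧ ∀ T : ℝ, 1 ≤ T →
    ∀ f : SUGroup n → ℝ≥0∞, AEMeasurable f (mu n) → (∀ γ ∈ Γ, ∀ g, f (γ * g) = f g) →
      ∫⁻ g, ib T g * f g ∂(mu n) ≤ ENNReal.ofReal (M * T ^ k) * LI χ f := by
  obtain ⟨C, hC0, hC⟩ := sum_ch_unif hΓ.disc (s := 2 * n + 2) le_rfl
  refine ⟨C, 2 * (2 * n + 2), hC0, fun T hT f hm hf => ?_⟩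
  refine lunfold_le hΓ hf hm (measurable_ib T).aemeasurable fun g => ?_
  have hT0 : 0 ≤ T := by linarith
  calc ∑' γ : Γ, ib T ((γ : SUGroup n) * g)
      ≤ ∑' γ : Γ, ENNReal.ofReal (T ^ (2 * (2 * n + 2))) *
          ENNReal.ofReal ((ch ((γ : SUGroup n) * g) ^ (2 * (2 * n + 2)))⁻¹) :=
        ENNReal.tsum_le_tsum fun γ => ib_le_pow hT0 _ _
    _ = ENNReal.ofReal (T ^ (2 * (2 * n + 2))) * ENNReal.ofReal
          (∑' γ : Γ, (ch ((γ : SUGroup n) * g) ^ (2 * (2 * n + 2)))⁻¹) := by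
        rw [ENNReal.tsum_mul_left, ENNReal.ofReal_tsum_of_nonneg
          (fun γ => inv_nonneg.2 (pow_nonneg (ch_pos _).le _)) (NU.summable_ch hΓ.disc (by omega) g)]
    _ ≤ ENNReal.ofReal (T ^ (2 * (2 * n + 2))) * ENNReal.ofReal C := by
        gcongr
        exact hC g
    _ = _ := by
        rw [← ENNReal.ofReal_mul (by positivity), mul_comm C]

variable {ρ : Γ →* Mat m} {N : ℕ} {C : ℝ} {F : Vec n → Mat m}

theorem LimN.C_nonneg (hF : LimN ρ χ N C F) : 0 ≤ C := by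
  have h1 := hF.bound 1
  rw [ch_one, one_pow, mul_one] at h1
  exact (norm_nonneg _).trans h1

/-- `LimN` implies `LimMet` (which does not mention that `Γ` is cocompact; `II χ f ≤ (LI χ (ofReal f)).toReal` for `f ≥ 0`),
so all lemmas of `LipB` - `LipF` without `Coc` apply. -/
theorem LimN.limMet (hΓ : Lat Γ χ) (hF : LimN ρ χ N C F) : LimMet ρ χ N C F where
  hom := hF.hom
  equi := hF.equi
  pos := hF.pos
  meas := hF.meas
  bound := hF.bound
  boundInv := hF.boundInv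
  dist x := by
    have hC := hF.C_nonneg
    have hp : ∀ g : SUGroup n, (F (act g (base n))).PosDef := fun g => hF.pos _ (orbit_mem g)
    have hmr : AEStronglyMeasurable (fun g : SUGroup n => F (act (g * x) (base n))) (mu n) :=
      hF.meas.comp_measurePreserving (measurePreserving_mul_right (mu n) x)
    have hm : AEStronglyMeasurable (fun g => χ g * dT (F (act g (base n)))
        (F (act (g * x) (base n))) ^ 2) (mu n) :=
      hΓ.cont.aestronglyMeasurable.mul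
        ((aesm_dT hF.meas hmr (fun g => hp g) (fun g => hp _)).pow 2)
    unfold II
    simp only [smul_eq_mul]
    rw [integral_eq_lintegral_of_nonneg_ae (Eventually.of_forall fun g =>
      mul_nonneg (hΓ.pos g).le (by positivity)) hm]
    refine ENNReal.toReal_le_of_le_ofReal (by positivity) ?_
    refine le_trans (le_of_eq ?_) (hF.dist x)
    unfold LI
    refine lintegral_congr fun g => ?_
    rw [ENNReal.ofReal_mul (hΓ.pos g).le]
  sub := hF.sub
  sub' := hF.sub'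

/-- `lint_right`, from `LimN.dist` and `Lat.ball_poly`. -/
theorem LimN.right (hΓ : Lat Γ χ) (hF : LimN ρ χ N C F) : ∃ (M : ℝ) (k : ℕ), 0 < M ∧
    ∀ T : ℝ, 1 ≤ T → ∀ x : SUGroup n, ∫⁻ g, ib T g * Dq F g (g * x) ∂(mu n) ≤
      ENNReal.ofReal (M * T ^ k * Real.log (wt x) ^ 2) := by
  obtain ⟨M, k, hM0, hM⟩ := hΓ.ball_poly
  have hC := hF.C_nonneg
  have hL := hF.limMet hΓ
  refine ⟨M * (C + 1), k, by positivity, fun T hT x => ?_⟩
  have hT0 : 0 ≤ T := by linarith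
  have hmeas : AEMeasurable (fun g => Dq F g (g * x)) (mu n) :=
    aem_Dq hL.opos hL.meas (hL.meas_right x)
  refine (hM T hT (fun g => Dq F g (g * x)) hmeas fun γ hγ g => ?_).trans ?_
  · rw [mul_assoc, hL.dq_inv γ hγ]
  calc ENNReal.ofReal (M * T ^ k) * LI χ (fun g => Dq F g (g * x))
      ≤ ENNReal.ofReal (M * T ^ k) * ENNReal.ofReal (C * Real.log (wt x) ^ 2) := by
        gcongr
        exact hF.dist x
    _ = ENNReal.ofReal (M * T ^ k * (C * Real.log (wt x) ^ 2)) := by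
        rw [← ENNReal.ofReal_mul (by positivity)]
    _ ≤ _ := by
        refine ENNReal.ofReal_le_ofReal ?_
        have h1 : M * T ^ k * (C * Real.log (wt x) ^ 2) ≤
            M * T ^ k * ((C + 1) * Real.log (wt x) ^ 2) := by
          gcongr
          linarith
        refine h1.trans (le_of_eq (by ring))

/-- `lint_kap`. -/
theorem LimN.kap (hΓ : Lat Γ χ) (hF : LimN ρ χ N C F) : ∃ (M : ℝ) (k : ℕ), 0 < M ∧
    ∀ T : ℝ, 1 ≤ T → ∀ s : ℕ, 2 * n + 2 ≤ s → ∫⁻ p : SUGroup n × SUGroup n,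
      ib T p.1 * ENNReal.ofReal (HM.kap s p.2) * Dq F p.1 (p.1 * p.2)
        ∂((mu n).prod (mu n)) ≤ ENNReal.ofReal (M * T ^ k / s) := by
  obtain ⟨M, k, hM0, hMR⟩ := LimN.right hΓ hF
  have hL := hF.limMet hΓ
  refine ⟨M * (2 * n + 1), k, by positivity, fun T hT s hs => ?_⟩
  have hT0 : 0 ≤ T := by linarith
  have hMT : 0 ≤ M * T ^ k := by positivity
  have hkm : Measurable (fun x : SUGroup n => ENNReal.ofReal (HM.kap s x)) :=
    (continuous_kap s).measurable.ennreal_ofReal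
  have hmeas : AEMeasurable (fun p : SUGroup n × SUGroup n => ib T p.1 * ENNReal.ofReal (HM.kap s p.2) *
      Dq F p.1 (p.1 * p.2)) ((mu n).prod (mu n)) := by
    refine AEMeasurable.mul ?_ (aem_Dq hL.opos hL.meas.comp_fst hL.meas_mul)
    exact (((measurable_ib T).comp measurable_fst).mul (hkm.comp measurable_snd)).aemeasurable
  rw [lintegral_prod_symm _ hmeas]
  have h1 : ∀ x : SUGroup n, ∫⁻ g, ib T g * ENNReal.ofReal (HM.kap s x) * Dq F g (g * x) ∂(mu n) ≤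
      ENNReal.ofReal (M * T ^ k * (HM.kap s x * (ch x ^ 2 - 1))) := by
    intro x
    have e1 : ∫⁻ g, ib T g * ENNReal.ofReal (HM.kap s x) * Dq F g (g * x) ∂(mu n) =
        ENNReal.ofReal (HM.kap s x) * ∫⁻ g, ib T g * Dq F g (g * x) ∂(mu n) := by
      rw [← lintegral_const_mul' _ _ ENNReal.ofReal_ne_top]
      refine lintegral_congr fun g => ?_
      ring
    rw [e1]
    have hk := kap_nonneg s x
    have h2 : Real.log (wt x) ^ 2 ≤ ch x ^ 2 - 1 := by
      have h3 := log_wt_le x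
      have h4 : 0 ≤ Real.log (wt x) := Real.log_nonneg (one_le_wt x)
      have h5 := one_le_ch x
      have h6 := pow_le_pow_left₀ h4 h3 2
      rwa [Real.sq_sqrt (by nlinarith)] at h6
    calc ENNReal.ofReal (HM.kap s x) * ∫⁻ g, ib T g * Dq F g (g * x) ∂(mu n)
        ≤ ENNReal.ofReal (HM.kap s x) * ENNReal.ofReal (M * T ^ k * Real.log (wt x) ^ 2) := by
          gcongr; exact hMR T hT x
      _ = ENNReal.ofReal (HM.kap s x * (M * T ^ k * Real.log (wt x) ^ 2)) := by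
          rw [← ENNReal.ofReal_mul hk]
      _ ≤ _ := by
          refine ENNReal.ofReal_le_ofReal ?_
          calc HM.kap s x * (M * T ^ k * Real.log (wt x) ^ 2) ≤ HM.kap s x * (M * T ^ k * (ch x ^ 2 - 1)) := by gcongr
            _ = _ := by ring
  refine (lintegral_mono h1).trans ?_
  have hmom := mom_one (n := n) (s := s) (by omega)
  have hint : Integrable (fun x : SUGroup n => M * T ^ k * (HM.kap s x * (ch x ^ 2 - 1))) (mu n) := by
    have := integrable_mom (n := n) (s := s) (N := 0) (k := 1) (by omega)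
    refine (this.const_mul (M * T ^ k)).congr (Eventually.of_forall fun x => ?_)
    simp
  rw [← ofReal_integral_eq_lintegral_ofReal hint (Eventually.of_forall fun x => by
    have h5 := one_le_ch x
    have h6 := kap_nonneg s x
    have h7 : 0 ≤ ch x ^ 2 - 1 := by nlinarith
    positivity)]
  refine ENNReal.ofReal_le_ofReal ?_
  rw [integral_const_mul, hmom]
  have hs1 : (2 * n + 2 : ℝ) ≤ s := by exact_mod_cast hs
  have hn0 : (0 : ℝ) ≤ n := Nat.cast_nonneg _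
  have h9 : M * (2 * n + 1) * T ^ k / s = M * T ^ k * ((2 * n + 1) / s) := by ring
  rw [h9]
  refine mul_le_mul_of_nonneg_left ?_ hMT
  rw [div_le_div_iff₀ (by linarith) (by linarith)]
  nlinarith


/-- One step of `lint_small`, with explicit constants. -/
theorem small_of (hL : LimMet ρ χ N C F) {T : ℝ} (hT : 1 ≤ T) {M₁ M₂ : ℝ} (hM₁0 : 0 ≤ M₁)
    (hM₂0 : 0 ≤ M₂)
    (hM₁ : ∀ s : ℕ, 2 * n + 2 ≤ s → ∫⁻ p : SUGroup n × SUGroup n,
      ib T p.1 * ENNReal.ofReal (HM.kap s p.2) * Dq F p.1 (p.1 * p.2)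
        ∂((mu n).prod (mu n)) ≤ ENNReal.ofReal (M₁ / s))
    (hM₂ : ∀ s : ℕ, 2 * n + 2 ≤ s → ∫⁻ p : SUGroup n × SUGroup n,
      ib (4 * T) p.1 * ENNReal.ofReal (HM.kap s p.2) * Dq F p.1 (p.1 * p.2)
        ∂((mu n).prod (mu n)) ≤ ENNReal.ofReal (M₂ / s))
    {c : ℝ} (hc : c = (2 * (n + 1)) ^ 2 * (4 * T) ^ 2) {B : ℝ}
    (hB : B = Real.exp (2 * n + 16 * (2 * n + 4))) (a : SUGroup n) {r : ℝ} (hr0 : 0 < r)
    (har : ‖a.toMatrix - 1‖ ≤ r) (hcr : c * r ≤ 1 / 2) :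
    ∫⁻ g, ib T g * Dq F g (a * g) ∂(mu n) ≤ ENNReal.ofReal (4 * (M₁ + B * M₂) * (c * r) ^ 2) := by
  have hc0 : 0 < c := by rw [hc]; positivity
  have hB0 : 0 ≤ B := by rw [hB]; exact (Real.exp_pos _).le
  obtain ⟨q, hq⟩ : ∃ q : ℝ, q = c * r := ⟨_, rfl⟩
  have hq0 : 0 < q := by rw [hq]; positivity
  rw [← hq] at hcr
  rw [← hq]
  have hq1 : q ≤ 1 := by linarith
  obtain ⟨s, hs⟩ : ∃ s : ℕ, s = ⌈1 / q ^ 2⌉₊ + (2 * n + 2) := ⟨_, rfl⟩
  have hs1 : 2 * n + 2 ≤ s := by omega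
  have hr2 : 0 < q ^ 2 := by positivity
  have hs2 : 1 / q ^ 2 ≤ s := by
    rw [hs]; push_cast
    have := Nat.le_ceil (1 / q ^ 2)
    have h0 : (0 : ℝ) ≤ 2 * n + 2 := by positivity
    linarith
  have hs3 : (s : ℝ) ≤ 1 / q ^ 2 + (2 * n + 3) := by
    rw [hs]; push_cast
    have := Nat.ceil_lt_add_one (show 0 ≤ 1 / q ^ 2 by positivity)
    linarith
  have hs0 : (0 : ℝ) < s := by
    have : 0 < s := by omega
    exact_mod_cast this
  have hsr : (s : ℝ) * q ^ 2 ≤ 2 * n + 4 := by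
    have h1 := mul_le_mul_of_nonneg_right hs3 hr2.le
    rw [add_mul, one_div, inv_mul_cancel₀ hr2.ne'] at h1
    have h2 : (2 * n + 3 : ℝ) * q ^ 2 ≤ (2 * n + 3) * 1 := by
      refine mul_le_mul_of_nonneg_left ?_ (by positivity)
      nlinarith
    linarith
  have hsi : (1 : ℝ) / s ≤ q ^ 2 := by
    rw [div_le_iff₀ hs0]
    rw [div_le_iff₀ hr2] at hs2
    linarith
  -- the shift
  have hsh := hL.lint_shift hT hs1 a (β := q) hq0.le hcr (by
    rw [← hc, hq]; exact mul_le_mul_of_nonneg_left har hc0.le)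
  have hexp : Real.exp (2 * n + 16 * s * q ^ 2) ≤ B := by
    rw [hB]
    refine Real.exp_le_exp.2 ?_
    have e1 : 16 * (s : ℝ) * q ^ 2 = 16 * (s * q ^ 2) := by ring
    rw [e1]
    linarith
  have hkm : ∀ s, Measurable (fun x : SUGroup n => ENNReal.ofReal (HM.kap s x)) := fun s =>
    (continuous_kap s).measurable.ennreal_ofReal
  obtain ⟨I, hI⟩ : ∃ I : ℝ≥0∞, I = ∫⁻ g, ib T g * Dq F g (a * g) ∂(mu n) := ⟨_, rfl⟩
  have hmI : AEMeasurable (fun g => ib T g * Dq F g (a * g)) (mu n) :=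
    (measurable_ib T).aemeasurable.mul (aem_Dq hL.opos hL.meas (hL.meas_left a))
  have hm1 : AEMeasurable (fun p : SUGroup n × SUGroup n => ib T p.1 *
      ENNReal.ofReal (HM.kap (2 * s) p.2) * Dq F p.1 (p.1 * p.2)) ((mu n).prod (mu n)) := by
    refine AEMeasurable.mul ?_ (aem_Dq hL.opos hL.meas.comp_fst hL.meas_mul)
    exact (((measurable_ib _).comp measurable_fst).mul ((hkm _).comp measurable_snd)).aemeasurable
  have h1 : I * ∫⁻ x : SUGroup n, ENNReal.ofReal (HM.kap (2 * s) x) * ib 2 x ∂(mu n) =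
      ∫⁻ p : SUGroup n × SUGroup n, (ib T p.1 * Dq F p.1 (a * p.1)) *
        (ENNReal.ofReal (HM.kap (2 * s) p.2) * ib 2 p.2) ∂((mu n).prod (mu n)) := by
    rw [hI]
    exact (lintegral_prod_mul (g := fun x : SUGroup n => ENNReal.ofReal (HM.kap (2 * s) x) * ib 2 x)
      hmI ((hkm _).mul (measurable_ib 2)).aemeasurable).symm
  have h2 : ∫⁻ p : SUGroup n × SUGroup n, (ib T p.1 * Dq F p.1 (a * p.1)) *
        (ENNReal.ofReal (HM.kap (2 * s) p.2) * ib 2 p.2) ∂((mu n).prod (mu n)) ≤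
      2 * (∫⁻ p : SUGroup n × SUGroup n, ib T p.1 * ENNReal.ofReal (HM.kap (2 * s) p.2) *
        Dq F p.1 (p.1 * p.2) ∂((mu n).prod (mu n))) +
      2 * (∫⁻ p : SUGroup n × SUGroup n, ib T p.1 * ENNReal.ofReal (HM.kap (2 * s) p.2) * ib 2 p.2 *
        Dq F (p.1 * p.2) (a * p.1) ∂((mu n).prod (mu n))) := by
    rw [← lintegral_const_mul' _ _ (by norm_num), ← lintegral_const_mul' _ _ (by norm_num),
      ← lintegral_add_left' (hm1.const_mul _)]
    refine lintegral_mono fun p => ?_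
    simp only
    have h3 := Dq_triangle hL.opos p.1 (p.1 * p.2) (a * p.1)
    calc (ib T p.1 * Dq F p.1 (a * p.1)) * (ENNReal.ofReal (HM.kap (2 * s) p.2) * ib 2 p.2)
        ≤ (ib T p.1 * (2 * Dq F p.1 (p.1 * p.2) + 2 * Dq F (p.1 * p.2) (a * p.1))) *
          (ENNReal.ofReal (HM.kap (2 * s) p.2) * ib 2 p.2) := by gcongr
      _ = 2 * (ib T p.1 * ENNReal.ofReal (HM.kap (2 * s) p.2) * Dq F p.1 (p.1 * p.2) * ib 2 p.2) +
          2 * (ib T p.1 * ENNReal.ofReal (HM.kap (2 * s) p.2) * ib 2 p.2 *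
            Dq F (p.1 * p.2) (a * p.1)) := by ring
      _ ≤ 2 * (ib T p.1 * ENNReal.ofReal (HM.kap (2 * s) p.2) * Dq F p.1 (p.1 * p.2) * 1) +
          2 * (ib T p.1 * ENNReal.ofReal (HM.kap (2 * s) p.2) * ib 2 p.2 *
            Dq F (p.1 * p.2) (a * p.1)) := by
          gcongr
          exact ib_le_one _ _
      _ = _ := by rw [mul_one]
  have h3 : I * ENNReal.ofReal (1 / 2) ≤ 2 * ENNReal.ofReal (M₁ * q ^ 2) +
      2 * ENNReal.ofReal (B * (M₂ * q ^ 2)) := by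
    calc I * ENNReal.ofReal (1 / 2)
        ≤ I * ∫⁻ x : SUGroup n, ENNReal.ofReal (HM.kap (2 * s) x) * ib 2 x ∂(mu n) := by
          gcongr; exact half_mass (by omega)
      _ ≤ _ := h1.le.trans h2
      _ ≤ 2 * ENNReal.ofReal (M₁ * q ^ 2) + 2 * ENNReal.ofReal (B * (M₂ * q ^ 2)) := by
          gcongr
          · refine (hM₁ (2 * s) (by omega)).trans (ENNReal.ofReal_le_ofReal ?_)
            rw [div_eq_mul_one_div]
            refine mul_le_mul_of_nonneg_left (le_trans ?_ hsi) hM₁0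
            push_cast
            exact one_div_le_one_div_of_le hs0 (by linarith)
          · refine hsh.trans ?_
            rw [ENNReal.ofReal_mul hB0]
            gcongr
            refine (hM₂ s hs1).trans (ENNReal.ofReal_le_ofReal ?_)
            rw [div_eq_mul_one_div]
            exact mul_le_mul_of_nonneg_left hsi hM₂0
  have h4 : I = I * ENNReal.ofReal (1 / 2) * ENNReal.ofReal 2 := by
    rw [mul_assoc, ← ENNReal.ofReal_mul (by norm_num)]
    norm_num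
  rw [← hI, h4]
  calc I * ENNReal.ofReal (1 / 2) * ENNReal.ofReal 2
      ≤ (2 * ENNReal.ofReal (M₁ * q ^ 2) + 2 * ENNReal.ofReal (B * (M₂ * q ^ 2))) * ENNReal.ofReal 2 := by
        gcongr
    _ = ENNReal.ofReal (4 * (M₁ + B * M₂) * q ^ 2) := by
        rw [show (2 : ℝ≥0∞) = ENNReal.ofReal 2 by norm_num, ← ENNReal.ofReal_mul (by norm_num),
          ← ENNReal.ofReal_mul (by norm_num), ← ENNReal.ofReal_add (by positivity) (by positivity),
          ← ENNReal.ofReal_mul (by positivity)]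
        congr 1
        ring


/-- `lint_small` (from `LimMet.lint_shift` and `LimN.kap`). -/
theorem LimN.small (hΓ : Lat Γ χ) (hF : LimN ρ χ N C F) : ∃ (M : ℝ) (k : ℕ), 0 < M ∧
    ∀ T : ℝ, 1 ≤ T → ∀ (a : SUGroup n) (r : ℝ), 0 < r → r ≤ 1 → ‖a.toMatrix - 1‖ ≤ r →
      (2 * (n + 1)) ^ 2 * (4 * T) ^ 2 * r ≤ 1 / 2 →
        ∫⁻ g, ib T g * Dq F g (a * g) ∂(mu n) ≤ ENNReal.ofReal (M * T ^ k * r ^ 2) := by
  obtain ⟨M, k, hM0, hM⟩ := LimN.kap hΓ hF
  have hL := hF.limMet hΓ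
  obtain ⟨B, hB⟩ : ∃ B : ℝ, B = Real.exp (2 * n + 16 * (2 * n + 4)) := ⟨_, rfl⟩
  have hB0 : 0 < B := by rw [hB]; exact Real.exp_pos _
  refine ⟨4 * (M + B * (M * 4 ^ k)) * ((2 * (n + 1)) ^ 2 * 4 ^ 2) ^ 2, k + 4, by positivity,
    fun T hT a r hr0 hr1 har hcr => ?_⟩
  have hT0 : 0 < T := by linarith
  refine (small_of hL hT (M₁ := M * T ^ k) (M₂ := M * (4 * T) ^ k) (by positivity) (by positivity)
    (hM T hT) (hM (4 * T) (by linarith)) rfl hB a hr0 har hcr).trans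
    (ENNReal.ofReal_le_ofReal (le_of_eq ?_))
  rw [mul_pow 4 T k, pow_add T k 4]
  ring

theorem Rpoly_bound (hL : LimMet ρ χ N C F) {T : ℝ} (hT : 1 ≤ T) :
    1 ≤ (|C| + 1) * (4 * T) ^ (2 * N) ∧ ∀ g : SUGroup n, ch g ≤ 4 * T →
      ‖F (act g (base n))‖ ≤ (|C| + 1) * (4 * T) ^ (2 * N) ∧
        ‖(F (act g (base n)))⁻¹‖ ≤ (|C| + 1) * (4 * T) ^ (2 * N) := by
  have h4 : 1 ≤ 4 * T := by linarith
  have h5 : 1 ≤ (4 * T) ^ (2 * N) := one_le_pow₀ h4
  refine ⟨?_, fun g hg => ?_⟩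
  · have := abs_nonneg C
    nlinarith
  · have h0 := ch_pos g
    have h1 : C * ch g ^ (2 * N) ≤ (|C| + 1) * (4 * T) ^ (2 * N) := by
      have h2 : ch g ^ (2 * N) ≤ (4 * T) ^ (2 * N) := pow_le_pow_left₀ h0.le hg _
      have h3 : C ≤ |C| + 1 := by linarith [le_abs_self C]
      exact mul_le_mul h3 h2 (by positivity) (by positivity)
    exact ⟨(hL.bound g).trans h1, (hL.boundInv g).trans h1⟩

/-- The volume of balls. -/
theorem lint_ib_poly (n : ℕ) : ∃ V : ℝ, 0 < V ∧ ∀ T : ℝ, 1 ≤ T →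
    ∫⁻ g : SUGroup n, ib T g ∂(mu n) ≤ ENNReal.ofReal (V * T ^ (2 * (n + 1))) := by
  have hcs : 0 < cs n (n + 1) := cs_pos' (by omega)
  refine ⟨cs n (n + 1), hcs, fun T hT => ?_⟩
  have hT0 : 0 ≤ T := by linarith
  calc ∫⁻ g : SUGroup n, ib T g ∂(mu n)
      ≤ ∫⁻ g : SUGroup n, ENNReal.ofReal (T ^ (2 * (n + 1)) * cs n (n + 1)) *
          ENNReal.ofReal (HM.kap (n + 1) g) ∂(mu n) := by
        refine lintegral_mono fun g => (ib_le_pow hT0 (n + 1) g).trans (le_of_eq ?_)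
        rw [← ENNReal.ofReal_mul (by positivity), ← ENNReal.ofReal_mul (by positivity)]
        congr 1
        unfold HM.kap
        field_simp
    _ = ENNReal.ofReal (T ^ (2 * (n + 1)) * cs n (n + 1)) *
          ∫⁻ g : SUGroup n, ENNReal.ofReal (HM.kap (n + 1) g) ∂(mu n) :=
        lintegral_const_mul' _ _ ENNReal.ofReal_ne_top
    _ = _ := by
        rw [← ofReal_integral_eq_lintegral_ofReal (integrable_kap (by omega))
          (Eventually.of_forall fun x => kap_nonneg _ x), integral_kap (by omega),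
          ENNReal.ofReal_one, mul_one, mul_comm (cs n (n + 1))]

/-- The estimate of the distance with polynomial constants, for all small translations. -/
theorem LimN.dq_poly (hΓ : Lat Γ χ) (hF : LimN ρ χ N C F) : ∃ (M : ℝ) (k : ℕ), 0 < M ∧
    ∀ T : ℝ, 1 ≤ T → ∀ (a : SUGroup n) (r : ℝ), 0 ≤ r → r ≤ 1 → ‖a.toMatrix - 1‖ ≤ r →
      ∫⁻ g, ib T g * Dq F g (a * g) ∂(mu n) ≤ ENNReal.ofReal (M * T ^ k * r ^ 2) := by
  obtain ⟨M, k, hM0, hM⟩ := LimN.small hΓ hF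
  have hL := hF.limMet hΓ
  obtain ⟨V, hV0, hV⟩ := lint_ib_poly n
  obtain ⟨c₀, hc₀⟩ : ∃ c₀ : ℝ, c₀ = 2 * ((2 * (n + 1)) ^ 2 * 4 ^ 2) := ⟨_, rfl⟩
  have hc₀0 : 0 < c₀ := by rw [hc₀]; positivity
  obtain ⟨A, hA⟩ : ∃ A : ℝ, A = V * (2 * ((|C| + 1) * 4 ^ (2 * N))) ^ 2 * c₀ ^ 2 := ⟨_, rfl⟩
  have hA0 : 0 < A := by rw [hA]; positivity
  obtain ⟨K, hK⟩ : ∃ K : ℕ, K = 2 * (n + 1) + 4 * N + 4 := ⟨_, rfl⟩
  refine ⟨M + A, k + K, by positivity, fun T hT a r hr0 hr1 har => ?_⟩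
  have hT0 : 0 < T := by linarith
  have hk1 : T ^ k ≤ T ^ (k + K) := pow_le_pow_right₀ hT (by omega)
  have hk2 : T ^ K ≤ T ^ (k + K) := pow_le_pow_right₀ hT (by omega)
  have hs1 : M * T ^ k * r ^ 2 ≤ (M + A) * T ^ (k + K) * r ^ 2 := by
    gcongr
    linarith
  have hs2 : A * T ^ K * r ^ 2 ≤ (M + A) * T ^ (k + K) * r ^ 2 := by
    gcongr
    linarith
  rcases hr0.eq_or_lt with hr | hr
  · have h1 : a.toMatrix - 1 = 0 := by
      rw [← norm_le_zero_iff, hr]; exact har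
    have h2 : a = 1 := toMatrix_injective ((sub_eq_zero.1 h1).trans toMatrix_one.symm)
    have h3 : ∫⁻ g, ib T g * Dq F g (a * g) ∂(mu n) = 0 := by
      rw [h2]
      simp only [one_mul, Dq_self, mul_zero, lintegral_zero]
    rw [h3]; exact zero_le
  by_cases hcr : (2 * (n + 1)) ^ 2 * (4 * T) ^ 2 * r ≤ 1 / 2
  · exact (hM T hT a r hr hr1 har hcr).trans (ENNReal.ofReal_le_ofReal hs1)
  · refine le_trans ?_ (ENNReal.ofReal_le_ofReal hs2)
    push Not at hcr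
    obtain ⟨hR1, hR⟩ := Rpoly_bound hL hT
    obtain ⟨R, hRd⟩ : ∃ R : ℝ, R = (|C| + 1) * (4 * T) ^ (2 * N) := ⟨_, rfl⟩
    rw [← hRd] at hR1 hR
    have h1 : ∀ g, ib T g * Dq F g (a * g) ≤ ib T g * ENNReal.ofReal ((2 * R) ^ 2) := by
      intro g
      by_cases hg : ch g ≤ T
      · refine mul_le_mul_right ?_ _
        unfold Dq
        refine ENNReal.ofReal_le_ofReal ?_
        have h2 := lp_ch_four (har.trans hr1) g
        have h3 : ch g ≤ 4 * T := by linarith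
        have h4 : ch (a * g) ≤ 4 * T := by linarith
        refine pow_le_pow_left₀ (dT_nonneg _ _) ?_ 2
        refine (dT_le_norm (hL.opos g) (hL.opos _) hR1 (hR g h3).1 (hR g h3).2 (hR _ h4).1
          (hR _ h4).2).trans ?_
        have h5 := Real.log_le_self (show 0 ≤ R by linarith)
        linarith
      · have : ib T g = 0 := by unfold ib; rw [if_neg hg]
        rw [this]; simp
    calc ∫⁻ g, ib T g * Dq F g (a * g) ∂(mu n)
        ≤ ∫⁻ g, ib T g * ENNReal.ofReal ((2 * R) ^ 2) ∂(mu n) := lintegral_mono h1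
      _ = (∫⁻ g, ib T g ∂(mu n)) * ENNReal.ofReal ((2 * R) ^ 2) :=
          lintegral_mul_const' _ _ ENNReal.ofReal_ne_top
      _ ≤ ENNReal.ofReal (V * T ^ (2 * (n + 1))) * ENNReal.ofReal ((2 * R) ^ 2) := by
          gcongr
          exact hV T hT
      _ = ENNReal.ofReal (V * T ^ (2 * (n + 1)) * (2 * R) ^ 2) := by
          rw [← ENNReal.ofReal_mul (by positivity)]
      _ ≤ _ := by
          refine ENNReal.ofReal_le_ofReal ?_
          have h5 : 1 ≤ (c₀ * T ^ 2 * r) ^ 2 := by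
            have : 1 ≤ c₀ * T ^ 2 * r := by
              rw [hc₀]
              rw [mul_pow] at hcr
              linarith
            exact one_le_pow₀ this
          have h6 : 0 ≤ V * T ^ (2 * (n + 1)) * (2 * R) ^ 2 := by positivity
          calc V * T ^ (2 * (n + 1)) * (2 * R) ^ 2
              ≤ V * T ^ (2 * (n + 1)) * (2 * R) ^ 2 * (c₀ * T ^ 2 * r) ^ 2 :=
                le_mul_of_one_le_right h6 h5
            _ = A * T ^ K * r ^ 2 := by
                rw [hRd, hA, hK, mul_pow 4 T (2 * N), pow_add, pow_add]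
                have e1 : T ^ (4 * N) = (T ^ (2 * N)) ^ 2 := by
                  rw [← pow_mul]; congr 1; ring
                rw [e1]
                ring

/-- `lint_dq` for a fixed radius. -/
theorem LimN.dq (hΓ : Lat Γ χ) (hF : LimN ρ χ N C F) (T : ℝ) :
    ∃ M : ℝ, 0 ≤ M ∧ ∀ (a : SUGroup n) (r : ℝ), 0 ≤ r → r ≤ 1 → ‖a.toMatrix - 1‖ ≤ r →
      ∫⁻ g, ib T g * Dq F g (a * g) ∂(mu n) ≤ ENNReal.ofReal (M * r ^ 2) := by
  obtain ⟨M, k, hM0, hM⟩ := LimN.dq_poly hΓ hF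
  refine ⟨M * (max 1 T) ^ k, by positivity, fun a r hr0 hr1 har => ?_⟩
  refine le_trans ?_ (hM (max 1 T) (le_max_left _ _) a r hr0 hr1 har)
  exact lintegral_mono fun g => mul_le_mul_left (ib_mono (le_max_right _ _) g) _

/-- The estimate of `sig` with polynomial constants. -/
theorem LimN.sig_poly (hΓ : Lat Γ χ) (hF : LimN ρ χ N C F) : ∃ (M : ℝ) (k : ℕ), 0 < M ∧
    ∀ T : ℝ, 1 ≤ T → ∀ a : SUGroup n, ‖a.toMatrix - 1‖ ≤ 1 →
      ∫⁻ g, ib T g * Sq F a g ∂(mu n) ≤ ENNReal.ofReal (M * T ^ k * ‖a.toMatrix - 1‖ ^ 2) := by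
  obtain ⟨M, k, hM0, hM⟩ := LimN.dq_poly hΓ hF
  have hL := hF.limMet hΓ
  refine ⟨(m + 1) * ((|C| + 1) * 4 ^ (2 * N)) ^ 2 * M, k + 4 * N, by positivity,
    fun T hT a ha => ?_⟩
  have hT0 : 0 < T := by linarith
  obtain ⟨hR1, hR⟩ := Rpoly_bound hL hT
  obtain ⟨R, hRd⟩ : ∃ R : ℝ, R = (|C| + 1) * (4 * T) ^ (2 * N) := ⟨_, rfl⟩
  rw [← hRd] at hR1 hR
  have h1 : ∀ g, ib T g * Sq F a g ≤
      ENNReal.ofReal ((m + 1) * R ^ 2) * (ib T g * Dq F g (a * g)) := by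
    intro g
    by_cases hg : ch g ≤ T
    · have h2 := lp_ch_four ha g
      have h3 : ch g ≤ 4 * T := by linarith
      have h4 : ch (a * g) ≤ 4 * T := by linarith
      have h5 := sig_le_dT (hL.opos g) (hL.opos (a * g)) hR1 (hR g h3).1 (hR g h3).2 (hR _ h4).1
        (hR _ h4).2
      rw [mul_left_comm]
      refine mul_le_mul_right ?_ _
      unfold Dq Sq
      rw [← ENNReal.ofReal_mul (by positivity)]
      refine ENNReal.ofReal_le_ofReal (h5.trans ?_)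
      gcongr
      linarith
    · have : ib T g = 0 := by unfold ib; rw [if_neg hg]
      rw [this]; simp
  calc ∫⁻ g, ib T g * Sq F a g ∂(mu n)
      ≤ ∫⁻ g, ENNReal.ofReal ((m + 1) * R ^ 2) * (ib T g * Dq F g (a * g)) ∂(mu n) :=
        lintegral_mono h1
    _ = ENNReal.ofReal ((m + 1) * R ^ 2) * ∫⁻ g, (ib T g * Dq F g (a * g)) ∂(mu n) :=
        lintegral_const_mul' _ _ ENNReal.ofReal_ne_top
    _ ≤ ENNReal.ofReal ((m + 1) * R ^ 2) *
          ENNReal.ofReal (M * T ^ k * ‖a.toMatrix - 1‖ ^ 2) := by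
        gcongr
        exact hM T hT a _ (norm_nonneg _) ha le_rfl
    _ = _ := by
        rw [← ENNReal.ofReal_mul (by positivity), hRd, mul_pow 4 T (2 * N), pow_add]
        have e1 : T ^ (4 * N) = (T ^ (2 * N)) ^ 2 := by
          rw [← pow_mul]; congr 1; ring
        rw [e1]
        congr 1
        ring

/-- Dyadic shells. -/
theorem inv_pow_le_tsum (t : ℕ) (y : SUGroup n) : ENNReal.ofReal ((ch y ^ (2 * t))⁻¹) ≤
    ∑' j : ℕ, ENNReal.ofReal (((2 : ℝ) ^ j) ^ (2 * t))⁻¹ * ib (2 ^ (j + 1)) y := by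
  have hy1 := one_le_ch y
  have hy0 := ch_pos y
  obtain ⟨j, hj1, hj2⟩ := exists_nat_pow_near hy1 (show (1 : ℝ) < 2 by norm_num)
  refine le_trans ?_ (ENNReal.le_tsum j)
  have h1 : ib (2 ^ (j + 1)) y = 1 := by unfold ib; rw [if_pos hj2.le]
  rw [h1, mul_one]
  refine ENNReal.ofReal_le_ofReal ?_
  exact inv_anti₀ (by positivity) (pow_le_pow_left₀ (by positivity) hj1 _)

/-- The weighted estimate: dyadic shells and `sig_poly`. -/
theorem LimN.weighted (hΓ : Lat Γ χ) (hF : LimN ρ χ N C F) : ∃ t₁ : ℕ, ∀ t : ℕ, t₁ ≤ t →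
    ∃ M : ℝ, 0 ≤ M ∧ ∀ a : SUGroup n, ‖a.toMatrix - 1‖ ≤ 1 →
      ∫⁻ y, ENNReal.ofReal ((ch y ^ (2 * t))⁻¹) * Sq F a y ∂(mu n) ≤
        ENNReal.ofReal (M * ‖a.toMatrix - 1‖ ^ 2) := by
  obtain ⟨M, k, hM0, hM⟩ := LimN.sig_poly hΓ hF
  have hL := hF.limMet hΓ
  refine ⟨k + 1, fun t ht => ⟨M * 2 ^ k * 2, by positivity, fun a ha => ?_⟩⟩
  obtain ⟨δ, hδ⟩ : ∃ δ : ℝ, δ = ‖a.toMatrix - 1‖ := ⟨_, rfl⟩
  have hδ0 : 0 ≤ δ := by rw [hδ]; exact norm_nonneg _
  calc ∫⁻ y, ENNReal.ofReal ((ch y ^ (2 * t))⁻¹) * Sq F a y ∂(mu n)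
      ≤ ∫⁻ y, ∑' j : ℕ, ENNReal.ofReal (((2 : ℝ) ^ j) ^ (2 * t))⁻¹ *
          (ib (2 ^ (j + 1)) y * Sq F a y) ∂(mu n) := by
        refine lintegral_mono fun y => ?_
        refine (mul_le_mul_left (inv_pow_le_tsum t y) _).trans (le_of_eq ?_)
        rw [← ENNReal.tsum_mul_right]
        refine tsum_congr fun j => ?_
        ring
    _ = ∑' j : ℕ, ∫⁻ y, ENNReal.ofReal (((2 : ℝ) ^ j) ^ (2 * t))⁻¹ *
          (ib (2 ^ (j + 1)) y * Sq F a y) ∂(mu n) := by
        refine lintegral_tsum fun j => ?_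
        exact ((measurable_ib _).aemeasurable.mul (hL.aem_Sq a)).const_mul _
    _ ≤ ∑' j : ℕ, ENNReal.ofReal (M * 2 ^ k * δ ^ 2) * ENNReal.ofReal (1 / 2) ^ j := by
        refine ENNReal.tsum_le_tsum fun j => ?_
        rw [lintegral_const_mul' _ _ ENNReal.ofReal_ne_top]
        have h1 := hM (2 ^ (j + 1)) (one_le_pow₀ (by norm_num)) a ha
        calc ENNReal.ofReal (((2 : ℝ) ^ j) ^ (2 * t))⁻¹ *
              ∫⁻ y, ib (2 ^ (j + 1)) y * Sq F a y ∂(mu n)
            ≤ ENNReal.ofReal (((2 : ℝ) ^ j) ^ (2 * t))⁻¹ *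
              ENNReal.ofReal (M * (2 ^ (j + 1)) ^ k * ‖a.toMatrix - 1‖ ^ 2) := by gcongr
          _ = ENNReal.ofReal ((((2 : ℝ) ^ j) ^ (2 * t))⁻¹ *
              (M * (2 ^ (j + 1)) ^ k * δ ^ 2)) := by
              rw [← ENNReal.ofReal_mul (by positivity), hδ]
          _ ≤ ENNReal.ofReal (M * 2 ^ k * δ ^ 2 * (1 / 2) ^ j) := by
              refine ENNReal.ofReal_le_ofReal ?_
              have e1 : (((2 : ℝ) ^ j) ^ (2 * t))⁻¹ * (M * (2 ^ (j + 1)) ^ k * δ ^ 2) =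
                  M * 2 ^ k * δ ^ 2 * ((((2 : ℝ) ^ j) ^ (2 * t))⁻¹ * (2 ^ j) ^ k) := by
                rw [pow_succ, mul_pow]
                ring
              rw [e1]
              refine mul_le_mul_of_nonneg_left ?_ (by positivity)
              have h2 : (1 : ℝ) ≤ 2 ^ j := one_le_pow₀ (by norm_num)
              rw [one_div, inv_pow, ← div_eq_inv_mul, div_le_iff₀ (by positivity),
                ← div_eq_inv_mul, le_div_iff₀ (by positivity), ← pow_succ]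
              exact pow_le_pow_right₀ h2 (by omega)
          _ = _ := by
              rw [ENNReal.ofReal_mul (by positivity), ENNReal.ofReal_pow (by norm_num)]
    _ = ENNReal.ofReal (M * 2 ^ k * δ ^ 2) * ENNReal.ofReal 2 := by
        rw [ENNReal.tsum_mul_left, ENNReal.tsum_geometric]
        congr 1
        rw [← ENNReal.ofReal_one, ← ENNReal.ofReal_sub _ (by norm_num),
          ← ENNReal.ofReal_inv_of_pos (by norm_num)]
        norm_num
    _ = _ := by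
        rw [← ENNReal.ofReal_mul (by positivity), hδ]
        congr 1
        ring

/-- `P_sig_le`. -/
theorem LimN.P_sig_le (hΓ : Lat Γ χ) (hF : LimN ρ χ N C F) : ∃ t₁ : ℕ, ∀ t : ℕ, t₁ ≤ t →
    ∃ M : ℝ, 0 ≤ M ∧ ∀ a : SUGroup n, ‖a.toMatrix - 1‖ ≤ 1 → ∀ g : SUGroup n,
      P t (fun v => sig (F v) (F (act a v))) (act g (base n)) ≤
        M * ‖a.toMatrix - 1‖ ^ 2 * ch g ^ (2 * t) := by
  obtain ⟨t₁, ht₁⟩ := LimN.weighted hΓ hF
  have hL := hF.limMet hΓ
  refine ⟨t₁ + (n + 1), fun t ht => ?_⟩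
  obtain ⟨M, hM0, hM⟩ := ht₁ t (by omega)
  have hcs : 0 < cs n t := cs_pos' (by omega)
  refine ⟨2 ^ (2 * t) / cs n t * M, by positivity, fun a ha g => ?_⟩
  rw [P_orbit]
  have hm : AEStronglyMeasurable (fun x : SUGroup n => HM.kap t x •
      sig (F (act (g * x) (base n))) (F (act a (act (g * x) (base n))))) (mu n) := by
    refine (continuous_kap t).aestronglyMeasurable.smul ?_
    refine aesm_sig (hL.meas_left g) ?_ (fun _ => hL.opos _) fun x => ?_
    · have h1 := hL.meas_left (a * g)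
      refine h1.congr (Eventually.of_forall fun x => ?_)
      simp only
      rw [mul_assoc, act_mul a]
    · rw [← act_mul]; exact hL.opos _
  have hg := ch_pos g
  rw [integral_eq_lintegral_of_nonneg_ae (Eventually.of_forall fun x => ?_) hm]
  · refine ENNReal.toReal_le_of_le_ofReal (by positivity) ?_
    have h1 : ∫⁻ x : SUGroup n, ENNReal.ofReal (HM.kap t x •
        sig (F (act (g * x) (base n))) (F (act a (act (g * x) (base n))))) ∂(mu n) =
        ∫⁻ y : SUGroup n, ENNReal.ofReal (HM.kap t (g⁻¹ * y)) * Sq F a y ∂(mu n) := by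
      rw [← lintegral_mul_left_eq_self (μ := mu n)
        (fun y => ENNReal.ofReal (HM.kap t (g⁻¹ * y)) * Sq F a y) g]
      refine lintegral_congr fun x => ?_
      unfold Sq
      rw [inv_mul_cancel_left, smul_eq_mul, ENNReal.ofReal_mul (kap_nonneg _ _), act_mul a]
    rw [h1]
    have h2 : ∀ y, ENNReal.ofReal (HM.kap t (g⁻¹ * y)) * Sq F a y ≤
        ENNReal.ofReal ((2 * ch g) ^ (2 * t) / cs n t) *
          (ENNReal.ofReal ((ch y ^ (2 * t))⁻¹) * Sq F a y) := by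
      intro y
      rw [← mul_assoc, ← ENNReal.ofReal_mul (by positivity)]
      refine mul_le_mul_left (ENNReal.ofReal_le_ofReal ?_) _
      unfold HM.kap
      have h3 := ch_mul_le' g (g⁻¹ * y)
      rw [mul_inv_cancel_left] at h3
      have h4 := ch_pos y
      have h5 := ch_pos (g⁻¹ * y)
      have h6 : ch y ^ (2 * t) ≤ (2 * ch g) ^ (2 * t) * ch (g⁻¹ * y) ^ (2 * t) := by
        rw [← mul_pow]; exact pow_le_pow_left₀ h4.le h3 _
      have h7 : (ch (g⁻¹ * y) ^ (2 * t))⁻¹ ≤ (2 * ch g) ^ (2 * t) * (ch y ^ (2 * t))⁻¹ := by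
        rw [inv_eq_one_div, div_le_iff₀ (pow_pos h5 _)]
        calc (1 : ℝ) = ch y ^ (2 * t) * (ch y ^ (2 * t))⁻¹ := (mul_inv_cancel₀ (by positivity)).symm
          _ ≤ ((2 * ch g) ^ (2 * t) * ch (g⁻¹ * y) ^ (2 * t)) * (ch y ^ (2 * t))⁻¹ :=
              mul_le_mul_of_nonneg_right h6 (by positivity)
          _ = _ := by ring
      calc (ch (g⁻¹ * y) ^ (2 * t))⁻¹ / cs n t ≤ ((2 * ch g) ^ (2 * t) * (ch y ^ (2 * t))⁻¹) / cs n t :=
            div_le_div_of_nonneg_right h7 hcs.le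
        _ = _ := by ring
    calc _ ≤ ∫⁻ y, ENNReal.ofReal ((2 * ch g) ^ (2 * t) / cs n t) *
          (ENNReal.ofReal ((ch y ^ (2 * t))⁻¹) * Sq F a y) ∂(mu n) := lintegral_mono h2
      _ = ENNReal.ofReal ((2 * ch g) ^ (2 * t) / cs n t) *
          ∫⁻ y, (ENNReal.ofReal ((ch y ^ (2 * t))⁻¹) * Sq F a y) ∂(mu n) :=
          lintegral_const_mul' _ _ ENNReal.ofReal_ne_top
      _ ≤ ENNReal.ofReal ((2 * ch g) ^ (2 * t) / cs n t) *
          ENNReal.ofReal (M * ‖a.toMatrix - 1‖ ^ 2) := by gcongr; exact hM a ha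
      _ = _ := by
          rw [← ENNReal.ofReal_mul (by positivity)]
          congr 1
          rw [mul_pow]; ring
  · simp only [smul_eq_mul, Pi.zero_apply]
    exact mul_nonneg (kap_nonneg _ _) (sig_nonneg (hL.opos _) (by rw [← act_mul]; exact hL.opos _))


end Pool.Agent.Lib.MP_5d4057_al.NU
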