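import Pool.Agent.Lib.MP_5d4057_al.HM.AppOne

/-! The metric on the hyperplanes (blueprint h37_nu, F1). -/

namespace Pool.Agent.Lib.MP_5d4057_al.NU

open Matrix Filter Topology Pool.Agent.Lib.MP_5d4057_al
  Pool.Agent.Lib.MP_5d4057_al.Hyb Pool.Agent.Lib.MP_5d4057_al.HM

open scoped ComplexOrder MatrixOrder Matrix.Norms.L2Operator ENNReal

variable {n m j k : ℕ}

/-- F1, first half (the first part of the proof of `HM.key_lt`, with the metric as a hypothesis): the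
metric is constant on both hyperplanes, with the same value. -/
theorem key_const (U : ThmU) (Γ : Fin 2 → Subgroup (SUGroup (k + 1)))
    (g : Fin 2 → SUGroup (k + 2)) (hcocb : ∀ b, Coc (Γ b))
    (hspanb : ∀ b, Submodule.span ℂ (SUGroup.toMatrix '' (Γ b : Set (SUGroup (k + 1)))) = ⊤)
    {K : Subfield ℂ} {D : Matrix (Fin (k + 1)) (Fin (k + 1)) ℂ}
    {HD : Matrix (Fin (k + 1)) (Fin (k + 1)) K} {μ : Fin 2 → ℂ} {q : Fin 2 → K} (hcm : IsCM K)
    (hn : IsNF k K D HD μ q) (hrat : ∀ b, ∀ γ ∈ Γ b, EntriesIn K (dsum (μ b) D) γ.toMatrix)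
    {X : Matrix (Fin 2) (Fin 2) ℂ} {ζ : ℂ} (hζ : star ζ * ζ = 1)
    (hg : (g 1).toMatrix = (g 0).toMatrix * (ζ • bsum X 1))
    (t : ℂ ≃+* ℂ) (ht : ¬ ∀ x : K, t (x : ℂ) = x)
    (ht' : ¬ ∀ x : K, t (x : ℂ) = (starRingEnd ℂ) (x : ℂ))
    {F : Vec (k + 2) → Mat (k + 3)} (hF : Harm F) (hFe : Equi (rhoT t (hybrid Γ g)) F) :
    ∃ N : Mat (k + 3), N.PosDef ∧ ∀ b, ∀ w ∈ Cone (k + 1), F (HM.hyp (g b) w) = N := by
  set ρ := rhoT t (hybrid Γ g) with hρ
  -- definiteness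
  set τ : K →+* ℂ := t.toRingHom.comp K.subtype with hτ
  have hτa : ∀ x : K, τ x = t (x : ℂ) := fun x => rfl
  obtain ⟨ε, hε, hεq, hεD⟩ : ∃ ε : ℂ, ε ≠ 0 ∧ (∀ b, 0 < ε * τ (q b)) ∧ (ε • HD.map τ).PosDef := by
    have h0 := hn.definite 0 τ
    have h1 := hn.definite 1 τ
    have hneg : ∀ b, (-(dsum (τ (q b)) (HD.map τ))).PosDef →
        0 < -1 * τ (q b) ∧ ((-1 : ℂ) • HD.map τ).PosDef := by
      intro b hb
      have h2 : -(dsum (τ (q b)) (HD.map τ)) = dsum (-1 * τ (q b)) ((-1 : ℂ) • HD.map τ) := by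
        rw [← smul_dsum, neg_one_smul]
      rw [h2] at hb
      exact posDef_of_dsum' hb
    have hno : (HD.map τ).PosDef → ((-1 : ℂ) • HD.map τ).PosDef → False := by
      intro h2 h3
      have a1 : 0 < (HD.map τ) 0 0 := h2.diag_pos
      have a2 : 0 < -1 * (HD.map τ) 0 0 := by simpa using h3.diag_pos (i := 0)
      rw [neg_one_mul] at a2
      exact absurd a1 (lt_asymm (neg_pos.1 a2))
    rcases h0 with h0 | h0 | h0 | h0
    · exact absurd h0 ht
    · exact absurd h0 ht'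
    · obtain ⟨p0, pD⟩ := posDef_of_dsum' h0
      rcases h1 with h1 | h1 | h1 | h1
      · exact absurd h1 ht
      · exact absurd h1 ht'
      · obtain ⟨p1, -⟩ := posDef_of_dsum' h1
        refine ⟨1, one_ne_zero, ?_, by rw [one_smul]; exact pD⟩
        rw [Fin.forall_fin_two, one_mul, one_mul]
        exact ⟨p0, p1⟩
      · exact (hno pD (hneg 1 h1).2).elim
    · obtain ⟨p0, pD⟩ := hneg 0 h0
      rcases h1 with h1 | h1 | h1 | h1
      · exact absurd h1 ht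
      · exact absurd h1 ht'
      · obtain ⟨-, pD'⟩ := posDef_of_dsum' h1
        exact (hno pD' pD).elim
      · obtain ⟨p1, -⟩ := hneg 1 h1
        refine ⟨-1, by norm_num, ?_, pD⟩
        rw [Fin.forall_fin_two]
        exact ⟨p0, p1⟩
  -- the invariant metrics
  have hTD : IsUnit (D.map t) := tm_unit t hn.det
  set tD : Matrix (Fin (k + 1)) (Fin (k + 1)) ℂ := D.map t with htD
  set Z' : Matrix (Fin (k + 1)) (Fin (k + 1)) ℂ := tD * (ε • HD.map τ)⁻¹ * tDᴴ with hZ'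
  have hZ'pos : Z'.PosDef :=
    hεD.inv.mul_mul_conjTranspose_same (Matrix.vecMul_injective_of_isUnit hTD)
  have hμ : ∀ b, t (μ b) ≠ 0 := fun b => (map_ne_zero t).2 (hn.μ_ne b)
  set z : Fin 2 → ℂ := fun b => t (μ b) * (ε * τ (q b))⁻¹ * star (t (μ b)) with hz
  have hzpos : ∀ b, 0 < z b := by
    intro b
    have h1 : z b = (star (t (μ b)) * t (μ b)) * (ε * τ (q b))⁻¹ := by rw [hz]; ring
    rw [h1]
    exact mul_pos (pos_star_mul (hμ b)) (pos_inv (hεq b))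
  have hZb : ∀ b, dsum (z b) Z' = (dsum (μ b) D).map t * (ε • dsum (τ (q b)) (HD.map τ))⁻¹ *
      ((dsum (μ b) D).map t)ᴴ := by
    intro b
    rw [tm_dsum, smul_dsum, dsum_inv' (hεq b).ne' hεD.isUnit, dsum_conjTranspose, dsum_mul, dsum_mul]
  have hinv : ∀ b, ∀ γ : Γ b, rhoT t (Γ b) γ * dsum (z b) Z' * (rhoT t (Γ b) γ)ᴴ =
      dsum (z b) Z' := by
    intro b γ
    have hf := isForm_of_nf hcm hn b
    obtain ⟨G, hG1, -, hG2⟩ := exists_rat hf (γ : SUGroup (k + 1)) (hrat b γ γ.2)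
    have hG := hG2 τ
    rw [dsum_map _ _ _ (map_zero τ)] at hG
    have hBd := isUnit_iff_ne_zero.2 hf.det
    set B := dsum (μ b) D with hB
    set tB := B.map t with htB
    have htBu : IsUnit tB := tm_unit t hf.det
    have htBd := (isUnit_iff_isUnit_det _).1 htBu
    set Gt := G.map τ with hGt
    have h1 : rhoT t (Γ b) γ = tB * Gt * tB⁻¹ := by
      have h2 : (γ : SUGroup (k + 1)).toMatrix = B * G.map (fun x : K => (x : ℂ)) * B⁻¹ := by
        rw [hG1]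
        calc (γ : SUGroup (k + 1)).toMatrix = (B * B⁻¹) * (γ : SUGroup (k + 1)).toMatrix *
              (B * B⁻¹) := by rw [mul_nonsing_inv _ hBd, Matrix.one_mul, Matrix.mul_one]
          _ = _ := by simp only [Matrix.mul_assoc]
      rw [rhoT_apply, h2, tm_mul, tm_mul, ← tm_inv t hf.det]
      rfl
    set P := ε • dsum (τ (q b)) (HD.map τ) with hP
    have hPu : IsUnit P := by
      rw [hP, smul_dsum]
      exact (posDef_dsum (hεq b) hεD).isUnit
    have hPd := (isUnit_iff_isUnit_det _).1 hPu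
    have h3 : Gtᴴ * P * Gt = P := by
      rw [hP, Matrix.mul_smul, Matrix.smul_mul, hG]
    have h4 : Gt * P⁻¹ * Gtᴴ = P⁻¹ := by
      have h5 : (P⁻¹ * Gtᴴ * P) * Gt = 1 := by
        calc (P⁻¹ * Gtᴴ * P) * Gt = P⁻¹ * (Gtᴴ * P * Gt) := by simp only [Matrix.mul_assoc]
          _ = 1 := by rw [h3, nonsing_inv_mul _ hPd]
      have h6 : Gt * (P⁻¹ * Gtᴴ * P) = 1 := mul_eq_one_comm.1 h5
      calc Gt * P⁻¹ * Gtᴴ = Gt * (P⁻¹ * Gtᴴ * P) * P⁻¹ := by
            simp only [Matrix.mul_assoc]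
            rw [mul_nonsing_inv _ hPd, Matrix.mul_one]
        _ = P⁻¹ := by rw [h6, Matrix.one_mul]
    rw [hZb b, ← hB, ← htB, ← hP, h1]
    have e1 : tB⁻¹ * tB = 1 := nonsing_inv_mul _ htBd
    have e2 : tBᴴ * (tB⁻¹)ᴴ = 1 := by rw [← conjTranspose_mul, e1, conjTranspose_one]
    calc tB * Gt * tB⁻¹ * (tB * P⁻¹ * tBᴴ) * (tB * Gt * tB⁻¹)ᴴ
        = tB * Gt * (tB⁻¹ * tB) * P⁻¹ * (tBᴴ * (tB⁻¹)ᴴ) * Gtᴴ * tBᴴ := by
          rw [conjTranspose_mul, conjTranspose_mul]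
          simp only [Matrix.mul_assoc]
      _ = tB * (Gt * P⁻¹ * Gtᴴ) * tBᴴ := by
          rw [e1, e2]
          simp only [Matrix.mul_assoc, Matrix.mul_one]
      _ = _ := by rw [h4]
  -- the metric on the hyperplanes
  have hsl : ∀ b, ∃ l a : ℂ, 0 < l ∧ 0 < a ∧ ∀ w ∈ Cone (k + 1), F (HM.hyp (g b) w) =
      (g b).toMatrix.map t * dsum l (a • dsum (z b) Z') * ((g b).toMatrix.map t)ᴴ := by
    intro b
    refine slice_form U (by omega) (hcocb b) (rhoT t (Γ b)) (span_rhoT t _ (hspanb b))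
      (harm_const (posDef_dsum (hzpos b) hZ'pos)) ?_ (tm_gp_unit t (g b)) (hF.hyp (g b))
      (ρ.comp (embHyb Γ g b)) (rhoT_emb t Γ g b) (hFe.hyp b)
    intro γ w _
    exact (hinv b γ).symm
  choose l a hl ha hFb using hsl
  have hcst : ∀ b, ∀ w ∈ Cone (k + 1), F (HM.hyp (g b) w) = F (HM.hyp (g b) (base (k + 1))) := by
    intro b w hw
    rw [hFb b w hw, hFb b _ (base_mem _)]
  refine ⟨F (HM.hyp (g 0) (base (k + 1))), ?_, ?_⟩
  · refine hF.pos _ ?_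
    rw [hyp_base]
    exact orbit_mem (g 0)
  · rw [Fin.forall_fin_two]
    refine ⟨hcst 0, fun w hw => ?_⟩
    rw [hcst 1 w hw, hyp_agree hζ hg hF.hom]

/-- F1, second half: a metric which is constant on both hyperplanes is invariant there. -/
theorem inv_of_const (Γ : Fin 2 → Subgroup (SUGroup (k + 1))) (g : Fin 2 → SUGroup (k + 2))
    (t : ℂ ≃+* ℂ) {F : Vec (k + 2) → Mat (k + 3)} (hFe : Equi (rhoT t (hybrid Γ g)) F)
    {N : Mat (k + 3)} (hN : ∀ b, ∀ w ∈ Cone (k + 1), F (HM.hyp (g b) w) = N) :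
    ∀ γ : hybrid Γ g, rhoT t (hybrid Γ g) γ * N * (rhoT t (hybrid Γ g) γ)ᴴ = N := by
  have h1 : ∀ b, ∀ γ : Γ b, rhoT t (hybrid Γ g) (embHyb Γ g b γ) * N *
      (rhoT t (hybrid Γ g) (embHyb Γ g b γ))ᴴ = N := by
    intro b γ
    have h2 := hFe.hyp b γ (base (k + 1)) (base_mem _)
    beta_reduce at h2
    rw [hN b _ (base_mem _), hN b _ (act_mem _ (base_mem _))] at h2
    exact h2.symm
  let S : Subgroup (hybrid Γ g) :=
    { carrier := {γ | rhoT t (hybrid Γ g) γ * N * (rhoT t (hybrid Γ g) γ)ᴴ = N}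
      mul_mem' := fun {x y} hx hy => by
        have hx' : rhoT t (hybrid Γ g) x * N * (rhoT t (hybrid Γ g) x)ᴴ = N := hx
        have hy' : rhoT t (hybrid Γ g) y * N * (rhoT t (hybrid Γ g) y)ᴴ = N := hy
        show rhoT t (hybrid Γ g) (x * y) * N * (rhoT t (hybrid Γ g) (x * y))ᴴ = N
        rw [map_mul, conjTranspose_mul]
        calc rhoT t (hybrid Γ g) x * rhoT t (hybrid Γ g) y * N *
              ((rhoT t (hybrid Γ g) y)ᴴ * (rhoT t (hybrid Γ g) x)ᴴ)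
            = rhoT t (hybrid Γ g) x * (rhoT t (hybrid Γ g) y * N * (rhoT t (hybrid Γ g) y)ᴴ) *
              (rhoT t (hybrid Γ g) x)ᴴ := by simp only [Matrix.mul_assoc]
          _ = N := by rw [hy', hx']
      one_mem' := by
        show rhoT t (hybrid Γ g) 1 * N * (rhoT t (hybrid Γ g) 1)ᴴ = N
        rw [map_one, Matrix.one_mul, conjTranspose_one, Matrix.mul_one]
      inv_mem' := fun {x} hx => by
        have hx' : rhoT t (hybrid Γ g) x * N * (rhoT t (hybrid Γ g) x)ᴴ = N := hx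
        show rhoT t (hybrid Γ g) x⁻¹ * N * (rhoT t (hybrid Γ g) x⁻¹)ᴴ = N
        have e1 : rhoT t (hybrid Γ g) x⁻¹ * rhoT t (hybrid Γ g) x = 1 := by
          rw [← map_mul, inv_mul_cancel, map_one]
        have e2 : (rhoT t (hybrid Γ g) x)ᴴ * (rhoT t (hybrid Γ g) x⁻¹)ᴴ = 1 := by
          rw [← conjTranspose_mul, e1, conjTranspose_one]
        calc rhoT t (hybrid Γ g) x⁻¹ * N * (rhoT t (hybrid Γ g) x⁻¹)ᴴ
            = rhoT t (hybrid Γ g) x⁻¹ * (rhoT t (hybrid Γ g) x * N *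
              (rhoT t (hybrid Γ g) x)ᴴ) * (rhoT t (hybrid Γ g) x⁻¹)ᴴ := by rw [hx']
          _ = (rhoT t (hybrid Γ g) x⁻¹ * rhoT t (hybrid Γ g) x) * N *
              ((rhoT t (hybrid Γ g) x)ᴴ * (rhoT t (hybrid Γ g) x⁻¹)ᴴ) := by
                simp only [Matrix.mul_assoc]
          _ = N := by rw [e1, e2, Matrix.one_mul, Matrix.mul_one] }
  have h3 : hybrid Γ g ≤ S.map (hybrid Γ g).subtype := by
    refine (Subgroup.closure_le _).2 ?_
    rintro x ⟨b, γ, hγ, rfl⟩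
    exact ⟨embHyb Γ g b ⟨γ, hγ⟩, h1 b ⟨γ, hγ⟩, rfl⟩
  intro γ
  obtain ⟨δ, hδ, e⟩ := h3 γ.2
  have e' : δ = γ := Subtype.ext e
  rw [← e']
  exact hδ

end Pool.Agent.Lib.MP_5d4057_al.NU
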