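import Pool.Agent.Lib.MP_5d4057_al.NU.FinalA
import Pool.Agent.Lib.MP_5d4057_al.NU.KeyC
import Pool.Agent.Lib.MP_5d4057_al.HM.AppPlur
import Pool.Agent.Lib.MP_5d4057_al.HM.Aut
import Pool.Agent.Lib.MP_5d4057_al.HM.WideD

/-! A lattice glued from two arithmetic pieces over a CM field of degree greater than two is
cocompact. -/

namespace Pool.Agent.Lib.MP_5d4057_al.NU

open Matrix Filter Topology Pool.Agent.Lib.MP_5d4057_al
  Pool.Agent.Lib.MP_5d4057_al.Hyb Pool.Agent.Lib.MP_5d4057_al.HM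

open scoped ComplexOrder MatrixOrder Matrix.Norms.L2Operator ENNReal

variable {n m k : ℕ}

/-- A metric is equivariant under smaller hybrids. -/
theorem equi_hybrid_mono {Γ Γ' : Fin 2 → Subgroup (SUGroup (k + 1))} (hle : ∀ b, Γ' b ≤ Γ b)
    (g : Fin 2 → SUGroup (k + 2)) (t : ℂ ≃+* ℂ) {F : Vec (k + 2) → Mat (k + 3)}
    (hFe : Equi (rhoT t (hybrid Γ g)) F) : Equi (rhoT t (hybrid Γ' g)) F := by
  have h1 : hybrid Γ' g ≤ hybrid Γ g := by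
    refine Subgroup.closure_mono ?_
    rintro x ⟨b, γ, hγ, rfl⟩
    exact ⟨b, γ, hle b hγ, rfl⟩
  intro γ v hv
  exact hFe ⟨γ, h1 γ.2⟩ v hv

/-- MAIN. A lattice glued from two lattices commensurable with `SU(H b, O_K)`, `K` a CM field of
degree greater than two, is cocompact. -/
theorem coc_of_field (hk : 1 ≤ k) (Γ₃ : Subgroup (SUGroup k))
    (Γ : Fin 2 → Subgroup (SUGroup (k + 1))) (g : Fin 2 → SUGroup (k + 2))
    (h₃ : IsLattice Γ₃) (hL : ∀ b, IsLattice (Γ b)) {K : Subfield ℂ}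
    {HH : Fin 2 → Matrix (Fin (k + 1 + 1)) (Fin (k + 1 + 1)) K}
    {B : Fin 2 → Matrix (Fin (k + 1 + 1)) (Fin (k + 1 + 1)) ℂ}
    (hf : ∀ b, IsForm (k + 1) K (HH b) (B b))
    (hc : ∀ b, Subgroup.Commensurable (Γ b) (integralPoints (k + 1) K (B b)))
    (hsub : ∀ b, ∀ γ ∈ Γ₃, extend k γ ∈ Γ b)
    (hagree : ∀ γ ∈ Γ₃, g 0 * extend (k + 1) (extend k γ) * (g 0)⁻¹ =
      g 1 * extend (k + 1) (extend k γ) * (g 1)⁻¹)
    (hlat : IsLattice (hybrid Γ g))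
    (τ : K →+* ℂ) (h1 : ¬ ∀ x : K, τ x = x)
    (h2 : ¬ ∀ x : K, τ x = (starRingEnd ℂ) (x : ℂ)) : Coc (hybrid Γ g) := by
  have hcm : IsCM K := (hf 0).cm
  have hnf : NumberField K := hcm.1
  obtain ⟨t, ht⟩ := exists_aut K τ
  have ht1 : ¬ ∀ x : K, t (x : ℂ) = x := fun h => h1 (fun x => by rw [← ht x, h x])
  have ht2 : ¬ ∀ x : K, t (x : ℂ) = (starRingEnd ℂ) (x : ℂ) :=
    fun h => h2 (fun x => by rw [← ht x, h x])
  have hcocb : ∀ b, Coc (Γ b) := fun b =>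
    coc_of_isForm (by omega) (hL b) (hf b) (hc b) τ h1 h2
  -- the rational parts
  obtain ⟨Γ', hΓ'⟩ : ∃ Γ' : Fin 2 → Subgroup (SUGroup (k + 1)),
    Γ' = fun b => ratPart (Γ b) K (B b) := ⟨_, rfl⟩
  have hle : ∀ b, Γ' b ≤ Γ b := by
    intro b
    rw [hΓ']
    exact ratPart_le _ _ _
  have hfin : ∀ b, (Γ' b).relIndex (Γ b) ≠ 0 := by
    intro b
    rw [hΓ']
    exact ratPart_relIndex (hc b)
  have hr' : ∀ b, ∀ γ ∈ Γ' b, EntriesIn K (B b) γ.toMatrix := by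
    intro b γ hγ
    rw [hΓ'] at hγ
    exact hγ.2.1
  have hcocb' : ∀ b, Coc (Γ' b) := fun b => (hcocb b).of_relIndex (hle b) (hfin b)
  have hspanb : ∀ b, Submodule.span ℂ
      (SUGroup.toMatrix '' (Γ' b : Set (SUGroup (k + 1)))) = ⊤ :=
    fun b => span_top (by omega : 1 ≤ k + 1) (Γ' b) (hcocb' b).isLattice
  have hcoc3 : Coc Γ₃ := coc_three h₃ (hsub 0) (hcocb 0)
  have hcoc3' : Coc (commonPart Γ₃ Γ') :=
    hcoc3.of_relIndex (commonPart_le Γ₃ Γ') (commonPart_relIndex hsub hfin)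
  obtain ⟨D, HD, μ, q, hn, -, hch⟩ := exists_normal_form hk (commonPart Γ₃ Γ') hcoc3'.isLattice K
    HH B hf (fun b γ hγ => hr' b _ (commonPart_sub Γ₃ Γ' b γ hγ))
  have hrat' : ∀ b, ∀ γ ∈ Γ' b, EntriesIn K (dsum (μ b) D) γ.toMatrix := by
    intro b γ hγ
    obtain ⟨σ, Q, hσ, hQd, hQe⟩ := hch b
    exact EntriesIn.change (hf b).det hσ hQd hQe (hr' b γ hγ)
  obtain ⟨X, ζ, hζ, hX, hg⟩ := frame hk Γ₃ h₃ g hagree
  -- the metric
  have hfg := fgg_hybrid (fun b => fgg_of_commensurable (hf b) (hc b)) g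
  obtain ⟨F, hF, hFe, -⟩ := exists_harm_lat (by omega : 2 ≤ k + 2) hlat hfg t
  obtain ⟨N, hN, hcst⟩ := key_const thmU Γ' g hcocb' hspanb hcm hn hrat' hζ hg t ht1 ht2 hF
    (equi_hybrid_mono hle g t hFe)
  exact coc_of_inv (by omega) hlat hfg t hN (inv_of_const Γ g t hFe hcst)

/-- The narrow form: pieces in `SU(H b, K)`, with the trace field in place of `K`. -/
theorem coc_of_traceField (hk : 1 ≤ k) (Γ₃ : Subgroup (SUGroup k))
    (Γ : Fin 2 → Subgroup (SUGroup (k + 1))) (g : Fin 2 → SUGroup (k + 2))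
    (h₃ : IsLattice Γ₃) (hL : ∀ b, IsLattice (Γ b)) (hA : ∀ b, IsArithmetic (k + 1) (Γ b))
    (hsub : ∀ b, ∀ γ ∈ Γ₃, extend k γ ∈ Γ b)
    (hagree : ∀ γ ∈ Γ₃, g 0 * extend (k + 1) (extend k γ) * (g 0)⁻¹ =
      g 1 * extend (k + 1) (extend k γ) * (g 1)⁻¹)
    (hlat : IsLattice (hybrid Γ g)) (htr : traceField (Γ 0) = traceField (Γ 1))
    (τ : traceField (Γ 0) →+* ℂ) (h1 : ¬ ∀ x : traceField (Γ 0), τ x = x)
    (h2 : ¬ ∀ x : traceField (Γ 0), τ x = (starRingEnd ℂ) (x : ℂ)) : Coc (hybrid Γ g) := by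
  have hdata : ∃ (K : Subfield ℂ) (H : Fin 2 → Matrix (Fin (k + 1 + 1)) (Fin (k + 1 + 1)) K)
      (B : Fin 2 → Matrix (Fin (k + 1 + 1)) (Fin (k + 1 + 1)) ℂ), K = traceField (Γ 0) ∧
      ∀ b, IsForm (k + 1) K (H b) (B b) ∧
        Subgroup.Commensurable (Γ b) (integralPoints (k + 1) K (B b)) := by
    obtain ⟨K₀, H₀, B₀, hf₀, hr₀, hc₀⟩ := hA 0
    obtain ⟨K₁, H₁, B₁, hf₁, hr₁, hc₁⟩ := hA 1
    have e₀ := traceField_eq (by omega : 2 ≤ k + 1) (Γ 0) (hL 0) K₀ H₀ B₀ hf₀ hr₀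
    have e₁ := traceField_eq (by omega : 2 ≤ k + 1) (Γ 1) (hL 1) K₁ H₁ B₁ hf₁ hr₁
    have e : K₁ = K₀ := by rw [← e₀, ← e₁, htr]
    subst e
    refine ⟨K₁, fun b => if b = 0 then H₀ else H₁, fun b => if b = 0 then B₀ else B₁,
      e₀.symm, ?_⟩
    intro b
    fin_cases b
    · exact ⟨hf₀, hc₀⟩
    · exact ⟨hf₁, hc₁⟩
  obtain ⟨K, H, B, hK, hB⟩ := hdata
  subst hK
  exact coc_of_field hk Γ₃ Γ g h₃ hL (fun b => (hB b).1) (fun b => (hB b).2) hsub hagree hlat τ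
    h1 h2

end Pool.Agent.Lib.MP_5d4057_al.NU
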