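import Pool.Agent.Lib.MP_5d4057_al.NU.LatA
import Pool.Agent.Lib.MP_5d4057_al.HM.CutB

/-! Integration over `Γ \ G` of bounded invariant functions, for lattices (real versions). -/

namespace Pool.Agent.Lib.MP_5d4057_al.NU

open Matrix MeasureTheory Filter Topology Pool.Agent.Lib.MP_5d4057_al
  Pool.Agent.Lib.MP_5d4057_al.Hyb Pool.Agent.Lib.MP_5d4057_al.HM

open scoped ComplexOrder MatrixOrder Matrix.Norms.L2Operator ENNReal

variable {n m : ℕ} {E : Type} [NormedAddCommGroup E] [NormedSpace ℝ E]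

variable {Γ : Subgroup (SUGroup n)} {χ : SUGroup n → ℝ}

theorem Lat.integrable_smul (h : Lat Γ χ) {f : SUGroup n → E}
    (hm : AEStronglyMeasurable f (mu n)) (hb : ∃ C : ℝ, ∀ g, ‖f g‖ ≤ C) :
    Integrable (fun g => χ g • f g) (mu n) := by
  obtain ⟨C, hC⟩ := hb
  refine (h.int.norm.mul_const C).mono' (h.cont.aestronglyMeasurable.smul hm) ?_
  refine Filter.Eventually.of_forall fun g => ?_
  rw [norm_smul]
  exact mul_le_mul_of_nonneg_left (hC g) (norm_nonneg _)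

/-- Unfolding. -/
theorem unfoldN (h : Lat Γ χ) {f : SUGroup n → E}
    (hf : ∀ γ ∈ Γ, ∀ g, f (γ * g) = f g) (hm : AEStronglyMeasurable f (mu n))
    (hb : ∃ C : ℝ, ∀ g, ‖f g‖ ≤ C) {φ : SUGroup n → ℝ} (hφ : Integrable φ (mu n))
    (hφ1 : ∀ g, Summable fun γ : Γ => φ (γ * g)) {c : ℝ}
    (hφs : ∀ g, ∑' γ : Γ, φ (γ * g) = c) :
    ∫ g, φ g • f g ∂(mu n) = c • II χ f := by
  have := h.countable
  obtain ⟨C, hC⟩ := hb
  have hint : Integrable (fun g => φ g • f g) (mu n) := by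
    refine (hφ.norm.mul_const C).mono' (hφ.aestronglyMeasurable.smul hm) ?_
    refine Filter.Eventually.of_forall fun g => ?_
    rw [norm_smul]
    exact mul_le_mul_of_nonneg_left (hC g) (norm_nonneg _)
  set A : Γ → SUGroup n → E := fun γ g => χ ((γ : SUGroup n) * g) • (φ g • f g) with hA
  have hχγ : ∀ γ : Γ, Continuous fun g => χ ((γ : SUGroup n) * g) := fun γ =>
    h.cont.comp (continuous_const_mul (γ : SUGroup n))
  have hAi : ∀ γ, Integrable (A γ) (mu n) := by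
    intro γ
    refine hint.norm.mono' ((hχγ γ).aestronglyMeasurable.smul hint.aestronglyMeasurable) ?_
    refine Filter.Eventually.of_forall fun g => ?_
    rw [hA, norm_smul, Real.norm_of_nonneg (h.pos _).le]
    exact mul_le_of_le_one_left (norm_nonneg _) (h.le_one _)
  have hAs : Summable fun γ => ∫ g, ‖A γ g‖ ∂(mu n) := by
    refine summable_of_sum_le (c := ∫ g, ‖φ g • f g‖ ∂(mu n))
      (fun γ => integral_nonneg fun g => norm_nonneg _) fun T => ?_
    rw [← integral_finsetSum T fun γ _ => (hAi γ).norm]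
    refine integral_mono (integrable_finsetSum T fun γ _ => (hAi γ).norm) hint.norm fun g => ?_
    show ∑ γ ∈ T, ‖A γ g‖ ≤ ‖φ g • f g‖
    have h1 : ∀ γ ∈ T, ‖A γ g‖ = χ ((γ : SUGroup n) * g) * ‖φ g • f g‖ := by
      intro γ _
      rw [hA, norm_smul, Real.norm_of_nonneg (h.pos _).le]
    rw [Finset.sum_congr rfl h1, ← Finset.sum_mul]
    exact mul_le_of_le_one_left (norm_nonneg _) (h.sum_le g T)
  have h1 := (hasSum_integral_of_summable_integral_norm hAi hAs).tsum_eq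
  have e1 : ∀ g, ∑' γ, A γ g = φ g • f g := by
    intro g
    rw [hA]
    have h2 := (h.summable g).hasSum.smul_const (φ g • f g)
    rw [h.sum g, one_smul] at h2
    exact h2.tsum_eq
  set B : Γ → SUGroup n → E := fun γ g => A γ (((γ⁻¹ : Γ) : SUGroup n) * g) with hB
  have hBi : ∀ γ, Integrable (B γ) (mu n) := fun γ => (hAi γ).comp_mul_left _
  have hBA : ∀ γ, ∫ g, B γ g ∂(mu n) = ∫ g, A γ g ∂(mu n) := fun γ =>
    integral_mul_left_eq_self (A γ) _
  have hBAn : ∀ γ, ∫ g, ‖B γ g‖ ∂(mu n) = ∫ g, ‖A γ g‖ ∂(mu n) := fun γ =>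
    integral_mul_left_eq_self (fun g => ‖A γ g‖) _
  have hBs : Summable fun γ => ∫ g, ‖B γ g‖ ∂(mu n) := hAs.congr fun γ => (hBAn γ).symm
  have h2 := (hasSum_integral_of_summable_integral_norm hBi hBs).tsum_eq
  have e2 : ∀ g, ∑' γ, B γ g = c • (χ g • f g) := by
    intro g
    have h3 : ∀ γ : Γ, B γ g = φ (((γ⁻¹ : Γ) : SUGroup n) * g) • (χ g • f g) := by
      intro γ
      rw [hB, hA]
      show χ ((γ : SUGroup n) * (((γ⁻¹ : Γ) : SUGroup n) * g)) •
        (φ (((γ⁻¹ : Γ) : SUGroup n) * g) • f (((γ⁻¹ : Γ) : SUGroup n) * g)) = _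
      rw [hf _ (γ⁻¹).2, ← mul_assoc, ← Subgroup.coe_mul, mul_inv_cancel, Subgroup.coe_one, one_mul,
        smul_comm]
    rw [tsum_congr h3]
    have h4 : HasSum (fun γ : Γ => φ (((γ⁻¹ : Γ) : SUGroup n) * g)) c := by
      have h5 := (hφ1 g).hasSum
      rw [hφs g] at h5
      exact (Equiv.inv Γ).hasSum_iff.2 h5
    exact (h4.smul_const (χ g • f g)).tsum_eq
  calc ∫ g, φ g • f g ∂(mu n) = ∫ g, ∑' γ, A γ g ∂(mu n) := by simp only [e1]
    _ = ∑' γ, ∫ g, A γ g ∂(mu n) := h1.symm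
    _ = ∑' γ, ∫ g, B γ g ∂(mu n) := by simp only [hBA]
    _ = ∫ g, ∑' γ, B γ g ∂(mu n) := h2
    _ = ∫ g, c • (χ g • f g) ∂(mu n) := by simp only [e2]
    _ = c • II χ f := integral_smul c _

/-- Invariance under right translations. -/
theorem II_mul_rightN (h : Lat Γ χ) {f : SUGroup n → E}
    (hf : ∀ γ ∈ Γ, ∀ g, f (γ * g) = f g) (hm : AEStronglyMeasurable f (mu n))
    (hb : ∃ C : ℝ, ∀ g, ‖f g‖ ≤ C) (a : SUGroup n) :
    II χ (fun g => f (g * a)) = II χ f := by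
  have h1 : II χ (fun g => f (g * a)) = ∫ g, χ (g * a⁻¹) • f g ∂(mu n) := by
    unfold II
    rw [← integral_mul_right_eq_self (fun g => χ (g * a⁻¹) • f g) a]
    simp
  have h2 : ∀ g, (fun γ : Γ => χ ((γ : SUGroup n) * g * a⁻¹)) =
      fun γ : Γ => χ ((γ : SUGroup n) * (g * a⁻¹)) := by
    intro g
    funext γ
    rw [mul_assoc]
  rw [h1, unfoldN h hf hm hb (φ := fun g => χ (g * a⁻¹)) (c := 1) ?_ ?_ ?_, one_smul]
  · exact h.int.comp_mul_right a⁻¹
  · intro g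
    show Summable fun γ : Γ => χ ((γ : SUGroup n) * g * a⁻¹)
    rw [h2]
    exact h.summable _
  · intro g
    show ∑' γ : Γ, χ ((γ : SUGroup n) * g * a⁻¹) = 1
    rw [h2]
    exact h.sum _

/-- The integral of a derivative along a flow vanishes (bounded functions). -/
theorem II_flow_bdd [CompleteSpace E] (h : Lat Γ χ) {b : ℝ → SUGroup n} (hb0 : b 0 = 1)
    {Ψ Ψ' : SUGroup n → E} (hc0 : Continuous Ψ) (hc : Continuous Ψ')
    (hd : ∀ g t, HasDerivAt (fun t => Ψ (g * b t)) (Ψ' (g * b t)) t)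
    (hf : ∀ γ ∈ Γ, ∀ g, Ψ (γ * g) = Ψ g)
    (hb2 : ∃ C : ℝ, ∀ g, ‖Ψ g‖ ≤ C) (hb1 : ∃ C : ℝ, ∀ g, ‖Ψ' g‖ ≤ C) : II χ Ψ' = 0 := by
  obtain ⟨C, hC⟩ := hb1
  have key := hasDerivAt_integral_of_dominated_loc_of_deriv_le (μ := mu n) (𝕜 := ℝ)
    (F := fun t g => χ g • Ψ (g * b t)) (F' := fun t g => χ g • Ψ' (g * b t)) (x₀ := 0)
    (bound := fun g => ‖χ g‖ * C) (s := Set.univ) univ_mem
    (Filter.Eventually.of_forall fun t =>
      (h.cont.smul (hc0.comp (continuous_mul_const (b t)))).aestronglyMeasurable)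
    ?_ ((h.cont.smul (hc.comp (continuous_mul_const (b 0)))).aestronglyMeasurable)
    (Filter.Eventually.of_forall fun g t _ => ?_) (h.int.norm.mul_const C)
    (Filter.Eventually.of_forall fun g t _ => (hd g t).const_smul (χ g))
  · have h1 : (fun t => ∫ g, χ g • Ψ (g * b t) ∂(mu n)) = fun _ => II χ Ψ := by
      funext t
      exact II_mul_rightN h hf hc0.aestronglyMeasurable hb2 (b t)
    have h2 := key.2
    rw [h1] at h2
    have h3 := h2.unique (hasDerivAt_const (0 : ℝ) (II χ Ψ))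
    have h4 : ∫ g, χ g • Ψ' (g * b 0) ∂(mu n) = II χ Ψ' := by
      rw [hb0]
      simp only [mul_one]
      rfl
    rw [← h4]
    exact h3
  · have h1 := h.integrable_smul hc0.aestronglyMeasurable hb2
    rw [hb0]
    simp only [mul_one]
    exact h1
  · rw [norm_smul]
    exact mul_le_mul_of_nonneg_left (hC _) (norm_nonneg _)

/-- `f` vanishes outside `Γ Q`. -/
def Off (Γ : Subgroup (SUGroup n)) (Q : Set (SUGroup n)) (f : SUGroup n → E) : Prop :=
  ∀ g, f g ≠ 0 → ∃ γ ∈ Γ, γ * g ∈ Q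

/-- A continuous invariant function which vanishes outside `Γ Q`, `Q` compact, is bounded. -/
theorem Off.bdd {Q : Set (SUGroup n)} (hQ : IsCompact Q) {f : SUGroup n → E} (ho : Off Γ Q f)
    (hc : Continuous f) (hf : ∀ γ ∈ Γ, ∀ g, f (γ * g) = f g) : ∃ C : ℝ, ∀ g, ‖f g‖ ≤ C := by
  obtain ⟨C, hC⟩ := hQ.exists_bound_of_continuousOn hc.continuousOn
  refine ⟨max C 0, fun g => ?_⟩
  by_cases h0 : f g = 0
  · rw [h0, norm_zero]
    exact le_max_right _ _
  · obtain ⟨γ, hγ, hγQ⟩ := ho g h0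
    rw [← hf γ hγ g]
    exact (hC _ hγQ).trans (le_max_left _ _)

/-- The derivative along a flow is invariant. -/
theorem inv_of_flow {b : ℝ → SUGroup n} (hb0 : b 0 = 1) {Ψ Ψ' : SUGroup n → E}
    (hd : ∀ g t, HasDerivAt (fun t => Ψ (g * b t)) (Ψ' (g * b t)) t)
    (hf : ∀ γ ∈ Γ, ∀ g, Ψ (γ * g) = Ψ g) : ∀ γ ∈ Γ, ∀ g, Ψ' (γ * g) = Ψ' g := by
  intro γ hγ g
  have h1 := hd (γ * g) 0
  have h2 := hd g 0
  rw [hb0, mul_one] at h1 h2
  have h3 : (fun t => Ψ (γ * g * b t)) = fun t => Ψ (g * b t) := by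
    funext t
    rw [mul_assoc, hf γ hγ]
  rw [h3] at h1
  exact h1.unique h2

/-- The integral of a derivative along a flow vanishes (compact support modulo `Γ`). -/
theorem II_flow_off [CompleteSpace E] (h : Lat Γ χ) {b : ℝ → SUGroup n} (hb0 : b 0 = 1)
    {Q : Set (SUGroup n)} (hQ : IsCompact Q) {Ψ Ψ' : SUGroup n → E} (hc0 : Continuous Ψ)
    (hc : Continuous Ψ') (hd : ∀ g t, HasDerivAt (fun t => Ψ (g * b t)) (Ψ' (g * b t)) t)
    (hf : ∀ γ ∈ Γ, ∀ g, Ψ (γ * g) = Ψ g) (ho : Off Γ Q Ψ) (ho' : Off Γ Q Ψ') :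
    II χ Ψ' = 0 :=
  II_flow_bdd h hb0 hc0 hc hd hf (ho.bdd hQ hc0 hf) (ho'.bdd hQ hc (inv_of_flow hb0 hd hf))

/-- If `f ≥ 0` is continuous, invariant and `LI χ f = 0`, it vanishes. -/
theorem eq_zero_of_LI (h : Lat Γ χ) {f : SUGroup n → ℝ} (hc : Continuous f) (h0 : ∀ g, 0 ≤ f g)
    (hz : LI χ (fun g => ENNReal.ofReal (f g)) = 0) (g : SUGroup n) : f g = 0 := by
  have hm : Measurable fun g => ENNReal.ofReal (χ g) * ENNReal.ofReal (f g) :=
    h.measurable.mul hc.measurable.ennreal_ofReal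
  have h1 := (lintegral_eq_zero_iff hm).1 hz
  have h2 : (fun g => χ g * f g) =ᵐ[mu n] 0 := by
    filter_upwards [h1] with x hx
    have h3 : ENNReal.ofReal (χ x * f x) = 0 := by
      rw [ENNReal.ofReal_mul (h.pos x).le]
      exact hx
    have h4 := ENNReal.ofReal_eq_zero.1 h3
    exact le_antisymm h4 (mul_nonneg (h.pos x).le (h0 x))
  have h3 : (fun g => χ g * f g) = 0 :=
    Continuous.ae_eq_iff_eq (mu n) (h.cont.mul hc) continuous_const |>.1 h2
  exact (mul_eq_zero.1 (congrFun h3 g)).resolve_left (h.pos g).ne'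

end Pool.Agent.Lib.MP_5d4057_al.NU
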