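import Pool.Agent.Lib.MP_5d4057_al.HM.AppVan
import Pool.Agent.Lib.MP_5d4057_al.NU.CuspL

/-! Sections of `T ⊗ L²` over a lattice: growth in the cusps (a principle of Koecher). -/

set_option autoImplicit false

namespace Pool.Agent.Lib.MP_5d4057_al.NU

open Matrix MeasureTheory Filter Topology Pool.Agent.Lib.MP_5d4057_al
  Pool.Agent.Lib.MP_5d4057_al.Hyb Pool.Agent.Lib.MP_5d4057_al.HM

variable {n : ℕ}

/-! ### The principle of Phragmen and Lindelöf for polynomial growth -/

theorem pl_poly {E : Type} [NormedAddCommGroup E] [NormedSpace ℂ E] {f : ℂ → E}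
    (hd : DiffContOnCl ℂ f {z | 0 < z.re}) {N : ℕ} {B C : ℝ}
    (hb : ∀ z : ℂ, 0 ≤ z.re → ‖f z‖ ≤ B * (1 + ‖z‖) ^ N)
    (him : ∀ x : ℝ, ‖f (x * Complex.I)‖ ≤ C) {z : ℂ} (hz : 0 ≤ z.re) : ‖f z‖ ≤ C := by
  have hB : 0 ≤ B := by
    have h1 := (norm_nonneg _).trans (hb 0 (by simp))
    simpa using h1
  have key : ∀ ε : ℝ, 0 < ε → ‖Complex.exp (-(ε * z)) • f z‖ ≤ C := by
    intro ε hε
    have hnorm : ∀ w : ℂ, ‖Complex.exp (-(ε * w)) • f w‖ = Real.exp (-(ε * w.re)) * ‖f w‖ := by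
      intro w
      rw [norm_smul, Complex.norm_exp]
      congr 2
      simp
    refine PhragmenLindelof.right_half_plane_of_tendsto_zero_on_real
      (f := fun w : ℂ => Complex.exp (-(ε * w)) • f w) ?_ ?_ ?_ ?_ hz
    · have h1 : Differentiable ℂ fun w : ℂ => Complex.exp (-(ε * w)) := by fun_prop
      exact h1.diffContOnCl.smul hd
    · refine ⟨1, by norm_num, N, ?_⟩
      refine Asymptotics.IsBigO.of_bound B ?_
      have h1 : ∀ᶠ w : ℂ in Bornology.cobounded ℂ ⊓ 𝓟 {z : ℂ | 0 < z.re}, 0 < w.re :=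
        mem_inf_of_right (mem_principal_self _)
      filter_upwards [h1] with w hw
      rw [hnorm, Real.norm_eq_abs, abs_of_pos (Real.exp_pos _), Real.rpow_one]
      have h2 : Real.exp (-(ε * w.re)) ≤ 1 := by
        rw [Real.exp_le_one_iff]
        have := mul_pos hε hw
        linarith
      calc Real.exp (-(ε * w.re)) * ‖f w‖ ≤ 1 * ‖f w‖ := by gcongr
        _ ≤ B * (1 + ‖w‖) ^ N := by
            rw [one_mul]
            exact hb w hw.le
        _ ≤ B * (Real.exp ‖w‖) ^ N := by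
            gcongr
            rw [add_comm]
            exact Real.add_one_le_exp _
        _ = B * Real.exp (N * ‖w‖) := by rw [← Real.exp_nat_mul]
    · rw [tendsto_zero_iff_norm_tendsto_zero]
      have h1 : Tendsto (fun x : ℝ => B * (2 * x) ^ N * Real.exp (-(ε * x))) atTop (𝓝 0) := by
        have h2 : Tendsto (fun x : ℝ => (ε * x) ^ N * Real.exp (-(ε * x))) atTop (𝓝 0) :=
          (Real.tendsto_pow_mul_exp_neg_atTop_nhds_zero N).comp
            (tendsto_id.const_mul_atTop hε)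
        have h3 := h2.const_mul (B * 2 ^ N / ε ^ N)
        rw [mul_zero] at h3
        refine h3.congr fun x => ?_
        have : ε ^ N ≠ 0 := pow_ne_zero _ hε.ne'
        rw [mul_pow, mul_pow]
        field_simp
      refine squeeze_zero' (Eventually.of_forall fun x => norm_nonneg _) ?_ h1
      filter_upwards [eventually_ge_atTop (1 : ℝ)] with x hx
      have h2 : 0 ≤ ((x : ℝ) : ℂ).re := by simp; linarith
      rw [hnorm, Complex.ofReal_re, mul_comm]
      refine mul_le_mul_of_nonneg_right ?_ (Real.exp_pos _).le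
      refine (hb x h2).trans ?_
      rw [Complex.norm_real, Real.norm_eq_abs, abs_of_nonneg (by linarith)]
      gcongr
      linarith
    · intro x
      rw [hnorm]
      simp only [Complex.mul_re, Complex.ofReal_re, Complex.I_re, mul_zero, Complex.ofReal_im,
        Complex.I_im, mul_one, sub_self, neg_zero, Real.exp_zero, one_mul]
      exact him x
  have h1 : Tendsto (fun ε : ℝ => ‖Complex.exp (-(ε * z)) • f z‖) (𝓝[>] 0)
      (𝓝 ‖Complex.exp (-(((0 : ℝ) : ℂ) * z)) • f z‖) := by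
    have h2 : Continuous fun ε : ℝ => ‖Complex.exp (-((ε : ℂ) * z)) • f z‖ := by fun_prop
    exact (h2.tendsto 0).mono_left nhdsWithin_le_nhds
  have h2 : ‖Complex.exp (-(((0 : ℝ) : ℂ) * z)) • f z‖ = ‖f z‖ := by simp
  rw [h2] at h1
  refine le_of_tendsto h1 ?_
  filter_upwards [self_mem_nhdsWithin] with ε hε
  exact key ε hε

/-! ### Norms -/

theorem vk_J (c : Fin (n + 1)) : ‖J n c c‖ = 1 := by
  have h := J_sq (n := n) c
  have h1 : ‖J n c c‖ * ‖J n c c‖ = 1 := by rw [← norm_mul, h, norm_one]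
  nlinarith [norm_nonneg (J n c c)]

theorem norm_herm_le (v w : Vec n) : ‖herm v w‖ ≤ (n + 1) * ‖v‖ * ‖w‖ := by
  rw [herm_sum]
  refine (norm_sum_le _ _).trans ?_
  have h1 : ∀ c ∈ Finset.univ, ‖star (v c) * (J n c c * w c)‖ ≤ ‖v‖ * ‖w‖ := by
    intro c _
    rw [norm_mul, norm_mul, norm_star, vk_J, one_mul]
    exact mul_le_mul (norm_le_pi_norm v c) (norm_le_pi_norm w c) (norm_nonneg _) (norm_nonneg _)
  refine (Finset.sum_le_sum h1).trans (le_of_eq ?_)
  rw [Finset.sum_const, Finset.card_univ, Fintype.card_fin, nsmul_eq_mul]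
  push_cast
  ring

theorem q_le_norm (v : Vec n) : q v ≤ (n + 1) * ‖v‖ ^ 2 := by
  have h1 := norm_herm_le v v
  rw [herm_self, Complex.norm_real, Real.norm_eq_abs] at h1
  calc q v ≤ |q v| := le_abs_self _
    _ ≤ _ := h1
    _ = _ := by ring

theorem norm_act_le (g : SUGroup n) (x : Vec n) : ‖act g x‖ ≤ 2 * (n + 1) * ch g * ‖x‖ := by
  have h0 := one_le_ch g
  rw [pi_norm_le_iff_of_nonneg (by positivity)]
  intro i
  rw [act, mulVec, dotProduct]
  refine (norm_sum_le _ _).trans ?_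
  have h1 : ∀ c ∈ Finset.univ, ‖g.toMatrix i c * x c‖ ≤ 2 * ch g * ‖x‖ := by
    intro c _
    rw [norm_mul]
    exact mul_le_mul (norm_entry_le g i c) (norm_le_pi_norm x c) (norm_nonneg _) (by positivity)
  refine (Finset.sum_le_sum h1).trans (le_of_eq ?_)
  rw [Finset.sum_const, Finset.card_univ, Fintype.card_fin, nsmul_eq_mul]
  push_cast
  ring

theorem norm_base : ‖base n‖ = 1 := by
  rw [base, Pi.norm_single, norm_one]

theorem ch_act (g : SUGroup n) : ch g = ‖act g (base n) (Fin.last n)‖ := by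
  rw [ch, act, base, Matrix.mulVec_single_one, Matrix.col_apply]

/-! ### The representative in the complement of a null vector -/

variable {Γ : Subgroup (SUGroup n)} {β : Vec n → Vec n} {p v : Vec n}

/-- The representative of `β v` modulo `v` orthogonal to `p`. -/
noncomputable def cpr (p : Vec n) (β : Vec n → Vec n) (v : Vec n) : Vec n :=
  β v - (herm p (β v) / herm p v) • v

theorem herm_cpr (h : herm p v ≠ 0) : herm p (cpr p β v) = 0 := by
  rw [cpr, sub_eq_add_neg, herm_add_right, herm_neg_right, herm_smul_right, div_mul_cancel₀ _ h,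
    add_neg_cancel]

theorem herm_null_ne (hp : p ≠ 0) (hq : q p = 0) (hv : v ∈ Cone n) : herm p v ≠ 0 := by
  intro h
  have h3 := q_pos_of_orth hv (by rw [herm_comm, h, star_zero]) hp
  rw [hq] at h3
  exact lt_irrefl _ h3

theorem cpr_hasZ (h : Sec Γ β) (hv : v ∈ Cone n) (hp : herm p v ≠ 0) (ξ : Vec n) :
    HasZ (cpr p β) v ξ (pz (cpr p β) v ξ) 0 := by
  have h1 := hasZ (h.diff hv) ξ
  have h2 : HasZ (fun w => herm p (β w)) v ξ _ _ := h1.clm (hmL n (star p))
  have h3 := hasZ_herm_left p v ξ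
  have h4 : HasZ (fun w => β w - (herm p (β w) * (herm p w)⁻¹) • w) v ξ _ _ :=
    h1.sub ((h2.mul' (h3.inv hp)).smul (hasZ_id v ξ))
  have h5 : HasZ (cpr p β) v ξ _ _ := h4
  refine HasZ.of_eq h5 h5.pz.symm ?_
  rw [h.pb v hv ξ, hmL_apply]
  simp only [herm_neg_right, herm_smul_right]
  rw [smul_zero, zero_add, neg_zero, zero_div, mul_zero, zero_add, neg_mul, mul_assoc,
    mul_inv_cancel₀ hp, mul_one, neg_smul, sub_neg_eq_add, neg_add_cancel]

/-- `u` is the transvection along the null vector `p`. -/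
def IsT (u : SUGroup n) (p : Vec n) (κ : ℝ) : Prop :=
  ∀ x, act u x = x + ((κ : ℂ) * Complex.I * herm p x) • p

/-- The curve `v - z ⟨p,v⟩ p`. -/
noncomputable def Ln (p v : Vec n) (z : ℂ) : Vec n := v - (z * herm p v) • p

theorem herm_pp (hq : q p = 0) : herm p p = 0 := by
  rw [herm_self, hq, Complex.ofReal_zero]

theorem herm_Ln_left (hq : q p = 0) (z : ℂ) : herm p (Ln p v z) = herm p v := by
  rw [Ln, sub_eq_add_neg, herm_add_right, herm_neg_right, herm_smul_right, herm_pp hq, mul_zero,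
    neg_zero, add_zero]

theorem herm_Ln_right {x : Vec n} (hx : herm p x = 0) (z : ℂ) :
    herm (Ln p v z) x = herm v x := by
  rw [Ln, herm_sub_left, herm_smul_left, hx, mul_zero, sub_zero]

theorem q_Ln (hq : q p = 0) (z : ℂ) :
    q (Ln p v z) = q v - 2 * z.re * ‖herm p v‖ ^ 2 := by
  have h1 : ((q (Ln p v z) : ℝ) : ℂ) = ((q v - 2 * z.re * ‖herm p v‖ ^ 2 : ℝ) : ℂ) := by
    have hs : ∀ a b c : Vec n, herm a (b - c) = herm a b - herm a c := fun a b c => by
      rw [sub_eq_add_neg, herm_add_right, herm_neg_right, ← sub_eq_add_neg]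
    rw [← herm_self, Ln, herm_sub_left, herm_smul_left, ← Ln, herm_Ln_left hq, Ln, hs,
      herm_smul_right, herm_self, herm_comm p v]
    have h2 : (star z + z : ℂ) = ((2 * z.re : ℝ) : ℂ) := by
      rw [add_comm]
      exact Complex.add_conj z
    have h3 : star (herm p v) * herm p v = ((‖herm p v‖ ^ 2 : ℝ) : ℂ) := by
      rw [RCLike.star_def, mul_comm, Complex.mul_conj, Complex.normSq_eq_norm_sq]
    push_cast at h2 h3 ⊢
    rw [star_mul', ← h3]
    linear_combination -(star (herm p v) * herm p v) * h2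
  exact_mod_cast h1

theorem Ln_mem (hq : q p = 0) (hv : v ∈ Cone n) {z : ℂ} (hz : 0 ≤ z.re) : Ln p v z ∈ Cone n := by
  show q (Ln p v z) < 0
  rw [q_Ln hq]
  have h1 : q v < 0 := hv
  have h2 := mul_nonneg hz (sq_nonneg ‖herm p v‖)
  nlinarith

theorem act_Ln {u : SUGroup n} {κ : ℝ} (hu : IsT u p κ) (hq : q p = 0) (z : ℂ) :
    act u (Ln p v z) = Ln p v (z - κ * Complex.I) := by
  rw [hu, herm_Ln_left hq, Ln, Ln]
  module

theorem norm_Ln_le (z : ℂ) : ‖Ln p v z‖ ≤ ‖v‖ + ‖z‖ * (‖herm p v‖ * ‖p‖) := by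
  rw [Ln]
  refine (norm_sub_le _ _).trans ?_
  rw [norm_smul, norm_mul, mul_assoc]

/-- Growth of sections. -/
theorem Sec.norm_le (h : Sec Γ β) {C : ℝ} {N : ℕ}
    (hg : ∀ g : SUGroup n, ‖β (act g (base n))‖ ≤ C * ch g ^ N) {w : Vec n} (hw : q w ≤ -1) :
    ‖β w‖ ≤ C * ‖w‖ ^ N := by
  have hwC : w ∈ Cone n := by
    show q w < 0
    linarith
  have hC : 0 ≤ C := by
    have := (norm_nonneg _).trans (hg 1)
    rwa [ch_one, one_pow, mul_one] at this
  obtain ⟨g, c, hc, rfl⟩ := exists_act_eq hwC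
  have hc0 : 0 < ‖c‖ := norm_pos_iff.2 hc
  have hc1 : 1 ≤ ‖c‖ := by
    rw [q_smul, q_orbit] at hw
    nlinarith
  rw [h.hom c hc _ (orbit_mem g), norm_smul, norm_inv]
  have h1 : ch g ≤ ‖c • act g (base n)‖ := by
    have h2 := norm_le_pi_norm (c • act g (base n)) (Fin.last n)
    rw [Pi.smul_apply, norm_smul, ← ch_act] at h2
    have h3 := one_le_ch g
    nlinarith
  have h2 := hg g
  have h3 : ‖c‖⁻¹ ≤ 1 := inv_le_one_of_one_le₀ hc1
  have h4 := one_le_ch g
  calc ‖c‖⁻¹ * ‖β (act g (base n))‖ ≤ 1 * (C * ch g ^ N) :=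
        mul_le_mul h3 h2 (norm_nonneg _) (by norm_num)
    _ ≤ C * ‖c • act g (base n)‖ ^ N := by
        rw [one_mul]
        gcongr

/-- The value of the norm in terms of the representative. -/
theorem q_cpr (h : Sec Γ β) {w : Vec n} (hw : w ∈ Cone n) :
    -q w * q (β w) = -q w * q (cpr p β w) + ‖herm w (cpr p β w)‖ ^ 2 := by
  have hq := q_ne hw
  set φ := cpr p β w with hφ
  set lam : ℂ := herm p (β w) / herm p w with hlam
  have e1 : β w = φ + lam • w := by
    rw [hφ, cpr, sub_add_cancel]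
  have e2 : herm w φ + lam * (q w : ℂ) = 0 := by
    rw [← h.orth w hw, e1, herm_add_right, herm_smul_right, herm_self]
  have e3 : herm φ w = star (herm w φ) := herm_comm _ _
  have e4 : ((q (β w) : ℝ) : ℂ) = (q φ : ℂ) + lam * star (herm w φ) := by
    have h1 : herm (β w) (β w) = herm φ (β w) := by
      conv_lhs => rw [e1]
      rw [herm_add_left, herm_smul_left, ← e1, h.orth w hw, mul_zero, add_zero]
    rw [← herm_self, h1, e1, herm_add_right, herm_smul_right, herm_self, e3]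
  have e5 : herm w φ * star (herm w φ) = ((‖herm w φ‖ ^ 2 : ℝ) : ℂ) := by
    rw [RCLike.star_def, Complex.mul_conj, Complex.normSq_eq_norm_sq]
  have e6 : ((-q w * q (β w) : ℝ) : ℂ) = ((-q w * q φ + ‖herm w φ‖ ^ 2 : ℝ) : ℂ) := by
    push_cast at e5 ⊢
    rw [e4, ← e5]
    linear_combination -star (herm w φ) * e2
  exact_mod_cast e6

/-- The principle of Koecher along the curve. -/
theorem Sec.koecher (h : Sec Γ β) {C : ℝ} {N : ℕ}
    (hg : ∀ g : SUGroup n, ‖β (act g (base n))‖ ≤ C * ch g ^ N) {u : SUGroup n} (hu : u ∈ Γ)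
    {κ : ℝ} (hκ : |κ| = 1) (hut : IsT u p κ) (hp : p ≠ 0) (hq : q p = 0) (hv : q v = -1)
    {A E : ℝ} (hA1 : 1 ≤ A) (hA : ‖v‖ ≤ A) (hA' : ‖herm p v‖ * ‖p‖ ≤ A)
    (hE0 : 0 ≤ E) (hE : (n + 1) * ‖p‖ ≤ E * ‖herm p v‖) {z : ℂ} (hz : 0 ≤ z.re) :
    ‖cpr p β (Ln p v z)‖ ≤ C * A ^ N * (1 + E * A) * 2 ^ (N + 1) := by
  have hC : 0 ≤ C := by
    have := (norm_nonneg _).trans (hg 1)
    rwa [ch_one, one_pow, mul_one] at this
  have hvC : v ∈ Cone n := by
    show q v < 0
    linarith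
  have hpv := herm_null_ne hp hq hvC
  have hpv0 : 0 < ‖herm p v‖ := norm_pos_iff.2 hpv
  set φ : ℂ → Vec n := fun z => cpr p β (Ln p v z) with hφ
  -- growth
  have hgr : ∀ z : ℂ, 0 ≤ z.re →
      ‖φ z‖ ≤ C * A ^ N * (1 + E * A) * (1 + ‖z‖) ^ (N + 1) := by
    intro z hz
    have hw1 : q (Ln p v z) ≤ -1 := by
      rw [q_Ln hq, hv]
      have := mul_nonneg hz (sq_nonneg ‖herm p v‖)
      linarith
    have h1 := Sec.norm_le h hg hw1
    have h2 : ‖Ln p v z‖ ≤ A * (1 + ‖z‖) := by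
      refine (norm_Ln_le z).trans ?_
      have := mul_le_mul_of_nonneg_left hA' (norm_nonneg z)
      linarith
    set w := Ln p v z with hw
    have h3 : ‖φ z‖ ≤ ‖β w‖ * (1 + E * ‖w‖) := by
      show ‖cpr p β w‖ ≤ _
      rw [cpr]
      refine (norm_sub_le _ _).trans ?_
      rw [norm_smul, norm_div, hw, herm_Ln_left hq, ← hw]
      have h4 : ‖herm p (β w)‖ ≤ E * ‖herm p v‖ * ‖β w‖ :=
        (norm_herm_le _ _).trans (mul_le_mul_of_nonneg_right hE (norm_nonneg _))
      have h5 : ‖herm p (β w)‖ / ‖herm p v‖ ≤ E * ‖β w‖ := by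
        rw [div_le_iff₀ hpv0]
        linarith
      have h6 := mul_le_mul_of_nonneg_right h5 (norm_nonneg w)
      linarith
    have h7 : (1 : ℝ) ≤ 1 + ‖z‖ := by linarith [norm_nonneg z]
    calc ‖φ z‖ ≤ ‖β w‖ * (1 + E * ‖w‖) := h3
      _ ≤ (C * (A * (1 + ‖z‖)) ^ N) * (1 + E * (A * (1 + ‖z‖))) := by
          have h8 : C * ‖w‖ ^ N ≤ C * (A * (1 + ‖z‖)) ^ N := by gcongr
          have h9 : 1 + E * ‖w‖ ≤ 1 + E * (A * (1 + ‖z‖)) := by gcongr
          exact mul_le_mul (h1.trans h8) h9 (by positivity) (by positivity)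
      _ ≤ (C * (A * (1 + ‖z‖)) ^ N) * ((1 + E * A) * (1 + ‖z‖)) := by
          refine mul_le_mul_of_nonneg_left ?_ (by positivity)
          nlinarith [norm_nonneg z]
      _ = _ := by rw [mul_pow, pow_succ]; ring
  -- holomorphy
  have hdiff : ∀ z : ℂ, 0 ≤ z.re → DifferentiableAt ℂ φ z := by
    intro z hz
    have hw := Ln_mem (v := v) hq hvC hz
    have hpw : herm p (Ln p v z) ≠ 0 := by rwa [herm_Ln_left hq]
    have h1 : DifferentiableAt ℂ (cpr p β) (Ln p v z) :=
      differentiableAt_of_pb (cpr_hasZ h hw hpw 0).diff fun ξ => (cpr_hasZ h hw hpw ξ).pb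
    have h2 : DifferentiableAt ℂ (fun z : ℂ => Ln p v z) z := by
      unfold Ln
      fun_prop
    exact h1.comp z h2
  have hd : DiffContOnCl ℂ φ {z | 0 < z.re} := by
    have h1 : closure {z : ℂ | 0 < z.re} ⊆ {z : ℂ | 0 ≤ z.re} :=
      closure_minimal (fun z (hz : 0 < z.re) => hz.le)
        (isClosed_le continuous_const Complex.continuous_re)
    exact DifferentiableOn.diffContOnCl fun z hz => (hdiff z (h1 hz)).differentiableWithinAt
  -- periodicity
  have hper : ∀ z : ℂ, 0 ≤ z.re → φ (z - κ * Complex.I) = φ z := by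
    intro z hz
    have hw := Ln_mem (v := v) hq hvC hz
    have hpw : herm p (Ln p v z) ≠ 0 := by rwa [herm_Ln_left hq]
    show cpr p β (Ln p v (z - κ * Complex.I)) = cpr p β (Ln p v z)
    rw [← act_Ln hut hq]
    have e1 : ∀ x, herm p (act u x) = herm p x := by
      intro x
      rw [hut, herm_add_right, herm_smul_right, herm_pp hq, mul_zero, add_zero]
    have e2 : cpr p β (act u (Ln p v z)) = act u (cpr p β (Ln p v z)) := by
      rw [cpr, cpr, h.equi u hu _ hw, e1, e1, sub_eq_add_neg, sub_eq_add_neg, act_add,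
        ← neg_smul, ← neg_smul, act_smul]
    rw [e2, hut, herm_cpr hpw, mul_zero, zero_smul, add_zero]
  have hper1 : Function.Periodic (fun x : ℝ => φ (x * Complex.I)) 1 := by
    intro x
    rcases (abs_eq (zero_le_one)).1 hκ with h1 | h1
    · have h2 := hper (((x + 1 : ℝ) : ℂ) * Complex.I) (by simp)
      show φ (((x + 1 : ℝ) : ℂ) * Complex.I) = φ (x * Complex.I)
      rw [← h2, h1]
      congr 1
      push_cast
      ring
    · have h2 := hper ((x : ℂ) * Complex.I) (by simp)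
      show φ (((x + 1 : ℝ) : ℂ) * Complex.I) = φ (x * Complex.I)
      rw [← h2, h1]
      congr 1
      push_cast
      ring
  refine pl_poly hd hgr (fun x => ?_) hz
  obtain ⟨y, hy, hxy⟩ := hper1.exists_mem_Ico₀ one_pos x
  have hxy' : φ (x * Complex.I) = φ (y * Complex.I) := hxy
  rw [hxy']
  refine (hgr _ (by simp)).trans ?_
  have h1 : ‖((y : ℂ) * Complex.I)‖ ≤ 1 := by
    rw [norm_mul, Complex.norm_I, mul_one, Complex.norm_real, Real.norm_eq_abs,
      abs_of_nonneg hy.1]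
    exact hy.2.le
  refine mul_le_mul_of_nonneg_left ?_ (by positivity)
  exact pow_le_pow_left₀ (by positivity) (by linarith) _

/-! ### The global bound -/

/-- A height function whose isotropic vectors belong to transvections. -/
structure HtT (Γ : Subgroup (SUGroup n)) (T : ℝ) (y : Vec n → ℝ) : Prop where
  ht : Ht Γ T y
  tv : ∀ g : SUGroup n, T ≤ y (act g (base n)) → ∃ p : Vec n, p ≠ 0 ∧ q p = 0 ∧
    y (act g (base n)) = yp p (act g (base n)) ∧
    (∀ h : SUGroup n, T ≤ 4 * yp p (act h (base n)) →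
      y (act h (base n)) = yp p (act h (base n))) ∧
    ∃ u ∈ Γ, ∃ κ : ℝ, |κ| = 1 ∧ IsT u p κ

theorem htt_hty (hn : 2 ≤ n) {χ : SUGroup n → ℝ} (hL : Lat Γ χ) (hT : TF Γ) (hTor : Tor Γ) :
    HtT Γ 64 (hty Γ) where
  ht := ht_hty hn hL hT hTor
  tv := by
    intro g hg
    obtain ⟨γ, hγ, ξ, κ, h2, h3⟩ := exists_hty hL.disc g (by linarith)
    have hκ : 0 < |κ| := abs_pos.2 h2.2.1
    have hs : 0 < Real.sqrt |κ| := Real.sqrt_pos.2 hκ
    have e : ∀ v : Vec n, yp (((Real.sqrt |κ| : ℝ) : ℂ) • pe ξ) v = yp (pe ξ) v / |κ| := by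
      intro v
      rw [yp_smul, Complex.norm_real, Real.norm_eq_abs, abs_of_pos hs, Real.sq_sqrt hκ.le]
    refine ⟨((Real.sqrt |κ| : ℝ) : ℂ) • pe ξ,
      smul_ne_zero (Complex.ofReal_ne_zero.2 hs.ne') (pe_ne_zero ξ), ?_, ?_, ?_, γ, hγ, κ / |κ|,
      ?_, ?_⟩
    · rw [q_smul, q_pe, h2.1, sub_self, mul_zero]
    · rw [e, h3]
    · intro h h4
      rw [e] at h4 ⊢
      exact hty_unique hL.disc hT hγ h2 h3 (by linarith)
    · rw [abs_div, abs_abs, div_self hκ.ne']
    · intro x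
      rw [act, h2.2.2, add_mulVec, one_mulVec, smul_mulVec, rk, vmv, ← herm_eq',
        herm_smul_left, smul_smul, smul_smul]
      congr 2
      have hk : ((Real.sqrt |κ| : ℝ) : ℂ) * ((Real.sqrt |κ| : ℝ) : ℂ) = ((|κ| : ℝ) : ℂ) := by
        rw [← Complex.ofReal_mul, Real.mul_self_sqrt hκ.le]
      have hk0 : ((|κ| : ℝ) : ℂ) ≠ 0 := Complex.ofReal_ne_zero.2 hκ.ne'
      have e1 : star (((Real.sqrt |κ| : ℝ) : ℂ)) = ((Real.sqrt |κ| : ℝ) : ℂ) :=
        Complex.conj_ofReal _
      rw [e1]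
      push_cast at hk ⊢
      calc (κ : ℂ) * Complex.I * herm (pe ξ) x
          = (κ : ℂ) / ((|κ| : ℝ) : ℂ) * Complex.I * herm (pe ξ) x * ((|κ| : ℝ) : ℂ) := by
            field_simp
        _ = _ := by
            rw [← hk]
            ring

private theorem vk_ar {T a : ℝ} (hT : 1 ≤ T) (ha : 0 ≤ a) (h : T * a ^ 2 = 1) :
    a ≤ 1 ∧ 1 ≤ T * a ∧ a ^ 2 ≤ 1 := by
  have h1 : a ≤ 1 := by
    by_contra hne
    push Not at hne
    nlinarith
  refine ⟨h1, ?_, ?_⟩
  · have h2 : T * a ^ 2 ≤ T * a := by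
      refine mul_le_mul_of_nonneg_left ?_ (by linarith)
      nlinarith
    linarith
  · nlinarith

private theorem vk_sq {a b S : ℝ} (ha : 0 ≤ a) (hb0 : 0 ≤ b) (hb : b ≤ 1) (h : a ^ 2 ≤ S)
    (h' : S - b ^ 2 = 0) : a ≤ 1 := by
  nlinarith

/-- Sections grow at most like the square root of the height. -/
theorem Sec.growth (h : Sec Γ β) {T : ℝ} {y : Vec n → ℝ} (hy : HtT Γ T y) (hT : 1 ≤ T) {C : ℝ}
    {N : ℕ} (hg : ∀ g : SUGroup n, ‖β (act g (base n))‖ ≤ C * ch g ^ N) :
    ∃ C' : ℝ, 0 ≤ C' ∧ ∀ g : SUGroup n,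
      q (β (act g (base n))) ≤ C' * y (act g (base n)) := by
  have hC : 0 ≤ C := by
    have := (norm_nonneg _).trans (hg 1)
    rwa [ch_one, one_pow, mul_one] at this
  obtain ⟨F, hF, hcov⟩ := hy.ht.cpt T
  obtain ⟨R₀, hR₀⟩ := hF.exists_bound_of_continuousOn (continuous_ch (n := n)).continuousOn
  set R : ℝ := max R₀ 1 with hR
  have hR1 : 1 ≤ R := le_max_right _ _
  have hRF : ∀ f ∈ F, ch f ≤ R := fun f hf =>
    ((le_abs_self _).trans (hR₀ f hf)).trans (le_max_left _ _)
  set A : ℝ := 2 * (n + 1) * R with hA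
  have hA1 : 1 ≤ A := by
    rw [hA]
    have : (0 : ℝ) ≤ n := Nat.cast_nonneg n
    nlinarith
  set E : ℝ := (n + 1) * A * T with hE
  have hE0 : 0 ≤ E := by positivity
  set M : ℝ := C * A ^ N * (1 + E * A) * 2 ^ (N + 1) with hM
  have hM0 : 0 ≤ M := by positivity
  set D : ℝ := (n + 1) * M ^ 2 + ((n + 1) * A * M) ^ 2 with hD
  set D' : ℝ := (n + 1) * (C * R ^ N) ^ 2 with hD'
  have hD0 : 0 ≤ D := by positivity
  have hD'0 : 0 ≤ D' := by positivity
  refine ⟨D + D', by positivity, fun g => ?_⟩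
  have hy1 : 1 ≤ y (act g (base n)) := hy.ht.one_le _ (orbit_mem g)
  rcases le_or_gt (y (act g (base n))) T with hyT | hyT
  · obtain ⟨γ, hγ, hγg⟩ := hcov g hyT
    have h1 : q (β (act g (base n))) = q (β (act (γ * g) (base n))) := by
      rw [act_mul, h.equi γ hγ _ (orbit_mem g), q_act]
    have h2 : ‖β (act (γ * g) (base n))‖ ≤ C * R ^ N := by
      refine (hg _).trans ?_
      have h3 := hRF _ hγg
      have h4 := one_le_ch (γ * g)
      gcongr
    have h3 : q (β (act (γ * g) (base n))) ≤ D' := by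
      refine (q_le_norm _).trans ?_
      rw [hD']
      gcongr
    rw [h1]
    calc q (β (act (γ * g) (base n))) ≤ D' := h3
      _ ≤ (D + D') * 1 := by linarith
      _ ≤ _ := by gcongr
  · obtain ⟨p, hp, hqp, hyp, hnul, u, hu, κ, hκ, hut⟩ := hy.tv g hyT.le
    set w := act g (base n) with hw
    have hwC : w ∈ Cone n := orbit_mem g
    have hqw : q w = -1 := q_orbit g
    have hpw := herm_null_ne hp hqp hwC
    have hpw0 : 0 < ‖herm p w‖ := norm_pos_iff.2 hpw
    have hyw : y w * ‖herm p w‖ ^ 2 = 1 := by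
      rw [hyp, yp, hqw, herm_comm p w, norm_star, neg_neg, one_div,
        inv_mul_cancel₀ (pow_ne_zero 2 hpw0.ne')]
    set s : ℝ := (y w - T) / 2 with hs
    have hs0 : 0 < s := by
      rw [hs]
      linarith
    have hyw0 : 0 < y w := by linarith
    set v' := Ln p w ((-s : ℝ) : ℂ) with hv'
    have hqv' : q v' = -(T / y w) := by
      rw [hv', q_Ln hqp, hqw, Complex.ofReal_re, hs]
      have h1 : ‖herm p w‖ ^ 2 = 1 / y w := by
        rw [eq_div_iff hyw0.ne', mul_comm]
        exact hyw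
      rw [h1]
      field_simp
      ring
    have hv'C : v' ∈ Cone n := by
      show q v' < 0
      rw [hqv']
      have : 0 < T / y w := by positivity
      linarith
    have hpv' : herm p v' = herm p w := herm_Ln_left hqp _
    obtain ⟨g', c, hc, hgc⟩ := exists_act_eq hv'C
    have hypv : yp p (act g' (base n)) = T := by
      rw [← yp_homog p c hc _ (orbit_mem g'), ← hgc, yp, hqv', herm_comm p v', norm_star, hpv',
        neg_neg]
      rw [div_eq_iff (by positivity), div_eq_iff hyw0.ne']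
      linear_combination -T * hyw
    have hyg' : y (act g' (base n)) ≤ T := by
      rw [hnul g' (by rw [hypv]; linarith), hypv]
    obtain ⟨γ, hγ, hγg⟩ := hcov g' hyg'
    -- transport by `γ`
    set v'' := act (γ * g') (base n) with hv''
    set p' := act γ p with hp'
    have hp'0 : p' ≠ 0 := by
      intro h0
      apply hp
      have h1 := congrArg (act γ⁻¹) h0
      rw [hp', ← act_mul, inv_mul_cancel, act_one] at h1
      rw [h1, act, mulVec_zero]
    have hqp' : q p' = 0 := by rw [hp', q_act, hqp]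
    have hut' : IsT (γ * u * γ⁻¹) p' κ := by
      intro x
      rw [act_mul, act_mul, hut, act_add, act_smul, ← act_mul, mul_inv_cancel, act_one, hp',
        ← herm_act γ p, ← act_mul, mul_inv_cancel, act_one]
    have hu' : γ * u * γ⁻¹ ∈ Γ := Γ.mul_mem (Γ.mul_mem hγ hu) (Γ.inv_mem hγ)
    have hqv'' : q v'' = -1 := q_orbit _
    have hcg : ch (γ * g') ≤ R := hRF _ hγg
    have hv''n : ‖v''‖ ≤ A := by
      refine (norm_act_le _ _).trans ?_
      rw [norm_base, mul_one, hA]
      gcongr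
    have hypv'' : yp p' v'' = T := by
      rw [hp', hv'', act_mul, yp_act, hypv]
    have hpv''1 : T * ‖herm p' v''‖ ^ 2 = 1 := by
      have h0 := norm_pos_iff.2 (herm_null_ne hp'0 hqp' (orbit_mem (γ * g')))
      rw [yp, hqv'', herm_comm p' v'', norm_star] at hypv''
      have h0' : 0 < ‖herm p' v''‖ := h0
      rw [div_eq_iff (by positivity)] at hypv''
      linarith
    obtain ⟨hpv''2, hpv''3, hpv''4⟩ := vk_ar hT (norm_nonneg _) hpv''1
    have hp'n : ‖p'‖ ≤ A := by
      set p₀ := act (γ * g')⁻¹ p' with hp₀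
      have h1 : p' = act (γ * g') p₀ := by
        rw [hp₀, ← act_mul, mul_inv_cancel, act_one]
      have h2 : ‖p₀ (Fin.last n)‖ ≤ 1 := by
        have h3 : herm (base n) p₀ = herm v'' p' := by
          rw [hp₀, ← herm_act (γ * g'), ← act_mul, mul_inv_cancel, act_one]
        have h4 : ‖herm (base n) p₀‖ = ‖p₀ (Fin.last n)‖ := by
          rw [base, herm_single_left, norm_mul, vk_J, one_mul]
        rw [← h4, h3, herm_comm p' v'', norm_star]
        exact hpv''2
      have h3 : ‖p₀‖ ≤ 1 := by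
        rw [pi_norm_le_iff_of_nonneg zero_le_one]
        have h4 : q p₀ = 0 := by rw [hp₀, q_act, hqp']
        rw [q_eq] at h4
        intro i
        refine Fin.lastCases h2 (fun i => ?_) i
        have h5 : ‖p₀ i.castSucc‖ ^ 2 ≤ ∑ i : Fin n, ‖p₀ i.castSucc‖ ^ 2 :=
          Finset.single_le_sum (f := fun i : Fin n => ‖p₀ i.castSucc‖ ^ 2)
            (fun i _ => sq_nonneg _) (Finset.mem_univ i)
        exact vk_sq (norm_nonneg _) (norm_nonneg _) h2 h5 h4
      rw [h1]
      refine (norm_act_le _ _).trans ?_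
      rw [hA]
      calc 2 * ((n : ℝ) + 1) * ch (γ * g') * ‖p₀‖ ≤ 2 * (n + 1) * R * 1 := by gcongr
        _ = _ := by ring
    have hko := Sec.koecher h hg hu' hκ hut' hp'0 hqp' hqv'' hA1 hv''n
      (A := A) (E := E) (z := (s : ℂ))
      ((mul_le_mul hpv''2 hp'n (norm_nonneg _) zero_le_one).trans (one_mul _).le) hE0 (by
        rw [hE]
        have h1 : ((n : ℝ) + 1) * ‖p'‖ ≤ (n + 1) * A := by gcongr
        have h2 : ((n : ℝ) + 1) * A * 1 ≤ (n + 1) * A * (T * ‖herm p' v''‖) := by gcongr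
        linarith) (by rw [Complex.ofReal_re]; exact hs0.le)
    rw [← hM] at hko
    set w' := Ln p' v'' (s : ℂ) with hw'
    have hw'C : w' ∈ Cone n := Ln_mem hqp' (orbit_mem _) (by rw [Complex.ofReal_re]; exact hs0.le)
    have hww : w' = act γ (c⁻¹ • w) := by
      have h1 : act g' (base n) = c⁻¹ • v' := by
        rw [hgc, smul_smul, inv_mul_cancel₀ hc, one_smul]
      have hsub : ∀ a b : Vec n, act γ (a - b) = act γ a - act γ b := fun a b => by
        rw [act, mulVec_sub]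
        rfl
      rw [hw', Ln, hv'', hp', act_mul, herm_act, h1, herm_smul_right, hpv', act_smul, act_smul,
        hv', Ln, hsub, act_smul]
      push_cast
      module
    have hBw : -q w' * q (β w') = q (β w) := by
      rw [hww, h.equi γ hγ _ (smul_mem_cone (inv_ne_zero hc) hwC), q_act, q_act,
        h.hom _ (inv_ne_zero hc) _ hwC, q_smul, q_smul, hqw, inv_inv, norm_inv]
      have : ‖c‖ ≠ 0 := norm_ne_zero_iff.2 hc
      field_simp
    have hyw' : -q w' ≤ y w := by
      have h1 : yp p' w' = y w := by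
        rw [hww, hp', yp_act, yp_homog p _ (inv_ne_zero hc) _ hwC, ← hyp]
      rw [yp, herm_comm p' w', norm_star, hw', herm_Ln_left hqp', ← hw', div_eq_iff (by
        have h0 := norm_pos_iff.2 (herm_null_ne hp'0 hqp' (orbit_mem (γ * g')))
        have h0' : 0 < ‖herm p' v''‖ := h0
        positivity)] at h1
      rw [h1]
      exact mul_le_of_le_one_right hyw0.le hpv''4
    have hq0 : 0 ≤ -q w' := by
      have : q w' < 0 := hw'C
      linarith
    rw [← hBw, q_cpr (p := p') h hw'C]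
    have h1 : q (cpr p' β w') ≤ (n + 1) * M ^ 2 := by
      refine (q_le_norm _).trans ?_
      gcongr
    have hpw' : herm p' w' ≠ 0 := herm_null_ne hp'0 hqp' hw'C
    have h2 : ‖herm w' (cpr p' β w')‖ ≤ (n + 1) * A * M := by
      rw [hw', herm_Ln_right (herm_cpr hpw')]
      refine (norm_herm_le _ _).trans ?_
      gcongr
    have h3 : ‖herm w' (cpr p' β w')‖ ^ 2 ≤ ((n + 1) * A * M) ^ 2 := by gcongr
    calc -q w' * q (cpr p' β w') + ‖herm w' (cpr p' β w')‖ ^ 2
        ≤ -q w' * ((n + 1) * M ^ 2) + ((n + 1) * A * M) ^ 2 :=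
          add_le_add (mul_le_mul_of_nonneg_left h1 hq0) h3
      _ ≤ y w * ((n + 1) * M ^ 2) + ((n + 1) * A * M) ^ 2 * y w := by
          refine add_le_add (mul_le_mul_of_nonneg_right hyw' (by positivity)) ?_
          exact le_mul_of_one_le_right (by positivity) hy1
      _ = D * y w := by rw [hD]; ring
      _ ≤ (D + D') * y w := by
          refine mul_le_mul_of_nonneg_right ?_ hyw0.le
          linarith

end Pool.Agent.Lib.MP_5d4057_al.NU
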