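import Pool.Agent.Lib.MP_5d4057_al.NU.BarrA

/-! The barriers (blueprint h37_nu, A2 - A4). -/

namespace Pool.Agent.Lib.MP_5d4057_al.NU

open Matrix MeasureTheory Filter Topology Pool.Agent.Lib.MP_5d4057_al
  Pool.Agent.Lib.MP_5d4057_al.Hyb Pool.Agent.Lib.MP_5d4057_al.HM

open scoped ComplexOrder MatrixOrder Matrix.Norms.L2Operator ENNReal

variable {n m : ℕ}

variable {Γ : Subgroup (SUGroup n)} {χ : SUGroup n → ℝ}

/-- The upper barrier `y^a H₀`. -/
noncomputable def MU (y : Vec n → ℝ) (a : ℕ) (H₀ : Vec n → Mat m) (v : Vec n) : Mat m :=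
  ((y v ^ a : ℝ) : ℂ) • H₀ v

/-- The lower barrier `y^(-a) H₀`. -/
noncomputable def MD (y : Vec n → ℝ) (a : ℕ) (H₀ : Vec n → Mat m) (v : Vec n) : Mat m :=
  (((y v ^ a)⁻¹ : ℝ) : ℂ) • H₀ v

/-- The weight of the perturbation. -/
noncomputable def th (y : Vec n → ℝ) (a : ℕ) (v : Vec n) : ℝ := (y v ^ (2 * a))⁻¹

/-- Everything the existence theory at level `s` uses: the barriers are `MU y a H₀` and `MD y a H₀`. The structure is
invariant under duality. -/
structure Brr (ρ : Γ →* Mat m) (T : ℝ) (y : Vec n → ℝ) (a b : ℕ) (c C : ℝ) (s : ℕ)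
    (H₀ : Vec n → Mat m) : Prop where
  ht : Ht Γ T y
  met : Met ρ H₀
  harn : Harn (2 * b) H₀
  big : n + 2 * a + b + 2 < s
  T_pos : 1 ≤ T
  c_pos : 0 < c
  c_lt : c < s
  one_le : 1 ≤ C
  base : ∀ v ∈ Cone n, P s H₀ v ≤ ((1 + C / s : ℝ) : ℂ) • H₀ v
  base' : ∀ v ∈ Cone n, P s (fun w => (H₀ w)⁻¹) v ≤ ((1 + C / s : ℝ) : ℂ) • (H₀ v)⁻¹
  up : ∀ v ∈ Cone n, P s (MU y a H₀) v ≤ (C : ℂ) • MU y a H₀ v
  up' : ∀ v ∈ Cone n, P s (fun w => (MU y a H₀ w)⁻¹) v ≤ (C : ℂ) • (MU y a H₀ v)⁻¹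
  dn : ∀ v ∈ Cone n, P s (MD y a H₀) v ≤ (C : ℂ) • MD y a H₀ v
  dn' : ∀ v ∈ Cone n, P s (fun w => (MD y a H₀ w)⁻¹) v ≤ (C : ℂ) • (MD y a H₀ v)⁻¹
  cuspU : ∀ v ∈ Cone n, T ≤ y v → P s (MU y a H₀) v ≤ ((1 - c / s : ℝ) : ℂ) •
    (MU y a H₀ v * P s (fun w => (MU y a H₀ w)⁻¹) v * MU y a H₀ v)
  cuspD : ∀ v ∈ Cone n, T ≤ y v →
    MD y a H₀ v * P s (fun w => (MD y a H₀ w)⁻¹) v * MD y a H₀ v ≤
      ((1 - c / s : ℝ) : ℂ) • P s (MD y a H₀) v

theorem Ht.mono {T T' : ℝ} {y : Vec n → ℝ} (h : Ht Γ T y) (hT : T ≤ T') : Ht Γ T' y :=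
  ⟨h.hom, h.inv, h.one_le, h.harn, fun g hg => by
    obtain ⟨p, h1, h2, h3, h4, h5⟩ := h.nul g (hT.trans hg)
    exact ⟨p, h1, h2, h3, h4, fun x hx => h5 x (hT.trans hx)⟩, h.cpt⟩

/-- Continuity of the height: `wt(x)^(-2) y(ge) ≤ y(gxe) ≤ wt(x)² y(ge)`. -/
theorem Ht.cont {T : ℝ} {y : Vec n → ℝ} (h : Ht Γ T y) : ContinuousOn y (Cone n) := by
  refine cont_of_group h.hom ?_
  rw [continuous_iff_continuousAt]
  intro g
  have hw : Tendsto (fun x : SUGroup n => wt (g⁻¹ * x)) (𝓝 g) (𝓝 1) := by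
    have h1 : Tendsto (fun x : SUGroup n => wt (g⁻¹ * x)) (𝓝 g) (𝓝 (wt (g⁻¹ * g))) :=
      (continuous_wt.comp (continuous_const_mul g⁻¹)).tendsto g
    rwa [inv_mul_cancel, wt_one] at h1
  have hup : ∀ x : SUGroup n, y (act x (base n)) ≤ wt (g⁻¹ * x) ^ 2 * y (act g (base n)) := by
    intro x
    have h1 := h.harn g (g⁻¹ * x)
    rwa [mul_inv_cancel_left] at h1
  have hlo : ∀ x : SUGroup n, (wt (g⁻¹ * x) ^ 2)⁻¹ * y (act g (base n)) ≤ y (act x (base n)) := by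
    intro x
    have h1 := h.harn x (x⁻¹ * g)
    rw [mul_inv_cancel_left, ← wt_inv, _root_.mul_inv_rev, inv_inv] at h1
    rw [inv_mul_le_iff₀ (wt_pow_pos _ 2)]
    exact h1
  have t1 : Tendsto (fun x : SUGroup n => wt (g⁻¹ * x) ^ 2 * y (act g (base n))) (𝓝 g)
      (𝓝 (y (act g (base n)))) := by
    have h1 := (hw.pow 2).mul_const (y (act g (base n)))
    rwa [one_pow, one_mul] at h1
  have t2 : Tendsto (fun x : SUGroup n => (wt (g⁻¹ * x) ^ 2)⁻¹ * y (act g (base n))) (𝓝 g)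
      (𝓝 (y (act g (base n)))) := by
    have h1 := ((hw.pow 2).inv₀ (by norm_num)).mul_const (y (act g (base n)))
    rwa [one_pow, inv_one, one_mul] at h1
  exact tendsto_of_tendsto_of_tendsto_of_le_of_le t2 t1 hlo hup

theorem Ht.inv_harn {T : ℝ} {y : Vec n → ℝ} (h : Ht Γ T y) (g x : SUGroup n) :
    y (act g (base n)) ≤ wt x ^ 2 * y (act (g * x) (base n)) := by
  have h1 := h.harn (g * x) x⁻¹
  rwa [mul_inv_cancel_right, wt_inv] at h1

private theorem br_ypos {T : ℝ} {y : Vec n → ℝ} (h : Ht Γ T y) {v : Vec n} (hv : v ∈ Cone n) :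
    0 < y v := lt_of_lt_of_le one_pos (h.one_le v hv)

private theorem br_mu {y : Vec n → ℝ} (a : ℕ) (H : Vec n → Mat m) (v : Vec n) :
    MU y a H v = (y v ^ a) • H v := cr_smul _ _

private theorem br_md {y : Vec n → ℝ} (a : ℕ) (H : Vec n → Mat m) (v : Vec n) :
    MD y a H v = ((y v ^ a)⁻¹) • H v := cr_smul _ _

private theorem br_mu_inv {T : ℝ} {y : Vec n → ℝ} (hy : Ht Γ T y) (a : ℕ) {H : Vec n → Mat m}
    (hH : ∀ v ∈ Cone n, (H v).PosDef) {v : Vec n} (hv : v ∈ Cone n) :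
    (MU y a H v)⁻¹ = MD y a (fun w => (H w)⁻¹) v := by
  rw [br_mu, br_md, rs_inv (hH v hv) (pow_pos (br_ypos hy hv) a)]

private theorem br_md_inv {T : ℝ} {y : Vec n → ℝ} (hy : Ht Γ T y) (a : ℕ) {H : Vec n → Mat m}
    (hH : ∀ v ∈ Cone n, (H v).PosDef) {v : Vec n} (hv : v ∈ Cone n) :
    (MD y a H v)⁻¹ = MU y a (fun w => (H w)⁻¹) v := by
  rw [br_mu, br_md, rs_inv (hH v hv) (inv_pos.2 (pow_pos (br_ypos hy hv) a)), inv_inv]

private theorem br_mu_inv' {T : ℝ} {y : Vec n → ℝ} (hy : Ht Γ T y) (a : ℕ) {H : Vec n → Mat m}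
    (hH : ∀ v ∈ Cone n, (H v).PosDef) {v : Vec n} (hv : v ∈ Cone n) :
    (MU y a (fun w => (H w)⁻¹) v)⁻¹ = MD y a H v := by
  rw [← br_md_inv hy a hH hv]
  refine inv_inv_pos ?_
  rw [br_md]
  exact (hH v hv).smul (inv_pos.2 (pow_pos (br_ypos hy hv) a))

private theorem br_md_inv' {T : ℝ} {y : Vec n → ℝ} (hy : Ht Γ T y) (a : ℕ) {H : Vec n → Mat m}
    (hH : ∀ v ∈ Cone n, (H v).PosDef) {v : Vec n} (hv : v ∈ Cone n) :
    (MD y a (fun w => (H w)⁻¹) v)⁻¹ = MU y a H v := by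
  rw [← br_mu_inv hy a hH hv]
  refine inv_inv_pos ?_
  rw [br_mu]
  exact (hH v hv).smul (pow_pos (br_ypos hy hv) a)

private theorem br_md_pos {T : ℝ} {y : Vec n → ℝ} (hy : Ht Γ T y) (a : ℕ) {H : Vec n → Mat m}
    (hH : ∀ v ∈ Cone n, (H v).PosDef) {v : Vec n} (hv : v ∈ Cone n) : (MD y a H v).PosDef := by
  rw [br_md]
  exact (hH v hv).smul (inv_pos.2 (pow_pos (br_ypos hy hv) a))

private theorem br_mu_pos {T : ℝ} {y : Vec n → ℝ} (hy : Ht Γ T y) (a : ℕ) {H : Vec n → Mat m}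
    (hH : ∀ v ∈ Cone n, (H v).PosDef) {v : Vec n} (hv : v ∈ Cone n) : (MU y a H v).PosDef := by
  rw [br_mu]
  exact (hH v hv).smul (pow_pos (br_ypos hy hv) a)

/-- conjugation of an inequality by the inverse -/
private theorem br_conj {M Q R : Mat m} (hM : M.PosDef) {c : ℝ}
    (h : Q ≤ (c : ℂ) • (M⁻¹ * R * M⁻¹)) : M * Q * M ≤ (c : ℂ) • R := by
  have hu := (isUnit_iff_isUnit_det M).1 hM.isUnit
  have h1 := conj_le_conj h M
  rw [hM.1.eq, Matrix.mul_smul, Matrix.smul_mul] at h1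
  have e : M * (M⁻¹ * R * M⁻¹) * M = R := by
    calc M * (M⁻¹ * R * M⁻¹) * M = (M * M⁻¹) * R * (M⁻¹ * M) := by simp only [Matrix.mul_assoc]
      _ = R := by rw [mul_nonsing_inv M hu, nonsing_inv_mul M hu, Matrix.one_mul, Matrix.mul_one]
  rwa [e] at h1

private theorem br_conj' {M Q R : Mat m} (hM : M.PosDef) {c : ℝ}
    (h : M * Q * M ≤ (c : ℂ) • R) : Q ≤ (c : ℂ) • (M⁻¹ * R * M⁻¹) := by
  have hu := (isUnit_iff_isUnit_det M).1 hM.isUnit
  have h1 := conj_le_conj h M⁻¹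
  rw [hM.inv.1.eq, Matrix.mul_smul, Matrix.smul_mul] at h1
  have e : M⁻¹ * (M * Q * M) * M⁻¹ = Q := by
    calc M⁻¹ * (M * Q * M) * M⁻¹ = (M⁻¹ * M) * Q * (M * M⁻¹) := by simp only [Matrix.mul_assoc]
      _ = Q := by rw [mul_nonsing_inv M hu, nonsing_inv_mul M hu, Matrix.one_mul, Matrix.mul_one]
  rwa [e] at h1

/-- The duality: `MU(H₀)⁻¹ = MD(H₀⁻¹)`. -/
theorem Brr.dual {ρ : Γ →* Mat m} {T : ℝ} {y : Vec n → ℝ} {a b : ℕ} {c C : ℝ} {s : ℕ}
    {H₀ : Vec n → Mat m} (h : Brr ρ T y a b c C s H₀) :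
    Brr (HM.dual ρ) T y a b c C s fun v => (H₀ v)⁻¹ where
  ht := h.ht
  met := met_inv h.met
  harn := harn_inv h.met h.harn
  big := h.big
  T_pos := h.T_pos
  c_pos := h.c_pos
  c_lt := h.c_lt
  one_le := h.one_le
  base := h.base'
  base' := fun v hv => by
    rw [P_congr' s (f := fun w => ((H₀ w)⁻¹)⁻¹) (f' := H₀)
      (fun w hw => inv_inv_pos (h.met.pos w hw)) v, inv_inv_pos (h.met.pos v hv)]
    exact h.base v hv
  up := fun v hv => by
    rw [P_congr' s (fun w hw => (br_md_inv h.ht a h.met.pos hw).symm) v,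
      ← br_md_inv h.ht a h.met.pos hv]
    exact h.dn' v hv
  up' := fun v hv => by
    rw [P_congr' s (fun w hw => br_mu_inv' h.ht a h.met.pos hw) v, br_mu_inv' h.ht a h.met.pos hv]
    exact h.dn v hv
  dn := fun v hv => by
    rw [P_congr' s (fun w hw => (br_mu_inv h.ht a h.met.pos hw).symm) v,
      ← br_mu_inv h.ht a h.met.pos hv]
    exact h.up' v hv
  dn' := fun v hv => by
    rw [P_congr' s (fun w hw => br_md_inv' h.ht a h.met.pos hw) v, br_md_inv' h.ht a h.met.pos hv]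
    exact h.up v hv
  cuspU := fun v hv hT => by
    rw [P_congr' s (fun w hw => (br_md_inv h.ht a h.met.pos hw).symm) v,
      P_congr' s (fun w hw => br_mu_inv' h.ht a h.met.pos hw) v,
      ← br_md_inv h.ht a h.met.pos hv]
    exact br_conj' (br_md_pos h.ht a h.met.pos hv) (h.cuspD v hv hT)
  cuspD := fun v hv hT => by
    rw [P_congr' s (fun w hw => (br_mu_inv h.ht a h.met.pos hw).symm) v,
      P_congr' s (fun w hw => br_md_inv' h.ht a h.met.pos hw) v,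
      ← br_mu_inv h.ht a h.met.pos hv]
    refine br_conj (br_mu_pos h.ht a h.met.pos hv).inv ?_
    rw [inv_inv_pos (br_mu_pos h.ht a h.met.pos hv)]
    exact h.cuspU v hv hT

/-- A2, the matrix inequality: `2 sinh(h + w) - 2 sinh w - 2h = 2 ∫₀^h (cosh(w + r) - 1) dr` for the eigenvalues
`e^w` of `R`. -/
theorem sinh_mat {R : Mat m} (hR : R.PosDef) {u v h : ℝ} (hu : 0 ≤ u) (hv : |h| ≤ v)
    (h1 : R ≤ (Real.exp u : ℂ) • 1) (h2 : R⁻¹ ≤ (Real.exp u : ℂ) • 1) :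
    (Real.exp h : ℂ) • R - (Real.exp (-h) : ℂ) • R⁻¹ - (R - R⁻¹) - ((2 * h : ℝ) : ℂ) • 1 ≤
      ((2 * (u + v) ^ 3 * Real.exp (u + v) : ℝ) : ℂ) • (1 : Mat m) := by
  have _ := hu
  have e1 : (Real.exp u : ℂ) • (1 : Mat m) = Real.exp u • (1 : Mat m) := cr_smul _ _
  rw [e1] at h1 h2
  have hdet := (isUnit_iff_isUnit_det R).1 hR.isUnit
  have h3 : (1 : Mat m) ≤ Real.exp u • R := by
    have h4 := inv_le_inv_of_le hR.inv h2
    rw [rs_inv PosDef.one (Real.exp_pos u), inv_one, inv_inv_pos hR] at h4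
    have h5 := rs_mono (Real.exp_pos u).le h4
    rwa [smul_smul, mul_inv_cancel₀ (Real.exp_pos u).ne', one_smul] at h5
  have h4 := sinh_quad PosDef.one hR hv h1 h3
  rw [Matrix.one_mul, Matrix.mul_one, add_smul] at h4
  have e2 : (Real.exp h : ℂ) • R = Real.exp h • R := cr_smul _ _
  have e3 : (Real.exp (-h) : ℂ) • R⁻¹ = Real.exp (-h) • R⁻¹ := cr_smul _ _
  rw [e2, e3, cr_smul, cr_smul]
  rw [sub_sub, sub_le_iff_le_add]
  refine h4.trans (le_of_eq ?_)
  abel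

/-- A3, the only integral: for an isotropic `p` the mean of `log yp p` drops by `n/s`. Proof: with `u = g⁻¹ p` normalised,
`u = (u', 1)`, `|u'| = 1`: `log (yp p (gxe)/yp p (ge)) = - log ch(x)² - 2 log |1 - ⟨z(x), u'⟩|`; `kap` and `ch` are invariant
under `x ↦ k x`, `k = diag(c,..,c,c^(-n))`, `z ↦ c^(n+1) z` (`Mom.mom_scal`), and the mean of `log |1 - r c|` over the circle is `0` for
`|r| < 1`; `∫ kap log ch² ≥ ∫ kap (1 - ch⁻²) = n/s`. -/
theorem int_log_yp (hn : 1 ≤ n) {p : Vec n} (hp : p ≠ 0) (hq : q p = 0) : ∃ s₀ : ℕ,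
    ∀ s : ℕ, s₀ ≤ s → ∀ g : SUGroup n,
      Integrable (fun x => kap s x * Real.log (yp p (act (g * x) (base n)) /
        yp p (act g (base n)))) (mu n) ∧
      ∫ x, kap s x * Real.log (yp p (act (g * x) (base n)) / yp p (act g (base n))) ∂(mu n) ≤
        - (n / s : ℝ) := by
  have _ := hn
  exact ⟨n + 2, fun s hs g => int_log_yp_of (by omega) hp hq g⟩

/-- `|log (yp p (gxe)/yp p (ge))| ≤ 2 log wt x`. -/
theorem yp_harn_b {p : Vec n} (hp : p ≠ 0) (hq : q p = 0) (g x : SUGroup n) :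
    0 < yp p (act g (base n)) ∧
      yp p (act (g * x) (base n)) ≤ wt x ^ 2 * yp p (act g (base n)) :=
  yp_harn_of hp hq g x

/-! ### The barriers -/

/-- the error function -/
private noncomputable def erf (N : ℕ) (x : SUGroup n) : ℝ :=
  (2 * (N : ℝ) ^ 3 + 16) * wt x ^ N * Real.sqrt (ch x ^ 2 - 1) ^ 3

private theorem erf_nonneg (N : ℕ) (x : SUGroup n) : 0 ≤ erf N x := by
  have := wt_pow_pos x N
  unfold erf
  positivity

private theorem erf_cont (N : ℕ) : Continuous (erf N : SUGroup n → ℝ) := by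
  unfold erf
  exact (continuous_const.mul (continuous_wt.pow N)).mul
    (((continuous_ch.pow 2).sub continuous_const).sqrt.pow 3)

private theorem erf_avg (n N : ℕ) : ∃ s₁ : ℕ, ∀ s : ℕ, s₁ ≤ s →
    Integrable (fun x : SUGroup n => kap s x * erf N x) (mu n) ∧
    ∫ x : SUGroup n, kap s x * erf N x ∂(mu n) ≤ 1 / s := by
  obtain ⟨s₀, C, hC, hmom⟩ := mom_rpow n N (show (0 : ℝ) ≤ 3 / 2 by norm_num)
  obtain ⟨K, hK⟩ : ∃ K : ℝ, K = (2 * (N : ℝ) ^ 3 + 16) * 2 ^ N := ⟨_, rfl⟩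
  have hK0 : 0 < K := by
    rw [hK]
    positivity
  have hlim : Tendsto (fun s : ℕ => K * C * (s : ℝ) ^ (-(1 / 2) : ℝ)) atTop (𝓝 (K * C * 0)) :=
    ((tendsto_rpow_neg_atTop (by norm_num)).comp tendsto_natCast_atTop_atTop).const_mul _
  rw [mul_zero] at hlim
  obtain ⟨s₁, hs₁⟩ := eventually_atTop.1 (hlim.eventually_le_const one_pos)
  refine ⟨s₀ + s₁ + 1, fun s hs => ?_⟩
  have hs0 : (0 : ℝ) < s := by
    have : 0 < s := by omega
    exact_mod_cast this
  obtain ⟨i1, h1⟩ := hmom s (by omega)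
  have hle : ∀ x : SUGroup n, kap s x * erf N x ≤
      K * (kap s x * (ch x ^ (2 * N) * (ch x ^ 2 - 1) ^ (3 / 2 : ℝ))) := by
    intro x
    have hc := one_le_ch x
    have hd : 0 ≤ ch x ^ 2 - 1 := by nlinarith
    have e1 : (ch x ^ 2 - 1) ^ (3 / 2 : ℝ) = Real.sqrt (ch x ^ 2 - 1) ^ 3 := by
      have e2 := Real.rpow_mul hd (1 / 2 : ℝ) ((3 : ℕ) : ℝ)
      rw [Real.rpow_natCast, ← Real.sqrt_eq_rpow] at e2
      rw [← e2]
      norm_num
    have h2 : wt x ^ N ≤ 2 ^ N * ch x ^ (2 * N) := by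
      have h3 : wt x ^ N ≤ (2 * ch x) ^ N :=
        pow_le_pow_left₀ (by linarith [one_le_wt x]) (wt_le x) _
      have h4 : ch x ^ N ≤ ch x ^ (2 * N) := pow_le_pow_right₀ hc (by omega)
      rw [mul_pow] at h3
      exact h3.trans (mul_le_mul_of_nonneg_left h4 (by positivity))
    rw [e1]
    unfold erf
    have h3 : (2 * (N : ℝ) ^ 3 + 16) * wt x ^ N ≤ K * ch x ^ (2 * N) := by
      rw [hK, mul_assoc]
      exact mul_le_mul_of_nonneg_left h2 (by positivity)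
    have h4 := mul_le_mul_of_nonneg_right h3
      (pow_nonneg (Real.sqrt_nonneg (ch x ^ 2 - 1)) 3)
    have h5 := mul_le_mul_of_nonneg_left h4 (kap_nonneg s x)
    refine h5.trans (le_of_eq ?_)
    ring
  have hnn : ∀ x : SUGroup n, 0 ≤ kap s x * erf N x := fun x =>
    mul_nonneg (kap_nonneg s x) (erf_nonneg N x)
  have i2 : Integrable (fun x : SUGroup n => kap s x * erf N x) (mu n) :=
    (i1.const_mul K).mono' ((continuous_kap s).mul (erf_cont N)).aestronglyMeasurable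
      (Eventually.of_forall fun x => by
        rw [Real.norm_eq_abs, abs_of_nonneg (hnn x)]
        exact hle x)
  refine ⟨i2, ?_⟩
  have h2 := integral_mono i2 (i1.const_mul K) hle
  rw [integral_const_mul] at h2
  have h3 := mul_le_mul_of_nonneg_left h1 hK0.le
  have h4 := hs₁ s (by omega)
  have e2 : K * (C * (s : ℝ) ^ (-(3 / 2) : ℝ)) = (K * C * (s : ℝ) ^ (-(1 / 2) : ℝ)) * (1 / s) := by
    have h5 : (s : ℝ) ^ (-(3 / 2) : ℝ) = (s : ℝ) ^ (-(1 / 2) : ℝ) * (s : ℝ)⁻¹ := by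
      rw [show (-(3 / 2) : ℝ) = -(1 / 2) + -1 by norm_num, Real.rpow_add hs0, Real.rpow_neg_one]
    rw [h5]
    ring
  rw [e2] at h3
  have h5 : (K * C * (s : ℝ) ^ (-(1 / 2) : ℝ)) * (1 / s) ≤ 1 * (1 / s) :=
    mul_le_mul_of_nonneg_right h4 (by positivity)
  linarith

/-- `P s H ≤ C H` for Harnack metrics -/
private theorem br_avg {ρ : Γ →* Mat m} {N : ℕ} {H : Vec n → Mat m} (hH : Met ρ H)
    (hh : Harn N H) {s : ℕ} (hs : n + N < s) {v : Vec n} (hv : v ∈ Cone n) :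
    P s H v ≤ ((2 ^ N * ((n : ℝ) + 1) ^ N : ℝ) : ℂ) • H v := by
  obtain ⟨g, c, hc, rfl⟩ := exists_act_eq hv
  rw [P_smul' s _ hc, hH.hom c hc _ (orbit_mem g), cr_smul, P_orbit]
  obtain ⟨C', a1, -⟩ := harn_adm hH hh
  have i1 := int_adm hs a1 g
  have i2 := (integrable_kap_pow (n := n) (s := s) (N := N) hs).const_mul (2 ^ N)
  have pA := Matrix.nonneg_iff_posSemidef.2 (hH.pos _ (orbit_mem g)).posSemidef
  have h1 := integral_mono_mat i1 (i2.smul_const (H (act g (base n))))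
    (Eventually.of_forall fun x => ?_)
  · refine h1.trans ?_
    rw [integral_smul_const]
    refine rs_mono_left pA ?_
    rw [integral_const_mul]
    exact mul_le_mul_of_nonneg_left (integral_kap_pow_le hs) (by positivity)
  · have h2 := rs_mono (kap_nonneg s x) (harn_real hh g x)
    refine h2.trans ?_
    rw [smul_smul]
    refine rs_mono_left pA ?_
    have h3 : wt x ^ N ≤ 2 ^ N * ch x ^ (2 * N) := by
      have h4 : wt x ^ N ≤ (2 * ch x) ^ N :=
        pow_le_pow_left₀ (by linarith [one_le_wt x]) (wt_le x) _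
      have h5 : ch x ^ N ≤ ch x ^ (2 * N) := pow_le_pow_right₀ (one_le_ch x) (by omega)
      rw [mul_pow] at h4
      exact h4.trans (mul_le_mul_of_nonneg_left h5 (by positivity))
    have h4 := mul_le_mul_of_nonneg_left h3 (kap_nonneg s x)
    refine h4.trans (le_of_eq ?_)
    ring

private theorem br_mu_met {T : ℝ} {y : Vec n → ℝ} (hy : Ht Γ T y) (a : ℕ)
    {ρ : Γ →* Mat m} {H : Vec n → Mat m} (hH : Met ρ H) : Met ρ (MU y a H) where
  hom := fun c hc v hv => by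
    rw [br_mu, br_mu, hy.hom c hc v hv, hH.hom c hc v hv]
  cont := by
    have h1 : ContinuousOn (fun v => (y v ^ a) • H v) (Cone n) := (hy.cont.pow a).smul hH.cont
    exact h1.congr fun v _ => br_mu a H v
  pos := fun v hv => br_mu_pos hy a hH.pos hv
  equi := fun γ v hv => by
    rw [br_mu, br_mu, hy.inv γ γ.2 v hv, hH.equi γ v hv, Matrix.mul_smul, Matrix.smul_mul]

private theorem br_mu_harn {T : ℝ} {y : Vec n → ℝ} (hy : Ht Γ T y) (a : ℕ)
    {ρ : Γ →* Mat m} {b : ℕ} {H : Vec n → Mat m} (hH : Met ρ H) (hh : Harn b H) :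
    Harn (b + 2 * a) (MU y a H) := by
  intro g x
  rw [wt_pow_cast, br_mu, br_mu, smul_smul]
  have h1 := hy.harn g x
  have hy0 := br_ypos hy (orbit_mem (g * x))
  have h2 := pow_le_pow_left₀ hy0.le h1 a
  have pA := Matrix.nonneg_iff_posSemidef.2 (hH.pos _ (orbit_mem g)).posSemidef
  have h3 := rs_mono (pow_pos hy0 a).le (harn_real hh g x)
  refine h3.trans ?_
  rw [smul_smul]
  refine rs_mono_left pA ?_
  have h4 := mul_le_mul_of_nonneg_right h2 (wt_pow_pos x b).le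
  refine h4.trans (le_of_eq ?_)
  rw [mul_pow, ← pow_mul, pow_add]
  ring

/-- the pointwise inequality -/
private theorem br_point {T : ℝ} {y : Vec n → ℝ} (hy : Ht Γ T y) {b : ℕ} {ρ : Γ →* Mat m}
    {H : Vec n → Mat m} (hH : Met ρ H) (hh : Harn b H) (a : ℕ) {g : SUGroup n}
    (hT : T ≤ y (act g (base n))) {p : Vec n} (hp : p ≠ 0) (hq : q p = 0)
    (e1 : y (act g (base n)) = yp p (act g (base n)))
    (h3 : ∀ h : SUGroup n, T ≤ 4 * yp p (act h (base n)) →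
      y (act h (base n)) = yp p (act h (base n))) (x : SUGroup n) :
    (y (act (g * x) (base n)) / y (act g (base n))) ^ a • H (act (g * x) (base n)) -
      ((y (act (g * x) (base n)) / y (act g (base n))) ^ a)⁻¹ •
        (H (act g (base n)) * (H (act (g * x) (base n)))⁻¹ * H (act g (base n))) ≤
      H (act (g * x) (base n)) -
        H (act g (base n)) * (H (act (g * x) (base n)))⁻¹ * H (act g (base n)) +
      (2 * (a * Real.log (yp p (act (g * x) (base n)) / yp p (act g (base n)))) +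
        erf (b + 2 * a) x) • H (act g (base n)) := by
  obtain ⟨A, hA⟩ : ∃ A, A = H (act g (base n)) := ⟨_, rfl⟩
  obtain ⟨X, hX⟩ : ∃ X, X = H (act (g * x) (base n)) := ⟨_, rfl⟩
  have pA : A.PosDef := hA ▸ hH.pos _ (orbit_mem g)
  have pX : X.PosDef := hX ▸ hH.pos _ (orbit_mem (g * x))
  have hw := one_le_wt x
  have hw0 : 0 < wt x := by linarith
  have hlw : 0 ≤ Real.log (wt x) := Real.log_nonneg hw
  have x1 : X ≤ (wt x ^ b : ℝ) • A := by
    rw [hA, hX]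
    exact harn_real hh g x
  have x2 : A ≤ (wt x ^ b : ℝ) • X := by
    rw [hA, hX]
    exact harn_real' hh g x
  have hY : 0 < yp p (act g (base n)) := (yp_harn_of hp hq g x).1
  have hYx : 0 < yp p (act (g * x) (base n)) := (yp_harn_of hp hq (g * x) x).1
  have hy1 := (yp_harn_of hp hq g x).2
  have hy2 := (yp_harn_of hp hq (g * x) x⁻¹).2
  rw [mul_inv_cancel_right, wt_inv] at hy2
  rw [← hA, ← hX]
  obtain ⟨κ, hκ⟩ : ∃ κ, κ = yp p (act (g * x) (base n)) / yp p (act g (base n)) := ⟨_, rfl⟩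
  have hκ0 : 0 < κ := by
    rw [hκ]
    exact div_pos hYx hY
  have hκ1 : κ ≤ wt x ^ 2 := by
    rw [hκ, div_le_iff₀ hY]
    exact hy1
  have hκ2 : 1 ≤ wt x ^ 2 * κ := by
    rw [hκ, ← mul_div_assoc, le_div_iff₀ hY, one_mul]
    exact hy2
  rw [← hκ]
  -- the inequality for `yp`
  have hlog : |Real.log κ| ≤ 2 * Real.log (wt x) := by
    rw [abs_le]
    constructor
    · have h4 := Real.log_nonneg hκ2
      rw [Real.log_mul (pow_ne_zero 2 hw0.ne') hκ0.ne', Real.log_pow] at h4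
      push_cast at h4
      linarith
    · have h4 := Real.log_le_log hκ0 hκ1
      rw [Real.log_pow] at h4
      push_cast at h4
      exact h4
  have ha0 : (0 : ℝ) ≤ a := Nat.cast_nonneg a
  have hv : |a * Real.log κ| ≤ a * (2 * Real.log (wt x)) := by
    rw [abs_mul, abs_of_nonneg ha0]
    exact mul_le_mul_of_nonneg_left hlog ha0
  have ew : ∀ N : ℕ, Real.exp (N * Real.log (wt x)) = wt x ^ N := by
    intro N
    rw [Real.exp_nat_mul, Real.exp_log hw0]
  have eκ : Real.exp (a * Real.log κ) = κ ^ a := by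
    rw [Real.exp_nat_mul, Real.exp_log hκ0]
  have key := sinh_quad (u := b * Real.log (wt x)) pA pX hv (by rw [ew]; exact x1)
    (by rw [ew]; exact x2)
  rw [Real.exp_neg, eκ] at key
  have eN : b * Real.log (wt x) + a * (2 * Real.log (wt x)) =
      ((b + 2 * a : ℕ) : ℝ) * Real.log (wt x) := by
    push_cast
    ring
  rw [eN, ew] at key
  obtain ⟨N, hN⟩ : ∃ N, N = b + 2 * a := ⟨_, rfl⟩
  rw [← hN] at key ⊢
  obtain ⟨S, hS⟩ : ∃ S, S = Real.sqrt (ch x ^ 2 - 1) := ⟨_, rfl⟩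
  have hS0 : 0 ≤ S := by
    rw [hS]
    exact Real.sqrt_nonneg _
  have hlS : Real.log (wt x) ≤ S := by
    rw [hS]
    exact log_wt_le x
  have hN0 : (0 : ℝ) ≤ N := Nat.cast_nonneg N
  have hcube : 2 * ((N : ℝ) * Real.log (wt x)) ^ 3 * wt x ^ N ≤
      2 * (N : ℝ) ^ 3 * wt x ^ N * S ^ 3 := by
    have h4 : Real.log (wt x) ^ 3 ≤ S ^ 3 := pow_le_pow_left₀ hlw hlS 3
    have h5 : 0 ≤ 2 * (N : ℝ) ^ 3 * wt x ^ N := by positivity
    have h6 := mul_le_mul_of_nonneg_left h4 h5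
    refine le_trans (le_of_eq ?_) h6
    ring
  have pA0 := Matrix.nonneg_iff_posSemidef.2 pA.posSemidef
  have eerf : erf N x = 2 * (N : ℝ) ^ 3 * wt x ^ N * S ^ 3 + 16 * wt x ^ N * S ^ 3 := by
    rw [erf, ← hS]
    ring
  have h16 : 0 ≤ 16 * wt x ^ N * S ^ 3 := by positivity
  have key' : κ ^ a • X - (κ ^ a)⁻¹ • (A * X⁻¹ * A) ≤
      X - A * X⁻¹ * A + (2 * (a * Real.log κ) + 2 * (N : ℝ) ^ 3 * wt x ^ N * S ^ 3) • A := by
    refine key.trans (add_le_add_right (rs_mono_left pA0 ?_) _)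
    linarith
  by_cases hcase : T ≤ 4 * yp p (act (g * x) (base n))
  · -- the height of `gx` is given by `p`
    have e2 := h3 (g * x) hcase
    rw [e2, e1, ← hκ]
    refine key'.trans (add_le_add_right (rs_mono_left pA0 ?_) _)
    rw [eerf]
    linarith
  · -- the tail
    rw [not_le] at hcase
    have hw4 : 4 < wt x ^ 2 := by
      rw [e1] at hT
      have h4 : 4 * yp p (act (g * x) (base n)) < wt x ^ 2 * yp p (act (g * x) (base n)) := by
        linarith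
      exact lt_of_mul_lt_mul_right h4 hYx.le
    have hSh : 1 / 2 ≤ S := by
      by_contra hlt
      rw [not_le] at hlt
      have hc := one_le_ch x
      have hd : 0 ≤ ch x ^ 2 - 1 := by nlinarith
      have e3 : S ^ 2 = ch x ^ 2 - 1 := by rw [hS, Real.sq_sqrt hd]
      have e4 : wt x = ch x + S := by rw [hS]; rfl
      have h5 : ch x ≤ 5 / 4 := by nlinarith
      rw [e4] at hw4
      nlinarith
    have hS3 : 1 / 8 ≤ S ^ 3 := by
      have h4 := pow_le_pow_left₀ (by norm_num : (0 : ℝ) ≤ 1 / 2) hSh 3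
      norm_num at h4 ⊢
      exact h4
    have h2w : 2 * wt x ^ N ≤ 16 * wt x ^ N * S ^ 3 := by
      have h4 := mul_le_mul_of_nonneg_left hS3 (wt_pow_pos x N).le
      linarith
    obtain ⟨r, hr⟩ : ∃ r, r = (y (act (g * x) (base n)) / y (act g (base n))) ^ a := ⟨_, rfl⟩
    have hyg := br_ypos hy (orbit_mem g)
    have hygx := br_ypos hy (orbit_mem (g * x))
    have hr0 : 0 < r := by
      rw [hr]
      exact pow_pos (div_pos hygx hyg) a
    have hrle : r ≤ wt x ^ (2 * a) := by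
      rw [hr, pow_mul]
      refine pow_le_pow_left₀ (div_pos hygx hyg).le ?_ a
      rw [div_le_iff₀ hyg]
      exact hy.harn g x
    rw [← hr]
    have hQ : 0 ≤ A * X⁻¹ * A := by
      have h4 := pX.inv.posSemidef.mul_mul_conjTranspose_same A
      rw [pA.1.eq] at h4
      exact Matrix.nonneg_iff_posSemidef.2 h4
    have hQle : A * X⁻¹ * A ≤ (wt x ^ b : ℝ) • A := by
      have h4 := inv_le_inv_of_le pA x2
      rw [rs_inv pX (wt_pow_pos x b)] at h4
      have h5 := rs_mono (wt_pow_pos x b).le h4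
      rw [smul_smul, mul_inv_cancel₀ (wt_pow_pos x b).ne', one_smul] at h5
      have h6 := conj_le_conj h5 A
      rw [pA.1.eq, Matrix.mul_smul, Matrix.smul_mul,
        mul_nonsing_inv _ ((isUnit_iff_isUnit_det A).1 pA.isUnit), Matrix.one_mul] at h6
      exact h6
    have b1 : r • X - r⁻¹ • (A * X⁻¹ * A) ≤ (wt x ^ N : ℝ) • A := by
      have h4 : r • X ≤ (wt x ^ N : ℝ) • A := by
        refine (rs_mono hr0.le x1).trans ?_
        rw [smul_smul]
        refine rs_mono_left pA0 ?_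
        rw [hN, pow_add, mul_comm]
        exact mul_le_mul_of_nonneg_left hrle (wt_pow_pos x b).le
      refine le_trans ?_ h4
      rw [sub_le_self_iff]
      exact smul_nonneg_mat (inv_pos.2 hr0).le hQ
    have b2 : -((wt x ^ N : ℝ) • A) ≤ κ ^ a • X - (κ ^ a)⁻¹ • (A * X⁻¹ * A) := by
      have h4 : (κ ^ a)⁻¹ • (A * X⁻¹ * A) ≤ (wt x ^ N : ℝ) • A := by
        refine (rs_mono (inv_pos.2 (pow_pos hκ0 a)).le hQle).trans ?_
        rw [smul_smul]
        refine rs_mono_left pA0 ?_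
        rw [hN, pow_add, mul_comm]
        refine mul_le_mul_of_nonneg_left ?_ (wt_pow_pos x b).le
        rw [pow_mul, ← inv_pow]
        refine pow_le_pow_left₀ (inv_pos.2 hκ0).le ?_ a
        rw [inv_eq_one_div, div_le_iff₀ hκ0]
        exact hκ2
      have h5 : 0 ≤ κ ^ a • X := smul_nonneg_mat (pow_pos hκ0 a).le
        (Matrix.nonneg_iff_posSemidef.2 pX.posSemidef)
      rw [neg_le, neg_sub]
      refine le_trans ?_ h4
      rw [sub_le_self_iff]
      exact h5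
    have b3 := b2.trans key'
    refine b1.trans ?_
    have b4 : (wt x ^ N : ℝ) • A ≤ -((wt x ^ N : ℝ) • A) + (16 * wt x ^ N * S ^ 3) • A := by
      rw [← neg_smul, ← add_smul]
      refine rs_mono_left pA0 ?_
      linarith
    refine b4.trans ?_
    refine (add_le_add_left b3 _).trans (le_of_eq ?_)
    rw [add_assoc, ← add_smul, eerf]
    congr 2
    ring

/-- the inequality in the cusp -/
private theorem br_cusp {T : ℝ} {y : Vec n → ℝ} (hy : Ht Γ T y) {ρ : Γ →* Mat m} {b s₀ : ℕ}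
    {C₀ : ℝ} {H : Vec n → Mat m} (h₀ : Bas ρ b s₀ C₀ H) {a s : ℕ} (hs₀ : s₀ ≤ s)
    (hs : n + (2 * b + 2 * a) < s) (hs1 : n + 1 < s)
    (herf : Integrable (fun x : SUGroup n => kap s x * erf (2 * b + 2 * a) x) (mu n) ∧
      ∫ x : SUGroup n, kap s x * erf (2 * b + 2 * a) x ∂(mu n) ≤ 1 / s)
    (ha : 2 * C₀ + 3 ≤ 2 * a * n) {g : SUGroup n} (hT : T ≤ y (act g (base n))) :
    P s (MU y a H) (act g (base n)) + (2 / s : ℝ) • MU y a H (act g (base n)) ≤
      MU y a H (act g (base n)) * P s (fun w => (MU y a H w)⁻¹) (act g (base n)) *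
        MU y a H (act g (base n)) := by
  obtain ⟨p, hp, hq, e1, -, e3⟩ := hy.nul g hT
  have hs0 : (0 : ℝ) < s := by
    have : 0 < s := by omega
    exact_mod_cast this
  have hM := br_mu_met hy a h₀.met
  have hMh := br_mu_harn hy a h₀.met h₀.harn
  obtain ⟨C1, m1, m2⟩ := harn_adm hM hMh
  obtain ⟨C2, m3, m4⟩ := harn_adm h₀.met h₀.harn
  have i1 := int_adm hs m1 g
  have i2 := int_adm hs m2 g
  have i3 := int_adm (by omega : n + 2 * b < s) m3 g
  have i4 := int_adm (by omega : n + 2 * b < s) m4 g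
  obtain ⟨A, hA⟩ : ∃ A, A = H (act g (base n)) := ⟨_, rfl⟩
  obtain ⟨Y, hY⟩ : ∃ Y, Y = y (act g (base n)) := ⟨_, rfl⟩
  have hY0 : 0 < Y := hY ▸ br_ypos hy (orbit_mem g)
  have hYa : 0 < Y ^ a := pow_pos hY0 a
  have pA : A.PosDef := hA ▸ h₀.met.pos _ (orbit_mem g)
  have pA0 := Matrix.nonneg_iff_posSemidef.2 pA.posSemidef
  have hu := (isUnit_iff_isUnit_det A).1 pA.isUnit
  have eM : MU y a H (act g (base n)) = Y ^ a • A := by rw [br_mu, hY, hA]
  obtain ⟨j2, f2⟩ := int_sand i2 (MU y a H (act g (base n)))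
  obtain ⟨j4, f4⟩ := int_sand i4 A
  obtain ⟨i5, f5⟩ := int_log_yp_of hs1 hp hq g
  obtain ⟨i6, f6⟩ := herf
  obtain ⟨φ, hφ⟩ : ∃ φ : SUGroup n → ℝ, φ = fun x =>
      2 * a * (kap s x * Real.log (yp p (act (g * x) (base n)) / yp p (act g (base n)))) +
        kap s x * erf (2 * b + 2 * a) x := ⟨_, rfl⟩
  have i7 : Integrable φ (mu n) := by
    rw [hφ]
    exact (i5.const_mul _).add i6
  have f7 : ∫ x, φ x ∂(mu n) ≤ (-(2 * a * n) + 1) / s := by
    rw [hφ, integral_add (i5.const_mul _) i6, integral_const_mul]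
    have h1 := mul_le_mul_of_nonneg_left f5 (by positivity : (0 : ℝ) ≤ 2 * a)
    have h2 : (-(2 * (a : ℝ) * n) + 1) / s = 2 * a * -(n / s : ℝ) + 1 / s := by ring
    rw [h2]
    exact add_le_add h1 f6
  have hpt : ∀ x : SUGroup n, kap s x • MU y a H (act (g * x) (base n)) -
      MU y a H (act g (base n)) * (kap s x • (MU y a H (act (g * x) (base n)))⁻¹) *
        MU y a H (act g (base n)) ≤
      Y ^ a • (kap s x • H (act (g * x) (base n)) -
        A * (kap s x • (H (act (g * x) (base n)))⁻¹) * A + φ x • A) := by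
    intro x
    have hYx : 0 < y (act (g * x) (base n)) := br_ypos hy (orbit_mem (g * x))
    have pX := h₀.met.pos _ (orbit_mem (g * x))
    have h1 := br_point hy h₀.met h₀.harn a hT hp hq e1 e3 x
    rw [← hA, ← hY] at h1
    have h2 := rs_mono (mul_nonneg (kap_nonneg s x) hYa.le) h1
    obtain ⟨X, hX⟩ : ∃ X, X = H (act (g * x) (base n)) := ⟨_, rfl⟩
    obtain ⟨z, hz⟩ : ∃ z, z = y (act (g * x) (base n)) := ⟨_, rfl⟩
    rw [← hX] at h2 pX ⊢
    rw [← hz] at h2 hYx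
    have eMx : MU y a H (act (g * x) (base n)) = z ^ a • X := by rw [br_mu, hz, hX]
    have hza : 0 < z ^ a := pow_pos hYx a
    rw [eM, eMx, rs_inv pX hza]
    have g1 : kap s x • z ^ a • X - (Y ^ a • A) * (kap s x • (z ^ a)⁻¹ • X⁻¹) * (Y ^ a • A) =
        (kap s x * Y ^ a) • ((z / Y) ^ a • X - ((z / Y) ^ a)⁻¹ • (A * X⁻¹ * A)) := by
      simp only [Matrix.mul_smul, Matrix.smul_mul, smul_sub, smul_smul]
      congr 2
      · rw [div_pow]
        field_simp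
      · rw [div_pow]
        field_simp
    have g2 : Y ^ a • (kap s x • X - A * (kap s x • X⁻¹) * A + φ x • A) =
        (kap s x * Y ^ a) • (X - A * X⁻¹ * A +
          (2 * (a * Real.log (yp p (act (g * x) (base n)) / yp p (act g (base n)))) +
            erf (2 * b + 2 * a) x) • A) := by
      rw [hφ]
      simp only [Matrix.mul_smul, Matrix.smul_mul, smul_sub, smul_add, smul_smul]
      congr 1
      · congr 2
        · ring
        · ring
      · congr 1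
        ring
    rw [g1, g2]
    exact h2
  have key := integral_mono_mat (i1.sub j2)
    ((((i3.sub j4).add (i7.smul_const A)).smul (Y ^ a))) (Eventually.of_forall hpt)
  simp only [Pi.sub_apply, Pi.add_apply, Pi.smul_apply] at key
  rw [integral_sub i1 j2, f2, integral_smul,
    integral_add (f := fun x => kap s x • H (act (g * x) (base n)) -
      A * (kap s x • (H (act (g * x) (base n)))⁻¹) * A) (i3.sub j4) (i7.smul_const A),
    integral_sub i3 j4, f4, integral_smul_const, ← P_orbit, ← P_orbit,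
    ← P_orbit s (fun w => (MU y a H w)⁻¹) g, ← P_orbit s (fun w => (H w)⁻¹) g] at key
  -- the right side
  have l1 := h₀.hi s hs₀ _ (orbit_mem g)
  have l2 := h₀.lo' s hs₀ _ (orbit_mem g)
  rw [cr_smul, ← hA] at l1 l2
  have l3 := conj_le_conj l2 A
  rw [pA.1.eq, Matrix.mul_smul, Matrix.smul_mul, mul_nonsing_inv A hu, Matrix.one_mul] at l3
  have l4 := rs_mono_left pA0 f7
  have l5 : P s H (act g (base n)) - A * P s (fun w => (H w)⁻¹) (act g (base n)) * A +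
      (∫ x, φ x ∂(mu n)) • A ≤ (-(2 / s) : ℝ) • A := by
    have l6 := add_le_add (sub_le_sub l1 l3) l4
    refine l6.trans ?_
    rw [← sub_smul, ← add_smul]
    refine rs_mono_left pA0 ?_
    have l7 : 1 + C₀ / s - (1 - C₀ / s) + (-(2 * (a : ℝ) * n) + 1) / s =
        (2 * C₀ - 2 * a * n + 1) / s := by ring
    rw [l7, ← neg_div]
    exact div_le_div_of_nonneg_right (by linarith) hs0.le
  have l6 := key.trans (rs_mono hYa.le l5)
  rw [smul_comm, ← eM, neg_smul, sub_le_iff_le_add, ← sub_eq_neg_add, le_sub_iff_add_le] at l6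
  exact l6

/-- A4. Normalise by `H₀(g)^(-1/2)`; `r(x) = (y(gx)/y(g))^a`, `r_p(x) = (yp p(gx)/yp p(g))^a`; `r = r_p` unless
`4 yp p (gx) < T ≤ yp p (g)`, i.e. `wt(x)² > 4` (tail: `mom_tail`, total weight `wt^(2a+2b)`: `C/s²`).
`∫ kap (rR - (rR)⁻¹) ≤ ∫ kap (R - R⁻¹) + 2a ∫ kap h + C_a s^(-3/2) + C_a s⁻² ≤ (C₀ - 2an)/s + C_a s^(-3/2)` (`sinh_mat` with
`u = 2b log wt x`, `v = 2a log wt x`). Take `2 a n ≥ C₀ + 3`: `P_s M ≤ M P_s(M⁻¹) M - (2/s) M` in the cusp and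
`M ≥ C⁻¹ M P_s(M⁻¹) M`. The second inequality is the first one for the dual. -/
theorem exists_brr (hn : 1 ≤ n) {T : ℝ} {y : Vec n → ℝ} (hy : Ht Γ T y) (hT : 1 ≤ T)
    {ρ : Γ →* Mat m} {b s₀ : ℕ} {C₀ : ℝ} {H₀ : Vec n → Mat m} (h₀ : Bas ρ b s₀ C₀ H₀) :
    ∃ (a s₁ : ℕ) (c C : ℝ), ∀ s : ℕ, s₁ ≤ s → Brr ρ T y a b c C s H₀ := by
  obtain ⟨s₂, hs₂⟩ := erf_avg n (2 * b + 2 * ⌈2 * C₀ + 3⌉₊)
  obtain ⟨a, ha⟩ : ∃ a, a = ⌈2 * C₀ + 3⌉₊ := ⟨_, rfl⟩
  rw [← ha] at hs₂
  have hn' : (1 : ℝ) ≤ n := by exact_mod_cast hn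
  have haR : 2 * C₀ + 3 ≤ 2 * a * n := by
    have h1 : 2 * C₀ + 3 ≤ a := ha ▸ Nat.le_ceil _
    have h2 : (0 : ℝ) ≤ a := Nat.cast_nonneg a
    nlinarith
  obtain ⟨N, hN⟩ : ∃ N, N = 2 * b + 2 * a := ⟨_, rfl⟩
  obtain ⟨K, hK⟩ : ∃ K : ℝ, K = 2 ^ N * ((n : ℝ) + 1) ^ N := ⟨_, rfl⟩
  have hK1 : 1 ≤ K := by
    rw [hK]
    exact one_le_mul_of_one_le_of_one_le (one_le_pow₀ (by norm_num)) (one_le_pow₀ (by linarith))
  have hC0 := h₀.pos
  refine ⟨a, s₂ + s₀ + (n + 4 * a + 2 * b + 3), 2 / K, K + C₀, fun s hs => ?_⟩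
  have hsN : n + N < s := by omega
  have hs0 : (0 : ℝ) < s := by
    have : 0 < s := by omega
    exact_mod_cast this
  have hs3 : (3 : ℝ) ≤ s := by
    have : 3 ≤ s := by omega
    exact_mod_cast this
  have hherf := hs₂ s (by omega)
  have hK' : ∀ {A : Mat m}, 0 ≤ A → ((K : ℝ) : ℂ) • A ≤ ((K + C₀ : ℝ) : ℂ) • A := by
    intro A hA
    rw [cr_smul, cr_smul]
    exact rs_mono_left hA (by linarith)
  have hnn : ∀ {A : Mat m}, A.PosDef → 0 ≤ A := fun hA =>
    Matrix.nonneg_iff_posSemidef.2 hA.posSemidef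
  -- one half of the assertions
  have half : ∀ (ρ' : Γ →* Mat m) (H : Vec n → Mat m), Bas ρ' b s₀ C₀ H →
      (∀ v ∈ Cone n, P s (MU y a H) v ≤ ((K + C₀ : ℝ) : ℂ) • MU y a H v) ∧
      (∀ v ∈ Cone n, P s (fun w => (MU y a H w)⁻¹) v ≤ ((K + C₀ : ℝ) : ℂ) • (MU y a H v)⁻¹) ∧
      (∀ v ∈ Cone n, T ≤ y v → P s (MU y a H) v ≤ ((1 - (2 / K) / s : ℝ) : ℂ) •
        (MU y a H v * P s (fun w => (MU y a H w)⁻¹) v * MU y a H v)) := by
    intro ρ' H h
    have hM := br_mu_met hy a h.met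
    have hMh := br_mu_harn hy a h.met h.harn
    rw [← hN] at hMh
    have hI := met_inv hM
    have hIh := harn_inv hM hMh
    have up : ∀ v ∈ Cone n, P s (MU y a H) v ≤ ((K : ℝ) : ℂ) • MU y a H v := by
      intro v hv
      rw [hK]
      exact br_avg hM hMh hsN hv
    have up' : ∀ v ∈ Cone n, P s (fun w => (MU y a H w)⁻¹) v ≤ ((K : ℝ) : ℂ) • (MU y a H v)⁻¹ := by
      intro v hv
      rw [hK]
      exact br_avg hI hIh hsN hv
    refine ⟨fun v hv => (up v hv).trans (hK' (hnn (hM.pos v hv))),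
      fun v hv => (up' v hv).trans (hK' (hnn (hI.pos v hv))), fun v hv hTv => ?_⟩
    obtain ⟨g, c, hc, rfl⟩ := exists_act_eq hv
    rw [hy.hom c hc _ (orbit_mem g)] at hTv
    rw [P_smul' s _ hc, P_smul' s _ hc, hM.hom c hc _ (orbit_mem g)]
    have h1 := br_cusp hy h (by omega) (by omega) (by omega) hherf haR hTv
    have pM := hM.pos _ (orbit_mem g)
    obtain ⟨M, hMdef⟩ : ∃ M, M = MU y a H (act g (base n)) := ⟨_, rfl⟩
    obtain ⟨R, hR⟩ : ∃ R, R = P s (fun w => (MU y a H w)⁻¹) (act g (base n)) := ⟨_, rfl⟩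
    have h2 := up' _ (orbit_mem g)
    rw [← hMdef, ← hR] at h1 h2 ⊢
    rw [← hMdef] at pM
    have hu := (isUnit_iff_isUnit_det M).1 pM.isUnit
    have h3 : M * R * M ≤ K • M := by
      rw [cr_smul] at h2
      have h4 := conj_le_conj h2 M
      rw [pM.1.eq, Matrix.mul_smul, Matrix.smul_mul, mul_nonsing_inv M hu, Matrix.one_mul] at h4
      exact h4
    have hKs : 0 ≤ 2 / K / s := by positivity
    have h4 := rs_mono hKs h3
    rw [smul_smul] at h4
    have e1 : 2 / K / s * K = 2 / s := by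
      have : K ≠ 0 := by linarith
      field_simp
    rw [e1] at h4
    rw [cr_smul, sub_smul, one_smul, le_sub_iff_add_le]
    exact (add_le_add_right h4 _).trans h1
  obtain ⟨u1, u2, u3⟩ := half ρ H₀ h₀
  obtain ⟨d1, d2, d3⟩ := half (HM.dual ρ) _ h₀.dual
  have hbase : ∀ {A B : Mat m}, A.PosDef → B ≤ ((1 + C₀ / s : ℝ) : ℂ) • A →
      B ≤ ((1 + (K + C₀) / s : ℝ) : ℂ) • A := by
    intro A B hA h
    refine h.trans ?_
    rw [cr_smul, cr_smul]
    refine rs_mono_left (hnn hA) ?_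
    have : C₀ / s ≤ (K + C₀) / s := div_le_div_of_nonneg_right (by linarith) hs0.le
    linarith
  refine
    { ht := hy
      met := h₀.met
      harn := h₀.harn
      big := by omega
      T_pos := hT
      c_pos := by positivity
      c_lt := ?_
      one_le := by linarith
      base := fun v hv => hbase (h₀.met.pos v hv) (h₀.hi s (by omega) v hv)
      base' := fun v hv => hbase (h₀.met.pos v hv).inv (h₀.hi' s (by omega) v hv)
      up := u1
      up' := u2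
      dn := fun v hv => ?_
      dn' := fun v hv => ?_
      cuspU := u3
      cuspD := fun v hv hTv => ?_ }
  · have h1 : 2 / K ≤ 2 := div_le_self (by norm_num) hK1
    linarith
  · have h1 := d2 v hv
    rwa [P_congr' s (fun w hw => br_mu_inv' hy a h₀.met.pos hw) v,
      br_mu_inv' hy a h₀.met.pos hv] at h1
  · have h1 := d1 v hv
    rwa [P_congr' s (fun w hw => (br_md_inv hy a h₀.met.pos hw).symm) v,
      ← br_md_inv hy a h₀.met.pos hv] at h1
  · have h1 := d3 v hv hTv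
    rw [P_congr' s (fun w hw => (br_md_inv hy a h₀.met.pos hw).symm) v,
      P_congr' s (fun w hw => br_mu_inv' hy a h₀.met.pos hw) v,
      ← br_md_inv hy a h₀.met.pos hv] at h1
    exact br_conj (br_md_pos hy a h₀.met.pos hv) h1

end Pool.Agent.Lib.MP_5d4057_al.NU
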