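import Pool.Agent.Lib.MP_5d4057_al.NU.Base

/-! The barriers (blueprint h37_nu, A2 and A3): the mean of the logarithm of the height and the
matrix inequality. -/

set_option autoImplicit false

namespace Pool.Agent.Lib.MP_5d4057_al.NU

open Matrix MeasureTheory Filter Topology Pool.Agent.Lib.MP_5d4057_al
  Pool.Agent.Lib.MP_5d4057_al.Hyb Pool.Agent.Lib.MP_5d4057_al.HM

open scoped ComplexOrder MatrixOrder Matrix.Norms.L2Operator ENNReal

variable {n m : ℕ}

/-! ### Rotations -/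

private theorem br_diag (d : Fin (n + 1) → ℂ) (hd : ∀ i, ‖d i‖ = 1) (hp : ∏ i, d i = 1) :
    ∃ k : SUGroup n, ∀ x : SUGroup n, ch (k * x) = ch x ∧
      ∀ j, zc (k * x) j = d j.castSucc / d (Fin.last n) * zc x j := by
  have h1 : (Matrix.diagonal d).det = 1 := by rw [det_diagonal, hp]
  have hs : ∀ i, star (d i) * d i = 1 := by
    intro i
    rw [RCLike.star_def, Complex.conj_mul', hd]
    simp
  have h2 : (Matrix.diagonal d)ᴴ * J n * Matrix.diagonal d = J n := by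
    rw [J, diagonal_conjTranspose, diagonal_mul_diagonal, diagonal_mul_diagonal]
    congr 1
    funext i
    rw [Pi.star_apply, mul_right_comm, hs, one_mul]
  refine ⟨ofMatrix _ h1 h2, fun x => ?_⟩
  have h3 : ∀ i j, (ofMatrix _ h1 h2 * x).toMatrix i j = d i * x.toMatrix i j := by
    intro i j
    rw [toMatrix_mul, toMatrix_ofMatrix, diagonal_mul]
  constructor
  · rw [ch, h3, norm_mul, hd, one_mul]
    rfl
  · intro j
    rw [zc, zc, h3, h3, mul_div_mul_comm]

/-- the rotation by a number `z` of modulus one -/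
theorem exists_rot (z : ℂ) (hz : ‖z‖ = 1) :
    ∃ k : SUGroup n, ∀ x : SUGroup n, ch (k * x) = ch x ∧ ∀ j, zc (k * x) j = z * zc x j := by
  obtain ⟨c, hcz⟩ : ∃ c : ℂ, c ^ (n + 1) = z := IsAlgClosed.exists_pow_nat_eq _ (Nat.succ_pos n)
  have hc : ‖c‖ = 1 := by
    have h1 := congrArg norm hcz
    rw [norm_pow, hz] at h1
    exact (pow_eq_one_iff_of_nonneg (norm_nonneg c) (Nat.succ_ne_zero n)).1 h1
  have hcc : c * star c = 1 := by
    rw [RCLike.star_def, Complex.mul_conj', hc]; simp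
  have hc0 : c ≠ 0 := by
    intro h
    rw [h, norm_zero] at hc
    exact zero_ne_one hc
  obtain ⟨k, hk⟩ := br_diag (n := n) (Fin.snoc (α := fun _ => ℂ) (fun _ => c) (star c ^ n))
    (fun i => by
      refine Fin.lastCases ?_ (fun i => ?_) i
      · rw [Fin.snoc_last, norm_pow, norm_star, hc, one_pow]
      · rw [Fin.snoc_castSucc, hc])
    (by
      rw [Fin.prod_univ_castSucc]
      simp only [Fin.snoc_castSucc, Fin.snoc_last, Finset.prod_const, Finset.card_univ,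
        Fintype.card_fin]
      rw [← mul_pow, hcc, one_pow])
  refine ⟨k, fun x => ⟨(hk x).1, fun j => ?_⟩⟩
  rw [(hk x).2 j, Fin.snoc_castSucc, Fin.snoc_last, ← hcz]
  congr 1
  have h1 : star c ^ n ≠ 0 := pow_ne_zero _ (star_ne_zero.2 hc0)
  rw [div_eq_iff h1, pow_succ', mul_assoc, ← mul_pow, hcc, one_pow, mul_one]

/-! ### The mean of a logarithm -/

/-- the cross term with a unit vector -/
noncomputable def wz (u : Fin n → ℂ) (x : SUGroup n) : ℂ := ∑ j, star (zc x j) * u j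

theorem continuous_wz (u : Fin n → ℂ) : Continuous (wz u) := by
  unfold wz
  exact continuous_finsetSum _ fun j _ => (continuous_star.comp (continuous_zc j)).mul
    continuous_const

theorem norm_wz_sq {u : Fin n → ℂ} (hu : ∑ j, ‖u j‖ ^ 2 ≤ 1) (x : SUGroup n) :
    ‖wz u x‖ ^ 2 ≤ 1 - (ch x ^ 2)⁻¹ := by
  have h1 : ‖wz u x‖ ≤ Real.sqrt (∑ j : Fin n, ‖zc x j‖ ^ 2) *
      Real.sqrt (∑ j : Fin n, ‖u j‖ ^ 2) := by
    unfold wz
    calc _ ≤ ∑ j : Fin n, ‖star (zc x j) * u j‖ := norm_sum_le _ _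
      _ = ∑ j : Fin n, ‖zc x j‖ * ‖u j‖ := by simp only [norm_mul, norm_star]
      _ ≤ _ := Real.sum_mul_le_sqrt_mul_sqrt _ _ _
  have h2 : 0 ≤ ∑ j : Fin n, ‖zc x j‖ ^ 2 := Finset.sum_nonneg fun j _ => sq_nonneg _
  have h3 : 0 ≤ ∑ j : Fin n, ‖u j‖ ^ 2 := Finset.sum_nonneg fun j _ => sq_nonneg _
  have h4 := pow_le_pow_left₀ (norm_nonneg _) h1 2
  rw [mul_pow, Real.sq_sqrt h2, Real.sq_sqrt h3] at h4
  rw [← sum_norm_zc]
  refine h4.trans ?_
  exact mul_le_of_le_one_right h2 hu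

theorem norm_wz_le {u : Fin n → ℂ} (hu : ∑ j, ‖u j‖ ^ 2 ≤ 1) (x : SUGroup n) :
    ‖wz u x‖ ≤ 1 - (2 * ch x ^ 2)⁻¹ := by
  have h1 := norm_wz_sq hu x
  have h2 : 0 < (ch x ^ 2)⁻¹ := inv_pos.2 (pow_pos (ch_pos x) 2)
  have h3 : (ch x ^ 2)⁻¹ ≤ 1 := inv_le_one_of_one_le₀ (one_le_pow₀ (one_le_ch x))
  have h4 : (2 * ch x ^ 2)⁻¹ = (ch x ^ 2)⁻¹ / 2 := by
    rw [mul_inv]
    ring
  rw [h4]
  refine (pow_le_pow_iff_left₀ (norm_nonneg _) (by linarith) two_ne_zero).1 ?_
  nlinarith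

/-- the logarithm of `1 - w ^ m` is bounded, uniformly in `m` -/
theorem log_wz_le {u : Fin n → ℂ} (hu : ∑ j, ‖u j‖ ^ 2 ≤ 1) (x : SUGroup n) (k : ℕ) :
    |Real.log ‖1 - wz u x ^ (2 ^ k)‖| ≤ 2 * ch x ^ 2 := by
  have hc : 1 ≤ ch x ^ 2 := one_le_pow₀ (one_le_ch x)
  have h1 := norm_wz_le hu x
  have h0 : 0 < (2 * ch x ^ 2)⁻¹ := by positivity
  have h2 : ‖wz u x ^ (2 ^ k)‖ ≤ ‖wz u x‖ := by
    rw [norm_pow]
    exact pow_le_of_le_one (norm_nonneg _) (by linarith) (pow_ne_zero k two_ne_zero)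
  have h3 : (2 * ch x ^ 2)⁻¹ ≤ ‖1 - wz u x ^ (2 ^ k)‖ := by
    have h4 := norm_sub_norm_le (1 : ℂ) (wz u x ^ (2 ^ k))
    rw [norm_one] at h4
    linarith
  have h5 : ‖1 - wz u x ^ (2 ^ k)‖ ≤ 2 := by
    have h4 := norm_sub_le (1 : ℂ) (wz u x ^ (2 ^ k))
    rw [norm_one] at h4
    linarith
  have hpos : 0 < ‖1 - wz u x ^ (2 ^ k)‖ := lt_of_lt_of_le h0 h3
  rw [abs_le]
  constructor
  · have h6 := Real.log_le_log h0 h3
    rw [Real.log_inv] at h6
    have h7 := Real.log_le_sub_one_of_pos (show 0 < 2 * ch x ^ 2 by positivity)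
    linarith
  · have h6 := Real.log_le_log hpos h5
    have h7 := Real.log_le_sub_one_of_pos (show (0 : ℝ) < 2 by norm_num)
    linarith

theorem one_sub_wz_ne {u : Fin n → ℂ} (hu : ∑ j, ‖u j‖ ^ 2 ≤ 1) (x : SUGroup n) (k : ℕ) :
    1 - wz u x ^ (2 ^ k) ≠ 0 := by
  intro h
  have h1 := norm_wz_le hu x
  have h0 : 0 < (2 * ch x ^ 2)⁻¹ := inv_pos.2 (mul_pos two_pos (pow_pos (ch_pos x) 2))
  have h2 : ‖wz u x ^ (2 ^ k)‖ ≤ ‖wz u x‖ := by
    rw [norm_pow]
    exact pow_le_of_le_one (norm_nonneg _) (by linarith) (pow_ne_zero k two_ne_zero)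
  rw [← sub_eq_zero.1 h, norm_one] at h2
  linarith

theorem integrable_log_wz {s : ℕ} (hs : n + 1 < s) {u : Fin n → ℂ} (hu : ∑ j, ‖u j‖ ^ 2 ≤ 1)
    (k : ℕ) : Integrable (fun x : SUGroup n => kap s x * Real.log ‖1 - wz u x ^ (2 ^ k)‖)
      (mu n) := by
  have h1 := (integrable_kap_pow (n := n) (s := s) (N := 1) hs).const_mul 2
  refine h1.mono' ?_ (Eventually.of_forall fun x => ?_)
  · refine ((continuous_kap s).mul ?_).aestronglyMeasurable
    exact (continuous_const.sub ((continuous_wz u).pow _)).norm.log fun x =>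
      norm_ne_zero_iff.2 (one_sub_wz_ne hu x k)
  · rw [Real.norm_eq_abs, abs_mul, abs_of_nonneg (kap_nonneg s x)]
    have h2 := mul_le_mul_of_nonneg_left (log_wz_le hu x k) (kap_nonneg s x)
    rw [mul_one]
    linarith

/-- the mean of `log |1 - w|` is zero: rotations double the exponent -/
theorem integral_log_wz {s : ℕ} (hs : n + 1 < s) {u : Fin n → ℂ} (hu : ∑ j, ‖u j‖ ^ 2 ≤ 1) :
    ∫ x : SUGroup n, kap s x * Real.log ‖1 - wz u x‖ ∂(mu n) = 0 := by
  obtain ⟨J, hJ⟩ : ∃ J : ℕ → ℝ, J = fun k =>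
    ∫ x : SUGroup n, kap s x * Real.log ‖1 - wz u x ^ (2 ^ k)‖ ∂(mu n) := ⟨_, rfl⟩
  have hstep : ∀ k, J (k + 1) = 2 * J k := by
    intro k
    obtain ⟨ζ, hζ⟩ : ∃ ζ : ℂ, ζ ^ (2 ^ k) = -1 :=
      IsAlgClosed.exists_pow_nat_eq _ (Nat.pos_of_ne_zero (pow_ne_zero k two_ne_zero))
    have hζ1 : ‖ζ‖ = 1 := by
      have h1 := congrArg norm hζ
      rw [norm_pow, norm_neg, norm_one] at h1
      exact (pow_eq_one_iff_of_nonneg (norm_nonneg ζ) (pow_ne_zero k two_ne_zero)).1 h1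
    obtain ⟨κ, hκ⟩ := exists_rot (n := n) (star ζ) (by rw [norm_star, hζ1])
    have e1 : ∀ x : SUGroup n, wz u (κ * x) = ζ * wz u x := by
      intro x
      unfold wz
      rw [Finset.mul_sum]
      refine Finset.sum_congr rfl fun j _ => ?_
      rw [(hκ x).2, star_mul, star_star]
      ring
    have e2 : ∀ x : SUGroup n, kap s (κ * x) = kap s x := fun x => by rw [kap, kap, (hκ x).1]
    have e3 := integral_mul_left_eq_self (μ := mu n)
      (fun x : SUGroup n => kap s x * Real.log ‖1 - wz u x ^ (2 ^ k)‖) κ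
    simp only [e1, e2, mul_pow, hζ, neg_mul, one_mul, sub_neg_eq_add] at e3
    have i1 := integrable_log_wz hs hu k
    have i2 : Integrable (fun x : SUGroup n => kap s x * Real.log ‖1 + wz u x ^ (2 ^ k)‖)
        (mu n) := by
      have h1 := i1.comp_mul_left κ
      simp only [e1, e2, mul_pow, hζ, neg_mul, one_mul, sub_neg_eq_add] at h1
      exact h1
    have e4 : ∀ x : SUGroup n, kap s x * Real.log ‖1 - wz u x ^ (2 ^ (k + 1))‖ =
        kap s x * Real.log ‖1 - wz u x ^ (2 ^ k)‖ +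
          kap s x * Real.log ‖1 + wz u x ^ (2 ^ k)‖ := by
      intro x
      have h1 : 1 - wz u x ^ (2 ^ (k + 1)) = (1 - wz u x ^ (2 ^ k)) * (1 + wz u x ^ (2 ^ k)) := by
        rw [pow_succ, pow_mul]
        ring
      have h2 : 1 + wz u x ^ (2 ^ k) ≠ 0 := by
        intro h
        have h3 := one_sub_wz_ne hu x (k + 1)
        rw [h1, h, mul_zero] at h3
        exact h3 rfl
      rw [h1, norm_mul, Real.log_mul (norm_ne_zero_iff.2 (one_sub_wz_ne hu x k))
        (norm_ne_zero_iff.2 h2), mul_add]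
    rw [hJ]
    simp only [e4]
    rw [integral_add i1 i2, e3]
    ring
  have hpow : ∀ k, J k = 2 ^ k * J 0 := by
    intro k
    induction k with
    | zero => rw [pow_zero, one_mul]
    | succ k ih => rw [hstep, ih, pow_succ]; ring
  obtain ⟨D, hD⟩ : ∃ D : ℝ, ∀ k, |J k| ≤ D := by
    refine ⟨∫ x : SUGroup n, 2 * (kap s x * ch x ^ (2 * 1)) ∂(mu n), fun k => ?_⟩
    have h1 := (integrable_kap_pow (n := n) (s := s) (N := 1) hs).const_mul 2
    have h2 := norm_integral_le_of_norm_le (f := fun x : SUGroup n =>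
      kap s x * Real.log ‖1 - wz u x ^ (2 ^ k)‖) h1 (Eventually.of_forall fun x => by
        rw [Real.norm_eq_abs, abs_mul, abs_of_nonneg (kap_nonneg s x)]
        have h2 := mul_le_mul_of_nonneg_left (log_wz_le hu x k) (kap_nonneg s x)
        rw [mul_one]
        linarith)
    rw [hJ]
    exact h2
  have h0 : J 0 = 0 := by
    by_contra h
    have hpos : 0 < |J 0| := abs_pos.2 h
    obtain ⟨k, hk⟩ := pow_unbounded_of_one_lt (D / |J 0|) (one_lt_two (α := ℝ))
    rw [div_lt_iff₀ hpos] at hk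
    have h1 := hD k
    rw [hpow, abs_mul, abs_of_nonneg (by positivity)] at h1
    linarith
  rw [hJ] at h0
  simpa only [pow_zero, pow_one] using h0

/-! ### The height -/

theorem null_last {u : Vec n} (hu : u ≠ 0) (hq : q u = 0) : u (Fin.last n) ≠ 0 := by
  intro h
  apply hu
  rw [q_eq, h, norm_zero, zero_pow two_ne_zero, sub_zero] at hq
  rw [Finset.sum_eq_zero_iff_of_nonneg fun i _ => sq_nonneg _] at hq
  funext i
  refine Fin.lastCases ?_ (fun j => ?_) i
  · exact h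
  · have := hq j (Finset.mem_univ j)
    exact norm_eq_zero.1 (pow_eq_zero_iff two_ne_zero |>.1 this)

theorem null_sum {u : Vec n} (hu : u ≠ 0) (hq : q u = 0) :
    ∑ j : Fin n, ‖u j.castSucc / u (Fin.last n)‖ ^ 2 = 1 := by
  have h1 : ‖u (Fin.last n)‖ ^ 2 ≠ 0 := pow_ne_zero 2 (norm_ne_zero_iff.2 (null_last hu hq))
  simp only [norm_div, div_pow]
  rw [← Finset.sum_div, div_eq_one_iff_eq h1]
  rw [q_eq] at hq
  linarith

theorem act_base_apply (x : SUGroup n) (i : Fin (n + 1)) :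
    act x (base n) i = x.toMatrix i (Fin.last n) := by
  rw [act, base, mulVec_single_one]
  rfl

/-- the height along an orbit -/
theorem yp_orbit_b {p : Vec n} (hp : p ≠ 0) (hq : q p = 0) (g : SUGroup n) :
    ∃ u : Fin n → ℂ, ∑ j, ‖u j‖ ^ 2 = 1 ∧ 0 < yp p (act g (base n)) ∧ ∀ x : SUGroup n,
      yp p (act (g * x) (base n)) =
        (ch x ^ 2 * ‖1 - wz u x‖ ^ 2)⁻¹ * yp p (act g (base n)) := by
  obtain ⟨v, hv⟩ : ∃ v, v = act g⁻¹ p := ⟨_, rfl⟩
  have hpv : p = act g v := by rw [hv, ← act_mul, mul_inv_cancel, act_one]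
  have hv0 : v ≠ 0 := by
    intro h
    apply hp
    rw [hpv, h, act, mulVec_zero]
  have hvq : q v = 0 := by rw [hv, q_act, hq]
  have hl := null_last hv0 hvq
  refine ⟨fun j => v j.castSucc / v (Fin.last n), null_sum hv0 hvq, ?_, fun x => ?_⟩
  · rw [yp, q_orbit, hpv, herm_act, herm_eq, base, Pi.single_eq_same]
    rw [Finset.sum_eq_zero fun i _ => by
      rw [Pi.single_eq_of_ne (Fin.castSucc_lt_last i).ne, star_zero, zero_mul]]
    rw [zero_sub, norm_neg, star_one, one_mul, neg_neg]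
    have := norm_pos_iff.2 hl
    positivity
  · have h1 : herm (act g (base n)) p = - v (Fin.last n) := by
      rw [hpv, herm_act, herm_eq, base, Pi.single_eq_same]
      rw [Finset.sum_eq_zero fun i _ => by
        rw [Pi.single_eq_of_ne (Fin.castSucc_lt_last i).ne, star_zero, zero_mul]]
      rw [zero_sub, star_one, one_mul]
    have hx0 : x.toMatrix (Fin.last n) (Fin.last n) ≠ 0 := corner_ne x
    have h2 : herm (act (g * x) (base n)) p = - (star (x.toMatrix (Fin.last n) (Fin.last n)) *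
        v (Fin.last n) * (1 - wz (fun j => v j.castSucc / v (Fin.last n)) x)) := by
      rw [act_mul, hpv, herm_act, herm_eq]
      simp only [act_base_apply]
      unfold wz zc
      rw [mul_sub, mul_one, neg_sub, Finset.mul_sum]
      congr 1
      refine Finset.sum_congr rfl fun j _ => ?_
      rw [star_div₀]
      have hs0 : star (x.toMatrix (Fin.last n) (Fin.last n)) ≠ 0 := star_ne_zero.2 hx0
      field_simp
    rw [yp, yp, q_orbit, q_orbit, h1, h2, norm_neg, norm_neg, norm_mul, norm_mul, norm_star]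
    have e : ‖x.toMatrix (Fin.last n) (Fin.last n)‖ = ch x := rfl
    rw [e, mul_pow, mul_pow]
    have := ch_pos x
    rw [neg_neg]
    rw [one_div, one_div, mul_inv, mul_inv, mul_inv]
    ring

theorem yp_ratio_le {u : Fin n → ℂ} (hu : ∑ j, ‖u j‖ ^ 2 = 1) (x : SUGroup n) :
    (ch x ^ 2 * ‖1 - wz u x‖ ^ 2)⁻¹ ≤ wt x ^ 2 := by
  have hc := one_le_ch x
  have hw := one_le_wt x
  have h1 := norm_wz_sq hu.le x
  have hd : 0 ≤ ch x ^ 2 - 1 := by nlinarith
  have h2 : ch x * ‖wz u x‖ ≤ Real.sqrt (ch x ^ 2 - 1) := by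
    refine Real.le_sqrt_of_sq_le ?_
    rw [mul_pow]
    have h3 := mul_le_mul_of_nonneg_left h1 (sq_nonneg (ch x))
    rwa [mul_sub, mul_one, mul_inv_cancel₀ (pow_ne_zero 2 (ch_pos x).ne')] at h3
  have h3 : (wt x)⁻¹ ≤ ch x * ‖1 - wz u x‖ := by
    have h4 : (wt x)⁻¹ = ch x - Real.sqrt (ch x ^ 2 - 1) := by
      refine inv_eq_of_mul_eq_one_right ?_
      unfold wt
      nlinarith [Real.sq_sqrt hd]
    rw [h4]
    have h5 := norm_sub_norm_le (1 : ℂ) (wz u x)
    rw [norm_one] at h5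
    have h6 := mul_le_mul_of_nonneg_left h5 (ch_pos x).le
    rw [mul_sub, mul_one] at h6
    linarith
  have hw0 : 0 < wt x := by linarith
  rw [← mul_pow, ← inv_pow]
  refine pow_le_pow_left₀ (inv_nonneg.2 (mul_nonneg (ch_pos x).le (norm_nonneg _))) ?_ 2
  rw [inv_le_comm₀ (lt_of_lt_of_le (inv_pos.2 hw0) h3) hw0]
  exact h3

/-- the Harnack inequality of the height -/
theorem yp_harn_of {p : Vec n} (hp : p ≠ 0) (hq : q p = 0) (g x : SUGroup n) :
    0 < yp p (act g (base n)) ∧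
      yp p (act (g * x) (base n)) ≤ wt x ^ 2 * yp p (act g (base n)) := by
  obtain ⟨u, hu, hpos, h⟩ := yp_orbit_b hp hq g
  refine ⟨hpos, ?_⟩
  rw [h x]
  exact mul_le_mul_of_nonneg_right (yp_ratio_le hu x) hpos.le

theorem integral_kap_inv {s : ℕ} (hs : n < s) :
    Integrable (fun x : SUGroup n => kap s x * (ch x ^ 2)⁻¹) (mu n) ∧
    ∫ x : SUGroup n, kap s x * (ch x ^ 2)⁻¹ ∂(mu n) = 1 - n / s := by
  have hc := cs_pos' hs
  have e : ∀ x : SUGroup n, kap s x * (ch x ^ 2)⁻¹ = (cs n s)⁻¹ * (ch x ^ (2 * (s + 1)))⁻¹ := by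
    intro x
    have hx := (ch_pos x).ne'
    rw [kap, mul_add, mul_one, pow_add, mul_inv]
    ring
  have hs0 : (s : ℝ) ≠ 0 := by
    have : 0 < s := by omega
    exact_mod_cast this.ne'
  simp only [e]
  refine ⟨(integrable_inv (by omega)).const_mul _, ?_⟩
  rw [integral_const_mul]
  have h1 := cs_succ hs
  have h2 : ∫ x : SUGroup n, (ch x ^ (2 * (s + 1)))⁻¹ ∂(mu n) = cs n (s + 1) := rfl
  rw [h2]
  field_simp
  linarith

/-- A3, the only integral. -/
theorem int_log_yp_of {s : ℕ} (hs : n + 1 < s) {p : Vec n} (hp : p ≠ 0) (hq : q p = 0)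
    (g : SUGroup n) :
    Integrable (fun x => kap s x * Real.log (yp p (act (g * x) (base n)) /
        yp p (act g (base n)))) (mu n) ∧
      ∫ x, kap s x * Real.log (yp p (act (g * x) (base n)) / yp p (act g (base n))) ∂(mu n) ≤
        - (n / s : ℝ) := by
  obtain ⟨u, hu, hpos, h⟩ := yp_orbit_b hp hq g
  have e : ∀ x : SUGroup n, kap s x * Real.log (yp p (act (g * x) (base n)) /
      yp p (act g (base n))) = -(kap s x * Real.log (ch x ^ 2)) -
        2 * (kap s x * Real.log ‖1 - wz u x‖) := by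
    intro x
    have h0 := one_sub_wz_ne hu.le x 0
    rw [pow_zero, pow_one] at h0
    have h1 : ‖1 - wz u x‖ ≠ 0 := norm_ne_zero_iff.2 h0
    rw [h x, mul_div_cancel_right₀ _ hpos.ne', Real.log_inv,
      Real.log_mul (pow_ne_zero 2 (ch_pos x).ne') (pow_ne_zero 2 h1), Real.log_pow ‖1 - wz u x‖]
    push_cast
    ring
  have i1 : Integrable (fun x : SUGroup n => kap s x * Real.log (ch x ^ 2)) (mu n) := by
    refine (integrable_kap_pow (n := n) (s := s) (N := 1) hs).mono' ?_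
      (Eventually.of_forall fun x => ?_)
    · exact ((continuous_kap s).mul ((continuous_ch.pow 2).log fun x =>
        pow_ne_zero 2 (ch_pos x).ne')).aestronglyMeasurable
    · have hc : 1 ≤ ch x ^ 2 := one_le_pow₀ (one_le_ch x)
      have h1 := Real.log_nonneg hc
      have h2 := Real.log_le_sub_one_of_pos (show 0 < ch x ^ 2 by linarith)
      rw [Real.norm_eq_abs, abs_of_nonneg (mul_nonneg (kap_nonneg s x) h1), mul_one]
      exact mul_le_mul_of_nonneg_left (by linarith) (kap_nonneg s x)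
  have i2 := integrable_log_wz hs hu.le 0
  simp only [pow_zero, pow_one] at i2
  simp only [e]
  refine ⟨i1.neg.sub (i2.const_mul 2), ?_⟩
  rw [integral_sub (f := fun x => -(kap s x * Real.log (ch x ^ 2))) i1.neg (i2.const_mul 2),
    integral_neg, integral_const_mul, integral_log_wz hs hu.le, mul_zero, sub_zero, neg_le_neg_iff]
  obtain ⟨i3, e3⟩ := integral_kap_inv (n := n) (s := s) (by omega)
  have i4 := integrable_kap (n := n) (s := s) (by omega)
  have h1 : ∫ x : SUGroup n, (kap s x - kap s x * (ch x ^ 2)⁻¹) ∂(mu n) = n / s := by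
    rw [integral_sub i4 i3, e3, integral_kap (by omega)]
    ring
  rw [← h1]
  refine integral_mono (i4.sub i3) i1 fun x => ?_
  have h2 := Real.one_sub_inv_le_log_of_pos (show 0 < ch x ^ 2 from pow_pos (ch_pos x) 2)
  have h3 := mul_le_mul_of_nonneg_left h2 (kap_nonneg s x)
  rw [mul_sub, mul_one] at h3
  exact h3

/-! ### The matrix inequality -/

private theorem br_cosh {t : ℝ} (ht : 0 ≤ t) : Real.cosh t - 1 ≤ t ^ 2 * Real.exp t / 2 := by
  have h1 : Real.cosh t - 1 = Real.exp t * (1 - Real.exp (-t)) ^ 2 / 2 := by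
    rw [Real.cosh_eq]
    have h2 : Real.exp t * Real.exp (-t) = 1 := by rw [← Real.exp_add, add_neg_cancel, Real.exp_zero]
    have h3 : Real.exp t * (1 - Real.exp (-t)) ^ 2 =
        Real.exp t - 2 * (Real.exp t * Real.exp (-t)) +
          (Real.exp t * Real.exp (-t)) * Real.exp (-t) := by ring
    rw [h3, h2]
    ring
  have h2 : 0 ≤ 1 - Real.exp (-t) := by
    have := Real.exp_le_one_iff.2 (neg_nonpos.2 ht)
    linarith
  have h3 : 1 - Real.exp (-t) ≤ t := by
    have := Real.add_one_le_exp (-t)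
    linarith
  rw [h1]
  have h4 : (1 - Real.exp (-t)) ^ 2 ≤ t ^ 2 := pow_le_pow_left₀ h2 h3 2
  have h5 := mul_le_mul_of_nonneg_left h4 (Real.exp_pos t).le
  linarith

private theorem br_sinh {a b t : ℝ} (ha : |a| ≤ t) (hb : |b| ≤ t) :
    |(Real.sinh a - a) - (Real.sinh b - b)| ≤ (t ^ 2 * Real.exp t / 2) * |a - b| := by
  have ht : 0 ≤ t := (abs_nonneg a).trans ha
  have h1 := Convex.norm_image_sub_le_of_norm_deriv_le (𝕜 := ℝ) (f := fun r => Real.sinh r - r)
    (C := t ^ 2 * Real.exp t / 2) (s := Set.Icc (-t) t) (x := b) (y := a)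
    (fun r _ => (Real.differentiable_sinh r).sub differentiableAt_id) (fun r hr => ?_)
    (convex_Icc _ _) ⟨(abs_le.1 hb).1, (abs_le.1 hb).2⟩ ⟨(abs_le.1 ha).1, (abs_le.1 ha).2⟩
  · exact h1
  · have h2 : HasDerivAt (fun r => Real.sinh r - r) (Real.cosh r - 1) r :=
      (Real.hasDerivAt_sinh r).sub (hasDerivAt_id r)
    rw [h2.deriv, Real.norm_eq_abs, abs_of_nonneg (by linarith [Real.one_le_cosh r])]
    refine le_trans ?_ (br_cosh ht)
    have h3 : Real.cosh r ≤ Real.cosh t := by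
      rw [Real.cosh_le_cosh, abs_of_nonneg ht]
      exact abs_le.2 ⟨hr.1, hr.2⟩
    linarith

private theorem br_scal {d u v h : ℝ} (hv : |h| ≤ v) (h0 : 0 < d)
    (h1 : d ≤ Real.exp u) (h2 : 1 ≤ Real.exp u * d) :
    Real.exp h * d - Real.exp (-h) * d⁻¹ - (d - d⁻¹) - 2 * h ≤
      2 * (u + v) ^ 3 * Real.exp (u + v) := by
  obtain ⟨w, hw⟩ : ∃ w, w = Real.log d := ⟨_, rfl⟩
  have hd : d = Real.exp w := by rw [hw, Real.exp_log h0]
  have hwu : |w| ≤ u := by
    rw [abs_le]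
    constructor
    · rw [hd, ← Real.exp_add] at h2
      have := Real.one_le_exp_iff.1 h2
      linarith
    · rw [hd] at h1
      exact Real.exp_le_exp.1 h1
  have hu : 0 ≤ u := (abs_nonneg w).trans hwu
  have hv0 : 0 ≤ v := (abs_nonneg h).trans hv
  have a1 : |h + w| ≤ u + v := by
    refine (abs_add_le h w).trans ?_
    linarith
  have a2 : |w| ≤ u + v := by linarith
  have h3 := (abs_le.1 (br_sinh a1 a2)).2
  rw [add_sub_cancel_right] at h3
  have e1 : Real.exp h * d - Real.exp (-h) * d⁻¹ - (d - d⁻¹) - 2 * h =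
      2 * ((Real.sinh (h + w) - (h + w)) - (Real.sinh w - w)) := by
    rw [hd, ← Real.exp_neg, ← Real.exp_add, ← Real.exp_add, Real.sinh_eq, Real.sinh_eq,
      neg_add]
    ring
  rw [e1]
  have h4 : (u + v) ^ 2 * Real.exp (u + v) / 2 * |h| ≤
      (u + v) ^ 2 * Real.exp (u + v) / 2 * (u + v) :=
    mul_le_mul_of_nonneg_left (by linarith) (by positivity)
  have h5 : 0 ≤ (u + v) ^ 3 * Real.exp (u + v) := by positivity
  have h6 : (u + v) ^ 2 * Real.exp (u + v) / 2 * (u + v) = (u + v) ^ 3 * Real.exp (u + v) / 2 := by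
    ring
  linarith

/-- A2 in the form for two matrices. -/
theorem sinh_quad {A X : Mat m} (hA : A.PosDef) (hX : X.PosDef) {u v h : ℝ} (hv : |h| ≤ v)
    (h1 : X ≤ Real.exp u • A) (h2 : A ≤ Real.exp u • X) :
    Real.exp h • X - Real.exp (-h) • (A * X⁻¹ * A) ≤
      X - A * X⁻¹ * A + (2 * h + 2 * (u + v) ^ 3 * Real.exp (u + v)) • A := by
  obtain ⟨P, d, hP, hd, rfl, rfl⟩ := BarAux.simdiag hA hX
  rw [BarAux.diag_le_iff hP] at h1
  rw [BarAux.le_diag_iff hP] at h2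
  have hPc : IsUnit Pᴴ := BarAux.unit_conj hP
  have eD : (diagonal (fun i => (d i : ℂ)))⁻¹ = diagonal (fun i => (((d i)⁻¹ : ℝ) : ℂ)) := by
    refine Matrix.inv_eq_right_inv ?_
    rw [diagonal_mul_diagonal, ← diagonal_one]
    congr 1
    funext i
    rw [← Complex.ofReal_mul, mul_inv_cancel₀ (hd i).ne', Complex.ofReal_one]
  have e1 : P * Pᴴ * (P * diagonal (fun i => (d i : ℂ)) * Pᴴ)⁻¹ * (P * Pᴴ) =
      P * diagonal (fun i => (((d i)⁻¹ : ℝ) : ℂ)) * Pᴴ := by
    rw [Matrix.mul_inv_rev, Matrix.mul_inv_rev, eD]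
    calc P * Pᴴ * (Pᴴ⁻¹ * (diagonal (fun i => (((d i)⁻¹ : ℝ) : ℂ)) * P⁻¹)) * (P * Pᴴ)
        = P * (Pᴴ * Pᴴ⁻¹) * diagonal (fun i => (((d i)⁻¹ : ℝ) : ℂ)) * (P⁻¹ * P) * Pᴴ := by
          simp only [Matrix.mul_assoc]
      _ = _ := by
          rw [BarAux.mul_inv_unit hPc, BarAux.inv_mul_unit hP, Matrix.mul_one, Matrix.mul_one]
  rw [e1]
  have e2 : ∀ (c : ℝ) (f : Fin m → ℝ), c • (P * diagonal (fun i => (f i : ℂ)) * Pᴴ) =
      P * diagonal (fun i => ((c * f i : ℝ) : ℂ)) * Pᴴ := by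
    intro c f
    rw [BarAux.smul_conj]
    congr 2
    ext i j
    by_cases hij : i = j
    · subst hij; simp
    · simp [hij]
  have e3 : ∀ (f f' : Fin m → ℝ), P * diagonal (fun i => (f i : ℂ)) * Pᴴ -
      P * diagonal (fun i => (f' i : ℂ)) * Pᴴ =
      P * diagonal (fun i => ((f i - f' i : ℝ) : ℂ)) * Pᴴ := by
    intro f f'
    rw [← Matrix.sub_mul, ← Matrix.mul_sub, diagonal_sub]
    congr 3
    funext i
    push_cast
    rfl
  rw [← sub_le_iff_le_add', e2, e2, e3, e3, e3, BarAux.diag_le_iff hP]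
  intro i
  have h3 := br_scal hv (hd i) (h1 i) (h2 i)
  linarith

end Pool.Agent.Lib.MP_5d4057_al.NU
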