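import Pool.Agent.Lib.MP_5d4057_al.NU.BaseN

/-! The base metric (blueprint h37_nu, A1). -/

namespace Pool.Agent.Lib.MP_5d4057_al.NU

open Matrix MeasureTheory Filter Topology Pool.Agent.Lib.MP_5d4057_al
  Pool.Agent.Lib.MP_5d4057_al.Hyb Pool.Agent.Lib.MP_5d4057_al.HM

open scoped ComplexOrder MatrixOrder Matrix.Norms.L2Operator ENNReal

variable {n m : ℕ}

variable {Γ : Subgroup (SUGroup n)} {χ : SUGroup n → ℝ}

/-- A base metric: Harnack inequality with exponent `2b` and almost harmonic to first order, at all levels `s ≥ s₀`. -/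
structure Bas (ρ : Γ →* Mat m) (b s₀ : ℕ) (C : ℝ) (H₀ : Vec n → Mat m) : Prop where
  met : Met ρ H₀
  harn : Harn (2 * b) H₀
  big : n + b + 1 < s₀
  pos : 0 < C
  hi : ∀ s : ℕ, s₀ ≤ s → ∀ v ∈ Cone n, P s H₀ v ≤ ((1 + C / s : ℝ) : ℂ) • H₀ v
  hi' : ∀ s : ℕ, s₀ ≤ s → ∀ v ∈ Cone n,
    P s (fun w => (H₀ w)⁻¹) v ≤ ((1 + C / s : ℝ) : ℂ) • (H₀ v)⁻¹
  lo : ∀ s : ℕ, s₀ ≤ s → ∀ v ∈ Cone n, ((1 - C / s : ℝ) : ℂ) • H₀ v ≤ P s H₀ v
  lo' : ∀ s : ℕ, s₀ ≤ s → ∀ v ∈ Cone n,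
    ((1 - C / s : ℝ) : ℂ) • (H₀ v)⁻¹ ≤ P s (fun w => (H₀ w)⁻¹) v

/-- Harnack gives polynomial growth: `H(ge) ≤ wt(g)^b H(e) ≤ (2 ch g)^b H(e)`. -/
theorem harn_adm {ρ : Γ →* Mat m} {b : ℕ} {H : Vec n → Mat m} (hH : Met ρ H) (hh : Harn b H) :
    ∃ C : ℝ, Adm b C H ∧ Adm b C fun v => (H v)⁻¹ := by
  have key : ∀ (K : Vec n → Mat m), ContinuousOn K (Cone n) → (∀ v ∈ Cone n, (K v).PosDef) →
      Harn b K → ∀ C : ℝ, 2 ^ b * ‖K (base n)‖ ≤ C → Adm b C K := by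
    intro K hc hp hk C hC
    refine ⟨(hc.comp_continuous continuous_orbit fun g => orbit_mem g).aestronglyMeasurable,
      fun g => ?_⟩
    have h1 := harn_real hk 1 g
    rw [one_mul, act_one] at h1
    have h2 := pn_norm_mono (Matrix.nonneg_iff_posSemidef.2 (hp _ (orbit_mem g)).posSemidef) h1
    rw [norm_smul, Real.norm_eq_abs, abs_of_nonneg (wt_pow_pos g _).le] at h2
    have h3 : wt g ^ b ≤ 2 ^ b * ch g ^ (2 * b) := by
      have h4 : wt g ^ b ≤ (2 * ch g) ^ b :=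
        pow_le_pow_left₀ (by linarith [one_le_wt g]) (wt_le g) _
      have h5 : ch g ^ b ≤ ch g ^ (2 * b) := pow_le_pow_right₀ (one_le_ch g) (by omega)
      rw [mul_pow] at h4
      exact h4.trans (mul_le_mul_of_nonneg_left h5 (by positivity))
    have h5 : 0 ≤ ch g ^ (2 * b) := pow_nonneg (ch_pos g).le _
    calc ‖K (act g (base n))‖ ≤ wt g ^ b * ‖K (base n)‖ := h2
      _ ≤ (2 ^ b * ch g ^ (2 * b)) * ‖K (base n)‖ :=
          mul_le_mul_of_nonneg_right h3 (norm_nonneg _)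
      _ = (2 ^ b * ‖K (base n)‖) * ch g ^ (2 * b) := by ring
      _ ≤ C * ch g ^ (2 * b) := mul_le_mul_of_nonneg_right hC h5
  have hI := met_inv hH
  refine ⟨2 ^ b * ‖H (base n)‖ + 2 ^ b * ‖(H (base n))⁻¹‖, ?_, ?_⟩
  · refine key H hH.cont hH.pos hh _ ?_
    have : 0 ≤ 2 ^ b * ‖(H (base n))⁻¹‖ := by positivity
    linarith
  · refine key _ hI.cont hI.pos (harn_inv_of hH.pos hh) _ ?_
    have : 0 ≤ 2 ^ b * ‖H (base n)‖ := by positivity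
    linarith

/-- The inequality for the inverse (apply `Harn` at `gx` with `x⁻¹`; `wt x⁻¹ = wt x`). -/
theorem harn_inv {ρ : Γ →* Mat m} {b : ℕ} {H : Vec n → Mat m} (hH : Met ρ H) (hh : Harn b H) :
    Harn b fun v => (H v)⁻¹ := harn_inv_of hH.pos hh

/-- `P` only depends on the values on the cone. -/
theorem P_congr' {E : Type} [NormedAddCommGroup E] [NormedSpace ℝ E] (s : ℕ) {f f' : Vec n → E}
    (h : ∀ v ∈ Cone n, f v = f' v) (v : Vec n) : P s f v = P s f' v := by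
  unfold P
  congr 1
  funext y
  rw [h _ (orbit_mem y)]

/-- `P` is homogeneous. -/
theorem P_smul' {E : Type} [NormedAddCommGroup E] [NormedSpace ℝ E] (s : ℕ)
    (f : Vec n → E) {c : ℂ} (hc : c ≠ 0) (v : Vec n) : P s f (c • v) = P s f v := by
  unfold P
  congr 1
  funext y
  rw [ker_smul_left s hc]

theorem inv_inv_pos {A : Mat m} (hA : A.PosDef) : (A⁻¹)⁻¹ = A :=
  nonsing_inv_nonsing_inv A ((isUnit_iff_isUnit_det A).1 hA.isUnit)

/-- Duality. -/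
theorem Bas.dual {ρ : Γ →* Mat m} {b s₀ : ℕ} {C : ℝ} {H₀ : Vec n → Mat m}
    (h : Bas ρ b s₀ C H₀) : Bas (HM.dual ρ) b s₀ C fun v => (H₀ v)⁻¹ := by
  have e : ∀ v ∈ Cone n, ((H₀ v)⁻¹)⁻¹ = H₀ v := fun v hv => inv_inv_pos (h.met.pos v hv)
  refine ⟨met_inv h.met, harn_inv h.met h.harn, h.big, h.pos, h.hi', ?_, h.lo', ?_⟩
  · intro s hs v hv
    rw [e v hv, P_congr' s e]
    exact h.hi s hs v hv
  · intro s hs v hv
    rw [e v hv, P_congr' s e]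
    exact h.lo s hs v hv

/-- The number of elements of `Γ` close to `g` is bounded, hence `∑ ch(γ⁻¹ g)^(-2s)` converges, locally
uniformly in `g`, for `s ≥ n + 1`. (`ch(γ⁻¹ g)^(-2s) ≤ 4^s ch(γ⁻¹ g x)^(-2s)` for `ch x ≤ 2`, integrate over
a small ball and use that `Γ` is discrete; only `disc` is used.) -/
theorem Lat.summable_ch (h : Lat Γ χ) {s : ℕ} (hs : n < s) (g : SUGroup n) :
    Summable fun γ : Γ => (ch ((γ : SUGroup n)⁻¹ * g) ^ (2 * s))⁻¹ :=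
  summable_ch_inv h.disc hs g

/-- One kernel: `f(v) = ker s₁ v w` satisfies `(1 - C/s) f ≤ P_s f ≤ (1 + C/s) f` on the cone, uniformly
in `w`. Proof: with `w = h e`, `y = h⁻¹ g`: `f(gx)/f(g) = ch(x)^(-2s₁) |1 + a.z(x)|^(-2s₁)` with `|a| < 1`, where `z(x) = zc x`;
`∫ kap z = 0`, `∫ kap |z|² = n/s`, `wt(x)^(±2s₁)` on the tails (`Mom`); or the telescoping formula of `Tele` and
`|Lap ker_{s₁}| ≤ C ker_{s₁}`. -/
theorem ker_P (n s₁ : ℕ) : ∃ (s₀ : ℕ) (C : ℝ), 0 < C ∧ ∀ s, s₀ ≤ s → ∀ w ∈ Cone n, ∀ v ∈ Cone n,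
    (1 - C / s) * ker s₁ v w ≤ P s (fun v' => ker s₁ v' w) v ∧
      P s (fun v' => ker s₁ v' w) v ≤ (1 + C / s) * ker s₁ v w := by
  obtain ⟨s₀, C, hC, h⟩ := ker_avg n s₁
  refine ⟨s₀, C, hC, fun s hs w hw v hv => ?_⟩
  obtain ⟨g, c, hc, rfl⟩ := exists_act_eq hv
  obtain ⟨k, d, hd, rfl⟩ := exists_act_eq hw
  obtain ⟨-, h1, h2⟩ := h s hs (k⁻¹ * g)
  have e1 : P s (fun v' => ker s₁ v' (d • act k (base n))) (c • act g (base n)) =
      ∫ x : SUGroup n, kap s x * (ch (k⁻¹ * g * x) ^ (2 * s₁))⁻¹ ∂(mu n) := by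
    rw [P_smul' s _ hc, P_orbit]
    refine integral_congr_ae (Eventually.of_forall fun x => ?_)
    show kap s x • ker s₁ (act (g * x) (base n)) (d • act k (base n)) =
      kap s x * (ch (k⁻¹ * g * x) ^ (2 * s₁))⁻¹
    rw [ker_smul_right s₁ hd, ker_comm, ker_orbit, smul_eq_mul, mul_assoc]
  have e2 : ker s₁ (c • act g (base n)) (d • act k (base n)) =
      (ch (k⁻¹ * g) ^ (2 * s₁))⁻¹ := by
    rw [ker_smul_left s₁ hc, ker_smul_right s₁ hd, ker_comm, ker_orbit]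
  rw [e1, e2]
  exact ⟨h1, h2⟩

/-- A1 (`exists_base`). -/
theorem exists_bas (hΓ : Lat Γ χ) (ρ : Γ →* Mat m) {N : ℕ} {C₀ : ℝ}
    (hρ : Grow ρ N C₀) : ∃ (b s₀ : ℕ) (C : ℝ) (H₀ : Vec n → Mat m), Bas ρ b s₀ C H₀ := by
  obtain ⟨s₀, C, hC, h⟩ := exists_base hΓ.disc hρ (s₁ := n + N + 1) (Nat.lt_succ_self _)
  have key : ∀ (p : Vec n → Prop), (∀ g : SUGroup n, p (act g (base n))) →
      (∀ c : ℂ, c ≠ 0 → ∀ v ∈ Cone n, p v → p (c • v)) → ∀ v ∈ Cone n, p v := by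
    intro p h1 h2 v hv
    obtain ⟨g, c, hc, rfl⟩ := exists_act_eq hv
    exact h2 c hc _ (orbit_mem g) (h1 g)
  refine ⟨n + N + 1, max s₀ (n + (n + N + 1) + 2), C, H0 ρ (n + N + 1), h.met, h.harn, by omega,
    hC, ?_, ?_, ?_, ?_⟩
  all_goals
    intro s hs
    have hs' : s₀ ≤ s := (le_max_left _ _).trans hs
    refine key _ (fun g => ?_) fun c hc v hv hp => ?_
  · rw [cr_smul]; exact (h.avg s hs' g).2.1
  · rw [h.met.hom c hc v hv, P_homog s _ c hc v hv]; exact hp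
  · rw [cr_smul]; exact (h.avg s hs' g).2.2.2
  · rw [h.met.hom c hc v hv, P_homog s _ c hc v hv]; exact hp
  · rw [cr_smul]; exact (h.avg s hs' g).1
  · rw [h.met.hom c hc v hv, P_homog s _ c hc v hv]; exact hp
  · rw [cr_smul]; exact (h.avg s hs' g).2.2.1
  · rw [h.met.hom c hc v hv, P_homog s _ c hc v hv]; exact hp

end Pool.Agent.Lib.MP_5d4057_al.NU
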