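import Pool.Agent.Lib.MP_5d4057_al.NU.PairN
import Pool.Agent.Lib.MP_5d4057_al.HM.Lim2A
import Pool.Agent.Lib.MP_5d4057_al.HM.BarB

/-! General facts on metrics which satisfy a Harnack inequality: continuity, growth, averages of the
inverse. -/

set_option autoImplicit false

namespace Pool.Agent.Lib.MP_5d4057_al.NU

open Matrix MeasureTheory Filter Topology Pool.Agent.Lib.MP_5d4057_al
  Pool.Agent.Lib.MP_5d4057_al.Hyb Pool.Agent.Lib.MP_5d4057_al.HM

open scoped ComplexOrder MatrixOrder Matrix.Norms.L2Operator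

variable {n m : ℕ} {Γ : Subgroup (SUGroup n)}

theorem cr_smul (c : ℝ) (A : Mat m) : (c : ℂ) • A = c • A := by
  ext i j
  simp [Matrix.smul_apply]

theorem wt_pow_cast (x : SUGroup n) (a : ℕ) (A : Mat m) :
    ((wt x : ℂ) ^ a) • A = (wt x ^ a : ℝ) • A := by
  rw [← cr_smul]
  push_cast
  rfl

theorem rs_mono {A B : Mat m} {c : ℝ} (hc : 0 ≤ c) (h : A ≤ B) : c • A ≤ c • B := by
  rw [← sub_nonneg, ← smul_sub]
  exact smul_nonneg_mat hc (sub_nonneg.2 h)

theorem rs_mono_left {A : Mat m} (hA : 0 ≤ A) {c d : ℝ} (h : c ≤ d) : c • A ≤ d • A := by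
  rw [← sub_nonneg, ← sub_smul]
  exact smul_nonneg_mat (sub_nonneg.2 h) hA

theorem rs_inv {A : Mat m} (hA : A.PosDef) {c : ℝ} (hc : 0 < c) : (c • A)⁻¹ = c⁻¹ • A⁻¹ := by
  refine Matrix.inv_eq_right_inv ?_
  rw [Matrix.smul_mul, Matrix.mul_smul, smul_smul,
    mul_nonsing_inv _ ((isUnit_iff_isUnit_det A).1 hA.isUnit), mul_inv_cancel₀ hc.ne', one_smul]

/-- real form of the Harnack inequality -/
theorem harn_real {a : ℕ} {H : Vec n → Mat m} (hh : Harn a H) (g x : SUGroup n) :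
    H (act (g * x) (base n)) ≤ (wt x ^ a : ℝ) • H (act g (base n)) := by
  have h := hh g x
  rwa [wt_pow_cast] at h

/-- the reverse inequality -/
theorem harn_real' {a : ℕ} {H : Vec n → Mat m} (hh : Harn a H) (g x : SUGroup n) :
    H (act g (base n)) ≤ (wt x ^ a : ℝ) • H (act (g * x) (base n)) := by
  have h := harn_real hh (g * x) x⁻¹
  rwa [mul_inv_cancel_right, wt_inv] at h

theorem wt_pow_pos (x : SUGroup n) (a : ℕ) : 0 < wt x ^ a :=
  pow_pos (lt_of_lt_of_le one_pos (one_le_wt x)) a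

/-- Harnack for the inverse -/
theorem harn_inv_of {a : ℕ} {H : Vec n → Mat m} (hp : ∀ v ∈ Cone n, (H v).PosDef) (hh : Harn a H) :
    Harn a (fun v => (H v)⁻¹) := by
  intro g x
  beta_reduce
  rw [wt_pow_cast]
  have h1 := harn_real' hh g x
  have h2 := inv_le_inv_of_le (hp _ (orbit_mem g)) h1
  rw [rs_inv (hp _ (orbit_mem _)) (wt_pow_pos x a)] at h2
  have h3 := rs_mono (wt_pow_pos x a).le h2
  rwa [smul_smul, mul_inv_cancel₀ (wt_pow_pos x a).ne', one_smul] at h3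

/-- growth from the base point -/
theorem adm_of_harn {ρ : Γ →* Mat m} {a : ℕ} {H : Vec n → Mat m} (hH : Met ρ H)
    (hh : Harn (2 * a) H) : ∃ C : ℝ, 0 < C ∧ Adm a C H ∧ Adm a C (fun v => (H v)⁻¹) := by
  have key : ∀ (K : Vec n → Mat m), ContinuousOn K (Cone n) → (∀ v ∈ Cone n, (K v).PosDef) →
      Harn (2 * a) K → ∀ C : ℝ, 4 ^ a * ‖K (base n)‖ ≤ C → Adm a C K := by
    intro K hc hp hk C hC
    refine ⟨(hc.comp_continuous continuous_orbit fun g => orbit_mem g).aestronglyMeasurable,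
      fun g => ?_⟩
    have h1 := harn_real hk 1 g
    rw [one_mul, act_one] at h1
    have h2 := pn_norm_mono (Matrix.nonneg_iff_posSemidef.2 (hp _ (orbit_mem g)).posSemidef) h1
    rw [norm_smul, Real.norm_eq_abs, abs_of_nonneg (wt_pow_pos g _).le] at h2
    have h3 : wt g ^ (2 * a) ≤ 4 ^ a * ch g ^ (2 * a) := by
      have h4 : wt g ^ (2 * a) ≤ (2 * ch g) ^ (2 * a) :=
        pow_le_pow_left₀ (by linarith [one_le_wt g]) (wt_le g) _
      refine h4.trans (le_of_eq ?_)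
      rw [mul_pow, pow_mul (2 : ℝ) 2 a]
      norm_num
    have h5 : 0 ≤ ch g ^ (2 * a) := pow_nonneg (ch_pos g).le _
    calc ‖K (act g (base n))‖ ≤ wt g ^ (2 * a) * ‖K (base n)‖ := h2
      _ ≤ (4 ^ a * ch g ^ (2 * a)) * ‖K (base n)‖ :=
          mul_le_mul_of_nonneg_right h3 (norm_nonneg _)
      _ = (4 ^ a * ‖K (base n)‖) * ch g ^ (2 * a) := by ring
      _ ≤ C * ch g ^ (2 * a) := mul_le_mul_of_nonneg_right hC h5
  have hI := met_inv hH
  refine ⟨4 ^ a * ‖H (base n)‖ + 4 ^ a * ‖(H (base n))⁻¹‖ + 1, by positivity, ?_, ?_⟩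
  · refine key H hH.cont hH.pos hh _ ?_
    have : 0 ≤ 4 ^ a * ‖(H (base n))⁻¹‖ := by positivity
    linarith
  · refine key _ hI.cont hI.pos (harn_inv_of hH.pos hh) _ ?_
    have : 0 ≤ 4 ^ a * ‖H (base n)‖ := by positivity
    beta_reduce
    linarith

/-! ### Continuity -/

private theorem hn_continuousOn_sec : ContinuousOn (sec n) (Cone n) := by
  rw [(isClosedEmbedding_toMatrix n).isInducing.continuousOn_iff]
  exact (contDiffOn_sec n).continuousOn

/-- a homogeneous function is determined by its values along the section -/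
theorem eq_sec {F : Type} {H : Vec n → F} (hom : Homog H) {v : Vec n} (hv : v ∈ Cone n) :
    H v = H (act (sec n v) (base n)) := by
  obtain ⟨c, hc, e⟩ := sec_spec hv
  rw [← hom c hc _ (orbit_mem _), ← e]

/-- continuity on the group implies continuity on the cone -/
theorem cont_of_group {F : Type} [TopologicalSpace F] {H : Vec n → F} (hom : Homog H)
    (hc : Continuous fun g : SUGroup n => H (act g (base n))) : ContinuousOn H (Cone n) := by
  have h1 : ContinuousOn (fun v => H (act (sec n v) (base n))) (Cone n) :=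
    hc.comp_continuousOn hn_continuousOn_sec
  exact h1.congr fun v hv => eq_sec hom hv

/-- Harnack implies continuity. -/
theorem cont_of_harn {a : ℕ} {H : Vec n → Mat m} (hom : Homog H)
    (hp : ∀ g : SUGroup n, (H (act g (base n))).PosSemidef) (hh : Harn a H) :
    ContinuousOn H (Cone n) := by
  refine cont_of_group hom ?_
  rw [continuous_iff_continuousAt]
  intro g
  obtain ⟨w, hw⟩ : ∃ w : SUGroup n → ℝ, w = fun y => wt (g⁻¹ * y) ^ a := ⟨_, rfl⟩
  have hwc : Continuous w := by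
    rw [hw]
    exact (continuous_wt.comp (continuous_const_mul _)).pow a
  have hw1 : w g = 1 := by
    rw [hw]
    beta_reduce
    rw [inv_mul_cancel, wt_one, one_pow]
  have hwge : ∀ y, 1 ≤ w y := fun y => by
    rw [hw]
    exact one_le_pow₀ (one_le_wt _)
  have hle : ∀ y, ‖H (act y (base n)) - H (act g (base n))‖ ≤
      3 * ((w y - 1) * (‖H (act g (base n))‖ + w y * ‖H (act g (base n))‖)) := by
    intro y
    have h1 := harn_real hh g (g⁻¹ * y)
    have h2 := harn_real' hh g (g⁻¹ * y)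
    rw [mul_inv_cancel_left] at h1 h2
    have e : (wt (g⁻¹ * y) ^ a : ℝ) = w y := by rw [hw]
    rw [e] at h1 h2
    have h3 := DD.norm_sub_le_of_le (hp g) (hp y) (hwge y) (by rwa [cr_smul]) (by rwa [cr_smul])
    have h4 := pn_norm_mono (Matrix.nonneg_iff_posSemidef.2 (hp y)) h1
    rw [norm_smul, Real.norm_eq_abs, abs_of_nonneg (by linarith [hwge y])] at h4
    have h5 : 0 ≤ w y - 1 := by linarith [hwge y]
    refine h3.trans ?_
    have h6 := mul_le_mul_of_nonneg_left (add_le_add_right h4 ‖H (act g (base n))‖) h5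
    linarith
  have hlim : Tendsto (fun y => 3 * ((w y - 1) * (‖H (act g (base n))‖ +
      w y * ‖H (act g (base n))‖))) (𝓝 g) (𝓝 0) := by
    have h1 : Tendsto w (𝓝 g) (𝓝 1) := by
      have h2 := hwc.tendsto g
      rwa [hw1] at h2
    have h2 := ((h1.sub_const 1).mul
      ((h1.mul_const ‖H (act g (base n))‖).const_add ‖H (act g (base n))‖)).const_mul 3
    simpa using h2
  show Tendsto (fun y : SUGroup n => H (act y (base n))) (𝓝 g) (𝓝 (H (act g (base n))))
  rw [tendsto_iff_norm_sub_tendsto_zero]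
  exact squeeze_zero (fun y => norm_nonneg _) hle hlim

/-! ### The quadratic expression -/

/-- `X + A X⁻¹ A ≤ (w + 1/w) A` if `A` and `X` are comparable up to the factor `w`. -/
theorem quad_le {A X : Mat m} (hA : A.PosDef) (hX : X.PosDef) {w : ℝ} (hw : 1 ≤ w)
    (h1 : X ≤ w • A) (h2 : A ≤ w • X) : X + A * X⁻¹ * A ≤ (w + w⁻¹) • A := by
  obtain ⟨P, d, hP, hd, rfl, rfl⟩ := BarAux.simdiag hA hX
  rw [BarAux.diag_le_iff hP] at h1
  rw [BarAux.le_diag_iff hP] at h2
  have hw0 : 0 < w := by linarith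
  have hPc : IsUnit Pᴴ := BarAux.unit_conj hP
  have eD : (diagonal (fun i => (d i : ℂ)))⁻¹ = diagonal (fun i => (((d i)⁻¹ : ℝ) : ℂ)) := by
    refine Matrix.inv_eq_right_inv ?_
    rw [diagonal_mul_diagonal, ← diagonal_one]
    congr 1
    funext i
    rw [← Complex.ofReal_mul, mul_inv_cancel₀ (hd i).ne', Complex.ofReal_one]
  have hDu : IsUnit (diagonal (fun i => (d i : ℂ))) := by
    rw [isUnit_iff_isUnit_det, det_diagonal]
    refine isUnit_iff_ne_zero.2 (Finset.prod_ne_zero_iff.2 fun i _ => ?_)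
    exact_mod_cast (hd i).ne'
  have e1 : P * Pᴴ * (P * diagonal (fun i => (d i : ℂ)) * Pᴴ)⁻¹ * (P * Pᴴ) =
      P * diagonal (fun i => (((d i)⁻¹ : ℝ) : ℂ)) * Pᴴ := by
    rw [Matrix.mul_inv_rev, Matrix.mul_inv_rev, eD]
    calc P * Pᴴ * (Pᴴ⁻¹ * (diagonal (fun i => (((d i)⁻¹ : ℝ) : ℂ)) * P⁻¹)) * (P * Pᴴ)
        = P * (Pᴴ * Pᴴ⁻¹) * diagonal (fun i => (((d i)⁻¹ : ℝ) : ℂ)) * (P⁻¹ * P) * Pᴴ := by
          simp only [Matrix.mul_assoc]
      _ = _ := by
          rw [BarAux.mul_inv_unit hPc, BarAux.inv_mul_unit hP, Matrix.mul_one, Matrix.mul_one]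
  rw [e1]
  have e2 : P * diagonal (fun i => (d i : ℂ)) * Pᴴ +
      P * diagonal (fun i => (((d i)⁻¹ : ℝ) : ℂ)) * Pᴴ =
      P * diagonal (fun i => ((d i + (d i)⁻¹ : ℝ) : ℂ)) * Pᴴ := by
    rw [← Matrix.add_mul, ← Matrix.mul_add, diagonal_add]
    congr 3
    funext i
    push_cast
    rfl
  rw [e2, BarAux.diag_le_iff hP]
  intro i
  have a1 := h1 i
  have a2 := h2 i
  have a3 := hd i
  have e3 : w + w⁻¹ - (d i + (d i)⁻¹) = (w - d i) * (w * d i - 1) / (w * d i) := by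
    field_simp
    ring
  have h3 : 0 ≤ w + w⁻¹ - (d i + (d i)⁻¹) := by
    rw [e3]
    refine div_nonneg (mul_nonneg (by linarith) (by linarith)) (by positivity)
  linarith

/-- `w ^ a - w ^ (-a)` against `ch` -/
theorem wt_pow_le' (a : ℕ) (x : SUGroup n) :
    wt x ^ (2 * a) + (wt x ^ (2 * a))⁻¹ - 2 ≤
      4 * (a : ℝ) ^ 2 * 4 ^ a * (ch x ^ (2 * a) * (ch x ^ 2 - 1) ^ 1) := by
  have hc : 1 ≤ ch x := one_le_ch x
  have hw : 1 ≤ wt x := one_le_wt x
  have hw0 : 0 < wt x := by linarith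
  have hd : 0 ≤ ch x ^ 2 - 1 := by nlinarith
  have hsq : Real.sqrt (ch x ^ 2 - 1) ^ 2 = ch x ^ 2 - 1 := Real.sq_sqrt hd
  have hr : (wt x)⁻¹ = ch x - Real.sqrt (ch x ^ 2 - 1) := by
    refine inv_eq_of_mul_eq_one_right ?_
    unfold wt
    nlinarith
  have hr1 : (wt x)⁻¹ ≤ 1 := inv_le_one_of_one_le₀ hw
  have hr0 : 0 ≤ (wt x)⁻¹ := by positivity
  have e1 : wt x - (wt x)⁻¹ = 2 * Real.sqrt (ch x ^ 2 - 1) := by
    rw [hr]
    unfold wt
    ring
  have h1 : ∑ i ∈ Finset.range a, wt x ^ i * (wt x)⁻¹ ^ (a - 1 - i) ≤ a * wt x ^ a := by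
    calc ∑ i ∈ Finset.range a, wt x ^ i * (wt x)⁻¹ ^ (a - 1 - i) ≤
          ∑ i ∈ Finset.range a, wt x ^ a := by
          refine Finset.sum_le_sum fun i hi => ?_
          have h2 : (wt x)⁻¹ ^ (a - 1 - i) ≤ 1 := pow_le_one₀ hr0 hr1
          have h3 : wt x ^ i ≤ wt x ^ a := pow_le_pow_right₀ hw (Finset.mem_range.1 hi).le
          calc wt x ^ i * (wt x)⁻¹ ^ (a - 1 - i) ≤ wt x ^ i * 1 :=
                mul_le_mul_of_nonneg_left h2 (by positivity)
            _ ≤ wt x ^ a := by rw [mul_one]; exact h3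
      _ = a * wt x ^ a := by rw [Finset.sum_const, Finset.card_range, nsmul_eq_mul]
  have h0 : 0 ≤ ∑ i ∈ Finset.range a, wt x ^ i * (wt x)⁻¹ ^ (a - 1 - i) :=
    Finset.sum_nonneg fun i _ => by positivity
  have e2 : wt x ^ a - (wt x)⁻¹ ^ a =
      (∑ i ∈ Finset.range a, wt x ^ i * (wt x)⁻¹ ^ (a - 1 - i)) * (wt x - (wt x)⁻¹) :=
    (geom_sum₂_mul _ _ _).symm
  have h4 : wt x ^ a ≤ (2 * ch x) ^ a := pow_le_pow_left₀ hw0.le (wt_le x) a
  have h5 : (∑ i ∈ Finset.range a, wt x ^ i * (wt x)⁻¹ ^ (a - 1 - i)) ^ 2 ≤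
      (a * (2 * ch x) ^ a) ^ 2 :=
    pow_le_pow_left₀ h0 (h1.trans (mul_le_mul_of_nonneg_left h4 (Nat.cast_nonneg _))) 2
  have e0 : wt x ^ (2 * a) + (wt x ^ (2 * a))⁻¹ - 2 = (wt x ^ a - (wt x)⁻¹ ^ a) ^ 2 := by
    have h6 : wt x ^ a * (wt x)⁻¹ ^ a = 1 := by
      rw [← mul_pow, mul_inv_cancel₀ hw0.ne', one_pow]
    have h7 : (wt x ^ (2 * a))⁻¹ = ((wt x)⁻¹ ^ a) ^ 2 := by
      rw [← pow_mul, mul_comm a 2, inv_pow]
    have h8 : wt x ^ (2 * a) = (wt x ^ a) ^ 2 := by rw [← pow_mul, mul_comm a 2]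
    rw [h7, h8, sub_sq, mul_assoc, h6]
    ring
  rw [e0, e2, mul_pow, e1, mul_pow 2, hsq, pow_one]
  calc (∑ i ∈ Finset.range a, wt x ^ i * (wt x)⁻¹ ^ (a - 1 - i)) ^ 2 * (2 ^ 2 * (ch x ^ 2 - 1))
      ≤ (a * (2 * ch x) ^ a) ^ 2 * (2 ^ 2 * (ch x ^ 2 - 1)) :=
        mul_le_mul_of_nonneg_right h5 (by positivity)
    _ = 4 * (a : ℝ) ^ 2 * 4 ^ a * (ch x ^ (2 * a) * (ch x ^ 2 - 1)) := by
        have e4 : (4 : ℝ) ^ a = (2 ^ a) ^ 2 := by
          rw [← pow_mul, mul_comm a 2, pow_mul]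
          norm_num
        have e5 : ch x ^ (2 * a) = (ch x ^ a) ^ 2 := by rw [← pow_mul, mul_comm a 2]
        rw [mul_pow (2 : ℝ) (ch x) a, e4, e5]
        ring

/-- The average of `w + 1 / w`. -/
theorem wt_avg (n a : ℕ) : ∃ C : ℝ, 0 < C ∧ ∀ s : ℕ, n + a + 1 < s →
    Integrable (fun x : SUGroup n => kap s x * (wt x ^ (2 * a) + (wt x ^ (2 * a))⁻¹)) (mu n) ∧
    ∫ x : SUGroup n, kap s x * (wt x ^ (2 * a) + (wt x ^ (2 * a))⁻¹) ∂(mu n) ≤ 2 + C / s := by
  obtain ⟨C, hC, hmom⟩ := mom_le n a 1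
  refine ⟨4 * (a : ℝ) ^ 2 * 4 ^ a * C + 1, by positivity, fun s hs => ?_⟩
  have hs0 : (0 : ℝ) < s := by
    have : 0 < s := by omega
    exact_mod_cast this
  have i1 := integrable_mom (n := n) (s := s) (N := a) (k := 1) (by omega)
  have i2 := integrable_kap (n := n) (s := s) (by omega)
  have hb : ∀ x : SUGroup n, kap s x * (wt x ^ (2 * a) + (wt x ^ (2 * a))⁻¹) ≤
      2 * kap s x + 4 * (a : ℝ) ^ 2 * 4 ^ a * (kap s x * (ch x ^ (2 * a) * (ch x ^ 2 - 1) ^ 1)) := by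
    intro x
    have h1 := mul_le_mul_of_nonneg_left (wt_pow_le' a x) (kap_nonneg s x)
    nlinarith
  have hnn : ∀ x : SUGroup n, 0 ≤ kap s x * (wt x ^ (2 * a) + (wt x ^ (2 * a))⁻¹) := fun x =>
    mul_nonneg (kap_nonneg s x) (add_nonneg (wt_pow_pos x _).le (inv_nonneg.2 (wt_pow_pos x _).le))
  have hcont : Continuous fun x : SUGroup n => kap s x * (wt x ^ (2 * a) + (wt x ^ (2 * a))⁻¹) :=
    (continuous_kap s).mul ((continuous_wt.pow _).add
      ((continuous_wt.pow _).inv₀ fun x => (wt_pow_pos x _).ne'))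
  have i3 : Integrable (fun x : SUGroup n => 2 * kap s x +
      4 * (a : ℝ) ^ 2 * 4 ^ a * (kap s x * (ch x ^ (2 * a) * (ch x ^ 2 - 1) ^ 1))) (mu n) :=
    (i2.const_mul 2).add (i1.const_mul _)
  have i4 : Integrable (fun x : SUGroup n => kap s x * (wt x ^ (2 * a) + (wt x ^ (2 * a))⁻¹))
      (mu n) :=
    i3.mono' hcont.aestronglyMeasurable (Eventually.of_forall fun x => by
      rw [Real.norm_eq_abs, abs_of_nonneg (hnn x)]
      exact hb x)
  refine ⟨i4, ?_⟩
  have h1 := integral_mono i4 i3 hb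
  rw [integral_add (i2.const_mul 2) (i1.const_mul _), integral_const_mul, integral_const_mul,
    integral_kap (by omega)] at h1
  have h2 := mul_le_mul_of_nonneg_left (hmom s (by omega))
    (by positivity : 0 ≤ 4 * (a : ℝ) ^ 2 * 4 ^ a)
  rw [pow_one] at h2
  have h3 : 4 * (a : ℝ) ^ 2 * 4 ^ a * (C / s) ≤ (4 * (a : ℝ) ^ 2 * 4 ^ a * C + 1) / s := by
    rw [mul_div_assoc']
    exact div_le_div_of_nonneg_right (by linarith) hs0.le
  linarith

/-- The averaged quadratic expression of a Harnack metric. -/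
theorem quad_avg (n m a : ℕ) : ∃ C : ℝ, 0 < C ∧ ∀ s : ℕ, n + a + 1 < s →
    ∀ (Γ : Subgroup (SUGroup n)) (ρ : Γ →* Mat m) (H : Vec n → Mat m), Met ρ H →
      Harn (2 * a) H → ∀ g : SUGroup n,
      P s H (act g (base n)) +
        H (act g (base n)) * P s (fun w => (H w)⁻¹) (act g (base n)) * H (act g (base n)) ≤
        (2 + C / s) • H (act g (base n)) := by
  obtain ⟨C, hC, h⟩ := wt_avg n a
  refine ⟨C, hC, fun s hs Γ ρ H hH hh g => ?_⟩
  obtain ⟨i0, h0⟩ := h s hs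
  obtain ⟨C', -, a1, a2⟩ := adm_of_harn hH hh
  have pA := hH.pos _ (orbit_mem g)
  have i1 := int_adm (by omega : n + a < s) a1 g
  have i2 := int_adm (by omega : n + a < s) a2 g
  obtain ⟨i3, e3⟩ := int_sand i2 (H (act g (base n)))
  rw [P_orbit, P_orbit]
  rw [← e3, ← integral_add i1 i3]
  have i5 : Integrable (fun x : SUGroup n => (kap s x * (wt x ^ (2 * a) + (wt x ^ (2 * a))⁻¹)) •
      H (act g (base n))) (mu n) := i0.smul_const _
  have h1 := integral_mono_mat (i1.add i3) i5 (Eventually.of_forall fun x => by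
    have pX := hH.pos _ (orbit_mem (g * x))
    have q := quad_le pA pX (one_le_pow₀ (one_le_wt x)) (harn_real hh g x) (harn_real' hh g x)
    have q' := rs_mono (kap_nonneg s x) q
    rw [smul_smul, smul_add] at q'
    show kap s x • H (act (g * x) (base n)) + H (act g (base n)) *
      (kap s x • (H (act (g * x) (base n)))⁻¹) * H (act g (base n)) ≤ _
    rw [mul_smul_comm, smul_mul_assoc]
    exact q')
  refine h1.trans ?_
  rw [integral_smul_const]
  exact rs_mono_left (Matrix.nonneg_iff_posSemidef.2 pA.posSemidef) h0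

/-- Averages of the inverse: upper bound. -/
theorem inv_avg_le (n m a : ℕ) : ∃ C : ℝ, 0 < C ∧ ∀ s : ℕ, n + a + 1 < s →
    ∀ (Γ : Subgroup (SUGroup n)) (ρ : Γ →* Mat m) (H : Vec n → Mat m), Met ρ H →
      Harn (2 * a) H → ∀ (g : SUGroup n) (c : ℝ),
      (1 - c) • H (act g (base n)) ≤ P s H (act g (base n)) →
      P s (fun w => (H w)⁻¹) (act g (base n)) ≤ (1 + c + C / s) • (H (act g (base n)))⁻¹ := by
  obtain ⟨C, hC, h⟩ := quad_avg n m a
  refine ⟨C, hC, fun s hs Γ ρ H hH hh g c hc => ?_⟩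
  have pA := hH.pos _ (orbit_mem g)
  have h1 := h s hs Γ ρ H hH hh g
  have h2 : H (act g (base n)) * P s (fun w => (H w)⁻¹) (act g (base n)) * H (act g (base n)) ≤
      (1 + c + C / s) • H (act g (base n)) := by
    have h3 := add_le_add hc (le_refl (H (act g (base n)) *
      P s (fun w => (H w)⁻¹) (act g (base n)) * H (act g (base n))))
    have h4 := h3.trans h1
    have e : (2 + C / s) • H (act g (base n)) =
        (1 - c) • H (act g (base n)) + (1 + c + C / s) • H (act g (base n)) := by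
      rw [← add_smul]
      congr 1
      ring
    rw [e] at h4
    exact le_of_add_le_add_left h4
  have h3 := conj_le_conj h2 (H (act g (base n)))⁻¹
  have hu := (isUnit_iff_isUnit_det _).1 pA.isUnit
  have e1 : ((H (act g (base n)))⁻¹)ᴴ = (H (act g (base n)))⁻¹ := pA.inv.1.eq
  rw [e1] at h3
  have e2 : (H (act g (base n)))⁻¹ * (H (act g (base n)) *
      P s (fun w => (H w)⁻¹) (act g (base n)) * H (act g (base n))) * (H (act g (base n)))⁻¹ =
      P s (fun w => (H w)⁻¹) (act g (base n)) := by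
    calc _ = ((H (act g (base n)))⁻¹ * H (act g (base n))) *
          P s (fun w => (H w)⁻¹) (act g (base n)) *
          (H (act g (base n)) * (H (act g (base n)))⁻¹) := by simp only [Matrix.mul_assoc]
      _ = _ := by rw [nonsing_inv_mul _ hu, mul_nonsing_inv _ hu, Matrix.one_mul, Matrix.mul_one]
  have e3 : (H (act g (base n)))⁻¹ * ((1 + c + C / s) • H (act g (base n))) *
      (H (act g (base n)))⁻¹ = (1 + c + C / s) • (H (act g (base n)))⁻¹ := by
    rw [mul_smul_comm, smul_mul_assoc, nonsing_inv_mul _ hu, Matrix.one_mul]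
  rw [e2, e3] at h3
  exact h3

/-- Averages of the inverse: lower bound (Jensen). -/
theorem inv_avg_ge {ρ : Γ →* Mat m} {s a : ℕ} (hs : n + a < s) {H : Vec n → Mat m}
    (hH : Met ρ H) (hh : Harn (2 * a) H) (g : SUGroup n) {c : ℝ} (hc0 : 0 ≤ c)
    (hc : P s H (act g (base n)) ≤ (1 + c) • H (act g (base n))) :
    (1 - c) • (H (act g (base n)))⁻¹ ≤ P s (fun w => (H w)⁻¹) (act g (base n)) := by
  obtain ⟨C', -, a1, a2⟩ := adm_of_harn hH hh
  have pA := hH.pos _ (orbit_mem g)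
  have i1 := int_adm hs a1 g
  have i2 := int_adm hs a2 g
  have h1 := inv_integral_le (fun x => kap_nonneg s x) (integral_kap (by omega))
    (fun x => hH.pos _ (orbit_mem (g * x))) i1 i2
  rw [← P_orbit s H g, ← P_orbit s (fun w => (H w)⁻¹) g] at h1
  have hs0 : (0 : ℝ) ≤ 1 + c := by linarith
  have pP : (P s H (act g (base n))).PosDef := by
    have h2 := integral_posDef (A := fun x : SUGroup n => kap s x • H (act (g * x) (base n))) i1
      (fun x => (hH.pos _ (orbit_mem (g * x))).smul (kap_pos (by omega) x)) (NeZero.ne (mu n))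
    rwa [← P_orbit] at h2
  have h2 := inv_le_inv_of_le pP hc
  rw [rs_inv pA (by linarith)] at h2
  refine le_trans ?_ (h2.trans h1)
  refine rs_mono_left (Matrix.nonneg_iff_posSemidef.2 pA.inv.posSemidef) ?_
  rw [inv_eq_one_div, le_div_iff₀ (by linarith)]
  nlinarith

end Pool.Agent.Lib.MP_5d4057_al.NU
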