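import Pool.Agent.Lib.MP_5d4057_al.HM.Mom

/-! The average of the kernel `ch ^ (-2 b)` at level `s` (A1 of the blueprint of NU): it differs
from the kernel by a factor `1 + O(1 / s)`. -/

set_option autoImplicit false

namespace Pool.Agent.Lib.MP_5d4057_al.NU

open Matrix MeasureTheory Filter Topology Pool.Agent.Lib.MP_5d4057_al
  Pool.Agent.Lib.MP_5d4057_al.Hyb Pool.Agent.Lib.MP_5d4057_al.HM

variable {n : ℕ}

/-- the cross term of the product `y x`, relative to the product of the corner entries -/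
noncomputable def zet (y x : SUGroup n) : ℂ :=
  ∑ j : Fin n, (y.toMatrix (Fin.last n) j.castSucc / y.toMatrix (Fin.last n) (Fin.last n)) * zc x j

theorem corner_ne (y : SUGroup n) : y.toMatrix (Fin.last n) (Fin.last n) ≠ 0 :=
  norm_ne_zero_iff.1 (ch_pos y).ne'

theorem ch_mul_zet (y x : SUGroup n) : ch (y * x) = ch y * ch x * ‖1 + zet y x‖ := by
  have hy := corner_ne y
  have hx := corner_ne x
  have e : (y * x).toMatrix (Fin.last n) (Fin.last n) =
      y.toMatrix (Fin.last n) (Fin.last n) * x.toMatrix (Fin.last n) (Fin.last n) *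
        (1 + zet y x) := by
    rw [toMatrix_mul, Matrix.mul_apply, Fin.sum_univ_castSucc, mul_add, mul_one, add_comm]
    congr 1
    unfold zet zc
    rw [Finset.mul_sum]
    refine Finset.sum_congr rfl fun j _ => ?_
    field_simp
  rw [ch, e, norm_mul, norm_mul]
  rfl

theorem norm_zet_sq (y x : SUGroup n) : ch x ^ 2 * ‖zet y x‖ ^ 2 ≤ ch x ^ 2 - 1 := by
  have hx := ch_pos x
  have hy := ch_pos y
  have h1 : ‖zet y x‖ ≤ Real.sqrt (∑ j : Fin n, ‖y.toMatrix (Fin.last n) j.castSucc /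
      y.toMatrix (Fin.last n) (Fin.last n)‖ ^ 2) * Real.sqrt (∑ j : Fin n, ‖zc x j‖ ^ 2) := by
    unfold zet
    calc _ ≤ ∑ j : Fin n, ‖(y.toMatrix (Fin.last n) j.castSucc /
          y.toMatrix (Fin.last n) (Fin.last n)) * zc x j‖ := norm_sum_le _ _
      _ = ∑ j : Fin n, ‖y.toMatrix (Fin.last n) j.castSucc /
          y.toMatrix (Fin.last n) (Fin.last n)‖ * ‖zc x j‖ := by simp only [norm_mul]
      _ ≤ _ := Real.sum_mul_le_sqrt_mul_sqrt _ _ _
  have h2 : ∑ j : Fin n, ‖y.toMatrix (Fin.last n) j.castSucc /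
      y.toMatrix (Fin.last n) (Fin.last n)‖ ^ 2 = 1 - (ch y ^ 2)⁻¹ := by
    have h3 : ∀ j : Fin n, ‖y.toMatrix (Fin.last n) j.castSucc /
        y.toMatrix (Fin.last n) (Fin.last n)‖ ^ 2 =
        ‖y.toMatrix (Fin.last n) j.castSucc‖ ^ 2 * (ch y ^ 2)⁻¹ := by
      intro j
      rw [norm_div, div_pow, div_eq_mul_inv]
      rfl
    rw [Finset.sum_congr rfl fun j _ => h3 j, ← Finset.sum_mul, sum_row, sub_mul, one_mul,
      mul_inv_cancel₀ (pow_ne_zero 2 hy.ne')]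
  have h3 : Real.sqrt (1 - (ch y ^ 2)⁻¹) ≤ 1 := by
    have : 0 < (ch y ^ 2)⁻¹ := inv_pos.2 (pow_pos hy 2)
    rw [Real.sqrt_le_left zero_le_one]
    linarith
  have h4 : 0 ≤ 1 - (ch x ^ 2)⁻¹ := by
    rw [← sum_norm_zc]
    exact Finset.sum_nonneg fun j _ => sq_nonneg _
  rw [h2, sum_norm_zc] at h1
  have h5 : ‖zet y x‖ ≤ Real.sqrt (1 - (ch x ^ 2)⁻¹) := by
    refine h1.trans ?_
    have h6 := mul_le_mul_of_nonneg_right h3 (Real.sqrt_nonneg (1 - (ch x ^ 2)⁻¹))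
    rwa [one_mul] at h6
  have h6 : ‖zet y x‖ ^ 2 ≤ 1 - (ch x ^ 2)⁻¹ := by
    have h7 := pow_le_pow_left₀ (norm_nonneg _) h5 2
    rwa [Real.sq_sqrt h4] at h7
  have h7 := mul_le_mul_of_nonneg_left h6 (pow_nonneg hx.le 2)
  rw [mul_sub, mul_one, mul_inv_cancel₀ (pow_ne_zero 2 hx.ne')] at h7
  exact h7

/-- Bernoulli with remainder. -/
theorem bern (b : ℕ) {r : ℝ} (hr : 0 ≤ r) :
    0 ≤ r ^ b - 1 + b * (1 - r) ∧
      r ^ b - 1 + b * (1 - r) ≤ (b : ℝ) ^ 2 * (1 + r) ^ b * (1 - r) ^ 2 := by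
  induction b with
  | zero => simp
  | succ b ih =>
    obtain ⟨h1, h2⟩ := ih
    have e : r ^ (b + 1) - 1 + ((b + 1 : ℕ) : ℝ) * (1 - r) =
        r * (r ^ b - 1 + b * (1 - r)) + b * (1 - r) ^ 2 := by
      push_cast
      ring
    have hb : (0 : ℝ) ≤ b := Nat.cast_nonneg b
    have hsq : 0 ≤ (1 - r) ^ 2 := sq_nonneg _
    rw [e]
    constructor
    · positivity
    · have h3 := mul_le_mul_of_nonneg_left h2 hr
      have h4 : (1 : ℝ) ≤ (1 + r) ^ b := one_le_pow₀ (by linarith)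
      have h5 : (b : ℝ) * (1 - r) ^ 2 ≤ b * (1 + r) ^ b * (1 - r) ^ 2 := by
        nlinarith [mul_nonneg hb hsq]
      have h6 : 0 ≤ (1 + r) ^ b * (1 - r) ^ 2 := by positivity
      have h7 : r * ((b : ℝ) ^ 2 * (1 + r) ^ b * (1 - r) ^ 2) + b * (1 + r) ^ b * (1 - r) ^ 2 ≤
          ((b + 1 : ℕ) : ℝ) ^ 2 * (1 + r) ^ (b + 1) * (1 - r) ^ 2 := by
        have e2 : ((b + 1 : ℕ) : ℝ) ^ 2 * (1 + r) ^ (b + 1) * (1 - r) ^ 2 -
            (r * ((b : ℝ) ^ 2 * (1 + r) ^ b * (1 - r) ^ 2) + b * (1 + r) ^ b * (1 - r) ^ 2) =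
            (b ^ 2 + b + 1 + r * (2 * b + 1)) * ((1 + r) ^ b * (1 - r) ^ 2) := by
          push_cast
          ring
        have e3 : 0 ≤ ((b : ℝ) ^ 2 + b + 1 + r * (2 * b + 1)) * ((1 + r) ^ b * (1 - r) ^ 2) := by
          positivity
        linarith
      linarith

/-- the scalar estimate -/
theorem scal_est (b : ℕ) {c t ζr ζ2 : ℝ} (hc : 1 ≤ c) (ht : 0 < t) (ht' : t⁻¹ ≤ 4 * c ^ 2)
    (hζ : c ^ 2 * ζ2 ≤ c ^ 2 - 1) (hζr : ζr ^ 2 ≤ ζ2)
    (e : t = c ^ 2 * (1 + 2 * ζr + ζ2)) :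
    |(t ^ b)⁻¹ - 1 + 2 * b * ζr| ≤
      ((b : ℝ) ^ 2 * 5 ^ (b + 2) * 20 + 104 * b) * ((c ^ 2 - 1) * c ^ (2 * (b + 3))) := by
  obtain ⟨r, hr⟩ : ∃ r, r = t⁻¹ := ⟨_, rfl⟩
  have hr0 : 0 < r := by
    rw [hr]
    positivity
  have hrt : r * t = 1 := by
    rw [hr]
    exact inv_mul_cancel₀ ht.ne'
  have hb : (0 : ℝ) ≤ b := Nat.cast_nonneg b
  have hc2 : 1 ≤ c ^ 2 := one_le_pow₀ hc
  have hc0 : 0 < c := by linarith
  have hζ20 : 0 ≤ ζ2 := (sq_nonneg _).trans hζr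
  have hζ21 : ζ2 ≤ 1 := by
    by_contra h
    push Not at h
    nlinarith
  have hζr1 : |ζr| ≤ 1 := by
    rw [abs_le_one_iff_mul_self_le_one]
    nlinarith
  have hζr2 := abs_le.1 hζr1
  rw [← hr] at ht'
  -- the deviation of `t`
  have hdev : (t - 1) ^ 2 ≤ 20 * c ^ 2 * (c ^ 2 - 1) := by
    have e1 : t - 1 = c ^ 2 * (2 * ζr + ζ2) + (c ^ 2 - 1) := by
      rw [e]
      ring
    have h1 : (t - 1) ^ 2 ≤ 2 * (c ^ 2 * (2 * ζr + ζ2)) ^ 2 + 2 * (c ^ 2 - 1) ^ 2 := by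
      rw [e1]
      nlinarith [sq_nonneg (c ^ 2 * (2 * ζr + ζ2) - (c ^ 2 - 1))]
    have h2 : (2 * ζr + ζ2) ^ 2 ≤ 9 * ζ2 := by
      have h3 : ζr * ζ2 ≤ ζ2 := by nlinarith
      have h4 : ζ2 * ζ2 ≤ ζ2 := by nlinarith
      nlinarith
    have h3 : 2 * (c ^ 2 * (2 * ζr + ζ2)) ^ 2 ≤ 18 * c ^ 2 * (c ^ 2 - 1) := by
      have h4 : 2 * (c ^ 2 * (2 * ζr + ζ2)) ^ 2 = 2 * c ^ 2 * (c ^ 2 * (2 * ζr + ζ2) ^ 2) := by ring
      have h5 : c ^ 2 * (2 * ζr + ζ2) ^ 2 ≤ 9 * (c ^ 2 - 1) := by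
        have h6 := mul_le_mul_of_nonneg_left h2 (by positivity : 0 ≤ c ^ 2)
        linarith
      rw [h4]
      have h6 := mul_le_mul_of_nonneg_left h5 (by positivity : 0 ≤ 2 * c ^ 2)
      linarith
    have h4 : 2 * (c ^ 2 - 1) ^ 2 ≤ 2 * c ^ 2 * (c ^ 2 - 1) := by nlinarith
    linarith
  -- the main part
  obtain ⟨hB1, hB2⟩ := bern b hr0.le
  have h1r : (1 - r) ^ 2 = r ^ 2 * (t - 1) ^ 2 := by
    have : 1 - r = r * (t - 1) := by
      rw [mul_sub, hrt, mul_one]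
    rw [this, mul_pow]
  have hmain : (t ^ b)⁻¹ - 1 + 2 * b * ζr =
      (r ^ b - 1 + b * (1 - r)) + b * ((t - 1) ^ 2 * r) - (b * (t - 1) - 2 * b * ζr) := by
    have e2 : (t ^ b)⁻¹ = r ^ b := by
      rw [hr, inv_pow]
    have e3 : (t - 1) ^ 2 * r = t - 2 + r := by
      have : (t - 1) ^ 2 * r = t * (r * t) - 2 * (r * t) + r := by ring
      rw [this, hrt]
      ring
    rw [e2, e3]
    ring
  have hlin : |b * (t - 1) - 2 * b * ζr| ≤ 4 * b * (c ^ 2 - 1) := by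
    have e1 : b * (t - 1) - 2 * b * ζr =
        b * ((c ^ 2 - 1) * (2 * ζr) + c ^ 2 * ζ2 + (c ^ 2 - 1)) := by
      rw [e]
      ring
    have h2 : |(c ^ 2 - 1) * (2 * ζr) + c ^ 2 * ζ2 + (c ^ 2 - 1)| ≤ 4 * (c ^ 2 - 1) := by
      rw [abs_le]
      have h3 : 0 ≤ c ^ 2 * ζ2 := by positivity
      constructor <;> nlinarith
    rw [e1, abs_mul, abs_of_nonneg hb]
    have h3 := mul_le_mul_of_nonneg_left h2 hb
    linarith
  have h5c : 1 + r ≤ 5 * c ^ 2 := by linarith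
  have hc6 : ∀ k : ℕ, k ≤ b + 3 → (c ^ 2) ^ k ≤ (c ^ 2) ^ (b + 3) := fun k hk =>
    pow_le_pow_right₀ hc2 hk
  have hcc : 0 ≤ c ^ 2 - 1 := by linarith
  have hpart1 : r ^ b - 1 + b * (1 - r) ≤
      (b : ℝ) ^ 2 * 5 ^ (b + 2) * 20 * ((c ^ 2 - 1) * c ^ (2 * (b + 3))) := by
    refine hB2.trans ?_
    rw [h1r]
    have a1 : (1 + r) ^ b * r ^ 2 ≤ (5 * c ^ 2) ^ (b + 2) := by
      have a2 : r ^ 2 ≤ (1 + r) ^ 2 := pow_le_pow_left₀ hr0.le (by linarith) 2
      calc (1 + r) ^ b * r ^ 2 ≤ (1 + r) ^ b * (1 + r) ^ 2 :=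
            mul_le_mul_of_nonneg_left a2 (by positivity)
        _ = (1 + r) ^ (b + 2) := (pow_add _ _ _).symm
        _ ≤ _ := pow_le_pow_left₀ (by linarith) h5c _
    have a3 : (1 + r) ^ b * r ^ 2 * (t - 1) ^ 2 ≤
        (5 * c ^ 2) ^ (b + 2) * (20 * c ^ 2 * (c ^ 2 - 1)) :=
      mul_le_mul a1 hdev (sq_nonneg _) (by positivity)
    have a4 : (5 * c ^ 2) ^ (b + 2) * (20 * c ^ 2 * (c ^ 2 - 1)) =
        5 ^ (b + 2) * 20 * ((c ^ 2 - 1) * c ^ (2 * (b + 3))) := by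
      rw [mul_pow, ← pow_mul]
      ring
    rw [a4] at a3
    have a5 := mul_le_mul_of_nonneg_left a3 (sq_nonneg (b : ℝ))
    calc (b : ℝ) ^ 2 * (1 + r) ^ b * (r ^ 2 * (t - 1) ^ 2)
        = (b : ℝ) ^ 2 * ((1 + r) ^ b * r ^ 2 * (t - 1) ^ 2) := by ring
      _ ≤ _ := a5
      _ = _ := by ring
  have hpart2 : b * ((t - 1) ^ 2 * r) ≤ 100 * b * ((c ^ 2 - 1) * c ^ (2 * (b + 3))) := by
    have a1 : (t - 1) ^ 2 * r ≤ (20 * c ^ 2 * (c ^ 2 - 1)) * (5 * c ^ 2) :=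
      mul_le_mul hdev (by linarith) hr0.le (by positivity)
    have a2 : (20 * c ^ 2 * (c ^ 2 - 1)) * (5 * c ^ 2) = 100 * ((c ^ 2 - 1) * (c ^ 2) ^ 2) := by
      ring
    have a3 : (c ^ 2) ^ 2 ≤ c ^ (2 * (b + 3)) := by
      rw [pow_mul]
      exact hc6 2 (by omega)
    have a4 := mul_le_mul_of_nonneg_left a3 hcc
    have a5 : (t - 1) ^ 2 * r ≤ 100 * ((c ^ 2 - 1) * c ^ (2 * (b + 3))) := by linarith
    have a6 := mul_le_mul_of_nonneg_left a5 hb
    linarith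
  have hpart3 : 4 * b * (c ^ 2 - 1) ≤ 4 * b * ((c ^ 2 - 1) * c ^ (2 * (b + 3))) := by
    have a1 : (1 : ℝ) ≤ c ^ (2 * (b + 3)) := one_le_pow₀ hc
    have a2 := mul_le_mul_of_nonneg_left a1 hcc
    have a3 := mul_le_mul_of_nonneg_left a2 (by positivity : 0 ≤ 4 * (b : ℝ))
    linarith
  have hnn2 : 0 ≤ b * ((t - 1) ^ 2 * r) := by positivity
  rw [hmain]
  have hl := abs_le.1 hlin
  rw [abs_le]
  constructor
  · nlinarith
  · nlinarith

/-- The pointwise estimate of the quotient of kernels. -/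
theorem ratio_est (b : ℕ) (y x : SUGroup n) :
    |ch y ^ (2 * b) * (ch (y * x) ^ (2 * b))⁻¹ - 1 + 2 * b * (zet y x).re| ≤
      ((b : ℝ) ^ 2 * 5 ^ (b + 2) * 20 + 104 * b) * ((ch x ^ 2 - 1) * ch x ^ (2 * (b + 3))) := by
  have hx := ch_pos x
  have hy := ch_pos y
  have hyx := ch_pos (y * x)
  obtain ⟨t, ht⟩ : ∃ t, t = (ch (y * x) / ch y) ^ 2 := ⟨_, rfl⟩
  have ht0 : 0 < t := by
    rw [ht]
    positivity
  have e1 : ch y ^ (2 * b) * (ch (y * x) ^ (2 * b))⁻¹ = (t ^ b)⁻¹ := by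
    rw [ht, ← pow_mul, div_pow, inv_div, div_eq_mul_inv]
  have e2 : t = ch x ^ 2 * (1 + 2 * (zet y x).re + ‖zet y x‖ ^ 2) := by
    rw [ht, ch_mul_zet, mul_assoc, mul_div_cancel_left₀ _ hy.ne', mul_pow]
    congr 1
    rw [← Complex.normSq_eq_norm_sq, ← Complex.normSq_eq_norm_sq, Complex.normSq_apply,
      Complex.normSq_apply, Complex.add_re, Complex.add_im, Complex.one_re, Complex.one_im]
    ring
  have h3 : t⁻¹ ≤ 4 * ch x ^ 2 := by
    have h4 : ch y ≤ 2 * ch (y * x) * ch x := by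
      have h5 := ch_mul_le' (y * x) x⁻¹
      rwa [mul_inv_cancel_right, ch_inv] at h5
    have h5 : ch y / ch (y * x) ≤ 2 * ch x := by
      rw [div_le_iff₀ hyx]
      linarith
    have h6 := pow_le_pow_left₀ (by positivity : 0 ≤ ch y / ch (y * x)) h5 2
    rw [ht, ← inv_pow, inv_div]
    refine h6.trans (le_of_eq ?_)
    ring
  have h4 : (zet y x).re ^ 2 ≤ ‖zet y x‖ ^ 2 := by
    rw [← Complex.normSq_eq_norm_sq, Complex.normSq_apply]
    nlinarith [sq_nonneg (zet y x).im]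
  rw [e1]
  exact scal_est b (one_le_ch x) ht0 h3 (norm_zet_sq y x) h4 e2

theorem continuous_zet (y : SUGroup n) : Continuous fun x : SUGroup n => zet y x := by
  unfold zet
  exact continuous_finsetSum _ fun j _ => continuous_const.mul (continuous_zc j)

/-- the mean of the cross term vanishes -/
theorem integral_zet {s : ℕ} (h : n < s) (y : SUGroup n) :
    ∫ x : SUGroup n, kap s x * (zet y x).re ∂(mu n) = 0 := by
  have i1 : ∀ j : Fin n, Integrable (fun x : SUGroup n => (kap s x : ℂ) * zc x j) (mu n) := by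
    intro j
    refine (integrable_kap h).mono' ?_ (Eventually.of_forall fun x => ?_)
    · exact ((Complex.continuous_ofReal.comp (continuous_kap s)).mul
        (continuous_zc j)).aestronglyMeasurable
    · rw [norm_mul, Complex.norm_real, Real.norm_eq_abs, abs_of_nonneg (kap_nonneg s x)]
      exact mul_le_of_le_one_right (kap_nonneg s x) (norm_zc_le x j)
  have e1 : ∀ x : SUGroup n, (kap s x : ℂ) * zet y x =
      ∑ j : Fin n, (y.toMatrix (Fin.last n) j.castSucc / y.toMatrix (Fin.last n) (Fin.last n)) *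
        ((kap s x : ℂ) * zc x j) := by
    intro x
    unfold zet
    rw [Finset.mul_sum]
    refine Finset.sum_congr rfl fun j _ => ?_
    ring
  have i2 : Integrable (fun x : SUGroup n => (kap s x : ℂ) * zet y x) (mu n) := by
    simp_rw [e1]
    exact integrable_finsetSum _ fun j _ => (i1 j).const_mul _
  have h2 : ∫ x : SUGroup n, (kap s x : ℂ) * zet y x ∂(mu n) = 0 := by
    simp_rw [e1]
    rw [integral_finsetSum _ fun j _ => (i1 j).const_mul _]
    refine Finset.sum_eq_zero fun j _ => ?_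
    rw [integral_const_mul, integral_zc h, mul_zero]
  have h3 : ∀ x : SUGroup n, kap s x * (zet y x).re = ((kap s x : ℂ) * zet y x).re := by
    intro x
    rw [Complex.re_ofReal_mul]
  simp_rw [h3]
  have h4 := integral_re i2
  simp only [RCLike.re_eq_complex_re] at h4
  rw [h4, h2, Complex.zero_re]

/-- The average of the kernel. -/
theorem ker_avg (n b : ℕ) : ∃ (s₀ : ℕ) (C : ℝ), 0 < C ∧ ∀ s, s₀ ≤ s → ∀ y : SUGroup n,
    Integrable (fun x : SUGroup n => kap s x * (ch (y * x) ^ (2 * b))⁻¹) (mu n) ∧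
    (1 - C / s) * (ch y ^ (2 * b))⁻¹ ≤ ∫ x : SUGroup n, kap s x * (ch (y * x) ^ (2 * b))⁻¹ ∂(mu n) ∧
    ∫ x : SUGroup n, kap s x * (ch (y * x) ^ (2 * b))⁻¹ ∂(mu n) ≤
      (1 + C / s) * (ch y ^ (2 * b))⁻¹ := by
  obtain ⟨C₁, hC₁, hmom⟩ := mom_le n (b + 3) 1
  obtain ⟨D, hD⟩ : ∃ D : ℝ, D = (b : ℝ) ^ 2 * 5 ^ (b + 2) * 20 + 104 * b := ⟨_, rfl⟩
  have hD0 : 0 ≤ D := by
    rw [hD]
    positivity
  refine ⟨n + (b + 3) + 1 + 1, D * C₁ + 1, by positivity, fun s hs y => ?_⟩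
  have hy := ch_pos y
  have hyp : 0 < ch y ^ (2 * b) := pow_pos hy _
  have hs0 : (0 : ℝ) < s := by
    have : 0 < s := by omega
    exact_mod_cast this
  obtain ⟨f, hf⟩ : ∃ f : SUGroup n → ℝ, f = fun x =>
    ch y ^ (2 * b) * (ch (y * x) ^ (2 * b))⁻¹ - 1 + 2 * b * (zet y x).re := ⟨_, rfl⟩
  have hfc : Continuous f := by
    rw [hf]
    have h1 : Continuous fun x : SUGroup n => (ch (y * x) ^ (2 * b))⁻¹ :=
      ((continuous_ch.comp (continuous_const_mul y)).pow _).inv₀ fun x =>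
        (pow_pos (ch_pos _) _).ne'
    have h2 := Complex.continuous_re.comp (continuous_zet y)
    exact ((continuous_const.mul h1).sub continuous_const).add (continuous_const.mul h2)
  have i0 : Integrable (fun x : SUGroup n => kap s x * (ch x ^ (2 * (b + 3)) * (ch x ^ 2 - 1) ^ 1))
      (mu n) := integrable_mom (by omega)
  have hb : ∀ x, |kap s x * f x| ≤ D * (kap s x * (ch x ^ (2 * (b + 3)) * (ch x ^ 2 - 1) ^ 1)) := by
    intro x
    rw [abs_mul, abs_of_nonneg (kap_nonneg s x)]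
    have h1 := ratio_est b y x
    rw [← hD] at h1
    have h2 := mul_le_mul_of_nonneg_left h1 (kap_nonneg s x)
    rw [hf]
    refine h2.trans (le_of_eq ?_)
    ring
  have i1 : Integrable (fun x : SUGroup n => kap s x * f x) (mu n) :=
    (i0.const_mul D).mono' ((continuous_kap s).mul hfc).aestronglyMeasurable
      (Eventually.of_forall fun x => by
        rw [Real.norm_eq_abs]
        exact hb x)
  have h1 : |∫ x, kap s x * f x ∂(mu n)| ≤ D * (C₁ / s) := by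
    have h2 := norm_integral_le_of_norm_le (i0.const_mul D) (Eventually.of_forall fun x => by
      rw [Real.norm_eq_abs]
      exact hb x)
    rw [Real.norm_eq_abs, integral_const_mul] at h2
    have h3 := hmom s (by omega)
    rw [pow_one] at h3
    exact h2.trans (mul_le_mul_of_nonneg_left h3 hD0)
  have i2 := integrable_kap (n := n) (s := s) (by omega)
  have i3 : Integrable (fun x : SUGroup n => kap s x * (zet y x).re) (mu n) := by
    refine i2.mono' ?_ (Eventually.of_forall fun x => ?_)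
    · exact ((continuous_kap s).mul
        (Complex.continuous_re.comp (continuous_zet y))).aestronglyMeasurable
    · have h3 := norm_zet_sq y x
      have h4 := one_le_ch x
      have h5 : ‖zet y x‖ ≤ 1 := by
        by_contra h
        push Not at h
        have h6 : (1 : ℝ) ≤ ‖zet y x‖ ^ 2 := one_le_pow₀ h.le
        nlinarith
      rw [Real.norm_eq_abs, abs_mul, abs_of_nonneg (kap_nonneg s x)]
      exact mul_le_of_le_one_right (kap_nonneg s x) ((Complex.abs_re_le_norm _).trans h5)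
  have e0 : ∀ x, kap s x * (ch (y * x) ^ (2 * b))⁻¹ =
      (ch y ^ (2 * b))⁻¹ * (kap s x * f x + kap s x - 2 * b * (kap s x * (zet y x).re)) := by
    intro x
    rw [hf]
    field_simp
    ring
  have i4 : Integrable (fun x : SUGroup n =>
      kap s x * f x + kap s x - 2 * b * (kap s x * (zet y x).re)) (mu n) :=
    (i1.add i2).sub (i3.const_mul _)
  simp_rw [e0]
  refine ⟨i4.const_mul _, ?_⟩
  rw [integral_const_mul, integral_sub (f := fun x => kap s x * f x + kap s x)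
    (g := fun x => 2 * b * (kap s x * (zet y x).re)) (i1.add i2) (i3.const_mul _),
    integral_add i1 i2, integral_const_mul, integral_zet (by omega), integral_kap (by omega)]
  have h2 := abs_le.1 h1
  have h3 : D * (C₁ / s) ≤ (D * C₁ + 1) / s := by
    rw [mul_div_assoc']
    exact div_le_div_of_nonneg_right (by linarith) hs0.le
  have h4 : 0 ≤ (ch y ^ (2 * b))⁻¹ := inv_nonneg.2 hyp.le
  constructor
  · rw [mul_comm]
    exact mul_le_mul_of_nonneg_left (by linarith) h4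
  · rw [mul_comm (1 + (D * C₁ + 1) / s)]
    exact mul_le_mul_of_nonneg_left (by linarith) h4

end Pool.Agent.Lib.MP_5d4057_al.NU
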