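import Pool.Agent.Lib.MP_5d4057_al.NU.SumCh
import Pool.Agent.Lib.MP_5d4057_al.NU.KerEst
import Pool.Agent.Lib.MP_5d4057_al.NU.HarnN
import Pool.Agent.Lib.MP_5d4057_al.HM.LevC

/-! The base metric `H₀(v) = ∑_γ ker s₁ v (γ e) ρ(γ) ρ(γ)*` (A1 of the blueprint of NU). -/

set_option autoImplicit false

namespace Pool.Agent.Lib.MP_5d4057_al.NU

open Matrix MeasureTheory Filter Topology Pool.Agent.Lib.MP_5d4057_al
  Pool.Agent.Lib.MP_5d4057_al.Hyb Pool.Agent.Lib.MP_5d4057_al.HM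

open scoped ComplexOrder MatrixOrder Matrix.Norms.L2Operator

variable {n m : ℕ} {Γ : Subgroup (SUGroup n)}

/-- the summands -/
noncomputable def Bg (ρ : Γ →* Mat m) (γ : Γ) : Mat m := ρ γ * (ρ γ)ᴴ

theorem Bg_nonneg (ρ : Γ →* Mat m) (γ : Γ) : 0 ≤ Bg ρ γ :=
  Matrix.nonneg_iff_posSemidef.2 (posSemidef_self_mul_conjTranspose (ρ γ))

theorem Bg_mul (ρ : Γ →* Mat m) (γ δ : Γ) : Bg ρ (γ * δ) = ρ γ * Bg ρ δ * (ρ γ)ᴴ := by
  unfold Bg
  rw [map_mul, conjTranspose_mul]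
  simp only [Matrix.mul_assoc]

theorem norm_Bg_le {ρ : Γ →* Mat m} {N : ℕ} {C : ℝ} (hG : Grow ρ N C) (γ : Γ) :
    ‖Bg ρ γ‖ ≤ C ^ 2 * ch (γ : SUGroup n) ^ (2 * N) := by
  have h1 := hG γ
  have h2 : ‖Bg ρ γ‖ ≤ ‖ρ γ‖ * ‖ρ γ‖ := by
    refine (norm_mul_le _ _).trans ?_
    rw [← star_eq_conjTranspose, norm_star]
  have h3 : ‖ρ γ‖ * ‖ρ γ‖ ≤ (C * ch (γ : SUGroup n) ^ N) * (C * ch (γ : SUGroup n) ^ N) :=
    mul_le_mul h1 h1 (norm_nonneg _) ((norm_nonneg _).trans h1)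
  refine h2.trans (h3.trans (le_of_eq ?_))
  rw [mul_comm 2 N, pow_mul]
  ring

/-- the kernel at a point of the orbit -/
noncomputable def kg (s : ℕ) (γ : Γ) (g : SUGroup n) : ℝ :=
  (ch ((γ : SUGroup n)⁻¹ * g) ^ (2 * s))⁻¹

theorem kg_pos (s : ℕ) (γ : Γ) (g : SUGroup n) : 0 < kg s γ g :=
  inv_pos.2 (pow_pos (ch_pos _) _)

theorem ker_eq_kg (s : ℕ) (γ : Γ) (g : SUGroup n) :
    ker s (act g (base n)) (act (γ : SUGroup n) (base n)) = kg s γ g := by
  rw [ker_comm, ker_orbit]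
  rfl

theorem kg_mul_le (s : ℕ) (γ : Γ) (g x : SUGroup n) :
    kg s γ (g * x) ≤ wt x ^ (2 * s) * kg s γ g := by
  unfold kg
  have h := inv_ch_le s ((γ : SUGroup n)⁻¹ * (g * x)) x⁻¹
  rwa [wt_inv, mul_assoc, mul_assoc, mul_inv_cancel, mul_one] at h

/-- The base metric. -/
noncomputable def H0 (ρ : Γ →* Mat m) (s : ℕ) (v : Vec n) : Mat m :=
  ∑' γ : Γ, ker s v (act (γ : SUGroup n) (base n)) • Bg ρ γ

theorem H0_orbit (ρ : Γ →* Mat m) (s : ℕ) (g : SUGroup n) :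
    H0 ρ s (act g (base n)) = ∑' γ : Γ, kg s γ g • Bg ρ γ := by
  unfold H0
  simp only [ker_eq_kg]

theorem H0_homog (ρ : Γ →* Mat m) (s : ℕ) : Homog (H0 (n := n) ρ s) := by
  intro c hc v _
  unfold H0
  simp only [ker_smul_left s hc]

theorem H0_summable_norm (hd : DiscreteTopology Γ) {ρ : Γ →* Mat m} {N : ℕ} {C : ℝ}
    (hG : Grow ρ N C) {s : ℕ} (hs : n + N < s) (g : SUGroup n) :
    Summable fun γ : Γ => kg s γ g * ‖Bg ρ γ‖ := by
  obtain ⟨t, rfl⟩ : ∃ t, s = t + N := ⟨s - N, by omega⟩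
  have h1 := summable_ch_inv hd (s := t) (by omega) g
  refine Summable.of_nonneg_of_le (fun γ => mul_nonneg (kg_pos _ _ _).le (norm_nonneg _))
    (fun γ => ?_) (h1.mul_left (C ^ 2 * (2 * ch g) ^ (2 * N)))
  have p0 := ch_pos ((γ : SUGroup n)⁻¹ * g)
  have p1 := ch_pos g
  have h2 : ch (γ : SUGroup n) ≤ 2 * ch g * ch ((γ : SUGroup n)⁻¹ * g) := by
    have h3 := ch_mul_le' g ((γ : SUGroup n)⁻¹ * g)⁻¹
    have e : g * ((γ : SUGroup n)⁻¹ * g)⁻¹ = γ := by group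
    rw [e, ch_inv] at h3
    exact h3
  have h3 : ch (γ : SUGroup n) ^ (2 * N) ≤
      (2 * ch g) ^ (2 * N) * ch ((γ : SUGroup n)⁻¹ * g) ^ (2 * N) := by
    rw [← mul_pow]
    exact pow_le_pow_left₀ (ch_pos _).le h2 _
  have h4 := norm_Bg_le hG γ
  have h5 : ‖Bg ρ γ‖ ≤ C ^ 2 * ((2 * ch g) ^ (2 * N) * ch ((γ : SUGroup n)⁻¹ * g) ^ (2 * N)) :=
    h4.trans (mul_le_mul_of_nonneg_left h3 (sq_nonneg C))
  have h6 := mul_le_mul_of_nonneg_left h5 (kg_pos (t + N) γ g).le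
  refine h6.trans (le_of_eq ?_)
  unfold kg
  rw [Nat.mul_add, pow_add, mul_inv]
  have e : (ch ((γ : SUGroup n)⁻¹ * g) ^ (2 * N))⁻¹ * ch ((γ : SUGroup n)⁻¹ * g) ^ (2 * N) = 1 :=
    inv_mul_cancel₀ (pow_ne_zero _ p0.ne')
  linear_combination (C ^ 2 * (2 * ch g) ^ (2 * N) * (ch ((γ : SUGroup n)⁻¹ * g) ^ (2 * t))⁻¹) * e

theorem H0_summable (hd : DiscreteTopology Γ) {ρ : Γ →* Mat m} {N : ℕ} {C : ℝ}
    (hG : Grow ρ N C) {s : ℕ} (hs : n + N < s) (g : SUGroup n) :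
    Summable fun γ : Γ => kg s γ g • Bg ρ γ := by
  refine Summable.of_norm ?_
  refine (H0_summable_norm hd hG hs g).congr fun γ => ?_
  rw [norm_smul, Real.norm_eq_abs, abs_of_nonneg (kg_pos _ _ _).le]

theorem H0_harn (hd : DiscreteTopology Γ) {ρ : Γ →* Mat m} {N : ℕ} {C : ℝ}
    (hG : Grow ρ N C) {s : ℕ} (hs : n + N < s) : Harn (2 * s) (H0 (n := n) ρ s) := by
  intro g x
  rw [wt_pow_cast, H0_orbit, H0_orbit, ← tsum_const_smul'' ]
  refine (H0_summable hd hG hs (g * x)).tsum_le_tsum (fun γ => ?_)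
    ((H0_summable hd hG hs g).const_smul _)
  rw [smul_smul]
  exact rs_mono_left (Bg_nonneg ρ γ) (kg_mul_le s γ g x)

theorem H0_posDef (hd : DiscreteTopology Γ) {ρ : Γ →* Mat m} {N : ℕ} {C : ℝ}
    (hG : Grow ρ N C) {s : ℕ} (hs : n + N < s) {v : Vec n} (hv : v ∈ Cone n) :
    (H0 ρ s v).PosDef := by
  rw [eq_sec (H0_homog ρ s) hv, H0_orbit]
  obtain ⟨g, hg⟩ : ∃ g, g = sec n v := ⟨_, rfl⟩
  rw [← hg]
  have h1 := (H0_summable hd hG hs g).le_tsum 1 fun γ _ =>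
    smul_nonneg_mat (kg_pos s γ g).le (Bg_nonneg ρ γ)
  have e : Bg ρ 1 = 1 := by
    unfold Bg
    rw [map_one, conjTranspose_one, Matrix.mul_one]
  rw [e] at h1
  have h2 : (kg s (1 : Γ) g • (1 : Mat m)).PosDef := PosDef.one.smul (kg_pos s 1 g)
  have h3 := Matrix.le_iff.1 h1
  have h4 := h2.add_posSemidef h3
  rwa [add_sub_cancel] at h4

theorem H0_equi (hd : DiscreteTopology Γ) {ρ : Γ →* Mat m} {N : ℕ} {C : ℝ}
    (hG : Grow ρ N C) {s : ℕ} (hs : n + N < s) : Equi ρ (H0 (n := n) ρ s) := by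
  intro γ₀ v hv
  have e1 : H0 ρ s (act (γ₀ : SUGroup n) v) =
      ∑' γ : Γ, ρ γ₀ * (ker s v (act (γ : SUGroup n) (base n)) • Bg ρ γ) * (ρ γ₀)ᴴ := by
    unfold H0
    rw [← (Equiv.mulLeft γ₀).tsum_eq fun γ : Γ =>
      ker s (act (γ₀ : SUGroup n) v) (act (γ : SUGroup n) (base n)) • Bg ρ γ]
    refine tsum_congr fun γ => ?_
    rw [Equiv.coe_mulLeft, Subgroup.coe_mul, act_mul, ker_act, Bg_mul, mul_smul_comm,
      smul_mul_assoc]
  have hsum : Summable fun γ : Γ => ker s v (act (γ : SUGroup n) (base n)) • Bg ρ γ := by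
    obtain ⟨c, hc, e⟩ := sec_spec hv
    have h1 := H0_summable hd hG hs (sec n v)
    refine h1.congr fun γ => ?_
    rw [← ker_eq_kg, ← ker_smul_left s hc, ← e]
  rw [e1]
  unfold H0
  rw [(hsum.mul_left (ρ γ₀)).tsum_mul_right, hsum.tsum_mul_left]

theorem H0_met (hd : DiscreteTopology Γ) {ρ : Γ →* Mat m} {N : ℕ} {C : ℝ}
    (hG : Grow ρ N C) {s : ℕ} (hs : n + N < s) : Met ρ (H0 (n := n) ρ s) where
  hom := H0_homog ρ s
  cont := cont_of_harn (H0_homog ρ s)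
    (fun g => (H0_posDef hd hG hs (orbit_mem g)).posSemidef) (H0_harn hd hG hs)
  pos := fun v hv => H0_posDef hd hG hs hv
  equi := H0_equi hd hG hs

/-- the average of the base metric, termwise -/
theorem H0_avg (hd : DiscreteTopology Γ) {ρ : Γ →* Mat m} {N : ℕ} {C : ℝ}
    (hG : Grow ρ N C) {b : ℕ} (hb : n + N < b) : ∃ (s₀ : ℕ) (C₁ : ℝ), 0 < C₁ ∧ ∀ s, s₀ ≤ s →
    ∀ g : SUGroup n,
      (1 - C₁ / s) • H0 ρ b (act g (base n)) ≤ P s (H0 ρ b) (act g (base n)) ∧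
      P s (H0 ρ b) (act g (base n)) ≤ (1 + C₁ / s) • H0 ρ b (act g (base n)) := by
  have := countable_disc hd
  obtain ⟨s₀, C₁, hC₁, hker⟩ := ker_avg n b
  refine ⟨s₀, C₁, hC₁, fun s hs g => ?_⟩
  -- the averages of the kernels
  obtain ⟨I, hI⟩ : ∃ I : Γ → ℝ, I = fun γ => ∫ x : SUGroup n, kap s x * kg b γ (g * x) ∂(mu n) :=
    ⟨_, rfl⟩
  have hk : ∀ γ : Γ, Integrable (fun x : SUGroup n => kap s x * kg b γ (g * x)) (mu n) ∧
      (1 - C₁ / s) * kg b γ g ≤ I γ ∧ I γ ≤ (1 + C₁ / s) * kg b γ g := by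
    intro γ
    obtain ⟨k1, k2, k3⟩ := hker s hs ((γ : SUGroup n)⁻¹ * g)
    simp only [mul_assoc] at k1 k2 k3
    rw [hI]
    exact ⟨k1, k2, k3⟩
  have hI0 : ∀ γ, 0 ≤ I γ := by
    intro γ
    rw [hI]
    exact integral_nonneg fun x => mul_nonneg (kap_nonneg s x) (kg_pos _ _ _).le
  have hn0 := H0_summable_norm hd hG hb g
  have hF : ∀ γ : Γ, Integrable (fun x : SUGroup n => (kap s x * kg b γ (g * x)) • Bg ρ γ)
      (mu n) := fun γ => (hk γ).1.smul_const _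
  have hnorm : ∀ γ : Γ, ∫ x : SUGroup n, ‖(kap s x * kg b γ (g * x)) • Bg ρ γ‖ ∂(mu n) =
      I γ * ‖Bg ρ γ‖ := by
    intro γ
    rw [hI]
    beta_reduce
    rw [← integral_mul_const]
    refine integral_congr_ae (Eventually.of_forall fun x => ?_)
    show ‖(kap s x * kg b γ (g * x)) • Bg ρ γ‖ = kap s x * kg b γ (g * x) * ‖Bg ρ γ‖
    rw [norm_smul, Real.norm_eq_abs,
      abs_of_nonneg (mul_nonneg (kap_nonneg s x) (kg_pos _ _ _).le)]
  have hIs : Summable fun γ : Γ => I γ * ‖Bg ρ γ‖ := by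
    refine Summable.of_nonneg_of_le (fun γ => mul_nonneg (hI0 γ) (norm_nonneg _)) (fun γ => ?_)
      (hn0.mul_left (1 + C₁ / s))
    have h1 := mul_le_mul_of_nonneg_right (hk γ).2.2 (norm_nonneg (Bg ρ γ))
    rwa [mul_assoc] at h1
  have hsumn : Summable fun γ : Γ =>
      ∫ x : SUGroup n, ‖(kap s x * kg b γ (g * x)) • Bg ρ γ‖ ∂(mu n) :=
    hIs.congr fun γ => (hnorm γ).symm
  have h1 := (hasSum_integral_of_summable_integral_norm hF hsumn).tsum_eq
  have e1 : P s (H0 ρ b) (act g (base n)) = ∑' γ : Γ, I γ • Bg ρ γ := by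
    rw [P_orbit]
    have e2 : ∀ x : SUGroup n, kap s x • H0 ρ b (act (g * x) (base n)) =
        ∑' γ : Γ, (kap s x * kg b γ (g * x)) • Bg ρ γ := by
      intro x
      rw [H0_orbit, ← tsum_const_smul'']
      refine tsum_congr fun γ => ?_
      rw [smul_smul]
    simp_rw [e2]
    rw [← h1]
    refine tsum_congr fun γ => ?_
    rw [integral_smul_const, hI]
  have hIB : Summable fun γ : Γ => I γ • Bg ρ γ := by
    refine Summable.of_norm ?_
    refine hIs.congr fun γ => ?_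
    rw [norm_smul, Real.norm_eq_abs, abs_of_nonneg (hI0 γ)]
  have hs0 := H0_summable hd hG hb g
  rw [e1, H0_orbit]
  constructor
  · rw [← tsum_const_smul'']
    refine (hs0.const_smul _).tsum_le_tsum (fun γ => ?_) hIB
    rw [smul_smul]
    exact rs_mono_left (Bg_nonneg ρ γ) (hk γ).2.1
  · rw [← tsum_const_smul'']
    refine hIB.tsum_le_tsum (fun γ => ?_) (hs0.const_smul _)
    rw [smul_smul]
    exact rs_mono_left (Bg_nonneg ρ γ) (hk γ).2.2

/-- `sig` of a Harnack metric -/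
theorem sig_harn {H : Vec n → Mat m} {a : ℕ} (hp : ∀ v ∈ Cone n, (H v).PosDef)
    (hh : Harn (2 * a) H) (g x : SUGroup n) :
    sig (H (act g (base n))) (H (act (g * x) (base n))) ≤
      m * (wt x ^ (2 * a) + (wt x ^ (2 * a))⁻¹ - 2) := by
  have hw : 1 ≤ wt x := one_le_wt x
  have hw0 : 0 < wt x := by linarith
  obtain ⟨t, ht⟩ : ∃ t : ℝ, t = Real.log (wt x ^ (2 * a)) := ⟨_, rfl⟩
  have hwp := wt_pow_pos x (2 * a)
  have ht0 : 0 ≤ t := by
    rw [ht]
    exact Real.log_nonneg (one_le_pow₀ hw)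
  have et : Real.exp t = wt x ^ (2 * a) := by rw [ht, Real.exp_log hwp]
  have h1 := harn_real hh g x
  have h2 := harn_real' hh g x
  rw [← et, ← cr_smul] at h1 h2
  have h3 := sig_le ht0 (hp _ (orbit_mem g)) (hp _ (orbit_mem (g * x))) h2 h1
  refine h3.trans (le_of_eq ?_)
  have e1 : (Real.exp (t / 2) - Real.exp (-(t / 2))) ^ 2 = Real.exp t + (Real.exp t)⁻¹ - 2 := by
    have a1 : Real.exp (t / 2) ^ 2 = Real.exp t := by
      rw [← Real.exp_nat_mul]
      congr 1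
      push_cast
      ring
    have a2 : Real.exp (-(t / 2)) ^ 2 = (Real.exp t)⁻¹ := by
      rw [← Real.exp_nat_mul, ← Real.exp_neg]
      congr 1
      push_cast
      ring
    have a3 : Real.exp (t / 2) * Real.exp (-(t / 2)) = 1 := by
      rw [← Real.exp_add]
      simp
    rw [sub_sq, a1, a2, mul_assoc, a3]
    ring
  rw [e1, et]

/-- the averaged `sig` of a Harnack metric -/
theorem sig_avg (n m a : ℕ) : ∃ C : ℝ, 0 < C ∧ ∀ s : ℕ, n + a + 1 < s →
    ∀ H : Vec n → Mat m, (∀ v ∈ Cone n, (H v).PosDef) → ContinuousOn H (Cone n) →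
      Harn (2 * a) H → ∀ g : SUGroup n,
      Integrable (fun x => kap s x * sig (H (act g (base n))) (H (act (g * x) (base n)))) (mu n) ∧
      ∫ x, kap s x * sig (H (act g (base n))) (H (act (g * x) (base n))) ∂(mu n) ≤ C / s := by
  obtain ⟨C, hC, h⟩ := wt_avg n a
  refine ⟨m * C + 1, by positivity, fun s hs H hp hcont hh g => ?_⟩
  have hs0 : (0 : ℝ) < s := by
    have : 0 < s := by omega
    exact_mod_cast this
  obtain ⟨i0, h0⟩ := h s hs
  have i2 := integrable_kap (n := n) (s := s) (by omega)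
  have i3 : Integrable (fun x : SUGroup n =>
      (m : ℝ) * (kap s x * (wt x ^ (2 * a) + (wt x ^ (2 * a))⁻¹) - 2 * kap s x)) (mu n) :=
    (i0.sub (i2.const_mul 2)).const_mul _
  have hb : ∀ x : SUGroup n, kap s x * sig (H (act g (base n))) (H (act (g * x) (base n))) ≤
      (m : ℝ) * (kap s x * (wt x ^ (2 * a) + (wt x ^ (2 * a))⁻¹) - 2 * kap s x) := by
    intro x
    have h1 := mul_le_mul_of_nonneg_left (sig_harn hp hh g x) (kap_nonneg s x)
    refine h1.trans (le_of_eq ?_)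
    ring
  have hnn : ∀ x : SUGroup n,
      0 ≤ kap s x * sig (H (act g (base n))) (H (act (g * x) (base n))) := fun x =>
    mul_nonneg (kap_nonneg s x) (sig_nonneg (hp _ (orbit_mem _)) (hp _ (orbit_mem _)))
  have hc1 : Continuous fun x : SUGroup n => H (act (g * x) (base n)) :=
    hcont.comp_continuous (continuous_orbit.comp (continuous_const_mul g)) fun x => orbit_mem _
  have hc2 : Continuous fun x : SUGroup n => (H (act (g * x) (base n)))⁻¹ := by
    rw [continuous_iff_continuousAt]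
    intro x
    have hu : IsUnit (H (act (g * x) (base n))) := (hp _ (orbit_mem _)).isUnit
    have h1 : ContinuousAt (fun A : Mat m => A⁻¹) (H (act (g * x) (base n))) := by
      obtain ⟨u, hu'⟩ := hu
      have h2 := NormedRing.inverse_continuousAt u
      rw [hu'] at h2
      have e : (Ring.inverse : Mat m → Mat m) = fun A => A⁻¹ := by
        funext A
        exact (Matrix.nonsing_inv_eq_ringInverse A).symm
      rwa [e] at h2
    exact ContinuousAt.comp (f := fun x : SUGroup n => H (act (g * x) (base n)))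
      (g := fun A : Mat m => A⁻¹) h1 hc1.continuousAt
  have hc3 : Continuous fun x : SUGroup n =>
      sig (H (act g (base n))) (H (act (g * x) (base n))) := by
    unfold sig
    exact (Complex.continuous_re.comp (((continuous_const.mul hc1).matrix_trace).add
      ((hc2.mul continuous_const).matrix_trace))).sub continuous_const
  have i4 : Integrable (fun x => kap s x * sig (H (act g (base n))) (H (act (g * x) (base n))))
      (mu n) := i3.mono' ((continuous_kap s).mul hc3).aestronglyMeasurable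
        (Eventually.of_forall fun x => by
          rw [Real.norm_eq_abs, abs_of_nonneg (hnn x)]
          exact hb x)
  refine ⟨i4, ?_⟩
  have h1 := integral_mono i4 i3 hb
  rw [integral_const_mul, integral_sub i0 (i2.const_mul 2), integral_const_mul,
    integral_kap (by omega)] at h1
  have h2 : (m : ℝ) * (∫ x : SUGroup n, kap s x * (wt x ^ (2 * a) + (wt x ^ (2 * a))⁻¹) ∂(mu n) -
      2 * 1) ≤ m * (C / s) := mul_le_mul_of_nonneg_left (by linarith) (Nat.cast_nonneg m)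
  have h3 : (m : ℝ) * (C / s) ≤ (m * C + 1) / s := by
    rw [mul_div_assoc']
    exact div_le_div_of_nonneg_right (by linarith) hs0.le
  linarith

/-- The properties of the base metric (A1). -/
structure BaseMet {Γ : Subgroup (SUGroup n)} (ρ : Γ →* Mat m) (s₁ s₀ : ℕ) (C : ℝ)
    (H : Vec n → Mat m) : Prop where
  met : Met ρ H
  harn : Harn (2 * s₁) H
  harnInv : Harn (2 * s₁) fun v => (H v)⁻¹
  adm : Adm s₁ C H
  admInv : Adm s₁ C fun v => (H v)⁻¹
  avg : ∀ s, s₀ ≤ s → ∀ g : SUGroup n,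
    (1 - C / s) • H (act g (base n)) ≤ P s H (act g (base n)) ∧
    P s H (act g (base n)) ≤ (1 + C / s) • H (act g (base n)) ∧
    (1 - C / s) • (H (act g (base n)))⁻¹ ≤ P s (fun v => (H v)⁻¹) (act g (base n)) ∧
    P s (fun v => (H v)⁻¹) (act g (base n)) ≤ (1 + C / s) • (H (act g (base n)))⁻¹
  sig : ∀ s, s₀ ≤ s → ∀ g : SUGroup n,
    Integrable (fun x => kap s x * sig (H (act g (base n))) (H (act (g * x) (base n)))) (mu n) ∧
    ∫ x, kap s x * HM.sig (H (act g (base n))) (H (act (g * x) (base n))) ∂(mu n) ≤ C / s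

/-- A1. -/
theorem exists_base (hd : DiscreteTopology Γ) {ρ : Γ →* Mat m} {N : ℕ} {C : ℝ}
    (hG : Grow ρ N C) {s₁ : ℕ} (hs₁ : n + N < s₁) : ∃ (s₀ : ℕ) (C₁ : ℝ), 0 < C₁ ∧
      BaseMet ρ s₁ s₀ C₁ (H0 ρ s₁) := by
  have hmet := H0_met hd hG hs₁
  have hharn := H0_harn hd hG hs₁
  obtain ⟨s₀, C₁, hC₁, h1⟩ := H0_avg hd hG hs₁
  obtain ⟨C₂, hC₂, a1, a2⟩ := adm_of_harn hmet hharn
  obtain ⟨C₃, hC₃, h3⟩ := inv_avg_le n m s₁
  obtain ⟨C₄, hC₄, h4⟩ := sig_avg n m s₁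
  refine ⟨s₀ + (n + s₁ + 2), C₁ + C₂ + C₃ + C₄, by positivity, hmet, hharn,
    harn_inv_of hmet.pos hharn, ?_, ?_, fun s hs g => ?_, fun s hs g => ?_⟩
  · exact ⟨a1.meas, fun g => (a1.bound g).trans (mul_le_mul_of_nonneg_right (by linarith)
      (pow_nonneg (ch_pos g).le _))⟩
  · exact ⟨a2.meas, fun g => (a2.bound g).trans (mul_le_mul_of_nonneg_right (by linarith)
      (pow_nonneg (ch_pos g).le _))⟩
  · have hs0 : (0 : ℝ) < s := by
      have : 0 < s := by omega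
      exact_mod_cast this
    obtain ⟨b1, b2⟩ := h1 s (by omega) g
    have b3 := h3 s (by omega) Γ ρ _ hmet hharn g (C₁ / s) b1
    have b4 := inv_avg_ge (by omega) hmet hharn g (div_pos hC₁ hs0).le b2
    have p1 := Matrix.nonneg_iff_posSemidef.2 (hmet.pos _ (orbit_mem g)).posSemidef
    have p2 := Matrix.nonneg_iff_posSemidef.2 (hmet.pos _ (orbit_mem g)).inv.posSemidef
    have e : (C₁ + C₂ + C₃ + C₄) / (s : ℝ) = C₁ / s + C₂ / s + C₃ / s + C₄ / s := by ring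
    have q1 := div_pos hC₁ hs0
    have q2 := div_pos hC₂ hs0
    have q3 := div_pos hC₃ hs0
    have q4 := div_pos hC₄ hs0
    rw [e]
    refine ⟨(rs_mono_left p1 (by linarith)).trans b1, b2.trans (rs_mono_left p1 (by linarith)),
      (rs_mono_left p2 (by linarith)).trans b4, b3.trans (rs_mono_left p2 (by linarith))⟩
  · have hs0 : (0 : ℝ) < s := by
      have : 0 < s := by omega
      exact_mod_cast this
    obtain ⟨b1, b2⟩ := h4 s (by omega) _ hmet.pos hmet.cont hharn g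
    refine ⟨b1, b2.trans ?_⟩
    exact div_le_div_of_nonneg_right (by linarith) hs0.le

end Pool.Agent.Lib.MP_5d4057_al.NU
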