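import Pool.Agent.Lib.MP_5d4057_al.HM.RegC

/-! The averages of a Lipschitz metric converge with two derivatives (A17a; no condition on the
growth of the derivatives). -/

namespace Pool.Agent.Lib.MP_5d4057_al.NU

open Matrix MeasureTheory Filter Topology Pool.Agent.Lib.MP_5d4057_al
  Pool.Agent.Lib.MP_5d4057_al.Hyb Pool.Agent.Lib.MP_5d4057_al.HM
  Pool.Agent.Lib.MP_5d4057_al.HM.Gr

open scoped ComplexOrder MatrixOrder Matrix.Norms.L2Operator

variable {n m : ℕ}

/-- Local convergence with two derivatives. -/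
theorem reg_conv (hn : 1 ≤ n) {N : ℕ} {C : ℝ} {F : Vec n → Mat m} (hF : LipMet n m N C F) :
    ContDiffOn ℝ 2 F (Cone n) ∧ (∀ v ∈ Cone n, Lap F v = en F v) ∧
    TendstoLocallyUniformlyOn (fun s => P s F) F atTop (Cone n) ∧
    TendstoLocallyUniformlyOn (fun s => fderiv ℝ (P s F)) (fderiv ℝ F) atTop (Cone n) ∧
    TendstoLocallyUniformlyOn (fun s => fderiv ℝ (fderiv ℝ (P s F))) (fderiv ℝ (fderiv ℝ F))
      atTop (Cone n) := by
  have hC1 := reg_one hn hF
  obtain ⟨Φ, δ, hδ, hΦ1, hΦ⟩ := moll_seq n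
  have hent : ∀ v ∈ Cone n, Tendsto (fun j => en (lav (Φ j) F) v) atTop (𝓝 (en F v)) :=
    fun v hv => en_tendsto hF.hom hC1 hF.pos hδ hΦ hv
  have hencont : ContinuousOn (en F) (Cone n) := Ax.continuousOn_en_of hC1 hF.pos
  have henh : Homog (en F) := homog_en hF.hom hC1
  obtain ⟨N₁, C₁, hL⟩ := lip_bound hF
  have hen : Adm N₁ C₁ (en F) := by
    refine ⟨(hencont.comp_continuous continuous_orbit orbit_mem).aestronglyMeasurable, fun g => ?_⟩
    exact le_of_tendsto (hent _ (orbit_mem g)).norm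
      (Eventually.of_forall fun j => (hL (Φ j) (hΦ1 j) g).2.2)
  have t0 : TendstoLocallyUniformlyOn (fun s => P s F) F atTop (Cone n) :=
    tlu_P hF.adm hF.hom hF.cont
  have hlim : ∀ v ∈ Cone n, Tendsto (fun s => P s F v) atTop (𝓝 (F v)) := fun v hv =>
    t0.tendsto_at hv
  obtain ⟨s₁, h1⟩ := lav_step (E := Mat m) hn N
  have hstep : ∀ᶠ s : ℕ in atTop, ∀ v ∈ Cone n,
      P s F v - P (s + 1) F v = (lam n s)⁻¹ • P s (en F) v := by
    filter_upwards [lav_lim hF.adm hF.hom hF.cont hδ hΦ1 hΦ,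
      (eventually_ge_atTop 0).and ((tendsto_add_atTop_nat 1).eventually
        (lav_lim hF.adm hF.hom hF.cont hδ hΦ1 hΦ)),
      lav_lim hen henh hencont hδ hΦ1 hΦ, eventually_ge_atTop s₁] with s hs1 hs2 hs3 hs4 v hv
    have t1 := (hs1 v hv).sub (hs2.2 v hv)
    have t2 := (hs3 v hv).const_smul (lam n s)⁻¹
    refine tendsto_nhds_unique t1 (t2.congr fun j => ?_)
    rw [h1 s hs4 C F hF.hom hF.adm (Φ j) (hΦ1 j).test v hv]
    congr 1
    refine P_congr s (fun x hx => ?_) v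
    exact (lap_eq_lav hn hF hen hδ hΦ (fun g => hent _ (orbit_mem g)) (hΦ1 j).test hx).symm
  have hS : Step (max N N₁) (max C C₁) F (en F) :=
    ⟨Ax.adm_mono hF.adm (le_max_left _ _) (le_max_left _ _),
      Ax.adm_mono hen (le_max_right _ _) (le_max_right _ _), hlim, hstep⟩
  obtain ⟨-, -, hLH⟩ := core_holder hS
  obtain ⟨c1, c2, c3⟩ := core_two hS henh (lh_en hC1 hF.pos hLH)
  exact ⟨c1, (reg_two hn hF).2, t0, c2, c3⟩

end Pool.Agent.Lib.MP_5d4057_al.NU
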