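import Pool.Agent.Lib.MP_5d4057_al.NU.DivN
import Pool.Agent.Lib.MP_5d4057_al.NU.RegN

/-! The Bochner identity with a cut-off function. -/

namespace Pool.Agent.Lib.MP_5d4057_al.NU

open Matrix MeasureTheory Filter Topology Pool.Agent.Lib.MP_5d4057_al
  Pool.Agent.Lib.MP_5d4057_al.Hyb Pool.Agent.Lib.MP_5d4057_al.HM

open scoped ComplexOrder MatrixOrder Matrix.Norms.L2Operator ENNReal

set_option maxSynthPendingDepth 3

variable {n m : ℕ}

variable {Γ : Subgroup (SUGroup n)} {χ : SUGroup n → ℝ}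

/-! ### the form `Y` in the moving frame -/

noncomputable def jthb (p : Jet n m) (i : Fin (n + 1)) : Mat m :=
  (1 / 2 : ℂ) • (p.1⁻¹ * jzb p.2.1 (p.2.2.2 i))

noncomputable def jY (p : Jet n m) (j : Fin n) : ℂ :=
  ∑ i : Fin n, (jtau p i.castSucc j.castSucc * jthb p i.castSucc).trace -
    ((∑ i : Fin n, jtau p i.castSucc i.castSucc) * jthb p j.castSucc).trace

theorem jthb_cont (i : Fin (n + 1)) :
    ContinuousOn (fun p : Jet n m => jthb p i) (jS n m) := by
  unfold jthb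
  exact ((jinv_cont (n := n) (m := m)).mul
    (jzb_cont (n := n) (m := m) i).continuousOn).const_smul (1 / 2 : ℂ)

theorem jY_cont (j : Fin n) : ContinuousOn (fun p : Jet n m => jY p j) (jS n m) := by
  have ht : Continuous (fun A : Mat m => A.trace) := continuous_id.matrix_trace
  unfold jY
  refine (continuousOn_finsetSum _ fun i _ => ?_).sub ?_
  · exact ht.comp_continuousOn ((jtau_cont _ _).mul (jthb_cont _))
  · exact ht.comp_continuousOn ((continuousOn_finsetSum _ fun i _ =>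
      jtau_cont _ _).mul (jthb_cont _))

theorem J_castSucc (j : Fin n) : J n j.castSucc j.castSucc = 1 := by
  rw [J, diagonal_apply_eq, if_neg (Fin.castSucc_lt_last j).ne]

theorem tauT_frame {F : Vec n → Mat m} (hF : Homog F) (hF2 : ContDiffOn ℝ 2 F (Cone n))
    (g : SUGroup n) : tauT F (act g (base n)) = ∑ i : Fin n, tau F (act g (base n))
      (act g (Pi.single i.castSucc 1)) (act g (Pi.single i.castSucc 1)) := by
  have hv := orbit_mem g
  have h1 := (bc_sesq_tau hF2 hv).sum_J g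
  rw [tauT, ← h1, q_orbit, Fin.sum_univ_castSucc]
  have e : (-((-1 : ℝ) : ℂ)) = 1 := by push_cast; ring
  have h5 : (Pi.single (Fin.last n) 1 : Vec n) = base n := rfl
  rw [e, one_smul, h5, (tau_self hF hv hF2 (act g (base n))).1, smul_zero, add_zero]
  exact Finset.sum_congr rfl fun i _ => by rw [J_castSucc, one_smul]

theorem Yf_frame {F : Vec n → Mat m} (hF : Homog F) (hF2 : ContDiffOn ℝ 2 F (Cone n))
    (g : SUGroup n) (η : Vec n) : Yf F (act g (base n)) η =
      ∑ i : Fin n, (tau F (act g (base n)) (act g (Pi.single i.castSucc 1)) η *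
        thb F (act g (base n)) (act g (Pi.single i.castSucc 1))).trace -
      (tauT F (act g (base n)) * thb F (act g (base n)) η).trace := by
  have hv := orbit_mem g
  have hB := bc_sesq_tr hF2 hv η
  have h1 := sum_J_sesq (fun ξ ξ' => (tau F (act g (base n)) ξ η *
    thb F (act g (base n)) ξ').trace) hB.add₁ hB.add₂ hB.smul₁ hB.smul₂ g (by
      rw [(tau_self hF hv hF2 (act g (base n))).2.2.2, Matrix.mul_zero, trace_zero])
  rw [Yf, h1, q_orbit]
  have e : (-((-1 : ℝ) : ℂ)) = 1 := by push_cast; ring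
  rw [e, one_mul]

theorem jY_jet {F : Vec n → Mat m} (hF : Homog F) (hF2 : ContDiffOn ℝ 2 F (Cone n))
    (g : SUGroup n) (j : Fin n) :
    jY (jet F g) j = Yf F (act g (base n)) (act g (Pi.single j.castSucc 1)) := by
  rw [Yf_frame hF hF2, tauT_frame hF hF2, jY]
  simp only [jtau_jet hF2]
  rfl

/-! ### the error term -/

/-- the square of the cut-off as a complex valued function -/
noncomputable def phs (φ : Vec n → ℝ) (v : Vec n) : ℂ := ((φ v ^ 2 : ℝ) : ℂ)

/-- the error term in the moving frame -/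
noncomputable def Er (φ : Vec n → ℝ) (F : Vec n → Mat m) (g : SUGroup n) : ℂ :=
  ∑ j : Fin n, dzc (phs φ) (act g (base n)) (act g (Pi.single j.castSucc 1)) *
    Yf F (act g (base n)) (act g (Pi.single j.castSucc 1))

theorem dzc_mul {f g : Vec n → ℂ} {v : Vec n} (hf : DifferentiableAt ℝ f v)
    (hg : DifferentiableAt ℝ g v) (ξ : Vec n) :
    dzc (fun w => f w * g w) v ξ = dzc f v ξ * g v + f v * dzc g v ξ := by
  have h : fderiv ℝ (fun w => f w * g w) v = f v • fderiv ℝ g v + g v • fderiv ℝ f v :=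
    fderiv_fun_mul hf hg
  rw [dzc, dzc, dzc, h]
  simp only [_root_.add_apply, _root_.smul_apply, smul_eq_mul]
  ring

theorem phs_cd {φ : Vec n → ℝ} (hφ : ContDiffOn ℝ (⊤ : ℕ∞) φ (Cone n)) :
    ContDiffOn ℝ (⊤ : ℕ∞) (phs φ) (Cone n) :=
  Complex.ofRealCLM.contDiff.comp_contDiffOn (hφ.pow 2)

/-- the real part of the divergence of `φ² Y` -/
theorem div_cut {φ : Vec n → ℝ} (hφ : ContDiffOn ℝ (⊤ : ℕ∞) φ (Cone n)) {F : Vec n → Mat m}
    (hF : Homog F) (hF3 : ContDiffOn ℝ 3 F (Cone n)) (hp : ∀ v ∈ Cone n, (F v).PosDef)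
    (g : SUGroup n) :
    (∑ c : Fin (n + 1), J n c c * dzc (fun w => phs φ w * Yf F w (Pi.single c 1))
      (act g (base n)) (Pi.single c 1)).re =
    (Er φ F g).re + φ (act g (base n)) ^ 2 * (bochL F g -
      nF (F (act g (base n))) (tauT F (act g (base n)))) := by
  have hv := orbit_mem g
  have hF2 : ContDiffOn ℝ 2 F (Cone n) := hF3.of_le (by norm_num)
  have d1 : DifferentiableAt ℝ (phs φ) (act g (base n)) :=
    ((phs_cd hφ).contDiffAt ((isOpen_cone n).mem_nhds hv)).differentiableAt (by norm_num)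
  have d2 : ∀ a, DifferentiableAt ℝ (fun w => Yf F w a) (act g (base n)) := fun a =>
    ((bc_cd_Yf hF3 (fun v hv => (hp v hv).isUnit) a).contDiffAt
      ((isOpen_cone n).mem_nhds hv)).differentiableAt (by norm_num)
  have h1 := sum_J_sesq (fun ξ ξ' => dzc (phs φ) (act g (base n)) ξ *
      Yf F (act g (base n)) ξ')
    (fun a b c => by rw [bc_dzc_add]; ring) (fun a b c => by rw [bc_Yf_add]; ring)
    (fun r a c => by rw [bc_dzc_smul]; ring) (fun r a c => by rw [bc_Yf_smul]; ring) g (by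
      rw [bc_Yf_zero hF hF2 hv, mul_zero])
  have h2 : ∑ c : Fin (n + 1), J n c c * dzc (fun w => phs φ w * Yf F w (Pi.single c 1))
      (act g (base n)) (Pi.single c 1) = Er φ F g + phs φ (act g (base n)) *
      ∑ c : Fin (n + 1), J n c c * dzc (fun w => Yf F w (Pi.single c 1))
        (act g (base n)) (Pi.single c 1) := by
    rw [Er, ← h1, Finset.mul_sum, ← Finset.sum_add_distrib]
    refine Finset.sum_congr rfl fun c _ => ?_
    rw [dzc_mul d1 (d2 _)]
    ring
  rw [h2, Complex.add_re, phs, Complex.re_ofReal_mul, boch_frame hF hF3 hp g]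
  ring

/-! ### integration -/

theorem phs_inv {φ : Vec n → ℝ} {γ : SUGroup n} (hi : ∀ v ∈ Cone n, φ (act γ v) = φ v)
    (hφ : ContDiffOn ℝ (⊤ : ℕ∞) φ (Cone n)) {v : Vec n} (hv : v ∈ Cone n) (ξ : Vec n) :
    dzc (phs φ) (act γ v) (act γ ξ) = dzc (phs φ) v ξ := by
  have hd : ∀ w ∈ Cone n, DifferentiableAt ℝ (phs φ) w := fun w hw =>
    ((phs_cd hφ).contDiffAt ((isOpen_cone n).mem_nhds hw)).differentiableAt (by norm_num)
  have h1 : HasFDerivAt (fun w => phs φ (actL γ w)) ((fderiv ℝ (phs φ) (actL γ v)).comp (actL γ))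
      v := (hd _ (act_mem γ hv)).hasFDerivAt.comp v (actL γ).hasFDerivAt
  have h2 : (fun w => phs φ (actL γ w)) =ᶠ[𝓝 v] phs φ := by
    filter_upwards [cone_nhds hv] with w hw
    show ((φ (act γ w) ^ 2 : ℝ) : ℂ) = ((φ w ^ 2 : ℝ) : ℂ)
    rw [hi w hw]
  have h3 : fderiv ℝ (phs φ) v = (fderiv ℝ (phs φ) (actL γ v)).comp (actL γ) :=
    (h1.congr_of_eventuallyEq h2.symm).fderiv
  have h4 : ∀ ζ, fderiv ℝ (phs φ) v ζ = fderiv ℝ (phs φ) (act γ v) (act γ ζ) := by
    intro ζ
    rw [h3]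
    rfl
  rw [dzc, dzc, h4, h4, act_smul]

theorem Er_inv {φ : Vec n → ℝ} (hφ : ContDiffOn ℝ (⊤ : ℕ∞) φ (Cone n))
    (hi : ∀ γ ∈ Γ, ∀ v ∈ Cone n, φ (act γ v) = φ v) {ρ : Γ →* Mat m} {F : Vec n → Mat m}
    (hF : Met ρ F) (hF2 : ContDiffOn ℝ 2 F (Cone n)) (γ : SUGroup n) (hγ : γ ∈ Γ)
    (g : SUGroup n) : Er φ F (γ * g) = Er φ F g := by
  rw [Er, Er]
  refine Finset.sum_congr rfl fun j _ => ?_
  rw [act_mul, act_mul, phs_inv (hi γ hγ) hφ (orbit_mem g)]
  congr 1
  exact (tr_act hF.equi ⟨γ, hγ⟩).Yf (tj_act γ) hF2 (orbit_mem g) _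

theorem dphs_cont {φ : Vec n → ℝ} (hφ : ContDiffOn ℝ (⊤ : ℕ∞) φ (Cone n)) (a : Vec n) :
    Continuous fun g : SUGroup n => dzc (phs φ) (act g (base n)) (act g a) := by
  have h1 : ContinuousOn (fderiv ℝ (phs φ)) (Cone n) :=
    (phs_cd hφ).continuousOn_fderiv_of_isOpen (isOpen_cone n) (by norm_num)
  have h2 : Continuous fun g : SUGroup n => fderiv ℝ (phs φ) (act g (base n)) :=
    continuous_orb h1
  unfold dzc
  exact continuous_const.mul ((h2.clm_apply (continuous_actv a)).sub (continuous_const.mul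
    (h2.clm_apply ((continuous_actv a).const_smul Complex.I))))

theorem Er_eq {φ : Vec n → ℝ} {F : Vec n → Mat m} (hF : Homog F)
    (hF2 : ContDiffOn ℝ 2 F (Cone n)) (g : SUGroup n) :
    Er φ F g = ∑ j : Fin n, dzc (phs φ) (act g (base n)) (act g (Pi.single j.castSucc 1)) *
      jY (jet F g) j := by
  rw [Er]
  exact Finset.sum_congr rfl fun j _ => by rw [jY_jet hF hF2]

theorem Er_cont {φ : Vec n → ℝ} (hφ : ContDiffOn ℝ (⊤ : ℕ∞) φ (Cone n)) {F : Vec n → Mat m}
    (hF : Homog F) (hF2 : ContDiffOn ℝ 2 F (Cone n)) (hp : ∀ v ∈ Cone n, (F v).PosDef) :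
    Continuous (Er φ F) := by
  have h1 : Continuous fun g : SUGroup n => ∑ j : Fin n,
      dzc (phs φ) (act g (base n)) (act g (Pi.single j.castSucc 1)) * jY (jet F g) j := by
    refine continuous_finsetSum _ fun j _ => (dphs_cont hφ _).mul ?_
    exact (jY_cont j).comp_continuous (jet_cont hF2) fun g => bc_unit hp (orbit_mem g)
  exact h1.congr fun g => (Er_eq hF hF2 g).symm

section
variable {Q : Set (SUGroup n)} {ε : ℝ} {φ : Vec n → ℝ}

theorem Cf.zero (hφ : Cf Γ Q ε φ) {g : SUGroup n} (h : ¬ ∃ γ ∈ Γ, γ * g ∈ Q) :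
    φ (act g (base n)) = 0 := (hφ.off g h).eq_of_nhds

theorem Cf.off_mul (hφ : Cf Γ Q ε φ) (f : SUGroup n → ℝ) :
    Off Γ Q fun g => φ (act g (base n)) ^ 2 * f g := by
  intro g hg
  by_contra hc
  refine hg ?_
  show φ (act g (base n)) ^ 2 * f g = 0
  rw [hφ.zero hc, zero_pow two_ne_zero, zero_mul]

theorem Cf.phs_off (hφ : Cf Γ Q ε φ) {g : SUGroup n} (h : ¬ ∃ γ ∈ Γ, γ * g ∈ Q) :
    phs φ =ᶠ[𝓝 (act g (base n))] fun _ => 0 := by
  filter_upwards [hφ.off g h] with v hv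
  rw [phs, hv, zero_pow two_ne_zero, Complex.ofReal_zero]

theorem Cf.off_Er (hφ : Cf Γ Q ε φ) (F : Vec n → Mat m) : Off Γ Q (Er φ F) := by
  intro g hg
  by_contra hc
  refine hg (Finset.sum_eq_zero fun j _ => ?_)
  have h1 : fderiv ℝ (phs φ) (act g (base n)) = 0 := by
    rw [(hφ.phs_off hc).fderiv_eq, fderiv_fun_const]
    rfl
  rw [dzc, h1]
  simp

theorem Off.re {f : SUGroup n → ℂ} (h : Off Γ Q f) : Off Γ Q fun g => (f g).re := by
  intro g hg
  refine h g fun h0 => hg ?_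
  show (f g).re = 0
  rw [h0, Complex.zero_re]

theorem Cf.inv' (hφ : Cf Γ Q ε φ) {f : SUGroup n → ℝ} (hf : ∀ γ ∈ Γ, ∀ g, f (γ * g) = f g) :
    ∀ γ ∈ Γ, ∀ g, φ (act (γ * g) (base n)) ^ 2 * f (γ * g) = φ (act g (base n)) ^ 2 * f g := by
  intro γ hγ g
  rw [act_mul, hφ.inv γ hγ _ (orbit_mem g), hf γ hγ]

theorem Cf.cont' (hφ : Cf Γ Q ε φ) {f : SUGroup n → ℝ} (hf : Continuous f) :
    Continuous fun g => φ (act g (base n)) ^ 2 * f g :=
  ((continuous_orb hφ.cd.continuousOn).pow 2).mul hf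

/-- invariance of `nF (F, tauT F)` -/
theorem nFT_inv {ρ : Γ →* Mat m} {F : Vec n → Mat m} (hF : Met ρ F)
    (hF2 : ContDiffOn ℝ 2 F (Cone n)) (γ : SUGroup n) (hγ : γ ∈ Γ) (g : SUGroup n) :
    nF (F (act (γ * g) (base n))) (tauT F (act (γ * g) (base n))) =
      nF (F (act g (base n))) (tauT F (act g (base n))) := by
  have hT := tr_act hF.equi ⟨γ, hγ⟩
  have hv := orbit_mem g
  have r1 := hT.rel _ hv
  have r2 := hT.tauT (tj_act γ) hF2 hv
  simp only [actLC_apply] at r1 r2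
  rw [act_mul, r1, r2, bc_nF_inv hT.unit]

/-- The integrated identity with a cut-off. -/
theorem II_boch_cut (h : Lat Γ χ) (hQ : IsCompact Q) (hφ : Cf Γ Q ε φ) {ρ : Γ →* Mat m}
    {F : Vec n → Mat m} (hF : Met ρ F) (hF3 : ContDiffOn ℝ 3 F (Cone n)) :
    II χ (fun g => φ (act g (base n)) ^ 2 * bochL F g) + II χ (fun g => (Er φ F g).re) =
      II χ fun g => φ (act g (base n)) ^ 2 *
        nF (F (act g (base n))) (tauT F (act g (base n))) := by
  have hF2 : ContDiffOn ℝ 2 F (Cone n) := hF3.of_le (by norm_num)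
  obtain ⟨p1, p2, p3, p4, p5, p6⟩ := bc_Yf_props hF hF3
  obtain ⟨h0, h1⟩ := II_divN_int h hQ (Y := fun v a => phs φ v * Yf F v a)
    (fun v a b => by rw [p1]; ring) (fun v r a => by rw [p2]; ring)
    (fun a => ((phs_cd hφ.cd).of_le (by exact_mod_cast le_top)).mul (p3 a))
    (fun v hv => by rw [p4 v hv, mul_zero])
    (fun c hc v hv a => by rw [p5 c hc v hv a, phs, phs, hφ.hom c hc v hv])
    (fun γ hγ v hv a => by rw [p6 γ hγ v hv a, phs, phs, hφ.inv γ hγ v hv])
    (fun g hg a => by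
      filter_upwards [hφ.phs_off hg] with v hv
      rw [hv, zero_mul])
  -- continuity, invariance, support
  have ci : ∀ f : SUGroup n → ℝ, Continuous f → (∀ γ ∈ Γ, ∀ g, f (γ * g) = f g) →
      Off Γ Q f → Integrable (fun g => χ g • f g) (mu n) := fun f c i o =>
    h.integrable_smul c.aestronglyMeasurable (o.bdd hQ c i)
  have i1 := ci _ (hφ.cont' (bochL_cont hF2 hF.pos))
    (hφ.inv' (fun γ hγ g => bochL_inv hF hF2 γ hγ g)) (hφ.off_mul _)
  have i2 : Integrable (fun g => χ g • (Er φ F g).re) (mu n) :=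
    ci _ (Complex.continuous_re.comp (Er_cont hφ.cd hF.hom hF2 hF.pos))
    (fun γ hγ g => congrArg Complex.re (Er_inv hφ.cd hφ.inv hF hF2 γ hγ g)) (hφ.off_Er F).re
  have i3 := ci _ (hφ.cont' (nFT_cont hF2 hF.pos))
    (hφ.inv' (f := fun g => nF (F (act g (base n))) (tauT F (act g (base n))))
      (fun γ hγ g => nFT_inv hF hF2 γ hγ g)) (hφ.off_mul _)
  set D : SUGroup n → ℂ := fun g => ∑ c : Fin (n + 1), J n c c *
      dzc (fun w => phs φ w * Yf F w (Pi.single c 1)) (act g (base n)) (Pi.single c 1) with hD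
  have e1 : Integrable (fun g => χ g • D g) (mu n) := h1
  have e : ∀ g, χ g • (D g).re = Complex.reCLM (χ g • D g) := by
    intro g
    rw [Complex.reCLM_apply, Complex.smul_re]
  have i4 : Integrable (fun g => χ g • (D g).re) (mu n) := by
    simp only [e]
    exact Complex.reCLM.integrable_comp e1
  have e2 : II χ (fun g => (D g).re) = 0 := by
    have h2 := Complex.reCLM.integral_comp_comm e1
    have h3 : ∫ g, χ g • D g ∂(mu n) = 0 := h0
    rw [II]
    simp only [e]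
    rw [h2, h3, map_zero]
  have key : ∀ g : SUGroup n, φ (act g (base n)) ^ 2 * bochL F g + (Er φ F g).re =
      (D g).re + φ (act g (base n)) ^ 2 *
        nF (F (act g (base n))) (tauT F (act g (base n))) := by
    intro g
    rw [hD, div_cut hφ.cd hF.hom hF3 hF.pos]
    ring
  rw [← II_add_int i1 i2, II_congr key, II_add_int i4 i3, e2, zero_add]

end

end Pool.Agent.Lib.MP_5d4057_al.NU
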