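import Pool.Agent.Lib.MP_5d4057_al.HM.LevC

/-! Consequences of the critical pair equations for pairs of polynomial growth (A10 of the
blueprint of NU): `pair_ed`, `pair_le`, `pair_mean` of `LevC` with a growth hypothesis in place of
cocompactness. -/

namespace Pool.Agent.Lib.MP_5d4057_al.NU

open Matrix MeasureTheory Filter Topology Pool.Agent.Lib.MP_5d4057_al
  Pool.Agent.Lib.MP_5d4057_al.Hyb Pool.Agent.Lib.MP_5d4057_al.HM

open scoped ComplexOrder MatrixOrder Matrix.Norms.L2Operator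

variable {n m : ℕ}

variable {Γ : Subgroup (SUGroup n)}

/-! ### Linear maps and integrals -/

noncomputable def pnL (C : Mat m) : Mat m →L[ℝ] Mat m :=
  LinearMap.toContinuousLinearMap
    { toFun := fun A => C * A
      map_add' := fun A B => mul_add C A B
      map_smul' := fun c A => by rw [mul_smul_comm, RingHom.id_apply] }

noncomputable def pnR (C : Mat m) : Mat m →L[ℝ] Mat m :=
  LinearMap.toContinuousLinearMap
    { toFun := fun A => A * C
      map_add' := fun A B => add_mul A B C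
      map_smul' := fun c A => by rw [smul_mul_assoc, RingHom.id_apply] }

/-- the functional `A ↦ Re tr (C A)` -/
noncomputable def pnT (C : Mat m) : Mat m →L[ℝ] ℝ :=
  LinearMap.toContinuousLinearMap
    { toFun := fun A => (C * A).trace.re
      map_add' := fun A B => by rw [mul_add, trace_add, Complex.add_re]
      map_smul' := fun c A => by
        rw [mul_smul_comm, trace_smul, RingHom.id_apply, Complex.real_smul, Complex.re_ofReal_mul,
          smul_eq_mul] }

theorem pnL_apply (C A : Mat m) : pnL C A = C * A := rfl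

theorem pnR_apply (C A : Mat m) : pnR C A = A * C := rfl

theorem pnT_apply (C A : Mat m) : pnT C A = (C * A).trace.re := rfl

theorem int_sand {α : Type} [MeasurableSpace α] {ν : Measure α} {A : α → Mat m}
    (hA : Integrable A ν) (C : Mat m) :
    Integrable (fun x => C * A x * C) ν ∧ ∫ x, C * A x * C ∂ν = C * (∫ x, A x ∂ν) * C := by
  have h1 : Integrable (fun x => C * A x) ν := (pnL C).integrable_comp hA
  have h2 : Integrable (fun x => C * A x * C) ν := (pnR C).integrable_comp h1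
  refine ⟨h2, ?_⟩
  have e1 := (pnL C).integral_comp_comm hA
  have e2 := (pnR C).integral_comp_comm h1
  simp only [pnL_apply, pnR_apply] at e1 e2
  rw [e2, e1]

theorem int_tr {α : Type} [MeasurableSpace α] {ν : Measure α} {A : α → Mat m}
    (hA : Integrable A ν) (C : Mat m) :
    Integrable (fun x => (C * A x).trace.re) ν ∧
      ∫ x, (C * A x).trace.re ∂ν = (C * ∫ x, A x ∂ν).trace.re := by
  refine ⟨(pnT C).integrable_comp hA, ?_⟩
  have e := (pnT C).integral_comp_comm hA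
  simp only [pnT_apply] at e
  exact e

/-! ### Growth and integrability -/

theorem adm_nonneg {E : Type} [NormedAddCommGroup E] [NormedSpace ℝ E] {N : ℕ} {C : ℝ}
    {f : Vec n → E} (hf : Adm N C f) : 0 ≤ C := by
  have h := hf.bound 1
  rw [ch_one, one_pow, mul_one] at h
  exact (norm_nonneg _).trans h

theorem int_adm {E : Type} [NormedAddCommGroup E] [NormedSpace ℝ E] {s N : ℕ}
    (hs : n + N < s) {C : ℝ} {f : Vec n → E} (hf : Adm N C f) (g : SUGroup n) :
    Integrable (fun x => kap s x • f (act (g * x) (base n))) (mu n) := by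
  have hC := adm_nonneg hf
  have h1 : Integrable (fun x : SUGroup n => (C * (2 * ch g) ^ (2 * N)) *
      (kap s x * ch x ^ (2 * N))) (mu n) := (integrable_kap_pow hs).const_mul _
  refine h1.mono' ?_ (Eventually.of_forall fun x => ?_)
  · refine ((continuous_kap s).aestronglyMeasurable).smul ?_
    exact hf.meas.comp_quasiMeasurePreserving (quasiMeasurePreserving_mul_left (mu n) g)
  · rw [norm_smul, Real.norm_eq_abs, abs_of_nonneg (kap_nonneg s x)]
    have h2 := hf.bound (g * x)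
    have h3 : ch (g * x) ^ (2 * N) ≤ (2 * ch g * ch x) ^ (2 * N) :=
      pow_le_pow_left₀ (ch_pos _).le (ch_mul_le' g x) _
    have h4 : C * ch (g * x) ^ (2 * N) ≤ C * (2 * ch g * ch x) ^ (2 * N) :=
      mul_le_mul_of_nonneg_left h3 hC
    calc kap s x * ‖f (act (g * x) (base n))‖ ≤ kap s x * (C * (2 * ch g * ch x) ^ (2 * N)) :=
          mul_le_mul_of_nonneg_left (h2.trans h4) (kap_nonneg s x)
      _ = (C * (2 * ch g) ^ (2 * N)) * (kap s x * ch x ^ (2 * N)) := by
          rw [mul_pow]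
          ring

private theorem pn_P_congr {E : Type} [NormedAddCommGroup E] [NormedSpace ℝ E] (s : ℕ)
    {f f' : Vec n → E} (h : ∀ v ∈ Cone n, f v = f' v) (v : Vec n) : P s f v = P s f' v := by
  unfold P
  congr 1
  funext y
  rw [h _ (orbit_mem y)]

private theorem pn_P_smul_left {E : Type} [NormedAddCommGroup E] [NormedSpace ℝ E] (s : ℕ)
    (f : Vec n → E) {c : ℂ} (hc : c ≠ 0) (v : Vec n) : P s f (c • v) = P s f v := by
  unfold P
  congr 1
  funext y
  rw [ker_smul_left s hc]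

private theorem pn_det_unit {A : Mat m} (hA : A.PosDef) : IsUnit A.det :=
  (isUnit_iff_isUnit_det A).1 hA.isUnit

private theorem pn_sand_eq {A X : Mat m} (hA : A.PosDef) :
    (A - X) * A⁻¹ * (A - X) = A - (X + X) + X * A⁻¹ * X := by
  have h1 : A * A⁻¹ = 1 := mul_nonsing_inv A (pn_det_unit hA)
  have h2 : A⁻¹ * A = 1 := nonsing_inv_mul A (pn_det_unit hA)
  calc (A - X) * A⁻¹ * (A - X) = (A * A⁻¹) * A - (A * A⁻¹) * X - X * (A⁻¹ * A) + X * A⁻¹ * X := by
        noncomm_ring
    _ = A - (X + X) + X * A⁻¹ * X := by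
        rw [h1, h2]
        noncomm_ring

/-- the integral of the quadratic expression -/
theorem quad_int {s N : ℕ} (hs : n + N < s) {C C' : ℝ} {H : Vec n → Mat m}
    (hH : Adm N C H) (hH' : Adm N C' (fun v => (H v)⁻¹)) (hp : ∀ v ∈ Cone n, (H v).PosDef)
    (X : Mat m) (g : SUGroup n) :
    Integrable (fun x => kap s x • ((H (act (g * x) (base n)) - X) *
      (H (act (g * x) (base n)))⁻¹ * (H (act (g * x) (base n)) - X))) (mu n) ∧
    ∫ x, kap s x • ((H (act (g * x) (base n)) - X) * (H (act (g * x) (base n)))⁻¹ *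
      (H (act (g * x) (base n)) - X)) ∂(mu n) =
      P s H (act g (base n)) - (X + X) + X * P s (fun w => (H w)⁻¹) (act g (base n)) * X := by
  have i1 := int_adm hs hH g
  have i2 := int_adm hs hH' g
  have i3 : Integrable (fun x : SUGroup n => kap s x • (X + X)) (mu n) :=
    (integrable_kap (by omega)).smul_const _
  obtain ⟨i4, e4⟩ := int_sand i2 X
  have e : ∀ x, kap s x • ((H (act (g * x) (base n)) - X) *
      (H (act (g * x) (base n)))⁻¹ * (H (act (g * x) (base n)) - X)) =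
      kap s x • H (act (g * x) (base n)) - kap s x • (X + X) +
        X * (kap s x • (H (act (g * x) (base n)))⁻¹) * X := by
    intro x
    rw [pn_sand_eq (hp _ (orbit_mem _)), smul_add, smul_sub, mul_smul_comm, smul_mul_assoc]
  simp_rw [e]
  have i13 : Integrable (fun x => kap s x • H (act (g * x) (base n)) - kap s x • (X + X)) (mu n) :=
    i1.sub i3
  refine ⟨i13.add i4, ?_⟩
  rw [integral_add i13 i4, integral_sub i1 i3, e4, P_orbit, P_orbit,
    integral_smul_const, integral_kap (by omega), one_smul]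

/-! ### Pairs -/

/-- The identities (ED) of blueprint C5. -/
theorem pair_edN {ρ : Γ →* Mat m} {s N : ℕ} (hs : n + N < s) {C C' : ℝ} {H L : Vec n → Mat m}
    (h : Pair ρ s H L) (hC1 : Adm N C H) (hC2 : Adm N C' (fun v => (H v)⁻¹)) (g : SUGroup n) :
      P s H (act g (base n)) - L (act g (base n)) =
        (1 / 2 : ℝ) • ∫ x, kap s x • ((H (act (g * x) (base n)) - L (act g (base n))) *
          (H (act (g * x) (base n)))⁻¹ * (H (act (g * x) (base n)) - L (act g (base n)))) ∂(mu n) := by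
  obtain ⟨-, e⟩ := quad_int hs hC1 hC2 h.metH.pos (L (act g (base n))) g
  rw [e, h.el1 _ (orbit_mem g)]
  have e2 : P s H (act g (base n)) - (L (act g (base n)) + L (act g (base n))) +
      P s H (act g (base n)) = (2 : ℝ) • (P s H (act g (base n)) - L (act g (base n))) := by
    rw [two_smul]
    abel
  rw [e2, smul_smul]
  norm_num

private theorem pn_sand_psd {A X : Mat m} (hA : A.PosDef) (hX : X.IsHermitian) :
    (0 : Mat m) ≤ (A - X) * A⁻¹ * (A - X) := by
  have h1 : (A - X)ᴴ = A - X := by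
    rw [conjTranspose_sub, hA.1.eq, hX.eq]
  have h2 := hA.inv.posSemidef.conjTranspose_mul_mul_same (A - X)
  rw [h1] at h2
  exact Matrix.nonneg_iff_posSemidef.2 h2

theorem int_nonneg_mat {α : Type} [MeasurableSpace α] {ν : Measure α} {A : α → Mat m}
    (hA : Integrable A ν) (h : ∀ x, 0 ≤ A x) : 0 ≤ ∫ x, A x ∂ν := by
  have h1 := integral_mono_mat (A := fun _ : α => (0 : Mat m)) (integrable_zero α (Mat m) ν) hA
    (Eventually.of_forall h)
  rwa [integral_zero] at h1

theorem smul_nonneg_mat {A : Mat m} {c : ℝ} (hc : 0 ≤ c) (h : 0 ≤ A) : 0 ≤ c • A :=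
  Matrix.nonneg_iff_posSemidef.2 ((Matrix.nonneg_iff_posSemidef.1 h).smul hc)

/-- `L ≤ P s H` -/
theorem pair_le_one {ρ : Γ →* Mat m} {s N : ℕ} (hs : n + N < s) {C C' : ℝ} {H L : Vec n → Mat m}
    (h : Pair ρ s H L) (hC1 : Adm N C H) (hC2 : Adm N C' (fun v => (H v)⁻¹)) :
    ∀ v ∈ Cone n, L v ≤ P s H v := by
  intro v hv
  obtain ⟨g, c, hc, rfl⟩ := exists_act_eq hv
  rw [pn_P_smul_left s H hc, h.metL.hom c hc _ (orbit_mem g)]
  have e := pair_edN hs h hC1 hC2 g
  obtain ⟨i, -⟩ := quad_int hs hC1 hC2 h.metH.pos (L (act g (base n))) g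
  rw [← sub_nonneg, e]
  refine smul_nonneg_mat (by norm_num) (int_nonneg_mat i fun x => ?_)
  exact smul_nonneg_mat (kap_nonneg s x)
    (pn_sand_psd (h.metH.pos _ (orbit_mem _)) (h.metL.pos _ (orbit_mem _)).1)

theorem adm_inv_inv {N : ℕ} {C : ℝ} {H : Vec n → Mat m} (hp : ∀ v ∈ Cone n, (H v).PosDef)
    (h : Adm N C H) : Adm N C (fun v => ((fun w => (H w)⁻¹) v)⁻¹) := by
  have e : ∀ g : SUGroup n, ((H (act g (base n)))⁻¹)⁻¹ = H (act g (base n)) := fun g =>
    nonsing_inv_nonsing_inv _ (pn_det_unit (hp _ (orbit_mem g)))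
  refine ⟨?_, fun g => ?_⟩
  · have h1 := h.meas
    refine h1.congr (Eventually.of_forall fun g => ?_)
    exact (e g).symm
  · show ‖((H (act g (base n)))⁻¹)⁻¹‖ ≤ _
    rw [e]
    exact h.bound g

/-- Consequences: `L ≤ P s H`, `L⁻¹ ≤ P s (H⁻¹)` and the symmetric inequalities. -/
theorem pair_leN {ρ : Γ →* Mat m} {s N : ℕ} (hs : n + N < s) {H L : Vec n → Mat m}
    (h : Pair ρ s H L) (ha : ∃ C : ℝ, Adm N C H ∧ Adm N C L ∧ Adm N C (fun v => (H v)⁻¹) ∧
      Adm N C (fun v => (L v)⁻¹)) : ∀ v ∈ Cone n,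
      L v ≤ P s H v ∧ H v ≤ P s L v ∧ (L v)⁻¹ ≤ P s (fun w => (H w)⁻¹) v ∧
        (H v)⁻¹ ≤ P s (fun w => (L w)⁻¹) v := by
  obtain ⟨C, a1, a2, a3, a4⟩ := ha
  intro v hv
  exact ⟨pair_le_one hs h a1 a3 v hv, pair_le_one hs h.symm a2 a4 v hv,
    pair_le_one hs h.inv a3 (adm_inv_inv h.metH.pos a1) v hv,
    pair_le_one hs h.symm.inv a4 (adm_inv_inv h.metL.pos a2) v hv⟩

private theorem pn_half_real (A : Mat m) : (1 / 2 : ℂ) • A = (1 / 2 : ℝ) • A := by
  ext i j
  simp [Matrix.smul_apply]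

/-- joint convexity for two points -/
private theorem pn_joint_two {X₁ X₂ Y₁ Y₂ : Mat m} (h₁ : Y₁.PosDef) (h₂ : Y₂.PosDef)
    (hX₁ : X₁.IsHermitian) (hX₂ : X₂.IsHermitian) :
    ((1 / 2 : ℝ) • (X₁ + X₂)) * ((1 / 2 : ℝ) • (Y₁ + Y₂))⁻¹ * ((1 / 2 : ℝ) • (X₁ + X₂)) ≤
      (1 / 2 : ℝ) • (X₁ * Y₁⁻¹ * X₁ + X₂ * Y₂⁻¹ * X₂) := by
  set X : Mat m := (1 / 2 : ℝ) • (X₁ + X₂) with hX
  set Y : Mat m := (1 / 2 : ℝ) • (Y₁ + Y₂) with hY
  have hYp : Y.PosDef := by
    rw [hY]
    exact (h₁.add h₂).smul (by norm_num)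
  have hXh : Xᴴ = X := by
    rw [hX, conjTranspose_smul, conjTranspose_add, hX₁.eq, hX₂.eq, star_trivial]
  have hY1 : Y * Y⁻¹ = 1 := mul_nonsing_inv _ (pn_det_unit hYp)
  have hYh : (Y⁻¹)ᴴ = Y⁻¹ := hYp.inv.1.eq
  set B : Mat m := Y⁻¹ * X with hB
  have hBh : Bᴴ = X * Y⁻¹ := by rw [hB, conjTranspose_mul, hXh, hYh]
  have e1 : X * Y⁻¹ * X = X * B + Bᴴ * X - Bᴴ * Y * B := by
    rw [hBh, hB]
    calc X * Y⁻¹ * X = X * (Y⁻¹ * X) + X * Y⁻¹ * X - X * Y⁻¹ * X := by noncomm_ring
      _ = X * (Y⁻¹ * X) + X * Y⁻¹ * X - X * (Y⁻¹ * (Y * Y⁻¹)) * X := by rw [hY1, mul_one]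
      _ = _ := by noncomm_ring
  have d1 := duality h₁ X₁ B
  have d2 := duality h₂ X₂ B
  rw [hX₁.eq] at d1
  rw [hX₂.eq] at d2
  have e2 : X * B + Bᴴ * X - Bᴴ * Y * B = (1 / 2 : ℝ) •
      ((X₁ * B + Bᴴ * X₁ - Bᴴ * Y₁ * B) + (X₂ * B + Bᴴ * X₂ - Bᴴ * Y₂ * B)) := by
    rw [hX, hY]
    simp only [smul_mul_assoc, mul_smul_comm, add_mul, mul_add, smul_add, smul_sub]
    abel
  rw [e1, e2, ← sub_nonneg, ← smul_sub]
  exact smul_nonneg_mat (by norm_num) (sub_nonneg.2 (add_le_add d1 d2))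

theorem met_mean {ρ : Γ →* Mat m} {H L : Vec n → Mat m} (hH : Met ρ H) (hL : Met ρ L) :
    Met ρ (fun v => (1 / 2 : ℂ) • (H v + L v)) where
  hom := fun c hc v hv => by
    show (1 / 2 : ℂ) • (H (c • v) + L (c • v)) = _
    rw [hH.hom c hc v hv, hL.hom c hc v hv]
  cont := (hH.cont.add hL.cont).const_smul (1 / 2 : ℂ)
  pos := fun v hv => by
    show ((1 / 2 : ℂ) • (H v + L v)).PosDef
    rw [pn_half_real]
    exact ((hH.pos v hv).add (hL.pos v hv)).smul (by norm_num)
  equi := fun γ v hv => by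
    show (1 / 2 : ℂ) • (H (act (γ : SUGroup n) v) + L (act (γ : SUGroup n) v)) = _
    rw [hH.equi γ v hv, hL.equi γ v hv, mul_smul_comm, smul_mul_assoc, mul_add, add_mul]

private theorem pn_pull (k : ℝ) (A B C : Mat m) : A * (k • B) * C = k • (A * B * C) := by
  rw [mul_smul_comm, smul_mul_assoc]

theorem pn_norm_mono {A B : Mat m} (hA : 0 ≤ A) (hAB : A ≤ B) : ‖A‖ ≤ ‖B‖ :=
  CStarAlgebra.norm_le_norm_of_nonneg_of_le (ha := hA) hAB

/-- growth of the mean and of its inverse -/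
theorem adm_mean {ρ : Γ →* Mat m} {N : ℕ} {C : ℝ} {H L : Vec n → Mat m} (hH : Met ρ H)
    (hL : Met ρ L) (a1 : Adm N C H) (a2 : Adm N C L) (a3 : Adm N C (fun v => (H v)⁻¹)) :
    Adm N C (fun v => (1 / 2 : ℂ) • (H v + L v)) ∧
      Adm N (2 * C) (fun v => ((1 / 2 : ℂ) • (H v + L v))⁻¹) := by
  have hM := met_mean hH hL
  constructor
  · refine ⟨(hM.cont.comp_continuous continuous_orbit fun g => orbit_mem g).aestronglyMeasurable,
      fun g => ?_⟩
    show ‖(1 / 2 : ℂ) • (H (act g (base n)) + L (act g (base n)))‖ ≤ _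
    rw [pn_half_real, norm_smul, Real.norm_eq_abs, abs_of_nonneg (by norm_num : (0 : ℝ) ≤ 1 / 2)]
    have h1 := a1.bound g
    have h2 := a2.bound g
    have h3 := norm_add_le (H (act g (base n))) (L (act g (base n)))
    linarith
  · refine ⟨((met_inv hM).cont.comp_continuous continuous_orbit
      fun g => orbit_mem g).aestronglyMeasurable, fun g => ?_⟩
    have pH := hH.pos _ (orbit_mem g)
    have pL := hL.pos _ (orbit_mem g)
    have pM := hM.pos _ (orbit_mem g)
    have h1 : (1 / 2 : ℝ) • H (act g (base n)) ≤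
        (1 / 2 : ℂ) • (H (act g (base n)) + L (act g (base n))) := by
      rw [pn_half_real, smul_add, ← sub_nonneg, add_sub_cancel_left]
      exact smul_nonneg_mat (by norm_num) (Matrix.nonneg_iff_posSemidef.2 pL.posSemidef)
    have h2 := inv_le_inv_of_le (pH.smul (by norm_num : (0 : ℝ) < 1 / 2)) h1
    have h3 : ((1 / 2 : ℝ) • H (act g (base n)))⁻¹ = (2 : ℝ) • (H (act g (base n)))⁻¹ := by
      refine Matrix.inv_eq_right_inv ?_
      rw [Matrix.smul_mul, Matrix.mul_smul, smul_smul, mul_nonsing_inv _ (pn_det_unit pH)]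
      norm_num
    rw [h3] at h2
    have h4 := pn_norm_mono (Matrix.nonneg_iff_posSemidef.2 pM.inv.posSemidef) h2
    show ‖((1 / 2 : ℂ) • (H (act g (base n)) + L (act g (base n))))⁻¹‖ ≤ _
    refine h4.trans ?_
    rw [norm_smul, Real.norm_eq_abs, abs_of_nonneg (by norm_num : (0 : ℝ) ≤ 2)]
    have h5 : ‖(H (act g (base n)))⁻¹‖ ≤ C * ch g ^ (2 * N) := a3.bound g
    linarith

/-- The inequality for the mean. -/
theorem pair_meanN {ρ : Γ →* Mat m} {s N : ℕ} (hs2 : n + N < s) {H L : Vec n → Mat m}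
    (h : Pair ρ s H L) (ha : ∃ C : ℝ, Adm N C H ∧ Adm N C L ∧ Adm N C (fun v => (H v)⁻¹) ∧
      Adm N C (fun v => (L v)⁻¹)) : ∀ v ∈ Cone n,
      ((1 / 2 : ℂ) • (H v + L v)) * P s (fun w => ((1 / 2 : ℂ) • (H w + L w))⁻¹) v *
          ((1 / 2 : ℂ) • (H v + L v)) ≤
        P s (fun w => (1 / 2 : ℂ) • (H w + L w)) v := by
  obtain ⟨C, hH1, hL1, hH2, hL2⟩ := ha
  intro v hv
  obtain ⟨g, c, hc, rfl⟩ := exists_act_eq hv
  rw [pn_P_smul_left s _ hc, pn_P_smul_left s _ hc, h.metH.hom c hc _ (orbit_mem g),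
    h.metL.hom c hc _ (orbit_mem g)]
  have hM : Met ρ (fun v => (1 / 2 : ℂ) • (H v + L v)) := met_mean h.metH h.metL
  obtain ⟨hC1, hC2⟩ := adm_mean h.metH h.metL hH1 hL1 hH2
  have i1 := int_adm hs2 hH1 g
  have i2 := int_adm hs2 hL1 g
  have i3 := int_adm hs2 hH2 g
  have i4 := int_adm hs2 hL2 g
  have i5 := int_adm hs2 hC2 g
  obtain ⟨j3, e3⟩ := int_sand i3 (L (act g (base n)))
  obtain ⟨j4, e4⟩ := int_sand i4 (H (act g (base n)))
  obtain ⟨j5, e5⟩ := int_sand i5 ((1 / 2 : ℂ) • (H (act g (base n)) + L (act g (base n))))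
  have eP : P s (fun w => (1 / 2 : ℂ) • (H w + L w)) (act g (base n)) =
      (1 / 2 : ℝ) • (P s H (act g (base n)) + P s L (act g (base n))) := by
    rw [P_orbit, P_orbit, P_orbit, ← integral_add i1 i2, ← integral_smul]
    congr 1
    funext x
    show kap s x • ((1 / 2 : ℂ) • (H (act (g * x) (base n)) + L (act (g * x) (base n)))) = _
    rw [pn_half_real, smul_comm, smul_add (kap s x)]
  rw [eP, ← h.el1 _ (orbit_mem g), ← h.el2 _ (orbit_mem g), P_orbit, P_orbit, P_orbit]
  rw [← e3, ← e4, ← e5, ← integral_add j3 j4, ← integral_smul]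
  refine integral_mono_mat j5 ((j3.add j4).smul (1 / 2 : ℝ)) (Eventually.of_forall fun x => ?_)
  have pH := h.metH.pos _ (orbit_mem (g * x))
  have pL := h.metL.pos _ (orbit_mem (g * x))
  have pH0 := h.metH.pos _ (orbit_mem g)
  have pL0 := h.metL.pos _ (orbit_mem g)
  have hj := pn_joint_two pH pL pL0.1 pH0.1
  show ((1 / 2 : ℂ) • (H (act g (base n)) + L (act g (base n)))) *
      (kap s x • ((1 / 2 : ℂ) • (H (act (g * x) (base n)) + L (act (g * x) (base n))))⁻¹) *
      ((1 / 2 : ℂ) • (H (act g (base n)) + L (act g (base n)))) ≤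
    (1 / 2 : ℝ) • (L (act g (base n)) * (kap s x • (H (act (g * x) (base n)))⁻¹) *
      L (act g (base n)) + H (act g (base n)) * (kap s x • (L (act (g * x) (base n)))⁻¹) *
      H (act g (base n)))
  rw [pn_half_real, pn_half_real, pn_pull (kap s x), pn_pull (kap s x) (L (act g (base n))),
    pn_pull (kap s x) (H (act g (base n))), ← smul_add, smul_comm (1 / 2 : ℝ),
    add_comm (H (act g (base n))), ← sub_nonneg, ← smul_sub]
  exact smul_nonneg_mat (kap_nonneg s x) (sub_nonneg.2 hj)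

/-! ### Energy at one point -/

/-- The inner integral of the energy. -/
theorem inner_eqN {s N : ℕ} (hs : n + N < s) {C C' : ℝ} {H L : Vec n → Mat m}
    (hH : Adm N C H) (hH' : Adm N C' (fun v => (H v)⁻¹)) (g : SUGroup n) :
    Integrable (fun x => kap s x * sig (L (act g (base n))) (H (act (g * x) (base n)))) (mu n) ∧
    ∫ x, kap s x * sig (L (act g (base n))) (H (act (g * x) (base n))) ∂(mu n) =
      (((L (act g (base n)))⁻¹ * P s H (act g (base n))).trace +
        (P s (fun w => (H w)⁻¹) (act g (base n)) * L (act g (base n))).trace).re - 2 * m := by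
  obtain ⟨i1, e1⟩ := int_tr (int_adm hs hH g) (L (act g (base n)))⁻¹
  obtain ⟨i2, e2⟩ := int_tr (int_adm hs hH' g) (L (act g (base n)))
  have i3 : Integrable (fun x : SUGroup n => kap s x * (2 * (m : ℝ))) (mu n) :=
    (integrable_kap (by omega)).mul_const _
  have e : ∀ x : SUGroup n, kap s x * sig (L (act g (base n))) (H (act (g * x) (base n))) =
      ((L (act g (base n)))⁻¹ * (kap s x • H (act (g * x) (base n)))).trace.re +
      (L (act g (base n)) * (kap s x • (H (act (g * x) (base n)))⁻¹)).trace.re -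
      kap s x * (2 * (m : ℝ)) := by
    intro x
    unfold sig
    rw [mul_smul_comm, mul_smul_comm, trace_smul, trace_smul, Complex.real_smul,
      Complex.real_smul, Complex.re_ofReal_mul, Complex.re_ofReal_mul, Complex.add_re,
      trace_mul_comm (H (act (g * x) (base n)))⁻¹]
    ring
  simp_rw [e]
  have i12 : Integrable (fun x : SUGroup n =>
      ((L (act g (base n)))⁻¹ * (kap s x • H (act (g * x) (base n)))).trace.re +
      (L (act g (base n)) * (kap s x • (H (act (g * x) (base n)))⁻¹)).trace.re) (mu n) := i1.add i2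
  refine ⟨i12.sub i3, ?_⟩
  rw [integral_sub i12 i3, integral_add i1 i2, e1, e2, ← P_orbit, integral_mul_const,
    integral_kap (by omega), one_mul, Complex.add_re,
    trace_mul_comm (P s (fun w => (H w)⁻¹) (act g (base n)))]
  rw [P_orbit s (fun w => (H w)⁻¹) g]

/-! ### Averages of metrics -/

/-- The map `A ↦ X A X^*`. -/
private noncomputable def pn_conjL (X : Mat m) : Mat m →L[ℝ] Mat m :=
  LinearMap.toContinuousLinearMap
    { toFun := fun A => X * A * Xᴴ
      map_add' := fun A B => by rw [Matrix.mul_add, Matrix.add_mul]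
      map_smul' := fun c A => by rw [Matrix.mul_smul, Matrix.smul_mul, RingHom.id_apply] }

private theorem pn_conjL_apply (X A : Mat m) : pn_conjL X A = X * A * Xᴴ := rfl

/-- Averages of equivariant metrics of polynomial growth; the threshold only depends on the
exponent. -/
theorem P_metN (n m N : ℕ) : ∃ s₀ : ℕ, ∀ s, s₀ ≤ s → ∀ (Γ : Subgroup (SUGroup n))
    (ρ : Γ →* Mat m) (H : Vec n → Mat m) (C : ℝ), Met ρ H → Adm N C H →
      Met ρ (P s H) ∧ Harn (2 * s) (P s H) := by
  obtain ⟨s1, h1⟩ := P_contDiffOn (E := Mat m) n N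
  obtain ⟨s2, h2⟩ := P_posDef n m N
  obtain ⟨s3, h3⟩ := P_clm (E := Mat m) (E' := Mat m) n N
  obtain ⟨s4, h4⟩ := P_harnack n m N
  refine ⟨s1 + s2 + s3 + s4, fun s hs Γ ρ H C hH hC => ⟨⟨P_homog s H, ?_, ?_, ?_⟩, ?_⟩⟩
  · exact (h1 s (by omega) C H hC).continuousOn
  · exact h2 s (by omega) C H hC fun g => hH.pos _ (orbit_mem g)
  · intro γ v hv
    rw [← P_act s H (γ : SUGroup n) hv, ← pn_conjL_apply,
      ← h3 s (by omega) C H (pn_conjL (ρ γ)) hC v hv]
    exact pn_P_congr s (fun w hw => hH.equi γ w hw) v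
  · exact h4 s (by omega) C H hC fun g => (hH.pos _ (orbit_mem g)).posSemidef

end Pool.Agent.Lib.MP_5d4057_al.NU
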