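import Pool.Agent.Lib.MP_5d4057_al.NU.BochN1
import Pool.Agent.Lib.MP_5d4057_al.NU.PairN

/-! The Bochner identity with a cut-off function for the limit metric. -/

namespace Pool.Agent.Lib.MP_5d4057_al.NU

open Matrix MeasureTheory Filter Topology Pool.Agent.Lib.MP_5d4057_al
  Pool.Agent.Lib.MP_5d4057_al.Hyb Pool.Agent.Lib.MP_5d4057_al.HM

open scoped ComplexOrder MatrixOrder Matrix.Norms.L2Operator ENNReal

set_option maxSynthPendingDepth 3

variable {n m : ℕ}

variable {Γ : Subgroup (SUGroup n)} {χ : SUGroup n → ℝ}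

/-- Continuous convergence. -/
def CC {E : Type} [TopologicalSpace E] (f : ℕ → SUGroup n → E) (f₀ : SUGroup n → E) : Prop :=
  ∀ g, Tendsto (fun p : ℕ × SUGroup n => f p.1 p.2) (atTop ×ˢ 𝓝 g) (𝓝 (f₀ g))

theorem CC.of_tlu {E : Type} [NormedAddCommGroup E] {G : ℕ → Vec n → E} {G₀ : Vec n → E}
    (h : TendstoLocallyUniformlyOn G G₀ atTop (Cone n)) (hc : ContinuousOn G₀ (Cone n)) :
    CC (fun s g => G s (act g (base n))) fun g => G₀ (act g (base n)) := by
  intro g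
  have hg := orbit_mem g
  have t1 : Tendsto (fun p : ℕ × SUGroup n => act p.2 (base n)) (atTop ×ˢ 𝓝 g)
      (𝓝[Cone n] (act g (base n))) := by
    refine tendsto_nhdsWithin_iff.2 ⟨?_, Filter.Eventually.of_forall fun p => orbit_mem p.2⟩
    exact (continuous_orbit.tendsto g).comp tendsto_snd
  refine tendsto_comp_of_locally_uniform_limit_within (F := fun (p : ℕ × SUGroup n) => G p.1)
    (hc _ hg) t1 fun u hu => ?_
  obtain ⟨t, ht, h1⟩ := h u hu _ hg
  exact ⟨t, ht, h1.prod_inl _⟩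

theorem CC.const {E : Type} [TopologicalSpace E] {f : SUGroup n → E} (hf : Continuous f) :
    CC (fun _ => f) f := fun g => (hf.tendsto g).comp tendsto_snd

theorem CC.prod {E E' : Type} [TopologicalSpace E] [TopologicalSpace E']
    {f : ℕ → SUGroup n → E} {f₀ : SUGroup n → E} {f' : ℕ → SUGroup n → E'}
    {f₀' : SUGroup n → E'} (h : CC f f₀) (h' : CC f' f₀') :
    CC (fun s g => (f s g, f' s g)) fun g => (f₀ g, f₀' g) := fun g =>
  (h g).prodMk_nhds (h' g)

theorem CC.mul {f f' : ℕ → SUGroup n → ℂ} {f₀ f₀' : SUGroup n → ℂ} (h : CC f f₀)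
    (h' : CC f' f₀') : CC (fun s g => f s g * f' s g) fun g => f₀ g * f₀' g := fun g =>
  (h g).mul (h' g)

theorem CC.mulR {f f' : ℕ → SUGroup n → ℝ} {f₀ f₀' : SUGroup n → ℝ} (h : CC f f₀)
    (h' : CC f' f₀') : CC (fun s g => f s g * f' s g) fun g => f₀ g * f₀' g := fun g =>
  (h g).mul (h' g)

theorem CC.sum {ι : Type} (T : Finset ι) {f : ι → ℕ → SUGroup n → ℂ} {f₀ : ι → SUGroup n → ℂ}
    (h : ∀ i ∈ T, CC (f i) (f₀ i)) : CC (fun s g => ∑ i ∈ T, f i s g) fun g => ∑ i ∈ T, f₀ i g :=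
  fun g => tendsto_finsetSum _ fun i hi => h i hi g

theorem CC.comp {E E' : Type} [TopologicalSpace E] [TopologicalSpace E'] {Φ : E → E'} {S : Set E}
    (hΦ : ContinuousOn Φ S) (hS : IsOpen S) {f : ℕ → SUGroup n → E} {f₀ : SUGroup n → E}
    (h : CC f f₀) (h0 : ∀ g, f₀ g ∈ S) : CC (fun s g => Φ (f s g)) fun g => Φ (f₀ g) := fun g =>
  (hΦ.continuousAt (hS.mem_nhds (h0 g))).tendsto.comp (h g)

/-- convergence of integrals -/
theorem CC.II (h : Lat Γ χ) {Q : Set (SUGroup n)} (hQ : IsCompact Q) {f : ℕ → SUGroup n → ℝ}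
    {f₀ : SUGroup n → ℝ} (hc : CC f f₀) (hc0 : Continuous f₀) (s₀ : ℕ)
    (hcs : ∀ s, s₀ ≤ s → Continuous (f s))
    (hi : ∀ s, s₀ ≤ s → ∀ γ ∈ Γ, ∀ g, f s (γ * g) = f s g)
    (ho : ∀ s, s₀ ≤ s → Off Γ Q (f s)) :
    Tendsto (fun s => HM.II χ (f s)) atTop (𝓝 (HM.II χ f₀)) := by
  obtain ⟨D, hD⟩ := hQ.exists_bound_of_continuousOn hc0.continuousOn
  have h1 : ∀ᶠ s in atTop, ∀ g ∈ Q, ‖f s g‖ ≤ D + 1 := by
    have h2 : {p : ℕ × SUGroup n | p.2 ∈ Q → ‖f p.1 p.2‖ ≤ D + 1} ∈ atTop ×ˢ 𝓝ˢ Q := by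
      refine hQ.mem_prod_nhdsSet_of_forall fun g hg => ?_
      have h3 : ∀ᶠ p in atTop ×ˢ 𝓝 g, ‖f p.1 p.2‖ < D + 1 :=
        (hc g).norm.eventually_lt_const (lt_of_le_of_lt (hD g hg) (lt_add_one D))
      filter_upwards [h3] with p hp _ using hp.le
    have h4 := (Filter.mem_prod_iff.1 h2)
    obtain ⟨A, hA, B, hB, hAB⟩ := h4
    filter_upwards [hA] with s hs g hg
    exact hAB (⟨hs, subset_of_mem_nhdsSet hB hg⟩ : (s, g) ∈ A ×ˢ B) hg
  have h5 : ∀ᶠ s in atTop, ∀ g, ‖f s g‖ ≤ max (D + 1) 0 := by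
    filter_upwards [h1, eventually_ge_atTop s₀] with s hs hs0 g
    by_cases h0 : f s g = 0
    · rw [h0, norm_zero]
      exact le_max_right _ _
    · obtain ⟨γ, hγ, hγQ⟩ := ho s hs0 g h0
      rw [← hi s hs0 γ hγ g]
      exact (hs _ hγQ).trans (le_max_left _ _)
  unfold HM.II
  refine tendsto_integral_filter_of_dominated_convergence (fun g => ‖χ g‖ * max (D + 1) 0) ?_ ?_
    (h.int.norm.mul_const _) ?_
  · filter_upwards [eventually_ge_atTop s₀] with s hs
    exact (h.cont.smul (hcs s hs)).aestronglyMeasurable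
  · filter_upwards [h5] with s hs
    refine Filter.Eventually.of_forall fun g => ?_
    rw [norm_smul]
    exact mul_le_mul_of_nonneg_left (hs g) (norm_nonneg _)
  · refine Filter.Eventually.of_forall fun g => Tendsto.const_smul ?_ _
    have h6 : Tendsto (fun s : ℕ => (s, g)) atTop (atTop ×ˢ 𝓝 g) :=
      tendsto_id.prodMk (tendsto_const_nhds)
    exact (hc g).comp h6

section
variable {N : ℕ} {C : ℝ} {F : Vec n → Mat m}

theorem cc_jet (hn : 1 ≤ n) (hL : LipMet n m N C F) {e : SUGroup n → Fin (n + 1) → Vec n}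
    (he : Continuous e) : CC (fun s g => (P s F (act g (base n)), fderiv ℝ (P s F) (act g (base n)),
      fderiv ℝ (fderiv ℝ (P s F)) (act g (base n)), e g)) fun g => (F (act g (base n)),
        fderiv ℝ F (act g (base n)), fderiv ℝ (fderiv ℝ F) (act g (base n)), e g) := by
  obtain ⟨hF2, -, t0, t1, t2⟩ := reg_conv hn hL
  exact (CC.of_tlu t0 hF2.continuousOn).prod ((CC.of_tlu t1 (continuousOn_fderiv_cone hF2)).prod
    ((CC.of_tlu t2 (continuousOn_fderiv_two_cone hF2)).prod (CC.const he)))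

variable {ρ : Γ →* Mat m} {Q : Set (SUGroup n)} {ε : ℝ} {φ : Vec n → ℝ}

/-- the identity for the limit metric -/
theorem II_boch_lim (hn : 1 ≤ n) (h : Lat Γ χ) (hQ : IsCompact Q) (hφ : Cf Γ Q ε φ)
    (hF : Met ρ F) (hL : LipMet n m N C F) :
    II χ (fun g => φ (act g (base n)) ^ 2 * bochL F g) + II χ (fun g => (Er φ F g).re) = 0 := by
  obtain ⟨hF2, hh, -, -, -⟩ := reg_conv hn hL
  obtain ⟨s₁, h1⟩ := P_metN n m N
  obtain ⟨s₂, h2⟩ := P_contDiffOn (E := Mat m) n N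
  obtain ⟨s₀, hs₀⟩ : ∃ s₀, s₀ = s₁ + s₂ := ⟨_, rfl⟩
  have hM : ∀ s, s₀ ≤ s → Met ρ (P s F) := fun s hs =>
    (h1 s (by omega) Γ ρ F C hF hL.adm).1
  have hcd : ∀ s, s₀ ≤ s → ContDiffOn ℝ (⊤ : ℕ∞) (P s F) (Cone n) := fun s hs =>
    h2 s (by omega) C F hL.adm
  have hc3 : ∀ s, s₀ ≤ s → ContDiffOn ℝ 3 (P s F) (Cone n) := fun s hs =>
    (hcd s hs).of_le (WithTop.coe_le_coe.2 (le_top : (3 : ℕ∞) ≤ ⊤))
  have hc2 : ∀ s, s₀ ≤ s → ContDiffOn ℝ 2 (P s F) (Cone n) := fun s hs =>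
    (hcd s hs).of_le (WithTop.coe_le_coe.2 (le_top : (2 : ℕ∞) ≤ ⊤))
  have hfr : Continuous fun (g : SUGroup n) (i : Fin (n + 1)) => act g (Pi.single i 1) :=
    continuous_pi fun i => continuous_actv _
  have j1 : CC (fun s g => jet (P s F) g) (jet F) := cc_jet hn hL hfr
  have j2 : CC (fun s g => jet' (P s F) g) (jet' F) := cc_jet hn hL continuous_const
  have u1 : ∀ g, jet F g ∈ jS n m := fun g => bc_unit hF.pos (orbit_mem g)
  have u2 : ∀ g, jet' F g ∈ jS n m := fun g => bc_unit hF.pos (orbit_mem g)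
  have cφ : CC (fun _ g => φ (act g (base n)) ^ 2) fun g => φ (act g (base n)) ^ 2 :=
    CC.const ((continuous_orb hφ.cd.continuousOn).pow 2)
  have e1 : ∀ s, s₀ ≤ s → ∀ g, jB (jet (P s F) g) = bochL (P s F) g := fun s hs g =>
    jB_jet (hc2 s hs) g
  have e2 : ∀ s, s₀ ≤ s → ∀ g, jT (jet' (P s F) g) =
      nF (P s F (act g (base n))) (tauT (P s F) (act g (base n))) := fun s hs g =>
    jT_jet' (hc2 s hs) g
  have e3 : ∀ s, s₀ ≤ s → ∀ g, ∑ j : Fin n, dzc (phs φ) (act g (base n))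
      (act g (Pi.single j.castSucc 1)) * jY (jet (P s F) g) j = Er φ (P s F) g := fun s hs g =>
    (Er_eq (hM s hs).hom (hc2 s hs) g).symm
  have a1 := CC.II h hQ (cφ.mulR (j1.comp jB_cont isOpen_jS u1))
    (hφ.cont' (jB_cont.comp_continuous (jet_cont hF2) u1)) s₀
    (fun s hs => hφ.cont' (jB_cont.comp_continuous (jet_cont (hc2 s hs)) fun g =>
      bc_unit (hM s hs).pos (orbit_mem g)))
    (fun s hs => hφ.inv' (f := fun g => jB (jet (P s F) g)) fun γ hγ g => by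
      rw [e1 s hs, e1 s hs, bochL_inv (hM s hs) (hc2 s hs) γ hγ])
    (fun s _ => hφ.off_mul _)
  have a2 := CC.II h hQ (cφ.mulR (j2.comp jT_cont isOpen_jS u2))
    (hφ.cont' (jT_cont.comp_continuous (jet'_cont hF2) u2)) s₀
    (fun s hs => hφ.cont' (jT_cont.comp_continuous (jet'_cont (hc2 s hs)) fun g =>
      bc_unit (hM s hs).pos (orbit_mem g)))
    (fun s hs => hφ.inv' (f := fun g => jT (jet' (P s F) g)) fun γ hγ g => by
      rw [e2 s hs, e2 s hs, nFT_inv (hM s hs) (hc2 s hs) γ hγ])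
    (fun s _ => hφ.off_mul _)
  have e0 : ∀ g, ∑ j : Fin n, dzc (phs φ) (act g (base n))
      (act g (Pi.single j.castSucc 1)) * jY (jet F g) j = Er φ F g := fun g =>
    (Er_eq hF.hom hF2 g).symm
  have cE : CC (fun s g => ∑ j : Fin n, dzc (phs φ) (act g (base n))
      (act g (Pi.single j.castSucc 1)) * jY (jet (P s F) g) j) fun g =>
      ∑ j : Fin n, dzc (phs φ) (act g (base n))
      (act g (Pi.single j.castSucc 1)) * jY (jet F g) j :=
    CC.sum Finset.univ fun j _ => (CC.const (dphs_cont hφ.cd _)).mul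
      (j1.comp (jY_cont j) isOpen_jS u1)
  have a3 := CC.II h hQ (f := fun s g => (∑ j : Fin n, dzc (phs φ) (act g (base n))
      (act g (Pi.single j.castSucc 1)) * jY (jet (P s F) g) j).re)
    (f₀ := fun g => (Er φ F g).re) (fun g => by
      have t := cE g
      simp only [e0] at t
      exact (Complex.continuous_re.tendsto _).comp t)
    (Complex.continuous_re.comp (Er_cont hφ.cd hF.hom hF2 hF.pos)) s₀
    (fun s hs => by
      simp only [e3 s hs]
      exact Complex.continuous_re.comp (Er_cont hφ.cd (hM s hs).hom (hc2 s hs) (hM s hs).pos))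
    (fun s hs γ hγ g => by
      simp only [e3 s hs]
      rw [Er_inv hφ.cd hφ.inv (hM s hs) (hc2 s hs) γ hγ])
    (fun s hs => by
      simp only [e3 s hs]
      exact (hφ.off_Er _).re)
  have a4 := a1.add a3
  have a5 : ∀ᶠ s in atTop, (II χ fun g => φ (act g (base n)) ^ 2 * jB (jet (P s F) g)) +
      (II χ fun g => (∑ j : Fin n, dzc (phs φ) (act g (base n))
      (act g (Pi.single j.castSucc 1)) * jY (jet (P s F) g) j).re) =
      II χ fun g => φ (act g (base n)) ^ 2 * jT (jet' (P s F) g) := by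
    filter_upwards [eventually_ge_atTop s₀] with s hs
    simp only [e1 s hs, e2 s hs, e3 s hs]
    exact II_boch_cut h hQ hφ (hM s hs) (hc3 s hs)
  have a6 := tendsto_nhds_unique (a4.congr' a5) a2
  simp only [jB_jet hF2, jT_jet' hF2] at a6
  rw [a6]
  have t5 : ∀ g : SUGroup n, φ (act g (base n)) ^ 2 *
      nF (F (act g (base n))) (tauT F (act g (base n))) = 0 := by
    intro g
    have hv := orbit_mem g
    rw [tauT_eq (hF2.contDiffAt ((isOpen_cone n).mem_nhds hv)), hh _ hv, sub_self,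
      Matrix.mul_zero, smul_zero, nF, Matrix.zero_mul, Matrix.zero_mul, Matrix.zero_mul,
      trace_zero, Complex.zero_re, mul_zero]
  rw [II_congr t5, HM.II]
  simp

end

end Pool.Agent.Lib.MP_5d4057_al.NU
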