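import Pool.Agent.Lib.MP_5d4057_al.NU.BochN2

/-! The estimate of the Bochner expression by the energy. -/

namespace Pool.Agent.Lib.MP_5d4057_al.NU

open Matrix MeasureTheory Filter Topology Pool.Agent.Lib.MP_5d4057_al
  Pool.Agent.Lib.MP_5d4057_al.Hyb Pool.Agent.Lib.MP_5d4057_al.HM

open scoped ComplexOrder MatrixOrder Matrix.Norms.L2Operator ENNReal

set_option maxSynthPendingDepth 3

variable {n m : ℕ}

variable {Γ : Subgroup (SUGroup n)} {χ : SUGroup n → ℝ}

theorem nF_add {M : Mat m} (hM : M.PosDef) (X Y : Mat m) :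
    nF M (X + Y) = nF M X + nF M Y + 2 * (X * (M⁻¹ * Yᴴ * M)).trace.re := by
  have hMH : Mᴴ = M := hM.isHermitian.eq
  have hM1 : (M⁻¹)ᴴ = M⁻¹ := by rw [conjTranspose_nonsing_inv, hMH]
  have h1 : (Y * M⁻¹ * Xᴴ * M).trace.re = (X * (M⁻¹ * Yᴴ * M)).trace.re := by
    have h2 : ((X * (M⁻¹ * Yᴴ * M))ᴴ).trace = (Y * M⁻¹ * Xᴴ * M).trace := by
      rw [conjTranspose_mul, conjTranspose_mul, conjTranspose_mul, conjTranspose_conjTranspose,
        hMH, hM1, ← Matrix.mul_assoc M, Matrix.mul_assoc (M * Y), Matrix.mul_assoc M,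
        Matrix.trace_mul_comm]
      simp only [Matrix.mul_assoc]
    rw [← h2, trace_conjTranspose, Complex.star_def, Complex.conj_re]
  have h3 : ((X + Y) * M⁻¹ * (X + Y)ᴴ * M).trace = (X * M⁻¹ * Xᴴ * M).trace +
      (Y * M⁻¹ * Yᴴ * M).trace + (X * (M⁻¹ * Yᴴ * M)).trace + (Y * M⁻¹ * Xᴴ * M).trace := by
    rw [conjTranspose_add]
    simp only [Matrix.add_mul, Matrix.mul_add, trace_add, Matrix.mul_assoc]
    ring
  rw [nF, nF, nF, h3]
  simp only [Complex.add_re]
  rw [h1]
  ring

theorem nF_smul (M X : Mat m) (c : ℂ) : nF M (c • X) = ‖c‖ ^ 2 * nF M X := by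
  rw [nF, nF, conjTranspose_smul]
  simp only [smul_mul_assoc, mul_smul_comm, trace_smul, smul_smul]
  rw [smul_eq_mul, Complex.star_def, Complex.conj_mul', ← Complex.ofReal_pow,
    Complex.re_ofReal_mul]

theorem nF_young {M : Mat m} (hM : M.PosDef) (A C : Mat m) (a : ℝ) (w : ℂ) :
    -(2 * a * (w * (A * (M⁻¹ * Cᴴ * M)).trace).re) ≤
      a ^ 2 / 2 * nF M A + 2 * ‖w‖ ^ 2 * nF M C := by
  have h0 := nF_nonneg hM ((a : ℂ) • A + (2 * star w) • C)
  rw [nF_add hM, nF_smul, nF_smul, conjTranspose_smul] at h0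
  have h1 : ((a : ℂ) • A * (M⁻¹ * (star (2 * star w) • Cᴴ) * M)).trace =
      ((2 * a : ℝ) : ℂ) * (w * (A * (M⁻¹ * Cᴴ * M)).trace) := by
    have h2 : star (2 * star w) = 2 * w := by
      rw [star_mul', star_star]
      congr 1
      simp
    rw [h2]
    simp only [smul_mul_assoc, mul_smul_comm, trace_smul, smul_smul, smul_eq_mul]
    push_cast
    ring
  rw [h1, Complex.re_ofReal_mul] at h0
  have h3 : ‖(2 * star w : ℂ)‖ = 2 * ‖w‖ := by
    rw [norm_mul, norm_star]
    norm_num
  have h4 : ‖(a : ℂ)‖ ^ 2 = a ^ 2 := by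
    rw [Complex.norm_real, Real.norm_eq_abs, sq_abs]
  rw [h3, h4] at h0
  nlinarith

/-- the energy in the frame -/
noncomputable def enN (F : Vec n → Mat m) (g : SUGroup n) : ℝ :=
  ∑ i : Fin n, nF (F (act g (base n)))
    (thz F (act g (base n)) (act g (Pi.single i.castSucc 1)))

section
variable {Q : Set (SUGroup n)} {ε : ℝ} {φ : Vec n → ℝ}

theorem Cf.dzc (hφ : Cf Γ Q ε φ) (g : SUGroup n) (j : Fin n) : ∃ w : ℂ, ‖w‖ ≤ ε ∧
    HM.dzc (phs φ) (act g (base n)) (act g (Pi.single j.castSucc 1)) =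
      2 * (φ (act g (base n)) : ℂ) * w := by
  have hv := orbit_mem g
  have hd : DifferentiableAt ℝ φ (act g (base n)) :=
    (hφ.cd.contDiffAt ((isOpen_cone n).mem_nhds hv)).differentiableAt (by norm_num)
  have h1 : ∀ ζ, fderiv ℝ (phs φ) (act g (base n)) ζ =
      ((2 * φ (act g (base n)) * fderiv ℝ φ (act g (base n)) ζ : ℝ) : ℂ) := by
    intro ζ
    have h2 : HasFDerivAt (fun v => φ v ^ 2) _ (act g (base n)) := hd.hasFDerivAt.pow 2
    have h3 : HasFDerivAt (phs φ) _ (act g (base n)) :=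
      Complex.ofRealCLM.hasFDerivAt.comp (act g (base n)) h2
    rw [h3.fderiv]
    simp [mul_assoc]
  have e1 : act g (Pi.single j.castSucc 1) = act g (vec (Pi.single j 1)) := by rw [vec_single]
  have e2 : Complex.I • act g (Pi.single j.castSucc 1) =
      act g (vec (Pi.single j Complex.I)) := by
    rw [vec_single, ← act_smul, ← Pi.single_smul, smul_eq_mul, mul_one]
  have b1 := hφ.der g (Pi.single j 1) (sum_single_sq j (by simp))
  have b2 := hφ.der g (Pi.single j Complex.I) (sum_single_sq j (by simp))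
  rw [← e1] at b1
  rw [← e2] at b2
  refine ⟨(1 / 2 : ℂ) * ((fderiv ℝ φ (act g (base n)) (act g (Pi.single j.castSucc 1)) : ℂ) -
    Complex.I * (fderiv ℝ φ (act g (base n)) (Complex.I • act g (Pi.single j.castSucc 1)) : ℂ)),
    ?_, ?_⟩
  · rw [norm_mul]
    have h4 := norm_sub_le (fderiv ℝ φ (act g (base n)) (act g (Pi.single j.castSucc 1)) : ℂ)
      (Complex.I * (fderiv ℝ φ (act g (base n)) (Complex.I • act g (Pi.single j.castSucc 1)) : ℂ))
    rw [norm_mul, Complex.norm_I, one_mul, Complex.norm_real, Complex.norm_real,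
      Real.norm_eq_abs, Real.norm_eq_abs] at h4
    have h5 : ‖(1 / 2 : ℂ)‖ = 1 / 2 := by norm_num
    rw [h5]
    linarith
  · rw [HM.dzc, h1, h1]
    push_cast
    ring

/-- the pointwise estimate of the error term -/
theorem Er_le (hφ : Cf Γ Q ε φ) {F : Vec n → Mat m} (hF : Homog F)
    (hp : ∀ v ∈ Cone n, (F v).PosDef) (hF2 : ContDiffOn ℝ 2 F (Cone n)) (g : SUGroup n)
    (h0 : tauT F (act g (base n)) = 0) :
    -(Er φ F g).re ≤ φ (act g (base n)) ^ 2 / 2 * bochL F g + 2 * n * ε ^ 2 * enN F g := by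
  have hv := orbit_mem g
  have hM := hp _ hv
  choose w hw hw' using hφ.dzc g
  have hε : ∀ j, ‖w j‖ ^ 2 ≤ ε ^ 2 := fun j => pow_le_pow_left₀ (norm_nonneg _) (hw j) 2
  have h1 : (Er φ F g).re = ∑ j : Fin n, ∑ i : Fin n, 2 * φ (act g (base n)) *
      (w j * (tau F (act g (base n)) (act g (Pi.single i.castSucc 1))
        (act g (Pi.single j.castSucc 1)) * ((F (act g (base n)))⁻¹ *
        (thz F (act g (base n)) (act g (Pi.single i.castSucc 1)))ᴴ *
          F (act g (base n)))).trace).re := by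
    rw [Er, Complex.re_sum]
    refine Finset.sum_congr rfl fun j _ => ?_
    rw [Yf_frame hF hF2, h0, Matrix.zero_mul, trace_zero, sub_zero, hw', Finset.mul_sum,
      Complex.re_sum]
    refine Finset.sum_congr rfl fun i _ => ?_
    rw [thz_adj hF2 hp hv]
    have h2 : 2 * (φ (act g (base n)) : ℂ) = ((2 * φ (act g (base n)) : ℝ) : ℂ) := by push_cast; rfl
    rw [h2, mul_assoc, Complex.re_ofReal_mul]
  have h2 : ∀ j i : Fin n, -(2 * φ (act g (base n)) *
      (w j * (tau F (act g (base n)) (act g (Pi.single i.castSucc 1))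
        (act g (Pi.single j.castSucc 1)) * ((F (act g (base n)))⁻¹ *
        (thz F (act g (base n)) (act g (Pi.single i.castSucc 1)))ᴴ *
          F (act g (base n)))).trace).re) ≤
      φ (act g (base n)) ^ 2 / 2 * nF (F (act g (base n))) (tau F (act g (base n))
        (act g (Pi.single i.castSucc 1)) (act g (Pi.single j.castSucc 1))) +
      2 * ε ^ 2 * nF (F (act g (base n)))
        (thz F (act g (base n)) (act g (Pi.single i.castSucc 1))) := by
    intro j i
    refine (nF_young hM _ _ _ _).trans ?_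
    have h3 := nF_nonneg hM (thz F (act g (base n)) (act g (Pi.single i.castSucc 1)))
    have h4 := mul_le_mul_of_nonneg_right (mul_le_mul_of_nonneg_left (hε j) (by norm_num :
      (0 : ℝ) ≤ 2)) h3
    linarith
  rw [h1, ← Finset.sum_neg_distrib]
  have h5 : ∑ j : Fin n, -(∑ i : Fin n, 2 * φ (act g (base n)) *
      (w j * (tau F (act g (base n)) (act g (Pi.single i.castSucc 1))
        (act g (Pi.single j.castSucc 1)) * ((F (act g (base n)))⁻¹ *
        (thz F (act g (base n)) (act g (Pi.single i.castSucc 1)))ᴴ *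
          F (act g (base n)))).trace).re) ≤
      ∑ j : Fin n, ∑ i : Fin n, (φ (act g (base n)) ^ 2 / 2 * nF (F (act g (base n)))
        (tau F (act g (base n)) (act g (Pi.single i.castSucc 1))
          (act g (Pi.single j.castSucc 1))) +
      2 * ε ^ 2 * nF (F (act g (base n)))
        (thz F (act g (base n)) (act g (Pi.single i.castSucc 1)))) := by
    refine Finset.sum_le_sum fun j _ => ?_
    rw [← Finset.sum_neg_distrib]
    exact Finset.sum_le_sum fun i _ => h2 j i
  refine h5.trans ?_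
  have h6 : ∑ j : Fin n, ∑ i : Fin n, (φ (act g (base n)) ^ 2 / 2 * nF (F (act g (base n)))
        (tau F (act g (base n)) (act g (Pi.single i.castSucc 1))
          (act g (Pi.single j.castSucc 1))) +
      2 * ε ^ 2 * nF (F (act g (base n)))
        (thz F (act g (base n)) (act g (Pi.single i.castSucc 1)))) =
      φ (act g (base n)) ^ 2 / 2 * (∑ i : Fin n, ∑ j : Fin n, nF (F (act g (base n)))
        (tau F (act g (base n)) (act g (Pi.single i.castSucc 1))
          (act g (Pi.single j.castSucc 1)))) + 2 * n * ε ^ 2 * enN F g := by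
    simp only [Finset.sum_add_distrib, ← Finset.mul_sum]
    rw [Finset.sum_comm, Finset.sum_const, Finset.card_univ, Fintype.card_fin, nsmul_eq_mul,
      enN]
    ring
  rw [h6]
  have h7 : ∑ i : Fin n, ∑ j : Fin n, nF (F (act g (base n)))
        (tau F (act g (base n)) (act g (Pi.single i.castSucc 1))
          (act g (Pi.single j.castSucc 1))) ≤ bochL F g := by
    rw [bochL]
    refine Finset.sum_le_sum fun i _ => Finset.sum_le_sum fun j _ => ?_
    exact le_add_of_nonneg_right (nF_nonneg hM _)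
  have h8 : 0 ≤ φ (act g (base n)) ^ 2 / 2 := by positivity
  have := mul_le_mul_of_nonneg_left h7 h8
  linarith

theorem bochL_nonneg {F : Vec n → Mat m} (hp : ∀ v ∈ Cone n, (F v).PosDef) (g : SUGroup n) :
    0 ≤ bochL F g := by
  rw [bochL]
  exact Finset.sum_nonneg fun i _ => Finset.sum_nonneg fun j _ =>
    add_nonneg (nF_nonneg (hp _ (orbit_mem g)) _) (nF_nonneg (hp _ (orbit_mem g)) _)

theorem enN_nonneg {F : Vec n → Mat m} (hp : ∀ v ∈ Cone n, (F v).PosDef) (g : SUGroup n) :
    0 ≤ enN F g :=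
  Finset.sum_nonneg fun i _ => nF_nonneg (hp _ (orbit_mem g)) _

/-- the integrated estimate -/
theorem II_boch_le (hn : 1 ≤ n) (h : Lat Γ χ) (hQ : IsCompact Q) (hφ : Cf Γ Q ε φ)
    {ρ : Γ →* Mat m} {F : Vec n → Mat m} {N : ℕ} {C : ℝ} (hF : Met ρ F)
    (hL : LipMet n m N C F) (hi : Integrable (fun g => χ g • enN F g) (mu n)) :
    II χ (fun g => φ (act g (base n)) ^ 2 * bochL F g) ≤ 4 * n * ε ^ 2 * II χ (enN F) := by
  obtain ⟨hF2, hh, -, -, -⟩ := reg_conv hn hL
  have hT : ∀ g : SUGroup n, tauT F (act g (base n)) = 0 := by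
    intro g
    have hv := orbit_mem g
    rw [tauT_eq (hF2.contDiffAt ((isOpen_cone n).mem_nhds hv)), hh _ hv, sub_self,
      Matrix.mul_zero, smul_zero]
  have h1 := II_boch_lim hn h hQ hφ hF hL
  have i1 : Integrable (fun g => χ g • (φ (act g (base n)) ^ 2 * bochL F g)) (mu n) :=
    h.integrable_smul (hφ.cont' (bochL_cont hF2 hF.pos)).aestronglyMeasurable
      ((hφ.off_mul _).bdd hQ (hφ.cont' (bochL_cont hF2 hF.pos))
        (hφ.inv' (fun γ hγ g => bochL_inv hF hF2 γ hγ g)))
  have c2 : Continuous fun g => (Er φ F g).re :=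
    Complex.continuous_re.comp (Er_cont hφ.cd hF.hom hF2 hF.pos)
  have i2 : Integrable (fun g => χ g • (Er φ F g).re) (mu n) :=
    h.integrable_smul c2.aestronglyMeasurable ((hφ.off_Er F).re.bdd hQ c2
      (fun γ hγ g => congrArg Complex.re (Er_inv hφ.cd hφ.inv hF hF2 γ hγ g)))
  have h2 : -(II χ fun g => (Er φ F g).re) ≤
      (1 / 2) * II χ (fun g => φ (act g (base n)) ^ 2 * bochL F g) +
        2 * n * ε ^ 2 * II χ (enN F) := by
    rw [II, II, II, ← integral_neg, ← integral_const_mul, ← integral_const_mul,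
      ← integral_add (i1.const_mul _) (hi.const_mul _)]
    refine integral_mono i2.neg ((i1.const_mul _).add (hi.const_mul _)) fun g => ?_
    have h3 := Er_le hφ hF.hom hF.pos hF2 g (hT g)
    have h4 := mul_le_mul_of_nonneg_left h3 (h.pos g).le
    show -(χ g • (Er φ F g).re) ≤ 1 / 2 * (χ g • (φ (act g (base n)) ^ 2 * bochL F g)) +
      2 * n * ε ^ 2 * (χ g • enN F g)
    simp only [smul_eq_mul]
    nlinarith
  linarith

end

end Pool.Agent.Lib.MP_5d4057_al.NU
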