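import Pool.Agent.Lib.MP_5d4057_al.NU.BochN3
import Pool.Agent.Lib.MP_5d4057_al.HM.D2

/-! The energy of a metric at bounded mean square distance from its translates is finite. -/

namespace Pool.Agent.Lib.MP_5d4057_al.NU

open Matrix MeasureTheory Filter Topology Pool.Agent.Lib.MP_5d4057_al
  Pool.Agent.Lib.MP_5d4057_al.Hyb Pool.Agent.Lib.MP_5d4057_al.HM

open scoped ComplexOrder MatrixOrder Matrix.Norms.L2Operator ENNReal

set_option maxSynthPendingDepth 3

variable {n m : ℕ}

variable {Γ : Subgroup (SUGroup n)} {χ : SUGroup n → ℝ}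

/-- `tr ((b - a) a⁻¹)² ≤ m (e^d - 1)²`, `d` the distance. -/
theorem tr_sq_le {a b : Mat m} (ha : a.PosDef) (hb : b.PosDef) :
    ((b - a) * a⁻¹ * ((b - a) * a⁻¹)).trace.re ≤ m * (Real.exp (dT a b) - 1) ^ 2 := by
  set r := dT a b with hr
  have hr0 : 0 ≤ r := dT_nonneg _ _
  have k1 : a ≤ (Real.exp r : ℂ) • b := le_exp_dT ha hb
  have k2 : b ≤ (Real.exp r : ℂ) • a := by
    have h := le_exp_dT hb ha
    rwa [dT_comm] at h
  set L : ℝ := Real.exp r - 1 with hL
  have hP : ((L : ℂ) • a - (b - a)).PosSemidef := by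
    have h1 : (L : ℂ) • a - (b - a) = (Real.exp r : ℂ) • a - b := by
      rw [hL]
      push_cast
      module
    rw [h1]
    exact Matrix.le_iff.1 k2
  have hM : ((L : ℂ) • a + (b - a)).PosSemidef := by
    have h1 : (Real.exp (-r) : ℂ) • ((Real.exp r : ℂ) • b - a) = b - (Real.exp (-r) : ℂ) • a := by
      rw [smul_sub, smul_smul, ← Complex.ofReal_mul, ← Real.exp_add]
      simp
    have h2 : (b - (Real.exp (-r) : ℂ) • a).PosSemidef := by
      rw [← h1]
      exact (Matrix.le_iff.1 k1).smul (by exact_mod_cast (Real.exp_pos _).le)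
    have h3 : (L : ℂ) • a + (b - a) = (b - (Real.exp (-r) : ℂ) • a) +
        ((Real.exp r + Real.exp (-r) - 2 : ℝ) : ℂ) • a := by
      rw [hL]
      push_cast
      module
    rw [h3]
    refine h2.add (ha.posSemidef.smul ?_)
    have h4 : 2 ≤ Real.exp r + Real.exp (-r) := by
      have h5 := Real.one_le_cosh r
      rw [Real.cosh_eq] at h5
      linarith
    have h5 : 0 ≤ Real.exp r + Real.exp (-r) - 2 := by linarith
    exact_mod_cast h5
  have haH : (a⁻¹)ᴴ = a⁻¹ := by rw [conjTranspose_nonsing_inv, ha.isHermitian.eq]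
  have ha1 : a * a⁻¹ = 1 := mul_nonsing_inv a ((isUnit_iff_isUnit_det a).1 ha.isUnit)
  have hM' : (a⁻¹ * ((L : ℂ) • a + (b - a)) * a⁻¹).PosSemidef := by
    have := hM.mul_mul_conjTranspose_same a⁻¹
    rwa [haH] at this
  have h0 := trace_mul_nonneg hP hM'
  have e : ((L : ℂ) • a - (b - a)) * (a⁻¹ * ((L : ℂ) • a + (b - a)) * a⁻¹) =
      ((L : ℂ) ^ 2) • (1 : Mat m) - (b - a) * a⁻¹ * ((b - a) * a⁻¹) := by
    generalize b - a = X
    calc ((L : ℂ) • a - X) * (a⁻¹ * ((L : ℂ) • a + X) * a⁻¹) =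
        ((L : ℂ) • (a * a⁻¹) - X * a⁻¹) * ((L : ℂ) • (a * a⁻¹) + X * a⁻¹) := by
          simp only [Matrix.sub_mul, Matrix.mul_add, Matrix.add_mul, Matrix.smul_mul,
            Matrix.mul_smul, Matrix.mul_assoc]
      _ = _ := by
        rw [ha1]
        generalize X * a⁻¹ = Y
        rw [Matrix.sub_mul, Matrix.mul_add, Matrix.mul_add]
        simp only [Matrix.smul_mul, Matrix.mul_smul, Matrix.one_mul, Matrix.mul_one, smul_smul]
        module
  rw [e, trace_sub, trace_smul, trace_one, Fintype.card_fin, Complex.sub_re, smul_eq_mul,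
    ← Complex.ofReal_pow, Complex.re_ofReal_mul, Complex.natCast_re] at h0
  linarith

/-- the square norm of `a⁻¹ X` -/
theorem nF_inv_mul {a X : Mat m} (ha : a.PosDef) (hX : Xᴴ = X) :
    nF a (a⁻¹ * X) = (X * a⁻¹ * (X * a⁻¹)).trace.re := by
  have haH : (a⁻¹)ᴴ = a⁻¹ := by rw [conjTranspose_nonsing_inv, ha.isHermitian.eq]
  have ha1 : a⁻¹ * a = 1 := nonsing_inv_mul a ((isUnit_iff_isUnit_det a).1 ha.isUnit)
  rw [nF, conjTranspose_mul, hX, haH]
  have e : a⁻¹ * X * a⁻¹ * (X * a⁻¹) * a = a⁻¹ * (X * a⁻¹ * X) := by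
    simp only [Matrix.mul_assoc, ha1, Matrix.mul_one]
  rw [e, Matrix.trace_mul_comm, Matrix.mul_assoc (X * a⁻¹)]

theorem nF_add_le {M : Mat m} (hM : M.PosDef) (X Y : Mat m) :
    nF M (X + Y) ≤ 2 * nF M X + 2 * nF M Y := by
  have h1 := nF_nonneg hM (X + (-1 : ℂ) • Y)
  have h2 := nF_add hM X ((-1 : ℂ) • Y)
  have h3 := nF_add hM X Y
  rw [nF_smul, conjTranspose_smul] at h2
  have e : (X * (M⁻¹ * (star (-1 : ℂ) • Yᴴ) * M)).trace = -(X * (M⁻¹ * Yᴴ * M)).trace := by
    rw [star_neg, star_one, neg_one_smul, Matrix.mul_neg, Matrix.neg_mul, Matrix.mul_neg,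
      trace_neg]
  rw [e, Complex.neg_re, norm_neg, norm_one, one_pow, one_mul] at h2
  linarith

/-- the energy in one direction -/
noncomputable def enD (F : Vec n → Mat m) (ξ : Fin n → ℂ) (g : SUGroup n) : ℝ :=
  nF (F (act g (base n))) ((F (act g (base n)))⁻¹ *
    fderiv ℝ F (act g (base n)) (act g (vec ξ)))

section
variable {F : Vec n → Mat m}

theorem fderiv_her (hp : ∀ v ∈ Cone n, (F v).PosDef) {v : Vec n} (hv : v ∈ Cone n)
    (hd : DifferentiableAt ℝ F v) (ξ : Vec n) : (fderiv ℝ F v ξ)ᴴ = fderiv ℝ F v ξ := by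
  have h : HasFDerivAt (fun w => (F w)ᴴ)
      ((starL' ℝ : Mat m ≃L[ℝ] Mat m).toContinuousLinearMap.comp (fderiv ℝ F v)) v :=
    ((starL' ℝ : Mat m ≃L[ℝ] Mat m).toContinuousLinearMap.hasFDerivAt).comp v hd.hasFDerivAt
  have h2 : (fun w => (F w)ᴴ) =ᶠ[𝓝 v] F := by
    filter_upwards [cone_nhds hv] with w hw
    exact (hp w hw).isHermitian.eq
  have h3 := (h.congr_of_eventuallyEq h2.symm).unique hd.hasFDerivAt
  exact congrArg (fun A : Vec n →L[ℝ] Mat m => A ξ) h3

theorem inv_cont (hF2 : ContDiffOn ℝ 2 F (Cone n)) (hp : ∀ v ∈ Cone n, (F v).PosDef) :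
    Continuous fun g : SUGroup n => (F (act g (base n)))⁻¹ :=
  continuous_orb (f := fun v => (F v)⁻¹)
    (bc_cd_inv hF2 fun v hv => (hp v hv).isUnit).continuousOn

theorem trre_cont : Continuous fun A : Mat m => A.trace.re :=
  Complex.continuous_re.comp continuous_id.matrix_trace

theorem enD_cont (hF2 : ContDiffOn ℝ 2 F (Cone n)) (hp : ∀ v ∈ Cone n, (F v).PosDef)
    (ξ : Fin n → ℂ) : Continuous (enD F ξ) := by
  have h1 := inv_cont hF2 hp
  have h2 : Continuous fun g : SUGroup n => fderiv ℝ F (act g (base n)) (act g (vec ξ)) :=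
    (continuous_orb (continuousOn_fderiv_cone hF2)).clm_apply (continuous_actv _)
  have h3 : Continuous fun g : SUGroup n => F (act g (base n)) :=
    continuous_orb hF2.continuousOn
  have h4 : Continuous fun g : SUGroup n =>
      ((F (act g (base n)))⁻¹ * fderiv ℝ F (act g (base n)) (act g (vec ξ)))ᴴ :=
    (h1.mul h2).star
  unfold enD nF
  exact trre_cont.comp ((((h1.mul h2).mul h1).mul h4).mul h3)

theorem enD_nonneg (hp : ∀ v ∈ Cone n, (F v).PosDef) (ξ : Fin n → ℂ) (g : SUGroup n) :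
    0 ≤ enD F ξ g := nF_nonneg (hp _ (orbit_mem g)) _

theorem enN_cont (hF2 : ContDiffOn ℝ 2 F (Cone n)) (hp : ∀ v ∈ Cone n, (F v).PosDef) :
    Continuous (enN F) := by
  unfold enN
  refine continuous_finsetSum _ fun i _ => ?_
  have h1 : ContinuousOn (fun p : Jet n m => nF p.1 (jth p i.castSucc)) (jS n m) :=
    nF_cont (jth_cont i.castSucc)
  have h2 : Continuous fun g : SUGroup n => nF (jet F g).1 (jth (jet F g) i.castSucc) :=
    h1.comp_continuous (jet_cont hF2) fun g => bc_unit hp (orbit_mem g)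
  have h3 : ∀ g : SUGroup n, jth (jet F g) i.castSucc =
      thz F (act g (base n)) (act g (Pi.single i.castSucc 1)) := fun g => rfl
  have h4 : ∀ g : SUGroup n, (jet F g).1 = F (act g (base n)) := fun g => rfl
  simp only [h3, h4] at h2
  exact h2

/-- the energy in the frame is bounded by the energies in the directions -/
theorem enN_le (hp : ∀ v ∈ Cone n, (F v).PosDef) (g : SUGroup n) :
    enN F g ≤ ∑ i : Fin n, (enD F (Pi.single i 1) g + enD F (Pi.single i Complex.I) g) := by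
  rw [enN]
  refine Finset.sum_le_sum fun i _ => ?_
  have hM := hp _ (orbit_mem g)
  have e1 : act g (vec (Pi.single i 1)) = act g (Pi.single i.castSucc 1) := by rw [vec_single]
  have e2 : act g (vec (Pi.single i Complex.I)) =
      Complex.I • act g (Pi.single i.castSucc 1) := by
    rw [vec_single, ← act_smul, ← Pi.single_smul, smul_eq_mul, mul_one]
  rw [enD, enD, e1, e2, thz, dz]
  set X := fderiv ℝ F (act g (base n)) (act g (Pi.single i.castSucc 1))
  set Y := fderiv ℝ F (act g (base n)) (Complex.I • act g (Pi.single i.castSucc 1))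
  set M := F (act g (base n))
  have h1 : (1 / 2 : ℂ) • (M⁻¹ * ((1 / 2 : ℂ) • (X - Complex.I • Y))) =
      (1 / 4 : ℂ) • (M⁻¹ * X + (-Complex.I) • (M⁻¹ * Y)) := by
    simp only [Matrix.mul_smul, Matrix.mul_sub, smul_smul, smul_sub, smul_add]
    rw [sub_eq_add_neg, ← neg_smul]
    congr 2
    · norm_num
    · ring
  rw [h1, nF_smul]
  have h2 := nF_add_le hM (M⁻¹ * X) ((-Complex.I) • (M⁻¹ * Y))
  rw [nF_smul, norm_neg, Complex.norm_I, one_pow, one_mul] at h2
  have h3 := nF_nonneg hM (M⁻¹ * X)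
  have h4 := nF_nonneg hM (M⁻¹ * Y)
  have h5 : ‖(1 / 4 : ℂ)‖ ^ 2 = 1 / 16 := by norm_num
  rw [h5]
  linarith

/-- The energy in one direction is integrable. -/
theorem LI_enD (h : Lat Γ χ) {C : ℝ} (hF2 : ContDiffOn ℝ 2 F (Cone n))
    (hp : ∀ v ∈ Cone n, (F v).PosDef)
    (hD : ∀ x, LI χ (fun g => ENNReal.ofReal
      (dT (F (act g (base n))) (F (act (g * x) (base n))) ^ 2)) ≤
        ENNReal.ofReal (C * Real.log (wt x) ^ 2)) {ξ : Fin n → ℂ} (hξ : ∑ i, ‖ξ i‖ ^ 2 = 1) :
    LI χ (fun g => ENNReal.ofReal (enD F ξ g)) ≤ ENNReal.ofReal (m * C) := by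
  obtain ⟨b, hb0, -, -, hch, hbd⟩ := exists_flow ξ hξ
  -- the step
  obtain ⟨t, ht⟩ : ∃ t : ℕ → ℝ, ∀ k : ℕ, t k = 1 / (k + 1 : ℝ) := ⟨fun k => 1 / (k + 1 : ℝ), fun k => rfl⟩
  have htpos : ∀ k, 0 < t k := fun k => by rw [ht]; positivity
  have ht0 : Tendsto t atTop (𝓝 0) := by
    have := tendsto_one_div_add_atTop_nhds_zero_nat (𝕜 := ℝ)
    exact this.congr fun k => (ht k).symm
  have hFc : Continuous fun g : SUGroup n => F (act g (base n)) :=
    continuous_orb hF2.continuousOn
  have hFc' : ∀ x : SUGroup n, Continuous fun g : SUGroup n => F (act (g * x) (base n)) := fun x =>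
    hFc.comp (continuous_mul_const x)
  obtain ⟨r, hr⟩ : ∃ r : ℕ → SUGroup n → ℝ, ∀ k g, r k g =
      dT (F (act g (base n))) (F (act (g * b (t k)) (base n))) := ⟨fun k g => _, fun k g => rfl⟩
  have hrc : ∀ k, Continuous (r k) := by
    intro k
    have h1 := continuousOn_dT.comp_continuous (f := fun g : SUGroup n =>
      (F (act g (base n)), F (act (g * b (t k)) (base n)))) (hFc.prodMk (hFc' _))
      fun g => ⟨hp _ (orbit_mem g), hp _ (orbit_mem _)⟩
    exact h1.congr fun g => (hr k g).symm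
  -- the difference quotients
  obtain ⟨q, hq⟩ : ∃ q : ℕ → SUGroup n → ℝ, ∀ k g, q k g =
      (((t k)⁻¹ • (F (act (g * b (t k)) (base n)) - F (act g (base n)))) *
        (F (act g (base n)))⁻¹ * (((t k)⁻¹ • (F (act (g * b (t k)) (base n)) -
        F (act g (base n)))) * (F (act g (base n)))⁻¹)).trace.re := ⟨fun k g => _, fun k g => rfl⟩
  have hqc : ∀ k, Continuous (q k) := by
    intro k
    have h1 : Continuous fun g : SUGroup n =>
        (t k)⁻¹ • (F (act (g * b (t k)) (base n)) - F (act g (base n))) := by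
      have h0 : Continuous fun g : SUGroup n =>
        F (act (g * b (t k)) (base n)) - F (act g (base n)) := (hFc' _).sub hFc
      exact (continuous_const_smul (t k)⁻¹).comp h0
    have h2 := h1.mul (inv_cont hF2 hp)
    exact (trre_cont.comp (h2.mul h2)).congr fun g => (hq k g).symm
  have hql : ∀ g, Tendsto (fun k => q k g) atTop (𝓝 (enD F ξ g)) := by
    intro g
    have hv := orbit_mem g
    have hd0 : DifferentiableAt ℝ F (act (g * b 0) (base n)) := bc_diff hF2 (orbit_mem _)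
    have h1 := HM.hasDerivAt_flow hbd g 0 hd0
    rw [hb0, mul_one] at h1
    have h2 : Tendsto (fun k => (t k)⁻¹ • (F (act (g * b (t k)) (base n)) -
        F (act g (base n)))) atTop (𝓝 (fderiv ℝ F (act g (base n)) (act g (vec ξ)))) := by
      have h3 := h1.tendsto_slope_zero
      have h4 : Tendsto t atTop (𝓝[≠] 0) :=
        tendsto_nhdsWithin_iff.2 ⟨ht0, Eventually.of_forall fun k => (htpos k).ne'⟩
      have h5 := h3.comp h4
      refine h5.congr fun k => ?_
      simp only [Function.comp_apply, zero_add, hb0, mul_one]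
    have h6 := (h2.mul_const (F (act g (base n)))⁻¹)
    have h7 := (trre_cont.tendsto _).comp (h6.mul h6)
    rw [enD, nF_inv_mul (hp _ hv) (fderiv_her hp hv (bc_diff hF2 hv) _)]
    exact h7.congr fun k => (hq k g).symm
  have hrl : ∀ g, Tendsto (fun k => r k g) atTop (𝓝 0) := by
    intro g
    have hd0 : DifferentiableAt ℝ F (act (g * b 0) (base n)) := bc_diff hF2 (orbit_mem _)
    have h1 := (HM.hasDerivAt_flow hbd g 0 hd0).continuousAt.tendsto
    rw [hb0, mul_one] at h1
    have h2 := h1.comp ht0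
    have h3 : Tendsto (fun k => (F (act g (base n)), F (act (g * b (t k)) (base n)))) atTop
        (𝓝[{p : Mat m × Mat m | p.1.PosDef ∧ p.2.PosDef}]
          (F (act g (base n)), F (act g (base n)))) :=
      tendsto_nhdsWithin_iff.2 ⟨tendsto_const_nhds.prodMk_nhds h2,
        Eventually.of_forall fun k => ⟨hp _ (orbit_mem g), hp _ (orbit_mem _)⟩⟩
    have h4 := (continuousOn_dT (m := m) (F (act g (base n)), F (act g (base n)))
      ⟨hp _ (orbit_mem g), hp _ (orbit_mem g)⟩).tendsto.comp h3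
    rw [DD.dT_self] at h4
    exact h4.congr fun k => (hr k g).symm
  -- the estimate
  have hle : ∀ k g, q k g * Real.exp (-(2 * r k g)) ≤ m * (t k)⁻¹ ^ 2 * r k g ^ 2 := by
    intro k g
    have hr0 : 0 ≤ r k g := by rw [hr]; exact dT_nonneg _ _
    have h1 := tr_sq_le (hp _ (orbit_mem g)) (hp _ (orbit_mem (g * b (t k))))
    rw [← hr] at h1
    have h2 : q k g = (t k)⁻¹ ^ 2 * (((F (act (g * b (t k)) (base n)) - F (act g (base n))) *
        (F (act g (base n)))⁻¹ * ((F (act (g * b (t k)) (base n)) - F (act g (base n))) *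
          (F (act g (base n)))⁻¹)).trace.re) := by
      rw [hq]
      simp only [Matrix.smul_mul, Matrix.mul_smul, smul_smul, trace_smul, Complex.smul_re,
        smul_eq_mul, sq]
    have h3 : Real.exp (r k g) - 1 ≤ r k g * Real.exp (r k g) := by
      have h4 := Real.add_one_le_exp (-(r k g))
      have h5 := mul_le_mul_of_nonneg_right h4 (Real.exp_pos (r k g)).le
      rw [← Real.exp_add, neg_add_cancel, Real.exp_zero] at h5
      linarith
    have h6 : 0 ≤ Real.exp (r k g) - 1 := by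
      have := Real.one_le_exp hr0
      linarith
    have h7 : (Real.exp (r k g) - 1) ^ 2 ≤ (r k g * Real.exp (r k g)) ^ 2 :=
      pow_le_pow_left₀ h6 h3 2
    have h8 : (Real.exp (r k g)) ^ 2 * Real.exp (-(2 * r k g)) = 1 := by
      rw [← Real.exp_nat_mul, ← Real.exp_add]
      push_cast
      rw [add_neg_cancel, Real.exp_zero]
    have h9 : 0 ≤ (t k)⁻¹ ^ 2 := sq_nonneg _
    have h10 := Real.exp_pos (-(2 * r k g))
    calc q k g * Real.exp (-(2 * r k g)) ≤
        ((t k)⁻¹ ^ 2 * (m * (Real.exp (r k g) - 1) ^ 2)) * Real.exp (-(2 * r k g)) := by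
          rw [h2]
          exact mul_le_mul_of_nonneg_right (mul_le_mul_of_nonneg_left h1 h9) h10.le
      _ ≤ ((t k)⁻¹ ^ 2 * (m * (r k g * Real.exp (r k g)) ^ 2)) * Real.exp (-(2 * r k g)) := by
          refine mul_le_mul_of_nonneg_right (mul_le_mul_of_nonneg_left ?_ h9) h10.le
          exact mul_le_mul_of_nonneg_left h7 (Nat.cast_nonneg m)
      _ = m * (t k)⁻¹ ^ 2 * r k g ^ 2 * ((Real.exp (r k g)) ^ 2 * Real.exp (-(2 * r k g))) := by
          ring
      _ = _ := by rw [h8, mul_one]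
  -- the limit
  have hlim : ∀ g, Tendsto (fun k => ENNReal.ofReal (χ g) *
      ENNReal.ofReal (q k g * Real.exp (-(2 * r k g)))) atTop
      (𝓝 (ENNReal.ofReal (χ g) * ENNReal.ofReal (enD F ξ g))) := by
    intro g
    refine ENNReal.Tendsto.const_mul (ENNReal.tendsto_ofReal ?_) (Or.inr ENNReal.ofReal_ne_top)
    have h1 : Tendsto (fun k => Real.exp (-(2 * r k g))) atTop (𝓝 1) := by
      have h2 := ((hrl g).const_mul 2).neg
      rw [mul_zero, neg_zero] at h2
      have h3 := (Real.continuous_exp.tendsto 0).comp h2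
      rwa [Real.exp_zero] at h3
    have h4 := (hql g).mul h1
    rwa [mul_one] at h4
  have hfat := lintegral_liminf_le' (μ := mu n) (u := atTop) (f := fun k g => ENNReal.ofReal (χ g) *
      ENNReal.ofReal (q k g * Real.exp (-(2 * r k g)))) fun k =>
    (h.measurable.mul (((hqc k).mul (Real.continuous_exp.comp
      ((hrc k).const_mul 2).neg)).measurable.ennreal_ofReal)).aemeasurable
  have hI : LI χ (fun g => ENNReal.ofReal (enD F ξ g)) ≤ liminf (fun k =>
      ∫⁻ g, ENNReal.ofReal (χ g) * ENNReal.ofReal (q k g * Real.exp (-(2 * r k g))) ∂(mu n))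
      atTop := by
    refine le_trans (le_of_eq ?_) hfat
    rw [LI]
    exact lintegral_congr fun g => (hlim g).liminf_eq.symm
  refine hI.trans ?_
  have hk : ∀ k, ∫⁻ g, ENNReal.ofReal (χ g) *
      ENNReal.ofReal (q k g * Real.exp (-(2 * r k g))) ∂(mu n) ≤ ENNReal.ofReal (m * C) := by
    intro k
    have h0 : 0 ≤ (m : ℝ) * (t k)⁻¹ ^ 2 := by positivity
    calc _ ≤ ∫⁻ g, ENNReal.ofReal (m * (t k)⁻¹ ^ 2) * (ENNReal.ofReal (χ g) *
          ENNReal.ofReal (r k g ^ 2)) ∂(mu n) := by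
          refine lintegral_mono fun g => ?_
          show ENNReal.ofReal (χ g) * _ ≤ _
          rw [mul_left_comm, ← ENNReal.ofReal_mul h0]
          exact mul_le_mul_right (ENNReal.ofReal_le_ofReal (hle k g)) _
      _ = ENNReal.ofReal (m * (t k)⁻¹ ^ 2) * ∫⁻ g, ENNReal.ofReal (χ g) *
          ENNReal.ofReal (r k g ^ 2) ∂(mu n) := lintegral_const_mul' _ _ ENNReal.ofReal_ne_top
      _ ≤ ENNReal.ofReal (m * (t k)⁻¹ ^ 2) *
          ENNReal.ofReal (C * Real.log (wt (b (t k))) ^ 2) := by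
          have h1 := hD (b (t k))
          rw [LI] at h1
          simp only [← hr] at h1
          exact mul_le_mul_right h1 _
      _ = _ := by
          rw [← ENNReal.ofReal_mul h0, log_wt_of_cosh (hch (t k)), sq_abs]
          congr 1
          have := (htpos k).ne'
          field_simp
  refine (liminf_le_liminf (Eventually.of_forall hk)).trans ?_
  simp

theorem integrable_of_LI (h : Lat Γ χ) {f : SUGroup n → ℝ} (hc : Continuous f)
    (h0 : ∀ g, 0 ≤ f g) (hfin : LI χ (fun g => ENNReal.ofReal (f g)) ≠ ⊤) :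
    Integrable (fun g => χ g • f g) (mu n) := by
  refine ⟨(h.cont.smul hc).aestronglyMeasurable, ?_⟩
  show HasFiniteIntegral (fun g => χ g * f g) (mu n)
  rw [hasFiniteIntegral_iff_ofReal (ae_of_all _ fun g => mul_nonneg (h.pos g).le (h0 g))]
  have e : ∫⁻ g, ENNReal.ofReal (χ g * f g) ∂(mu n) = LI χ (fun g => ENNReal.ofReal (f g)) := by
    rw [LI]
    refine lintegral_congr fun g => ?_
    rw [ENNReal.ofReal_mul (h.pos g).le]
  rw [e]
  exact lt_top_iff_ne_top.2 hfin

/-- A16: the energy is finite. -/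
theorem integrable_enN (h : Lat Γ χ) {C : ℝ} (hF2 : ContDiffOn ℝ 2 F (Cone n))
    (hp : ∀ v ∈ Cone n, (F v).PosDef)
    (hD : ∀ x, LI χ (fun g => ENNReal.ofReal
      (dT (F (act g (base n))) (F (act (g * x) (base n))) ^ 2)) ≤
        ENNReal.ofReal (C * Real.log (wt x) ^ 2)) :
    Integrable (fun g => χ g • enN F g) (mu n) := by
  have h1 : ∀ (i : Fin n) (c : ℂ), ‖c‖ = 1 →
      Integrable (fun g => χ g • enD F (Pi.single i c) g) (mu n) := fun i c hc =>
    integrable_of_LI h (enD_cont hF2 hp _) (enD_nonneg hp _)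
      (ne_top_of_le_ne_top ENNReal.ofReal_ne_top (LI_enD h hF2 hp hD (sum_single_sq i hc)))
  have h2 : Integrable (fun g => ∑ i : Fin n, (χ g • enD F (Pi.single i 1) g +
      χ g • enD F (Pi.single i Complex.I) g)) (mu n) :=
    integrable_finsetSum _ fun i _ => (h1 i 1 (by simp)).add (h1 i Complex.I (by simp))
  refine h2.mono' (h.cont.smul (enN_cont hF2 hp)).aestronglyMeasurable
    (Eventually.of_forall fun g => ?_)
  simp only [smul_eq_mul]
  rw [Real.norm_of_nonneg (mul_nonneg (h.pos g).le (enN_nonneg hp g))]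
  have h3 := mul_le_mul_of_nonneg_left (enN_le hp g) (h.pos g).le
  rw [Finset.mul_sum] at h3
  simp only [mul_add] at h3
  exact h3

end

end Pool.Agent.Lib.MP_5d4057_al.NU
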