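import Pool.Agent.Lib.MP_5d4057_al.HM.DefsB

/-! Interfaces of the project NU (nonuniform lattices), see the blueprint h37_nu. -/

namespace Pool.Agent.Lib.MP_5d4057_al.NU

open Matrix MeasureTheory Filter Topology Pool.Agent.Lib.MP_5d4057_al
  Pool.Agent.Lib.MP_5d4057_al.Hyb Pool.Agent.Lib.MP_5d4057_al.HM

open scoped ComplexOrder MatrixOrder Matrix.Norms.L2Operator ENNReal

variable {n m : ℕ}

/-- A discrete subgroup of finite covolume with a partition of unity. -/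
structure Lat (Γ : Subgroup (SUGroup n)) (χ : SUGroup n → ℝ) : Prop where
  disc : DiscreteTopology Γ
  cont : Continuous χ
  pos : ∀ g, 0 < χ g
  sum : ∀ g, ∑' γ : Γ, χ (γ * g) = 1
  int : Integrable χ (mu n)

/-- No element other than `1` fixes a point of complex hyperbolic space. -/
def TF (Γ : Subgroup (SUGroup n)) : Prop :=
  ∀ γ ∈ Γ, ∀ v ∈ Cone n, ∀ c : ℂ, act γ v = c • v → γ = 1

/-- The height of `v` with respect to the isotropic vector `p`. -/
noncomputable def yp (p v : Vec n) : ℝ := -q v / ‖herm v p‖ ^ 2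

/-- A height function: outside a set which is compact modulo `Γ` it is, near each point, the height
with respect to one isotropic vector. -/
structure Ht (Γ : Subgroup (SUGroup n)) (T : ℝ) (y : Vec n → ℝ) : Prop where
  hom : Homog y
  inv : ∀ γ ∈ Γ, ∀ v ∈ Cone n, y (act γ v) = y v
  one_le : ∀ v ∈ Cone n, 1 ≤ y v
  harn : ∀ g x : SUGroup n, y (act (g * x) (base n)) ≤ wt x ^ 2 * y (act g (base n))
  nul : ∀ g : SUGroup n, T ≤ y (act g (base n)) → ∃ p : Vec n, p ≠ 0 ∧ q p = 0 ∧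
    y (act g (base n)) = yp p (act g (base n)) ∧
    (∀ h : SUGroup n, yp p (act h (base n)) ≤ y (act h (base n))) ∧
    ∀ h : SUGroup n, T ≤ 4 * yp p (act h (base n)) →
      y (act h (base n)) = yp p (act h (base n))
  cpt : ∀ R : ℝ, ∃ F : Set (SUGroup n), IsCompact F ∧
    ∀ g : SUGroup n, y (act g (base n)) ≤ R → ∃ γ ∈ Γ, γ * g ∈ F

/-- Polynomial growth of a representation. -/
def Grow {Γ : Subgroup (SUGroup n)} (ρ : Γ →* Mat m) (N : ℕ) (C : ℝ) : Prop :=
  ∀ γ : Γ, ‖ρ γ‖ ≤ C * ch (γ : SUGroup n) ^ N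

/-- Integration over `Γ \ G` of a nonnegative function. -/
noncomputable def LI (χ : SUGroup n → ℝ) (f : SUGroup n → ℝ≥0∞) : ℝ≥0∞ :=
  ∫⁻ g, ENNReal.ofReal (χ g) * f g ∂(mu n)

/-- The energy of a pair at level `s`. -/
noncomputable def LE (χ : SUGroup n → ℝ) (s : ℕ) (H L : Vec n → Mat m) : ℝ≥0∞ :=
  LI χ fun g => ∫⁻ x, ENNReal.ofReal (kap s x) *
    ENNReal.ofReal (sig (L (act g (base n))) (H (act (g * x) (base n)))) ∂(mu n)

/-- The result of the existence theory at level `s` (PN of the blueprint): critical pairs of growth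
and energy bounded independently of `s`. -/
structure PN {Γ : Subgroup (SUGroup n)} (ρ : Γ →* Mat m) (χ : SUGroup n → ℝ)
    (F₀ : Set (SUGroup n)) (N : ℕ) (C : ℝ) (s : ℕ) (H L : Vec n → Mat m) : Prop where
  pair : Pair ρ s H L
  harnH : ∀ g x : SUGroup n, H (act (g * x) (base n)) ≤ (wt x ^ (2 * s) : ℂ) • H (act g (base n))
  harnL : ∀ g x : SUGroup n, L (act (g * x) (base n)) ≤ (wt x ^ (2 * s) : ℂ) • L (act g (base n))
  adm : ∃ C' : ℝ, Adm N C' H ∧ Adm N C' L ∧ Adm N C' (fun v => (H v)⁻¹) ∧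
    Adm N C' (fun v => (L v)⁻¹)
  up : ∀ K : ℝ, (∀ g ∈ F₀, (H (act g (base n)) + L (act g (base n))).trace.re ≤ K) →
    ∀ g : SUGroup n, (H (act g (base n)) + L (act g (base n))).trace.re ≤ C * K * ch g ^ (2 * N)
  dn : ∀ K : ℝ, (∀ g ∈ F₀, ((H (act g (base n)))⁻¹ + (L (act g (base n)))⁻¹).trace.re ≤ K) →
    ∀ g : SUGroup n, ((H (act g (base n)))⁻¹ + (L (act g (base n)))⁻¹).trace.re ≤
      C * K * ch g ^ (2 * N)
  energy : LE χ s H L ≤ ENNReal.ofReal (C / s)

/-- The limit metric. -/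
structure LimN {Γ : Subgroup (SUGroup n)} (ρ : Γ →* Mat m) (χ : SUGroup n → ℝ) (N : ℕ) (C : ℝ)
    (F : Vec n → Mat m) : Prop where
  hom : Homog F
  equi : Equi ρ F
  pos : ∀ v ∈ Cone n, (F v).PosDef
  meas : AEStronglyMeasurable (fun g : SUGroup n => F (act g (base n))) (mu n)
  bound : ∀ g : SUGroup n, ‖F (act g (base n))‖ ≤ C * ch g ^ (2 * N)
  boundInv : ∀ g : SUGroup n, ‖(F (act g (base n)))⁻¹‖ ≤ C * ch g ^ (2 * N)
  dist : ∀ x : SUGroup n,
    LI χ (fun g => ENNReal.ofReal (dT (F (act g (base n))) (F (act (g * x) (base n))) ^ 2)) ≤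
      ENNReal.ofReal (C * Real.log (wt x) ^ 2)
  sub : ∃ s M, Approx N C s M F
  sub' : ∃ s M, Approx N C s M fun v => (F v)⁻¹

end Pool.Agent.Lib.MP_5d4057_al.NU
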