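import Pool.Agent.Lib.MP_5d4057_al.NU.BootA
import Pool.Agent.Lib.MP_5d4057_al.NU.PairN
import Pool.Agent.Lib.MP_5d4057_al.NU.Defs
import Pool.Agent.Lib.MP_5d4057_al.HM.BootPair

/-! The uniform bound for critical pairs in the nonuniform case (A13 of the blueprint of NU). -/

set_option autoImplicit false

namespace Pool.Agent.Lib.MP_5d4057_al.NU

open Matrix MeasureTheory Filter Topology Pool.Agent.Lib.MP_5d4057_al
  Pool.Agent.Lib.MP_5d4057_al.Hyb Pool.Agent.Lib.MP_5d4057_al.HM

open scoped ComplexOrder MatrixOrder Matrix.Norms.L2Operator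

variable {n m : ℕ}

/-- RESULT of A13: critical pairs of level `s ≥ s₁` whose trace is bounded in measure and grows
polynomially in terms of its maximum on `F₀` are uniformly bounded. Use it for `Pair.inv` to bound
the inverses. -/
theorem boot_pairN (hn : 1 ≤ n) (m N : ℕ) {F₀ : Set (SUGroup n)} (hF₀ : IsCompact F₀) {C₀ : ℝ}
    (hC₀ : 0 < C₀) : ∃ s₁ : ℕ, ∀ ψ : ℝ → ℝ → ℝ, (∀ R, Tendsto (ψ R) atTop (𝓝 0)) →
      ∃ C : ℝ, 0 < C ∧ ∀ (Γ : Subgroup (SUGroup n)) (ρ : Γ →* Mat m) (s : ℕ), s₁ ≤ s →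
        ∀ H L : Vec n → Mat m, Pair ρ s H L →
        (∃ C' : ℝ, Adm N C' H ∧ Adm N C' L ∧ Adm N C' (fun v => (H v)⁻¹) ∧
          Adm N C' (fun v => (L v)⁻¹)) →
        (∀ K : ℝ, (∀ g ∈ F₀, (H (act g (base n)) + L (act g (base n))).trace.re ≤ K) →
          ∀ g : SUGroup n, (H (act g (base n)) + L (act g (base n))).trace.re ≤
            C₀ * K * ch g ^ (2 * N)) →
        (∀ R T, (mu n).real {g | ch g ≤ R ∧
          T < (H (act g (base n)) + L (act g (base n))).trace.re} ≤ ψ R T) →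
        ∀ g : SUGroup n, (H (act g (base n)) + L (act g (base n))).trace.re ≤
          C * ch g ^ (2 * N) := by
  obtain ⟨s3, h3⟩ := P_comm (E := ℝ) hn N
  obtain ⟨s4, h4⟩ := lap_P (E := ℝ) hn N
  obtain ⟨s5, h5⟩ := P_bound (E := ℝ) n N
  obtain ⟨s6, h6⟩ := P_clm (E := Mat m) (E' := ℝ) n N
  obtain ⟨s7, h7⟩ := P_add (E := Mat m) n N
  obtain ⟨A, hA⟩ : ∃ A, A = 2 * (2 * n + 2) + 4 * N + 2 + (s3 + s4 + s5 + s6 + s7) := ⟨_, rfl⟩
  refine ⟨2 * (2 * n + 2) + 4 * A + 2, fun ψ hψ => ?_⟩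
  obtain ⟨C₁, hC₁, key⟩ := boot_sixN (Boot.csOK n) (N := N) (A := A) (by omega) hF₀ hC₀ hψ
  refine ⟨C₁, hC₁, fun Γ ρ s hs H L hHL hadm hgrow hvol => ?_⟩
  -- the sum
  obtain ⟨M, hM⟩ : ∃ M : Vec n → Mat m, M = fun v => H v + L v := ⟨_, rfl⟩
  have hMet : Met ρ M := by
    rw [hM]
    refine ⟨fun c hc v hv => ?_, ?_, fun v hv => ?_, fun γ v hv => ?_⟩
    · beta_reduce
      rw [hHL.metH.hom c hc v hv, hHL.metL.hom c hc v hv]
    · exact hHL.metH.cont.add hHL.metL.cont
    · exact (hHL.metH.pos v hv).add (hHL.metL.pos v hv)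
    · beta_reduce
      rw [hHL.metH.equi γ v hv, hHL.metL.equi γ v hv, Matrix.mul_add, Matrix.add_mul]
  obtain ⟨U, hU⟩ : ∃ U : Vec n → ℝ, U = fun v => (M v).trace.re := ⟨_, rfl⟩
  obtain ⟨u, hu⟩ : ∃ u : SUGroup n → ℝ, u = fun g => U (act g (base n)) := ⟨_, rfl⟩
  have hug : ∀ g, u g = (M (act g (base n))).trace.re := fun g => by rw [hu, hU]
  have hUc : ContinuousOn U (Cone n) := by
    rw [hU]
    exact (Boot.trL m).continuous.comp_continuousOn hMet.cont
  have huc : Continuous u := by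
    rw [hu]
    exact hUc.comp_continuous continuous_orbit fun g => orbit_mem g
  have hpsd : ∀ v ∈ Cone n, (M v).PosSemidef := fun v hv => (hMet.pos v hv).posSemidef
  have hu0 : ∀ g, 0 ≤ u g := by
    intro g
    rw [hug]
    have h := (hpsd _ (orbit_mem g)).trace_nonneg
    exact (Complex.le_def.1 h).1
  have hg0 : ∀ K, (∀ g ∈ F₀, u g ≤ K) → ∀ g, u g ≤ C₀ * K * ch g ^ (2 * N) := by
    intro K hK g
    have h1 := hgrow K (fun g hg => by
      have h2 := hK g hg
      rw [hug, hM] at h2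
      exact h2) g
    rw [hug, hM]
    exact h1
  -- growth
  have hadm' := hadm
  obtain ⟨B, aH, aL, -, -⟩ := hadm
  have hB0 := adm_nonneg aH
  have hAdmHL : Adm N B H ∧ Adm N B L := ⟨aH, aL⟩
  have hAdmU : ∃ B', Adm N B' U := by
    refine ⟨m * (2 * B), ?_, fun g => ?_⟩
    · have : (fun y : SUGroup n => U (act y (base n))) = u := by rw [hu]
      rw [this]
      exact huc.aestronglyMeasurable
    · have e : U (act g (base n)) = u g := by rw [hu]
      rw [e, Real.norm_eq_abs, abs_of_nonneg (hu0 g), hug, hM]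
      beta_reduce
      have h1 := trace_le_norm (H (act g (base n)) + L (act g (base n)))
      have h2 := norm_add_le (H (act g (base n))) (L (act g (base n)))
      have h3 := aH.bound g
      have h4 := aL.bound g
      have h5 : (0 : ℝ) ≤ m := Nat.cast_nonneg m
      have h6 : (m : ℝ) * ‖H (act g (base n)) + L (act g (base n))‖ ≤
          m * (2 * (B * ch g ^ (2 * N))) := mul_le_mul_of_nonneg_left (by linarith) h5
      calc (H (act g (base n)) + L (act g (base n))).trace.re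
          ≤ m * (2 * (B * ch g ^ (2 * N))) := h1.trans h6
        _ = _ := by ring
  obtain ⟨B', hAdmU⟩ := hAdmU
  have hAdmM : Adm N (2 * B) M := by
    refine ⟨?_, fun g => ?_⟩
    · exact (hMet.cont.comp_continuous continuous_orbit fun g => orbit_mem g).aestronglyMeasurable
    · rw [hM]
      beta_reduce
      have h2 := norm_add_le (H (act g (base n))) (L (act g (base n)))
      have h3 := aH.bound g
      have h4 := aL.bound g
      calc ‖H (act g (base n)) + L (act g (base n))‖ ≤ B * ch g ^ (2 * N) + B * ch g ^ (2 * N) := by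
            linarith
        _ = _ := by ring
  have hPtr : ∀ a, A ≤ a → ∀ v ∈ Cone n, P a U v = (P a M v).trace.re := by
    intro a ha v hv
    have h := h6 a (by omega) (2 * B) M (Boot.trL m) hAdmM v hv
    rw [Boot.trL_apply] at h
    rw [← h, hU]
    rfl
  have hQP : ∀ a g, Boot.Q a u g = P a U (act g (base n)) := by
    intro a g
    rw [hu, Boot.Q_eq_P]
  have hQQ : ∀ a b g, Boot.Q a (Boot.Q b u) g = P a (P b U) (act g (base n)) := by
    intro a b g
    have e : Boot.Q b u = fun g => P b U (act g (base n)) := funext fun g => hQP b g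
    rw [e, Boot.Q_eq_P]
  have hcomm : ∀ a b, A ≤ a → A ≤ b → ∀ g, Boot.Q a (Boot.Q b u) g = Boot.Q b (Boot.Q a u) g := by
    intro a b ha hb g
    rw [hQQ, hQQ]
    exact h3 a b (by omega) (by omega) _ U hAdmU _ (orbit_mem g)
  have hlap : ∀ a b, A ≤ a → A ≤ b → ∀ g,
      lam n a * (Boot.Q a (Boot.Q b u) g - Boot.Q (a + 1) (Boot.Q b u) g) =
        lam n b * (Boot.Q a (Boot.Q b u) g - Boot.Q a (Boot.Q (b + 1) u) g) := by
    intro a b ha hb g
    have hv := orbit_mem (n := n) g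
    have e1 := h4 a (by omega) _ (P b U) (h5 b (by omega) _ U hAdmU) _ hv
    have e2 := h4 b (by omega) _ (P a U) (h5 a (by omega) _ U hAdmU) _ hv
    have e3 := Boot.lap_congr (fun w hw => h3 a b (by omega) (by omega) _ U hAdmU w hw) hv
    have e4 := h3 a b (by omega) (by omega) _ U hAdmU _ hv
    have e5 := h3 a (b + 1) (by omega) (by omega) _ U hAdmU _ hv
    simp only [hQQ]
    rw [e1, e2, smul_eq_mul, smul_eq_mul, ← e4, ← e5] at e3
    exact e3
  have hsub : ∀ g, u g ≤ Boot.Q s u g := by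
    intro g
    have hv := orbit_mem (n := n) g
    obtain ⟨k1, k2, -, -⟩ := pair_leN (N := N) (by omega) hHL hadm' _ hv
    have e := h7 s (by omega) _ _ H L hAdmHL.1 hAdmHL.2 _ hv
    rw [hQP, hPtr s (by omega) _ hv, hug, hM]
    beta_reduce
    rw [e]
    have t1 := (Complex.le_def.1 (Matrix.le_iff.1 k1).trace_nonneg).1
    have t2 := (Complex.le_def.1 (Matrix.le_iff.1 k2).trace_nonneg).1
    rw [trace_sub, Complex.sub_re, Complex.zero_re] at t1 t2
    rw [trace_add, trace_add, Complex.add_re, Complex.add_re]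
    linarith
  have hvol' : ∀ R T, (mu n).real {g | ch g ≤ R ∧ T < u g} ≤ ψ R T := by
    intro R T
    have h := hvol R T
    have e : {g : SUGroup n | ch g ≤ R ∧ T < (H (act g (base n)) + L (act g (base n))).trace.re} =
        {g | ch g ≤ R ∧ T < u g} := by
      ext g
      simp only [Set.mem_ofPred_eq]
      rw [hug, hM]
    rwa [e] at h
  intro g
  have h := key s u hs huc hu0 hg0 hvol' hcomm hlap hsub g
  rw [hug, hM] at h
  exact h

end Pool.Agent.Lib.MP_5d4057_al.NU
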