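import Pool.Agent.Lib.MP_5d4057_al.NU.CuspA
import Pool.Agent.Lib.MP_5d4057_al.NU.CuspC
import Pool.Agent.Lib.MP_5d4057_al.Hyb.Heis

/-! Fixed isotropic lines (C3 - C6). `NF γ`: no negative line is fixed. -/

namespace Pool.Agent.Lib.MP_5d4057_al.NU

open Matrix MeasureTheory Filter Topology Pool.Agent.Lib.MP_5d4057_al
  Pool.Agent.Lib.MP_5d4057_al.Hyb Pool.Agent.Lib.MP_5d4057_al.HM
  Pool.Agent.Lib.MP_5d4057_al.HM.Kak

open scoped ComplexOrder MatrixOrder Matrix.Norms.L2Operator ENNReal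

variable {n m : ℕ}

/-- `γ` fixes no point of complex hyperbolic space. -/
def NF (γ : SUGroup n) : Prop := ∀ v ∈ Cone n, ∀ c : ℂ, act γ v ≠ c • v

/-- No torsion. -/
def Tor (Γ : Subgroup (SUGroup n)) : Prop := ∀ γ ∈ Γ, ∀ k : ℕ, 0 < k → γ ^ k = 1 → γ = 1

theorem TF.nf {Γ : Subgroup (SUGroup n)} (h : TF Γ) {γ : SUGroup n} (hγ : γ ∈ Γ) (h1 : γ ≠ 1) :
    NF γ := fun v hv c hc => h1 (h γ hγ v hv c hc)

/-- C3. A torsion free discrete subgroup acts freely: if `γ` fixes the line of `g e`, then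
`g⁻¹ γ g ∈ {ch = 1}` together with its powers; `finite_ds` and the pigeonhole principle. -/
theorem tf_of_tor {Γ : Subgroup (SUGroup n)} (hd : DiscreteTopology Γ) (h : Tor Γ) : TF Γ := by
  intro γ hγ v hv c hc
  obtain ⟨g, a, ha, hg⟩ := exists_act_eq hv
  have h1 : act (g⁻¹ * γ * g) (base n) = c • base n := by
    have h2 : act γ (act g (base n)) = c • act g (base n) := by
      have h3 : a • act γ (act g (base n)) = a • (c • act g (base n)) := by
        rw [← act_smul, ← hg, hc, smul_comm, ← hg]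
      exact smul_right_injective _ ha h3
    rw [act_mul, act_mul, h2, act_smul, ← act_mul, inv_mul_cancel, act_one]
  have hc1 : ‖c‖ = 1 := by
    have h2 := congrArg q h1
    rw [q_orbit, q_smul, q_base] at h2
    have h3 : ‖c‖ ^ 2 = 1 := by linarith
    exact (pow_eq_one_iff_of_nonneg (norm_nonneg c) two_ne_zero).1 h3
  have hpow : ∀ k : ℕ, act ((g⁻¹ * γ * g) ^ k) (base n) = c ^ k • base n := by
    intro k
    induction k with
    | zero => rw [pow_zero, pow_zero, act_one, one_smul]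
    | succ k ih => rw [pow_succ, act_mul, h1, act_smul, ih, smul_smul, ← pow_succ']
  have hch : ∀ k : ℕ, ch ((g⁻¹ * γ * g) ^ k) = 1 := fun k =>
    (ch_eq_one_iff _).2 ⟨c ^ k, by rw [norm_pow, hc1, one_pow], hpow k⟩
  have hconj : ∀ k : ℕ, γ ^ k = g * (g⁻¹ * γ * g) ^ k * g⁻¹ := by
    intro k
    induction k with
    | zero => simp
    | succ k ih => rw [pow_succ, pow_succ, ih]; group
  have hbd : ∀ k : ℕ, ch (γ ^ k) ≤ 2 * ch g * ch g := by
    intro k
    rw [hconj k]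
    refine (ch_mul_le' _ _).trans ?_
    rw [(ch_mul_of_ch_eq_one (hch k) g).2, ch_inv]
  have hfin := finite_ch hd (2 * ch g * ch g)
  have hmap : Set.MapsTo (fun k : ℕ => γ ^ k) Set.univ
      {γ : SUGroup n | γ ∈ Γ ∧ ch γ ≤ 2 * ch g * ch g} :=
    fun k _ => ⟨Γ.pow_mem hγ k, hbd k⟩
  obtain ⟨k, -, l, -, hkl, hne⟩ :=
    Set.infinite_univ.exists_lt_map_eq_of_mapsTo hmap hfin
  have h5 : γ ^ (l - k) = 1 := by
    have h6 : γ ^ l = γ ^ k * γ ^ (l - k) := by
      rw [← pow_add]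
      congr 1
      omega
    have h7 : γ ^ k = γ ^ l := hne
    rw [h6] at h7
    exact (mul_eq_left.mp h7.symm)
  exact h γ hγ (l - k) (by omega) h5

/-- C4. (An invariant subspace of minimal dimension among those containing a negative vector; an
eigenvector `v` in it; if `q v > 0` then the orthogonal complement of `v` in it is smaller.) -/
theorem exists_fixed {γ : SUGroup n} (h : NF γ) : ∃ ξ : Fin n → ℂ, nq ξ = 1 ∧ γ ∈ St ξ := by
  classical
  set S : Set (Submodule ℂ (Vec n)) :=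
    {W | (∀ w ∈ W, act γ w ∈ W) ∧ ∃ w ∈ W, q w < 0} with hS
  have hne : S.Nonempty := ⟨⊤, fun _ _ => Submodule.mem_top, base n, Submodule.mem_top, base_mem n⟩
  obtain ⟨W, ⟨hW, w, hwW, hw⟩, hmin⟩ := wellFounded_lt.has_min S hne
  set f : W →ₗ[ℂ] W := (Matrix.mulVecLin γ.toMatrix).restrict hW with hf
  have hw0 : (⟨w, hwW⟩ : W) ≠ 0 := by
    intro h0
    have h1 : w = 0 := congrArg Subtype.val h0
    rw [h1, q_eq] at hw
    simp at hw
  haveI : Nontrivial W := ⟨⟨w, hwW⟩, 0, hw0⟩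
  obtain ⟨c, hc⟩ := Module.End.exists_eigenvalue f
  obtain ⟨v, hv⟩ := hc.exists_hasEigenvector
  have hv0 : (v : Vec n) ≠ 0 := by
    intro h0
    exact hv.2 (Subtype.ext h0)
  have hcv : act γ (v : Vec n) = c • (v : Vec n) := by
    have h1 := hv.apply_eq_smul
    exact congrArg Subtype.val h1
  rcases lt_trichotomy (q (v : Vec n)) 0 with hq | hq | hq
  · exact absurd hcv (h v hq c)
  · obtain ⟨h1, ξ, hξ, h2⟩ := exists_pe hv0 hq
    refine ⟨ξ, hξ, c, ?_⟩
    have h3 : (v : Vec n) (Fin.last n) • act γ (pe ξ) =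
        (v : Vec n) (Fin.last n) • (c • pe ξ) := by
      rw [← act_smul, ← h2, hcv, smul_comm, ← h2]
    exact smul_right_injective _ h1 h3
  · exfalso
    have hqv : herm (v : Vec n) v ≠ 0 := by
      rw [herm_self]
      exact_mod_cast hq.ne'
    have hc0 : c ≠ 0 := by
      rintro rfl
      rw [zero_smul] at hcv
      apply hv0
      have h1 := congrArg (act γ⁻¹) hcv
      rw [← act_mul, inv_mul_cancel, act_one] at h1
      rw [h1, act, mulVec_zero]
    set W' : Submodule ℂ (Vec n) :=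
      { carrier := {x | x ∈ W ∧ herm (v : Vec n) x = 0}
        add_mem' := by
          rintro a b ⟨ha, ha'⟩ ⟨hb, hb'⟩
          exact ⟨W.add_mem ha hb, by rw [herm_add_right, ha', hb', add_zero]⟩
        zero_mem' := ⟨W.zero_mem, by
          have : herm (v : Vec n) ((0 : ℂ) • (0 : Vec n)) = 0 := by
            rw [herm_smul_right, zero_mul]
          rwa [zero_smul] at this⟩
        smul_mem' := by
          rintro a x ⟨hx, hx'⟩
          exact ⟨W.smul_mem a hx, by rw [herm_smul_right, hx', mul_zero]⟩ } with hW'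
    have hmem : ∀ x, x ∈ W' ↔ x ∈ W ∧ herm (v : Vec n) x = 0 := fun x => Iff.rfl
    have hlt : W' < W := by
      refine lt_of_le_of_ne (fun x hx => ((hmem x).1 hx).1) ?_
      intro h1
      have h2 : (v : Vec n) ∈ W' := by rw [h1]; exact v.2
      exact hqv ((hmem _).1 h2).2
    refine hmin W' ⟨?_, ?_⟩ hlt
    · intro x hx
      obtain ⟨hx1, hx2⟩ := (hmem x).1 hx
      refine (hmem _).2 ⟨hW x hx1, ?_⟩
      have h1 : herm (act γ (v : Vec n)) (act γ x) = 0 := by rw [herm_act, hx2]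
      rw [hcv, herm_smul_left] at h1
      exact (mul_eq_zero.1 h1).resolve_left (star_ne_zero.2 hc0)
    · set a : ℂ := -(herm (v : Vec n) w / herm (v : Vec n) v) with ha
      refine ⟨w + a • (v : Vec n), (hmem _).2 ⟨W.add_mem hwW (W.smul_mem a v.2), ?_⟩, ?_⟩
      · rw [herm_add_right, herm_smul_right, ha, neg_mul, div_mul_cancel₀ _ hqv, add_neg_cancel]
      · have h1 : herm (v : Vec n) (w + a • (v : Vec n)) = 0 := by
          rw [herm_add_right, herm_smul_right, ha, neg_mul, div_mul_cancel₀ _ hqv, add_neg_cancel]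
        clear_value a
        have h2 : w = (w + a • (v : Vec n)) + (-a) • (v : Vec n) := by
          rw [neg_smul]
          abel
        have h3 : q w = q (w + a • (v : Vec n)) + ‖a‖ ^ 2 * q (v : Vec n) := by
          have h4 : herm w w = herm (w + a • (v : Vec n)) (w + a • (v : Vec n)) +
              ((‖a‖ ^ 2 : ℝ) : ℂ) * herm (v : Vec n) v := by
            conv_lhs => rw [h2]
            rw [herm_add_left, herm_add_right, herm_add_right (_ • _), herm_smul_left,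
              herm_smul_left, herm_smul_right, herm_smul_right, h1,
              herm_comm (v : Vec n) (w + a • (v : Vec n)), h1, star_zero]
            have h5 : star (-a) * -a = ((‖a‖ ^ 2 : ℝ) : ℂ) := by
              rw [star_neg, neg_mul_neg, RCLike.star_def, Complex.conj_mul']
              push_cast
              rfl
            rw [← h5]
            ring
          rw [herm_self, herm_self, herm_self] at h4
          exact_mod_cast h4
        have h6 : 0 ≤ ‖a‖ ^ 2 * q (v : Vec n) := by positivity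
        linarith

/-- C5 (a): two fixed lines. (`⟨γp,γp'⟩ = ⟨p,p'⟩ ≠ 0` gives `conj λ * λ' = 1`; if `|λ| = 1` then
`λ' = λ` and the negative vector `p + c p'` is an eigenvector.) -/
theorem two_fixed {γ : SUGroup n} (h : NF γ) {ξ ξ' : Fin n → ℂ} (hξ : nq ξ = 1) (hξ' : nq ξ' = 1)
    (hne : ξ ≠ ξ') (h1 : γ ∈ St ξ) (h2 : γ ∈ St ξ') :
    star (ml γ ξ) * ml γ ξ' = 1 ∧ ‖ml γ ξ‖ ≠ 1 := by
  have e1 := act_of_mem_St hξ h1
  have e2 := act_of_mem_St hξ' h2
  have hh := herm_pe_ne hξ hξ' hne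
  have e3 := herm_act γ (pe ξ) (pe ξ')
  rw [e1, e2, herm_smul_left, herm_smul_right, ← mul_assoc] at e3
  have e4 : star (ml γ ξ) * ml γ ξ' = 1 := mul_right_cancel₀ hh (e3.trans (one_mul _).symm)
  refine ⟨e4, fun hn => ?_⟩
  have e5 : star (ml γ ξ) * ml γ ξ = 1 := by
    rw [RCLike.star_def, Complex.conj_mul', hn]
    simp
  have hs : star (ml γ ξ) ≠ 0 := left_ne_zero_of_mul_eq_one e4
  have e6 : ml γ ξ' = ml γ ξ := mul_left_cancel₀ hs (e4.trans e5.symm)
  set a : ℂ := -star (herm (pe ξ) (pe ξ')) with ha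
  have e7 : act γ (pe ξ + a • pe ξ') = ml γ ξ • (pe ξ + a • pe ξ') := by
    rw [act_add, act_smul, e1, e2, e6, smul_add, smul_comm]
  refine h (pe ξ + a • pe ξ') ?_ (ml γ ξ) e7
  have e8 : herm (pe ξ + a • pe ξ') (pe ξ + a • pe ξ') =
      ((-(2 * ‖herm (pe ξ) (pe ξ')‖ ^ 2) : ℝ) : ℂ) := by
    rw [herm_add_left, herm_add_right, herm_add_right, herm_smul_left, herm_smul_left,
      herm_smul_right, herm_smul_right, herm_self, herm_self, q_pe, q_pe, hξ, hξ',
      herm_comm (pe ξ) (pe ξ'), ha, star_neg, star_star]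
    have e9 : star (herm (pe ξ) (pe ξ')) * herm (pe ξ) (pe ξ') =
        ((‖herm (pe ξ) (pe ξ')‖ ^ 2 : ℝ) : ℂ) := by
      rw [RCLike.star_def, Complex.conj_mul']
      push_cast
      rfl
    push_cast at e9 ⊢
    linear_combination (-2 : ℂ) * e9
  have e10 : q (pe ξ + a • pe ξ') = -(2 * ‖herm (pe ξ) (pe ξ')‖ ^ 2) := by
    rw [herm_self] at e8
    exact_mod_cast e8
  show q (pe ξ + a • pe ξ') < 0
  rw [e10]
  have : 0 < ‖herm (pe ξ) (pe ξ')‖ := norm_pos_iff.2 hh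
  nlinarith

/-- C5 (a): at most two fixed lines. -/
theorem three_fixed {γ : SUGroup n} (h : NF γ) {ξ ξ' ξ'' : Fin n → ℂ} (hξ : nq ξ = 1)
    (hξ' : nq ξ' = 1) (hξ'' : nq ξ'' = 1) (hne : ξ ≠ ξ') (h1 : γ ∈ St ξ) (h2 : γ ∈ St ξ')
    (h3 : γ ∈ St ξ'') : ξ'' = ξ ∨ ξ'' = ξ' := by
  by_contra hcon
  push Not at hcon
  obtain ⟨hc1, hc2⟩ := hcon
  obtain ⟨e1, -⟩ := two_fixed h hξ hξ' hne h1 h2
  obtain ⟨e2, -⟩ := two_fixed h hξ hξ'' (Ne.symm hc1) h1 h3
  obtain ⟨e3, e4⟩ := two_fixed h hξ' hξ'' (Ne.symm hc2) h2 h3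
  have hs : star (ml γ ξ) ≠ 0 := left_ne_zero_of_mul_eq_one e1
  have e5 : ml γ ξ'' = ml γ ξ' := mul_left_cancel₀ hs (e2.trans e1.symm)
  rw [e5, RCLike.star_def, Complex.conj_mul'] at e3
  apply e4
  have e6 : ‖ml γ ξ'‖ ^ 2 = 1 := by exact_mod_cast e3
  exact (pow_eq_one_iff_of_nonneg (norm_nonneg _) two_ne_zero).1 e6

/-- C5 (b). -/
theorem comm_fixed {γ η : SUGroup n} (h : NF γ) (hc : γ * η = η * γ) {ξ : Fin n → ℂ}
    (hξ : nq ξ = 1) (h1 : γ ∈ St ξ) : η ∈ St ξ := by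
  rw [mem_St hξ]
  by_contra hne
  have e1 : act γ (pe (mv η ξ)) = ml γ ξ • pe (mv η ξ) := by
    have e2 : ml η ξ • act γ (pe (mv η ξ)) = ml η ξ • (ml γ ξ • pe (mv η ξ)) := by
      rw [← act_smul, ← act_pe hξ η, ← act_mul, hc, act_mul, act_of_mem_St hξ h1, act_smul,
        act_pe hξ η, smul_comm]
    exact smul_right_injective _ (ml_ne_zero hξ η) e2
  have hη := nq_mv hξ η
  have e3 : γ ∈ St (mv η ξ) := ⟨_, e1⟩
  have e4 := (eq_of_act_pe hη e1).1
  obtain ⟨e5, e6⟩ := two_fixed h hξ hη (Ne.symm hne) h1 e3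
  rw [e4, RCLike.star_def, Complex.conj_mul'] at e5
  apply e6
  have e7 : ‖ml γ ξ‖ ^ 2 = 1 := by exact_mod_cast e5
  exact (pow_eq_one_iff_of_nonneg (norm_nonneg _) two_ne_zero).1 e7

/-- C6. -/
theorem ds_fixed {Γ : Subgroup (SUGroup n)} (hd : DiscreteTopology Γ) (hT : TF Γ)
    {g γ γ' : SUGroup n} (hγ : γ ∈ Γ) (hγ' : γ' ∈ Γ) (h1 : γ ≠ 1) (h1' : γ' ≠ 1)
    (h : ds g γ ≤ 1 / 8) (h' : ds g γ' ≤ 1 / 8) {ξ : Fin n → ℂ} (hξ : nq ξ = 1) (hs : γ ∈ St ξ) :
    γ' ∈ St ξ := by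
  obtain ⟨γ₀, hγ₀, h10, hmin⟩ := exists_min_ds hd g hγ h1
  have h0 : ds g γ₀ ≤ 1 / 8 := (hmin γ hγ h1).trans h
  have hpos : 0 < ds g γ₀ := lt_of_le_of_ne (ds_nonneg _ _) fun h2 => h10 (ds_eq_zero.1 h2.symm)
  have hcomm : ∀ δ ∈ Γ, ds g δ ≤ 1 / 8 → δ * γ₀ = γ₀ * δ := by
    intro δ hδ hδ8
    have h2 := ds_comm_le hδ8 h0
    have h3 : δ * γ₀ * δ⁻¹ * γ₀⁻¹ ∈ Γ :=
      Γ.mul_mem (Γ.mul_mem (Γ.mul_mem hδ hγ₀) (Γ.inv_mem hδ)) (Γ.inv_mem hγ₀)
    have h4 : δ * γ₀ * δ⁻¹ * γ₀⁻¹ = 1 := by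
      by_contra hne
      have h5 := hmin _ h3 hne
      linarith
    have h5 : δ * γ₀ * δ⁻¹ = γ₀ := by
      rw [mul_inv_eq_one] at h4
      exact h4
    rw [mul_inv_eq_iff_eq_mul] at h5
    exact h5
  have h2 : γ₀ ∈ St ξ := comm_fixed (hT.nf hγ h1) (hcomm γ hγ h) hξ hs
  exact comm_fixed (hT.nf hγ₀ h10) (hcomm γ' hγ' h').symm hξ h2

/-- An element fixing the line of `ξ` with a multiplier of modulus `≠ 1` fixes a second isotropic
line (the spectrum is stable under `μ ↦ 1 / conj μ`). -/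
theorem exists_second {δ : SUGroup n} {ξ : Fin n → ℂ} (hξ : nq ξ = 1) (h : δ ∈ St ξ)
    (h1 : ‖ml δ ξ‖ ≠ 1) : ∃ ξ' : Fin n → ℂ, nq ξ' = 1 ∧ ξ' ≠ ξ ∧ δ ∈ St ξ' := by
  have hl := ml_ne_zero hξ δ
  have e1 := act_of_mem_St hξ h
  set μ : ℂ := (star (ml δ ξ))⁻¹ with hμ
  have hsl : star (ml δ ξ) ≠ 0 := star_ne_zero.2 hl
  have hμn : ‖μ‖ ≠ 1 := by
    rw [hμ, norm_inv, norm_star]
    intro h2
    exact h1 (inv_eq_one.1 h2)
  have key : ∀ w : Vec n, herm (pe ξ) (act δ w) = μ * herm (pe ξ) w := by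
    intro w
    have e2 := herm_act δ (pe ξ) w
    rw [e1, herm_smul_left] at e2
    rw [hμ, ← e2, inv_mul_cancel_left₀ hsl]
  set f : Vec n →ₗ[ℂ] Vec n := Matrix.mulVecLin δ.toMatrix - μ • LinearMap.id with hf
  have hfa : ∀ w, f w = act δ w - μ • w := fun w => rfl
  have hns : ¬ Function.Surjective f := by
    intro hsur
    obtain ⟨w, hw⟩ := hsur (base n)
    have e3 : herm (pe ξ) (f w) = 0 := by
      rw [hfa, sub_eq_add_neg, ← neg_smul, herm_add_right, key, herm_smul_right]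
      ring
    rw [hw, herm_comm, herm_base_pe, star_neg, star_one] at e3
    norm_num at e3
  have hni : ¬ Function.Injective f := fun hinj => hns (LinearMap.injective_iff_surjective.1 hinj)
  obtain ⟨w, hw0, hw⟩ : ∃ w : Vec n, w ≠ 0 ∧ act δ w = μ • w := by
    by_contra hcon
    push Not at hcon
    apply hni
    rw [← LinearMap.ker_eq_bot, LinearMap.ker_eq_bot']
    intro w hw
    by_contra hw0
    exact hcon w hw0 (sub_eq_zero.1 hw)
  have hq : q w = 0 := by
    have e4 := q_act δ w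
    rw [hw, q_smul] at e4
    have e5 : (‖μ‖ ^ 2 - 1) * q w = 0 := by linarith
    rcases mul_eq_zero.1 e5 with e6 | e6
    · exfalso
      apply hμn
      exact (pow_eq_one_iff_of_nonneg (norm_nonneg _) two_ne_zero).1 (sub_eq_zero.1 e6)
    · exact e6
  obtain ⟨h2, ξ', hξ', h3⟩ := exists_pe hw0 hq
  have e7 : act δ (pe ξ') = μ • pe ξ' := by
    have e8 : w (Fin.last n) • act δ (pe ξ') = w (Fin.last n) • (μ • pe ξ') := by
      rw [← act_smul, ← h3, hw, smul_comm, ← h3]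
    exact smul_right_injective _ h2 e8
  refine ⟨ξ', hξ', ?_, μ, e7⟩
  rintro rfl
  have e9 := (eq_of_act_pe hξ e7).1
  rw [e9] at hμ
  have hμ0 : star μ ≠ 0 := by
    rw [← e9]
    exact hsl
  have e10 : star μ * μ = 1 := by
    have e12 : star μ * (star μ)⁻¹ = 1 := mul_inv_cancel₀ hμ0
    rwa [← hμ] at e12
  rw [RCLike.star_def, Complex.conj_mul'] at e10
  apply hμn
  have e11 : ‖μ‖ ^ 2 = 1 := by exact_mod_cast e10
  exact (pow_eq_one_iff_of_nonneg (norm_nonneg _) two_ne_zero).1 e11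

/-- Double transitivity on isotropic lines. -/
theorem exists_frame {ξ ξ' : Fin n → ℂ} (hξ : nq ξ = 1) (hξ' : nq ξ' = 1) (hne : ξ' ≠ ξ) :
    ∃ a : SUGroup n, mv a ξ = ξ ∧ mv a (-ξ) = ξ' := by
  have hnξ : nq (-ξ) = 1 := by rw [nq_neg, hξ]
  have hh : herm (pe ξ) (pe ξ') ≠ 0 := herm_pe_ne hξ hξ' (Ne.symm hne)
  have hpp : herm (pe ξ) (pe ξ) = 0 := by rw [herm_self, q_pe, hξ, sub_self, Complex.ofReal_zero]
  have hmm : herm (pe (-ξ)) (pe (-ξ)) = 0 := by
    rw [herm_self, q_pe, hnξ, sub_self, Complex.ofReal_zero]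
  have hpm : herm (pe ξ) (pe (-ξ)) = -2 := by
    have h1 : pe (-ξ) = (2 : ℂ) • base n + (-1 : ℂ) • pe ξ := by
      rw [← two_smul_base ξ]
      module
    rw [h1, herm_add_right, herm_smul_right, herm_smul_right, hpp, herm_comm, herm_base_pe,
      star_neg, star_one]
    ring
  set d : ℂ := -2 / herm (pe ξ) (pe ξ') with hd
  have hd0 : d ≠ 0 := by
    rw [hd]
    exact div_ne_zero (by norm_num) hh
  set s : Vec n := d • pe ξ' with hs
  have hps : herm (pe ξ) s = -2 := by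
    rw [hs, herm_smul_right, hd, div_mul_cancel₀ _ hh]
  have hss : herm s s = 0 := by
    rw [hs, herm_self, q_smul, q_pe, hξ', sub_self, mul_zero, Complex.ofReal_zero]
  clear_value s
  set u : Vec n := s + (-1 : ℂ) • pe (-ξ) with hu
  have hpu : herm (pe ξ) u = 0 := by
    rw [hu, herm_add_right, herm_smul_right, hps, hpm]
    ring
  set z : ℂ := herm s (pe (-ξ)) with hz
  have hsm : herm (pe (-ξ)) s = star z := herm_comm _ _
  have hum : herm u (pe (-ξ)) = z := by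
    rw [hu, herm_add_left, herm_smul_left, hmm, mul_zero, add_zero]
  have huu : herm u u = -(z + star z) := by
    have h1 : herm u s = - star z := by
      rw [hu, herm_add_left, herm_smul_left, hss, hsm, star_neg, star_one]
      ring
    conv_lhs => rw [hu, herm_add_right, ← hu, herm_smul_right, h1, hum]
    ring
  set κ : ℂ := (z - star z) / 16 with hκ
  have hκs : star κ = -κ := by
    rw [hκ, star_div₀, star_sub, star_star]
    have : star (16 : ℂ) = 16 := by simp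
    rw [this]
    ring
  set x : Vec n := (-(1 / 2) : ℂ) • u + κ • pe ξ with hx
  have hhalf : star (-(1 / 2) : ℂ) = -(1 / 2) := by simp
  have hpx : herm (pe ξ) x = 0 := by
    rw [hx, herm_add_right, herm_smul_right, herm_smul_right, hpu, hpp]
    ring
  have hxp : herm x (pe ξ) = 0 := by rw [herm_comm, hpx, star_zero]
  have hxm : herm x (pe (-ξ)) = -(1 / 2) * z + 2 * κ := by
    rw [hx, herm_add_left, herm_smul_left, herm_smul_left, hum, hpm, hhalf, hκs]
    ring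
  have hup : herm u (pe ξ) = 0 := by rw [herm_comm, hpu, star_zero]
  have hxx : herm x x = -(1 / 4) * (z + star z) := by
    have h1 : herm x u = -(1 / 2) * -(z + star z) := by
      rw [hx, herm_add_left, herm_smul_left, herm_smul_left, huu, hpu, hhalf]
      ring
    conv_lhs => rw [hx, herm_add_right, ← hx, herm_smul_right, herm_smul_right, h1, hxp]
    ring
  have hT : ∀ y : Vec n, Hyb.T n (pe ξ) x *ᵥ y =
      y + herm (pe ξ) y • x - herm x y • pe ξ -
        ((1 / 2 : ℂ) * herm x x * herm (pe ξ) y) • pe ξ := by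
    intro y
    have h1 : ∀ a b : Vec n, rk n a b *ᵥ y = herm a y • b := fun a b => rk_mulVec a b y
    rw [Hyb.T, sub_mulVec, sub_mulVec, add_mulVec, one_mulVec, smul_mulVec, h1, h1, h1, smul_smul]
    rfl
  refine ⟨ofMatrix (Hyb.T n (pe ξ) x) (T_det _ _ hpp hpx) (T_pres _ _ hpp hpx), ?_, ?_⟩
  · refine (eq_of_act_pe (c := 1) hξ ?_).2
    rw [act, toMatrix_ofMatrix, hT, hpp, hxp]
    module
  · refine (eq_of_act_pe (c := d) hnξ ?_).2
    rw [act, toMatrix_ofMatrix, hT, hpm, hxm, hxx, ← hs]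
    have h2 : s = u + pe (-ξ) := by
      rw [hu]
      module
    have h3 : (-2 : ℂ) • x = u + (-2 * κ) • pe ξ := by
      rw [hx]
      module
    rw [h3, h2]
    have h4 : (-2 * κ) - (-(1 / 2) * z + 2 * κ) -
        (1 / 2 : ℂ) * (-(1 / 4) * (z + star z)) * -2 = 0 := by
      rw [hκ]
      ring
    have h5 : pe (-ξ) + (u + (-2 * κ) • pe ξ) - (-(1 / 2) * z + 2 * κ) • pe ξ -
        ((1 / 2 : ℂ) * (-(1 / 4) * (z + star z)) * -2) • pe ξ = u + pe (-ξ) +
        ((-2 * κ) - (-(1 / 2) * z + 2 * κ) -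
        (1 / 2 : ℂ) * (-(1 / 4) * (z + star z)) * -2) • pe ξ := by
      module
    rw [h5, h4, zero_smul, add_zero]

/-- In the parabolic case no second line is fixed. -/
theorem Par.unique {Γ : Subgroup (SUGroup n)} {ξ : Fin n → ℂ} (hP : Par Γ ξ) (hT : TF Γ)
    {γ : SUGroup n} (hγ : γ ∈ Γ) (h1 : γ ≠ 1) (hs : γ ∈ St ξ) {ξ' : Fin n → ℂ} (hξ' : nq ξ' = 1)
    (hs' : γ ∈ St ξ') : ξ' = ξ := by
  by_contra hne
  obtain ⟨hξ, hP'⟩ := hP
  exact (two_fixed (hT.nf hγ h1) hξ hξ' (Ne.symm hne) hs hs').2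
    ((mem_PS hξ).1 (hP' γ hγ hs)).2

end Pool.Agent.Lib.MP_5d4057_al.NU
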