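import Pool.Agent.Lib.MP_5d4057_al.NU.Defs

/-! Definitions for the cusp half (part C of the blueprint h37_nu). Isotropic lines are represented
by unit vectors `ξ ∈ ℂ^n` (`nq ξ = 1`): the line of `ξ` is `ℂ (ξ, 1)`. All sets which are compact in
the blueprint are balls `{x | ch x ≤ R}` here. -/

namespace Pool.Agent.Lib.MP_5d4057_al.NU

open Matrix MeasureTheory Filter Topology Pool.Agent.Lib.MP_5d4057_al
  Pool.Agent.Lib.MP_5d4057_al.Hyb Pool.Agent.Lib.MP_5d4057_al.HM
  Pool.Agent.Lib.MP_5d4057_al.HM.Kak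

open scoped ComplexOrder MatrixOrder Matrix.Norms.L2Operator ENNReal

variable {n m : ℕ}

/-- The isotropic vector `(ξ, 1)`. The other end of the geodesic through the base point is `-ξ`. -/
def pe (ξ : Fin n → ℂ) : Vec n := vec ξ + base n

/-- The multiplier: `act g (pe ξ) = ml g ξ • pe (mv g ξ)`. -/
def ml (g : SUGroup n) (ξ : Fin n → ℂ) : ℂ := act g (pe ξ) (Fin.last n)

/-- The action on isotropic lines. -/
noncomputable def mv (g : SUGroup n) (ξ : Fin n → ℂ) : Fin n → ℂ :=
  fun i => act g (pe ξ) i.castSucc / ml g ξ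

open Classical in
/-- The geodesic flow in the direction `ξ` (`e^t` on `pe ξ`, `e^(-t)` on `pe (-ξ)`, `1` on the
orthogonal complement); `1` if `ξ` is not a unit vector. -/
noncomputable def fl (ξ : Fin n → ℂ) (t : ℝ) : SUGroup n :=
  if h : nq ξ = 1 then flow ξ h t else 1

private theorem pe_ne (ξ : Fin n → ℂ) : pe ξ ≠ 0 := by
  intro h
  have := congrFun h (Fin.last n)
  simp [pe, vec_last, base_last] at this

/-- The stabiliser of the line of `ξ`. -/
def St (ξ : Fin n → ℂ) : Subgroup (SUGroup n) where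
  carrier := {g | ∃ c : ℂ, act g (pe ξ) = c • pe ξ}
  mul_mem' := by
    rintro g h ⟨c, hc⟩ ⟨d, hd⟩
    exact ⟨d * c, by rw [act_mul, hd, act_smul, hc, smul_smul]⟩
  one_mem' := ⟨1, by rw [act_one, one_smul]⟩
  inv_mem' := by
    rintro g ⟨c, hc⟩
    have h0 : c ≠ 0 := by
      rintro rfl
      rw [zero_smul] at hc
      have := congrArg (act g⁻¹) hc
      rw [← act_mul, inv_mul_cancel, act_one] at this
      apply pe_ne ξ
      rw [this, act, mulVec_zero]
    refine ⟨c⁻¹, ?_⟩
    have := congrArg (act g⁻¹) hc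
    rw [← act_mul, inv_mul_cancel, act_one, act_smul] at this
    rw [eq_inv_smul_iff₀ h0]
    exact this.symm

/-- The elements fixing the line of `ξ` with a multiplier of modulus one (they preserve the
horospheres). -/
def PS (ξ : Fin n → ℂ) : Subgroup (SUGroup n) where
  carrier := {g | ∃ c : ℂ, ‖c‖ = 1 ∧ act g (pe ξ) = c • pe ξ}
  mul_mem' := by
    rintro g h ⟨c, hc1, hc⟩ ⟨d, hd1, hd⟩
    exact ⟨d * c, by rw [norm_mul, hc1, hd1, mul_one],
      by rw [act_mul, hd, act_smul, hc, smul_smul]⟩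
  one_mem' := ⟨1, norm_one, by rw [act_one, one_smul]⟩
  inv_mem' := by
    rintro g ⟨c, hc1, hc⟩
    have h0 : c ≠ 0 := by
      rintro rfl
      simp at hc1
    refine ⟨c⁻¹, by rw [norm_inv, hc1, inv_one], ?_⟩
    have := congrArg (act g⁻¹) hc
    rw [← act_mul, inv_mul_cancel, act_one, act_smul] at this
    rw [eq_inv_smul_iff₀ h0]
    exact this.symm

/-- `Γ` has no element fixing the line of `ξ` with a multiplier of modulus different from one. -/
def Par (Γ : Subgroup (SUGroup n)) (ξ : Fin n → ℂ) : Prop :=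
  nq ξ = 1 ∧ ∀ γ ∈ Γ, γ ∈ St ξ → γ ∈ PS ξ

/-- The orthogonal projection onto the line of `ξ` (for unit vectors `ξ`). -/
noncomputable def Pp (ξ : Fin n → ℂ) : Mat (n + 1) :=
  (1 / 2 : ℂ) • vecMulVec (pe ξ) (star (pe ξ))

/-- The orthogonal projection onto the complement of `pe ξ`, `pe (-ξ)`. -/
noncomputable def P0 (ξ : Fin n → ℂ) : Mat (n + 1) := 1 - Pp ξ - Pp (-ξ)

/-- The block diagonal part (rotation part) of an element of the stabiliser of `ξ`. -/
noncomputable def Dg (ξ : Fin n → ℂ) (x : SUGroup n) : Mat (n + 1) :=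
  Pp ξ * x.toMatrix * Pp ξ + P0 ξ * x.toMatrix * P0 ξ + Pp (-ξ) * x.toMatrix * Pp (-ξ)

/-- The Frobenius norm. -/
noncomputable def fro (A : Mat m) : ℝ := Real.sqrt (∑ i, ∑ j, ‖A i j‖ ^ 2)

/-- The displacement of `γ` seen from `g`. -/
noncomputable def ds (g γ : SUGroup n) : ℝ := fro ((g⁻¹ * γ * g).toMatrix - 1)

end Pool.Agent.Lib.MP_5d4057_al.NU
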