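import Pool.Agent.Lib.MP_5d4057_al.NU.CuspB
import Pool.Agent.Lib.MP_5d4057_al.NU.CuspC

/-! Displacement along a ray (C7) and the rotation part `Dg`. -/

namespace Pool.Agent.Lib.MP_5d4057_al.NU

open Matrix MeasureTheory Filter Topology Pool.Agent.Lib.MP_5d4057_al
  Pool.Agent.Lib.MP_5d4057_al.Hyb Pool.Agent.Lib.MP_5d4057_al.HM
  Pool.Agent.Lib.MP_5d4057_al.HM.Kak

open scoped ComplexOrder MatrixOrder Matrix.Norms.L2Operator ENNReal

variable {n m : ℕ}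

/-- Three orthogonal projections with sum one. -/
private structure Pj (Q : Fin 3 → Mat m) : Prop where
  sq : ∀ i, Q i * Q i = Q i
  ne : ∀ i j, i ≠ j → Q i * Q j = 0
  sum : ∑ i, Q i = 1
  herm : ∀ i, (Q i)ᴴ = Q i

private theorem fro_blocks {Q R : Fin 3 → Mat m} (hQ : Pj Q) (hR : Pj R) (A : Mat m) :
    fro A ^ 2 = ∑ i, ∑ j, fro (Q i * A * R j) ^ 2 := by
  have h1 : ∀ i j, fro (Q i * A * R j) ^ 2 = (Aᴴ * Q i * A * R j).trace.re := by
    intro i j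
    rw [fro_sq_trace]
    have : (Q i * A * R j)ᴴ * (Q i * A * R j) = R j * (Aᴴ * Q i * A * R j) := by
      rw [conjTranspose_mul, conjTranspose_mul, hQ.herm, hR.herm]
      calc R j * (Aᴴ * Q i) * (Q i * A * R j) = R j * (Aᴴ * (Q i * Q i) * A * R j) := by
            simp only [Matrix.mul_assoc]
        _ = _ := by rw [hQ.sq]
    rw [this, Matrix.trace_mul_comm]
    congr 2
    rw [Matrix.mul_assoc, hR.sq]
  have h2 : ∀ i, ∑ j, fro (Q i * A * R j) ^ 2 = (Aᴴ * Q i * A).trace.re := by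
    intro i
    simp only [h1]
    rw [← Complex.re_sum, ← Matrix.trace_sum, ← Matrix.mul_sum, hR.sum, Matrix.mul_one]
  simp only [h2]
  rw [← Complex.re_sum, ← Matrix.trace_sum, fro_sq_trace]
  congr 2
  have h3 : ∀ i, Aᴴ * Q i * A = Aᴴ * (Q i * A) := fun i => Matrix.mul_assoc _ _ _
  simp only [h3]
  rw [← Matrix.mul_sum, ← Matrix.sum_mul, hQ.sum, Matrix.one_mul]

private noncomputable def Qf (ξ : Fin n → ℂ) : Fin 3 → Mat (n + 1) := ![Pp ξ, P0 ξ, Pp (-ξ)]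

private theorem Qf_zero (ξ : Fin n → ℂ) : Qf ξ 0 = Pp ξ := rfl
private theorem Qf_one (ξ : Fin n → ℂ) : Qf ξ 1 = P0 ξ := rfl
private theorem Qf_two (ξ : Fin n → ℂ) : Qf ξ 2 = Pp (-ξ) := rfl

private theorem pj_Qf {ξ : Fin n → ℂ} (hξ : nq ξ = 1) : Pj (Qf ξ) := by
  have hξ' : nq (-ξ) = 1 := by rw [nq_neg, hξ]
  have h01 := Pp_mul_P0 ξ hξ
  have h10 := P0_mul_Pp ξ hξ
  have h02 := Pp_mul_neg ξ hξ
  have h20 := Pp_neg_mul ξ hξ
  have h21 : Pp (-ξ) * P0 ξ = 0 := by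
    have := Pp_mul_P0 (-ξ) hξ'
    rwa [P0_neg] at this
  have h12 : P0 ξ * Pp (-ξ) = 0 := by
    have := P0_mul_Pp (-ξ) hξ'
    rwa [P0_neg] at this
  refine ⟨?_, ?_, ?_, ?_⟩
  · intro i
    fin_cases i
    · exact Pp_mul_self hξ
    · exact P0_mul_self hξ
    · exact Pp_mul_self hξ'
  · intro i j hij
    fin_cases i <;> fin_cases j <;> first | exact absurd rfl hij | assumption
  · rw [Fin.sum_univ_three]
    exact P_sum ξ
  · intro i
    fin_cases i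
    · exact Pp_herm ξ
    · exact P0_herm ξ
    · exact Pp_herm (-ξ)

private noncomputable def ex (i : Fin 3) : ℝ := ![1, 0, -1] i

private theorem ex_zero : ex 0 = 1 := rfl
private theorem ex_one : ex 1 = 0 := rfl
private theorem ex_two : ex 2 = -1 := rfl

private theorem fl_sum {ξ : Fin n → ℂ} (hξ : nq ξ = 1) (t : ℝ) :
    (fl ξ t).toMatrix = ∑ i, (Real.exp (ex i * t) : ℂ) • Qf ξ i := by
  rw [toMatrix_fl hξ, Fin.sum_univ_three, ex_zero, ex_one, ex_two, Qf_zero, Qf_one, Qf_two]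
  simp

private theorem fl_mul_Q {ξ : Fin n → ℂ} (hξ : nq ξ = 1) (t : ℝ) (j : Fin 3) :
    (fl ξ t).toMatrix * Qf ξ j = (Real.exp (ex j * t) : ℂ) • Qf ξ j := by
  rw [fl_sum hξ, Matrix.sum_mul, Finset.sum_eq_single j]
  · rw [Matrix.smul_mul, (pj_Qf hξ).sq]
  · intro i _ hij
    rw [Matrix.smul_mul, (pj_Qf hξ).ne i j hij, smul_zero]
  · intro h
    exact absurd (Finset.mem_univ j) h

private theorem Q_mul_fl {ξ : Fin n → ℂ} (hξ : nq ξ = 1) (t : ℝ) (i : Fin 3) :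
    Qf ξ i * (fl ξ t).toMatrix = (Real.exp (ex i * t) : ℂ) • Qf ξ i := by
  rw [fl_sum hξ, Matrix.mul_sum, Finset.sum_eq_single i]
  · rw [Matrix.mul_smul, (pj_Qf hξ).sq]
  · intro j _ hij
    rw [Matrix.mul_smul, (pj_Qf hξ).ne i j (Ne.symm hij), smul_zero]
  · intro h
    exact absurd (Finset.mem_univ i) h

private theorem block_fl {ξ η : Fin n → ℂ} (hξ : nq ξ = 1) (hη : nq η = 1) (s t : ℝ)
    (A : Mat (n + 1)) (i j : Fin 3) :
    Qf η i * ((fl η s).toMatrix * A * (fl ξ t).toMatrix) * Qf ξ j =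
      (Real.exp (ex i * s + ex j * t) : ℂ) • (Qf η i * A * Qf ξ j) := by
  calc _ = (Qf η i * (fl η s).toMatrix) * A * ((fl ξ t).toMatrix * Qf ξ j) := by
        simp only [Matrix.mul_assoc]
    _ = _ := by
        rw [Q_mul_fl hη, fl_mul_Q hξ, Matrix.smul_mul, Matrix.smul_mul, Matrix.mul_smul, smul_smul,
          Real.exp_add, Complex.ofReal_mul]

private theorem fro_smul_real (c : ℝ) (A : Mat m) : fro ((c : ℂ) • A) ^ 2 = c ^ 2 * fro A ^ 2 := by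
  rw [fro_sq, fro_sq, Finset.mul_sum]
  refine Finset.sum_congr rfl fun i _ => ?_
  rw [Finset.mul_sum]
  refine Finset.sum_congr rfl fun j _ => ?_
  rw [Matrix.smul_apply, smul_eq_mul, norm_mul, mul_pow, Complex.norm_real, Real.norm_eq_abs,
    sq_abs]

private theorem block_low {ξ η : Fin n → ℂ} (hξ : nq ξ = 1) {x : SUGroup n} (hx : mv x ξ = η)
    (i j : Fin 3) (hij : j < i) : Qf η i * x.toMatrix * Qf ξ j = 0 := by
  have hη : nq η = 1 := by rw [← hx]; exact nq_mv hξ x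
  obtain ⟨h1, h2, h3⟩ := block_zero hξ hη hx
  fin_cases i <;> fin_cases j <;> first | assumption | (exact absurd hij (by decide))

private theorem Dg_eq (ξ : Fin n → ℂ) (x : SUGroup n) :
    Dg ξ x = ∑ i, Qf ξ i * x.toMatrix * Qf ξ i := by
  rw [Fin.sum_univ_three]
  rfl

private theorem block_one {ξ : Fin n → ℂ} (hξ : nq ξ = 1) (A : Mat (n + 1)) (i j : Fin 3)
    (hij : i ≠ j) : Qf ξ i * (A - 1) * Qf ξ j = Qf ξ i * A * Qf ξ j := by
  rw [Matrix.mul_sub, Matrix.sub_mul, Matrix.mul_one, (pj_Qf hξ).ne i j hij, sub_zero]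

private theorem ds_eq_sum {ξ : Fin n → ℂ} (hξ : nq ξ = 1) (x : SUGroup n) (t : ℝ) :
    ds (fl ξ (-t)) x ^ 2 = ∑ i, ∑ j, Real.exp ((ex i - ex j) * t) ^ 2 *
      fro (Qf ξ i * (x.toMatrix - 1) * Qf ξ j) ^ 2 := by
  have h1 : ((fl ξ (-t))⁻¹ * x * fl ξ (-t)).toMatrix - 1 =
      (fl ξ t).toMatrix * (x.toMatrix - 1) * (fl ξ (-t)).toMatrix := by
    have h2 : (fl ξ t).toMatrix * (fl ξ (-t)).toMatrix = 1 := by
      rw [← toMatrix_mul, ← fl_add, add_neg_cancel, fl_zero, toMatrix_one]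
    rw [← fl_neg, neg_neg, toMatrix_mul, toMatrix_mul, Matrix.mul_sub, Matrix.sub_mul,
      Matrix.mul_one, h2]
  rw [ds, h1, fro_blocks (pj_Qf hξ) (pj_Qf hξ)]
  refine Finset.sum_congr rfl fun i _ => Finset.sum_congr rfl fun j _ => ?_
  rw [block_fl hξ hξ, fro_smul_real]
  congr 3
  ring

private theorem mv_of_St {ξ : Fin n → ℂ} (hξ : nq ξ = 1) {x : SUGroup n} (hx : x ∈ St ξ) :
    mv x ξ = ξ := (mem_St hξ).1 hx

private theorem Dg_sub {ξ : Fin n → ℂ} (hξ : nq ξ = 1) (x : SUGroup n) :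
    Dg ξ x - 1 = ∑ i, Qf ξ i * (x.toMatrix - 1) * Qf ξ i := by
  have h : ∀ i, Qf ξ i * (x.toMatrix - 1) * Qf ξ i = Qf ξ i * x.toMatrix * Qf ξ i - Qf ξ i := by
    intro i
    rw [Matrix.mul_sub, Matrix.sub_mul, Matrix.mul_one, (pj_Qf hξ).sq]
  simp only [h]
  rw [Finset.sum_sub_distrib, (pj_Qf hξ).sum, Dg_eq]

private theorem Q_sum_Q {ξ : Fin n → ℂ} (hξ : nq ξ = 1) (A : Mat (n + 1)) (i j : Fin 3) :
    Qf ξ i * (∑ k, Qf ξ k * A * Qf ξ k) * Qf ξ j = if i = j then Qf ξ i * A * Qf ξ i else 0 := by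
  rw [Matrix.mul_sum, Matrix.sum_mul, Finset.sum_eq_single i]
  · split_ifs with h
    · subst h
      calc _ = (Qf ξ i * Qf ξ i) * A * (Qf ξ i * Qf ξ i) := by simp only [Matrix.mul_assoc]
        _ = _ := by rw [(pj_Qf hξ).sq]
    · calc _ = (Qf ξ i * Qf ξ i) * A * (Qf ξ i * Qf ξ j) := by simp only [Matrix.mul_assoc]
        _ = _ := by rw [(pj_Qf hξ).ne i j h, Matrix.mul_zero]
  · intro k _ hk
    calc _ = (Qf ξ i * Qf ξ k) * (A * Qf ξ k * Qf ξ j) := by simp only [Matrix.mul_assoc]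
      _ = _ := by rw [(pj_Qf hξ).ne i k (Ne.symm hk), Matrix.zero_mul]
  · intro h
    exact absurd (Finset.mem_univ i) h

private theorem fro_Dg_sub {ξ : Fin n → ℂ} (hξ : nq ξ = 1) (x : SUGroup n) :
    fro (Dg ξ x - 1) ^ 2 = ∑ i, fro (Qf ξ i * (x.toMatrix - 1) * Qf ξ i) ^ 2 := by
  rw [fro_blocks (pj_Qf hξ) (pj_Qf hξ), Dg_sub hξ]
  refine Finset.sum_congr rfl fun i _ => ?_
  rw [Finset.sum_eq_single i]
  · rw [Q_sum_Q hξ, if_pos rfl]
  · intro j _ hj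
    rw [Q_sum_Q hξ, if_neg (Ne.symm hj), fro_eq_zero.2 rfl]
    simp
  · intro h
    exact absurd (Finset.mem_univ i) h

private theorem Pp_mulVec {ξ : Fin n → ℂ} (hξ : nq ξ = 1) : Pp ξ *ᵥ pe ξ = pe ξ := by
  have h1 : star (pe ξ) ⬝ᵥ pe ξ = 2 := by
    rw [dotProduct, Fin.sum_univ_castSucc]
    simp only [Pi.star_apply, pe_last, pe_castSucc]
    have h2 : ∑ i, star (ξ i) * ξ i = ((nq ξ : ℝ) : ℂ) := by
      rw [nq, Complex.ofReal_sum]
      refine Finset.sum_congr rfl fun i _ => ?_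
      rw [RCLike.star_def, ← Complex.normSq_eq_conj_mul_self, Complex.normSq_eq_norm_sq]
    rw [h2, hξ]
    norm_num
  rw [Pp, Matrix.smul_mulVec, vecMulVec_mulVec, h1]
  ext i
  simp
  ring

private theorem Pp_mulVec_smul {ξ : Fin n → ℂ} (v : Vec n) : ∃ c : ℂ, Pp ξ *ᵥ v = c • pe ξ := by
  refine ⟨(1 / 2) * (star (pe ξ) ⬝ᵥ v), ?_⟩
  rw [Pp, Matrix.smul_mulVec, vecMulVec_mulVec]
  ext i
  simp
  ring

/-- C7. With `X = x - 1`: `fl t * X * fl (-t)` has the blocks `e^((a_i - a_j) t) P_i X P_j`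
(`a = 1, 0, -1`), which are orthogonal for the Frobenius scalar product; the blocks below the
diagonal vanish (`block_zero`). If the blocks above the diagonal vanish too, then `x` fixes the
line of `-ξ`. -/
theorem ds_flow {ξ : Fin n → ℂ} (hξ : nq ξ = 1) {x : SUGroup n} (hx : x ∈ St ξ) :
    ∃ c₁ c₂ : ℝ, 0 ≤ c₁ ∧ 0 ≤ c₂ ∧
      (∀ t : ℝ, ds (fl ξ (-t)) x ^ 2 =
        fro (Dg ξ x - 1) ^ 2 + c₁ * Real.exp (2 * t) + c₂ * Real.exp (4 * t)) ∧
      (c₁ = 0 → c₂ = 0 → x ∈ St (-ξ)) := by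
  set b : Fin 3 → Fin 3 → ℝ := fun i j => fro (Qf ξ i * (x.toMatrix - 1) * Qf ξ j) ^ 2 with hb
  have hb0 : ∀ i j, 0 ≤ b i j := fun i j => sq_nonneg _
  have hlow : ∀ i j : Fin 3, j < i → b i j = 0 := by
    intro i j hij
    simp only [hb]
    rw [block_one hξ _ i j (ne_of_gt hij), block_low hξ (mv_of_St hξ hx) i j hij,
      fro_eq_zero.2 rfl]
    simp
  refine ⟨b 0 1 + b 1 2, b 0 2, add_nonneg (hb0 _ _) (hb0 _ _), hb0 _ _, ?_, ?_⟩
  · intro t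
    rw [ds_eq_sum hξ, fro_Dg_sub hξ]
    simp only [Fin.sum_univ_three]
    have e10 := hlow 1 0 (by decide)
    have e20 := hlow 2 0 (by decide)
    have e21 := hlow 2 1 (by decide)
    simp only [hb] at e10 e20 e21 ⊢
    rw [e10, e20, e21]
    simp only [ex_zero, ex_one, ex_two, sub_self, zero_mul, Real.exp_zero]
    have h2 : Real.exp ((1 - 0) * t) ^ 2 = Real.exp (2 * t) := by
      rw [← Real.exp_nat_mul]; congr 1; push_cast; ring
    have h3 : Real.exp ((0 - -1) * t) ^ 2 = Real.exp (2 * t) := by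
      rw [← Real.exp_nat_mul]; congr 1; push_cast; ring
    have h4 : Real.exp ((1 - -1) * t) ^ 2 = Real.exp (4 * t) := by
      rw [← Real.exp_nat_mul]; congr 1; push_cast; ring
    rw [h2, h3, h4]
    ring
  · intro h1 h2
    have h01 : b 0 1 = 0 := by linarith [hb0 0 1, hb0 1 2]
    have h12 : b 1 2 = 0 := by linarith [hb0 0 1, hb0 1 2]
    have z : ∀ i j, b i j = 0 → Qf ξ i * (x.toMatrix - 1) * Qf ξ j = 0 := by
      intro i j h
      exact fro_eq_zero.1 (by simpa [hb] using h)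
    have z12 := z 1 2 h12
    have z02 := z 0 2 h2
    rw [block_one hξ _ _ _ (by decide)] at z12 z02
    have h5 : x.toMatrix * Qf ξ 2 = Qf ξ 2 * (x.toMatrix * Qf ξ 2) := by
      have h6 : (∑ i, Qf ξ i) * (x.toMatrix * Qf ξ 2) = x.toMatrix * Qf ξ 2 := by
        rw [(pj_Qf hξ).sum, Matrix.one_mul]
      rw [Fin.sum_univ_three, Matrix.add_mul, Matrix.add_mul, ← Matrix.mul_assoc,
        ← Matrix.mul_assoc (Qf ξ 1), z12, z02, zero_add, zero_add] at h6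
      exact h6.symm
    have hξ' : nq (-ξ) = 1 := by rw [nq_neg, hξ]
    obtain ⟨c, hc⟩ := Pp_mulVec_smul (ξ := -ξ) (x.toMatrix *ᵥ pe (-ξ))
    refine ⟨c, ?_⟩
    have h7 := congrArg (fun A => A *ᵥ pe (-ξ)) h5
    simp only [Qf_two, ← Matrix.mulVec_mulVec, Pp_mulVec hξ'] at h7
    rw [act, h7, hc]

/-- Monotonicity: going away from `ξ` the displacement grows. -/
theorem ds_flow_mono {ξ : Fin n → ℂ} (hξ : nq ξ = 1) {x : SUGroup n} (hx : x ∈ St ξ) {s t : ℝ}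
    (hst : s ≤ t) : ds (fl ξ (-s)) x ≤ ds (fl ξ (-t)) x := by
  obtain ⟨c₁, c₂, h1, h2, h, -⟩ := ds_flow hξ hx
  refine le_of_sq_le_sq ?_ (ds_nonneg _ _)
  rw [h, h]
  have e1 : Real.exp (2 * s) ≤ Real.exp (2 * t) := Real.exp_le_exp.2 (by linarith)
  have e2 : Real.exp (4 * s) ≤ Real.exp (4 * t) := Real.exp_le_exp.2 (by linarith)
  have := mul_le_mul_of_nonneg_left e1 h1
  have := mul_le_mul_of_nonneg_left e2 h2
  linarith

private theorem ds_flow_pos {ξ : Fin n → ℂ} (hξ : nq ξ = 1) {x : SUGroup n} (hx : x ∈ St ξ)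
    (hx' : x ∉ St (-ξ)) : ∃ c₁ c₂ : ℝ, 0 ≤ c₁ ∧ 0 ≤ c₂ ∧ (0 < c₁ ∨ 0 < c₂) ∧
      (∀ t : ℝ, ds (fl ξ (-t)) x ^ 2 =
        fro (Dg ξ x - 1) ^ 2 + c₁ * Real.exp (2 * t) + c₂ * Real.exp (4 * t)) := by
  obtain ⟨c₁, c₂, h1, h2, h, h'⟩ := ds_flow hξ hx
  refine ⟨c₁, c₂, h1, h2, ?_, h⟩
  by_contra hc
  push Not at hc
  exact hx' (h' (le_antisymm hc.1 h1) (le_antisymm hc.2 h2))

theorem ds_flow_strict {ξ : Fin n → ℂ} (hξ : nq ξ = 1) {x : SUGroup n} (hx : x ∈ St ξ)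
    (hx' : x ∉ St (-ξ)) {s t : ℝ} (hst : s < t) : ds (fl ξ (-s)) x < ds (fl ξ (-t)) x := by
  obtain ⟨c₁, c₂, h1, h2, hp, h⟩ := ds_flow_pos hξ hx hx'
  refine lt_of_pow_lt_pow_left₀ 2 (ds_nonneg _ _) ?_
  rw [h, h]
  have e1 : Real.exp (2 * s) < Real.exp (2 * t) := Real.exp_lt_exp.2 (by linarith)
  have e2 : Real.exp (4 * s) < Real.exp (4 * t) := Real.exp_lt_exp.2 (by linarith)
  have f1 := mul_le_mul_of_nonneg_left e1.le h1
  have f2 := mul_le_mul_of_nonneg_left e2.le h2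
  rcases hp with hp | hp
  · have := mul_lt_mul_of_pos_left e1 hp
    linarith
  · have := mul_lt_mul_of_pos_left e2 hp
    linarith

theorem ds_flow_tendsto {ξ : Fin n → ℂ} (hξ : nq ξ = 1) {x : SUGroup n} (hx : x ∈ St ξ)
    (hx' : x ∉ St (-ξ)) : Tendsto (fun t : ℝ => ds (fl ξ (-t)) x) atTop atTop := by
  obtain ⟨c₁, c₂, h1, h2, hp, h⟩ := ds_flow_pos hξ hx hx'
  have key : Tendsto (fun t : ℝ => ds (fl ξ (-t)) x ^ 2) atTop atTop := by
    simp only [h]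
    have t1 : Tendsto (fun t : ℝ => Real.exp (2 * t)) atTop atTop :=
      Real.tendsto_exp_atTop.comp (tendsto_id.const_mul_atTop (by norm_num))
    have t2 : Tendsto (fun t : ℝ => Real.exp (4 * t)) atTop atTop :=
      Real.tendsto_exp_atTop.comp (tendsto_id.const_mul_atTop (by norm_num))
    rcases hp with hp | hp
    · refine tendsto_atTop_mono (f := fun t : ℝ => c₁ * Real.exp (2 * t)) ?_
        (t1.const_mul_atTop hp)
      intro t
      have := mul_nonneg h2 (Real.exp_pos (4 * t)).le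
      have := sq_nonneg (fro (Dg ξ x - 1))
      linarith
    · refine tendsto_atTop_mono (f := fun t : ℝ => c₂ * Real.exp (4 * t)) ?_
        (t2.const_mul_atTop hp)
      intro t
      have := mul_nonneg h1 (Real.exp_pos (2 * t)).le
      have := sq_nonneg (fro (Dg ξ x - 1))
      linarith
  have h3 := (Real.tendsto_sqrt_atTop).comp key
  refine h3.congr fun t => ?_
  simp only [Function.comp]
  exact Real.sqrt_sq (ds_nonneg _ _)

/-- Towards `ξ` the displacement tends to the size of the rotation part. -/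
theorem ds_flow_lim {ξ : Fin n → ℂ} (hξ : nq ξ = 1) {x : SUGroup n} (hx : x ∈ St ξ) :
    Tendsto (fun t : ℝ => ds (fl ξ t) x) atTop (𝓝 (fro (Dg ξ x - 1))) := by
  obtain ⟨c₁, c₂, h1, h2, h, -⟩ := ds_flow hξ hx
  have key : Tendsto (fun t : ℝ => ds (fl ξ t) x ^ 2) atTop (𝓝 (fro (Dg ξ x - 1) ^ 2)) := by
    have h' : ∀ t : ℝ, ds (fl ξ t) x ^ 2 =
        fro (Dg ξ x - 1) ^ 2 + c₁ * Real.exp (-(2 * t)) + c₂ * Real.exp (-(4 * t)) := by
      intro t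
      have := h (-t)
      rw [neg_neg] at this
      rw [this, mul_neg, mul_neg]
    simp only [h']
    have t1 : Tendsto (fun t : ℝ => Real.exp (-(2 * t))) atTop (𝓝 0) :=
      Real.tendsto_exp_neg_atTop_nhds_zero.comp (tendsto_id.const_mul_atTop (by norm_num))
    have t2 : Tendsto (fun t : ℝ => Real.exp (-(4 * t))) atTop (𝓝 0) :=
      Real.tendsto_exp_neg_atTop_nhds_zero.comp (tendsto_id.const_mul_atTop (by norm_num))
    have := ((tendsto_const_nhds (x := fro (Dg ξ x - 1) ^ 2)).add (t1.const_mul c₁)).add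
      (t2.const_mul c₂)
    simpa using this
  have h3 := (Real.continuous_sqrt.tendsto _).comp key
  rw [Real.sqrt_sq (fro_nonneg _)] at h3
  refine h3.congr fun t => ?_
  simp only [Function.comp]
  exact Real.sqrt_sq (ds_nonneg _ _)

/-- The block `(b(-t) q b(t))` is bounded for `t ≥ 0` (C10); here `q` maps the line of `ξ` to the
line of `η`. -/
theorem ch_flow_le {ξ η : Fin n → ℂ} (hξ : nq ξ = 1) {x : SUGroup n} (hx : mv x ξ = η) {t : ℝ}
    (ht : 0 ≤ t) : ch (fl η (-t) * x * fl ξ t) ≤ fro x.toMatrix := by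
  have hη : nq η = 1 := by rw [← hx]; exact nq_mv hξ x
  refine (ch_le_fro _).trans (le_of_sq_le_sq ?_ (fro_nonneg _))
  rw [fro_blocks (pj_Qf hη) (pj_Qf hξ), fro_blocks (pj_Qf hη) (pj_Qf hξ) x.toMatrix]
  refine Finset.sum_le_sum fun i _ => Finset.sum_le_sum fun j _ => ?_
  rw [toMatrix_mul, toMatrix_mul, block_fl hξ hη, fro_smul_real]
  rcases lt_or_ge j i with hij | hij
  · rw [block_low hξ hx i j hij, fro_eq_zero.2 rfl]
    simp
  · have h1 : Real.exp (ex i * -t + ex j * t) ≤ 1 := by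
      rw [Real.exp_le_one_iff]
      have h2 : ex j ≤ ex i := by
        fin_cases i <;> fin_cases j <;> simp [ex] at hij ⊢
      nlinarith
    have h2 : Real.exp (ex i * -t + ex j * t) ^ 2 ≤ 1 :=
      pow_le_one₀ (Real.exp_pos _).le h1
    exact mul_le_of_le_one_left (sq_nonneg _) h2

theorem Dg_one {ξ : Fin n → ℂ} (hξ : nq ξ = 1) : Dg ξ (1 : SUGroup n) = 1 := by
  rw [Dg_eq, ← (pj_Qf hξ).sum]
  refine Finset.sum_congr rfl fun i _ => ?_
  rw [toMatrix_one, Matrix.mul_one, (pj_Qf hξ).sq]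

private theorem Q_Dg {ξ : Fin n → ℂ} (hξ : nq ξ = 1) (x : SUGroup n) (i : Fin 3) :
    Qf ξ i * Dg ξ x = Qf ξ i * x.toMatrix * Qf ξ i := by
  rw [Dg_eq, Matrix.mul_sum, Finset.sum_eq_single i]
  · rw [← Matrix.mul_assoc, ← Matrix.mul_assoc, (pj_Qf hξ).sq]
  · intro k _ hk
    rw [← Matrix.mul_assoc, ← Matrix.mul_assoc, (pj_Qf hξ).ne i k (Ne.symm hk), Matrix.zero_mul,
      Matrix.zero_mul]
  · intro h
    exact absurd (Finset.mem_univ i) h

private theorem Dg_Q {ξ : Fin n → ℂ} (hξ : nq ξ = 1) (x : SUGroup n) (i : Fin 3) :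
    Dg ξ x * Qf ξ i = Qf ξ i * x.toMatrix * Qf ξ i := by
  rw [Dg_eq, Matrix.sum_mul, Finset.sum_eq_single i]
  · rw [Matrix.mul_assoc, (pj_Qf hξ).sq]
  · intro k _ hk
    rw [Matrix.mul_assoc, (pj_Qf hξ).ne k i hk, Matrix.mul_zero]
  · intro h
    exact absurd (Finset.mem_univ i) h

theorem Dg_mul {ξ : Fin n → ℂ} (hξ : nq ξ = 1) {x y : SUGroup n} (hx : x ∈ St ξ) (hy : y ∈ St ξ) :
    Dg ξ (x * y) = Dg ξ x * Dg ξ y := by
  have h1 : Dg ξ x * Dg ξ y = ∑ i, Qf ξ i * (Dg ξ x * Dg ξ y) := by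
    rw [← Matrix.sum_mul, (pj_Qf hξ).sum, Matrix.one_mul]
  rw [h1, Dg_eq]
  refine Finset.sum_congr rfl fun i _ => ?_
  have h2 : Qf ξ i * (Dg ξ x * Dg ξ y) = Qf ξ i * x.toMatrix * Qf ξ i * (y.toMatrix * Qf ξ i) := by
    calc _ = (Qf ξ i * Dg ξ x) * Dg ξ y := by rw [Matrix.mul_assoc]
      _ = Qf ξ i * x.toMatrix * (Qf ξ i * Dg ξ y) := by rw [Q_Dg hξ, Matrix.mul_assoc]
      _ = _ := by rw [Q_Dg hξ]; simp only [Matrix.mul_assoc]
  have h3 : Qf ξ i * (x * y).toMatrix * Qf ξ i =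
      ∑ k, Qf ξ i * x.toMatrix * Qf ξ k * (y.toMatrix * Qf ξ i) := by
    rw [← Matrix.sum_mul, ← Matrix.mul_sum, (pj_Qf hξ).sum, Matrix.mul_one, toMatrix_mul]
    simp only [Matrix.mul_assoc]
  rw [h2, h3, Finset.sum_eq_single i]
  · intro k _ hk
    rcases lt_or_gt_of_ne hk with hki | hki
    · rw [block_low hξ (mv_of_St hξ hx) i k hki, Matrix.zero_mul]
    · have := block_low hξ (mv_of_St hξ hy) k i hki
      rw [Matrix.mul_assoc] at this
      rw [Matrix.mul_assoc (Qf ξ i * x.toMatrix), this, Matrix.mul_zero]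
  · intro h
    exact absurd (Finset.mem_univ i) h

theorem continuous_Dg (ξ : Fin n → ℂ) : Continuous fun x : SUGroup n => Dg ξ x := by
  have h := continuous_toMatrix n
  unfold Dg
  fun_prop

private theorem J_Qf {ξ : Fin n → ℂ} (hξ : nq ξ = 1) (i : Fin 3) :
    J n * Qf ξ i = Qf ξ (Fin.rev i) * J n := by
  have hξ' : nq (-ξ) = 1 := by rw [nq_neg, hξ]
  obtain ⟨h1, h2, h3⟩ := J_eq_P hξ
  obtain ⟨h4, -, -⟩ := J_eq_P hξ'
  rw [neg_neg] at h4
  fin_cases i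
  · exact h1
  · exact h2.trans h3.symm
  · exact h4

/-- the group elements `fl (-t) x fl t` converge to the rotation part -/
private theorem tendsto_Dg {ξ : Fin n → ℂ} (hξ : nq ξ = 1) {x : SUGroup n} (hx : x ∈ St ξ) :
    Tendsto (fun t : ℝ => (fl ξ (-t) * x * fl ξ t).toMatrix) atTop (𝓝 (Dg ξ x)) := by
  have h1 : ∀ t : ℝ, (fl ξ (-t) * x * fl ξ t).toMatrix =
      ∑ i, ∑ j, (Real.exp ((ex j - ex i) * t) : ℂ) • (Qf ξ i * x.toMatrix * Qf ξ j) := by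
    intro t
    have h2 : ∀ A : Mat (n + 1), A = ∑ i, ∑ j, Qf ξ i * A * Qf ξ j := by
      intro A
      have : ∀ i, ∑ j, Qf ξ i * A * Qf ξ j = Qf ξ i * A := by
        intro i
        rw [← Matrix.mul_sum, (pj_Qf hξ).sum, Matrix.mul_one]
      simp only [this]
      rw [← Matrix.sum_mul, (pj_Qf hξ).sum, Matrix.one_mul]
    rw [h2 (fl ξ (-t) * x * fl ξ t).toMatrix]
    refine Finset.sum_congr rfl fun i _ => Finset.sum_congr rfl fun j _ => ?_
    rw [toMatrix_mul, toMatrix_mul, block_fl hξ hξ]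
    congr 3
    ring
  simp only [h1]
  have h3 : Dg ξ x = ∑ i, ∑ j, if i = j then Qf ξ i * x.toMatrix * Qf ξ j else 0 := by
    rw [Dg_eq]
    refine Finset.sum_congr rfl fun i _ => ?_
    rw [Finset.sum_ite_eq, if_pos (Finset.mem_univ i)]
  rw [h3]
  refine tendsto_finsetSum _ fun i _ => tendsto_finsetSum _ fun j _ => ?_
  rcases lt_trichotomy i j with hij | hij | hij
  · rw [if_neg (ne_of_lt hij)]
    have h2 : ex j - ex i < 0 := by
      fin_cases i <;> fin_cases j <;> simp [ex] at hij ⊢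
    have h4 : Tendsto (fun t : ℝ => (Real.exp ((ex j - ex i) * t) : ℂ)) atTop (𝓝 0) := by
      have : Tendsto (fun t : ℝ => Real.exp ((ex j - ex i) * t)) atTop (𝓝 0) :=
        Real.tendsto_exp_atBot.comp (tendsto_id.const_mul_atTop_of_neg h2)
      have h5 := (Complex.continuous_ofReal.tendsto 0).comp this
      rw [Complex.ofReal_zero] at h5
      exact h5
    have := h4.smul_const (Qf ξ i * x.toMatrix * Qf ξ j)
    simpa using this
  · subst hij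
    simp
  · rw [if_neg (ne_of_gt hij), block_low hξ (mv_of_St hξ hx) i j hij]
    simp

/-- The rotation part is an element of the group, fixes the base point and commutes with the
flow (`Dg x = lim fl (-t) x fl t`, `SU(n,1)` is closed). -/
theorem exists_dg {ξ : Fin n → ℂ} {x : SUGroup n} (hx : x ∈ PS ξ) (hξ : nq ξ = 1) :
    ∃ k ∈ PS ξ, k.toMatrix = Dg ξ x ∧ Dg ξ k = Dg ξ x ∧ ch k = 1 ∧ ∀ t, k * fl ξ t = fl ξ t * k := by
  have hxS : x ∈ St ξ := PS_le_St ξ hx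
  have hcl : Dg ξ x ∈ Set.range (SUGroup.toMatrix (m := n)) :=
    (isClosedEmbedding_toMatrix n).isClosed_range.mem_of_tendsto (tendsto_Dg hξ hxS)
      (Eventually.of_forall fun t => ⟨_, rfl⟩)
  obtain ⟨k, hk⟩ := hcl
  have hDk : Dg ξ k = Dg ξ x := by
    rw [Dg_eq ξ k, hk]
    have : ∀ i, Qf ξ i * Dg ξ x * Qf ξ i = Qf ξ i * x.toMatrix * Qf ξ i := by
      intro i
      rw [Q_Dg hξ, Matrix.mul_assoc, (pj_Qf hξ).sq]
    simp only [this]
    rw [← Dg_eq]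
  have hcomm : ∀ t, k * fl ξ t = fl ξ t * k := by
    intro t
    apply toMatrix_injective
    rw [toMatrix_mul, toMatrix_mul, hk, fl_sum hξ, Matrix.mul_sum, Matrix.sum_mul]
    refine Finset.sum_congr rfl fun i _ => ?_
    rw [Matrix.mul_smul, Matrix.smul_mul, Dg_Q hξ, Q_Dg hξ]
  -- the action on `pe ξ`
  have hk1 : act k (pe ξ) = act x (pe ξ) := by
    obtain ⟨c, -, hc⟩ := hx
    have h1 : Dg ξ x *ᵥ pe ξ = Qf ξ 0 *ᵥ (x.toMatrix *ᵥ pe ξ) := by
      calc Dg ξ x *ᵥ pe ξ = Dg ξ x *ᵥ (Qf ξ 0 *ᵥ pe ξ) := by rw [Qf_zero, Pp_mulVec hξ]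
        _ = (Qf ξ 0 * x.toMatrix * Qf ξ 0) *ᵥ pe ξ := by rw [Matrix.mulVec_mulVec, Dg_Q hξ]
        _ = Qf ξ 0 *ᵥ (x.toMatrix *ᵥ (Qf ξ 0 *ᵥ pe ξ)) := by
            rw [Matrix.mulVec_mulVec, Matrix.mulVec_mulVec]
        _ = _ := by rw [Qf_zero, Pp_mulVec hξ]
    have h2 : x.toMatrix *ᵥ pe ξ = c • pe ξ := hc
    rw [act, act, hk, h1, h2, Matrix.mulVec_smul, Qf_zero, Pp_mulVec hξ]
  have hkP : k ∈ PS ξ := by
    obtain ⟨c, hc1, hc⟩ := hx
    exact ⟨c, hc1, hk1.trans hc⟩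
  refine ⟨k, hkP, hk, hDk, ?_, hcomm⟩
  -- the action on `pe (-ξ)` and on the base point
  obtain ⟨c, hc1, hc⟩ := hkP
  have hξ' : nq (-ξ) = 1 := by rw [nq_neg, hξ]
  have h3 : ∃ d : ℂ, act k (pe (-ξ)) = d • pe (-ξ) := by
    obtain ⟨d, hd⟩ := Pp_mulVec_smul (ξ := -ξ) (x.toMatrix *ᵥ pe (-ξ))
    refine ⟨d, ?_⟩
    calc act k (pe (-ξ)) = Dg ξ x *ᵥ (Qf ξ 2 *ᵥ pe (-ξ)) := by
          rw [Qf_two, Pp_mulVec hξ', act, hk]
      _ = (Qf ξ 2 * x.toMatrix * Qf ξ 2) *ᵥ pe (-ξ) := by rw [Matrix.mulVec_mulVec, Dg_Q hξ]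
      _ = Qf ξ 2 *ᵥ (x.toMatrix *ᵥ (Qf ξ 2 *ᵥ pe (-ξ))) := by
          rw [Matrix.mulVec_mulVec, Matrix.mulVec_mulVec]
      _ = _ := by rw [Qf_two, Pp_mulVec hξ', hd]
  obtain ⟨d, hd⟩ := h3
  have h4 : herm (pe ξ) (pe (-ξ)) ≠ 0 := herm_pe_ne hξ hξ' (Ne.symm (neg_ne_self hξ))
  have h5 : star c * d = 1 := by
    have h6 : herm (act k (pe ξ)) (act k (pe (-ξ))) = herm (pe ξ) (pe (-ξ)) := herm_act k _ _
    rw [hc, hd] at h6
    have h7 : herm (c • pe ξ) (d • pe (-ξ)) = (star c * d) * herm (pe ξ) (pe (-ξ)) := by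
      simp only [herm, star_smul, Matrix.mulVec_smul, smul_dotProduct, dotProduct_smul, smul_eq_mul]
      ring
    rw [h7] at h6
    exact mul_right_cancel₀ h4 (by rw [h6, one_mul])
  have h6 : d = c := by
    have h7 : star c * c = 1 := by
      rw [RCLike.star_def, ← Complex.normSq_eq_conj_mul_self, Complex.normSq_eq_norm_sq, hc1]
      norm_num
    have h8 : star c ≠ 0 := by
      intro h
      rw [h, zero_mul] at h7
      exact zero_ne_one h7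
    exact mul_left_cancel₀ h8 (by rw [h5, h7])
  have h7 : act k (base n) = c • base n := by
    have h8 : base n = (1 / 2 : ℂ) • (pe ξ + pe (-ξ)) := by
      rw [two_smul_base, smul_smul]
      norm_num
    have h9 : act k (pe ξ + pe (-ξ)) = c • (pe ξ + pe (-ξ)) := by
      rw [act, Matrix.mulVec_add, smul_add]
      have e1 : k.toMatrix *ᵥ pe ξ = c • pe ξ := hc
      have e2 : k.toMatrix *ᵥ pe (-ξ) = d • pe (-ξ) := hd
      rw [e1, e2, h6]
    rw [h8, act_smul, h9, smul_comm]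
  have h8 := congrFun h7 (Fin.last n)
  simp only [act, base, Matrix.mulVec_single_one, Pi.smul_apply, Matrix.col_apply,
    Pi.single_eq_same, smul_eq_mul, mul_one] at h8
  rw [ch, h8, hc1]

theorem Dg_unitary {ξ : Fin n → ℂ} (hξ : nq ξ = 1) {x : SUGroup n} (hx : x ∈ PS ξ) :
    (Dg ξ x)ᴴ * Dg ξ x = 1 ∧ Dg ξ x * (Dg ξ x)ᴴ = 1 := by
  obtain ⟨k, -, hk, -, hc, -⟩ := exists_dg hx hξ
  have h := unitary_of_ch hc
  rw [hk] at h
  exact ⟨h, mul_eq_one_comm.1 h⟩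

theorem fro_Dg_conj {ξ : Fin n → ℂ} (hξ : nq ξ = 1) {g x : SUGroup n} (hg : g ∈ PS ξ)
    (hx : x ∈ PS ξ) : fro (Dg ξ (g⁻¹ * x * g) - 1) = fro (Dg ξ x - 1) := by
  have hgi := (PS ξ).inv_mem hg
  have hgS := PS_le_St ξ hg
  have hgiS := PS_le_St ξ hgi
  have hxS := PS_le_St ξ hx
  have h1 : Dg ξ g⁻¹ * Dg ξ g = 1 := by
    rw [← Dg_mul hξ hgiS hgS, inv_mul_cancel, Dg_one hξ]
  have h2 : Dg ξ (g⁻¹ * x * g) - 1 = Dg ξ g⁻¹ * (Dg ξ x - 1) * Dg ξ g := by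
    rw [Dg_mul hξ ((St ξ).mul_mem hgiS hxS) hgS, Dg_mul hξ hgiS hxS, Matrix.mul_sub,
      Matrix.sub_mul, Matrix.mul_one, h1]
  rw [h2, fro_mul_unitary (Dg_unitary hξ hg).2, fro_unitary_mul (Dg_unitary hξ hgi).1]

theorem fro_Dg_inv_mul {ξ : Fin n → ℂ} (hξ : nq ξ = 1) {x y : SUGroup n} (hx : x ∈ PS ξ)
    (hy : y ∈ PS ξ) : fro (Dg ξ (x⁻¹ * y) - 1) = fro (Dg ξ y - Dg ξ x) := by
  have hxi := (PS ξ).inv_mem hx
  have hxS := PS_le_St ξ hx
  have hxiS := PS_le_St ξ hxi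
  have hyS := PS_le_St ξ hy
  have h1 : Dg ξ x⁻¹ * Dg ξ x = 1 := by
    rw [← Dg_mul hξ hxiS hxS, inv_mul_cancel, Dg_one hξ]
  have h2 : Dg ξ (x⁻¹ * y) - 1 = Dg ξ x⁻¹ * (Dg ξ y - Dg ξ x) := by
    rw [Dg_mul hξ hxiS hyS, Matrix.mul_sub, h1]
  rw [h2, fro_unitary_mul (Dg_unitary hξ hxi).1]

/-- Pigeonhole: for `e > 0` there is `N` such that among any `N + 1` elements of `PS ξ` two have
rotation parts at distance `< e`. -/
theorem Dg_pigeon (ξ : Fin n → ℂ) (hξ : nq ξ = 1) {e : ℝ} (he : 0 < e) : ∃ N : ℕ,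
    ∀ f : ℕ → SUGroup n, (∀ i, f i ∈ PS ξ) → ∃ i j, i < j ∧ j ≤ N ∧
      fro (Dg ξ (f j) - Dg ξ (f i)) < e := by
  set c : ℝ := Real.sqrt ((n + 1 : ℕ) : ℝ) + 1 with hc
  have hc0 : 0 < c := by positivity
  have hδ : 0 < e / (2 * c) := by positivity
  have hcomp : IsCompact (Metric.closedBall (0 : Mat (n + 1)) 1) := isCompact_closedBall 0 1
  obtain ⟨T, hT, hcov⟩ := Metric.totallyBounded_iff.1 hcomp.totallyBounded (e / (2 * c)) hδ
  set T' : Finset (Mat (n + 1)) := hT.toFinset with hT'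
  have hmem : ∀ x ∈ PS ξ, ∃ A ∈ T', dist (Dg ξ x) A < e / (2 * c) := by
    intro x hx
    have h1 : Dg ξ x ∈ Metric.closedBall (0 : Mat (n + 1)) 1 := by
      rw [mem_closedBall_zero_iff]
      have h2 := (Dg_unitary hξ hx).1
      have h3 : ‖(Dg ξ x)ᴴ * Dg ξ x‖ ≤ 1 := by
        rw [h2]
        exact norm_one.le
      rw [l2_opNorm_conjTranspose_mul_self] at h3
      nlinarith [norm_nonneg (Dg ξ x)]
    have h2 := hcov h1
    rw [Set.mem_iUnion₂] at h2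
    obtain ⟨A, hA, h3⟩ := h2
    exact ⟨A, hT.mem_toFinset.2 hA, h3⟩
  refine ⟨T'.card, fun f hf => ?_⟩
  choose φ hφT hφ using fun i => hmem (f i) (hf i)
  have hcard : T'.card < (Finset.range (T'.card + 1)).card := by simp
  obtain ⟨i, hi, j, hj, hij, hφij⟩ := Finset.exists_ne_map_eq_of_card_lt_of_maps_to hcard
    (f := φ) (fun i _ => hφT i)
  have key : ∀ i j, φ i = φ j → fro (Dg ξ (f j) - Dg ξ (f i)) < e := by
    intro i j h
    have h1 : ‖Dg ξ (f j) - Dg ξ (f i)‖ < e / c := by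
      rw [← dist_eq_norm]
      calc dist (Dg ξ (f j)) (Dg ξ (f i)) ≤ dist (Dg ξ (f j)) (φ j) + dist (φ j) (Dg ξ (f i)) :=
            dist_triangle _ _ _
        _ < e / (2 * c) + e / (2 * c) := by
            refine add_lt_add (hφ j) ?_
            rw [dist_comm, ← h]
            exact hφ i
        _ = e / c := by field_simp; norm_num
    have h2 := fro_le_norm (Dg ξ (f j) - Dg ξ (f i))
    calc fro (Dg ξ (f j) - Dg ξ (f i)) ≤ Real.sqrt ((n + 1 : ℕ) : ℝ) *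
          ‖Dg ξ (f j) - Dg ξ (f i)‖ := h2
      _ ≤ c * ‖Dg ξ (f j) - Dg ξ (f i)‖ :=
          mul_le_mul_of_nonneg_right (by rw [hc]; linarith) (norm_nonneg _)
      _ < c * (e / c) := mul_lt_mul_of_pos_left h1 hc0
      _ = e := by field_simp
  rw [Finset.mem_range] at hi hj
  rcases lt_or_gt_of_ne hij with h | h
  · exact ⟨i, j, h, by omega, key i j hφij⟩
  · exact ⟨j, i, h, by omega, key j i hφij.symm⟩

/-- Three elements with trivial rotation part: `(x-1)(y-1)(z-1) = 0`. -/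
theorem mul_three {ξ : Fin n → ℂ} (hξ : nq ξ = 1) {x y z : SUGroup n} (hx : x ∈ St ξ)
    (hy : y ∈ St ξ) (hz : z ∈ St ξ) (h1 : Dg ξ x = 1) (h2 : Dg ξ y = 1) (h3 : Dg ξ z = 1) :
    (x.toMatrix - 1) * (y.toMatrix - 1) * (z.toMatrix - 1) = 0 := by
  have key : ∀ w : SUGroup n, w ∈ St ξ → Dg ξ w = 1 → ∀ i j : Fin 3, j ≤ i →
      Qf ξ i * (w.toMatrix - 1) * Qf ξ j = 0 := by
    intro w hw hD i j hij
    rcases lt_or_eq_of_le hij with h | h
    · rw [block_one hξ _ i j (ne_of_gt h), block_low hξ (mv_of_St hξ hw) i j h]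
    · subst h
      rw [Matrix.mul_sub, Matrix.sub_mul, Matrix.mul_one, (pj_Qf hξ).sq, ← Q_Dg hξ, hD,
        Matrix.mul_one, sub_self]
  have hdec : ∀ A : Mat (n + 1), A = ∑ i, ∑ j, Qf ξ i * A * Qf ξ j := by
    intro A
    have : ∀ i, ∑ j, Qf ξ i * A * Qf ξ j = Qf ξ i * A := by
      intro i
      rw [← Matrix.mul_sum, (pj_Qf hξ).sum, Matrix.mul_one]
    simp only [this]
    rw [← Matrix.sum_mul, (pj_Qf hξ).sum, Matrix.one_mul]
  -- `(z - 1)` kills the first projection, maps the second into the first, ...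
  have a1 : ∀ w : SUGroup n, w ∈ St ξ → Dg ξ w = 1 → (w.toMatrix - 1) * Qf ξ 0 = 0 := by
    intro w hw hD
    have h4 : (w.toMatrix - 1) * Qf ξ 0 = ∑ i, Qf ξ i * (w.toMatrix - 1) * Qf ξ 0 := by
      rw [← Matrix.sum_mul, ← Matrix.sum_mul, (pj_Qf hξ).sum, Matrix.one_mul]
    rw [h4]
    exact Finset.sum_eq_zero fun i _ => key w hw hD i 0 (Fin.zero_le i)
  have a2 : ∀ w : SUGroup n, w ∈ St ξ → Dg ξ w = 1 →
      (w.toMatrix - 1) * Qf ξ 1 = Qf ξ 0 * ((w.toMatrix - 1) * Qf ξ 1) := by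
    intro w hw hD
    have h4 : (w.toMatrix - 1) * Qf ξ 1 = ∑ i, Qf ξ i * (w.toMatrix - 1) * Qf ξ 1 := by
      rw [← Matrix.sum_mul, ← Matrix.sum_mul, (pj_Qf hξ).sum, Matrix.one_mul]
    conv_lhs => rw [h4]
    rw [Fin.sum_univ_three, key w hw hD 1 1 le_rfl, key w hw hD 2 1 (by decide), add_zero,
      add_zero, Matrix.mul_assoc]
  have a3 : ∀ w : SUGroup n, w ∈ St ξ → Dg ξ w = 1 →
      (w.toMatrix - 1) * Qf ξ 2 = Qf ξ 0 * ((w.toMatrix - 1) * Qf ξ 2) +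
        Qf ξ 1 * ((w.toMatrix - 1) * Qf ξ 2) := by
    intro w hw hD
    have h4 : (w.toMatrix - 1) * Qf ξ 2 = ∑ i, Qf ξ i * (w.toMatrix - 1) * Qf ξ 2 := by
      rw [← Matrix.sum_mul, ← Matrix.sum_mul, (pj_Qf hξ).sum, Matrix.one_mul]
    conv_lhs => rw [h4]
    rw [Fin.sum_univ_three, key w hw hD 2 2 le_rfl, add_zero, Matrix.mul_assoc, Matrix.mul_assoc]
  -- products
  have b2 : ∀ w v : SUGroup n, w ∈ St ξ → v ∈ St ξ → Dg ξ w = 1 → Dg ξ v = 1 →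
      (w.toMatrix - 1) * ((v.toMatrix - 1) * Qf ξ 1) = 0 := by
    intro w v hw hv hD hD'
    rw [a2 v hv hD', ← Matrix.mul_assoc, a1 w hw hD, Matrix.zero_mul]
  have c0 : (x.toMatrix - 1) * (y.toMatrix - 1) * (z.toMatrix - 1) * Qf ξ 0 = 0 := by
    rw [Matrix.mul_assoc, a1 z hz h3, Matrix.mul_zero]
  have c1 : (x.toMatrix - 1) * (y.toMatrix - 1) * (z.toMatrix - 1) * Qf ξ 1 = 0 := by
    rw [Matrix.mul_assoc, Matrix.mul_assoc, b2 y z hy hz h2 h3, Matrix.mul_zero]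
  have c2 : (x.toMatrix - 1) * (y.toMatrix - 1) * (z.toMatrix - 1) * Qf ξ 2 = 0 := by
    rw [Matrix.mul_assoc, a3 z hz h3, Matrix.mul_add, Matrix.mul_assoc (x.toMatrix - 1),
      ← Matrix.mul_assoc (y.toMatrix - 1) (Qf ξ 0), a1 y hy h2, Matrix.zero_mul, Matrix.mul_zero,
      zero_add, Matrix.mul_assoc, ← Matrix.mul_assoc (y.toMatrix - 1) (Qf ξ 1),
      ← Matrix.mul_assoc (x.toMatrix - 1), b2 x y hx hy h1 h2, Matrix.zero_mul]
  calc (x.toMatrix - 1) * (y.toMatrix - 1) * (z.toMatrix - 1) =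
      (x.toMatrix - 1) * (y.toMatrix - 1) * (z.toMatrix - 1) * ∑ i, Qf ξ i := by
        rw [(pj_Qf hξ).sum, Matrix.mul_one]
    _ = 0 := by
        rw [Fin.sum_univ_three, Matrix.mul_add, Matrix.mul_add, c0, c1, c2, add_zero, add_zero]

end Pool.Agent.Lib.MP_5d4057_al.NU
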