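import Pool.Agent.Lib.MP_5d4057_al.NU.CuspD
import Pool.Agent.Lib.MP_5d4057_al.NU.CuspE

/-! The exit lemma (C8). -/

namespace Pool.Agent.Lib.MP_5d4057_al.NU

open Matrix MeasureTheory Filter Topology Pool.Agent.Lib.MP_5d4057_al
  Pool.Agent.Lib.MP_5d4057_al.Hyb Pool.Agent.Lib.MP_5d4057_al.HM
  Pool.Agent.Lib.MP_5d4057_al.HM.Kak

open scoped ComplexOrder MatrixOrder Matrix.Norms.L2Operator ENNReal

variable {n m : ℕ}

/-- C8, unperturbed form: if no element of `Γ` of displacement `< e` at `g` fixing the line of `ξ`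
fixes also the other end of the geodesic from `ξ` through `g`. With `η = mv g⁻¹ ξ` and `x = g⁻¹ γ g`:
`ds (g * fl η (-t)) γ = ds (fl η (-t)) x` (`ds_mul`), `x ∈ St η` (`conj_mem_St`); `ds_flow_strict`,
`ds_flow_tendsto`, `ds_fixed`. -/
theorem exit_aux {Γ : Subgroup (SUGroup n)} (hd : DiscreteTopology Γ) (hT : TF Γ) {e : ℝ}
    (he : 0 < e) (he' : e ≤ 1 / 8) {g γ : SUGroup n} {ξ : Fin n → ℂ} (hξ : nq ξ = 1) (hγ : γ ∈ Γ)
    (h1 : γ ≠ 1) (hs : γ ∈ St ξ) (hds : ds g γ < e)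
    (hno : ∀ γ' ∈ Γ, γ' ≠ 1 → γ' ∈ St ξ → ds g γ' < e → γ' ∉ St (mv g (-(mv g⁻¹ ξ)))) :
    ∃ (t : ℝ) (δ : SUGroup n), 0 ≤ t ∧ δ ∈ Γ ∧ δ ≠ 1 ∧ δ ∈ St ξ ∧
      ds (g * fl (mv g⁻¹ ξ) (-t)) δ = e ∧
      ∀ γ' ∈ Γ, γ' ≠ 1 → e ≤ ds (g * fl (mv g⁻¹ ξ) (-t)) γ' := by
  set η := mv g⁻¹ ξ with hη
  have hη1 : nq η = 1 := nq_mv hξ g⁻¹
  have hηn : nq (-η) = 1 := by rw [nq_neg, hη1]
  -- the displacement function
  have hF : ∀ (γ' : SUGroup n) (t : ℝ), ds (g * fl η (-t)) γ' = ds (fl η (-t)) (g⁻¹ * γ' * g) :=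
    fun γ' t => ds_mul _ _ _
  have hF0 : ∀ γ' : SUGroup n, ds (g * fl η (-0)) γ' = ds g γ' := by
    intro γ'
    rw [neg_zero, fl_zero, mul_one]
  have hcont : ∀ γ' : SUGroup n, Continuous fun t : ℝ => ds (g * fl η (-t)) γ' := by
    intro γ'
    exact (continuous_ds γ').comp (continuous_const.mul ((continuous_fl η).comp continuous_neg))
  have hmono : ∀ γ' ∈ St ξ, ∀ s t : ℝ, s ≤ t → ds (g * fl η (-s)) γ' ≤ ds (g * fl η (-t)) γ' := by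
    intro γ' h s t hst
    rw [hF, hF]
    exact ds_flow_mono hη1 ((conj_mem_St hξ).2 h) hst
  -- the finite set
  have hfin : {γ' : SUGroup n | γ' ∈ Γ ∧ γ' ≠ 1 ∧ γ' ∈ St ξ ∧ ds g γ' < e}.Finite := by
    refine (finite_ds hd (ch g) e).subset ?_
    rintro γ' ⟨a, -, -, b⟩
    exact ⟨a, g, le_rfl, b.le⟩
  have htime : ∀ γ' : SUGroup n, ∃ t : ℝ, γ' ∈ Γ → γ' ≠ 1 → γ' ∈ St ξ → ds g γ' < e →
      0 ≤ t ∧ ds (g * fl η (-t)) γ' = e := by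
    intro γ'
    by_cases hA : γ' ∈ Γ ∧ γ' ≠ 1 ∧ γ' ∈ St ξ ∧ ds g γ' < e
    · obtain ⟨a, b, c, d⟩ := hA
      have h2 : g⁻¹ * γ' * g ∉ St (-η) := by
        intro h
        apply hno γ' a b c d
        have h3 := (conj_mem_St (nq_mv hηn g) (g := g) (x := γ')).1
        rw [mv_inv_mv hηn] at h3
        exact h3 h
      have h3 := ds_flow_tendsto hη1 ((conj_mem_St hξ (g := g)).2 c) h2
      obtain ⟨T, hT1, hT2⟩ := ((h3.eventually_ge_atTop e).and (eventually_ge_atTop 0)).exists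
      have h4 := intermediate_value_Icc hT2 (hcont γ').continuousOn
      have h5 : e ∈ Set.Icc (ds (g * fl η (-0)) γ') (ds (g * fl η (-T)) γ') := by
        rw [hF0, hF]
        exact ⟨d.le, hT1⟩
      obtain ⟨t, ht, ht'⟩ := h4 h5
      exact ⟨t, fun _ _ _ _ => ⟨ht.1, ht'⟩⟩
    · exact ⟨0, fun a b c d => absurd ⟨a, b, c, d⟩ hA⟩
  choose τ hτ using htime
  obtain ⟨δ, hδ, hmax⟩ := hfin.toFinset.exists_max_image τ
    ⟨γ, hfin.mem_toFinset.2 ⟨hγ, h1, hs, hds⟩⟩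
  obtain ⟨d1, d2, d3, d4⟩ := hfin.mem_toFinset.1 hδ
  obtain ⟨t0, t1⟩ := hτ δ d1 d2 d3 d4
  refine ⟨τ δ, δ, t0, d1, d2, d3, t1, ?_⟩
  intro γ' hγ' hγ1
  by_contra hlt
  push Not at hlt
  have h5 : γ' ∈ St ξ := ds_fixed hd hT d1 hγ' d2 hγ1 (t1.le.trans he') (hlt.le.trans he') hξ d3
  have h6 : ds g γ' < e := by
    have := hmono γ' h5 0 (τ δ) t0
    rw [hF0] at this
    exact this.trans_lt hlt
  obtain ⟨s0, s1⟩ := hτ γ' hγ' hγ1 h5 h6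
  have h7 := hmax γ' (hfin.mem_toFinset.2 ⟨hγ', hγ1, h5, h6⟩)
  have h8 := hmono γ' h5 _ _ h7
  rw [s1] at h8
  exact absurd hlt (not_lt.2 h8)

/-- the vertical translation -/
private theorem vt_aux {η : Fin n → ℂ} (hη : nq η = 1) (τ : ℝ) :
    (MM η (Complex.I * τ) (-(Complex.I * τ)) (Complex.I * τ) (-(Complex.I * τ))).det = 1 ∧
      (MM η (Complex.I * τ) (-(Complex.I * τ)) (Complex.I * τ) (-(Complex.I * τ)))ᴴ * J n *
        MM η (Complex.I * τ) (-(Complex.I * τ)) (Complex.I * τ) (-(Complex.I * τ)) = J n := by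
  have hs : star (Complex.I * (τ : ℂ)) = -(Complex.I * τ) := by
    simp
  constructor
  · rw [MM_det, hη]
    push_cast
    ring
  · apply MM_pres
    · rw [hs, hη]
      push_cast
      ring
    · rw [hs, hη]
      push_cast
      ring
    · rw [star_neg, hs, hη]
      push_cast
      ring

private noncomputable def vt {η : Fin n → ℂ} (hη : nq η = 1) (τ : ℝ) : SUGroup n :=
  ofMatrix _ (vt_aux hη τ).1 (vt_aux hη τ).2

private theorem vt_toMatrix {η : Fin n → ℂ} (hη : nq η = 1) (τ : ℝ) : (vt hη τ).toMatrix =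
    MM η (Complex.I * τ) (-(Complex.I * τ)) (Complex.I * τ) (-(Complex.I * τ)) := rfl

private theorem MM_mulVec_vec (p : Fin n → ℂ) (a b c d : ℂ) :
    MM p a b c d *ᵥ vec p = (1 + a * nq p) • vec p + (c * nq p) • base n := by
  simp only [MM, add_mulVec, smul_mulVec, one_mulVec, vecMulVec_mulVec, star_vec_dot,
    base_dot_vec, MulOpposite.op_zero, zero_smul, smul_zero]
  simp only [op_smul_eq_smul]
  module

private theorem vt_act {η : Fin n → ℂ} (hη : nq η = 1) (τ : ℝ) (s : ℂ) :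
    act (vt hη τ) (s • vec η + base n) = (s + Complex.I * τ * (s - 1)) • vec η +
      (1 + Complex.I * τ * (s - 1)) • base n := by
  rw [act, vt_toMatrix, mulVec_add, mulVec_smul, MM_mulVec_vec, MM_mulVec_base, hη]
  push_cast
  module

private theorem vt_pe {η : Fin n → ℂ} (hη : nq η = 1) (τ : ℝ) : mv (vt hη τ) η = η := by
  have h : act (vt hη τ) (pe η) = (1 : ℂ) • pe η := by
    have := vt_act hη τ 1
    rw [one_smul, sub_self, mul_zero, add_zero, one_smul, one_smul] at this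
    rw [pe, this, one_smul]
  exact (eq_of_act_pe hη h).2

private theorem vt_neg {η : Fin n → ℂ} (hη : nq η = 1) (τ : ℝ) :
    (1 - 2 * (Complex.I * τ) : ℂ) ≠ 0 ∧ ∀ i, mv (vt hη τ) (-η) i * (1 - 2 * (Complex.I * τ)) =
      -(1 + 2 * (Complex.I * τ)) * η i := by
  have h0 : (1 - 2 * (Complex.I * τ) : ℂ) ≠ 0 := by
    intro h
    have := congrArg Complex.re h
    simp at this
  have h1 : act (vt hη τ) (pe (-η)) = (-(1 + 2 * (Complex.I * τ))) • vec η +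
      (1 - 2 * (Complex.I * τ)) • base n := by
    have h2 : pe (-η) = (-1 : ℂ) • vec η + base n := by
      rw [pe]
      congr 1
      ext i
      refine Fin.lastCases ?_ (fun i => ?_) i
      · rw [vec_last, Pi.smul_apply, vec_last, smul_zero]
      · rw [vec_castSucc, Pi.smul_apply, vec_castSucc, Pi.neg_apply, smul_eq_mul]
        ring
    rw [h2, vt_act]
    congr 2 <;> ring
  refine ⟨h0, fun i => ?_⟩
  have h3 : ml (vt hη τ) (-η) = 1 - 2 * (Complex.I * τ) := by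
    rw [ml, h1, Pi.add_apply, Pi.smul_apply, Pi.smul_apply, vec_last, base_last, smul_zero,
      zero_add, smul_eq_mul, mul_one]
  rw [mv, h3, h1, div_mul_cancel₀ _ h0, Pi.add_apply, Pi.smul_apply, Pi.smul_apply, vec_castSucc,
    base_castSucc, smul_zero, add_zero, smul_eq_mul]

private theorem vt_inj {η : Fin n → ℂ} (hη : nq η = 1) {τ τ' : ℝ}
    (h : mv (vt hη τ) (-η) = mv (vt hη τ') (-η)) : τ = τ' := by
  obtain ⟨a, ha⟩ := vt_neg hη τ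
  obtain ⟨b, hb⟩ := vt_neg hη τ'
  have h0 : ∃ i, η i ≠ 0 := by
    by_contra h0
    push Not at h0
    have : η = 0 := funext h0
    rw [this, nq_zero] at hη
    exact zero_ne_one hη
  obtain ⟨i, hi⟩ := h0
  have h1 := ha i
  have h2 := hb i
  rw [h] at h1
  have h3 : (1 + 2 * (Complex.I * τ)) * (1 - 2 * (Complex.I * τ')) * η i =
      (1 + 2 * (Complex.I * τ')) * (1 - 2 * (Complex.I * τ)) * η i := by
    linear_combination (1 - 2 * (Complex.I * τ')) * h1 - (1 - 2 * (Complex.I * τ)) * h2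
  have h4 := mul_right_cancel₀ hi h3
  have h5 : (4 * Complex.I) * ((τ : ℂ) - τ') = 0 := by linear_combination h4
  have h6 : ((τ : ℂ) - τ') = 0 := by
    rcases mul_eq_zero.1 h5 with h7 | h7
    · exfalso
      have := congrArg Complex.im h7
      simp at this
    · exact h7
  rw [sub_eq_zero] at h6
  exact_mod_cast h6

private theorem vt_wt {η : Fin n → ℂ} (hη : nq η = 1) {τ : ℝ} (h0 : 0 ≤ τ) (h1 : τ ≤ 3 / 4) :
    wt (vt hη τ) ≤ 2 := by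
  have h2 : ch (vt hη τ) ^ 2 = 1 + τ ^ 2 := by
    rw [ch, vt_toMatrix, MM_last, ← Complex.normSq_eq_norm_sq, Complex.normSq_apply]
    simp
    ring
  have h3 : ch (vt hη τ) ≤ 5 / 4 := by
    have h4 := one_le_ch (vt hη τ)
    nlinarith
  have h4 : Real.sqrt (ch (vt hη τ) ^ 2 - 1) = τ := by
    rw [h2, add_sub_cancel_left, Real.sqrt_sq h0]
  rw [wt, h4]
  linarith

/-- C8. Perturbation: `g' = g * n(τ)`, `n(τ) = Z (pe η) (i τ)`, `η = mv g⁻¹ ξ`, which fixes `pe η`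
and moves `-η` to infinitely many different lines. -/
theorem exit_lemma {Γ : Subgroup (SUGroup n)} (hd : DiscreteTopology Γ) (hT : TF Γ) {e : ℝ}
    (he : 0 < e) (he' : e ≤ 1 / 8) {g γ : SUGroup n} {ξ : Fin n → ℂ} (hξ : nq ξ = 1) (hγ : γ ∈ Γ)
    (h1 : γ ≠ 1) (hs : γ ∈ St ξ) (hds : ds g γ < e / 8) :
    ∃ (g' : SUGroup n) (t : ℝ) (δ : SUGroup n), 0 ≤ t ∧ wt (g⁻¹ * g') ≤ 2 ∧ δ ∈ Γ ∧ δ ≠ 1 ∧
      δ ∈ St ξ ∧ ds (g' * fl (mv g'⁻¹ ξ) (-t)) δ = e ∧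
      ∀ γ' ∈ Γ, γ' ≠ 1 → e ≤ ds (g' * fl (mv g'⁻¹ ξ) (-t)) γ' := by
  obtain ⟨η, hη⟩ : ∃ η, η = mv g⁻¹ ξ := ⟨_, rfl⟩
  have hη1 : nq η = 1 := by rw [hη]; exact nq_mv hξ g⁻¹
  have hηn : nq (-η) = 1 := by rw [nq_neg, hη1]
  have hgη : mv g η = ξ := by rw [hη, mv_mv_inv hξ]
  -- the other ends
  have hL : ∀ τ : ℝ, nq (mv g (mv (vt hη1 τ) (-η))) = 1 := fun τ => nq_mv (nq_mv hηn _) _
  have hLne : ∀ τ : ℝ, ξ ≠ mv g (mv (vt hη1 τ) (-η)) := by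
    intro τ h
    have h2 := congrArg (mv g⁻¹) h
    rw [mv_inv_mv (nq_mv hηn _), ← hη] at h2
    have h3 := congrArg (mv (vt hη1 τ)⁻¹) h2
    rw [mv_inv_mv hηn] at h3
    have h4 : mv (vt hη1 τ)⁻¹ η = η := by
      have h5 := mv_inv_mv hη1 (vt hη1 τ)
      rwa [vt_pe hη1] at h5
    rw [h4] at h3
    exact neg_ne_self hη1 h3.symm
  have hLinj : ∀ τ τ' : ℝ, mv g (mv (vt hη1 τ) (-η)) = mv g (mv (vt hη1 τ') (-η)) → τ = τ' := by
    intro τ τ' h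
    have h2 := congrArg (mv g⁻¹) h
    rw [mv_inv_mv (nq_mv hηn _), mv_inv_mv (nq_mv hηn _)] at h2
    exact vt_inj hη1 h2
  have hfin : {γ' : SUGroup n | γ' ∈ Γ ∧ ds g γ' ≤ 4 * e}.Finite := by
    refine (finite_ds hd (ch g) (4 * e)).subset ?_
    rintro γ' ⟨a, b⟩
    exact ⟨a, g, le_rfl, b⟩
  have hbad : {τ : ℝ | ∃ γ' ∈ {γ' : SUGroup n | γ' ∈ Γ ∧ ds g γ' ≤ 4 * e}, γ' ≠ 1 ∧ γ' ∈ St ξ ∧
      γ' ∈ St (mv g (mv (vt hη1 τ) (-η)))}.Finite := by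
    have h2 : {τ : ℝ | ∃ γ' ∈ {γ' : SUGroup n | γ' ∈ Γ ∧ ds g γ' ≤ 4 * e}, γ' ≠ 1 ∧ γ' ∈ St ξ ∧
        γ' ∈ St (mv g (mv (vt hη1 τ) (-η)))} =
        ⋃ γ' ∈ {γ' : SUGroup n | γ' ∈ Γ ∧ ds g γ' ≤ 4 * e}, {τ : ℝ | γ' ≠ 1 ∧ γ' ∈ St ξ ∧
          γ' ∈ St (mv g (mv (vt hη1 τ) (-η)))} := by
      ext τ
      simp only [Set.mem_ofPred_eq, Set.mem_iUnion, exists_prop]
    rw [h2]
    refine hfin.biUnion fun γ' hγ' => Set.Subsingleton.finite ?_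
    rintro τ ⟨a, b, c⟩ τ' ⟨_, _, c'⟩
    have h3 := three_fixed (hT.nf hγ'.1 a) hξ (hL τ) (hL τ') (hLne τ) b c c'
    rcases h3 with h3 | h3
    · exact absurd h3.symm (hLne τ')
    · exact (hLinj τ' τ h3).symm
  obtain ⟨τ, hτ, hτb⟩ := (Set.Ioc_infinite (show (0 : ℝ) < 3 / 4 by norm_num)).exists_notMem_finite
    hbad
  have hwt := vt_wt hη1 hτ.1.le hτ.2
  have hwt1 := one_le_wt (vt hη1 τ)
  have hw4 : wt (vt hη1 τ) ^ 2 ≤ 4 := by nlinarith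
  have hg' : mv (g * vt hη1 τ)⁻¹ ξ = η := by
    rw [_root_.mul_inv_rev, mv_mul hξ, ← hη]
    have h5 := mv_inv_mv hη1 (vt hη1 τ)
    rwa [vt_pe hη1] at h5
  have hds' : ds (g * vt hη1 τ) γ < e := by
    have h2 := ds_mul_le g (vt hη1 τ) γ
    have h3 := ds_nonneg g γ
    have h4 : wt (vt hη1 τ) ^ 2 * ds g γ ≤ 4 * ds g γ := mul_le_mul_of_nonneg_right hw4 h3
    linarith
  obtain ⟨t, δ, r1, r2, r3, r4, r5, r6⟩ := exit_aux hd hT he he' (g := g * vt hη1 τ) hξ hγ h1 hs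
    hds' (by
      intro γ' hγ' hγ1 hγs hγd hc
      apply hτb
      refine ⟨γ', ⟨hγ', ?_⟩, hγ1, hγs, ?_⟩
      · have h2 := ds_mul_le (g * vt hη1 τ) (vt hη1 τ)⁻¹ γ'
        rw [mul_inv_cancel_right, wt_inv] at h2
        have h3 := ds_nonneg (g * vt hη1 τ) γ'
        have h4 : wt (vt hη1 τ) ^ 2 * ds (g * vt hη1 τ) γ' ≤ 4 * ds (g * vt hη1 τ) γ' :=
          mul_le_mul_of_nonneg_right hw4 h3
        linarith
      · rw [hg', mv_mul hηn] at hc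
        exact hc)
  exact ⟨g * vt hη1 τ, t, δ, r1, by rw [inv_mul_cancel_left]; exact hwt, r2, r3, r4, r5, r6⟩

/-- C8p: in the parabolic case no perturbation is needed. -/
theorem exit_par {Γ : Subgroup (SUGroup n)} (hd : DiscreteTopology Γ) (hT : TF Γ) {e : ℝ}
    (he : 0 < e) (he' : e ≤ 1 / 8) {g γ : SUGroup n} {ξ : Fin n → ℂ} (hP : Par Γ ξ) (hγ : γ ∈ Γ)
    (h1 : γ ≠ 1) (hs : γ ∈ St ξ) (hds : ds g γ < e) :
    ∃ (t : ℝ) (δ : SUGroup n), 0 ≤ t ∧ δ ∈ Γ ∧ δ ≠ 1 ∧ δ ∈ St ξ ∧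
      ds (g * fl (mv g⁻¹ ξ) (-t)) δ = e ∧
      ∀ γ' ∈ Γ, γ' ≠ 1 → e ≤ ds (g * fl (mv g⁻¹ ξ) (-t)) γ' := by
  have hξ : nq ξ = 1 := hP.1
  refine exit_aux hd hT he he' hξ hγ h1 hs hds ?_
  intro γ' hγ' hγ1 hγs _ hc
  have hη1 : nq (mv g⁻¹ ξ) = 1 := nq_mv hξ g⁻¹
  have hηn : nq (-(mv g⁻¹ ξ)) = 1 := by rw [nq_neg, hη1]
  have h2 := hP.unique hT hγ' hγ1 hγs (nq_mv hηn g) hc
  have h3 := congrArg (mv g⁻¹) h2
  rw [mv_inv_mv hηn] at h3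
  exact neg_ne_self hη1 h3

end Pool.Agent.Lib.MP_5d4057_al.NU
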