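import Pool.Agent.Lib.MP_5d4057_al.NU.CuspF
import Pool.Agent.Lib.MP_5d4057_al.NU.LatC

/-! Rays (C9) and loxodromic ends (C10). -/

namespace Pool.Agent.Lib.MP_5d4057_al.NU

open Matrix MeasureTheory Filter Topology Pool.Agent.Lib.MP_5d4057_al
  Pool.Agent.Lib.MP_5d4057_al.Hyb Pool.Agent.Lib.MP_5d4057_al.HM
  Pool.Agent.Lib.MP_5d4057_al.HM.Kak

open scoped ComplexOrder MatrixOrder Matrix.Norms.L2Operator ENNReal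

variable {n m : ℕ}

variable {Γ : Subgroup (SUGroup n)} {χ : SUGroup n → ℝ}

/-- The conclusion of C9: `Γ \ G` is covered by a compact set and finitely many families of rays. -/
structure Rays (Γ : Subgroup (SUGroup n)) (R : ℝ) (X : Set (Fin n → ℂ)) : Prop where
  fin : X.Finite
  unit : ∀ ξ ∈ X, nq ξ = 1
  fixed : ∀ ξ ∈ X, ∃ δ ∈ Γ, δ ≠ 1 ∧ δ ∈ St ξ
  /-- every `1/8`-thick point at which an element of displacement `≤ 1/8` fixes `ζ` sees `ζ` as one of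
  the finitely many lines of `X` -/
  exit : ∀ (g : SUGroup n) (ζ : Fin n → ℂ) (δ : SUGroup n), nq ζ = 1 → δ ∈ Γ → δ ≠ 1 → δ ∈ St ζ →
    ds g δ ≤ 1 / 8 → (∀ γ' ∈ Γ, γ' ≠ 1 → 1 / 8 ≤ ds g γ') →
      ∃ γ ∈ Γ, ch (γ * g) ≤ R ∧ mv γ ζ ∈ X
  cover : ∀ g : SUGroup n, ∃ γ ∈ Γ, ch (γ * g) ≤ R ∨
    ∃ (κ : SUGroup n) (ξ : Fin n → ℂ) (t : ℝ) (x : SUGroup n), ξ ∈ X ∧ ch κ ≤ R ∧ 0 ≤ t ∧
      wt x ≤ 2 ∧ γ * g = κ * fl (mv κ⁻¹ ξ) t * x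

/-- An element without fixed points in complex hyperbolic space fixes finitely many lines. -/
private theorem cg_fin {γ : SUGroup n} (h : NF γ) :
    {ξ : Fin n → ℂ | nq ξ = 1 ∧ γ ∈ St ξ}.Finite := by
  by_cases h2 : ∃ ξ ξ' : Fin n → ℂ, (nq ξ = 1 ∧ γ ∈ St ξ) ∧ (nq ξ' = 1 ∧ γ ∈ St ξ') ∧ ξ ≠ ξ'
  · obtain ⟨ξ, ξ', ⟨h3, h4⟩, ⟨h5, h6⟩, hne⟩ := h2
    refine Set.Finite.subset (Set.toFinite {ξ, ξ'}) ?_
    rintro ξ'' ⟨h7, h8⟩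
    exact three_fixed h h3 h5 h7 hne h4 h6 h8
  · refine Set.Subsingleton.finite fun ξ h3 ξ' h4 => ?_
    by_contra hne
    exact h2 ⟨ξ, ξ', h3, h4, hne⟩

/-- C9 (`e = 1/8`; `thick` for `e/8` and `e`, `exit_lemma`, `finite_ds`, `three_fixed`). -/
theorem exists_rays (hL : Lat Γ χ) (hT : TF Γ) : ∃ (R : ℝ) (X : Set (Fin n → ℂ)), Rays Γ R X := by
  obtain ⟨R₁, hR₁⟩ := thick hL (e := 1 / 8) (by norm_num)
  obtain ⟨R₂, hR₂⟩ := thick hL (e := 1 / 8 / 8) (by norm_num)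
  obtain ⟨R, hR⟩ : ∃ R, R = max R₁ R₂ := ⟨_, rfl⟩
  obtain ⟨F, hF⟩ : ∃ F : Set (SUGroup n),
      F = {γ | γ ∈ Γ ∧ ∃ g : SUGroup n, ch g ≤ R ∧ ds g γ ≤ 1 / 8} := ⟨_, rfl⟩
  have hFf : F.Finite := by
    rw [hF]
    exact finite_ds hL.disc R (1 / 8)
  obtain ⟨X, hX⟩ : ∃ X : Set (Fin n → ℂ),
      X = ⋃ γ ∈ F ∩ {γ | γ ≠ 1}, {ξ : Fin n → ℂ | nq ξ = 1 ∧ γ ∈ St ξ} := ⟨_, rfl⟩
  have hmem : ∀ ξ : Fin n → ℂ, ξ ∈ X ↔ ∃ γ ∈ F, γ ≠ 1 ∧ nq ξ = 1 ∧ γ ∈ St ξ := by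
    intro ξ
    rw [hX]
    simp only [Set.mem_iUnion, Set.mem_inter_iff, Set.mem_ofPred_eq, exists_prop]
    constructor
    · rintro ⟨γ, ⟨h1, h2⟩, h3, h4⟩
      exact ⟨γ, h1, h2, h3, h4⟩
    · rintro ⟨γ, h1, h2, h3, h4⟩
      exact ⟨γ, ⟨h1, h2⟩, h3, h4⟩
  have hFΓ : ∀ γ ∈ F, γ ∈ Γ := by
    intro γ hγ
    rw [hF] at hγ
    exact hγ.1
  have hexit : ∀ (g : SUGroup n) (ζ : Fin n → ℂ) (δ : SUGroup n), nq ζ = 1 → δ ∈ Γ → δ ≠ 1 →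
      δ ∈ St ζ → ds g δ ≤ 1 / 8 → (∀ γ' ∈ Γ, γ' ≠ 1 → 1 / 8 ≤ ds g γ') →
      ∃ γ ∈ Γ, ch (γ * g) ≤ R ∧ mv γ ζ ∈ X := by
    intro g ζ δ hζ hδ h1 hs hds hth
    obtain ⟨γ, hγ, hch⟩ := hR₁ g hth
    have hch' : ch (γ * g) ≤ R := hch.trans (by rw [hR]; exact le_max_left _ _)
    refine ⟨γ, hγ, hch', (hmem _).2 ⟨γ * δ * γ⁻¹, ?_, ?_, nq_mv hζ γ, ?_⟩⟩
    · rw [hF]
      refine ⟨Γ.mul_mem (Γ.mul_mem hγ hδ) (Γ.inv_mem hγ), γ * g, hch', ?_⟩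
      rw [ds_conj]
      have e : γ⁻¹ * (γ * δ * γ⁻¹) * γ = δ := by group
      rw [e]
      exact hds
    · intro h
      apply h1
      have e : δ = γ⁻¹ * (γ * δ * γ⁻¹) * γ := by group
      rw [e, h]
      group
    · have e := (conj_mem_St hζ (g := γ⁻¹) (x := δ)).2 hs
      rwa [inv_inv] at e
  refine ⟨R, X, ?_, ?_, ?_, hexit, ?_⟩
  · rw [hX]
    refine Set.Finite.biUnion (hFf.subset Set.inter_subset_left) ?_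
    rintro γ ⟨h1, h2⟩
    exact cg_fin (hT.nf (hFΓ γ h1) h2)
  · intro ξ hξ
    obtain ⟨γ, -, -, h1, -⟩ := (hmem ξ).1 hξ
    exact h1
  · intro ξ hξ
    obtain ⟨γ, h0, h1, -, h2⟩ := (hmem ξ).1 hξ
    exact ⟨γ, hFΓ γ h0, h1, h2⟩
  · intro g
    by_cases hth : ∀ γ ∈ Γ, γ ≠ 1 → 1 / 8 / 8 ≤ ds g γ
    · obtain ⟨γ, hγ, hch⟩ := hR₂ g hth
      exact ⟨γ, hγ, Or.inl (hch.trans (by rw [hR]; exact le_max_right _ _))⟩
    · push Not at hth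
      obtain ⟨γ₁, hγ₁, h1, hds⟩ := hth
      obtain ⟨ξ, hξ, hs⟩ := exists_fixed (hT.nf hγ₁ h1)
      obtain ⟨g', t, δ, ht, hw, hδ, hδ1, hδs, hδe, hth⟩ := exit_lemma hL.disc hT (e := 1 / 8)
        (by norm_num) le_rfl hξ hγ₁ h1 hs hds
      obtain ⟨γ, hγ, hch, hmv⟩ := hexit _ ξ δ hξ hδ hδ1 hδs hδe.le hth
      refine ⟨γ, hγ, Or.inr ⟨γ * (g' * fl (mv g'⁻¹ ξ) (-t)), mv γ ξ, t, g'⁻¹ * g, hmv, hch, ht,
        ?_, ?_⟩⟩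
      · rw [← wt_inv, _root_.mul_inv_rev, inv_inv]
        exact hw
      · have e1 : mv (γ * (g' * fl (mv g'⁻¹ ξ) (-t)))⁻¹ (mv γ ξ) = mv g'⁻¹ ξ := by
          rw [_root_.mul_inv_rev, mv_mul (nq_mv hξ γ), mv_inv_mv hξ, mv_ray hξ]
        rw [e1, fl_neg]
        group

/-- powers of an element of the stabiliser -/
private theorem cg_pow {δ : SUGroup n} {ξ : Fin n → ℂ} (hξ : nq ξ = 1) (hs : δ ∈ St ξ) (i : ℕ) :
    δ ^ i ∈ St ξ ∧ ml (δ ^ i) ξ = ml δ ξ ^ i := by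
  induction i with
  | zero => exact ⟨by rw [pow_zero]; exact (St ξ).one_mem, by rw [pow_zero, pow_zero, ml_one]⟩
  | succ i ih =>
    refine ⟨(St ξ).pow_mem hs _, ?_⟩
    rw [pow_succ, ml_mul hξ, (mem_St hξ).1 hs, ih.2, pow_succ]

/-- an element which fixes `ξ` and `-ξ` -/
private theorem cg_ch {y : SUGroup n} {ξ : Fin n → ℂ} (hξ : nq ξ = 1) (h1 : y ∈ St ξ)
    (h2 : y ∈ St (-ξ)) (h3 : 1 ≤ ‖ml y ξ‖) : ch y ≤ ‖ml y ξ‖ := by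
  have hξ' : nq (-ξ) = 1 := by rw [nq_neg, hξ]
  have e1 := act_of_mem_St hξ h1
  have e2 := act_of_mem_St hξ' h2
  have e3 : star (ml y ξ) * ml y (-ξ) = 1 := by
    have h0 := herm_pe_ne hξ hξ' (neg_ne_self hξ).symm
    have h4 := herm_act y (pe ξ) (pe (-ξ))
    rw [e1, e2, herm_smul_left, herm_smul_right, ← mul_assoc] at h4
    exact mul_right_cancel₀ h0 (by rw [h4, one_mul])
  have e4 : (2 : ℂ) * act y (base n) (Fin.last n) = ml y ξ + ml y (-ξ) := by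
    have h4 := congrArg (fun v => act y v (Fin.last n)) (two_smul_base ξ)
    simp only [act_smul, Pi.smul_apply, smul_eq_mul] at h4
    rw [← h4, act_add, e1, e2, Pi.add_apply, Pi.smul_apply, Pi.smul_apply, pe_last, pe_last,
      smul_eq_mul, smul_eq_mul, mul_one, mul_one]
  have e5 : ch y = ‖act y (base n) (Fin.last n)‖ := by
    rw [ch, act, mulVec, dotProduct, Fin.sum_univ_castSucc, base_last, mul_one,
      Finset.sum_eq_zero, zero_add]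
    intro i _
    rw [base_castSucc, mul_zero]
  have h5 : ‖ml y (-ξ)‖ ≤ 1 := by
    have h6 := congrArg norm e3
    rw [norm_mul, norm_star, norm_one] at h6
    have h7 := norm_nonneg (ml y (-ξ))
    nlinarith
  have h6 := congrArg norm e4
  rw [norm_mul, Complex.norm_ofNat, ← e5] at h6
  have h7 := norm_add_le (ml y ξ) (ml y (-ξ))
  linarith

/-- C10. -/
theorem lox_end {δ : SUGroup n} {ξ : Fin n → ℂ} (hδ : δ ∈ Γ) (hξ : nq ξ = 1)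
    (hs : δ ∈ St ξ) (h1 : ‖ml δ ξ‖ ≠ 1) (R : ℝ) : ∃ R' : ℝ, ∀ (κ : SUGroup n) (t : ℝ),
      ch κ ≤ R → 0 ≤ t → ∃ γ ∈ Γ, ch (γ * (κ * fl (mv κ⁻¹ ξ) t)) ≤ R' := by
  -- an element which contracts
  obtain ⟨δ₁, hδ₁, hs₁, hlt⟩ : ∃ δ₁ ∈ Γ, δ₁ ∈ St ξ ∧ ‖ml δ₁ ξ‖ < 1 := by
    rcases lt_or_gt_of_ne h1 with h | h
    · exact ⟨δ, hδ, hs, h⟩
    · refine ⟨δ⁻¹, Γ.inv_mem hδ, (St ξ).inv_mem hs, ?_⟩
      rw [ml_inv hξ, (mem_St hξ).1 ((St ξ).inv_mem hs), norm_inv]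
      exact inv_lt_one_of_one_lt₀ h
  obtain ⟨ξ', hξ', hne, hs'⟩ := exists_second hξ hs₁ hlt.ne
  obtain ⟨a, ha, ha'⟩ := exists_frame hξ hξ' hne
  have hpos : 0 < ‖ml δ₁ ξ‖ := norm_pos_iff.2 (ml_ne_zero hξ δ₁)
  obtain ⟨τ, hτ⟩ : ∃ τ, τ = -Real.log ‖ml δ₁ ξ‖ := ⟨_, rfl⟩
  have hτ0 : 0 < τ := by
    rw [hτ]
    have := Real.log_neg hpos hlt
    linarith
  have hml : ‖ml δ₁ ξ‖ = Real.exp (-τ) := by rw [hτ, neg_neg, Real.exp_log hpos]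
  have hξn : nq (-ξ) = 1 := by rw [nq_neg, hξ]
  have hai : mv a⁻¹ ξ = ξ := by
    conv_lhs => rw [← ha]
    exact mv_inv_mv hξ a
  have hai' : mv a⁻¹ ξ' = -ξ := by
    conv_lhs => rw [← ha']
    exact mv_inv_mv hξn a
  refine ⟨2 * ch a * (2 * Real.exp τ * (2 * Real.sqrt (n + 1) * (2 * ch a * R))), ?_⟩
  intro κ t hκ ht
  obtain ⟨i, hi⟩ : ∃ i : ℕ, i = ⌊t / τ⌋₊ := ⟨_, rfl⟩
  have hi1 : (i : ℝ) * τ ≤ t := by
    rw [hi, ← le_div_iff₀ hτ0]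
    exact Nat.floor_le (div_nonneg ht hτ0.le)
  have hi2 : t < (i + 1 : ℝ) * τ := by
    rw [hi, ← div_lt_iff₀ hτ0]
    exact Nat.lt_floor_add_one _
  refine ⟨δ₁ ^ i, Γ.pow_mem hδ₁ i, ?_⟩
  -- the two factors
  obtain ⟨η, hη⟩ : ∃ η, η = mv κ⁻¹ ξ := ⟨_, rfl⟩
  have hη1 : nq η = 1 := by rw [hη]; exact nq_mv hξ _
  have hq : mv (a⁻¹ * κ) η = ξ := by
    rw [mv_mul hη1, hη, mv_mv_inv hξ, hai]
  obtain ⟨r, hr⟩ : ∃ r, r = fl ξ (-t) * (a⁻¹ * κ) * fl η t := ⟨_, rfl⟩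
  have hrch : ch r ≤ 2 * Real.sqrt (n + 1) * (2 * ch a * R) := by
    rw [hr]
    refine (ch_flow_le hη1 hq ht).trans ((fro_toMatrix_le _).trans ?_)
    refine mul_le_mul_of_nonneg_left ?_ (by positivity)
    refine (ch_mul_le' _ _).trans ?_
    rw [ch_inv]
    have := one_le_ch a
    exact mul_le_mul_of_nonneg_left hκ (by positivity)
  obtain ⟨y, hy⟩ : ∃ y, y = a⁻¹ * δ₁ ^ i * a * fl ξ t := ⟨_, rfl⟩
  have hp1 := cg_pow hξ hs₁ i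
  have hp2 := cg_pow hξ' hs' i
  have hc1 : a⁻¹ * δ₁ ^ i * a ∈ St ξ := by
    have := (conj_mem_St hξ (g := a) (x := δ₁ ^ i)).2 hp1.1
    rwa [hai] at this
  have hc2 : a⁻¹ * δ₁ ^ i * a ∈ St (-ξ) := by
    have := (conj_mem_St hξ' (g := a) (x := δ₁ ^ i)).2 hp2.1
    rwa [hai'] at this
  have hf2 : fl ξ t ∈ St (-ξ) := ⟨_, fl_pe_neg hξ t⟩
  have hyml : ‖ml y ξ‖ = Real.exp (t - i * τ) := by
    have h2 := ml_conj hξ (g := a) hp1.1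
    rw [hai] at h2
    rw [hy, ml_mul hξ, mv_fl hξ, ml_fl hξ, h2, hp1.2, norm_mul, norm_pow, hml, ← Real.exp_nat_mul,
      Complex.norm_real, Real.norm_eq_abs, Real.abs_exp, ← Real.exp_add]
    congr 1
    ring
  have hych : ch y ≤ Real.exp τ := by
    refine (cg_ch hξ ?_ ?_ ?_).trans ?_
    · rw [hy]
      exact (St ξ).mul_mem hc1 (fl_mem_St hξ t)
    · rw [hy]
      exact (St (-ξ)).mul_mem hc2 hf2
    · rw [hyml]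
      exact Real.one_le_exp (by linarith)
    · rw [hyml]
      exact Real.exp_le_exp.2 (by linarith)
  have e : δ₁ ^ i * (κ * fl (mv κ⁻¹ ξ) t) = a * (y * r) := by
    rw [hy, hr, ← hη, fl_neg]
    group
  rw [e]
  refine (ch_mul_le' _ _).trans (mul_le_mul_of_nonneg_left ?_ ?_)
  · refine (ch_mul_le' _ _).trans ?_
    have h2 := one_le_ch r
    have h3 := one_le_ch y
    have h4 : (0 : ℝ) ≤ Real.exp τ := (Real.exp_pos τ).le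
    refine mul_le_mul ?_ hrch (by linarith) (by positivity)
    linarith
  · have := one_le_ch a
    positivity

end Pool.Agent.Lib.MP_5d4057_al.NU
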