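import Pool.Agent.Lib.MP_5d4057_al.NU.CuspG
import Pool.Agent.Lib.MP_5d4057_al.Hyb.Heis

/-! The stabiliser of a parabolic line is cocompact on horospheres (C12); words (C13). -/

namespace Pool.Agent.Lib.MP_5d4057_al.NU

open Matrix MeasureTheory Filter Topology Pool.Agent.Lib.MP_5d4057_al
  Pool.Agent.Lib.MP_5d4057_al.Hyb Pool.Agent.Lib.MP_5d4057_al.HM
  Pool.Agent.Lib.MP_5d4057_al.HM.Kak

open scoped ComplexOrder MatrixOrder Matrix.Norms.L2Operator ENNReal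

variable {n m : ℕ}

variable {Γ : Subgroup (SUGroup n)}

section root

/-- the real powers of a unipotent matrix `1 + X`, `X ^ 3 = 0` -/
private noncomputable def hV (X : Mat (n + 1)) (t : ℂ) : Mat (n + 1) :=
  1 + t • X + ((t ^ 2 - t) / 2) • (X * X)

private theorem hV_mul {X : Mat (n + 1)} (h3 : X * X * X = 0) (s t : ℂ) :
    hV X s * hV X t = hV X (s + t) := by
  have h3' : X * (X * X) = 0 := by rw [← Matrix.mul_assoc, h3]
  have h4 : X * X * (X * X) = 0 := by rw [← Matrix.mul_assoc, h3, Matrix.zero_mul]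
  simp only [hV, Matrix.mul_add, Matrix.add_mul, Matrix.one_mul, Matrix.mul_one, Matrix.smul_mul,
    Matrix.mul_smul, h3, h3', h4, smul_zero]
  module

private theorem hV_zero (X : Mat (n + 1)) : hV X 0 = 1 := by
  simp [hV]

private theorem hV_one (X : Mat (n + 1)) : hV X 1 = 1 + X := by
  simp [hV]

private theorem hV_pow {X : Mat (n + 1)} (h3 : X * X * X = 0) (t : ℂ) (k : ℕ) :
    hV X t ^ k = hV X (k * t) := by
  induction k with
  | zero => rw [pow_zero, Nat.cast_zero, zero_mul, hV_zero]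
  | succ k ih =>
    rw [pow_succ, ih, hV_mul h3]
    congr 1
    push_cast
    ring

private theorem h_skew {X : Mat (n + 1)} (h3 : X * X * X = 0)
    (h : (1 + X)ᴴ * J n * (1 + X) = J n) : Xᴴ * J n = J n * (X * X - X) := by
  have h1 : (1 + X) * (1 - X + X * X) = 1 := by
    have e : (1 + X) * (1 - X + X * X) = 1 + X * X * X := by noncomm_ring
    rw [e, h3, add_zero]
  have h2 : (1 + X)ᴴ * J n = J n * (1 - X + X * X) := by
    calc (1 + X)ᴴ * J n = (1 + X)ᴴ * J n * ((1 + X) * (1 - X + X * X)) := by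
          rw [h1, Matrix.mul_one]
      _ = ((1 + X)ᴴ * J n * (1 + X)) * (1 - X + X * X) := by simp only [Matrix.mul_assoc]
      _ = _ := by rw [h]
  rw [conjTranspose_add, conjTranspose_one, Matrix.add_mul, Matrix.one_mul] at h2
  have h4 : Xᴴ * J n = J n * (1 - X + X * X) - J n := by rw [← h2]; abel
  rw [h4]
  noncomm_ring

private theorem hV_skew {X : Mat (n + 1)} (h3 : X * X * X = 0)
    (h : Xᴴ * J n = J n * (X * X - X)) (t : ℝ) :
    (hV X t)ᴴ * J n = J n * hV X (-t) := by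
  have h3' : X * (X * X) = 0 := by rw [← Matrix.mul_assoc, h3]
  have h4 : X * X * (X * X) = 0 := by rw [← Matrix.mul_assoc, h3, Matrix.zero_mul]
  have h5 : Xᴴ * Xᴴ * J n = J n * (X * X) := by
    rw [Matrix.mul_assoc, h, ← Matrix.mul_assoc, h, Matrix.mul_assoc]
    congr 1
    simp only [Matrix.mul_sub, Matrix.sub_mul, h3, h3', h4]
    simp
  have e1 : star ((t : ℂ)) = t := by simp
  have e2 : star (((t : ℂ) ^ 2 - t) / 2) = ((t : ℂ) ^ 2 - t) / 2 := by simp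
  have e : (hV X t)ᴴ = 1 + (t : ℂ) • Xᴴ + (((t : ℂ) ^ 2 - t) / 2) • (Xᴴ * Xᴴ) := by
    rw [hV, conjTranspose_add, conjTranspose_add, conjTranspose_one, conjTranspose_smul,
      conjTranspose_smul, conjTranspose_mul, e1, e2]
  rw [e, Matrix.add_mul, Matrix.add_mul, Matrix.smul_mul, Matrix.smul_mul, h5, h, Matrix.one_mul,
    hV]
  simp only [Matrix.mul_add, Matrix.mul_sub, Matrix.mul_one, Matrix.mul_smul]
  module

private theorem hV_pres {X : Mat (n + 1)} (h3 : X * X * X = 0)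
    (h : Xᴴ * J n = J n * (X * X - X)) (t : ℝ) : (hV X t)ᴴ * J n * hV X t = J n := by
  rw [hV_skew h3 h, Matrix.mul_assoc, hV_mul h3, neg_add_cancel, hV_zero, Matrix.mul_one]

private theorem hV_det {X : Mat (n + 1)} (h3 : X * X * X = 0) (t : ℂ) : (hV X t).det = 1 := by
  have h3' : X * (X * X) = 0 := by rw [← Matrix.mul_assoc, h3]
  have h4 : X * X * (X * X) = 0 := by rw [← Matrix.mul_assoc, h3, Matrix.zero_mul]
  obtain ⟨N, hN⟩ : ∃ N : Mat (n + 1), N = t • X + ((t ^ 2 - t) / 2) • (X * X) := ⟨_, rfl⟩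
  have hT : hV X t = 1 - (-N) := by
    rw [hV, hN]
    module
  have h5 : N * N = (t * t) • (X * X) := by
    rw [hN]
    simp only [Matrix.mul_add, Matrix.add_mul, Matrix.smul_mul, Matrix.mul_smul, h3, h3', h4,
      smul_zero]
    module
  have h6 : N * N * N = 0 := by
    rw [h5, hN]
    simp only [Matrix.mul_add, Matrix.smul_mul, Matrix.mul_smul, h3, h4, smul_zero, add_zero]
  have hnil : IsNilpotent (-N) := by
    refine ⟨3, ?_⟩
    rw [pow_succ, pow_succ, pow_one]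
    simp [h6]
  have hch := Matrix.isNilpotent_charpoly_sub_pow_of_isNilpotent hnil
  have hch2 : (-N).charpoly - Polynomial.X ^ Fintype.card (Fin (n + 1)) = 0 := hch.eq_zero
  have hch3 : (-N).charpoly = Polynomial.X ^ Fintype.card (Fin (n + 1)) := sub_eq_zero.1 hch2
  rw [hT]
  have h7 : (1 - (-N)).det = ((-N).charpoly).eval 1 := by
    rw [Matrix.eval_charpoly]
    simp
  rw [h7, hch3]
  simp

/-- the last diagonal entry of the square -/
private theorem h_entry {X : Mat (n + 1)} (h : Xᴴ * J n = J n * (X * X - X)) :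
    ‖(X * X) (Fin.last n) (Fin.last n)‖ ≤ 2 * ‖X (Fin.last n) (Fin.last n)‖ := by
  have h1 := congrFun (congrFun h (Fin.last n)) (Fin.last n)
  rw [J, mul_diagonal, diagonal_mul, if_pos rfl, conjTranspose_apply, Matrix.sub_apply] at h1
  have h2 : (X * X) (Fin.last n) (Fin.last n) =
      star (X (Fin.last n) (Fin.last n)) + X (Fin.last n) (Fin.last n) := by
    linear_combination h1
  rw [h2]
  refine (norm_add_le _ _).trans ?_
  rw [norm_star]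
  linarith

private theorem h_Pp (ξ : Fin n → ℂ) (hξ : nq ξ = 1) : Pp ξ *ᵥ pe ξ = pe ξ := by
  have h1 : star (pe ξ) ⬝ᵥ pe ξ = 2 := by
    rw [dotProduct, Fin.sum_univ_castSucc, Pi.star_apply, pe_last, star_one, one_mul]
    have h2 : ∀ i : Fin n, (star (pe ξ)) i.castSucc * pe ξ i.castSucc = ((‖ξ i‖ ^ 2 : ℝ) : ℂ) := by
      intro i
      rw [Pi.star_apply, pe_castSucc, Complex.star_def, Complex.conj_mul']
      push_cast
      rfl
    rw [Finset.sum_congr rfl fun i _ => h2 i, ← Complex.ofReal_sum]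
    have h3 : ∑ i : Fin n, ‖ξ i‖ ^ 2 = 1 := hξ
    rw [h3]
    norm_num
  rw [Pp, smul_mulVec, vecMulVec_mulVec, h1]
  funext i
  simp only [one_div, Pi.smul_apply, MulOpposite.smul_eq_mul_unop, MulOpposite.unop_op,
    smul_eq_mul]
  ring

/-- the nilpotent part of an element with trivial rotation part -/
private theorem h_struct {ξ : Fin n → ℂ} (hξ : nq ξ = 1) {u : SUGroup n} (hu : u ∈ PS ξ)
    (hD : Dg ξ u = 1) : ∃ X : Mat (n + 1), u.toMatrix = 1 + X ∧ X * Pp ξ = 0 ∧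
      Pp (-ξ) * X = 0 ∧ P0 ξ * X * P0 ξ = 0 ∧ X * X = X * P0 ξ * X ∧ X * X * X = 0 := by
  have hx := ((mem_PS hξ).1 hu).1
  obtain ⟨b1, b2, b3⟩ := block_zero hξ hξ hx
  have hPP := Pp_mul_self hξ
  have hξ' : nq (-ξ) = 1 := by rw [nq_neg, hξ]
  have hMM := Pp_mul_self hξ'
  have hZZ := P0_mul_self hξ
  have hPM := Pp_mul_neg ξ hξ
  have hMP := Pp_neg_mul ξ hξ
  have hPZ := Pp_mul_P0 ξ hξ
  have hZP := P0_mul_Pp ξ hξ
  have hZM : P0 ξ * Pp (-ξ) = 0 := by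
    have := P0_mul_Pp (-ξ) hξ'
    rwa [P0_neg] at this
  have hMZ : Pp (-ξ) * P0 ξ = 0 := by
    have := Pp_mul_P0 (-ξ) hξ'
    rwa [P0_neg] at this
  have hS := P_sum ξ
  rw [Dg] at hD
  generalize Pp ξ = P at *
  generalize Pp (-ξ) = M at *
  generalize P0 ξ = Z at *
  generalize u.toMatrix = U at *
  have hP : P * U * P = P := by
    have h1 : P * (P * U * P + Z * U * Z + M * U * M) * P = P * 1 * P := by rw [hD]
    have h2 : P * (P * U * P + Z * U * Z + M * U * M) * P =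
        (P * P) * U * (P * P) + (P * Z) * U * (Z * P) + (P * M) * U * (M * P) := by
      noncomm_ring
    rw [h2, hPP, hPZ, hPM, Matrix.mul_one, hPP] at h1
    simpa only [Matrix.zero_mul, add_zero, zero_add] using h1
  have hZ : Z * U * Z = Z := by
    have h1 : Z * (P * U * P + Z * U * Z + M * U * M) * Z = Z * 1 * Z := by rw [hD]
    have h2 : Z * (P * U * P + Z * U * Z + M * U * M) * Z =
        (Z * P) * U * (P * Z) + (Z * Z) * U * (Z * Z) + (Z * M) * U * (M * Z) := by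
      noncomm_ring
    rw [h2, hZZ, hZP, hZM, Matrix.mul_one, hZZ] at h1
    simpa only [Matrix.zero_mul, add_zero, zero_add] using h1
  have hM : M * U * M = M := by
    have h1 : M * (P * U * P + Z * U * Z + M * U * M) * M = M * 1 * M := by rw [hD]
    have h2 : M * (P * U * P + Z * U * Z + M * U * M) * M =
        (M * P) * U * (P * M) + (M * Z) * U * (Z * M) + (M * M) * U * (M * M) := by
      noncomm_ring
    rw [h2, hMM, hMP, hMZ, Matrix.mul_one, hMM] at h1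
    simpa only [Matrix.zero_mul, add_zero, zero_add] using h1
  obtain ⟨X, hX⟩ : ∃ X, X = U - 1 := ⟨_, rfl⟩
  have e1 : X * P = 0 := by
    have h1 : X * P = (P + Z + M) * X * P := by rw [hS, Matrix.one_mul]
    have h2 : (P + Z + M) * X * P = (P * U * P - P * P) + (Z * U * P - Z * P) +
        (M * U * P - M * P) := by rw [hX]; noncomm_ring
    rw [h1, h2, hP, hPP, b1, hZP, b2, hMP]
    simp
  have e2 : M * X = 0 := by
    have h1 : M * X = M * X * (P + Z + M) := by rw [hS, Matrix.mul_one]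
    have h2 : M * X * (P + Z + M) = (M * U * P - M * P) + (M * U * Z - M * Z) +
        (M * U * M - M * M) := by rw [hX]; noncomm_ring
    rw [h1, h2, b2, hMP, b3, hMZ, hM, hMM]
    simp
  have e3 : Z * X * Z = 0 := by
    have h2 : Z * X * Z = Z * U * Z - Z * Z := by rw [hX]; noncomm_ring
    rw [h2, hZ, hZZ, sub_self]
  have e4 : X * X = X * Z * X := by
    have h1 : X * X = X * (P + Z + M) * X := by rw [hS, Matrix.mul_one]
    have h2 : X * (P + Z + M) * X = (X * P) * X + X * Z * X + X * (M * X) := by noncomm_ring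
    rw [h1, h2, e1, e2, Matrix.zero_mul, Matrix.mul_zero, zero_add, add_zero]
  refine ⟨X, by rw [hX]; abel, e1, e2, e3, e4, ?_⟩
  have h1 : X * X * X = X * (Z * X * Z) * X := by
    calc X * X * X = X * Z * X * X := by rw [e4]
      _ = X * Z * (X * X) := by rw [Matrix.mul_assoc]
      _ = X * Z * (X * Z * X) := by rw [e4]
      _ = _ := by simp only [Matrix.mul_assoc]
  rw [h1, e3, Matrix.mul_zero, Matrix.zero_mul]

end root

/-- C12. `Γ ∩ St ξ` is cocompact in `PS ξ`. Proof: `x₀ ∈ Γ ∩ St ξ`, `x₀ ≠ 1`; by `Dg_pigeon` a power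
`x` of `x₀` has `fro (Dg ξ x - 1) < 1/128`, `x ≠ 1` by `Tor`. For `g ∈ PS ξ` (`mv g⁻¹ ξ = ξ`):
`ds (g * fl ξ τ) x = ds (fl ξ τ) (g⁻¹ x g) → fro (Dg ξ (g⁻¹ x g) - 1) = fro (Dg ξ x - 1)`
(`ds_mul`, `ds_flow_lim`, `fro_Dg_conj`), so `< 1/64` for some `τ`; `exit_par` with `e = 1/8` at
`g * fl ξ τ` gives a thick point `g * fl ξ s`; `Rays.exit`: `γ' ∈ Γ`, `ch (γ' g fl ξ s) ≤ R`,
`mv γ' ξ ∈ X`. For the finitely many `ζ ∈ X` of the form `mv γ' ξ`, `γ' ∈ Γ`, fix `γ_ζ ∈ Γ` with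
`mv γ_ζ ζ = ξ`: `δ = γ_ζ γ' ∈ Γ ∩ St ξ`, so `‖ml δ ξ‖ = 1` (`Par`), `ch (δ g fl ξ s) ≤ R'`, and
`‖ml (δ g fl ξ s) ξ‖ = e^s` bounds `s` (`norm_ml_le`). -/
theorem horo (hT : TF Γ) (hTor : Tor Γ) (hd : DiscreteTopology Γ) {R : ℝ} {X : Set (Fin n → ℂ)}
    (hR : Rays Γ R X) {ξ : Fin n → ℂ} (hP : Par Γ ξ) (hne : ∃ x₀ ∈ Γ, x₀ ≠ 1 ∧ x₀ ∈ St ξ) :
    ∃ R' : ℝ, ∀ g ∈ PS ξ, ∃ γ ∈ Γ, γ ∈ St ξ ∧ ch (γ * g) ≤ R' := by
  classical
  have hξ : nq ξ = 1 := hP.1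
  obtain ⟨x₀, hx₀, hx₀1, hx₀s⟩ := hne
  have hx₀P : x₀ ∈ PS ξ := hP.2 x₀ hx₀ hx₀s
  -- an element with a small rotation part
  obtain ⟨x, hxΓ, hx1, hxP, hxD⟩ : ∃ x ∈ Γ, x ≠ 1 ∧ x ∈ PS ξ ∧ fro (Dg ξ x - 1) < 1 / 8 := by
    obtain ⟨N, hN⟩ := Dg_pigeon ξ hξ (e := 1 / 8) (by norm_num)
    obtain ⟨i, j, hij, -, h⟩ := hN (fun i => x₀ ^ i) fun i => (PS ξ).pow_mem hx₀P i
    have h1 : (x₀ ^ i)⁻¹ * x₀ ^ j = x₀ ^ (j - i) := by
      rw [inv_mul_eq_iff_eq_mul, ← pow_add]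
      congr 1
      omega
    refine ⟨x₀ ^ (j - i), Γ.pow_mem hx₀ _, fun h2 => hx₀1 (hTor x₀ hx₀ (j - i) (by omega) h2),
      (PS ξ).pow_mem hx₀P _, ?_⟩
    rw [← h1, fro_Dg_inv_mul hξ ((PS ξ).pow_mem hx₀P i) ((PS ξ).pow_mem hx₀P j)]
    exact h
  -- a transporter for each line of `X`
  obtain ⟨c, hc⟩ : ∃ c : (Fin n → ℂ) → SUGroup n, ∀ ζ, (∃ γ ∈ Γ, mv γ ξ = ζ) →
      c ζ ∈ Γ ∧ mv (c ζ) ξ = ζ := by
    refine ⟨fun ζ => if h : ∃ γ ∈ Γ, mv γ ξ = ζ then h.choose else 1, fun ζ h => ?_⟩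
    simp only [dif_pos h]
    exact h.choose_spec
  obtain ⟨M, hM⟩ : ∃ M : ℝ, ∀ ζ ∈ X, ch (c ζ) ≤ M := by
    obtain ⟨M, hM⟩ := (hR.fin.image fun ζ => ch (c ζ)).bddAbove
    exact ⟨M, fun ζ hζ => hM ⟨ζ, hζ, rfl⟩⟩
  refine ⟨2 * (2 * M * R) * (2 * (2 * M * R)), fun g hg => ?_⟩
  have hg' : mv g⁻¹ ξ = ξ := ((mem_PS hξ).1 ((PS ξ).inv_mem hg)).1
  have hgx : g⁻¹ * x * g ∈ PS ξ :=
    (PS ξ).mul_mem ((PS ξ).mul_mem ((PS ξ).inv_mem hg) hxP) hg
  obtain ⟨τ, hτ⟩ : ∃ τ : ℝ, ds (fl ξ τ) (g⁻¹ * x * g) < 1 / 8 := by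
    have h1 := ds_flow_lim hξ (PS_le_St ξ hgx)
    rw [fro_Dg_conj hξ hg hxP] at h1
    exact (h1.eventually (gt_mem_nhds hxD)).exists
  rw [← ds_mul] at hτ
  have hmv : mv (g * fl ξ τ)⁻¹ ξ = ξ := by
    rw [_root_.mul_inv_rev, mv_mul hξ, hg', ← fl_neg, mv_fl hξ]
  obtain ⟨t, δ, ht, hδ, hδ1, hδs, hδd, hthick⟩ :=
    exit_par hd hT (e := 1 / 8) (by norm_num) le_rfl hP hxΓ hx1 (PS_le_St ξ hxP) hτ
  rw [hmv, mul_assoc, ← fl_add] at hδd hthick
  obtain ⟨s, hs⟩ : ∃ s, s = τ + -t := ⟨_, rfl⟩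
  rw [← hs] at hδd hthick
  obtain ⟨γ, hγ, hγR, hγX⟩ := hR.exit (g * fl ξ s) ξ δ hξ hδ hδ1 hδs hδd.le hthick
  obtain ⟨hc1, hc2⟩ := hc (mv γ ξ) ⟨γ, hγ, rfl⟩
  have hδ' : (c (mv γ ξ))⁻¹ * γ ∈ Γ := Γ.mul_mem (Γ.inv_mem hc1) hγ
  have hfix : mv ((c (mv γ ξ))⁻¹ * γ) ξ = ξ := by
    have h1 := mv_inv_mv hξ (c (mv γ ξ))
    rw [hc2] at h1
    rw [mv_mul hξ, h1]
  obtain ⟨d, hd'⟩ : ∃ d, d = (c (mv γ ξ))⁻¹ * γ := ⟨_, rfl⟩
  rw [← hd'] at hδ' hfix
  have hds : d ∈ St ξ := (mem_St hξ).2 hfix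
  have hdP : d ∈ PS ξ := hP.2 d hδ' hds
  have hR1 : 1 ≤ R := (one_le_ch _).trans hγR
  have hM1 : 1 ≤ M := (one_le_ch _).trans (hM _ hγX)
  have hW : ch (d * g * fl ξ s) ≤ 2 * M * R := by
    have h1 : d * g * fl ξ s = (c (mv γ ξ))⁻¹ * (γ * (g * fl ξ s)) := by
      rw [hd']; group
    rw [h1]
    have h2 := ch_mul_le' (c (mv γ ξ))⁻¹ (γ * (g * fl ξ s))
    rw [ch_inv] at h2
    have h3 := hM _ hγX
    have h4 := one_le_ch (c (mv γ ξ))
    have h5 := one_le_ch (γ * (g * fl ξ s))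
    calc _ ≤ _ := h2
      _ ≤ 2 * M * R := by gcongr
  have hml : ‖ml (d * g * fl ξ s) ξ‖ = Real.exp s := by
    rw [ml_mul hξ, mv_fl hξ, ml_mul hξ, ((mem_PS hξ).1 hg).1, norm_mul, norm_mul,
      ((mem_PS hξ).1 hg).2, ((mem_PS hξ).1 hdP).2, ml_fl hξ, one_mul, one_mul,
      Complex.norm_real, Real.norm_eq_abs, Real.abs_exp]
  have hexp : Real.exp |s| ≤ 2 * (2 * M * R) := by
    obtain ⟨h1, h2⟩ := norm_ml_le hξ (d * g * fl ξ s)
    rw [hml] at h1 h2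
    have h3 := wt_le (d * g * fl ξ s)
    have h4 : wt (d * g * fl ξ s) ≤ 2 * (2 * M * R) := by linarith
    rcases abs_cases s with ⟨h5, -⟩ | ⟨h5, -⟩
    · rw [h5]; exact h1.trans h4
    · rw [h5]
      refine le_trans ?_ h4
      have h6 := Real.exp_pos s
      rw [Real.exp_neg, inv_le_iff_one_le_mul₀ h6]
      exact h2
  refine ⟨d, hδ', hds, ?_⟩
  have h1 : d * g = d * g * fl ξ s * fl ξ (-s) := by
    rw [mul_assoc (d * g), ← fl_add, add_neg_cancel, fl_zero, mul_one]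
  rw [h1]
  have h2 := ch_mul_le' (d * g * fl ξ s) (fl ξ (-s))
  have h3 : ch (fl ξ (-s)) ≤ 2 * (2 * M * R) := by
    refine (ch_le_wt _).trans ((wt_fl_le ξ (-s)).trans ?_)
    rw [abs_neg]
    exact hexp
  have h4 := one_le_ch (d * g * fl ξ s)
  have h5 := one_le_ch (fl ξ (-s))
  calc _ ≤ _ := h2
    _ ≤ 2 * (2 * M * R) * (2 * (2 * M * R)) := by gcongr

/-- Roots in the Heisenberg group: for `u - 1 = X`, `X^3 = 0`, `v = 1 + X/k + ((1-k)/(2k²)) X²`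
(or `u = T (pe ξ) ζ * Z (pe ξ) (i τ)` of Hyb/Heis, `|ζ|² + |τ| ≤ C ch u`,
`v = T (pe ξ) (ζ/k) * Z (pe ξ) (i τ/k)`). -/
theorem exists_root {ξ : Fin n → ℂ} (hξ : nq ξ = 1) : ∃ C : ℝ, 0 < C ∧ ∀ u ∈ PS ξ,
    Dg ξ u = 1 → ∀ k : ℕ, 1 ≤ k → ∃ v ∈ PS ξ, Dg ξ v = 1 ∧ v ^ k = u ∧
      ch v ≤ C * (1 + ch u / k) := by
  refine ⟨4, by norm_num, fun u hu hD k hk => ?_⟩
  obtain ⟨X, hU, e1, e2, e3, e4, h3⟩ := h_struct hξ hu hD
  have hp := pres u
  rw [hU] at hp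
  have hs := h_skew h3 hp
  have hk0 : (0 : ℝ) < k := by exact_mod_cast hk
  have hkC : (k : ℂ) ≠ 0 := by exact_mod_cast hk0.ne'
  obtain ⟨t, ht⟩ : ∃ t : ℝ, t = 1 / k := ⟨_, rfl⟩
  have ht0 : 0 < t := by rw [ht]; positivity
  have ht1 : t ≤ 1 := by
    rw [ht, div_le_one hk0]
    exact_mod_cast hk
  let v : SUGroup n := ofMatrix (hV X t) (hV_det h3 _) (hV_pres h3 hs t)
  have hv : v.toMatrix = hV X t := rfl
  have hX0 : X *ᵥ pe ξ = 0 := by
    rw [← h_Pp ξ hξ, mulVec_mulVec, e1, zero_mulVec]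
  refine ⟨v, ⟨1, norm_one, ?_⟩, ?_, ?_, ?_⟩
  · rw [act, hv, hV, add_mulVec, add_mulVec, one_mulVec, smul_mulVec, smul_mulVec, ← mulVec_mulVec,
      hX0, mulVec_zero, smul_zero, smul_zero, add_zero, add_zero, one_smul]
  · have hξ' : nq (-ξ) = 1 := by rw [nq_neg, hξ]
    have f1 : Pp ξ * hV X t * Pp ξ = Pp ξ := by
      rw [hV, Matrix.mul_assoc, Matrix.add_mul, Matrix.add_mul, Matrix.smul_mul, Matrix.smul_mul,
        Matrix.mul_assoc X X, e1, Matrix.mul_zero, smul_zero, smul_zero, add_zero, add_zero,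
        Matrix.one_mul, Pp_mul_self hξ]
    have f2 : Pp (-ξ) * hV X t * Pp (-ξ) = Pp (-ξ) := by
      rw [hV, Matrix.mul_add, Matrix.mul_add, Matrix.mul_smul, Matrix.mul_smul,
        ← Matrix.mul_assoc _ X X, e2, Matrix.zero_mul, smul_zero, smul_zero, add_zero, add_zero,
        Matrix.mul_one, Pp_mul_self hξ']
    have f3 : P0 ξ * hV X t * P0 ξ = P0 ξ := by
      have f4 : P0 ξ * (X * X) * P0 ξ = 0 := by
        calc P0 ξ * (X * X) * P0 ξ = (P0 ξ * X * P0 ξ) * X * P0 ξ := by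
              rw [e4]; simp only [Matrix.mul_assoc]
          _ = 0 := by rw [e3, Matrix.zero_mul, Matrix.zero_mul]
      rw [hV, Matrix.mul_add, Matrix.mul_add, Matrix.mul_smul, Matrix.mul_smul, Matrix.add_mul,
        Matrix.add_mul, Matrix.smul_mul, Matrix.smul_mul, e3, f4, smul_zero, smul_zero, add_zero,
        add_zero, Matrix.mul_one, P0_mul_self hξ]
    rw [Dg, hv, f1, f2, f3, P_sum]
  · apply toMatrix_injective
    rw [toMatrix_pow, hv, hV_pow h3, hU, ht]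
    have e : (k : ℂ) * ((1 / k : ℝ) : ℂ) = 1 := by
      push_cast
      field_simp
    rw [e, hV_one]
  · have h4 : ‖X (Fin.last n) (Fin.last n)‖ ≤ ch u + 1 := by
      have h5 : X (Fin.last n) (Fin.last n) = u.toMatrix (Fin.last n) (Fin.last n) - 1 := by
        rw [hU, Matrix.add_apply, Matrix.one_apply_eq]
        ring
      rw [h5]
      refine (norm_sub_le _ _).trans ?_
      rw [norm_one, ch]
    have h5 := h_entry hs
    have h6 : ch v ≤ 1 + t * ‖X (Fin.last n) (Fin.last n)‖ +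
        t / 2 * ‖(X * X) (Fin.last n) (Fin.last n)‖ := by
      rw [ch, hv, hV, Matrix.add_apply, Matrix.add_apply, Matrix.one_apply_eq, Matrix.smul_apply,
        Matrix.smul_apply, smul_eq_mul, smul_eq_mul]
      refine (norm_add_le _ _).trans (add_le_add ((norm_add_le _ _).trans (add_le_add ?_ ?_)) ?_)
      · rw [norm_one]
      · rw [norm_mul, Complex.norm_real, Real.norm_eq_abs, abs_of_pos ht0]
      · rw [norm_mul]
        refine mul_le_mul_of_nonneg_right ?_ (norm_nonneg _)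
        have e : (((t : ℂ) ^ 2 - t) / 2) = (((t ^ 2 - t) / 2 : ℝ) : ℂ) := by push_cast; ring
        rw [e, Complex.norm_real, Real.norm_eq_abs, abs_le]
        constructor <;> nlinarith
    have h7 := one_le_ch u
    have h8 : ch v ≤ 1 + 4 * (t * ch u) := by
      have h9 : t * ‖X (Fin.last n) (Fin.last n)‖ ≤ t * (ch u + 1) :=
        mul_le_mul_of_nonneg_left h4 ht0.le
      have h10 : t / 2 * ‖(X * X) (Fin.last n) (Fin.last n)‖ ≤ t / 2 * (2 * (ch u + 1)) :=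
        mul_le_mul_of_nonneg_left (h5.trans (mul_le_mul_of_nonneg_left h4 zero_le_two))
          (by positivity)
      have h11 : t * 1 ≤ t * ch u := mul_le_mul_of_nonneg_left h7 ht0.le
      linarith
    have h9 : ch u / k = t * ch u := by rw [ht]; ring
    rw [h9]
    linarith

/-- C13. Word length. For `δ ∈ Δ`: `δ = u m`, `m` with matrix `Dg ξ δ` (`exists_dg`, `ch m = 1`),
`k = ⌈ch δ⌉`, `v^k = u` (`exists_root`), `g_j = v^j` (`j ≤ k`), `g_(k+1) = δ`; choose `δ_j ∈ Δ` with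
`ch (δ_j g_j) ≤ R`, `δ_0 = 1`, `δ_(k+1) = δ⁻¹`; `δ = ∏ δ_(j-1) δ_j⁻¹` and the factors are in a ball. -/
theorem exists_word {ξ : Fin n → ℂ} (hξ : nq ξ = 1) {Δ : Subgroup (SUGroup n)}
    (hd : DiscreteTopology Δ) (hle : Δ ≤ PS ξ) {R : ℝ}
    (hc : ∀ g ∈ PS ξ, ∃ δ ∈ Δ, ch (δ * g) ≤ R) :
    ∃ (S : Set (SUGroup n)) (C : ℝ), S.Finite ∧ (∀ s ∈ S, s ∈ Δ) ∧ ∀ δ ∈ Δ,
      ∃ l : List (SUGroup n), (∀ s ∈ l, s ∈ S) ∧ l.prod = δ ∧ (l.length : ℝ) ≤ C * ch δ := by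
  classical
  obtain ⟨C, hC, hroot⟩ := exists_root hξ
  have hR1 : 1 ≤ R := by
    obtain ⟨δ, -, h⟩ := hc 1 (PS ξ).one_mem
    exact (one_le_ch _).trans h
  -- the bound of a step
  obtain ⟨B, hB⟩ : ∃ B : ℝ, B = 2 * (2 * R * (2 * C + 1)) * R := ⟨_, rfl⟩
  refine ⟨{s | s ∈ Δ ∧ ch s ≤ B}, 3, finite_ch hd B, fun s hs => hs.1, fun δ hδ => ?_⟩
  have hδP : δ ∈ PS ξ := hle hδ
  obtain ⟨m, hmP, hm, hmD, hm1, -⟩ := exists_dg hδP hξ
  obtain ⟨u, hu⟩ : ∃ u, u = δ * m⁻¹ := ⟨_, rfl⟩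
  have huP : u ∈ PS ξ := by rw [hu]; exact (PS ξ).mul_mem hδP ((PS ξ).inv_mem hmP)
  have huD : Dg ξ u = 1 := by
    have h1 : Dg ξ m * Dg ξ m⁻¹ = 1 := by
      rw [← Dg_mul hξ (PS_le_St ξ hmP) (PS_le_St ξ ((PS ξ).inv_mem hmP)), mul_inv_cancel,
        Dg_one hξ]
    rw [hu, Dg_mul hξ (PS_le_St ξ hδP) (PS_le_St ξ ((PS ξ).inv_mem hmP)), ← hmD, h1]
  have hchu : ch u = ch δ := by
    have h1 : ch m⁻¹ = 1 := by rw [ch_inv, hm1]
    rw [hu, (ch_mul_of_ch_eq_one h1 δ).2]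
  obtain ⟨k, hk⟩ : ∃ k, k = ⌈ch δ⌉₊ := ⟨_, rfl⟩
  have hδ1 := one_le_ch δ
  have hk1 : 1 ≤ k := by
    rw [hk]; exact Nat.one_le_ceil_iff.2 (by linarith)
  have hkR : (0 : ℝ) < k := by exact_mod_cast hk1
  obtain ⟨v, hvP, hvD, hvk, hvc⟩ := hroot u huP huD k hk1
  have hv : ch v ≤ 2 * C + 1 := by
    have h1 : ch u / k ≤ 1 := by
      rw [div_le_one hkR, hchu, hk]
      exact Nat.le_ceil _
    have h2 : C * (1 + ch u / k) ≤ C * (1 + 1) := by gcongr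
    linarith
  -- the path
  let p : ℕ → SUGroup n := fun j => if j ≤ k then v ^ j else δ
  have hpP : ∀ j, p j ∈ PS ξ := by
    intro j
    by_cases hj : j ≤ k
    · simp only [p, if_pos hj]; exact (PS ξ).pow_mem hvP j
    · simp only [p, if_neg hj]; exact hδP
  have hstep : ∀ j, j ≤ k → ch ((p j)⁻¹ * p (j + 1)) ≤ 2 * C + 1 := by
    intro j hj
    rcases hj.lt_or_eq with h | h
    · have h1 : j + 1 ≤ k := h
      simp only [p, if_pos hj, if_pos h1]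
      rw [pow_succ, inv_mul_cancel_left]
      exact hv
    · have h1 : ¬ (j + 1 ≤ k) := by omega
      simp only [p, if_pos hj, if_neg h1]
      rw [h, hvk, hu, _root_.mul_inv_rev, inv_inv, inv_mul_cancel_right, hm1]
      linarith
  choose f hfΔ hfR using fun j => hc (p j) (hpP j)
  let a : ℕ → SUGroup n := fun j => if j = 0 then 1 else if j ≤ k then f j else δ⁻¹
  have ha0 : a 0 = 1 := by simp [a]
  have hak : a (k + 1) = δ⁻¹ := by
    have h1 : ¬ (k + 1 ≤ k) := by omega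
    simp only [a, if_neg (Nat.succ_ne_zero k), if_neg h1]
  have haΔ : ∀ j, a j ∈ Δ := by
    intro j
    by_cases h0 : j = 0
    · simp only [a, if_pos h0]; exact Δ.one_mem
    · by_cases hj : j ≤ k
      · simp only [a, if_neg h0, if_pos hj]; exact hfΔ j
      · simp only [a, if_neg h0, if_neg hj]; exact Δ.inv_mem hδ
  have haR : ∀ j, ch (a j * p j) ≤ R := by
    intro j
    by_cases h0 : j = 0
    · subst h0
      simp only [a, p, if_pos, Nat.zero_le, pow_zero, mul_one]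
      rw [ch_one]
      exact hR1
    · by_cases hj : j ≤ k
      · simp only [a, if_neg h0, if_pos hj]; exact hfR j
      · simp only [a, p, if_neg h0, if_neg hj, inv_mul_cancel]
        rw [ch_one]
        exact hR1
  let l : List (SUGroup n) := (List.range (k + 1)).map fun j => a j * (a (j + 1))⁻¹
  have hprod : ∀ N, ((List.range N).map fun j => a j * (a (j + 1))⁻¹).prod = a 0 * (a N)⁻¹ := by
    intro N
    induction N with
    | zero => simp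
    | succ N ih =>
      rw [List.range_succ, List.map_append, List.prod_append, ih]
      simp
  refine ⟨l, fun s hs => ?_, ?_, ?_⟩
  · obtain ⟨j, hj, rfl⟩ := List.mem_map.1 hs
    rw [List.mem_range] at hj
    refine ⟨Δ.mul_mem (haΔ j) (Δ.inv_mem (haΔ _)), ?_⟩
    have e : a j * (a (j + 1))⁻¹ =
        (a j * p j) * ((p j)⁻¹ * p (j + 1)) * (a (j + 1) * p (j + 1))⁻¹ := by group
    rw [e]
    have h1 := ch_mul_le' ((a j * p j) * ((p j)⁻¹ * p (j + 1))) (a (j + 1) * p (j + 1))⁻¹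
    have h2 := ch_mul_le' (a j * p j) ((p j)⁻¹ * p (j + 1))
    have h3 := haR j
    have h4 := haR (j + 1)
    have h5 := hstep j (by omega)
    have h6 := one_le_ch (a j * p j)
    have h7 := one_le_ch ((p j)⁻¹ * p (j + 1))
    have h8 := one_le_ch ((a j * p j) * ((p j)⁻¹ * p (j + 1)))
    have h9 := one_le_ch (a (j + 1) * p (j + 1))
    rw [ch_inv] at h1
    calc _ ≤ _ := h1
      _ ≤ 2 * (2 * R * (2 * C + 1)) * R := by
          gcongr
          calc _ ≤ _ := h2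
            _ ≤ 2 * R * (2 * C + 1) := by gcongr
      _ = B := hB.symm
  · rw [show l = (List.range (k + 1)).map fun j => a j * (a (j + 1))⁻¹ from rfl, hprod, ha0, hak,
      one_mul, inv_inv]
  · have h1 : l.length = k + 1 := by simp [l]
    rw [h1]
    have h2 : (k : ℝ) < ch δ + 1 := by
      rw [hk]; exact Nat.ceil_lt_add_one (by linarith)
    push_cast
    linarith

/-- A subgroup of finite index is again cobounded. -/
theorem cobdd_of_relIndex {ξ : Fin n → ℂ} {Λ Δ : Subgroup (SUGroup n)} (hle : Δ ≤ Λ)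
    (hfi : Δ.relIndex Λ ≠ 0) {R : ℝ} (hc : ∀ g ∈ PS ξ, ∃ γ ∈ Λ, ch (γ * g) ≤ R) :
    ∃ R' : ℝ, ∀ g ∈ PS ξ, ∃ δ ∈ Δ, ch (δ * g) ≤ R' := by
  have hfi' : (Δ.subgroupOf Λ).FiniteIndex := ⟨hfi⟩
  have hq : Finite (Λ ⧸ Δ.subgroupOf Λ) := Subgroup.finite_quotient_of_finiteIndex
  obtain ⟨M, hM⟩ := (Set.finite_range
    fun c : Λ ⧸ Δ.subgroupOf Λ => ch (c.out : SUGroup n)).bddAbove
  refine ⟨2 * M * R, fun g hg => ?_⟩
  obtain ⟨γ, hγ, hγR⟩ := hc g hg
  let c : Λ ⧸ Δ.subgroupOf Λ := QuotientGroup.mk ⟨γ, hγ⟩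
  have h1 : (QuotientGroup.mk c.out : Λ ⧸ Δ.subgroupOf Λ) = QuotientGroup.mk ⟨γ, hγ⟩ :=
    QuotientGroup.out_eq' c
  have h2 : (c.out)⁻¹ * ⟨γ, hγ⟩ ∈ Δ.subgroupOf Λ := QuotientGroup.eq.1 h1
  have h3 : (c.out : SUGroup n)⁻¹ * γ ∈ Δ := h2
  refine ⟨(c.out : SUGroup n)⁻¹ * γ, h3, ?_⟩
  rw [mul_assoc]
  have h4 := ch_mul_le' (c.out : SUGroup n)⁻¹ (γ * g)
  rw [ch_inv] at h4
  have h5 : ch (c.out : SUGroup n) ≤ M := hM ⟨c, rfl⟩
  have h6 := one_le_ch (c.out : SUGroup n)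
  have h7 := one_le_ch (γ * g)
  have h8 : 1 ≤ M := h6.trans h5
  calc _ ≤ _ := h4
    _ ≤ 2 * M * R := by gcongr

end Pool.Agent.Lib.MP_5d4057_al.NU
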