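import Mathlib

/-! Rotation parts of a nilpotent group of affine maps with cobounded orbit are trivial (C15). -/

namespace Pool.Agent.Lib.MP_5d4057_al.NU

open commutatorElement

/-- If `U` has bounded powers then `(U - 1)² v = 0` implies `(U - 1) v = 0`. -/
theorem sub_one_sq {V : Type} [NormedAddCommGroup V] [NormedSpace ℝ V] (U : V →ₗ[ℝ] V) {C : ℝ}
    (hU : ∀ (k : ℕ) v, ‖(U ^ k) v‖ ≤ C * ‖v‖) {v : V} (h : U (U v - v) - (U v - v) = 0) :
    U v - v = 0 := by
  have hpow : ∀ k : ℕ, (U ^ k) v = v + (k : ℝ) • (U v - v) := by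
    intro k
    induction k with
    | zero => simp
    | succ k ih =>
      rw [pow_succ', Module.End.mul_apply, ih, map_add, map_smul, sub_eq_zero.mp h]
      push_cast
      rw [add_smul, one_smul]
      abel
  by_contra hne
  have hpos : 0 < ‖U v - v‖ := norm_pos_iff.2 hne
  obtain ⟨k, hk⟩ := exists_nat_gt ((C * ‖v‖ + ‖v‖) / ‖U v - v‖)
  rw [div_lt_iff₀ hpos] at hk
  have h1 := hU k v
  rw [hpow k] at h1
  have h2 : (k : ℝ) * ‖U v - v‖ ≤ ‖v + (k : ℝ) • (U v - v)‖ + ‖v‖ := by
    calc (k : ℝ) * ‖U v - v‖ = ‖(k : ℝ) • (U v - v)‖ := by rw [norm_smul, Real.norm_natCast]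
      _ = ‖(v + (k : ℝ) • (U v - v)) - v‖ := by rw [add_sub_cancel_left]
      _ ≤ _ := norm_sub_le _ _
  linarith

/-- C15. Induction along the upper central series: `A z = 1` for `z ∈ Z_j`. Let `z ∈ Z_(j+1)`. For
`c ∈ Z_j`: `A c = 1`, `[z,c] ∈ Z_(j-1)` is the translation by `(A z - 1) (b c)`, so
`(A z - 1)^(j+1) (b c) = 0` and `(A z - 1) (b c) = 0` (`sub_one_sq`). Let `F ζ = (A z - 1) (A z ζ + b z - ζ)`.
For `x ∈ D`: `z x = c x z`, `c ∈ Z_j`, so `F (A x ζ + b x) = A x (F ζ)`. In particular `‖F (b x)‖ ≤ C ‖F 0‖`,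
`F` is Lipschitz, so `F` is bounded, so `(A z - 1)² = 0`, `A z = 1`. -/
theorem rot_trivial {D : Type} [Group D] [Group.IsNilpotent D] {V : Type} [NormedAddCommGroup V]
    [NormedSpace ℝ V] (A : D →* (V →ₗ[ℝ] V)) (b : D → V)
    (hb : ∀ x y, b (x * y) = b x + A x (b y)) {B C : ℝ} (hA : ∀ x v, ‖A x v‖ ≤ C * ‖v‖)
    (hcob : ∀ ζ : V, ∃ x, ‖b x - ζ‖ ≤ B) : ∀ x, A x = 1 := by
  have hb1 : b 1 = 0 := by
    have h := hb 1 1
    rw [mul_one, map_one, Module.End.one_apply] at h
    have h2 : b 1 + b 1 = b 1 + 0 := by rw [add_zero]; exact h.symm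
    exact add_left_cancel h2
  have hpw : ∀ z (k : ℕ) v, ‖(A z ^ k) v‖ ≤ C * ‖v‖ := fun z k v => by
    rw [← map_pow]
    exact hA _ _
  have hcomp : ∀ x y v, A (x * y) v = A x (A y v) := fun x y v => by
    rw [map_mul, Module.End.mul_apply]
  have main : ∀ j : ℕ, ∀ z ∈ Subgroup.upperCentralSeries D j, A z = 1 := by
    intro j
    induction j with
    | zero =>
      intro z hz
      rw [Subgroup.upperCentralSeries_zero, Subgroup.mem_bot] at hz
      rw [hz, map_one]
    | succ j ih =>
      intro z hz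
      rw [Subgroup.mem_upperCentralSeries_succ_iff] at hz
      have hcl : ∀ i, i ≤ j → ∀ c ∈ Subgroup.upperCentralSeries D i, A z (b c) - b c = 0 := by
        intro i
        induction i with
        | zero =>
          intro _ c hc
          rw [Subgroup.upperCentralSeries_zero, Subgroup.mem_bot] at hc
          rw [hc, hb1, map_zero, sub_zero]
        | succ i ihi =>
          intro hij c hc
          have hc' := Subgroup.mem_upperCentralSeries_succ_iff.1 hc z
          have he : ⁅z, c⁆ ∈ Subgroup.upperCentralSeries D i := by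
            rw [← commutatorElement_inv]
            exact inv_mem hc'
          have hAe : A ⁅z, c⁆ = 1 :=
            ih _ (Subgroup.upperCentralSeries_mono D (by omega) he)
          have hAc : A c = 1 := ih _ (Subgroup.upperCentralSeries_mono D hij hc)
          have h1 : z * c = ⁅z, c⁆ * (c * z) := by
            rw [commutatorElement_def]
            group
          have h2 : b ⁅z, c⁆ = A z (b c) - b c := by
            have h3 := congrArg b h1
            rw [hb, hb ⁅z, c⁆, hb c, hAe, hAc, Module.End.one_apply, Module.End.one_apply] at h3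
            have h4 : b ⁅z, c⁆ = (b z + A z (b c)) - (b c + b z) := by
              rw [h3]
              abel
            rw [h4]
            abel
          have h5 := ihi (by omega) _ he
          rw [h2] at h5
          exact sub_one_sq (A z) (hpw z) h5
      have hcz : ∀ c ∈ Subgroup.upperCentralSeries D j, A z (b c) = b c := fun c hc =>
        sub_eq_zero.1 (hcl j le_rfl c hc)
      -- the function `F`
      obtain ⟨F, hF⟩ : ∃ F : V → V, ∀ ζ, F ζ = A z (A z ζ + b z - ζ) - (A z ζ + b z - ζ) :=
        ⟨_, fun _ => rfl⟩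
      have hFx : ∀ x, F (b x) = A x (F 0) := by
        intro x
        obtain ⟨c, hc⟩ : ∃ c, c = ⁅z, x⁆ := ⟨_, rfl⟩
        have hcm : c ∈ Subgroup.upperCentralSeries D j := hc ▸ hz x
        have hAc : A c = 1 := ih _ hcm
        have h1 : z * x = c * (x * z) := by
          rw [hc, commutatorElement_def]
          group
        have h2 : b z + A z (b x) = b c + (b x + A x (b z)) := by
          have h3 := congrArg b h1
          rw [hb, hb c, hb x, hAc, Module.End.one_apply] at h3
          exact h3
        have h3 : ∀ v, A z (A x v) = A x (A z v) := by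
          intro v
          rw [← hcomp, h1, hcomp, hAc, Module.End.one_apply, hcomp]
        have h4 : A z (b x) + b z - b x = b c + A x (b z) := by
          have h5 : A z (b x) + b z = b c + (b x + A x (b z)) := by rw [← h2]; abel
          rw [h5]
          abel
        rw [hF, hF, h4, map_add, hcz c hcm, h3, map_zero, zero_add, sub_zero, map_sub]
        abel
      have hC : ∀ x v, ‖A x v‖ ≤ |C| * ‖v‖ := fun x v =>
        (hA x v).trans (mul_le_mul_of_nonneg_right (le_abs_self C) (norm_nonneg v))
      have hN : ∀ v, ‖A z v - v‖ ≤ (|C| + 1) * ‖v‖ := by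
        intro v
        refine (norm_sub_le _ _).trans ?_
        have := hC z v
        linarith
      have hlip : ∀ ζ ζ', F ζ - F ζ' =
          A z (A z (ζ - ζ') - (ζ - ζ')) - (A z (ζ - ζ') - (ζ - ζ')) := by
        intro ζ ζ'
        rw [hF, hF]
        simp only [map_sub, map_add]
        abel
      have hbd : ∀ ζ, ‖F ζ‖ ≤ |C| * ‖F 0‖ + (|C| + 1) * ((|C| + 1) * |B|) := by
        intro ζ
        obtain ⟨x, hx⟩ := hcob ζ
        have h1 : ‖F (b x)‖ ≤ |C| * ‖F 0‖ := by
          rw [hFx]
          exact hC _ _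
        have h2 : ‖F ζ - F (b x)‖ ≤ (|C| + 1) * ((|C| + 1) * |B|) := by
          rw [hlip]
          refine (hN _).trans ?_
          refine mul_le_mul_of_nonneg_left ?_ (by positivity)
          refine (hN _).trans ?_
          refine mul_le_mul_of_nonneg_left ?_ (by positivity)
          rw [norm_sub_rev]
          exact hx.trans (le_abs_self B)
        calc ‖F ζ‖ = ‖F (b x) + (F ζ - F (b x))‖ := by rw [add_sub_cancel]
          _ ≤ _ := (norm_add_le _ _).trans (add_le_add h1 h2)
      obtain ⟨K, hK⟩ : ∃ K, K = |C| * ‖F 0‖ + (|C| + 1) * ((|C| + 1) * |B|) := ⟨_, rfl⟩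
      rw [← hK] at hbd
      have hsq : ∀ v, A z (A z v - v) - (A z v - v) = 0 := by
        intro v
        by_contra hne
        have hpos : 0 < ‖A z (A z v - v) - (A z v - v)‖ := norm_pos_iff.2 hne
        obtain ⟨k, hk⟩ := exists_nat_gt ((K + K) / ‖A z (A z v - v) - (A z v - v)‖)
        rw [div_lt_iff₀ hpos] at hk
        have h1 := hlip ((k : ℝ) • v) 0
        rw [sub_zero, map_smul, ← smul_sub, map_smul, ← smul_sub] at h1
        have h2 : (k : ℝ) * ‖A z (A z v - v) - (A z v - v)‖ ≤ K + K := by
          calc (k : ℝ) * ‖A z (A z v - v) - (A z v - v)‖ =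
              ‖(k : ℝ) • (A z (A z v - v) - (A z v - v))‖ := by
                rw [norm_smul, Real.norm_natCast]
            _ = ‖F ((k : ℝ) • v) - F 0‖ := by rw [h1]
            _ ≤ _ := (norm_sub_le _ _).trans (add_le_add (hbd _) (hbd _))
        linarith
      ext v
      rw [Module.End.one_apply]
      exact sub_eq_zero.1 (sub_one_sq (A z) (hpw z) (hsq v))
  intro x
  obtain ⟨j, hj⟩ := Group.IsNilpotent.nilpotent D
  exact main j x (by rw [hj]; trivial)

end Pool.Agent.Lib.MP_5d4057_al.NU
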