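import Pool.Agent.Lib.MP_5d4057_al.NU.CuspI
import Pool.Agent.Lib.MP_5d4057_al.NU.CuspJ

/-! Cusp groups are virtually unipotent; transvections (C16); growth (C17). -/

namespace Pool.Agent.Lib.MP_5d4057_al.NU

open Matrix MeasureTheory Filter Topology Pool.Agent.Lib.MP_5d4057_al
  Pool.Agent.Lib.MP_5d4057_al.Hyb Pool.Agent.Lib.MP_5d4057_al.HM
  Pool.Agent.Lib.MP_5d4057_al.HM.Kak

open scoped ComplexOrder MatrixOrder Matrix.Norms.L2Operator ENNReal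

variable {n m : ℕ}

private theorem ck_pp {ξ : Fin n → ℂ} (hξ : nq ξ = 1) : herm (pe ξ) (pe ξ) = 0 := by
  rw [herm_self, q_pe, hξ, sub_self, Complex.ofReal_zero]

private theorem ck_pn {ξ : Fin n → ℂ} (hξ : nq ξ = 1) : herm (pe ξ) (pe (-ξ)) = -2 := by
  have h := congrArg (herm (pe ξ)) (two_smul_base ξ)
  rw [herm_add_right, ck_pp hξ, zero_add, herm_smul_right, herm_comm (base n) (pe ξ),
    herm_base_pe] at h
  rw [h]
  simp

private theorem ck_np {ξ : Fin n → ℂ} (hξ : nq ξ = 1) : herm (pe (-ξ)) (pe ξ) = -2 := by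
  rw [herm_comm (pe ξ) (pe (-ξ)), ck_pn hξ]
  simp

private theorem ck_nn {ξ : Fin n → ℂ} (hξ : nq ξ = 1) : herm (pe (-ξ)) (pe (-ξ)) = 0 :=
  ck_pp (by rw [nq_neg, hξ])

private theorem ck_dot (ξ : Fin n → ℂ) (v : Vec n) : star (pe ξ) ⬝ᵥ v = -herm (pe (-ξ)) v := by
  rw [herm_eq, dotProduct, Fin.sum_univ_castSucc, neg_sub, pe_last]
  have h : ∀ i : Fin n, star (pe (-ξ) i.castSucc) * v i.castSucc =
      -(star (pe ξ) i.castSucc * v i.castSucc) := by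
    intro i
    rw [pe_castSucc, Pi.star_apply, pe_castSucc, Pi.neg_apply, star_neg, neg_mul]
  rw [Finset.sum_congr rfl fun i _ => h i, Finset.sum_neg_distrib, Pi.star_apply, pe_last]
  ring

private theorem ck_Pp (ξ : Fin n → ℂ) (v : Vec n) :
    Pp ξ *ᵥ v = (-(1 / 2 : ℂ) * herm (pe (-ξ)) v) • pe ξ := by
  rw [Pp, smul_mulVec, vecMulVec_mulVec, op_smul_eq_smul, ck_dot, smul_smul]
  congr 1
  ring

private theorem ck_Pn (ξ : Fin n → ℂ) (v : Vec n) :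
    Pp (-ξ) *ᵥ v = (-(1 / 2 : ℂ) * herm (pe ξ) v) • pe (-ξ) := by
  rw [ck_Pp, neg_neg]

private theorem ck_P0 (ξ : Fin n → ℂ) (v : Vec n) :
    P0 ξ *ᵥ v = v + ((1 / 2 : ℂ) * herm (pe (-ξ)) v) • pe ξ +
      ((1 / 2 : ℂ) * herm (pe ξ) v) • pe (-ξ) := by
  rw [P0, sub_mulVec, sub_mulVec, one_mulVec, ck_Pp, ck_Pn]
  module

/-- The orthogonal complement of the two isotropic lines. -/
private def V0 (ξ : Fin n → ℂ) : Submodule ℂ (Vec n) where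
  carrier := {v | herm (pe ξ) v = 0 ∧ herm (pe (-ξ)) v = 0}
  add_mem' := by
    rintro v w ⟨h1, h2⟩ ⟨h3, h4⟩
    exact ⟨by rw [herm_add_right, h1, h3, add_zero], by rw [herm_add_right, h2, h4, add_zero]⟩
  zero_mem' := ⟨by rw [herm, mulVec_zero, dotProduct_zero], by
    rw [herm, mulVec_zero, dotProduct_zero]⟩
  smul_mem' := by
    rintro c v ⟨h1, h2⟩
    exact ⟨by rw [herm_smul_right, h1, mul_zero], by rw [herm_smul_right, h2, mul_zero]⟩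

private theorem mem_V0 {ξ : Fin n → ℂ} {v : Vec n} :
    v ∈ V0 ξ ↔ herm (pe ξ) v = 0 ∧ herm (pe (-ξ)) v = 0 := Iff.rfl

private theorem P0_V0 {ξ : Fin n → ℂ} {v : Vec n} (hv : v ∈ V0 ξ) : P0 ξ *ᵥ v = v := by
  rw [ck_P0, hv.1, hv.2]
  simp

private theorem P0_mem {ξ : Fin n → ℂ} (hξ : nq ξ = 1) (v : Vec n) : P0 ξ *ᵥ v ∈ V0 ξ := by
  rw [mem_V0, ck_P0]
  constructor
  · rw [herm_add_right, herm_add_right, herm_smul_right, herm_smul_right, ck_pp hξ, ck_pn hξ]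
    ring
  · rw [herm_add_right, herm_add_right, herm_smul_right, herm_smul_right, ck_np hξ, ck_nn hξ]
    ring

private theorem P0_pe {ξ : Fin n → ℂ} (hξ : nq ξ = 1) : P0 ξ *ᵥ pe ξ = 0 := by
  rw [ck_P0, ck_pp hξ, ck_np hξ]
  module

private theorem P0_pn {ξ : Fin n → ℂ} (hξ : nq ξ = 1) : P0 ξ *ᵥ pe (-ξ) = 0 := by
  rw [ck_P0, ck_nn hξ, ck_pn hξ]
  module

/-- The decomposition of a vector. -/
private theorem decomp (ξ : Fin n → ℂ) (v : Vec n) :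
    v = P0 ξ *ᵥ v + (-(1 / 2 : ℂ) * herm (pe (-ξ)) v) • pe ξ +
      (-(1 / 2 : ℂ) * herm (pe ξ) v) • pe (-ξ) := by
  rw [ck_P0]
  module

private theorem ck_mu {ξ : Fin n → ℂ} (hξ : nq ξ = 1) {x : SUGroup n} (hx : x ∈ PS ξ) :
    star (ml x ξ) * ml x ξ = 1 := by
  have h := ((mem_PS hξ).1 hx).2
  rw [RCLike.star_def, RCLike.conj_mul, h]
  simp

private theorem ck_act {ξ : Fin n → ℂ} (hξ : nq ξ = 1) {x : SUGroup n} (hx : x ∈ PS ξ) :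
    act x (pe ξ) = ml x ξ • pe ξ := act_of_mem_St hξ (PS_le_St ξ hx)

/-- `⟨p, x v⟩ = μ ⟨p, v⟩`. -/
private theorem ck_herm {ξ : Fin n → ℂ} (hξ : nq ξ = 1) {x : SUGroup n} (hx : x ∈ PS ξ)
    (v : Vec n) : herm (pe ξ) (act x v) = ml x ξ * herm (pe ξ) v := by
  have h := herm_act x (pe ξ) v
  rw [ck_act hξ hx, herm_smul_left] at h
  rw [← h, ← mul_assoc, mul_comm (ml x ξ), ck_mu hξ hx, one_mul]

private theorem ml_mul' {ξ : Fin n → ℂ} (hξ : nq ξ = 1) {x y : SUGroup n} (hy : y ∈ PS ξ) :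
    ml (x * y) ξ = ml x ξ * ml y ξ := by
  rw [ml_mul hξ, ((mem_PS hξ).1 hy).1]

/-- `P₀ x` sees only `P₀`-part and the `e`-part. -/
private theorem P0_act {ξ : Fin n → ℂ} (hξ : nq ξ = 1) {x : SUGroup n} (hx : x ∈ PS ξ)
    (v : Vec n) : P0 ξ *ᵥ act x v = P0 ξ *ᵥ act x (P0 ξ *ᵥ v) +
      (-(1 / 2 : ℂ) * herm (pe ξ) v) • (P0 ξ *ᵥ act x (pe (-ξ))) := by
  conv_lhs => rw [decomp ξ v]
  rw [act_add, act_add, act_smul, act_smul, mulVec_add, mulVec_add, mulVec_smul, mulVec_smul,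
    ck_act hξ hx, mulVec_smul, P0_pe hξ, smul_zero, smul_zero, add_zero]


/-- The rotation part on the complement. -/
private noncomputable def rA (ξ : Fin n → ℂ) (hξ : nq ξ = 1) (x : SUGroup n) :
    V0 ξ →ₗ[ℂ] V0 ξ where
  toFun v := ⟨(ml x ξ)⁻¹ • (P0 ξ *ᵥ act x v), (V0 ξ).smul_mem _ (P0_mem hξ _)⟩
  map_add' v w := by
    apply Subtype.ext
    change _ • (P0 ξ *ᵥ act x (v.1 + w.1)) = _ • (P0 ξ *ᵥ act x v.1) + _ • (P0 ξ *ᵥ act x w.1)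
    rw [act_add, mulVec_add, smul_add]
  map_smul' c v := by
    apply Subtype.ext
    change _ • (P0 ξ *ᵥ act x (c • v.1)) = c • (_ • (P0 ξ *ᵥ act x v.1))
    rw [act_smul, mulVec_smul, smul_comm]

/-- The translation part. -/
private noncomputable def rb (ξ : Fin n → ℂ) (hξ : nq ξ = 1) (x : SUGroup n) : V0 ξ :=
  ⟨(ml x ξ)⁻¹ • (P0 ξ *ᵥ act x (pe (-ξ))), (V0 ξ).smul_mem _ (P0_mem hξ _)⟩

private theorem rA_coe {ξ : Fin n → ℂ} (hξ : nq ξ = 1) (x : SUGroup n) (v : V0 ξ) :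
    ((rA ξ hξ x v : V0 ξ) : Vec n) = (ml x ξ)⁻¹ • (P0 ξ *ᵥ act x v) := rfl

private theorem rb_coe {ξ : Fin n → ℂ} (hξ : nq ξ = 1) (x : SUGroup n) :
    ((rb ξ hξ x : V0 ξ) : Vec n) = (ml x ξ)⁻¹ • (P0 ξ *ᵥ act x (pe (-ξ))) := rfl

private theorem rA_one {ξ : Fin n → ℂ} (hξ : nq ξ = 1) : rA ξ hξ 1 = 1 := by
  apply LinearMap.ext
  intro v
  apply Subtype.ext
  rw [rA_coe, ml_one, act_one, inv_one, one_smul, P0_V0 v.2]
  rfl

private theorem rA_mul {ξ : Fin n → ℂ} (hξ : nq ξ = 1) {x y : SUGroup n} (hx : x ∈ PS ξ)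
    (hy : y ∈ PS ξ) : rA ξ hξ (x * y) = rA ξ hξ x * rA ξ hξ y := by
  apply LinearMap.ext
  intro v
  apply Subtype.ext
  rw [Module.End.mul_apply, rA_coe, rA_coe, rA_coe, ml_mul' hξ hy, act_mul, act_smul,
    P0_act hξ hx (act y v), ck_herm hξ hy, (mem_V0.1 v.2).1, mul_zero, mul_zero, zero_smul,
    add_zero, mulVec_smul, smul_smul, _root_.mul_inv]

private theorem rb_mul {ξ : Fin n → ℂ} (hξ : nq ξ = 1) {x y : SUGroup n} (hx : x ∈ PS ξ)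
    (hy : y ∈ PS ξ) : rb ξ hξ (x * y) = rb ξ hξ x + rA ξ hξ x (rb ξ hξ y) := by
  apply Subtype.ext
  have h0 := ml_ne_zero hξ y
  rw [Submodule.coe_add, rA_coe, rb_coe, rb_coe, rb_coe, ml_mul' hξ hy, act_mul,
    P0_act hξ hx (act y _), ck_herm hξ hy, ck_pn hξ, act_smul, mulVec_smul, smul_smul, smul_add,
    smul_smul, add_comm, _root_.mul_inv]
  congr 2
  field_simp

private theorem norm_mulVec_le (A : Mat (n + 1)) (v : Vec n) :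
    ‖A *ᵥ v‖ ≤ (n + 1) * fro A * ‖v‖ := by
  have h0 := fro_nonneg A
  rw [pi_norm_le_iff_of_nonneg (by positivity)]
  intro i
  rw [mulVec, dotProduct]
  refine (norm_sum_le Finset.univ fun j => A i j * v j).trans ?_
  have h : ∀ j : Fin (n + 1), ‖A i j * v j‖ ≤ fro A * ‖v‖ := by
    intro j
    rw [norm_mul]
    exact mul_le_mul (norm_entry_le_fro A i j) (norm_le_pi_norm v j) (norm_nonneg _) h0
  refine (Finset.sum_le_sum fun j _ => h j).trans ?_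
  rw [Finset.sum_const, Finset.card_univ, Fintype.card_fin, nsmul_eq_mul]
  push_cast
  rw [mul_assoc]

private theorem Dg_V0 {ξ : Fin n → ℂ} (x : SUGroup n) {v : Vec n} (hv : v ∈ V0 ξ) :
    Dg ξ x *ᵥ v = P0 ξ *ᵥ act x v := by
  have h1 : Pp ξ *ᵥ v = 0 := by rw [ck_Pp, hv.2, mul_zero, zero_smul]
  have h2 : Pp (-ξ) *ᵥ v = 0 := by rw [ck_Pn, hv.1, mul_zero, zero_smul]
  rw [Dg, add_mulVec, add_mulVec, ← mulVec_mulVec, ← mulVec_mulVec, ← mulVec_mulVec,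
    ← mulVec_mulVec, ← mulVec_mulVec, ← mulVec_mulVec, h1, h2, P0_V0 hv, mulVec_zero,
    mulVec_zero, mulVec_zero, zero_add, add_zero, act]

private theorem norm_mu_inv {ξ : Fin n → ℂ} (hξ : nq ξ = 1) {x : SUGroup n} (hx : x ∈ PS ξ) :
    ‖(ml x ξ)⁻¹‖ = 1 := by
  rw [norm_inv, ((mem_PS hξ).1 hx).2, inv_one]

private theorem rA_norm {ξ : Fin n → ℂ} (hξ : nq ξ = 1) {x : SUGroup n} (hx : x ∈ PS ξ)
    (v : V0 ξ) : ‖rA ξ hξ x v‖ ≤ ((n + 1) * fro (1 : Mat (n + 1))) * ‖v‖ := by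
  rw [Submodule.coe_norm, Submodule.coe_norm, rA_coe, norm_smul, norm_mu_inv hξ hx, one_mul,
    ← Dg_V0 x v.2]
  refine (norm_mulVec_le _ _).trans (le_of_eq ?_)
  have h := fro_unitary_mul (Dg_unitary hξ hx).1 (1 : Mat (n + 1))
  rw [Matrix.mul_one] at h
  rw [h]

private theorem rb_norm {ξ : Fin n → ℂ} (hξ : nq ξ = 1) : ∃ K : ℝ, 0 ≤ K ∧ ∀ x ∈ PS ξ,
    ‖rb ξ hξ x‖ ≤ K * ch x := by
  refine ⟨(n + 1) * (‖P0 ξ‖ * (2 * Real.sqrt (n + 1))) * ‖pe (-ξ)‖, by positivity, ?_⟩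
  intro x hx
  rw [Submodule.coe_norm, rb_coe, norm_smul, norm_mu_inv hξ hx, one_mul, act, mulVec_mulVec]
  refine (norm_mulVec_le _ _).trans ?_
  have h1 : fro (P0 ξ * x.toMatrix) ≤ ‖P0 ξ‖ * (2 * Real.sqrt (n + 1) * ch x) :=
    (fro_mul_le_left _ _).trans (mul_le_mul_of_nonneg_left (fro_toMatrix_le x) (norm_nonneg _))
  calc (n + 1) * fro (P0 ξ * x.toMatrix) * ‖pe (-ξ)‖ ≤
      (n + 1) * (‖P0 ξ‖ * (2 * Real.sqrt (n + 1) * ch x)) * ‖pe (-ξ)‖ := by gcongr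
    _ = _ := by ring

/-- The translation of the Heisenberg group. -/
private theorem exists_tr {ξ : Fin n → ℂ} (hξ : nq ξ = 1) (ζ : V0 ξ) : ∃ g ∈ PS ξ,
    rb ξ hξ g = ζ := by
  obtain ⟨y, hy⟩ : ∃ y : Vec n, y = (-(1 / 2) : ℂ) • ζ.1 := ⟨_, rfl⟩
  have hy0 : y ∈ V0 ξ := by rw [hy]; exact (V0 ξ).smul_mem _ ζ.2
  have h1 : hm n (pe ξ) (pe ξ) = 0 := ck_pp hξ
  have h2 : hm n (pe ξ) y = 0 := hy0.1
  have h3 : hm n y (pe ξ) = 0 := by
    have := herm_comm (pe ξ) y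
    rw [hy0.1, star_zero] at this
    exact this
  have h4 : hm n y (pe (-ξ)) = 0 := by
    have := herm_comm (pe (-ξ)) y
    rw [hy0.2, star_zero] at this
    exact this
  have h5 : hm n (pe ξ) (pe (-ξ)) = -2 := ck_pn hξ
  obtain ⟨g, hg⟩ : ∃ g : SUGroup n, g = ofMatrix (T n (pe ξ) y) (T_det _ _ h1 h2)
    (T_pres _ _ h1 h2) := ⟨_, rfl⟩
  have hgm : g.toMatrix = T n (pe ξ) y := by rw [hg, toMatrix_ofMatrix]
  have hp : act g (pe ξ) = (1 : ℂ) • pe ξ := by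
    rw [act, hgm, T, sub_mulVec, sub_mulVec, add_mulVec, one_mulVec, smul_mulVec, rk_mulVec,
      rk_mulVec, rk_mulVec, h1, h3]
    module
  have he : act g (pe (-ξ)) = pe (-ξ) + ζ.1 + hm n y y • pe ξ := by
    rw [act, hgm, T, sub_mulVec, sub_mulVec, add_mulVec, one_mulVec, smul_mulVec, rk_mulVec,
      rk_mulVec, rk_mulVec, h4, h5]
    have h6 : (-2 : ℂ) • y = ζ.1 := by
      rw [hy, smul_smul]
      norm_num
    rw [h6]
    module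
  have hml := (eq_of_act_pe hξ hp).1
  refine ⟨g, ⟨1, norm_one, hp⟩, ?_⟩
  apply Subtype.ext
  rw [rb_coe, hml, he, mulVec_add, mulVec_add, mulVec_smul, P0_pe hξ, P0_pn hξ, P0_V0 ζ.2,
    inv_one, one_smul, smul_zero, zero_add, add_zero]

/-- The translation parts of a cobounded subgroup are cobounded. -/
private theorem cobdd_rb {ξ : Fin n → ℂ} (hξ : nq ξ = 1) {Δ : Subgroup (SUGroup n)}
    (hle : Δ ≤ PS ξ) {R : ℝ} (hc : ∀ g ∈ PS ξ, ∃ δ ∈ Δ, ch (δ * g) ≤ R) :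
    ∃ B : ℝ, ∀ ζ : V0 ξ, ∃ x ∈ Δ, ‖rb ξ hξ x - ζ‖ ≤ B := by
  obtain ⟨K, hK0, hK⟩ := rb_norm hξ
  refine ⟨((n + 1) * fro (1 : Mat (n + 1))) * (K * R), fun ζ => ?_⟩
  obtain ⟨g, hg, hgz⟩ := exists_tr hξ ζ
  obtain ⟨δ, hδ, hR⟩ := hc g hg
  refine ⟨δ⁻¹, Δ.inv_mem hδ, ?_⟩
  have hk : δ * g ∈ PS ξ := (PS ξ).mul_mem (hle hδ) hg
  have h1 := rb_mul hξ (hle (Δ.inv_mem hδ)) hk
  rw [inv_mul_cancel_left, hgz] at h1
  have h2 : rb ξ hξ δ⁻¹ - ζ = -rA ξ hξ δ⁻¹ (rb ξ hξ (δ * g)) := by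
    rw [h1]
    abel
  rw [h2, norm_neg]
  refine (rA_norm hξ (hle (Δ.inv_mem hδ)) _).trans ?_
  have h3 := fro_nonneg (1 : Mat (n + 1))
  have h4 := (hK _ hk).trans (mul_le_mul_of_nonneg_left hR hK0)
  gcongr

private theorem Dg_p {ξ : Fin n → ℂ} (hξ : nq ξ = 1) {x : SUGroup n} (hx : x ∈ PS ξ) :
    Dg ξ x *ᵥ pe ξ = ml x ξ • pe ξ := by
  have e1 : Pp ξ *ᵥ pe ξ = pe ξ := by rw [ck_Pp, ck_np hξ]; module
  have e2 : Pp (-ξ) *ᵥ pe ξ = 0 := by rw [ck_Pn, ck_pp hξ]; module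
  have e3 : x.toMatrix *ᵥ pe ξ = ml x ξ • pe ξ := ck_act hξ hx
  rw [Dg, add_mulVec, add_mulVec, ← mulVec_mulVec, ← mulVec_mulVec, ← mulVec_mulVec,
    ← mulVec_mulVec, ← mulVec_mulVec, ← mulVec_mulVec, e1, e2, P0_pe hξ, mulVec_zero,
    mulVec_zero, mulVec_zero, e3, mulVec_smul, e1, add_zero, add_zero]

private theorem Dg_e {ξ : Fin n → ℂ} (hξ : nq ξ = 1) {x : SUGroup n} (hx : x ∈ PS ξ) :
    Dg ξ x *ᵥ pe (-ξ) = ml x ξ • pe (-ξ) := by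
  have e1 : Pp ξ *ᵥ pe (-ξ) = 0 := by rw [ck_Pp, ck_nn hξ]; module
  have e2 : Pp (-ξ) *ᵥ pe (-ξ) = pe (-ξ) := by rw [ck_Pn, ck_pn hξ]; module
  have e3 : Pp (-ξ) *ᵥ (x.toMatrix *ᵥ pe (-ξ)) = ml x ξ • pe (-ξ) := by
    rw [ck_Pn]
    have := ck_herm hξ hx (pe (-ξ))
    rw [act] at this
    rw [this, ck_pn hξ]
    module
  rw [Dg, add_mulVec, add_mulVec, ← mulVec_mulVec, ← mulVec_mulVec, ← mulVec_mulVec,
    ← mulVec_mulVec, ← mulVec_mulVec, ← mulVec_mulVec, e1, e2, P0_pn hξ, mulVec_zero,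
    mulVec_zero, mulVec_zero, e3, zero_add, zero_add]

/-- A scalar rotation part. -/
private theorem Dg_of_rA {ξ : Fin n → ℂ} (hξ : nq ξ = 1) {x : SUGroup n} (hx : x ∈ PS ξ)
    (h : ∀ v : V0 ξ, rA ξ hξ x v = v) : Dg ξ x = ml x ξ • (1 : Mat (n + 1)) := by
  have h0 := ml_ne_zero hξ x
  have h1 : ∀ v : Vec n, Dg ξ x *ᵥ v = ml x ξ • v := by
    intro v
    have hv : Dg ξ x *ᵥ (P0 ξ *ᵥ v) = ml x ξ • (P0 ξ *ᵥ v) := by
      rw [Dg_V0 x (P0_mem hξ v)]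
      have h2 := congrArg Subtype.val (h ⟨P0 ξ *ᵥ v, P0_mem hξ v⟩)
      rw [rA_coe] at h2
      rw [inv_smul_eq_iff₀ h0] at h2
      exact h2
    conv_lhs => rw [decomp ξ v]
    rw [mulVec_add, mulVec_add, mulVec_smul, mulVec_smul, hv, Dg_p hξ hx, Dg_e hξ hx,
      smul_comm _ (ml x ξ), smul_comm _ (ml x ξ), ← smul_add, ← smul_add, ← decomp]
  apply Matrix.toLin'.injective
  apply LinearMap.ext
  intro v
  rw [toLin'_apply, toLin'_apply, h1, smul_mulVec, one_mulVec]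

private theorem ml_pow_eq {ξ : Fin n → ℂ} (hξ : nq ξ = 1) {x : SUGroup n} (hx : x ∈ PS ξ)
    (h : Dg ξ x = ml x ξ • (1 : Mat (n + 1))) : ml x ξ ^ (n + 1) = 1 := by
  obtain ⟨k, _, hk, _⟩ := exists_dg hx hξ
  have h1 := det_toMatrix k
  rw [hk, h, det_smul, det_one, mul_one, Fintype.card_fin] at h1
  exact h1

/-- `γ` is the transvection `v ↦ v + i κ ⟨(ξ,1), v⟩ (ξ,1)`. -/
def IsTv (γ : SUGroup n) (ξ : Fin n → ℂ) (κ : ℝ) : Prop :=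
  nq ξ = 1 ∧ κ ≠ 0 ∧ γ.toMatrix = 1 + ((κ : ℂ) * Complex.I) • rk n (pe ξ) (pe ξ)

variable {Γ : Subgroup (SUGroup n)}

/-- C16, first part. Apply `rot_trivial` to `Δ` of `exists_nilp`,
`V = {v : Vec n | P0 ξ v = v}` (a subspace), `A x = (ml x ξ)⁻¹ P0 x P0`, `b x = (ml x ξ)⁻¹ P0 x (pe (-ξ))`
(cocycle by `block_zero`, bounded by `Dg_unitary`, cobounded by `cobdd_of_relIndex` and the existence
of `g ∈ PS ξ` with `b g = ζ`: `T (pe ξ) _` of Hyb/Heis): the rotation part of `x ∈ Δ` is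
`ml x ξ • 1`, `det = 1` gives `(ml x ξ)^(n+1) = 1`; the kernel of `ml` on `Δ` has finite index. -/
theorem exists_unip (hd : DiscreteTopology Γ) {ξ : Fin n → ℂ} (hP : Par Γ ξ) {R : ℝ}
    (hc : ∀ g ∈ PS ξ, ∃ γ ∈ Γ, γ ∈ St ξ ∧ ch (γ * g) ≤ R) :
    ∃ Δ : Subgroup (SUGroup n), Δ ≤ Γ ⊓ PS ξ ∧ Δ.relIndex (Γ ⊓ PS ξ) ≠ 0 ∧
      (∀ x ∈ Δ, Dg ξ x = 1) ∧ ∃ R' : ℝ, ∀ g ∈ PS ξ, ∃ δ ∈ Δ, ch (δ * g) ≤ R' := by
  have hξ := hP.1
  obtain ⟨Δ, hle, hfi, hnil⟩ := exists_nilp hd hP hc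
  have hc' : ∀ g ∈ PS ξ, ∃ γ ∈ Γ ⊓ PS ξ, ch (γ * g) ≤ R := by
    intro g hg
    obtain ⟨γ, h1, h2, h3⟩ := hc g hg
    exact ⟨γ, ⟨h1, hP.2 γ h1 h2⟩, h3⟩
  obtain ⟨R₁, hR₁⟩ := cobdd_of_relIndex hle hfi hc'
  have hlP : Δ ≤ PS ξ := hle.trans inf_le_right
  obtain ⟨B, hB⟩ := cobdd_rb hξ hlP hR₁
  obtain ⟨A, hA⟩ : ∃ A : Δ →* (V0 ξ →ₗ[ℝ] V0 ξ), ∀ x v, A x v = rA ξ hξ x v :=
    ⟨{ toFun := fun x => (rA ξ hξ x).restrictScalars ℝ
       map_one' := by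
         apply LinearMap.ext
         intro v
         rw [LinearMap.restrictScalars_apply, OneMemClass.coe_one, rA_one hξ]
         rfl
       map_mul' := by
         intro x y
         apply LinearMap.ext
         intro v
         rw [LinearMap.restrictScalars_apply, Subgroup.coe_mul, rA_mul hξ (hlP x.2) (hlP y.2)]
         rfl }, fun x v => rfl⟩
  have hrot := rot_trivial A (fun x => rb ξ hξ x) (fun x y => by
      rw [Subgroup.coe_mul, rb_mul hξ (hlP x.2) (hlP y.2), hA])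
    (B := B) (C := (n + 1) * fro (1 : Mat (n + 1)))
    (fun x v => by rw [hA]; exact rA_norm hξ (hlP x.2) v)
    (fun ζ => by
      obtain ⟨x, hx, h⟩ := hB ζ
      exact ⟨⟨x, hx⟩, h⟩)
  have hD : ∀ x ∈ Δ, Dg ξ x = ml x ξ • (1 : Mat (n + 1)) := by
    intro x hx
    apply Dg_of_rA hξ (hlP hx)
    intro v
    have := hA ⟨x, hx⟩ v
    rw [hrot] at this
    exact this.symm
  obtain ⟨φ, hφ⟩ : ∃ φ : Δ →* ℂ, ∀ x, φ x = ml x ξ :=
    ⟨{ toFun := fun x => ml x ξ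
       map_one' := ml_one ξ
       map_mul' := by
         intro x y
         rw [Subgroup.coe_mul, ml_mul' hξ (hlP y.2)] }, fun x => rfl⟩
  have hfin : Finite φ.toHomUnits.range := by
    have h1 : φ.toHomUnits.range ≤ rootsOfUnity (n + 1) ℂ := by
      rintro _ ⟨x, rfl⟩
      rw [mem_rootsOfUnity]
      apply Units.ext
      rw [Units.val_pow_eq_pow_val, MonoidHom.coe_toHomUnits, hφ, Units.val_one]
      exact ml_pow_eq hξ (hlP x.2) (hD x x.2)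
    exact Finite.of_injective _ (Subgroup.inclusion_injective h1)
  have hker : φ.toHomUnits.ker.index ≠ 0 := by
    rw [Subgroup.index_ker]
    exact Nat.card_pos.ne'
  have hrel : (φ.toHomUnits.ker.map Δ.subtype).relIndex Δ ≠ 0 := by
    rw [Subgroup.relIndex, Subgroup.subgroupOf,
      Subgroup.comap_map_eq_self_of_injective Δ.subtype_injective]
    exact hker
  have hrel' := Subgroup.relIndex_ne_zero_trans hrel hfi
  have hle' : φ.toHomUnits.ker.map Δ.subtype ≤ Δ := Subgroup.map_subtype_le _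
  refine ⟨φ.toHomUnits.ker.map Δ.subtype, hle'.trans hle, hrel', ?_,
    cobdd_of_relIndex (hle'.trans hle) hrel' hc'⟩
  rintro _ ⟨x, hx, rfl⟩
  have hx1 : ml (x : SUGroup n) ξ = 1 := by
    rw [← hφ, ← MonoidHom.coe_toHomUnits, (MonoidHom.mem_ker.1 hx), Units.val_one]
  change Dg ξ (x : SUGroup n) = 1
  rw [hD x x.2, hx1, one_smul]

private theorem ml_one_of_Dg {ξ : Fin n → ℂ} (hξ : nq ξ = 1) {x : SUGroup n} (hx : x ∈ PS ξ)
    (h : Dg ξ x = 1) : ml x ξ = 1 := by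
  have h1 := Dg_p hξ hx
  rw [h, one_mulVec] at h1
  have h2 := congrFun h1 (Fin.last n)
  rw [Pi.smul_apply, pe_last, smul_eq_mul, mul_one] at h2
  exact h2.symm

/-- The action of a unipotent element on `e`. -/
private theorem uni_e {ξ : Fin n → ℂ} (hξ : nq ξ = 1) {x : SUGroup n} (hx : x ∈ PS ξ)
    (h : Dg ξ x = 1) : ∃ a : ℂ, act x (pe (-ξ)) = (rb ξ hξ x : Vec n) + pe (-ξ) + a • pe ξ := by
  have hm1 := ml_one_of_Dg hξ hx h
  refine ⟨-(1 / 2 : ℂ) * herm (pe (-ξ)) (act x (pe (-ξ))), ?_⟩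
  conv_lhs => rw [decomp ξ (act x (pe (-ξ)))]
  rw [rb_coe, hm1, ck_herm hξ hx, hm1, ck_pn hξ]
  module

private theorem uni_v {ξ : Fin n → ℂ} (hξ : nq ξ = 1) {x : SUGroup n} (hx : x ∈ PS ξ)
    (h : Dg ξ x = 1) {v : Vec n} (hv : v ∈ V0 ξ) :
    act x v = v + ((1 / 2 : ℂ) * herm (rb ξ hξ x : Vec n) v) • pe ξ := by
  have hm1 := ml_one_of_Dg hξ hx h
  have h1 : act x v = v + (-(1 / 2 : ℂ) * herm (pe (-ξ)) (act x v)) • pe ξ := by
    conv_lhs => rw [decomp ξ (act x v)]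
    rw [← Dg_V0 x hv, h, one_mulVec, ck_herm hξ hx, hv.1]
    module
  obtain ⟨a, ha⟩ := uni_e hξ hx h
  obtain ⟨c, hc⟩ : ∃ c : ℂ, c = -(1 / 2 : ℂ) * herm (pe (-ξ)) (act x v) := ⟨_, rfl⟩
  rw [← hc] at h1
  have h2 := herm_act x (pe (-ξ)) v
  have h3 : herm (rb ξ hξ x : Vec n) (pe ξ) = 0 := by
    rw [herm_comm (pe ξ), (rb ξ hξ x).2.1, star_zero]
  rw [ha, h1, hv.2, herm_add_left, herm_add_left, herm_add_right, herm_add_right, herm_add_right,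
    herm_smul_right, herm_smul_right, herm_smul_right, herm_smul_left, herm_smul_left, h3, hv.1,
    hv.2, ck_np hξ, ck_pp hξ] at h2
  have h4 : c = (1 / 2 : ℂ) * herm (rb ξ hξ x : Vec n) v := by linear_combination -(1 / 2) * h2
  rw [h1, h4]

private theorem uni_p {ξ : Fin n → ℂ} (hξ : nq ξ = 1) {x : SUGroup n} (hx : x ∈ PS ξ)
    (h : Dg ξ x = 1) : act x (pe ξ) = pe ξ := by
  rw [ck_act hξ hx, ml_one_of_Dg hξ hx h, one_smul]

/-- The commutator. -/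
private theorem uni_comm {ξ : Fin n → ℂ} (hξ : nq ξ = 1) {x y : SUGroup n} (hx : x ∈ PS ξ)
    (hy : y ∈ PS ξ) (h1 : Dg ξ x = 1) (h2 : Dg ξ y = 1) :
    (x * y).toMatrix = (y * x).toMatrix +
      (((-(1 / 2) * (herm (rb ξ hξ x : Vec n) (rb ξ hξ y : Vec n)).im : ℝ) : ℂ) * Complex.I) •
        rk n (pe ξ) (pe ξ) := by
  obtain ⟨a, ha⟩ := uni_e hξ hx h1
  obtain ⟨b, hb⟩ := uni_e hξ hy h2
  have hpp : hm n (pe ξ) (pe ξ) = 0 := ck_pp hξ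
  have hpe : hm n (pe ξ) (pe (-ξ)) = -2 := ck_pn hξ
  obtain ⟨c, hc⟩ : ∃ c : ℂ, c = ((-(1 / 2) * (herm (rb ξ hξ x : Vec n)
    (rb ξ hξ y : Vec n)).im : ℝ) : ℂ) * Complex.I := ⟨_, rfl⟩
  have hc2 : (1 / 2 : ℂ) * herm (rb ξ hξ x : Vec n) (rb ξ hξ y : Vec n) =
      (1 / 2 : ℂ) * herm (rb ξ hξ y : Vec n) (rb ξ hξ x : Vec n) + c * (-2) := by
    rw [herm_comm (rb ξ hξ x : Vec n) (rb ξ hξ y : Vec n), hc]
    apply Complex.ext
    · simp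
    · simp
      ring
  rw [← hc]
  have key : ∀ v : Vec n, act (x * y) v = act (y * x) v + c • (rk n (pe ξ) (pe ξ) *ᵥ v) := by
    intro v
    have hv : act (x * y) (P0 ξ *ᵥ v) = act (y * x) (P0 ξ *ᵥ v) +
        c • (rk n (pe ξ) (pe ξ) *ᵥ (P0 ξ *ᵥ v)) := by
      have h0 : hm n (pe ξ) (P0 ξ *ᵥ v) = 0 := (P0_mem hξ v).1
      rw [act_mul, act_mul, uni_v hξ hy h2 (P0_mem hξ v), uni_v hξ hx h1 (P0_mem hξ v), act_add,
        act_add, act_smul, act_smul, uni_p hξ hx h1, uni_p hξ hy h2, uni_v hξ hy h2 (P0_mem hξ v),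
        uni_v hξ hx h1 (P0_mem hξ v), rk_mulVec, h0]
      module
    have hp : act (x * y) (pe ξ) = act (y * x) (pe ξ) + c • (rk n (pe ξ) (pe ξ) *ᵥ pe ξ) := by
      rw [act_mul, act_mul, uni_p hξ hy h2, uni_p hξ hx h1, uni_p hξ hy h2, rk_mulVec, hpp]
      module
    have he : act (x * y) (pe (-ξ)) = act (y * x) (pe (-ξ)) +
        c • (rk n (pe ξ) (pe ξ) *ᵥ pe (-ξ)) := by
      rw [act_mul, act_mul, hb, ha, act_add, act_add, act_add, act_add, act_smul, act_smul,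
        uni_p hξ hx h1, uni_p hξ hy h2, uni_v hξ hy h2 (rb ξ hξ x).2,
        uni_v hξ hx h1 (rb ξ hξ y).2, ha, hb, rk_mulVec, hpe, hc2]
      module
    have e1 := decomp ξ v
    obtain ⟨u, hu⟩ : ∃ u : Vec n, u = P0 ξ *ᵥ v := ⟨_, rfl⟩
    rw [← hu] at e1 hv
    rw [e1, act_add, act_add, act_add, act_add, act_smul, act_smul, act_smul, act_smul,
      mulVec_add, mulVec_add, mulVec_smul, mulVec_smul, hv, hp, he]
    module
  apply Matrix.toLin'.injective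
  apply LinearMap.ext
  intro v
  rw [toLin'_apply, toLin'_apply, add_mulVec, smul_mulVec]
  exact key v

private theorem mul_rk (M : Mat (n + 1)) (a b : Vec n) : M * rk n a b = rk n a (M *ᵥ b) := by
  rw [rk, rk, mul_vecMulVec]

/-- The linear functional `⟨z, ·⟩`. -/
private noncomputable def hL (z : Vec n) : Vec n →ₗ[ℂ] ℂ where
  toFun w := herm z w
  map_add' u w := herm_add_right z u w
  map_smul' c w := by rw [herm_smul_right, RingHom.id_apply, smul_eq_mul]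

private theorem herm_bound (z : Vec n) : ∃ C : ℝ, 0 ≤ C ∧ ∀ w : Vec n, ‖herm z w‖ ≤ C * ‖w‖ :=
  ⟨‖(hL z).toContinuousLinearMap‖, norm_nonneg _, fun w =>
    (hL z).toContinuousLinearMap.le_opNorm w⟩

private theorem exists_V0 (hn : 2 ≤ n) (ξ : Fin n → ℂ) : ∃ v : V0 ξ, v ≠ 0 := by
  have h1 : LinearMap.ker ((hL (pe ξ)).prod (hL (pe (-ξ)))) ≠ ⊥ := by
    apply LinearMap.ker_ne_bot_of_finrank_lt
    rw [Module.finrank_prod, Module.finrank_self, Module.finrank_fin_fun]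
    omega
  obtain ⟨v, hv, h0⟩ := Submodule.exists_mem_ne_zero_of_ne_bot h1
  have h2 : herm (pe ξ) v = 0 := congrArg Prod.fst (LinearMap.mem_ker.1 hv)
  have h3 : herm (pe (-ξ)) v = 0 := congrArg Prod.snd (LinearMap.mem_ker.1 hv)
  exact ⟨⟨v, h2, h3⟩, fun h => h0 (congrArg Subtype.val h)⟩

private theorem q_pos_V0 {ξ : Fin n → ℂ} (v : V0 ξ) (hv : v ≠ 0) : 0 < q (v : Vec n) := by
  apply q_pos_of_orth (base_mem n)
  · have h := herm_add_left (pe ξ) (pe (-ξ)) (v : Vec n)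
    rw [two_smul_base, herm_smul_left, v.2.1, v.2.2, add_zero] at h
    exact (mul_eq_zero.1 h).resolve_left (by simp)
  · intro h
    exact hv (Subtype.ext h)

/-- C16, second part: the commutator of two elements of `Δ` with `Im ⟨ζ_x, ζ_y⟩ ≠ 0` (`T_comm`). -/
theorem exists_transv (hn : 2 ≤ n) {ξ : Fin n → ℂ} (hξ : nq ξ = 1)
    {Δ : Subgroup (SUGroup n)} (hle : Δ ≤ PS ξ) (h1 : ∀ x ∈ Δ, Dg ξ x = 1) {R : ℝ}
    (hc : ∀ g ∈ PS ξ, ∃ δ ∈ Δ, ch (δ * g) ≤ R) : ∃ γ ∈ Δ, ∃ κ : ℝ, IsTv γ ξ κ := by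
  obtain ⟨B, hB⟩ := cobdd_rb hξ hle hc
  obtain ⟨v, hv⟩ := exists_V0 hn ξ
  have hv0 : 0 < ‖v‖ := norm_pos_iff.2 hv
  obtain ⟨x, hx, hxb⟩ := hB (((|B| + 1) / ‖v‖ : ℝ) • v)
  have hz : rb ξ hξ x ≠ 0 := by
    intro h
    rw [h, zero_sub, norm_neg, norm_smul, Real.norm_eq_abs, abs_div, abs_norm,
      div_mul_cancel₀ _ hv0.ne', abs_of_pos (by positivity)] at hxb
    linarith [le_abs_self B]
  have hq := q_pos_V0 _ hz
  obtain ⟨C, hC0, hC⟩ := herm_bound (rb ξ hξ x : Vec n)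
  obtain ⟨s, hs⟩ : ∃ s : ℝ, s = (C * |B| + 1) / q (rb ξ hξ x : Vec n) := ⟨_, rfl⟩
  obtain ⟨y, hy, hyb⟩ := hB (((s : ℂ) * Complex.I) • rb ξ hξ x)
  have him : (herm (rb ξ hξ x : Vec n) (rb ξ hξ y : Vec n)).im ≠ 0 := by
    have e1 : (rb ξ hξ y : Vec n) = ((s : ℂ) * Complex.I) • (rb ξ hξ x : Vec n) +
        ((rb ξ hξ y - ((s : ℂ) * Complex.I) • rb ξ hξ x : V0 ξ) : Vec n) := by
      rw [Submodule.coe_sub, Submodule.coe_smul]
      abel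
    have e2 := hC ((rb ξ hξ y - ((s : ℂ) * Complex.I) • rb ξ hξ x : V0 ξ) : Vec n)
    rw [← Submodule.coe_norm] at e2
    have e3 := e2.trans (mul_le_mul_of_nonneg_left (hyb.trans (le_abs_self B)) hC0)
    have e4 := (Complex.abs_im_le_norm _).trans e3
    rw [e1, herm_add_right, herm_smul_right, herm_self, Complex.add_im]
    have e5 : ((s : ℂ) * Complex.I * (q (rb ξ hξ x : Vec n) : ℂ)).im =
        s * q (rb ξ hξ x : Vec n) := by simp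
    have e7 : s * q (rb ξ hξ x : Vec n) = C * |B| + 1 := by
      rw [hs, div_mul_cancel₀ _ hq.ne']
    rw [e5, e7]
    have e6 := (abs_le.1 e4).1
    intro h
    linarith
  refine ⟨(y * x)⁻¹ * (x * y), Δ.mul_mem (Δ.inv_mem (Δ.mul_mem hy hx)) (Δ.mul_mem hx hy),
    -(1 / 2) * (herm (rb ξ hξ x : Vec n) (rb ξ hξ y : Vec n)).im, hξ,
    mul_ne_zero (by norm_num) him, ?_⟩
  have hyx : act (y * x)⁻¹ (pe ξ) = pe ξ := by
    have h3 : act (y * x) (pe ξ) = pe ξ := by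
      rw [act_mul, uni_p hξ (hle hx) (h1 x hx), uni_p hξ (hle hy) (h1 y hy)]
    have h4 := congrArg (act (y * x)⁻¹) h3
    rw [← act_mul, inv_mul_cancel, act_one] at h4
    exact h4.symm
  rw [toMatrix_mul (y * x)⁻¹ (x * y), uni_comm hξ (hle hx) (hle hy) (h1 x hx) (h1 y hy),
    Matrix.mul_add, toMatrix_inv_mul, Matrix.mul_smul, mul_rk]
  rw [act] at hyx
  rw [hyx]

/-- Growth on a unipotent group. -/
private theorem grow_uni (t : ℂ ≃+* ℂ) {ξ : Fin n → ℂ} (hξ : nq ξ = 1)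
    {Δ : Subgroup (SUGroup n)} (hd : DiscreteTopology Δ) (hle : Δ ≤ PS ξ)
    (h1 : ∀ x ∈ Δ, Dg ξ x = 1) {R : ℝ} (hc : ∀ g ∈ PS ξ, ∃ δ ∈ Δ, ch (δ * g) ≤ R) :
    ∃ C : ℝ, 0 ≤ C ∧ ∀ δ ∈ Δ, ‖δ.toMatrix.map t‖ ≤ C * ch δ ^ 2 := by
  obtain ⟨S, C, hS, hSΔ, hw⟩ := exists_word hξ hd hle hc
  obtain ⟨τ, hτ⟩ : ∃ τ : Mat (n + 1) →+* Mat (n + 1), ∀ A, τ A = A.map t :=
    ⟨(t : ℂ →+* ℂ).mapMatrix, fun A => rfl⟩
  obtain ⟨B, hB⟩ := (hS.image fun s => ‖τ (s.toMatrix - 1)‖).bddAbove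
  have hB' : ∀ s ∈ S, ‖τ (s.toMatrix - 1)‖ ≤ |B| := fun s hs =>
    (hB (Set.mem_image_of_mem _ hs)).trans (le_abs_self B)
  have hpr : ∀ l : List (SUGroup n), (∀ s ∈ l, s ∈ S) → l.prod ∈ Δ := by
    intro l hl
    exact Δ.list_prod_mem fun s hs => hSΔ s (hl s hs)
  have ha : ∀ l : List (SUGroup n), (∀ s ∈ l, s ∈ S) → ∀ r ∈ S,
      ‖τ ((r.toMatrix - 1) * (l.prod.toMatrix - 1))‖ ≤ l.length * |B| ^ 2 := by
    intro l
    induction l with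
    | nil =>
      intro _ r _
      rw [List.prod_nil, toMatrix_one, sub_self, Matrix.mul_zero, map_zero, norm_zero]
      positivity
    | cons s l ih =>
      intro hl r hr
      have hs : s ∈ S := hl s List.mem_cons_self
      have hl' : ∀ s ∈ l, s ∈ S := fun x hx => hl x (List.mem_cons_of_mem _ hx)
      have e0 := mul_three hξ (PS_le_St ξ (hle (hSΔ r hr))) (PS_le_St ξ (hle (hSΔ s hs)))
        (PS_le_St ξ (hle (hpr l hl'))) (h1 r (hSΔ r hr)) (h1 s (hSΔ s hs)) (h1 _ (hpr l hl'))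
      have e1 : (r.toMatrix - 1) * ((s :: l).prod.toMatrix - 1) =
          (r.toMatrix - 1) * (s.toMatrix - 1) + (r.toMatrix - 1) * (l.prod.toMatrix - 1) := by
        rw [List.prod_cons, toMatrix_mul]
        have e2 : s.toMatrix * l.prod.toMatrix - 1 = (s.toMatrix - 1) * (l.prod.toMatrix - 1) +
            ((s.toMatrix - 1) + (l.prod.toMatrix - 1)) := by
          noncomm_ring
        rw [e2, Matrix.mul_add, ← Matrix.mul_assoc, e0, zero_add, Matrix.mul_add]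
      rw [e1, map_add, map_mul]
      refine (norm_add_le _ _).trans ?_
      have e3 := ih hl' r hr
      have e4 := (norm_mul_le (τ (r.toMatrix - 1)) (τ (s.toMatrix - 1))).trans
        (mul_le_mul (hB' r hr) (hB' s hs) (norm_nonneg _) (abs_nonneg _))
      rw [List.length_cons]
      push_cast
      nlinarith
  have hb : ∀ l : List (SUGroup n), (∀ s ∈ l, s ∈ S) →
      ‖τ (l.prod.toMatrix - 1)‖ ≤ l.length * |B| + (l.length : ℝ) ^ 2 * |B| ^ 2 := by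
    intro l
    induction l with
    | nil =>
      intro _
      rw [List.prod_nil, toMatrix_one, sub_self, map_zero, norm_zero]
      positivity
    | cons s l ih =>
      intro hl
      have hs : s ∈ S := hl s List.mem_cons_self
      have hl' : ∀ s ∈ l, s ∈ S := fun x hx => hl x (List.mem_cons_of_mem _ hx)
      have e1 : (s :: l).prod.toMatrix - 1 = (s.toMatrix - 1) * (l.prod.toMatrix - 1) +
          ((s.toMatrix - 1) + (l.prod.toMatrix - 1)) := by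
        rw [List.prod_cons, toMatrix_mul]
        noncomm_ring
      rw [e1, map_add, map_add]
      refine (norm_add_le _ _).trans ?_
      have e2 := norm_add_le (τ (s.toMatrix - 1)) (τ (l.prod.toMatrix - 1))
      have e3 := ha l hl' s hs
      have e4 := ih hl'
      have e5 := hB' s hs
      have e6 : 0 ≤ (l.length : ℝ) * |B| ^ 2 := by positivity
      rw [List.length_cons]
      push_cast
      nlinarith [sq_nonneg B, sq_abs B]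
  have hC := abs_nonneg C
  have hBn := abs_nonneg B
  refine ⟨‖(1 : Mat (n + 1))‖ + |C| * |B| + |C| ^ 2 * |B| ^ 2, by positivity, ?_⟩
  intro δ hδ
  obtain ⟨l, hl, hlδ, hlen⟩ := hw δ hδ
  have hch := one_le_ch δ
  have hlen' : (l.length : ℝ) ≤ |C| * ch δ :=
    hlen.trans (mul_le_mul_of_nonneg_right (le_abs_self C) (by linarith))
  have e1 : δ.toMatrix.map t = 1 + τ (l.prod.toMatrix - 1) := by
    rw [hlδ, map_sub, map_one, hτ]
    abel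
  rw [e1]
  refine (norm_add_le _ _).trans ?_
  have e2 := hb l hl
  have e3 : (l.length : ℝ) * |B| ≤ |C| * ch δ * |B| := by gcongr
  have e4 : (l.length : ℝ) ^ 2 * |B| ^ 2 ≤ (|C| * ch δ) ^ 2 * |B| ^ 2 := by gcongr
  have e5 : ch δ ≤ ch δ ^ 2 := by nlinarith
  have e6 : (1 : ℝ) ≤ ch δ ^ 2 := by nlinarith
  calc ‖(1 : Mat (n + 1))‖ + ‖τ (l.prod.toMatrix - 1)‖
      ≤ ‖(1 : Mat (n + 1))‖ * 1 + (|C| * |B| * ch δ + |C| ^ 2 * |B| ^ 2 * ch δ ^ 2) := by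
        linarith
    _ ≤ ‖(1 : Mat (n + 1))‖ * ch δ ^ 2 + (|C| * |B| * ch δ ^ 2 +
        |C| ^ 2 * |B| ^ 2 * ch δ ^ 2) := by gcongr
    _ = _ := by ring

/-- C17. `exists_unip`, `exists_word` for `Δ`, `mul_three`: a product of `l` elements `1 + X_i` of `S` is
`1 + ∑ X_i + ∑_(i<j) X_i X_j`; apply `t`; finitely many cosets. -/
theorem grow_St (t : ℂ ≃+* ℂ) (hd : DiscreteTopology Γ) {ξ : Fin n → ℂ} (hP : Par Γ ξ) {R : ℝ}
    (hc : ∀ g ∈ PS ξ, ∃ γ ∈ Γ, γ ∈ St ξ ∧ ch (γ * g) ≤ R) :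
    ∃ C : ℝ, 0 < C ∧ ∀ γ ∈ Γ, γ ∈ St ξ → ‖γ.toMatrix.map t‖ ≤ C * ch γ ^ 2 := by
  have hξ := hP.1
  obtain ⟨Δ, hle, hfi, h1, R', hR'⟩ := exists_unip hd hP hc
  have hlΓ : Δ ≤ Γ := hle.trans inf_le_left
  have hdΔ : DiscreteTopology Δ :=
    DiscreteTopology.of_continuous_injective (continuous_inclusion hlΓ)
      (Set.inclusion_injective hlΓ)
  obtain ⟨C, hC0, hC⟩ := grow_uni t hξ hdΔ (hle.trans inf_le_right) h1 hR'
  obtain ⟨τ, hτ⟩ : ∃ τ : Mat (n + 1) →+* Mat (n + 1), ∀ A, τ A = A.map t :=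
    ⟨(t : ℂ →+* ℂ).mapMatrix, fun A => rfl⟩
  have hfin : Finite ((Γ ⊓ PS ξ : Subgroup (SUGroup n)) ⧸ Δ.subgroupOf (Γ ⊓ PS ξ)) :=
    Nat.finite_of_card_ne_zero hfi
  obtain ⟨M, hM⟩ := (Set.finite_range fun c : ((Γ ⊓ PS ξ : Subgroup (SUGroup n)) ⧸
    Δ.subgroupOf (Γ ⊓ PS ξ)) => ‖τ (c.out : SUGroup n).toMatrix‖ *
      (C * (2 * ch (c.out : SUGroup n)) ^ 2)).bddAbove
  refine ⟨|M| + 1, by positivity, ?_⟩
  intro γ hγ hs
  have hγ' : γ ∈ Γ ⊓ PS ξ := ⟨hγ, hP.2 γ hγ hs⟩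
  obtain ⟨c, hcdef⟩ : ∃ c : ((Γ ⊓ PS ξ : Subgroup (SUGroup n)) ⧸ Δ.subgroupOf (Γ ⊓ PS ξ)),
    c = QuotientGroup.mk ⟨γ, hγ'⟩ := ⟨_, rfl⟩
  have hout : (QuotientGroup.mk c.out : ((Γ ⊓ PS ξ : Subgroup (SUGroup n)) ⧸
      Δ.subgroupOf (Γ ⊓ PS ξ))) = QuotientGroup.mk ⟨γ, hγ'⟩ := by
    rw [QuotientGroup.out_eq', hcdef]
  have hδ : (c.out : SUGroup n)⁻¹ * γ ∈ Δ := by
    have := QuotientGroup.eq.1 hout
    rw [Subgroup.mem_subgroupOf] at this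
    exact this
  have hMc : ‖τ (c.out : SUGroup n).toMatrix‖ * (C * (2 * ch (c.out : SUGroup n)) ^ 2) ≤ |M| :=
    (hM (Set.mem_range_self c)).trans (le_abs_self M)
  obtain ⟨r, hr⟩ : ∃ r : SUGroup n, r = (c.out : SUGroup n) := ⟨_, rfl⟩
  rw [← hr] at hδ hMc
  have e1 : γ.toMatrix.map t = τ r.toMatrix * τ (r⁻¹ * γ).toMatrix := by
    rw [← map_mul, ← toMatrix_mul, mul_inv_cancel_left, hτ]
  have e2 := hC _ hδ
  rw [← hτ] at e2
  have e3 := ch_mul_le' r⁻¹ γ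
  rw [ch_inv] at e3
  have hch := one_le_ch γ
  have hchr := one_le_ch r
  have hchd := one_le_ch (r⁻¹ * γ)
  rw [e1]
  calc ‖τ r.toMatrix * τ (r⁻¹ * γ).toMatrix‖
      ≤ ‖τ r.toMatrix‖ * ‖τ (r⁻¹ * γ).toMatrix‖ := norm_mul_le _ _
    _ ≤ ‖τ r.toMatrix‖ * (C * (2 * ch r * ch γ) ^ 2) := by gcongr; exact e2.trans (by gcongr)
    _ = ‖τ r.toMatrix‖ * (C * (2 * ch r) ^ 2) * ch γ ^ 2 := by ring
    _ ≤ |M| * ch γ ^ 2 := by gcongr
    _ ≤ (|M| + 1) * ch γ ^ 2 := by gcongr; linarith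

end Pool.Agent.Lib.MP_5d4057_al.NU
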