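import Pool.Agent.Lib.MP_5d4057_al.NU.CutN
import Pool.Agent.Lib.MP_5d4057_al.HM.BochC

/-! The divergence theorem for `(0,1)`-forms with compact support modulo a lattice. -/

namespace Pool.Agent.Lib.MP_5d4057_al.NU

open Matrix MeasureTheory Filter Topology Pool.Agent.Lib.MP_5d4057_al
  Pool.Agent.Lib.MP_5d4057_al.Hyb Pool.Agent.Lib.MP_5d4057_al.HM

open scoped ComplexOrder MatrixOrder Matrix.Norms.L2Operator ENNReal

variable {n m : ℕ}

variable {Γ : Subgroup (SUGroup n)} {χ : SUGroup n → ℝ}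

theorem II_add_int {E : Type} [NormedAddCommGroup E] [NormedSpace ℝ E] {f₁ f₂ : SUGroup n → E}
    (h₁ : Integrable (fun g => χ g • f₁ g) (mu n)) (h₂ : Integrable (fun g => χ g • f₂ g) (mu n)) :
    II χ (fun g => f₁ g + f₂ g) = II χ f₁ + II χ f₂ := by
  unfold II
  rw [← integral_add h₁ h₂]
  refine integral_congr_ae (Filter.Eventually.of_forall fun g => ?_)
  simp only [smul_add]

theorem II_sum_int {E : Type} [NormedAddCommGroup E] [NormedSpace ℝ E] {ι : Type} (T : Finset ι)
    {f : ι → SUGroup n → E} (h : ∀ i ∈ T, Integrable (fun g => χ g • f i g) (mu n)) :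
    II χ (fun g => ∑ i ∈ T, f i g) = ∑ i ∈ T, II χ (f i) := by
  unfold II
  rw [← integral_finsetSum T h]
  refine integral_congr_ae (Filter.Eventually.of_forall fun g => ?_)
  simp only [Finset.smul_sum]

section
variable {Y : Vec n → Vec n → ℂ}

private theorem dn_cont_D (hY1 : ∀ a, ContDiffOn ℝ 1 (fun v => Y v a) (Cone n)) (a w : Vec n) :
    Continuous fun g : SUGroup n => fderiv ℝ (fun v => Y v a) (act g (base n)) (act g w) := by
  have h1 : ContinuousOn (fderiv ℝ (fun v => Y v a)) (Cone n) :=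
    (hY1 a).continuousOn_fderiv_of_isOpen (isOpen_cone n) (by norm_num)
  have h2 : Continuous fun g : SUGroup n => fderiv ℝ (fun v => Y v a) (act g (base n)) :=
    continuous_orb h1
  exact h2.clm_apply (continuous_actv w)

/-- the flow argument for one pair of directions -/
theorem II_oneN (h : Lat Γ χ) {Q : Set (SUGroup n)} (hQ : IsCompact Q)
    (hadd : ∀ v a b, Y v (a + b) = Y v a + Y v b)
    (hs : ∀ (v : Vec n) (r : ℂ) a, Y v (r • a) = star r * Y v a)
    (hY1 : ∀ a, ContDiffOn ℝ 1 (fun v => Y v a) (Cone n)) (hY0 : ∀ v ∈ Cone n, Y v v = 0)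
    (hi : ∀ γ ∈ Γ, ∀ v ∈ Cone n, ∀ a, Y (act γ v) (act γ a) = Y v a)
    (ho : ∀ g : SUGroup n, (¬ ∃ γ ∈ Γ, γ * g ∈ Q) → ∀ a,
      (fun v => Y v a) =ᶠ[𝓝 (act g (base n))] fun _ => 0) (j : Fin n)
    {ξ : Fin n → ℂ} (hξ : ∑ i, ‖ξ i‖ ^ 2 = 1) :
    II χ (fun g => ∑ k, star (g.toMatrix k j.castSucc) *
      fderiv ℝ (fun v => Y v (Pi.single k 1)) (act g (base n)) (act g (vec ξ))) = 0 ∧
    Integrable (fun g => χ g • ∑ k, star (g.toMatrix k j.castSucc) *
      fderiv ℝ (fun v => Y v (Pi.single k 1)) (act g (base n)) (act g (vec ξ))) (mu n) := by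
  obtain ⟨b, hb0, hb, hbc, -, hbd⟩ := exists_flow ξ hξ
  have hent : ∀ (k l : Fin (n + 1)), Continuous fun g : SUGroup n => g.toMatrix k l := fun k l =>
    (continuous_toMatrix n).matrix_elem _ _
  have hYc : ∀ a : Vec n, Continuous fun g : SUGroup n => Y (act g (base n)) a := fun a =>
    continuous_orb (hY1 a).continuousOn
  have hcol : ∀ (g : SUGroup n) (l k : Fin (n + 1)), act g (Pi.single l 1) k = g.toMatrix k l := by
    intro g l k
    rw [act, Matrix.mulVec_single_one, Matrix.col_apply]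
  have hPsi : ∀ g : SUGroup n, ∀ l, Y (act g (base n)) (act g (Pi.single l 1)) =
      ∑ k, star (g.toMatrix k l) * Y (act g (base n)) (Pi.single k 1) := by
    intro g l
    rw [bc_Y_exp (hadd _) (hs _)]
    exact Finset.sum_congr rfl fun k _ => by rw [hcol]
  set Ψ : SUGroup n → ℂ := fun g => ∑ k, star (g.toMatrix k j.castSucc) *
    Y (act g (base n)) (Pi.single k 1) with hΨ
  set Ψ' : SUGroup n → ℂ := fun g => ∑ k, star (g.toMatrix k j.castSucc) *
      fderiv ℝ (fun v => Y v (Pi.single k 1)) (act g (base n)) (act g (vec ξ)) with hΨ'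
  have c0 : Continuous Ψ := continuous_finsetSum _ fun k _ => (hent k _).star.mul (hYc _)
  have c1 : Continuous Ψ' := continuous_finsetSum _ fun k _ =>
    (hent k _).star.mul (dn_cont_D hY1 _ _)
  have hinv : ∀ γ ∈ Γ, ∀ g, Ψ (γ * g) = Ψ g := by
    intro γ hγ g
    show ∑ k, star ((γ * g).toMatrix k j.castSucc) * Y (act (γ * g) (base n)) (Pi.single k 1) =
      ∑ k, star (g.toMatrix k j.castSucc) * Y (act g (base n)) (Pi.single k 1)
    rw [← hPsi, ← hPsi, act_mul, act_mul]
    exact hi γ hγ _ (orbit_mem g) _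
  have hder : ∀ g t, HasDerivAt (fun t => Ψ (g * b t)) (Ψ' (g * b t)) t := by
    intro g t
    have h1 : ∀ k, HasDerivAt (fun t => star ((g * b t).toMatrix k j.castSucc) *
        Y (act (g * b t) (base n)) (Pi.single k 1))
        (ξ j * star ((g * b t).toMatrix k (Fin.last n)) *
          Y (act (g * b t) (base n)) (Pi.single k 1) +
          star ((g * b t).toMatrix k j.castSucc) *
            fderiv ℝ (fun v => Y v (Pi.single k 1)) (act (g * b t) (base n))
              (act (g * b t) (vec ξ))) t := by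
      intro k
      have hd : DifferentiableAt ℝ (fun v => Y v (Pi.single k 1)) (act (g * b t) (base n)) :=
        ((hY1 _).contDiffAt ((isOpen_cone n).mem_nhds (orbit_mem _))).differentiableAt
          (by norm_num)
      exact (bc_hasDerivAt_ent hbd g k j t).mul (hasDerivAt_flow hbd g t hd)
    have h2 := HasDerivAt.fun_sum fun k (_ : k ∈ Finset.univ) => h1 k
    rw [Finset.sum_add_distrib] at h2
    have h3 : ∑ k, ξ j * star ((g * b t).toMatrix k (Fin.last n)) *
          Y (act (g * b t) (base n)) (Pi.single k 1) = 0 := by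
      have h4 := hPsi (g * b t) (Fin.last n)
      have h5 : Y (act (g * b t) (base n)) (act (g * b t) (Pi.single (Fin.last n) 1)) = 0 :=
        hY0 _ (orbit_mem _)
      rw [h5] at h4
      calc _ = ξ j * ∑ k, star ((g * b t).toMatrix k (Fin.last n)) *
          Y (act (g * b t) (base n)) (Pi.single k 1) := by
            rw [Finset.mul_sum]
            exact Finset.sum_congr rfl fun k _ => by ring
        _ = 0 := by rw [← h4, mul_zero]
    rw [h3, zero_add] at h2
    exact h2
  have o0 : Off Γ Q Ψ := by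
    intro g hg
    by_contra hc
    refine hg (Finset.sum_eq_zero fun k _ => ?_)
    have h1 := (ho g hc (Pi.single k 1)).eq_of_nhds
    rw [h1, mul_zero]
  have o1 : Off Γ Q Ψ' := by
    intro g hg
    by_contra hc
    refine hg (Finset.sum_eq_zero fun k _ => ?_)
    have h1 := (ho g hc (Pi.single k 1)).fderiv_eq (𝕜 := ℝ)
    rw [h1, fderiv_fun_const]
    simp
  exact ⟨II_flow_off h hb0 hQ c0 c1 hder hinv o0 o1,
    h.integrable_smul c1.aestronglyMeasurable (o1.bdd hQ c1 (inv_of_flow hb0 hder hinv))⟩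

end

/-- The divergence theorem, with integrability. -/
theorem II_divN_int (h : Lat Γ χ) {Q : Set (SUGroup n)} (hQ : IsCompact Q)
    {Y : Vec n → Vec n → ℂ} (hadd : ∀ v a b, Y v (a + b) = Y v a + Y v b)
    (hs : ∀ (v : Vec n) (r : ℂ) a, Y v (r • a) = star r * Y v a)
    (hY1 : ∀ a, ContDiffOn ℝ 1 (fun v => Y v a) (Cone n)) (hY0 : ∀ v ∈ Cone n, Y v v = 0)
    (hh : ∀ c : ℂ, c ≠ 0 → ∀ v ∈ Cone n, ∀ a, Y (c • v) (c • a) = Y v a)
    (hi : ∀ γ ∈ Γ, ∀ v ∈ Cone n, ∀ a, Y (act γ v) (act γ a) = Y v a)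
    (ho : ∀ g : SUGroup n, (¬ ∃ γ ∈ Γ, γ * g ∈ Q) → ∀ a,
      (fun v => Y v a) =ᶠ[𝓝 (act g (base n))] fun _ => 0) :
    II χ (fun g => ∑ c : Fin (n + 1), J n c c *
      dzc (fun w => Y w (Pi.single c 1)) (act g (base n)) (Pi.single c 1)) = 0 ∧
    Integrable (fun g => χ g • ∑ c : Fin (n + 1), J n c c *
      dzc (fun w => Y w (Pi.single c 1)) (act g (base n)) (Pi.single c 1)) (mu n) := by
  have hcol : ∀ (g : SUGroup n) (l k : Fin (n + 1)), act g (Pi.single l 1) k = g.toMatrix k l := by
    intro g l k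
    rw [act, Matrix.mulVec_single_one, Matrix.col_apply]
  set D : Fin n → (Fin n → ℂ) → SUGroup n → ℂ := fun j ξ g =>
    ∑ k, star (g.toMatrix k j.castSucc) *
      fderiv ℝ (fun v => Y v (Pi.single k 1)) (act g (base n)) (act g (vec ξ)) with hD
  have key : ∀ g : SUGroup n, ∑ c : Fin (n + 1), J n c c *
      dzc (fun w => Y w (Pi.single c 1)) (act g (base n)) (Pi.single c 1) =
      ∑ j : Fin n, ((1 / 2 : ℂ) * D j (Pi.single j 1) g +
        (-(1 / 2 : ℂ) * Complex.I) * D j (Pi.single j Complex.I) g) := by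
    intro g
    have hd : ∀ k : Fin (n + 1), DifferentiableAt ℝ (fun v => Y v (Pi.single k 1))
        (act g (base n)) := fun k =>
      ((hY1 _).contDiffAt ((isOpen_cone n).mem_nhds (orbit_mem _))).differentiableAt (by norm_num)
    have h1 := sum_J_sesq (n := n) (fun a c => ∑ k, star (c k) *
        dzc (fun w => Y w (Pi.single k 1)) (act g (base n)) a)
      (fun a b c => by
        rw [← Finset.sum_add_distrib]
        exact Finset.sum_congr rfl fun k _ => by rw [bc_dzc_add]; ring)
      (fun a b c => by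
        rw [← Finset.sum_add_distrib]
        exact Finset.sum_congr rfl fun k _ => by rw [Pi.add_apply, star_add]; ring)
      (fun r a c => by
        rw [Finset.mul_sum]
        exact Finset.sum_congr rfl fun k _ => by rw [bc_dzc_smul]; ring)
      (fun r a c => by
        rw [Finset.mul_sum]
        exact Finset.sum_congr rfl fun k _ => by
          rw [Pi.smul_apply, smul_eq_mul, star_mul']; ring) g (by
        refine Finset.sum_eq_zero fun k _ => ?_
        rw [bc_dzc_radial (hd k) ?_, mul_zero]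
        intro c hc
        rw [← hs, hh c hc _ (orbit_mem g)])
    have h2 : ∀ c : Fin (n + 1), ∑ k, star ((Pi.single c 1 : Vec n) k) *
        dzc (fun w => Y w (Pi.single k 1)) (act g (base n)) (Pi.single c 1) =
        dzc (fun w => Y w (Pi.single c 1)) (act g (base n)) (Pi.single c 1) := by
      intro c
      rw [Finset.sum_eq_single c]
      · rw [Pi.single_eq_same, star_one, one_mul]
      · intro k _ hk
        rw [Pi.single_eq_of_ne hk, star_zero, zero_mul]
      · intro h
        exact absurd (Finset.mem_univ c) h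
    simp only [h2] at h1
    rw [h1]
    refine Finset.sum_congr rfl fun j _ => ?_
    rw [hD]
    simp only
    rw [Finset.mul_sum, Finset.mul_sum, ← Finset.sum_add_distrib]
    refine Finset.sum_congr rfl fun k _ => ?_
    rw [hcol, vec_single, vec_single, dzc]
    have h3 : Complex.I • act g (Pi.single j.castSucc 1) =
        act g (Pi.single j.castSucc Complex.I) := by
      rw [← act_smul, ← Pi.single_smul, smul_eq_mul, mul_one]
    rw [h3]
    ring
  have h0 : ∀ (j : Fin n) (c : ℂ), ‖c‖ = 1 → II χ (D j (Pi.single j c)) = 0 ∧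
      Integrable (fun g => χ g • D j (Pi.single j c) g) (mu n) := fun j c hc =>
    II_oneN h hQ hadd hs hY1 hY0 hi ho j (sum_single_sq j hc)
  have hint : ∀ (j : Fin n) (c a : ℂ), ‖c‖ = 1 →
      Integrable (fun g => χ g • (a * D j (Pi.single j c) g)) (mu n) := by
    intro j c a hc
    have h1 := (h0 j c hc).2.const_mul a
    refine h1.congr (Filter.Eventually.of_forall fun g => ?_)
    simp only [Complex.real_smul]
    ring
  have hj : ∀ j : Fin n, Integrable (fun g => χ g • ((1 / 2 : ℂ) * D j (Pi.single j 1) g +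
      (-(1 / 2 : ℂ) * Complex.I) * D j (Pi.single j Complex.I) g)) (mu n) := by
    intro j
    have h1 := (hint j 1 (1 / 2 : ℂ) (by simp)).add (hint j Complex.I (-(1 / 2 : ℂ) * Complex.I)
      (by simp))
    refine h1.congr (Filter.Eventually.of_forall fun g => ?_)
    simp only [Pi.add_apply, smul_add]
  refine ⟨?_, ?_⟩
  · rw [II_congr key, II_sum_int]
    · refine Finset.sum_eq_zero fun j _ => ?_
      rw [II_add_int (hint j 1 _ (by simp)) (hint j Complex.I _ (by simp)), bc_II_smul,
        bc_II_smul, (h0 j 1 (by simp)).1, (h0 j Complex.I (by simp)).1, mul_zero, mul_zero,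
        add_zero]
    · exact fun j _ => hj j
  · refine (integrable_finsetSum Finset.univ fun j _ => hj j).congr
      (Filter.Eventually.of_forall fun g => ?_)
    show ∑ j : Fin n, χ g • _ = χ g • _
    rw [key g, Finset.smul_sum]

/-- The divergence theorem. -/
theorem II_divN (h : Lat Γ χ) {Q : Set (SUGroup n)} (hQ : IsCompact Q)
    {Y : Vec n → Vec n → ℂ} (hadd : ∀ v a b, Y v (a + b) = Y v a + Y v b)
    (hs : ∀ (v : Vec n) (r : ℂ) a, Y v (r • a) = star r * Y v a)
    (hY1 : ∀ a, ContDiffOn ℝ 1 (fun v => Y v a) (Cone n)) (hY0 : ∀ v ∈ Cone n, Y v v = 0)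
    (hh : ∀ c : ℂ, c ≠ 0 → ∀ v ∈ Cone n, ∀ a, Y (c • v) (c • a) = Y v a)
    (hi : ∀ γ ∈ Γ, ∀ v ∈ Cone n, ∀ a, Y (act γ v) (act γ a) = Y v a)
    (ho : ∀ g : SUGroup n, (¬ ∃ γ ∈ Γ, γ * g ∈ Q) → ∀ a,
      (fun v => Y v a) =ᶠ[𝓝 (act g (base n))] fun _ => 0) :
    II χ (fun g => ∑ c : Fin (n + 1), J n c c *
      dzc (fun w => Y w (Pi.single c 1)) (act g (base n)) (Pi.single c 1)) = 0 :=
  (II_divN_int h hQ hadd hs hY1 hY0 hh hi ho).1

end Pool.Agent.Lib.MP_5d4057_al.NU
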