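import Pool.Agent.Lib.MP_5d4057_al.NU.Thm
import Pool.Agent.Lib.MP_5d4057_al.HM.AppOne

/-! The invariant form (blueprint h37_nu, F1, F2). -/

namespace Pool.Agent.Lib.MP_5d4057_al.NU

open Matrix MeasureTheory Filter Topology Pool.Agent.Lib.MP_5d4057_al
  Pool.Agent.Lib.MP_5d4057_al.Hyb Pool.Agent.Lib.MP_5d4057_al.HM

open scoped ComplexOrder MatrixOrder Matrix.Norms.L2Operator ENNReal

variable {n m j k : ℕ}

/-- F1. The first part of the proof of `HM.key_lt` with the metric `F` as a hypothesis: `F (hyp (g b) w) = Q_b (l_b ⊕ a_b Z_b) Q_bᴴ` is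
constant on both hyperplanes; the value `N` at the common base point is invariant under `t (g_b (1 ⊕ Γ_b) g_b⁻¹)` for `b = 0, 1`
(`hinv`), hence under the image of the hybrid, which these generate. -/
theorem key_inv (U : ThmU) (Γ : Fin 2 → Subgroup (SUGroup (k + 1)))
    (g : Fin 2 → SUGroup (k + 2)) (hcocb : ∀ b, Coc (Γ b))
    (hspanb : ∀ b, Submodule.span ℂ (SUGroup.toMatrix '' (Γ b : Set (SUGroup (k + 1)))) = ⊤)
    {K : Subfield ℂ} {D : Matrix (Fin (k + 1)) (Fin (k + 1)) ℂ}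
    {HD : Matrix (Fin (k + 1)) (Fin (k + 1)) K} {μ : Fin 2 → ℂ} {q : Fin 2 → K} (hcm : IsCM K)
    (hn : IsNF k K D HD μ q) (hrat : ∀ b, ∀ γ ∈ Γ b, EntriesIn K (dsum (μ b) D) γ.toMatrix)
    {X : Matrix (Fin 2) (Fin 2) ℂ} {ζ : ℂ} (hζ : star ζ * ζ = 1)
    (hg : (g 1).toMatrix = (g 0).toMatrix * (ζ • bsum X 1))
    (t : ℂ ≃+* ℂ) (ht : ¬ ∀ x : K, t (x : ℂ) = x)
    (ht' : ¬ ∀ x : K, t (x : ℂ) = (starRingEnd ℂ) (x : ℂ))
    {F : Vec (k + 2) → Mat (k + 3)} (hF : Harm F) (hFe : Equi (rhoT t (hybrid Γ g)) F) :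
    ∃ N : Mat (k + 3), N.PosDef ∧ ∀ γ : hybrid Γ g,
      rhoT t (hybrid Γ g) γ * N * (rhoT t (hybrid Γ g) γ)ᴴ = N := by
  set ρ := rhoT t (hybrid Γ g) with hρ
  -- definiteness
  set τ : K →+* ℂ := t.toRingHom.comp K.subtype with hτ
  have hτa : ∀ x : K, τ x = t (x : ℂ) := fun x => rfl
  obtain ⟨ε, hε, hεq, hεD⟩ : ∃ ε : ℂ, ε ≠ 0 ∧ (∀ b, 0 < ε * τ (q b)) ∧ (ε • HD.map τ).PosDef := by
    have h0 := hn.definite 0 τ
    have h1 := hn.definite 1 τ
    have hneg : ∀ b, (-(dsum (τ (q b)) (HD.map τ))).PosDef →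
        0 < -1 * τ (q b) ∧ ((-1 : ℂ) • HD.map τ).PosDef := by
      intro b hb
      have h2 : -(dsum (τ (q b)) (HD.map τ)) = dsum (-1 * τ (q b)) ((-1 : ℂ) • HD.map τ) := by
        rw [← smul_dsum, neg_one_smul]
      rw [h2] at hb
      exact posDef_of_dsum' hb
    have hno : (HD.map τ).PosDef → ((-1 : ℂ) • HD.map τ).PosDef → False := by
      intro h2 h3
      have a1 : 0 < (HD.map τ) 0 0 := h2.diag_pos
      have a2 : 0 < -1 * (HD.map τ) 0 0 := by simpa using h3.diag_pos (i := 0)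
      rw [neg_one_mul] at a2
      exact absurd a1 (lt_asymm (neg_pos.1 a2))
    rcases h0 with h0 | h0 | h0 | h0
    · exact absurd h0 ht
    · exact absurd h0 ht'
    · obtain ⟨p0, pD⟩ := posDef_of_dsum' h0
      rcases h1 with h1 | h1 | h1 | h1
      · exact absurd h1 ht
      · exact absurd h1 ht'
      · obtain ⟨p1, -⟩ := posDef_of_dsum' h1
        refine ⟨1, one_ne_zero, ?_, by rw [one_smul]; exact pD⟩
        rw [Fin.forall_fin_two, one_mul, one_mul]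
        exact ⟨p0, p1⟩
      · exact (hno pD (hneg 1 h1).2).elim
    · obtain ⟨p0, pD⟩ := hneg 0 h0
      rcases h1 with h1 | h1 | h1 | h1
      · exact absurd h1 ht
      · exact absurd h1 ht'
      · obtain ⟨-, pD'⟩ := posDef_of_dsum' h1
        exact (hno pD' pD).elim
      · obtain ⟨p1, -⟩ := hneg 1 h1
        refine ⟨-1, by norm_num, ?_, pD⟩
        rw [Fin.forall_fin_two]
        exact ⟨p0, p1⟩
  -- the invariant metrics
  have hTD : IsUnit (D.map t) := tm_unit t hn.det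
  set tD : Matrix (Fin (k + 1)) (Fin (k + 1)) ℂ := D.map t with htD
  set Z' : Matrix (Fin (k + 1)) (Fin (k + 1)) ℂ := tD * (ε • HD.map τ)⁻¹ * tDᴴ with hZ'
  have hZ'pos : Z'.PosDef :=
    hεD.inv.mul_mul_conjTranspose_same (Matrix.vecMul_injective_of_isUnit hTD)
  have hμ : ∀ b, t (μ b) ≠ 0 := fun b => (map_ne_zero t).2 (hn.μ_ne b)
  set z : Fin 2 → ℂ := fun b => t (μ b) * (ε * τ (q b))⁻¹ * star (t (μ b)) with hz
  have hzpos : ∀ b, 0 < z b := by
    intro b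
    have h1 : z b = (star (t (μ b)) * t (μ b)) * (ε * τ (q b))⁻¹ := by rw [hz]; ring
    rw [h1]
    exact mul_pos (pos_star_mul (hμ b)) (pos_inv (hεq b))
  have hZb : ∀ b, dsum (z b) Z' = (dsum (μ b) D).map t * (ε • dsum (τ (q b)) (HD.map τ))⁻¹ *
      ((dsum (μ b) D).map t)ᴴ := by
    intro b
    rw [tm_dsum, smul_dsum, dsum_inv' (hεq b).ne' hεD.isUnit, dsum_conjTranspose, dsum_mul, dsum_mul]
  have hinv : ∀ b, ∀ γ : Γ b, rhoT t (Γ b) γ * dsum (z b) Z' * (rhoT t (Γ b) γ)ᴴ =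
      dsum (z b) Z' := by
    intro b γ
    have hf := isForm_of_nf hcm hn b
    obtain ⟨G, hG1, -, hG2⟩ := exists_rat hf (γ : SUGroup (k + 1)) (hrat b γ γ.2)
    have hG := hG2 τ
    rw [dsum_map _ _ _ (map_zero τ)] at hG
    have hBd := isUnit_iff_ne_zero.2 hf.det
    set B := dsum (μ b) D with hB
    set tB := B.map t with htB
    have htBu : IsUnit tB := tm_unit t hf.det
    have htBd := (isUnit_iff_isUnit_det _).1 htBu
    set Gt := G.map τ with hGt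
    have h1 : rhoT t (Γ b) γ = tB * Gt * tB⁻¹ := by
      have h2 : (γ : SUGroup (k + 1)).toMatrix = B * G.map (fun x : K => (x : ℂ)) * B⁻¹ := by
        rw [hG1]
        calc (γ : SUGroup (k + 1)).toMatrix = (B * B⁻¹) * (γ : SUGroup (k + 1)).toMatrix *
              (B * B⁻¹) := by rw [mul_nonsing_inv _ hBd, Matrix.one_mul, Matrix.mul_one]
          _ = _ := by simp only [Matrix.mul_assoc]
      rw [rhoT_apply, h2, tm_mul, tm_mul, ← tm_inv t hf.det]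
      rfl
    set P := ε • dsum (τ (q b)) (HD.map τ) with hP
    have hPu : IsUnit P := by
      rw [hP, smul_dsum]
      exact (posDef_dsum (hεq b) hεD).isUnit
    have hPd := (isUnit_iff_isUnit_det _).1 hPu
    have h3 : Gtᴴ * P * Gt = P := by
      rw [hP, Matrix.mul_smul, Matrix.smul_mul, hG]
    have h4 : Gt * P⁻¹ * Gtᴴ = P⁻¹ := by
      have h5 : (P⁻¹ * Gtᴴ * P) * Gt = 1 := by
        calc (P⁻¹ * Gtᴴ * P) * Gt = P⁻¹ * (Gtᴴ * P * Gt) := by simp only [Matrix.mul_assoc]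
          _ = 1 := by rw [h3, nonsing_inv_mul _ hPd]
      have h6 : Gt * (P⁻¹ * Gtᴴ * P) = 1 := mul_eq_one_comm.1 h5
      calc Gt * P⁻¹ * Gtᴴ = Gt * (P⁻¹ * Gtᴴ * P) * P⁻¹ := by
            simp only [Matrix.mul_assoc]
            rw [mul_nonsing_inv _ hPd, Matrix.mul_one]
        _ = P⁻¹ := by rw [h6, Matrix.one_mul]
    rw [hZb b, ← hB, ← htB, ← hP, h1]
    have e1 : tB⁻¹ * tB = 1 := nonsing_inv_mul _ htBd
    have e2 : tBᴴ * (tB⁻¹)ᴴ = 1 := by rw [← conjTranspose_mul, e1, conjTranspose_one]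
    calc tB * Gt * tB⁻¹ * (tB * P⁻¹ * tBᴴ) * (tB * Gt * tB⁻¹)ᴴ
        = tB * Gt * (tB⁻¹ * tB) * P⁻¹ * (tBᴴ * (tB⁻¹)ᴴ) * Gtᴴ * tBᴴ := by
          rw [conjTranspose_mul, conjTranspose_mul]
          simp only [Matrix.mul_assoc]
      _ = tB * (Gt * P⁻¹ * Gtᴴ) * tBᴴ := by
          rw [e1, e2]
          simp only [Matrix.mul_assoc, Matrix.mul_one]
      _ = _ := by rw [h4]
  -- the metric on the hyperplanes
  have hsl : ∀ b, ∃ l a : ℂ, 0 < l ∧ 0 < a ∧ ∀ w ∈ Cone (k + 1), F (HM.hyp (g b) w) =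
      (g b).toMatrix.map t * dsum l (a • dsum (z b) Z') * ((g b).toMatrix.map t)ᴴ := by
    intro b
    refine slice_form U (by omega) (hcocb b) (rhoT t (Γ b)) (span_rhoT t _ (hspanb b))
      (harm_const (posDef_dsum (hzpos b) hZ'pos)) ?_ (tm_gp_unit t (g b)) (hF.hyp (g b))
      (ρ.comp (embHyb Γ g b)) (rhoT_emb t Γ g b) (hFe.hyp b)
    intro γ w _
    exact (hinv b γ).symm
  choose l a hl ha hFb using hsl
  -- the common value
  have hN1 : F (HM.hyp (g 1) (base (k + 1))) = F (HM.hyp (g 0) (base (k + 1))) := hyp_agree hζ hg hF.hom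
  set N : Mat (k + 3) := F (HM.hyp (g 0) (base (k + 1))) with hN
  refine ⟨N, hF.pos _ (hyp_mem (g 0) (base_mem _)), ?_⟩
  have hNb : ∀ b, F (HM.hyp (g b) (base (k + 1))) = N := by
    rw [Fin.forall_fin_two]
    exact ⟨rfl, hN1⟩
  have hgen : ∀ b, ∀ γ : Γ b, ρ (embHyb Γ g b γ) * N * (ρ (embHyb Γ g b γ))ᴴ = N := by
    intro b γ
    have h1 := (hFe.hyp b) γ (base (k + 1)) (base_mem _)
    have h2 := hFb b (act (γ : SUGroup (k + 1)) (base (k + 1))) (act_mem _ (base_mem _))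
    have h3 := hFb b (base (k + 1)) (base_mem _)
    have h4 : F (HM.hyp (g b) (act (γ : SUGroup (k + 1)) (base (k + 1)))) = N := by
      rw [h2, ← h3, hNb b]
    change F (HM.hyp (g b) (act (γ : SUGroup (k + 1)) (base (k + 1)))) =
      ρ (embHyb Γ g b γ) * F (HM.hyp (g b) (base (k + 1))) * (ρ (embHyb Γ g b γ))ᴴ at h1
    rw [h4, hNb b] at h1
    exact h1.symm
  have hone : ρ 1 * N * (ρ 1)ᴴ = N := by
    rw [map_one, conjTranspose_one, Matrix.one_mul, Matrix.mul_one]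
  have hmul : ∀ x y : hybrid Γ g, ρ x * N * (ρ x)ᴴ = N → ρ y * N * (ρ y)ᴴ = N →
      ρ (x * y) * N * (ρ (x * y))ᴴ = N := by
    intro x y hx hy
    rw [map_mul, conjTranspose_mul]
    calc ρ x * ρ y * N * ((ρ y)ᴴ * (ρ x)ᴴ) = ρ x * (ρ y * N * (ρ y)ᴴ) * (ρ x)ᴴ := by
          simp only [Matrix.mul_assoc]
      _ = N := by rw [hy, hx]
  have hinvN : ∀ x : hybrid Γ g, ρ x * N * (ρ x)ᴴ = N → ρ x⁻¹ * N * (ρ x⁻¹)ᴴ = N := by
    intro x hx
    have h1 : ρ x⁻¹ * ρ x = 1 := by rw [← map_mul, inv_mul_cancel, map_one]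
    have h2 : (ρ x)ᴴ * (ρ x⁻¹)ᴴ = 1 := by rw [← conjTranspose_mul, h1, conjTranspose_one]
    calc ρ x⁻¹ * N * (ρ x⁻¹)ᴴ = ρ x⁻¹ * (ρ x * N * (ρ x)ᴴ) * (ρ x⁻¹)ᴴ := by rw [hx]
      _ = (ρ x⁻¹ * ρ x) * N * ((ρ x)ᴴ * (ρ x⁻¹)ᴴ) := by simp only [Matrix.mul_assoc]
      _ = N := by rw [h1, h2, Matrix.one_mul, Matrix.mul_one]
  let S : Subgroup (hybrid Γ g) :=
    { carrier := {x | ρ x * N * (ρ x)ᴴ = N}
      mul_mem' := fun {x y} hx hy => hmul x y hx hy
      one_mem' := hone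
      inv_mem' := fun {x} hx => hinvN x hx }
  have hall : hybrid Γ g ≤ S.map (hybrid Γ g).subtype := by
    unfold hybrid
    rw [Subgroup.closure_le]
    rintro x ⟨b, γ, hγ, rfl⟩
    exact ⟨embHyb Γ g b ⟨γ, hγ⟩, hgen b ⟨γ, hγ⟩, rfl⟩
  intro γ
  obtain ⟨x, hx, hxγ⟩ := hall γ.2
  have h1 : x = γ := Subtype.ext hxγ
  rw [← h1]
  exact hx

/-- F2. A matrix preserving a positive definite form is diagonalisable: if `(U - c)² x = 0` then `(U - c) x = 0`. -/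
theorem semisimple {U N : Mat m} (hN : N.PosDef) (h : U * N * Uᴴ = N) (c : ℂ)
    (x : Fin m → ℂ) (hx : (U - c • 1) *ᵥ ((U - c • 1) *ᵥ x) = 0) : (U - c • 1) *ᵥ x = 0 := by
  have hNu : IsUnit N.det := (isUnit_iff_isUnit_det _).1 hN.isUnit
  have hUd : IsUnit U.det := by
    have h1 := congrArg Matrix.det h
    rw [det_mul, det_mul] at h1
    rw [isUnit_iff_ne_zero]
    intro h0
    rw [h0, zero_mul, zero_mul] at h1
    exact hNu.ne_zero h1.symm
  -- the preserved form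
  have hP : Uᴴ * N⁻¹ * U = N⁻¹ := by
    have h1 : (U * N * Uᴴ)⁻¹ = N⁻¹ := by rw [h]
    rw [Matrix.mul_inv_rev, Matrix.mul_inv_rev] at h1
    have hUH : IsUnit (Uᴴ).det := by rw [det_conjTranspose]; exact hUd.star
    calc Uᴴ * N⁻¹ * U = Uᴴ * ((Uᴴ)⁻¹ * (N⁻¹ * U⁻¹)) * U := by rw [h1]
      _ = (Uᴴ * (Uᴴ)⁻¹) * N⁻¹ * (U⁻¹ * U) := by simp only [Matrix.mul_assoc]
      _ = N⁻¹ := by
          rw [mul_nonsing_inv _ hUH, nonsing_inv_mul _ hUd, Matrix.one_mul, Matrix.mul_one]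
  set y := (U - c • 1) *ᵥ x with hy
  have hUx : U *ᵥ x = c • x + y := by
    rw [hy, sub_mulVec, smul_mulVec, one_mulVec]
    abel
  have hUy : U *ᵥ y = c • y := by
    have h1 : U *ᵥ y - c • y = 0 := by
      rw [← hx, sub_mulVec, smul_mulVec, one_mulVec]
    exact sub_eq_zero.1 h1
  have hform : ∀ a b : Fin m → ℂ, star (U *ᵥ a) ⬝ᵥ N⁻¹ *ᵥ (U *ᵥ b) = star a ⬝ᵥ N⁻¹ *ᵥ b := by
    intro a b
    rw [star_mulVec, mulVec_mulVec, ← dotProduct_mulVec, mulVec_mulVec, ← Matrix.mul_assoc, hP]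
  by_contra hne
  have hpos : 0 < star y ⬝ᵥ N⁻¹ *ᵥ y := hN.inv.dotProduct_mulVec_pos hne
  have e1 := hform y y
  rw [hUy, star_smul, mulVec_smul, smul_dotProduct, dotProduct_smul, smul_eq_mul, smul_eq_mul] at e1
  have hc : star c * c = 1 := by
    have h2 : (star c * c - 1) * (star y ⬝ᵥ N⁻¹ *ᵥ y) = 0 := by linear_combination e1
    rcases mul_eq_zero.1 h2 with h3 | h3
    · exact sub_eq_zero.1 h3
    · exact absurd h3 hpos.ne'
  have e2 := hform x y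
  rw [hUx, hUy, star_add, star_smul, mulVec_smul, add_dotProduct, smul_dotProduct, dotProduct_smul,
    dotProduct_smul, smul_eq_mul, smul_eq_mul, smul_eq_mul] at e2
  have h4 : c * (star y ⬝ᵥ N⁻¹ *ᵥ y) = 0 := by
    linear_combination e2 - (star x ⬝ᵥ N⁻¹ *ᵥ y) * hc
  rcases mul_eq_zero.1 h4 with h5 | h5
  · rw [h5, mul_zero] at hc
    exact zero_ne_one hc
  · exact hpos.ne' h5

/-- F2 for field automorphisms. -/
theorem semisimple_map {U N : Mat m} (t : ℂ ≃+* ℂ) (hN : N.PosDef)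
    (h : U.map t * N * (U.map t)ᴴ = N) (c : ℂ) (x : Fin m → ℂ)
    (hx : (U - c • 1) *ᵥ ((U - c • 1) *ᵥ x) = 0) : (U - c • 1) *ᵥ x = 0 := by
  have key : ∀ v : Fin m → ℂ, (U.map t - t c • 1) *ᵥ (fun i => t (v i)) =
      fun i => t (((U - c • 1) *ᵥ v) i) := by
    intro v
    funext i
    simp only [mulVec, dotProduct, map_sum, map_mul, Matrix.sub_apply, Matrix.smul_apply,
      Matrix.map_apply, map_sub, smul_eq_mul, Matrix.one_apply]
    refine Finset.sum_congr rfl fun j _ => ?_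
    by_cases hij : i = j
    · simp [hij]
    · simp [hij]
  have h1 := semisimple hN h (t c) (fun i => t (x i)) (by
    rw [key, key, hx]
    funext i
    simp)
  rw [key] at h1
  funext i
  have h2 := congrFun h1 i
  simpa using h2

end Pool.Agent.Lib.MP_5d4057_al.NU
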