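import Pool.Agent.Lib.MP_5d4057_al.NU.ThmL
import Pool.Agent.Lib.MP_5d4057_al.NU.Key
import Pool.Agent.Lib.MP_5d4057_al.Hyb.FinalA
import Pool.Agent.Lib.MP_5d4057_al.HM.CocSub

/-! Transvections do not preserve a definite form; arithmetic lattices over a CM field of degree
greater than two are cocompact. -/

namespace Pool.Agent.Lib.MP_5d4057_al.NU

open Matrix MeasureTheory Filter Topology Pool.Agent.Lib.MP_5d4057_al
  Pool.Agent.Lib.MP_5d4057_al.Hyb Pool.Agent.Lib.MP_5d4057_al.HM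

open scoped ComplexOrder MatrixOrder Matrix.Norms.L2Operator ENNReal

variable {n m k : ℕ}

/-- A group containing a cocompact group is cocompact, if it is discrete. -/
theorem coc_up {Γ Γ' : Subgroup (SUGroup n)} (hle : Γ' ≤ Γ) (hd : DiscreteTopology Γ)
    (h : Coc Γ') : Coc Γ := by
  obtain ⟨F, hF, h1⟩ := h.cpt
  refine ⟨hd, F, hF, fun g => ?_⟩
  obtain ⟨γ, hγ, h2⟩ := h1 g
  exact ⟨γ, hle hγ, h2⟩

/-- The quotient by a cocompact group is compact. -/
theorem compactSpace_of_coc {Γ : Subgroup (SUGroup n)} (h : Coc Γ) :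
    CompactSpace (SUGroup n ⧸ Γ) := by
  obtain ⟨F, hF, h1⟩ := h.cpt
  have h2 : IsCompact ((fun x : SUGroup n => (x : SUGroup n ⧸ Γ)) '' F⁻¹) :=
    hF.inv.image QuotientGroup.continuous_mk
  refine ⟨?_⟩
  convert h2
  rw [eq_comm, Set.eq_univ_iff_forall]
  intro x
  obtain ⟨g, rfl⟩ := QuotientGroup.mk_surjective x
  obtain ⟨γ, hγ, h3⟩ := h1 g⁻¹
  refine ⟨(γ * g⁻¹)⁻¹, Set.inv_mem_inv.2 h3, ?_⟩
  show (((γ * g⁻¹)⁻¹ : SUGroup n) : SUGroup n ⧸ Γ) = (g : SUGroup n ⧸ Γ)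
  refine QuotientGroup.eq.2 ?_
  have e : (γ * g⁻¹)⁻¹⁻¹ * g = γ := by group
  rw [e]
  exact hγ

/-- A transvection is unipotent. -/
theorem IsTv.sq {γ : SUGroup n} {ξ : Fin n → ℂ} {κ : ℝ} (h : IsTv γ ξ κ) :
    (γ.toMatrix - 1) * (γ.toMatrix - 1) = 0 := by
  obtain ⟨h1, -, h3⟩ := h
  have h4 : hm n (pe ξ) (pe ξ) = 0 := by
    show herm (pe ξ) (pe ξ) = 0
    rw [herm_self, q_pe, h1, sub_self, Complex.ofReal_zero]
  rw [h3, add_sub_cancel_left, Matrix.smul_mul, Matrix.mul_smul, rk_mul, h4, zero_smul, smul_zero,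
    smul_zero]

/-- A unipotent matrix preserving a definite form is the identity. -/
theorem eq_one_of_inv {U N : Mat m} (hN : N.PosDef) (h : U * N * Uᴴ = N)
    (hU : (U - 1) * (U - 1) = 0) : U = 1 := by
  have h1 : ∀ x : Fin m → ℂ, (U - 1) *ᵥ x = 0 := by
    intro x
    have h2 := semisimple hN h 1 x
    rw [one_smul] at h2
    refine h2 ?_
    rw [mulVec_mulVec, hU, zero_mulVec]
  have h3 : U - 1 = 0 := by
    ext i j
    have h4 := congrFun (h1 (Pi.single j 1)) i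
    rw [mulVec_single_one] at h4
    exact h4
  exact sub_eq_zero.1 h3

theorem eq_one_of_inv' {U P : Mat m} (hP : P.PosDef) (h : Uᴴ * P * U = P)
    (hU : (U - 1) * (U - 1) = 0) : U = 1 := by
  have hPd : IsUnit P.det := (isUnit_iff_isUnit_det _).1 hP.isUnit
  refine eq_one_of_inv hP.inv ?_ hU
  have h5 : (P⁻¹ * Uᴴ * P) * U = 1 := by
    calc (P⁻¹ * Uᴴ * P) * U = P⁻¹ * (Uᴴ * P * U) := by simp only [Matrix.mul_assoc]
      _ = 1 := by rw [h, nonsing_inv_mul _ hPd]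
  have h6 : U * (P⁻¹ * Uᴴ * P) = 1 := mul_eq_one_comm.1 h5
  calc U * P⁻¹ * Uᴴ = U * (P⁻¹ * Uᴴ * P) * P⁻¹ := by
        simp only [Matrix.mul_assoc]
        rw [mul_nonsing_inv _ hPd, Matrix.mul_one]
    _ = P⁻¹ := by rw [h6, Matrix.one_mul]

/-- The image of a transvection under a field automorphism preserves no definite form. -/
theorem tv_not_inv {γ : SUGroup n} {ξ : Fin n → ℂ} {κ : ℝ} (h : IsTv γ ξ κ) (t : ℂ ≃+* ℂ)
    {N : Mat (n + 1)} (hN : N.PosDef)
    (h1 : γ.toMatrix.map t * N * (γ.toMatrix.map t)ᴴ = N) : False := by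
  have h2 : (γ.toMatrix.map t - 1) * (γ.toMatrix.map t - 1) = 0 := by
    have e : γ.toMatrix.map t - 1 = (γ.toMatrix - 1).map t := by
      rw [Matrix.map_sub t (map_sub t), Matrix.map_one t (map_zero t) (map_one t)]
    rw [e, ← Matrix.map_mul, h.sq, Matrix.map_zero t (map_zero t)]
  have h3 := eq_one_of_inv hN h1 h2
  apply h.ne_one
  apply toMatrix_injective
  ext i j
  have h4 := congrFun (congrFun h3 i) j
  rw [Matrix.map_apply] at h4
  apply t.injective
  rw [h4]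
  show (1 : Mat (n + 1)) i j = t ((1 : Mat (n + 1)) i j)
  rw [Matrix.one_apply]
  split_ifs
  · rw [map_one]
  · rw [map_zero]

/-- A transvection is not a matrix over `K` preserving a form with a definite conjugate. -/
theorem tv_not_rat {K : Subfield ℂ} {H : Matrix (Fin (n + 1)) (Fin (n + 1)) K}
    {B : Matrix (Fin (n + 1)) (Fin (n + 1)) ℂ} (hf : IsForm n K H B) (τ : K →+* ℂ)
    (h1 : ¬ ∀ x : K, τ x = x) (h2 : ¬ ∀ x : K, τ x = (starRingEnd ℂ) (x : ℂ))
    {γ : SUGroup n} (hr : EntriesIn K B γ.toMatrix) {ξ : Fin n → ℂ} {κ : ℝ}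
    (h : IsTv γ ξ κ) : False := by
  have hB : IsUnit B.det := isUnit_iff_ne_zero.2 hf.det
  obtain ⟨G, hG1, -, hG2⟩ := exists_rat hf γ hr
  have hG3 := hG2 τ
  have hsq : (G - 1) * (G - 1) = 0 := by
    have hinj : Function.Injective (K.subtype : K → ℂ) := Subtype.coe_injective
    apply Matrix.map_injective hinj
    have e : (G - 1).map K.subtype = B⁻¹ * (γ.toMatrix - 1) * B := by
      rw [Matrix.map_sub K.subtype (map_sub K.subtype), Matrix.map_one _ (map_zero _) (map_one _)]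
      have e2 : G.map K.subtype = B⁻¹ * γ.toMatrix * B := hG1
      rw [e2, Matrix.mul_sub, Matrix.sub_mul, Matrix.mul_one, Matrix.nonsing_inv_mul B hB]
    show ((G - 1) * (G - 1)).map K.subtype = (0 : Matrix _ _ K).map K.subtype
    rw [Matrix.map_mul, e, Matrix.map_zero _ (map_zero _)]
    calc B⁻¹ * (γ.toMatrix - 1) * B * (B⁻¹ * (γ.toMatrix - 1) * B)
        = B⁻¹ * ((γ.toMatrix - 1) * (B * B⁻¹) * (γ.toMatrix - 1)) * B := by
          simp only [Matrix.mul_assoc]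
      _ = 0 := by
          rw [Matrix.mul_nonsing_inv B hB, Matrix.mul_one, h.sq, Matrix.mul_zero, Matrix.zero_mul]
  have hsq' : (G.map τ - 1) * (G.map τ - 1) = 0 := by
    have e : G.map τ - 1 = (G - 1).map τ := by
      rw [Matrix.map_sub τ (map_sub τ), Matrix.map_one _ (map_zero _) (map_one _)]
    rw [e, ← Matrix.map_mul, hsq, Matrix.map_zero _ (map_zero _)]
  have hone : G.map τ = 1 := by
    rcases hf.definite τ with h3 | h3 | h3 | h3
    · exact absurd h3 h1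
    · exact absurd h3 h2
    · exact eq_one_of_inv' h3 hG3 hsq'
    · refine eq_one_of_inv' h3 ?_ hsq'
      rw [Matrix.mul_neg, Matrix.neg_mul, hG3]
  have hG : G = 1 := by
    ext i j
    have h4 := congrFun (congrFun hone i) j
    rw [Matrix.map_apply] at h4
    have h5 : G i j = (1 : Matrix (Fin (n + 1)) (Fin (n + 1)) K) i j := by
      apply τ.injective
      rw [h4, Matrix.one_apply, Matrix.one_apply]
      split_ifs
      · rw [map_one]
      · rw [map_zero]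
    rw [h5]
  apply h.ne_one
  apply toMatrix_injective
  have h6 : B⁻¹ * γ.toMatrix * B = 1 := by
    rw [← hG1, hG]
    exact Matrix.map_one _ rfl rfl
  calc γ.toMatrix = B * (B⁻¹ * γ.toMatrix * B) * B⁻¹ := by
        rw [← Matrix.mul_assoc, ← Matrix.mul_assoc, Matrix.mul_nonsing_inv B hB, Matrix.one_mul,
          Matrix.mul_assoc, Matrix.mul_nonsing_inv B hB, Matrix.mul_one]
    _ = 1 := by rw [h6, Matrix.mul_one, Matrix.mul_nonsing_inv B hB]

/-- A lattice with entries in a finitely generated ring is cocompact or every subgroup of finite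
index contains a transvection. -/
theorem coc_or_tv_of_fgg (hn : 2 ≤ n) {Γ Γ₁ : Subgroup (SUGroup n)} (hL : IsLattice Γ)
    (hf : FGG Γ) (hle₁ : Γ₁ ≤ Γ) (hfi₁ : Γ₁.relIndex Γ ≠ 0) :
    Coc Γ ∨ ∃ γ ∈ Γ₁, ∃ ξ κ, IsTv γ ξ κ := by
  obtain ⟨χ, hχ⟩ := exists_lat hL
  obtain ⟨χ₁, hχ₁⟩ := hχ.finite_index hle₁ hfi₁
  obtain ⟨Γ', hle, hfi, -, hTor⟩ := exists_tor (hf.mono hle₁)
  obtain ⟨χ', hχ'⟩ := hχ₁.finite_index hle hfi
  rcases coc_or_tv hn hχ' (tf_of_tor hχ'.disc hTor) hTor with h | ⟨γ, hγ, h⟩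
  · exact Or.inl (coc_up (hle.trans hle₁) hL.1 h)
  · exact Or.inr ⟨γ, hle hγ, h⟩

/-- An arithmetic lattice over a CM field of degree greater than two is cocompact. -/
theorem coc_of_isForm (hn : 2 ≤ n) {Γ : Subgroup (SUGroup n)} (hL : IsLattice Γ)
    {K : Subfield ℂ} {H : Matrix (Fin (n + 1)) (Fin (n + 1)) K}
    {B : Matrix (Fin (n + 1)) (Fin (n + 1)) ℂ} (hf : IsForm n K H B)
    (hc : Subgroup.Commensurable Γ (integralPoints n K B)) (τ : K →+* ℂ)
    (h1 : ¬ ∀ x : K, τ x = x) (h2 : ¬ ∀ x : K, τ x = (starRingEnd ℂ) (x : ℂ)) : Coc Γ := by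
  rcases coc_or_tv_of_fgg hn hL (fgg_of_commensurable hf hc)
    (inf_le_left : Γ ⊓ integralPoints n K B ≤ Γ) (by
      rw [Subgroup.inf_relIndex_left]
      exact hc.2) with h | ⟨γ, hγ, ξ, κ, h⟩
  · exact h
  · exact (tv_not_rat hf τ h1 h2 (fun i j => (hγ.2.1 i j).1) h).elim

/-- The trace field of a narrow arithmetic lattice in place of the field of the form. -/
theorem coc_of_arithmetic (hn : 2 ≤ n) {Γ : Subgroup (SUGroup n)} (hL : IsLattice Γ)
    (hA : IsArithmetic n Γ) (τ : traceField Γ →+* ℂ) (h1 : ¬ ∀ x : traceField Γ, τ x = x)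
    (h2 : ¬ ∀ x : traceField Γ, τ x = (starRingEnd ℂ) (x : ℂ)) : Coc Γ := by
  obtain ⟨K, H, B, hf, hr, hc⟩ := hA
  have e := traceField_eq hn Γ hL K H B hf hr
  subst e
  exact coc_of_isForm hn hL hf hc τ h1 h2

/-- A lattice with entries in a finitely generated ring whose image under a field automorphism
preserves a definite form is cocompact. -/
theorem coc_of_inv (hn : 2 ≤ n) {Γ : Subgroup (SUGroup n)} (hL : IsLattice Γ) (hf : FGG Γ)
    (t : ℂ ≃+* ℂ) {N : Mat (n + 1)} (hN : N.PosDef)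
    (h : ∀ γ : Γ, rhoT t Γ γ * N * (rhoT t Γ γ)ᴴ = N) : Coc Γ := by
  rcases coc_or_tv_of_fgg hn hL hf le_rfl (by
    rw [Subgroup.relIndex_self]
    exact one_ne_zero) with h1 | ⟨γ, hγ, ξ, κ, h1⟩
  · exact h1
  · exact (tv_not_inv h1 t hN (h ⟨γ, hγ⟩)).elim

end Pool.Agent.Lib.MP_5d4057_al.NU
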