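import Pool.Agent.Lib.MP_5d4057_al.HM.D2
import Pool.Agent.Lib.MP_5d4057_al.NU.Defs

/-!
Positive partitions of unity for lattices which need not be cocompact, and the `L²` norm over the
quotient.
-/

namespace Pool.Agent.Lib.MP_5d4057_al.NU.LG

open Matrix MeasureTheory Filter Topology Pool.Agent.Lib.MP_5d4057_al Pool.Agent.Lib.MP_5d4057_al.Hyb
open Pool.Agent.Lib.MP_5d4057_al.HM Pool.Agent.Lib.MP_5d4057_al.HM.DD

open scoped ComplexOrder MatrixOrder Matrix.Norms.L2Operator ENNReal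

variable {n m : ℕ} {Γ : Subgroup (SUGroup n)}

/-- A positive partition of unity for `Γ`, integrable (so the covolume is finite). -/
structure CutG (Γ : Subgroup (SUGroup n)) (χ : SUGroup n → ℝ) : Prop where
  cont : Continuous χ
  pos : ∀ g, 0 < χ g
  int : Integrable χ (mu n)
  sum : ∀ g, ∑' γ : Γ, χ (γ * g) = 1

theorem CutG.of_lat {χ : SUGroup n → ℝ} (h : Lat Γ χ) : CutG Γ χ := ⟨h.cont, h.pos, h.int, h.sum⟩

namespace CutG

variable {χ : SUGroup n → ℝ}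

theorem nonneg (hχ : CutG Γ χ) (g : SUGroup n) : 0 ≤ χ g := (hχ.pos g).le

theorem summable (hχ : CutG Γ χ) (g : SUGroup n) :
    Summable fun γ : Γ => χ ((γ : SUGroup n) * g) := by
  by_contra h
  have h1 := hχ.sum g
  rw [tsum_eq_zero_of_not_summable h] at h1
  exact zero_ne_one h1

theorem countable (hχ : CutG Γ χ) : Countable Γ := by
  have h := (hχ.summable 1).countable_support
  have h1 : Function.support (fun γ : Γ => χ ((γ : SUGroup n) * 1)) = Set.univ := by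
    ext γ
    simp only [Function.mem_support, Set.mem_univ, iff_true]
    exact (hχ.pos _).ne'
  rw [h1] at h
  exact Set.countable_univ_iff.1 h

theorem tsum_ofReal (hχ : CutG Γ χ) (g : SUGroup n) :
    ∑' γ : Γ, ENNReal.ofReal (χ ((γ : SUGroup n) * g)) = 1 := by
  rw [← ENNReal.ofReal_tsum_of_nonneg (fun γ => hχ.nonneg _) (hχ.summable g), hχ.sum g,
    ENNReal.ofReal_one]

theorem le_one (hχ : CutG Γ χ) (g : SUGroup n) : χ g ≤ 1 := by
  have h1 := (hχ.summable g).le_tsum (1 : Γ) fun γ _ => hχ.nonneg _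
  rw [hχ.sum g] at h1
  simpa using h1

theorem measurable (hχ : CutG Γ χ) : Measurable fun g => ENNReal.ofReal (χ g) :=
  hχ.cont.measurable.ennreal_ofReal

/-- Unfolding. -/
theorem lint_unfold (hχ : CutG Γ χ) {f : SUGroup n → ℝ≥0∞} (hf : AEMeasurable f (mu n)) :
    ∫⁻ y, f y ∂(mu n) =
      ∑' γ : Γ, ∫⁻ y, ENNReal.ofReal (χ y) * f ((γ : SUGroup n)⁻¹ * y) ∂(mu n) := by
  have := hχ.countable
  have h1 : ∀ y, f y = ∑' γ : Γ, ENNReal.ofReal (χ ((γ : SUGroup n) * y)) * f y := by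
    intro y
    rw [ENNReal.tsum_mul_right, hχ.tsum_ofReal, one_mul]
  have h2 : ∀ γ : Γ, AEMeasurable (fun y => ENNReal.ofReal (χ ((γ : SUGroup n) * y)) * f y) (mu n) := by
    intro γ
    have : Measurable fun y => ENNReal.ofReal (χ ((γ : SUGroup n) * y)) :=
      (hχ.cont.comp (continuous_const.mul continuous_id)).measurable.ennreal_ofReal
    exact this.aemeasurable.mul hf
  calc ∫⁻ y, f y ∂(mu n)
      = ∫⁻ y, ∑' γ : Γ, ENNReal.ofReal (χ ((γ : SUGroup n) * y)) * f y ∂(mu n) :=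
        lintegral_congr h1
    _ = ∑' γ : Γ, ∫⁻ y, ENNReal.ofReal (χ ((γ : SUGroup n) * y)) * f y ∂(mu n) :=
        lintegral_tsum (f := fun (γ : Γ) y => ENNReal.ofReal (χ ((γ : SUGroup n) * y)) * f y) h2
    _ = _ := by
        congr 1
        funext γ
        rw [← lintegral_mul_left_eq_self (μ := mu n)
          (fun y => ENNReal.ofReal (χ y) * f ((γ : SUGroup n)⁻¹ * y)) (γ : SUGroup n)]
        refine lintegral_congr fun y => ?_
        rw [inv_mul_cancel_left]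

/-- Unfolding for invariant functions. -/
theorem lint_unfold_inv (hχ : CutG Γ χ) {f : SUGroup n → ℝ≥0∞} (hf : AEMeasurable f (mu n))
    (hi : ∀ γ ∈ Γ, ∀ g, f (γ * g) = f g) {φ : SUGroup n → ℝ≥0∞} (hφ : AEMeasurable φ (mu n))
    {c : ℝ≥0∞} (hs : ∀ g, ∑' γ : Γ, φ ((γ : SUGroup n) * g) = c) :
    ∫⁻ y, φ y * f y ∂(mu n) = c * ∫⁻ y, ENNReal.ofReal (χ y) * f y ∂(mu n) := by
  have := hχ.countable
  have h0 := hχ.lint_unfold (f := fun y => φ y * f y) (hφ.mul hf)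
  rw [h0]
  have h1 : ∀ γ : Γ, ∫⁻ y, ENNReal.ofReal (χ y) * (φ ((γ : SUGroup n)⁻¹ * y) *
      f ((γ : SUGroup n)⁻¹ * y)) ∂(mu n) =
      ∫⁻ y, φ (((γ⁻¹ : Γ) : SUGroup n) * y) * (ENNReal.ofReal (χ y) * f y) ∂(mu n) := by
    intro γ
    refine lintegral_congr fun y => ?_
    rw [hi _ (Γ.inv_mem γ.2), Subgroup.coe_inv]
    ring
  have hφγ : ∀ γ : Γ, AEMeasurable (fun y => φ ((γ : SUGroup n) * y)) (mu n) := fun γ =>
    hφ.comp_quasiMeasurePreserving
      (measurePreserving_mul_left (mu n) (γ : SUGroup n)).quasiMeasurePreserving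
  simp only [h1]
  rw [← lintegral_tsum (f := fun (γ : Γ) y =>
    φ (((γ⁻¹ : Γ) : SUGroup n) * y) * (ENNReal.ofReal (χ y) * f y)) fun γ =>
    (hφγ _).mul (hχ.measurable.aemeasurable.mul hf)]
  rw [← lintegral_const_mul'' c (f := fun y => ENNReal.ofReal (χ y) * f y)
    (hχ.measurable.aemeasurable.mul hf)]
  refine lintegral_congr fun y => ?_
  rw [ENNReal.tsum_mul_right, ← hs y]
  congr 1
  exact (Equiv.inv Γ).tsum_eq fun γ : Γ => φ ((γ : SUGroup n) * y)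

/-- Invariance under right translations. -/
theorem lint_mul_right (hχ : CutG Γ χ) {f : SUGroup n → ℝ≥0∞} (hf : AEMeasurable f (mu n))
    (hi : ∀ γ ∈ Γ, ∀ g, f (γ * g) = f g) (a : SUGroup n) :
    ∫⁻ g, ENNReal.ofReal (χ g) * f (g * a) ∂(mu n) = ∫⁻ g, ENNReal.ofReal (χ g) * f g ∂(mu n) := by
  have h1 : ∫⁻ g, ENNReal.ofReal (χ g) * f (g * a) ∂(mu n) =
      ∫⁻ g, ENNReal.ofReal (χ (g * a⁻¹)) * f g ∂(mu n) := by
    rw [← lintegral_mul_right_eq_self (μ := mu n) (fun g => ENNReal.ofReal (χ (g * a⁻¹)) * f g) a]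
    simp
  have h2 := hχ.lint_unfold_inv hf hi (φ := fun g => ENNReal.ofReal (χ (g * a⁻¹))) (c := 1)
    ((hχ.cont.comp (continuous_mul_const a⁻¹)).measurable.ennreal_ofReal.aemeasurable) fun g => by
      simp only [mul_assoc]
      exact hχ.tsum_ofReal _
  rw [h1, h2, one_mul]

end CutG

section lone

variable {χ : SUGroup n → ℝ}

/-- Integrable over the quotient. -/
def L1 (χ f : SUGroup n → ℝ) : Prop :=
  AEStronglyMeasurable f (mu n) ∧ Integrable (fun g => χ g * f g) (mu n)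

/-- Square integrable over the quotient. -/
def L2 (χ f : SUGroup n → ℝ) : Prop :=
  AEStronglyMeasurable f (mu n) ∧ Integrable (fun g => χ g * f g ^ 2) (mu n)

theorem L1.add {f g : SUGroup n → ℝ} (hf : L1 χ f) (hg : L1 χ g) : L1 χ fun x => f x + g x :=
  ⟨hf.1.add hg.1, (hf.2.add hg.2).congr (ae_of_all _ fun x => by simp only [Pi.add_apply]; ring)⟩

theorem L1.const_mul {f : SUGroup n → ℝ} (c : ℝ) (hf : L1 χ f) : L1 χ fun x => c * f x :=
  ⟨hf.1.const_mul c, (hf.2.const_mul c).congr (ae_of_all _ fun x => by ring)⟩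

theorem L2.sq {f : SUGroup n → ℝ} (hf : L2 χ f) : L1 χ fun x => f x ^ 2 := ⟨hf.1.pow 2, hf.2⟩

theorem L2.mul (hχ : CutG Γ χ) {f g : SUGroup n → ℝ} (hf : L2 χ f) (hg : L2 χ g) :
    L1 χ fun x => f x * g x := by
  refine ⟨hf.1.mul hg.1, ?_⟩
  refine (hf.2.add hg.2).mono' (hχ.cont.aestronglyMeasurable.mul (hf.1.mul hg.1))
    (ae_of_all _ fun x => ?_)
  rw [Real.norm_eq_abs, abs_mul, abs_of_nonneg (hχ.nonneg x), Pi.add_apply, ← mul_add]
  refine mul_le_mul_of_nonneg_left ?_ (hχ.nonneg x)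
  rw [abs_le]
  constructor <;> nlinarith [sq_nonneg (f x + g x), sq_nonneg (f x - g x), sq_nonneg (f x),
    sq_nonneg (g x)]

theorem L2.const_mul {f : SUGroup n → ℝ} (c : ℝ) (hf : L2 χ f) : L2 χ fun x => c * f x :=
  ⟨hf.1.const_mul c, (hf.2.const_mul (c ^ 2)).congr (ae_of_all _ fun x => by ring)⟩

theorem L2.add (hχ : CutG Γ χ) {f g : SUGroup n → ℝ} (hf : L2 χ f) (hg : L2 χ g) :
    L2 χ fun x => f x + g x := by
  refine ⟨hf.1.add hg.1, ?_⟩
  have h := (hf.sq.add (((hf.mul hχ hg).const_mul 2).add hg.sq)).2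
  refine h.congr (ae_of_all _ fun x => ?_)
  beta_reduce
  ring

theorem L2.mono (hχ : CutG Γ χ) {f g : SUGroup n → ℝ} (hf : AEStronglyMeasurable f (mu n))
    (hg : L2 χ g) (h : ∀ x, |f x| ≤ g x) : L2 χ f := by
  refine ⟨hf, hg.2.mono' (hχ.cont.aestronglyMeasurable.mul (hf.pow 2)) (ae_of_all _ fun x => ?_)⟩
  rw [Real.norm_of_nonneg (mul_nonneg (hχ.nonneg x) (sq_nonneg _)), ← sq_abs (f x)]
  exact mul_le_mul_of_nonneg_left (pow_le_pow_left₀ (abs_nonneg _) (h x) 2) (hχ.nonneg x)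

theorem L2.const (hχ : CutG Γ χ) (c : ℝ) : L2 χ fun _ => c :=
  ⟨aestronglyMeasurable_const, hχ.int.mul_const _⟩

theorem L2.of_bound (hχ : CutG Γ χ) {f : SUGroup n → ℝ} (hf : AEStronglyMeasurable f (mu n))
    {c : ℝ} (h : ∀ x, |f x| ≤ c) : L2 χ f :=
  L2.mono hχ hf (L2.const hχ c) h

theorem L1.II_add {f g : SUGroup n → ℝ} (hf : L1 χ f) (hg : L1 χ g) :
    II χ (fun x => f x + g x) = II χ f + II χ g := by
  unfold II
  have h1 : Integrable (fun x => χ x • f x) (mu n) := hf.2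
  have h2 : Integrable (fun x => χ x • g x) (mu n) := hg.2
  rw [← integral_add h1 h2]
  simp only [smul_add]

theorem II_nonneg (hχ : CutG Γ χ) {f : SUGroup n → ℝ} (hf : ∀ g, 0 ≤ f g) : 0 ≤ II χ f :=
  integral_nonneg fun g => by
    simp only [smul_eq_mul]
    exact mul_nonneg (hχ.nonneg g) (hf g)

theorem II_mono (hχ : CutG Γ χ) {f g : SUGroup n → ℝ} (hf : L1 χ f) (hg : L1 χ g)
    (h : ∀ x, f x ≤ g x) : II χ f ≤ II χ g := by
  refine integral_mono (f := fun x => χ x • f x) (g := fun x => χ x • g x) hf.2 hg.2 fun x => ?_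
  exact mul_le_mul_of_nonneg_left (h x) (hχ.nonneg x)

theorem nm_sq (hχ : CutG Γ χ) (f : SUGroup n → ℝ) : nm χ f ^ 2 = II χ fun g => f g ^ 2 :=
  Real.sq_sqrt (II_nonneg hχ fun _ => sq_nonneg _)

/-- Cauchy-Schwarz. -/
theorem II_mul_le (hχ : CutG Γ χ) {f g : SUGroup n → ℝ} (hf : L2 χ f) (hg : L2 χ g) :
    II χ (fun x => f x * g x) ≤ nm χ f * nm χ g := by
  have key : ∀ t : ℝ, 0 ≤ nm χ f ^ 2 * (t * t) + 2 * II χ (fun x => f x * g x) * t + nm χ g ^ 2 := by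
    intro t
    have h1 : 0 ≤ II χ (fun x => (t * f x + g x) ^ 2) := II_nonneg hχ fun x => sq_nonneg _
    have h2 : (fun x => (t * f x + g x) ^ 2) =
        fun x => (t * t) * f x ^ 2 + (2 * t * (f x * g x) + g x ^ 2) := by
      funext x
      ring
    rw [h2, (hf.sq.const_mul _).II_add (((hf.mul hχ hg).const_mul _).add hg.sq),
      ((hf.mul hχ hg).const_mul _).II_add hg.sq, II_const_mul, II_const_mul, ← nm_sq hχ,
      ← nm_sq hχ] at h1
    linarith
  have h3 := discrim_le_zero key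
  rw [discrim] at h3
  have h4 : II χ (fun x => f x * g x) ^ 2 ≤ (nm χ f * nm χ g) ^ 2 := by nlinarith
  exact (abs_le_of_sq_le_sq' h4 (mul_nonneg (nm_nonneg _ _) (nm_nonneg _ _))).2

/-- Minkowski. -/
theorem nm_add_le (hχ : CutG Γ χ) {f g : SUGroup n → ℝ} (hf : L2 χ f) (hg : L2 χ g) :
    nm χ (fun x => f x + g x) ≤ nm χ f + nm χ g := by
  have h2 : (fun x => (f x + g x) ^ 2) = fun x => f x ^ 2 + (2 * (f x * g x) + g x ^ 2) := by
    funext x
    ring
  have h1 : nm χ (fun x => f x + g x) ^ 2 ≤ (nm χ f + nm χ g) ^ 2 := by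
    rw [nm_sq hχ, h2, hf.sq.II_add (((hf.mul hχ hg).const_mul _).add hg.sq),
      ((hf.mul hχ hg).const_mul _).II_add hg.sq, II_const_mul, ← nm_sq hχ, ← nm_sq hχ]
    have := II_mul_le hχ hf hg
    nlinarith
  exact abs_le_of_sq_le_sq' h1 (add_nonneg (nm_nonneg _ _) (nm_nonneg _ _)) |>.2

theorem nm_mono (hχ : CutG Γ χ) {f g : SUGroup n → ℝ} (hf : L2 χ f) (hg : L2 χ g)
    (h : ∀ x, |f x| ≤ g x) : nm χ f ≤ nm χ g := by
  apply Real.sqrt_le_sqrt
  refine II_mono hχ hf.sq hg.sq fun x => ?_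
  rw [← sq_abs (f x)]
  exact pow_le_pow_left₀ (abs_nonneg _) (h x) 2

theorem nm_const (χ : SUGroup n → ℝ) {c : ℝ} (hc : 0 ≤ c) :
    nm χ (fun _ => c) = c * Real.sqrt (II χ fun _ => (1 : ℝ)) := by
  have h : (fun _ : SUGroup n => c ^ 2) = fun _ => c ^ 2 * (1 : ℝ) := by
    funext _
    ring
  rw [nm, h, II_const_mul, Real.sqrt_mul (sq_nonneg c), Real.sqrt_sq hc]

theorem lint_eq_II (hχ : CutG Γ χ) {f : SUGroup n → ℝ} (hf : L1 χ f) (h0 : ∀ g, 0 ≤ f g) :
    ∫⁻ g, ENNReal.ofReal (χ g) * ENNReal.ofReal (f g) ∂(mu n) = ENNReal.ofReal (II χ f) := by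
  have h1 : Integrable (fun g => χ g • f g) (mu n) := hf.2
  rw [II, ofReal_integral_eq_lintegral_ofReal h1 (ae_of_all _ fun g =>
    mul_nonneg (hχ.nonneg g) (h0 g))]
  refine lintegral_congr fun g => ?_
  rw [smul_eq_mul, ENNReal.ofReal_mul (hχ.nonneg g)]

theorem L1.of_lint (hχ : CutG Γ χ) {f : SUGroup n → ℝ} (hf : AEStronglyMeasurable f (mu n))
    (h0 : ∀ g, 0 ≤ f g)
    (h : ∫⁻ g, ENNReal.ofReal (χ g) * ENNReal.ofReal (f g) ∂(mu n) < ⊤) : L1 χ f := by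
  refine ⟨hf, hχ.cont.aestronglyMeasurable.mul hf, ?_⟩
  rw [hasFiniteIntegral_iff_ofReal (ae_of_all _ fun g => mul_nonneg (hχ.nonneg g) (h0 g))]
  refine lt_of_le_of_lt (le_of_eq ?_) h
  refine lintegral_congr fun g => ?_
  rw [ENNReal.ofReal_mul (hχ.nonneg g)]

theorem L1.mul_right (hχ : CutG Γ χ) {f : SUGroup n → ℝ} (hf : L1 χ f) (h0 : ∀ g, 0 ≤ f g)
    (hi : ∀ γ ∈ Γ, ∀ g, f (γ * g) = f g) (a : SUGroup n) :
    L1 χ (fun g => f (g * a)) ∧ II χ (fun g => f (g * a)) = II χ f := by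
  have hm : AEStronglyMeasurable (fun g => f (g * a)) (mu n) :=
    hf.1.comp_quasiMeasurePreserving
      (measurePreserving_mul_right (mu n) a).quasiMeasurePreserving
  have h1 := hχ.lint_mul_right (f := fun g => ENNReal.ofReal (f g)) hf.1.aemeasurable.ennreal_ofReal
    (fun γ hγ g => by rw [hi γ hγ g]) a
  beta_reduce at h1
  rw [lint_eq_II hχ hf h0] at h1
  have h2 : L1 χ (fun g => f (g * a)) := L1.of_lint hχ hm (fun g => h0 _) (by
    rw [h1]
    exact ENNReal.ofReal_lt_top)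
  refine ⟨h2, ?_⟩
  rw [lint_eq_II hχ h2 fun g => h0 _] at h1
  have h3 := II_nonneg hχ h0
  have h4 : 0 ≤ II χ fun g => f (g * a) := II_nonneg hχ fun g => h0 _
  exact (ENNReal.ofReal_eq_ofReal_iff h4 h3).1 h1

theorem L2.mul_right (hχ : CutG Γ χ) {f : SUGroup n → ℝ} (hf : L2 χ f)
    (hi : ∀ γ ∈ Γ, ∀ g, f (γ * g) = f g) (a : SUGroup n) :
    L2 χ (fun g => f (g * a)) ∧ nm χ (fun g => f (g * a)) = nm χ f := by
  obtain ⟨h1, h2⟩ := hf.sq.mul_right hχ (fun g => sq_nonneg _) (fun γ hγ g => by rw [hi γ hγ g]) a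
  refine ⟨⟨hf.1.comp_quasiMeasurePreserving
      (measurePreserving_mul_right (mu n) a).quasiMeasurePreserving, h1.2⟩, ?_⟩
  unfold nm
  rw [h2]

/-- Integrals over balls are bounded by integrals over the quotient. -/
theorem int_le_II (hχ : CutG Γ χ) (R : ℝ) : ∃ K : ℝ, 0 < K ∧
    ∀ f : SUGroup n → ℝ, L1 χ f → (∀ g, 0 ≤ f g) →
      IntegrableOn f {g : SUGroup n | ch g ≤ R} (mu n) ∧
        ∫ g in {g : SUGroup n | ch g ≤ R}, f g ∂(mu n) ≤ K * II χ f := by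
  obtain ⟨c, hc, hcχ⟩ : ∃ c : ℝ, 0 < c ∧ ∀ g : SUGroup n, ch g ≤ R → c ≤ χ g := by
    rcases (({g : SUGroup n | ch g ≤ R}).eq_empty_or_nonempty) with h | h
    · refine ⟨1, one_pos, fun g hg => ?_⟩
      have : g ∈ ({g : SUGroup n | ch g ≤ R}) := hg
      rw [h] at this
      exact this.elim
    · obtain ⟨g0, -, hg0⟩ := (isCompact_ball (n := n) R).exists_isMinOn h hχ.cont.continuousOn
      exact ⟨χ g0, hχ.pos g0, fun g hg => hg0 hg⟩
  have hBm : MeasurableSet {g : SUGroup n | ch g ≤ R} :=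
    (isClosed_le continuous_ch continuous_const).measurableSet
  refine ⟨c⁻¹, inv_pos.2 hc, fun f hf h0 => ?_⟩
  have h1 : Integrable (fun g => c⁻¹ * (χ g * f g)) (mu n) := hf.2.const_mul _
  have h2 : ∀ g ∈ {g : SUGroup n | ch g ≤ R}, f g ≤ c⁻¹ * (χ g * f g) := by
    intro g hg
    have h3 := mul_le_mul_of_nonneg_right (hcχ g hg) (h0 g)
    have h4 := mul_le_mul_of_nonneg_left h3 (inv_pos.2 hc).le
    rwa [← mul_assoc, inv_mul_cancel₀ hc.ne', one_mul] at h4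
  have h5 : IntegrableOn f {g : SUGroup n | ch g ≤ R} (mu n) := by
    refine h1.integrableOn.mono' hf.1.restrict ((ae_restrict_iff' hBm).2 (ae_of_all _ fun g hg => ?_))
    rw [Real.norm_of_nonneg (h0 g)]
    exact h2 g hg
  refine ⟨h5, ?_⟩
  calc ∫ g in {g : SUGroup n | ch g ≤ R}, f g ∂(mu n)
      ≤ ∫ g in {g : SUGroup n | ch g ≤ R}, c⁻¹ * (χ g * f g) ∂(mu n) :=
        setIntegral_mono_on h5 h1.integrableOn hBm h2
    _ ≤ ∫ g, c⁻¹ * (χ g * f g) ∂(mu n) := setIntegral_le_integral h1 (ae_of_all _ fun g =>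
        mul_nonneg (inv_pos.2 hc).le (mul_nonneg (hχ.nonneg g) (h0 g)))
    _ = _ := by rw [integral_const_mul]; rfl

theorem II_one_pos (hχ : CutG Γ χ) : 0 < II χ fun _ => (1 : ℝ) := by
  obtain ⟨K, hK, h⟩ := int_le_II hχ 2
  have h1 := (h (fun _ => 1) ⟨aestronglyMeasurable_const, hχ.int.mul_const _⟩ fun _ => zero_le_one).2
  have h2 : 0 < (mu n).real {x : SUGroup n | ch x ≤ 2} := by
    rw [Measure.real, ENNReal.toReal_pos_iff]
    refine ⟨?_, (isCompact_ball 2).measure_lt_top⟩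
    have h1 : IsOpen {x : SUGroup n | ch x < 2} := isOpen_lt continuous_ch continuous_const
    have h2 : ({x : SUGroup n | ch x < 2}).Nonempty := ⟨1, by
      show ch (1 : SUGroup n) < 2
      rw [ch_one]
      norm_num⟩
    exact (h1.measure_pos (mu n) h2).trans_le (measure_mono fun x (hx : ch x < 2) => hx.le)
  rw [setIntegral_const, smul_eq_mul, mul_one] at h1
  by_contra hneg
  rw [not_lt] at hneg
  nlinarith

end lone

end Pool.Agent.Lib.MP_5d4057_al.NU.LG
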