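import Pool.Agent.Lib.MP_5d4057_al.NU.LGA
import Pool.Agent.Lib.MP_5d4057_al.HM.Nor

/-!
The displacement of equivariant metrics at finite distance from each other.
-/

namespace Pool.Agent.Lib.MP_5d4057_al.NU.LG

open Matrix MeasureTheory Filter Topology Pool.Agent.Lib.MP_5d4057_al Pool.Agent.Lib.MP_5d4057_al.Hyb
open Pool.Agent.Lib.MP_5d4057_al.HM Pool.Agent.Lib.MP_5d4057_al.HM.DD

open scoped ComplexOrder MatrixOrder Matrix.Norms.L2Operator ENNReal

variable {n m : ℕ} {Γ : Subgroup (SUGroup n)} {ρ : Γ →* Mat m} {χ : SUGroup n → ℝ}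

/-- The displacements of `A` and `B` are square integrable. -/
def FD (χ : SUGroup n → ℝ) (A B : Vec n → Mat m) : Prop := ∀ x : SUGroup n, L2 χ (dd A B x)

variable {A B C : Vec n → Mat m}

theorem dd_inv_eq (hA : Met ρ A) (hB : Met ρ B) (x : SUGroup n) :
    dd (fun v => (A v)⁻¹) (fun v => (B v)⁻¹) x = dd A B x := by
  funext g
  exact dT_inv (met_pos hA _) (met_pos hB _)

theorem dd_smul (A B : Vec n → Mat m) {t : ℝ} (ht : 0 < t) (x : SUGroup n) :
    dd (fun v => (t : ℂ) • A v) (fun v => (t : ℂ) • B v) x = dd A B x := by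
  funext g
  unfold dd
  rw [dT_smul ht]

theorem FD.inv (hA : Met ρ A) (hB : Met ρ B) (h : FD χ A B) :
    FD χ (fun v => (A v)⁻¹) (fun v => (B v)⁻¹) := by
  intro x
  rw [dd_inv_eq hA hB]
  exact h x

theorem FD.smul (h : FD χ A B) {t : ℝ} (ht : 0 < t) :
    FD χ (fun v => (t : ℂ) • A v) (fun v => (t : ℂ) • B v) := by
  intro x
  rw [dd_smul A B ht]
  exact h x

theorem dd_comm (A B : Vec n → Mat m) (x : SUGroup n) :
    dd B A x = fun g => dd A B x⁻¹ (g * x) := by
  funext g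
  rw [dd, dd, mul_inv_cancel_right, dT_comm]

theorem FD.symm (hχ : CutG Γ χ) (hA : Met ρ A) (hB : Met ρ B) (h : FD χ A B) : FD χ B A := by
  intro x
  rw [dd_comm A B x]
  exact ((h x⁻¹).mul_right hχ (dd_inv hA.equi hB.equi _) x).1

theorem disp_symm (hχ : CutG Γ χ) (hA : Met ρ A) (hB : Met ρ B) (h : FD χ A B) (x : SUGroup n) :
    disp χ B A x = disp χ A B x⁻¹ := by
  unfold disp
  rw [dd_comm A B x]
  exact ((h x⁻¹).mul_right hχ (dd_inv hA.equi hB.equi _) x).2

theorem disp_triangle (hχ : CutG Γ χ) (hA : Met ρ A) (hB : Met ρ B) (hC : Met ρ C)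
    (hAC : FD χ A C) (hAB : FD χ A B) (hBC : FD χ B C) (x y : SUGroup n) :
    disp χ A C x ≤ disp χ A B y + disp χ B C (y⁻¹ * x) := by
  have e : (fun g => dd B C (y⁻¹ * x) (g * y)) =
      fun g => dT (B (act (g * y) (base n))) (C (act (g * x) (base n))) := by
    funext g
    rw [dd, mul_assoc, mul_inv_cancel_left]
  obtain ⟨h1, h2⟩ := (hBC (y⁻¹ * x)).mul_right hχ (dd_inv hB.equi hC.equi _) y
  rw [e] at h1 h2
  have h3 := hAB y
  unfold disp
  rw [← h2]
  refine le_trans ?_ (nm_add_le hχ h3 h1)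
  refine nm_mono hχ (hAC x) (h3.add hχ h1) fun g => ?_
  rw [abs_of_nonneg (dd_nonneg _ _ _ _)]
  exact dT_triangle (met_pos hA _) (met_pos hB _) (met_pos hC _)

theorem disp_list (hχ : CutG Γ χ) (hA : Met ρ A) (h0 : FD χ A A) (b : ℝ)
    (l : List (SUGroup n)) (hl : ∀ y ∈ l, disp χ A A y ≤ b) :
    disp χ A A l.prod ≤ l.length * b := by
  induction l with
  | nil => simp [disp_one]
  | cons a l ih =>
    have h := disp_triangle hχ hA hA hA h0 h0 h0 (a * l.prod) a
    rw [inv_mul_cancel_left] at h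
    have h1 := hl a (List.mem_cons_self)
    have h2 := ih fun y hy => hl y (List.mem_cons_of_mem _ hy)
    rw [List.prod_cons, List.length_cons]
    push_cast
    linarith

/-- The displacement is a measurable function. -/
theorem measurable_disp_sq (hχ : CutG Γ χ) (hA : Met ρ A) (hB : Met ρ B) :
    Measurable fun x => disp χ A B x ^ 2 := by
  have h1 : (fun x => disp χ A B x ^ 2) = fun x => ∫ g, χ g * dd A B x g ^ 2 ∂(mu n) := by
    funext x
    rw [disp, nm_sq hχ, II]
    simp only [smul_eq_mul]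
  rw [h1]
  have h2 : Continuous fun p : SUGroup n × SUGroup n => χ p.2 * dd A B p.1 p.2 ^ 2 :=
    (hχ.cont.comp continuous_snd).mul ((continuous_dd hA hB).pow 2)
  exact (h2.stronglyMeasurable.integral_prod_right (ν := mu n)).measurable

end Pool.Agent.Lib.MP_5d4057_al.NU.LG
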