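import Pool.Agent.Lib.MP_5d4057_al.NU.LGB

/-!
The displacement bound for a lattice (blueprint D3).
-/

namespace Pool.Agent.Lib.MP_5d4057_al.NU.LG

open Matrix MeasureTheory Filter Topology Pool.Agent.Lib.MP_5d4057_al Pool.Agent.Lib.MP_5d4057_al.Hyb
open Pool.Agent.Lib.MP_5d4057_al.HM Pool.Agent.Lib.MP_5d4057_al.HM.DD

open scoped ComplexOrder MatrixOrder Matrix.Norms.L2Operator ENNReal

variable {n m : ℕ} {Γ : Subgroup (SUGroup n)} {ρ : Γ →* Mat m} {χ : SUGroup n → ℝ}

theorem LE_eq (hχ : CutG Γ χ) (s : ℕ) (H L : Vec n → Mat m) : LE χ s H L =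
    ∫⁻ g, ∫⁻ x, ENNReal.ofReal (χ g * (kap s x * sig (L (act g (base n)))
      (H (act (g * x) (base n))))) ∂(mu n) ∂(mu n) := by
  unfold LE LI
  refine lintegral_congr fun g => ?_
  rw [← lintegral_const_mul' _ _ ENNReal.ofReal_ne_top]
  refine lintegral_congr fun x => ?_
  rw [ENNReal.ofReal_mul (hχ.nonneg g), ENNReal.ofReal_mul (kap_nonneg s x)]

/-- The mean of the squared displacement is bounded by the energy. -/
theorem integral_disp_le (hχ : CutG Γ χ) {s : ℕ} {L H : Vec n → Mat m}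
    (hL : Met ρ L) (hH : Met ρ H) (hLH : FD χ L H) {c : ℝ} (hc : 0 ≤ c)
    (hE : LE χ s H L ≤ ENNReal.ofReal c) :
    Integrable (fun x => kap s x * disp χ L H x ^ 2) (mu n) ∧
      ∫ x, kap s x * disp χ L H x ^ 2 ∂(mu n) ≤ c := by
  have hm : Measurable fun x => kap s x * disp χ L H x ^ 2 :=
    (continuous_kap s).measurable.mul (measurable_disp_sq hχ hL hH)
  have h0 : ∀ x, 0 ≤ kap s x * disp χ L H x ^ 2 := fun x =>
    mul_nonneg (kap_nonneg s x) (sq_nonneg _)
  have hc' : Continuous fun p : SUGroup n × SUGroup n =>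
      χ p.1 * (kap s p.2 * dd L H p.2 p.1 ^ 2) :=
    (hχ.cont.comp continuous_fst).mul (((continuous_kap s).comp continuous_snd).mul
      ((continuous_dd' hL hH).pow 2))
  have h1 : ∫⁻ x, ENNReal.ofReal (kap s x * disp χ L H x ^ 2) ∂(mu n) ≤ ENNReal.ofReal c := by
    rw [LE_eq hχ] at hE
    refine le_trans ?_ hE
    have e1 : ∀ x, ENNReal.ofReal (kap s x * disp χ L H x ^ 2) =
        ∫⁻ g, ENNReal.ofReal (χ g * (kap s x * dd L H x g ^ 2)) ∂(mu n) := by
      intro x
      have e2 := hLH x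
      have e3 := (e2.sq.const_mul (kap s x))
      have e4 : Integrable (fun g => χ g • (kap s x * dd L H x g ^ 2)) (mu n) := e3.2
      rw [disp, nm_sq hχ, ← II_const_mul, II]
      rw [ofReal_integral_eq_lintegral_ofReal e4 (ae_of_all _ fun g =>
        mul_nonneg (hχ.nonneg g) (mul_nonneg (kap_nonneg s x) (sq_nonneg _)))]
      rfl
    simp only [e1]
    rw [lintegral_lintegral_swap]
    · refine lintegral_mono fun g => lintegral_mono fun x => ENNReal.ofReal_le_ofReal ?_
      refine mul_le_mul_of_nonneg_left (mul_le_mul_of_nonneg_left ?_ (kap_nonneg _ _))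
        (hχ.nonneg _)
      exact dT_sq_le_sig (met_pos hL _) (met_pos hH _)
    · have := hc'.comp continuous_swap
      exact this.measurable.ennreal_ofReal.aemeasurable
  constructor
  · refine ⟨hm.aestronglyMeasurable, ?_⟩
    rw [hasFiniteIntegral_iff_ofReal (ae_of_all _ h0)]
    exact lt_of_le_of_lt h1 ENNReal.ofReal_lt_top
  · rw [integral_eq_lintegral_of_nonneg_ae (ae_of_all _ h0) hm.aestronglyMeasurable]
    exact ENNReal.toReal_le_of_le_ofReal hc h1

theorem measurableSet_good (hχ : CutG Γ χ) {L H : Vec n → Mat m} (hL : Met ρ L) (hH : Met ρ H)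
    (a b : ℝ) : MeasurableSet {x : SUGroup n | disp χ L H x ^ 2 ≤ a ∧ ch x ^ 2 - 1 ≤ b} := by
  refine MeasurableSet.inter ?_ ?_
  · exact measurableSet_le (measurable_disp_sq hχ hL hH) measurable_const
  · exact (isClosed_le ((continuous_ch.pow 2).sub continuous_const) continuous_const).measurableSet

/-- The good set: large mass. -/
theorem good_mass (hχ : CutG Γ χ) {s : ℕ} (hn : 1 ≤ n) (hs : 2 * n + 2 ≤ s)
    {L H : Vec n → Mat m} (hL : Met ρ L) (hH : Met ρ H) {c : ℝ} (hc : 0 < c)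
    (hi : Integrable (fun x => kap s x * disp χ L H x ^ 2) (mu n))
    (hE : ∫ x, kap s x * disp χ L H x ^ 2 ∂(mu n) ≤ c / s) :
    3 / 4 ≤ ∫ x in {x : SUGroup n | disp χ L H x ^ 2 ≤ 8 * c / s ∧ ch x ^ 2 - 1 ≤ 16 * n / s},
      kap s x ∂(mu n) := by
  have hn' : (1 : ℝ) ≤ n := by exact_mod_cast hn
  have hs0 : (2 : ℝ) * n + 2 ≤ s := by exact_mod_cast hs
  have hsp : (0 : ℝ) < s := by linarith
  set A := {x : SUGroup n | disp χ L H x ^ 2 ≤ 8 * c / s ∧ ch x ^ 2 - 1 ≤ 16 * n / s} with hA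
  have hAm : MeasurableSet A := measurableSet_good hχ hL hH _ _
  have hk := integrable_kap (n := n) (s := s) (by omega)
  have hk1 := integral_kap (n := n) (s := s) (by omega)
  have hm := integrable_mom (n := n) (s := s) (N := 0) (k := 1) (by omega)
  have hm1 := mom_one (n := n) (s := s) (by omega)
  simp only [mul_zero, pow_zero, one_mul, pow_one] at hm
  have h1 : ∫ x in A, kap s x ∂(mu n) + ∫ x in Aᶜ, kap s x ∂(mu n) = 1 := by
    rw [integral_add_compl hAm hk, hk1]
  have h2 : ∫ x in Aᶜ, kap s x ∂(mu n) ≤ ∫ x, (s / (8 * c) * (kap s x * disp χ L H x ^ 2) +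
      s / (16 * n) * (kap s x * (ch x ^ 2 - 1))) ∂(mu n) := by
    rw [← integral_indicator hAm.compl]
    refine integral_mono (hk.indicator hAm.compl)
      ((hi.const_mul _).add (hm.const_mul _)) fun x => ?_
    have hkx := kap_nonneg s x
    have h3 : 0 ≤ disp χ L H x ^ 2 := sq_nonneg _
    have h4 : 0 ≤ ch x ^ 2 - 1 := by
      have := one_le_ch x
      nlinarith
    simp only
    by_cases hx : x ∈ Aᶜ
    · rw [Set.indicator_of_mem hx]
      have hx2 : ¬ (disp χ L H x ^ 2 ≤ 8 * c / s ∧ ch x ^ 2 - 1 ≤ 16 * n / s) := hx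
      have key : 1 ≤ s / (8 * c) * disp χ L H x ^ 2 + s / (16 * n) * (ch x ^ 2 - 1) := by
        rw [not_and_or, not_le, not_le] at hx2
        have e3 : 0 ≤ s / (8 * c) * disp χ L H x ^ 2 := by positivity
        have e4 : 0 ≤ s / (16 * n) * (ch x ^ 2 - 1) := by positivity
        rcases hx2 with h | h
        · have : 1 ≤ s / (8 * c) * disp χ L H x ^ 2 := by
            have e5 := mul_le_mul_of_nonneg_left h.le (show 0 ≤ (s : ℝ) / (8 * c) by positivity)
            have e6 : (s : ℝ) / (8 * c) * (8 * c / s) = 1 := by field_simp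
            linarith
          linarith
        · have : 1 ≤ s / (16 * n) * (ch x ^ 2 - 1) := by
            have e5 := mul_le_mul_of_nonneg_left h.le
              (show 0 ≤ (s : ℝ) / (16 * n) by positivity)
            have e6 : (s : ℝ) / (16 * n) * (16 * n / s) = 1 := by field_simp
            linarith
          linarith
      nlinarith
    · rw [Set.indicator_of_notMem hx]
      positivity
  rw [integral_add (hi.const_mul _) (hm.const_mul _), integral_const_mul, integral_const_mul,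
    hm1] at h2
  have h3 : s / (8 * c) * ∫ x, kap s x * disp χ L H x ^ 2 ∂(mu n) ≤ 1 / 8 := by
    have := mul_le_mul_of_nonneg_left hE (show 0 ≤ (s : ℝ) / (8 * c) by positivity)
    refine this.trans (le_of_eq ?_)
    field_simp
  have h4 : (s : ℝ) / (16 * n) * (n / (s - 1 - n)) ≤ 1 / 8 := by
    have e1 : (0 : ℝ) < s - 1 - n := by linarith
    rw [div_mul_div_comm, div_le_div_iff₀ (by positivity) (by norm_num)]
    nlinarith
  linarith

/-- Small translates. -/
theorem disp_small (hχ : CutG Γ χ) {s : ℕ} (hn : 1 ≤ n)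
    (hs : 2 * n + 2 ≤ s) {L H : Vec n → Mat m} (hL : Met ρ L) (hH : Met ρ H) (hLL : FD χ L L)
    (hLH : FD χ L H) {c : ℝ}
    (hmass : 3 / 4 ≤ ∫ x in {x : SUGroup n | disp χ L H x ^ 2 ≤ 8 * c / s ∧
      ch x ^ 2 - 1 ≤ 16 * n / s}, kap s x ∂(mu n)) {b : SUGroup n}
    (hb : ch b ^ 2 - 1 ≤ 1 / (400 * n * s)) :
    disp χ L L b ≤ 2 * Real.sqrt (8 * c / s) := by
  set A := {x : SUGroup n | disp χ L H x ^ 2 ≤ 8 * c / s ∧ ch x ^ 2 - 1 ≤ 16 * n / s} with hA
  have hAm : MeasurableSet A := measurableSet_good hχ hL hH _ _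
  have hk := integrable_kap (n := n) (s := s) (by omega)
  have hk1 := integral_kap (n := n) (s := s) (by omega)
  obtain ⟨y, hy1, hy2⟩ : ∃ y, y ∈ A ∧ b⁻¹ * y ∈ A := by
    by_contra hno
    push Not at hno
    set B : Set (SUGroup n) := (fun y => b⁻¹ * y) ⁻¹' A with hB
    have hBm : MeasurableSet B := (measurable_const_mul b⁻¹) hAm
    have hdisj : Disjoint A B := by
      rw [Set.disjoint_left]
      intro y h1 h2
      exact hno y h1 h2
    have h1 : ∫ x in A ∪ B, kap s x ∂(mu n) = ∫ x in A, kap s x ∂(mu n) +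
        ∫ x in B, kap s x ∂(mu n) :=
      setIntegral_union hdisj hBm hk.integrableOn hk.integrableOn
    have h2 : ∫ x in A ∪ B, kap s x ∂(mu n) ≤ 1 := by
      rw [← hk1]
      exact setIntegral_le_integral hk (ae_of_all _ fun x => kap_nonneg s x)
    have h3 : 1 / 2 * ∫ x in A, kap s x ∂(mu n) ≤ ∫ x in B, kap s x ∂(mu n) := by
      have e1 : ∫ x in B, kap s x ∂(mu n) = ∫ x, A.indicator (fun x => kap s (b * x)) x ∂(mu n) := by
        rw [← integral_indicator hBm, ← integral_mul_left_eq_self (μ := mu n) _ b]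
        refine integral_congr_ae (ae_of_all _ fun x => ?_)
        beta_reduce
        by_cases hx : x ∈ A
        · rw [Set.indicator_of_mem hx, Set.indicator_of_mem]
          show b⁻¹ * (b * x) ∈ A
          rwa [inv_mul_cancel_left]
        · rw [Set.indicator_of_notMem hx, Set.indicator_of_notMem]
          show ¬ (b⁻¹ * (b * x) ∈ A)
          rwa [inv_mul_cancel_left]
      rw [e1, ← integral_indicator hAm, ← integral_const_mul]
      refine integral_mono ((hk.indicator hAm).const_mul _)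
        ((hk.comp_mul_left b).indicator hAm) fun x => ?_
      by_cases hx : x ∈ A
      · simp only [Set.indicator_of_mem hx]
        exact kap_mul_ge (by omega) (by omega) hb hx.2 hn
      · simp only [Set.indicator_of_notMem hx, mul_zero, le_refl]
    linarith
  have h1 := disp_triangle hχ hL hH hL hLL hLH (hLH.symm hχ hL hH) b y
  have h2 : disp χ H L (y⁻¹ * b) = disp χ L H (b⁻¹ * y) := by
    rw [disp_symm hχ hL hH hLH, _root_.mul_inv_rev, inv_inv]
  rw [h2] at h1
  have h3 : disp χ L H y ≤ Real.sqrt (8 * c / s) := Real.le_sqrt_of_sq_le hy1.1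
  have h4 : disp χ L H (b⁻¹ * y) ≤ Real.sqrt (8 * c / s) := Real.le_sqrt_of_sq_le hy2.1
  linarith

/-- **The displacement bound.** -/
theorem disp_bound (hχ : CutG Γ χ) {s : ℕ} (hn : 1 ≤ n)
    (hs : 2 * n + 2 ≤ s) {L H : Vec n → Mat m} (hL : Met ρ L) (hH : Met ρ H) (hLL : FD χ L L)
    (hLH : FD χ L H) {c : ℝ} (hc : 0 < c)
    (hmass : 3 / 4 ≤ ∫ x in {x : SUGroup n | disp χ L H x ^ 2 ≤ 8 * c / s ∧
      ch x ^ 2 - 1 ≤ 16 * n / s}, kap s x ∂(mu n)) (x : SUGroup n) :
    disp χ L L x ≤ 2 * Real.sqrt (8 * c) * (30 * n * Real.log (wt x) + 2 / Real.sqrt s) := by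
  have hn' : (1 : ℝ) ≤ n := by exact_mod_cast hn
  have hs0 : (2 : ℝ) * n + 2 ≤ s := by exact_mod_cast hs
  have hsp : (0 : ℝ) < s := by linarith
  have hsq : 0 < Real.sqrt s := Real.sqrt_pos.2 hsp
  have hsq1 : 1 ≤ Real.sqrt s := Real.one_le_sqrt.2 (by linarith)
  set u := Real.log (wt x) with hu
  have hu0 : 0 ≤ u := log_wt_nonneg x
  set K : ℝ := 30 * n * Real.sqrt s * u with hK
  have hK0 : 0 ≤ K := by positivity
  set N : ℕ := ⌈K⌉₊ + 1 with hN
  have hNK : K ≤ N := by
    rw [hN]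
    push_cast
    have := Nat.le_ceil K
    linarith
  have hN2 : (N : ℝ) ≤ K + 2 := by
    rw [hN]
    push_cast
    have := Nat.ceil_lt_add_one hK0
    linarith
  have hN1 : 1 ≤ N := by omega
  have hN1' : (1 : ℝ) ≤ N := by exact_mod_cast hN1
  obtain ⟨l, hl1, hl2, hl3⟩ := exists_factor hn x N hN1
  have hsm : ∀ y ∈ l, disp χ L L y ≤ 2 * Real.sqrt (8 * c / s) := by
    intro y hy
    have h1 := hl3 y hy
    have h2 : (N : ℝ) * Real.log (wt y) = u := by
      rw [← Real.log_pow, h1]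
    have h3 : Real.log (wt y) ≤ 1 / (30 * n * Real.sqrt s) := by
      rw [le_div_iff₀ (by positivity)]
      by_contra hneg
      push Not at hneg
      have h4 : 0 ≤ Real.log (wt y) := log_wt_nonneg y
      have h5 : K = (N : ℝ) * (Real.log (wt y) * (30 * n * Real.sqrt s)) := by
        rw [hK, ← h2]
        ring
      nlinarith
    have h4 : 0 ≤ Real.log (wt y) := log_wt_nonneg y
    have h5 : 1 / (30 * n * Real.sqrt s) ≤ 1 := by
      rw [div_le_one (by positivity)]
      nlinarith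
    have h6 := ch_sq_le y (h3.trans h5)
    have h7 : Real.log (wt y) ^ 2 ≤ (1 / (30 * n * Real.sqrt s)) ^ 2 := pow_le_pow_left₀ h4 h3 2
    have h8 : (1 / (30 * n * Real.sqrt s)) ^ 2 = 1 / (900 * n ^ 2 * s) := by
      rw [div_pow, mul_pow, mul_pow, Real.sq_sqrt hsp.le]
      norm_num
    refine disp_small hχ hn hs hL hH hLL hLH hmass ?_
    refine h6.trans ?_
    rw [h8] at h7
    calc 9 / 4 * Real.log (wt y) ^ 2 ≤ 9 / 4 * (1 / (900 * (n : ℝ) ^ 2 * s)) := by linarith
      _ = 1 / (400 * (n : ℝ) ^ 2 * s) := by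
          field_simp
          norm_num
      _ ≤ 1 / (400 * (n : ℝ) * s) := by
          apply one_div_le_one_div_of_le (by positivity)
          nlinarith [mul_pos (show (0 : ℝ) < n by linarith) hsp]
  have h1 := disp_list hχ hL hLL _ l hsm
  rw [hl1, hl2] at h1
  refine h1.trans ?_
  rw [Real.sqrt_div (by positivity)]
  have h2 : (N : ℝ) * (2 * (Real.sqrt (8 * c) / Real.sqrt s)) ≤
      (K + 2) * (2 * (Real.sqrt (8 * c) / Real.sqrt s)) :=
    mul_le_mul_of_nonneg_right hN2 (by positivity)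
  refine h2.trans (le_of_eq ?_)
  rw [hK]
  field_simp

/-- `L` and `H` are close to each other. -/
theorem disp_LH (hχ : CutG Γ χ) {s : ℕ} (hn : 1 ≤ n)
    (hs : 2 * n + 2 ≤ s) {L H : Vec n → Mat m} (hL : Met ρ L) (hH : Met ρ H) (hLL : FD χ L L)
    (hLH : FD χ L H) {c : ℝ} (hc : 0 < c)
    (hmass : 3 / 4 ≤ ∫ x in {x : SUGroup n | disp χ L H x ^ 2 ≤ 8 * c / s ∧
      ch x ^ 2 - 1 ≤ 16 * n / s}, kap s x ∂(mu n)) :
    disp χ L H 1 ≤ Real.sqrt (8 * c) * (240 * n * Real.sqrt n + 5) / Real.sqrt s := by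
  have hn' : (1 : ℝ) ≤ n := by exact_mod_cast hn
  have hs0 : (2 : ℝ) * n + 2 ≤ s := by exact_mod_cast hs
  have hsp : (0 : ℝ) < s := by linarith
  have hsq : 0 < Real.sqrt s := Real.sqrt_pos.2 hsp
  obtain ⟨x, hx⟩ : ({x : SUGroup n | disp χ L H x ^ 2 ≤ 8 * c / s ∧
      ch x ^ 2 - 1 ≤ 16 * n / s}).Nonempty := by
    by_contra hne
    rw [Set.not_nonempty_iff_eq_empty] at hne
    rw [hne, setIntegral_empty] at hmass
    norm_num at hmass
  have h1 := disp_triangle hχ hL hL hH hLH hLL hLH 1 x⁻¹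
  rw [inv_inv, mul_one] at h1
  have h2 := disp_bound hχ hn hs hL hH hLL hLH hc hmass x⁻¹
  have h3 : Real.log (wt x⁻¹) ≤ 4 * Real.sqrt n / Real.sqrt s := by
    rw [wt_inv]
    refine (log_wt_le x).trans ?_
    have e1 : Real.sqrt (ch x ^ 2 - 1) ≤ Real.sqrt (16 * n / s) := Real.sqrt_le_sqrt hx.2
    refine e1.trans (le_of_eq ?_)
    rw [Real.sqrt_div (by positivity), Real.sqrt_mul (by norm_num)]
    congr 2
    rw [show (16 : ℝ) = 4 ^ 2 by norm_num, Real.sqrt_sq (by norm_num)]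
  have h4 : disp χ L H x ≤ Real.sqrt (8 * c) / Real.sqrt s := by
    rw [← Real.sqrt_div (by positivity)]
    exact Real.le_sqrt_of_sq_le hx.1
  have h5 : 30 * n * Real.log (wt x⁻¹) + 2 / Real.sqrt s ≤
      (120 * n * Real.sqrt n + 2) / Real.sqrt s := by
    have := mul_le_mul_of_nonneg_left h3 (show (0 : ℝ) ≤ 30 * n by positivity)
    have e2 : (120 * n * Real.sqrt n + 2) / Real.sqrt s =
        30 * n * (4 * Real.sqrt n / Real.sqrt s) + 2 / Real.sqrt s := by
      field_simp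
      ring
    rw [e2]
    linarith
  have h6 := mul_le_mul_of_nonneg_left h5 (show (0 : ℝ) ≤ 2 * Real.sqrt (8 * c) by positivity)
  have h7 : 2 * Real.sqrt (8 * c) * ((120 * n * Real.sqrt n + 2) / Real.sqrt s) +
      Real.sqrt (8 * c) / Real.sqrt s =
      Real.sqrt (8 * c) * (240 * n * Real.sqrt n + 5) / Real.sqrt s := by
    field_simp
    ring
  linarith


end Pool.Agent.Lib.MP_5d4057_al.NU.LG
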