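import Pool.Agent.Lib.MP_5d4057_al.NU.LGC
import Pool.Agent.Lib.MP_5d4057_al.HM.LimA

/-!
The centre (blueprint D4) for a lattice: irreducibility bounds the distance from a fixed reference metric
on balls.
-/

namespace Pool.Agent.Lib.MP_5d4057_al.NU.LG

open Matrix MeasureTheory Filter Topology Pool.Agent.Lib.MP_5d4057_al Pool.Agent.Lib.MP_5d4057_al.Hyb
open Pool.Agent.Lib.MP_5d4057_al.HM Pool.Agent.Lib.MP_5d4057_al.HM.DD

open scoped ComplexOrder MatrixOrder Matrix.Norms.L2Operator ENNReal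

variable {n m : ℕ} {Γ : Subgroup (SUGroup n)} {ρ : Γ →* Mat m} {χ : SUGroup n → ℝ}

/-- Some point of a fixed ball has small oscillation at all scales. -/
theorem exists_good (hχ : CutG Γ χ) (ρ : Γ →* Mat m) (C₀ : ℝ) : ∃ κ : ℝ → ℝ,
    (∀ T, 0 < κ T) ∧ ∀ L : Vec n → Mat m, Met ρ L → FD χ L L →
      (∀ x, disp χ L L x ≤ C₀ * (Real.log (wt x) + 1)) →
        ∃ g : SUGroup n, ch g ≤ 2 ∧ ∀ T, osc L T g ≤ κ T := by
  set s : ℕ := n + 2 with hs
  have hcs : 0 < cs n s := cs_pos' (by omega)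
  -- the bound of the total oscillation
  have hi0 : Integrable (fun x : SUGroup n => kap s x * (2 * C₀ ^ 2 * (ch x ^ 2 - 1) +
      2 * C₀ ^ 2)) (mu n) := by
    have h1 := integrable_mom (n := n) (s := s) (N := 0) (k := 1) (by omega)
    have h2 := integrable_kap (n := n) (s := s) (by omega)
    refine ((h1.const_mul (2 * C₀ ^ 2)).add (h2.const_mul (2 * C₀ ^ 2))).congr
      (ae_of_all _ fun x => ?_)
    simp only [mul_zero, pow_zero, one_mul, pow_one, Pi.add_apply]
    ring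
  set c1 : ℝ := ∫ x, kap s x * (2 * C₀ ^ 2 * (ch x ^ 2 - 1) + 2 * C₀ ^ 2) ∂(mu n) with hc1
  have hc10 : 0 ≤ c1 := by
    refine integral_nonneg fun x => mul_nonneg (kap_nonneg s x) ?_
    have := one_le_ch x
    have h2 : 0 ≤ ch x ^ 2 - 1 := by nlinarith
    positivity
  -- the mass of the ball
  set B : Set (SUGroup n) := {g : SUGroup n | ch g ≤ 2} with hB
  have hBm : MeasurableSet B := measurableSet_ball 2
  obtain ⟨c, hc, hcχ⟩ : ∃ c : ℝ, 0 < c ∧ ∀ g ∈ B, c ≤ χ g := by
    obtain ⟨g0, -, hg0⟩ := (isCompact_ball (n := n) 2).exists_isMinOn ⟨1, by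
      show ch (1 : SUGroup n) ≤ 2
      rw [ch_one]
      norm_num⟩ hχ.cont.continuousOn
    exact ⟨χ g0, hχ.pos g0, fun g hg => hg0 hg⟩
  have hb1 := ball_pos (n := n)
  set b1 := (mu n).real {x : SUGroup n | ch x ≤ 2} with hb1def
  set c2 : ℝ := (c1 + 1) / (c * b1) with hc2
  have hc20 : 0 < c2 := by positivity
  refine ⟨fun T => c2 * (cs n s * (|T| + 1) ^ (2 * s)), fun T => by positivity, fun L hL hLL hd => ?_⟩
  -- the total oscillation
  set f : SUGroup n → ℝ≥0∞ := fun g => ∫⁻ x, ENNReal.ofReal (kap s x * dd L L x g ^ 2) ∂(mu n) with hf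
  have hcc : Continuous fun p : SUGroup n × SUGroup n =>
      χ p.1 * (kap s p.2 * dd L L p.2 p.1 ^ 2) :=
    (hχ.cont.comp continuous_fst).mul (((continuous_kap s).comp continuous_snd).mul
      ((continuous_dd' hL hL).pow 2))
  have htot : ∫⁻ g, ENNReal.ofReal (χ g) * f g ∂(mu n) ≤ ENNReal.ofReal c1 := by
    have e0 : ∀ g, ENNReal.ofReal (χ g) * f g =
        ∫⁻ x, ENNReal.ofReal (χ g * (kap s x * dd L L x g ^ 2)) ∂(mu n) := by
      intro g
      rw [hf]
      beta_reduce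
      rw [← lintegral_const_mul' _ _ ENNReal.ofReal_ne_top]
      refine lintegral_congr fun x => ?_
      rw [ENNReal.ofReal_mul (hχ.nonneg g)]
    simp only [e0]
    rw [lintegral_lintegral_swap hcc.measurable.ennreal_ofReal.aemeasurable, hc1,
      ofReal_integral_eq_lintegral_ofReal hi0 (ae_of_all _ fun x => ?_)]
    · refine lintegral_mono fun x => ?_
      have e2 := hLL x
      have e3 := e2.sq.const_mul (kap s x)
      have e4 : Integrable (fun g => χ g • (kap s x * dd L L x g ^ 2)) (mu n) := e3.2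
      have e5 : ∫⁻ g, ENNReal.ofReal (χ g * (kap s x * dd L L x g ^ 2)) ∂(mu n) =
          ENNReal.ofReal (kap s x * disp χ L L x ^ 2) := by
        rw [disp, nm_sq hχ, ← II_const_mul, II]
        rw [ofReal_integral_eq_lintegral_ofReal e4 (ae_of_all _ fun g =>
          mul_nonneg (hχ.nonneg g) (mul_nonneg (kap_nonneg s x) (sq_nonneg _)))]
        rfl
      refine e5.le.trans (ENNReal.ofReal_le_ofReal (mul_le_mul_of_nonneg_left ?_ (kap_nonneg s x)))
      have h1 := log_wt_le x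
      have h2 := log_wt_nonneg x
      have h3 := hd x
      have h4 := disp_nonneg χ L L x
      have h5 : Real.sqrt (ch x ^ 2 - 1) ^ 2 = ch x ^ 2 - 1 := by
        refine Real.sq_sqrt ?_
        have := one_le_ch x
        nlinarith
      have h6 : disp χ L L x ≤ |C₀| * (Real.sqrt (ch x ^ 2 - 1) + 1) := by
        refine h3.trans ((mul_le_mul_of_nonneg_right (le_abs_self C₀) (by linarith)).trans ?_)
        exact mul_le_mul_of_nonneg_left (by linarith) (abs_nonneg _)
      have h7 := pow_le_pow_left₀ h4 h6 2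
      rw [mul_pow, sq_abs] at h7
      refine h7.trans ?_
      have h8 : (Real.sqrt (ch x ^ 2 - 1) + 1) ^ 2 ≤ 2 * (ch x ^ 2 - 1) + 2 := by
        nlinarith [sq_nonneg (Real.sqrt (ch x ^ 2 - 1) - 1)]
      have h9 := mul_le_mul_of_nonneg_left h8 (sq_nonneg C₀)
      linarith
    · have := one_le_ch x
      have h2 : 0 ≤ ch x ^ 2 - 1 := by nlinarith
      exact mul_nonneg (kap_nonneg s x) (by positivity)
  -- a good point
  obtain ⟨g0, hg0, hf0⟩ : ∃ g ∈ B, f g ≤ ENNReal.ofReal c2 := by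
    by_contra hno
    push Not at hno
    have h1 : ENNReal.ofReal (c1 + 1) ≤ ∫⁻ g, ENNReal.ofReal (χ g) * f g ∂(mu n) := by
      have hBf : (mu n) B ≠ ⊤ := (isCompact_ball 2).measure_lt_top.ne
      calc ENNReal.ofReal (c1 + 1) = ENNReal.ofReal (c * c2) * (mu n) B := by
            rw [← ENNReal.ofReal_toReal hBf, ← ENNReal.ofReal_mul (by positivity)]
            congr 1
            have : ((mu n) B).toReal = b1 := rfl
            rw [this, hc2]
            field_simp
        _ = ∫⁻ _ in B, ENNReal.ofReal (c * c2) ∂(mu n) := by rw [setLIntegral_const]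
        _ ≤ ∫⁻ g in B, ENNReal.ofReal (χ g) * f g ∂(mu n) := by
            refine setLIntegral_mono_ae' hBm (ae_of_all _ fun g hg => ?_)
            rw [ENNReal.ofReal_mul hc.le]
            exact mul_le_mul' (ENNReal.ofReal_le_ofReal (hcχ g hg)) (hno g hg).le
        _ ≤ _ := setLIntegral_le_lintegral _ _
    have h2 := (ENNReal.ofReal_le_ofReal_iff hc10).1 (h1.trans htot)
    linarith
  refine ⟨g0, hg0, fun T => ?_⟩
  have hcx : Continuous fun x => dd L L x g0 := by
    have h1 : Continuous fun x : SUGroup n => L (act (g0 * x) (base n)) :=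
      (met_cont hL).comp (continuous_const_mul g0)
    unfold dd
    exact continuousOn_dT.comp_continuous (f := fun x : SUGroup n =>
      (L (act g0 (base n)), L (act (g0 * x) (base n)))) (continuous_const.prodMk h1)
      fun x => ⟨met_pos hL _, met_pos hL _⟩
  set K : ℝ := cs n s * (|T| + 1) ^ (2 * s) with hK
  have hK0 : 0 < K := by positivity
  have hi1 : Integrable (fun x => kap s x * dd L L x g0 ^ 2) (mu n) := by
    refine ⟨((continuous_kap s).mul (hcx.pow 2)).aestronglyMeasurable, ?_⟩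
    rw [hasFiniteIntegral_iff_ofReal (ae_of_all _ fun x =>
      mul_nonneg (kap_nonneg s x) (sq_nonneg _))]
    exact lt_of_le_of_lt hf0 ENNReal.ofReal_lt_top
  have hi2 : ∫ x, kap s x * dd L L x g0 ^ 2 ∂(mu n) ≤ c2 := by
    rw [integral_eq_lintegral_of_nonneg_ae (ae_of_all _ fun x =>
      mul_nonneg (kap_nonneg s x) (sq_nonneg _)) hi1.1]
    exact ENNReal.toReal_le_of_le_ofReal hc20.le hf0
  have hle : ∀ x ∈ {x : SUGroup n | ch x ≤ T}, dd L L x g0 ^ 2 ≤ K * (kap s x * dd L L x g0 ^ 2) := by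
    intro x hx
    have hx' : ch x ≤ T := hx
    have h1 : 1 ≤ K * kap s x := by
      rw [hK, kap]
      have h2 : ch x ^ (2 * s) ≤ (|T| + 1) ^ (2 * s) :=
        pow_le_pow_left₀ (ch_pos x).le (by have := le_abs_self T; linarith) _
      have h3 : 0 < ch x ^ (2 * s) := pow_pos (ch_pos x) _
      have h4 : cs n s * (|T| + 1) ^ (2 * s) * ((ch x ^ (2 * s))⁻¹ / cs n s) =
          (|T| + 1) ^ (2 * s) / ch x ^ (2 * s) := by
        field_simp
      rw [h4, one_le_div h3]
      exact h2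
    have h2 := mul_le_mul_of_nonneg_right h1 (sq_nonneg (dd L L x g0))
    linarith
  rw [osc]
  calc ∫ x in {x : SUGroup n | ch x ≤ T}, dd L L x g0 ^ 2 ∂(mu n)
      ≤ ∫ x in {x : SUGroup n | ch x ≤ T}, K * (kap s x * dd L L x g0 ^ 2) ∂(mu n) :=
        setIntegral_mono_on ((hcx.pow 2).continuousOn.integrableOn_compact (isCompact_ball T))
          (hi1.const_mul K).integrableOn (measurableSet_ball T) hle
    _ ≤ ∫ x, K * (kap s x * dd L L x g0 ^ 2) ∂(mu n) :=
        setIntegral_le_integral (hi1.const_mul K) (ae_of_all _ fun x =>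
          mul_nonneg hK0.le (mul_nonneg (kap_nonneg s x) (sq_nonneg _)))
    _ = K * ∫ x, kap s x * dd L L x g0 ^ 2 ∂(mu n) := integral_const_mul _ _
    _ ≤ K * c2 := mul_le_mul_of_nonneg_left hi2 hK0.le
    _ = _ := mul_comm _ _

/-- **The centre.** -/
theorem centre (hm : 0 < m) (hχ : CutG Γ χ) (hρ : Submodule.span ℂ (Set.range ρ) = ⊤) (C₀ : ℝ) :
    ∃ D : ℝ → ℝ, ∀ L : Vec n → Mat m, Met ρ L → FD χ L L →
      (∀ x, disp χ L L x ≤ C₀ * (Real.log (wt x) + 1)) →
        ∃ t : ℝ, 0 < t ∧ ∀ R, ∫ g in {g : SUGroup n | ch g ≤ R},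
          dT 1 ((t : ℂ) • L (act g (base n))) ^ 2 ∂(mu n) ≤ D R := by
  classical
  obtain ⟨κ, hκ0, hκ⟩ := exists_good hχ ρ C₀
  obtain ⟨T, hT⟩ := exists_finite_span ρ hρ
  -- a bound for the conjugates
  obtain ⟨T1, hT1⟩ : ∃ T1 : ℝ, ∀ γ ∈ T, ∀ g : SUGroup n, ch g ≤ 2 →
      ch (g⁻¹ * (γ : SUGroup n) * g) ≤ T1 := by
    refine ⟨∑ γ ∈ T, 16 * ch (γ : SUGroup n), fun γ hγ g hg => ?_⟩
    have h1 := ch_mul_le' (g⁻¹ * (γ : SUGroup n)) g
    have h2 := ch_mul_le' g⁻¹ (γ : SUGroup n)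
    rw [ch_inv] at h2
    have h3 := one_le_ch g
    have h4 := one_le_ch (γ : SUGroup n)
    have h5 : ch (g⁻¹ * (γ : SUGroup n)) ≤ 4 * ch (γ : SUGroup n) := by nlinarith
    have h6 := ch_pos (g⁻¹ * (γ : SUGroup n))
    have h7 : ch (g⁻¹ * (γ : SUGroup n) * g) ≤ 16 * ch (γ : SUGroup n) := by nlinarith
    refine h7.trans ?_
    exact Finset.single_le_sum (f := fun γ : Γ => 16 * ch (γ : SUGroup n))
      (fun δ _ => by have := ch_pos (δ : SUGroup n); positivity) hγ
  set R : ℝ := max 2 (4 * T1) with hRdef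
  have hR2 : (2 : ℝ) ≤ R := le_max_left _ _
  have hR1 : 4 * T1 ≤ R := le_max_right _ _
  set c2 : ℝ := κ R with hc2
  have hc20 : 0 < c2 := hκ0 R
  have hb1 := ball_pos (n := n)
  set b1 := (mu n).real {x : SUGroup n | ch x ≤ 2} with hb1def
  set u : ℝ := Real.sqrt (2 * c2 / b1) + 1 with hu
  have hu0 : 0 < u := by positivity
  have hu2 : 2 * c2 < u ^ 2 * b1 := by
    have h1 : 0 ≤ 2 * c2 / b1 := by positivity
    have h2 := Real.sq_sqrt h1
    have h3 := Real.sqrt_nonneg (2 * c2 / b1)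
    have h4 : 2 * c2 / b1 < u ^ 2 := by
      rw [hu]
      nlinarith
    rwa [div_lt_iff₀ hb1] at h4
  obtain ⟨δ, hδ, hδ2⟩ := exists_delta (fun γ : T => ρ (γ : Γ)) (by
    rw [← hT]
    congr 1
    ext A
    simp [Set.mem_image, Set.mem_range]) (Real.exp (2 * u))
  set c4 : ℝ := |Real.log δ| with hc4
  refine ⟨fun r => (2 * c4 ^ 2) * (mu n).real {g : SUGroup n | ch g ≤ r} + 2 * κ (4 * r),
    fun L hL hLL hdisp => ?_⟩
  obtain ⟨g₀, hg₀, ho⟩ := hκ L hL hLL hdisp
  set A₀ := L (act g₀ (base n)) with hA₀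
  have hA₀p : A₀.PosDef := met_pos hL g₀
  have : Nonempty (Fin m) := ⟨⟨0, hm⟩⟩
  have htr : 0 < A₀.trace.re := by
    have h1 := hA₀p.trace_pos
    exact (Complex.lt_def.1 h1).1
  have htr2 : A₀.trace = (A₀.trace.re : ℂ) := by
    have h1 := hA₀p.trace_pos
    have h2 := (Complex.lt_def.1 h1).2
    apply Complex.ext
    · simp
    · rw [← h2]
      simp
  -- the displacement of the generators
  have hgen : ∀ γ ∈ T, ρ γ * A₀ * (ρ γ)ᴴ ≤ (Real.exp (2 * u) : ℂ) • A₀ := by
    intro γ hγ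
    set h : SUGroup n := g₀⁻¹ * (γ : SUGroup n) * g₀ with hh
    have hhT : 4 * ch h ≤ R := by
      have := hT1 γ hγ g₀ hg₀
      linarith
    obtain ⟨x, hx1, hx2⟩ := exists_point hL hhT hu0 (ho R) hu2
    have e1 : g₀ * (h * x) = (γ : SUGroup n) * (g₀ * x) := by
      rw [hh]
      group
    have e2 : L (act (g₀ * (h * x)) (base n)) = ρ γ * L (act (g₀ * x) (base n)) * (ρ γ)ᴴ := by
      rw [e1, act_mul]
      exact hL.equi γ _ (orbit_mem _)
    have hp1 : (ρ γ * A₀ * (ρ γ)ᴴ).PosDef := by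
      have h1 := hL.equi γ _ (orbit_mem g₀)
      rw [← h1]
      exact hL.pos _ (act_mem _ (orbit_mem _))
    have h1 : dT (ρ γ * A₀ * (ρ γ)ᴴ) A₀ ≤ 2 * u := by
      have h2 := dT_triangle hp1 (met_pos hL (g₀ * (h * x))) hA₀p
      have h3 : dT (ρ γ * A₀ * (ρ γ)ᴴ) (L (act (g₀ * (h * x)) (base n))) ≤ u := by
        rw [e2, dT_conj _ (isUnit_rho γ)]
        exact hx1
      have h4 : dT (L (act (g₀ * (h * x)) (base n))) A₀ ≤ u := by
        rw [dT_comm]
        exact hx2
      linarith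
    refine (le_exp_dT hp1 hA₀p).trans ?_
    have h5 : ((Real.exp (dT (ρ γ * A₀ * (ρ γ)ᴴ) A₀) : ℝ) : ℂ) ≤ ((Real.exp (2 * u) : ℝ) : ℂ) := by
      exact_mod_cast Real.exp_le_exp.2 h1
    exact smul_le_smul_of_nonneg_right h5 hA₀p.posSemidef.nonneg
  set t : ℝ := (A₀.trace.re)⁻¹ with ht
  have ht0 : 0 < t := inv_pos.2 htr
  refine ⟨t, ht0, ?_⟩
  have hA1 : ((t : ℂ) • A₀).PosDef := hA₀p.smul (Complex.zero_lt_real.2 ht0)
  have hlow : (δ : ℂ) • (1 : Mat m) ≤ (t : ℂ) • A₀ := by
    refine hδ2 _ hA1.posSemidef ?_ ?_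
    · rw [trace_smul, htr2, ht, smul_eq_mul, ← Complex.ofReal_mul, inv_mul_cancel₀ htr.ne']
      simp
    · intro γ
      have h1 := hgen γ γ.2
      have h2 : ρ (γ : Γ) * ((t : ℂ) • A₀) * (ρ (γ : Γ))ᴴ = (t : ℂ) • (ρ (γ : Γ) * A₀ * (ρ (γ : Γ))ᴴ) := by
        rw [Matrix.mul_smul, Matrix.smul_mul]
      rw [h2, smul_comm]
      have h3 : (0 : ℂ) ≤ (t : ℂ) := Complex.zero_le_real.2 ht0.le
      exact smul_le_smul_of_nonneg_left h1 h3
  have hup : (t : ℂ) • A₀ ≤ 1 := by
    have h1 := le_trace_smul_one hA1.posSemidef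
    have h2 : ((t : ℂ) • A₀).trace.re = 1 := by
      rw [trace_smul, htr2, ht, smul_eq_mul, ← Complex.ofReal_mul, inv_mul_cancel₀ htr.ne']
      simp
    rw [h2] at h1
    simpa using h1
  have hd1 : dT 1 ((t : ℂ) • A₀) ≤ |Real.log δ| := by
    refine dT_le (abs_nonneg _) ?_ ?_
    · -- 1 ≤ exp |log δ| • A
      have h1 : (1 : Mat m) ≤ ((δ⁻¹ : ℝ) : ℂ) • ((t : ℂ) • A₀) := by
        have h3 : (0 : ℂ) ≤ ((δ⁻¹ : ℝ) : ℂ) := Complex.zero_le_real.2 (inv_pos.2 hδ).le
        have h2 := smul_le_smul_of_nonneg_left hlow h3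
        rwa [smul_smul, ← Complex.ofReal_mul, inv_mul_cancel₀ hδ.ne', Complex.ofReal_one,
          one_smul] at h2
      refine h1.trans (smul_le_smul_of_nonneg_right ?_ hA1.posSemidef.nonneg)
      have h4 : δ⁻¹ ≤ Real.exp |Real.log δ| := by
        rw [← Real.exp_log (inv_pos.2 hδ), Real.log_inv]
        exact Real.exp_le_exp.2 (neg_le_abs _)
      exact_mod_cast h4
    · refine hup.trans ?_
      have h4 : (1 : ℝ) ≤ Real.exp |Real.log δ| := Real.one_le_exp (abs_nonneg _)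
      have h5 : (1 : ℂ) ≤ ((Real.exp |Real.log δ| : ℝ) : ℂ) := by exact_mod_cast h4
      have h6 := smul_le_smul_of_nonneg_right h5 (Matrix.PosSemidef.one (n := Fin m) (R := ℂ)).nonneg
      rwa [one_smul] at h6
  -- the final estimate
  have htL := smul_met hL ht0
  intro r
  have hpt : ∀ g ∈ {g : SUGroup n | ch g ≤ r}, dT 1 ((t : ℂ) • L (act g (base n))) ^ 2 ≤
      2 * c4 ^ 2 + 2 * dT A₀ (L (act g (base n))) ^ 2 := by
    intro g _
    have h1 : dT 1 ((t : ℂ) • L (act g (base n))) ≤ c4 + dT A₀ (L (act g (base n))) := by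
      have e2 := dT_triangle (Matrix.PosDef.one (n := Fin m) (R := ℂ)) hA1 (met_pos htL g)
      simp only [dT_smul ht0] at e2
      linarith
    have h3 := pow_le_pow_left₀ (dT_nonneg _ _) h1 2
    nlinarith [sq_nonneg (c4 - dT A₀ (L (act g (base n))))]
  have hcont2 : Continuous fun g : SUGroup n => dT 1 ((t : ℂ) • L (act g (base n))) :=
    continuousOn_dT.comp_continuous (f := fun g : SUGroup n => ((1 : Mat m),
      (t : ℂ) • L (act g (base n)))) (continuous_const.prodMk (met_cont htL))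
      fun g => ⟨Matrix.PosDef.one, met_pos htL g⟩
  have hcont1 : Continuous fun g : SUGroup n => dT A₀ (L (act g (base n))) :=
    continuousOn_dT.comp_continuous (f := fun g : SUGroup n => (A₀, L (act g (base n))))
      (continuous_const.prodMk (met_cont hL)) fun g => ⟨hA₀p, met_pos hL g⟩
  have hBf : (mu n) {g : SUGroup n | ch g ≤ r} ≠ ⊤ := (isCompact_ball r).measure_lt_top.ne
  have hi1 : IntegrableOn (fun g : SUGroup n => dT A₀ (L (act g (base n))) ^ 2)
      {g : SUGroup n | ch g ≤ r} (mu n) :=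
    (hcont1.pow 2).continuousOn.integrableOn_compact (isCompact_ball r)
  have hi0 : IntegrableOn (fun _ : SUGroup n => 2 * c4 ^ 2) {g : SUGroup n | ch g ≤ r} (mu n) :=
    integrableOn_const hBf
  have e4 : ∫ g in {g : SUGroup n | ch g ≤ r}, dT A₀ (L (act g (base n))) ^ 2 ∂(mu n) ≤
      κ (4 * r) := by
    refine le_trans ?_ (ho (4 * r))
    have hcx : Continuous fun x => dd L L x g₀ := by
      have h1 : Continuous fun x : SUGroup n => L (act (g₀ * x) (base n)) :=
        (met_cont hL).comp (continuous_const_mul g₀)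
      unfold dd
      exact continuousOn_dT.comp_continuous (f := fun x : SUGroup n =>
        (L (act g₀ (base n)), L (act (g₀ * x) (base n)))) (continuous_const.prodMk h1)
        fun x => ⟨met_pos hL _, met_pos hL _⟩
    rw [osc, ← integral_indicator (measurableSet_ball r), ← integral_indicator (measurableSet_ball _),
      ← integral_mul_left_eq_self (μ := mu n) _ g₀]
    refine integral_mono ((hi1.integrable_indicator (measurableSet_ball r)).comp_mul_left g₀)
      (((hcx.pow 2).continuousOn.integrableOn_compact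
        (isCompact_ball _)).integrable_indicator (measurableSet_ball _)) fun x => ?_
    beta_reduce
    by_cases hx : ch (g₀ * x) ≤ r
    · have hx2 : ch x ≤ 4 * r := by
        have h1 := ch_mul_le' g₀⁻¹ (g₀ * x)
        rw [inv_mul_cancel_left, ch_inv] at h1
        have h2 := one_le_ch g₀
        have h3 := one_le_ch (g₀ * x)
        nlinarith
      rw [Set.indicator_of_mem (show g₀ * x ∈ {g : SUGroup n | ch g ≤ r} from hx),
        Set.indicator_of_mem (show x ∈ {g : SUGroup n | ch g ≤ 4 * r} from hx2)]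
      exact le_rfl
    · rw [Set.indicator_of_notMem (show g₀ * x ∉ {g : SUGroup n | ch g ≤ r} from hx)]
      exact Set.indicator_nonneg (fun _ _ => sq_nonneg _) _
  calc ∫ g in {g : SUGroup n | ch g ≤ r}, dT 1 ((t : ℂ) • L (act g (base n))) ^ 2 ∂(mu n)
      ≤ ∫ g in {g : SUGroup n | ch g ≤ r}, (2 * c4 ^ 2 + 2 * dT A₀ (L (act g (base n))) ^ 2)
          ∂(mu n) :=
        setIntegral_mono_on ((hcont2.pow 2).continuousOn.integrableOn_compact
          (isCompact_ball r)) (hi0.add (hi1.const_mul 2)) (measurableSet_ball r) hpt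
    _ = (2 * c4 ^ 2) * (mu n).real {g : SUGroup n | ch g ≤ r} +
          2 * ∫ g in {g : SUGroup n | ch g ≤ r}, dT A₀ (L (act g (base n))) ^ 2 ∂(mu n) := by
        have e5 : ∫ g in {g : SUGroup n | ch g ≤ r}, 2 * dT A₀ (L (act g (base n))) ^ 2 ∂(mu n) =
            2 * ∫ g in {g : SUGroup n | ch g ≤ r}, dT A₀ (L (act g (base n))) ^ 2 ∂(mu n) :=
          integral_const_mul _ _
        rw [integral_add hi0 (hi1.const_mul 2), e5, setIntegral_const, smul_eq_mul,
          mul_comm ((mu n).real _)]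
    _ ≤ _ := by linarith

end Pool.Agent.Lib.MP_5d4057_al.NU.LG
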