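import Pool.Agent.Lib.MP_5d4057_al.NU.LGD

/-!
Normalised critical pairs for a lattice.
-/

namespace Pool.Agent.Lib.MP_5d4057_al.NU.LG

open Matrix MeasureTheory Filter Topology Pool.Agent.Lib.MP_5d4057_al Pool.Agent.Lib.MP_5d4057_al.Hyb
open Pool.Agent.Lib.MP_5d4057_al.HM Pool.Agent.Lib.MP_5d4057_al.HM.DD

open scoped ComplexOrder MatrixOrder Matrix.Norms.L2Operator ENNReal

variable {n m : ℕ} {Γ : Subgroup (SUGroup n)} {ρ : Γ →* Mat m} {χ : SUGroup n → ℝ}

/-- A normalised critical pair at level `s`. -/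
structure NorG (ρ : Γ →* Mat m) (χ : SUGroup n → ℝ) (C : ℝ) (D : ℝ → ℝ) (s : ℕ)
    (H L : Vec n → Mat m) : Prop where
  pair : Pair ρ s H L
  fLL : FD χ L L
  fLH : FD χ L H
  dL : ∀ x, disp χ L L x ≤ C * (Real.log (wt x) + 1 / Real.sqrt s)
  dLH : disp χ L H 1 ≤ C / Real.sqrt s
  cL : ∀ R, ∫ g in {g : SUGroup n | ch g ≤ R}, dT 1 (L (act g (base n))) ^ 2 ∂(mu n) ≤ D R
  cH : ∀ R, ∫ g in {g : SUGroup n | ch g ≤ R}, dT 1 (H (act g (base n))) ^ 2 ∂(mu n) ≤ D R

theorem dT_one_inv {a : Mat m} (ha : a.PosDef) : dT 1 a⁻¹ = dT 1 a := by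
  have h := dT_inv (Matrix.PosDef.one (n := Fin m) (R := ℂ)) ha
  rwa [inv_one] at h

theorem NorG.inv {C : ℝ} {D : ℝ → ℝ} {s : ℕ} {H L : Vec n → Mat m}
    (h : NorG ρ χ C D s H L) :
    NorG (dual ρ) χ C D s (fun v => (H v)⁻¹) (fun v => (L v)⁻¹) where
  pair := h.pair.inv
  fLL := h.fLL.inv h.pair.metL h.pair.metL
  fLH := h.fLH.inv h.pair.metL h.pair.metH
  dL x := by
    rw [disp_inv χ h.pair.metL h.pair.metL]
    exact h.dL x
  dLH := by
    rw [disp_inv χ h.pair.metL h.pair.metH]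
    exact h.dLH
  cL R := by
    have e : ∀ g : SUGroup n, dT 1 (L (act g (base n)))⁻¹ = dT 1 (L (act g (base n))) :=
      fun g => dT_one_inv (met_pos h.pair.metL g)
    simp only [e]
    exact h.cL R
  cH R := by
    have e : ∀ g : SUGroup n, dT 1 (H (act g (base n)))⁻¹ = dT 1 (H (act g (base n))) :=
      fun g => dT_one_inv (met_pos h.pair.metH g)
    simp only [e]
    exact h.cH R

theorem continuous_dT_one {L : Vec n → Mat m} (hL : Met ρ L) :
    Continuous fun g : SUGroup n => dT 1 (L (act g (base n))) :=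
  continuousOn_dT.comp_continuous (f := fun g : SUGroup n => ((1 : Mat m), L (act g (base n))))
    (continuous_const.prodMk (met_cont hL)) fun g => ⟨Matrix.PosDef.one, met_pos hL g⟩

/-- **Normalisation of critical pairs.** -/
theorem nor_of (hn : 1 ≤ n) (hm : 0 < m) (hχ : CutG Γ χ) (hρ : Submodule.span ℂ (Set.range ρ) = ⊤)
    (c : ℝ) : ∃ (C : ℝ) (D : ℝ → ℝ), 0 < C ∧
    ∀ s, 2 * n + 2 ≤ s → ∀ H L : Vec n → Mat m, Pair ρ s H L → FD χ L L → FD χ L H →
      LE χ s H L ≤ ENNReal.ofReal (c / s) →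
      ∃ t : ℝ, 0 < t ∧ NorG ρ χ C D s (fun v => (t : ℂ) • H v) (fun v => (t : ℂ) • L v) := by
  set c' : ℝ := |c| + 1 with hc
  have hc0 : 0 < c' := by positivity
  have hn' : (1 : ℝ) ≤ n := by exact_mod_cast hn
  set K : ℝ := 2 * Real.sqrt (8 * c') * (30 * n + 2) with hK
  have hK0 : 0 < K := by positivity
  obtain ⟨D, h3⟩ := centre hm hχ hρ K
  set K2 : ℝ := Real.sqrt (8 * c') * (240 * n * Real.sqrt n + 5) with hK2
  have hK20 : 0 < K2 := by positivity
  choose KR hKR0 hKR using fun R => int_le_II (n := n) hχ R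
  refine ⟨K + K2, fun R => 2 * D R + 2 * (KR R * K2 ^ 2) + |D R|, by positivity,
    fun s hs3 H L hp hLL hLH' hEn => ?_⟩
  have hs0 : (2 : ℝ) * n + 2 ≤ s := by exact_mod_cast hs3
  have hsp : (0 : ℝ) < s := by linarith
  have hsq1 : 1 ≤ Real.sqrt s := Real.one_le_sqrt.2 (by linarith)
  have hsq : 0 < Real.sqrt s := by linarith
  have mH := hp.metH
  have mL := hp.metL
  have hE : LE χ s H L ≤ ENNReal.ofReal (c' / s) := by
    refine le_trans hEn (ENNReal.ofReal_le_ofReal ?_)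
    apply div_le_div_of_nonneg_right _ hsp.le
    have := le_abs_self c
    linarith
  obtain ⟨i1, i2⟩ := integral_disp_le hχ mL mH hLH' (by positivity) hE
  have hmass := good_mass hχ hn hs3 mL mH hc0 i1 i2
  have hb : ∀ x, disp χ L L x ≤ K * (Real.log (wt x) + 1 / Real.sqrt s) := by
    intro x
    refine (disp_bound hχ hn hs3 mL mH hLL hLH' hc0 hmass x).trans ?_
    have h4 := log_wt_nonneg x
    have h5 : 0 < 1 / Real.sqrt s := by positivity
    have h6 : 2 / Real.sqrt s = 2 * (1 / Real.sqrt s) := by ring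
    have h7 : 30 * n * Real.log (wt x) + 2 / Real.sqrt s ≤
        (30 * n + 2) * (Real.log (wt x) + 1 / Real.sqrt s) := by
      rw [h6]
      nlinarith
    have h8 : 0 ≤ 2 * Real.sqrt (8 * c') := by positivity
    have h9 := mul_le_mul_of_nonneg_left h7 h8
    rw [hK]
    linarith
  have hLH : disp χ L H 1 ≤ K2 / Real.sqrt s :=
    disp_LH hχ hn hs3 mL mH hLL hLH' hc0 hmass
  obtain ⟨t, ht, hcen⟩ := h3 L mL hLL fun x => by
    refine (hb x).trans (mul_le_mul_of_nonneg_left ?_ hK0.le)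
    have : 1 / Real.sqrt s ≤ 1 := by
      rw [div_le_one hsq]
      exact hsq1
    linarith
  have tH := smul_met mH ht
  have tL := smul_met mL ht
  refine ⟨t, ht, DD.Pair.csmul hp ht, hLL.smul ht, hLH'.smul ht, fun x => ?_, ?_, fun R => ?_,
    fun R => ?_⟩
  · rw [disp_smul _ _ _ ht]
    refine (hb x).trans (mul_le_mul_of_nonneg_right (by linarith) ?_)
    have := log_wt_nonneg x
    positivity
  · rw [disp_smul _ _ _ ht]
    exact hLH.trans (div_le_div_of_nonneg_right (by linarith) hsq.le)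
  · refine (hcen R).trans ?_
    have h5 := hKR0 R
    have h6 : 0 ≤ KR R * K2 ^ 2 := by positivity
    have h7 := neg_abs_le (D R)
    linarith
  · have h5 : IntegrableOn (fun g => dT 1 ((t : ℂ) • L (act g (base n))) ^ 2)
        {g : SUGroup n | ch g ≤ R} (mu n) :=
      ((continuous_dT_one tL).pow 2).continuousOn.integrableOn_compact (isCompact_ball R)
    obtain ⟨h6, h7⟩ := hKR R (fun g => dd L H 1 g ^ 2) (hLH' 1).sq fun g => sq_nonneg _
    have h8 : II χ (fun g => dd L H 1 g ^ 2) ≤ K2 ^ 2 := by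
      rw [← nm_sq hχ]
      have h9 := pow_le_pow_left₀ (disp_nonneg χ L H 1) hLH 2
      refine h9.trans (pow_le_pow_left₀ (by positivity) (div_le_self hK20.le hsq1) 2)
    have h9 : ∫ g in {g : SUGroup n | ch g ≤ R}, dT 1 ((t : ℂ) • H (act g (base n))) ^ 2 ∂(mu n) ≤
        ∫ g in {g : SUGroup n | ch g ≤ R}, (2 * dT 1 ((t : ℂ) • L (act g (base n))) ^ 2 +
          2 * dd L H 1 g ^ 2) ∂(mu n) := by
      refine setIntegral_mono_on
        (((continuous_dT_one tH).pow 2).continuousOn.integrableOn_compact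
        (isCompact_ball R)) ((h5.const_mul 2).add (h6.const_mul 2)) (measurableSet_ball R)
        fun g _ => ?_
      have e1 := dT_triangle (Matrix.PosDef.one (n := Fin m) (R := ℂ)) (met_pos tL g) (met_pos tH g)
      have e2 : dT 1 ((t : ℂ) • H (act g (base n))) ≤
          dT 1 ((t : ℂ) • L (act g (base n))) + dd L H 1 g := by
        unfold dd
        rw [mul_one]
        rw [dT_smul ht] at e1
        exact e1
      have e3 := pow_le_pow_left₀ (dT_nonneg _ _) e2 2
      nlinarith [sq_nonneg (dT 1 ((t : ℂ) • L (act g (base n))) - dd L H 1 g)]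
    have h10 : ∫ g in {g : SUGroup n | ch g ≤ R}, (2 * dT 1 ((t : ℂ) • L (act g (base n))) ^ 2 +
          2 * dd L H 1 g ^ 2) ∂(mu n) =
        2 * ∫ g in {g : SUGroup n | ch g ≤ R}, dT 1 ((t : ℂ) • L (act g (base n))) ^ 2 ∂(mu n) +
        2 * ∫ g in {g : SUGroup n | ch g ≤ R}, dd L H 1 g ^ 2 ∂(mu n) := by
      rw [← integral_const_mul, ← integral_const_mul]
      exact integral_add (h5.const_mul 2) (h6.const_mul 2)
    have h11 := hcen R
    have h12 : KR R * II χ (fun g => dd L H 1 g ^ 2) ≤ KR R * K2 ^ 2 :=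
      mul_le_mul_of_nonneg_left h8 (hKR0 R).le
    have h13 := abs_nonneg (D R)
    linarith

end Pool.Agent.Lib.MP_5d4057_al.NU.LG
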