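import Pool.Agent.Lib.MP_5d4057_al.NU.LGE
import Pool.Agent.Lib.MP_5d4057_al.HM.Lim1

/-!
The trace of normalised critical pairs is bounded in measure.
-/

namespace Pool.Agent.Lib.MP_5d4057_al.NU.LG

open Matrix MeasureTheory Filter Topology Pool.Agent.Lib.MP_5d4057_al Pool.Agent.Lib.MP_5d4057_al.Hyb
open Pool.Agent.Lib.MP_5d4057_al.HM Pool.Agent.Lib.MP_5d4057_al.HM.DD

open scoped ComplexOrder MatrixOrder Matrix.Norms.L2Operator ENNReal

variable {n m : ℕ} {Γ : Subgroup (SUGroup n)} {ρ : Γ →* Mat m} {χ : SUGroup n → ℝ}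

/-- The bound of the trace in measure (Chebyshev). -/
theorem vol_bound (n m : ℕ) (D : ℝ → ℝ) : ∃ ψ : ℝ → ℝ → ℝ,
    (∀ R, Tendsto (ψ R) atTop (𝓝 0)) ∧ ∀ (Γ : Subgroup (SUGroup n)) (ρ : Γ →* Mat m)
      (χ : SUGroup n → ℝ) (C₀ : ℝ) (s : ℕ) (H L : Vec n → Mat m), NorG ρ χ C₀ D s H L → ∀ R T,
      (mu n).real {g | ch g ≤ R ∧
        T < (H (act g (base n)) + L (act g (base n))).trace.re} ≤ ψ R T := by
  set c : ℝ := (m : ℝ) + 1 with hc
  have hc0 : 0 < c := by positivity
  refine ⟨fun R T => if 2 * c < T then 2 * D R / Real.log (T / (2 * c)) ^ 2 else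
    (mu n).real {g : SUGroup n | ch g ≤ R}, fun R => ?_, fun Γ ρ χ C₀ s H L h R T => ?_⟩
  · have h1 : Tendsto (fun T : ℝ => 2 * D R / Real.log (T / (2 * c)) ^ 2) atTop (𝓝 0) := by
      apply Tendsto.const_div_atTop
      apply (tendsto_pow_atTop (two_ne_zero)).comp
      apply Real.tendsto_log_atTop.comp
      exact tendsto_id.atTop_div_const (by positivity)
    refine h1.congr' ?_
    filter_upwards [eventually_gt_atTop (2 * c)] with T hT
    rw [if_pos hT]
  · beta_reduce
    have hfin : (mu n) {g : SUGroup n | ch g ≤ R} ≠ ⊤ := (isCompact_ball R).measure_lt_top.ne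
    split_ifs with hT
    · have hu : 0 < Real.log (T / (2 * c)) := by
        apply Real.log_pos
        rw [one_lt_div (by positivity)]
        exact hT
      set u := Real.log (T / (2 * c)) with hu'
      have hmH := h.pair.metH
      have hmL := h.pair.metL
      set f : SUGroup n → ℝ := fun g => dT 1 (H (act g (base n))) ^ 2 +
        dT 1 (L (act g (base n))) ^ 2 with hf
      have c1 := continuous_dT_one hmH
      have c2 := continuous_dT_one hmL
      have hcf : Continuous f := (c1.pow 2).add (c2.pow 2)
      have hf0 : ∀ g, 0 ≤ f g := fun g => by positivity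
      have h3 : ∫ g in {g : SUGroup n | ch g ≤ R}, f g ∂(mu n) ≤ 2 * D R := by
        have h4 : ∫ g in {g : SUGroup n | ch g ≤ R}, f g ∂(mu n) =
            ∫ g in {g : SUGroup n | ch g ≤ R}, dT 1 (H (act g (base n))) ^ 2 ∂(mu n) +
            ∫ g in {g : SUGroup n | ch g ≤ R}, dT 1 (L (act g (base n))) ^ 2 ∂(mu n) :=
          integral_add ((c1.pow 2).continuousOn.integrableOn_compact (isCompact_ball R))
            ((c2.pow 2).continuousOn.integrableOn_compact (isCompact_ball R))
        rw [h4]
        have h5 := h.cH R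
        have h6 := h.cL R
        linarith
      have h7 : {g : SUGroup n | ch g ≤ R ∧
          T < (H (act g (base n)) + L (act g (base n))).trace.re} ⊆
          {g : SUGroup n | ch g ≤ R} ∩ {g | u ^ 2 ≤ f g} := by
        rintro g ⟨hg, hg2⟩
        refine ⟨hg, ?_⟩
        show u ^ 2 ≤ f g
        by_contra hlt
        rw [not_le] at hlt
        have e1 : dT 1 (H (act g (base n))) < u := by
          have : dT 1 (H (act g (base n))) ^ 2 < u ^ 2 := by
            have := sq_nonneg (dT 1 (L (act g (base n))))
            simp only [hf] at hlt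
            linarith
          exact lt_of_pow_lt_pow_left₀ 2 hu.le this
        have e2 : dT 1 (L (act g (base n))) < u := by
          have : dT 1 (L (act g (base n))) ^ 2 < u ^ 2 := by
            have := sq_nonneg (dT 1 (H (act g (base n))))
            simp only [hf] at hlt
            linarith
          exact lt_of_pow_lt_pow_left₀ 2 hu.le this
        have e3 := trace_le_dT (met_pos hmH g) (Matrix.PosDef.one (n := Fin m) (R := ℂ))
        have e4 := trace_le_dT (met_pos hmL g) (Matrix.PosDef.one (n := Fin m) (R := ℂ))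
        have e5 : ((1 : Mat m).trace).re ≤ c := by
          rw [Matrix.trace_one, Fintype.card_fin, Complex.natCast_re, hc]
          linarith
        have e6 : Real.exp u = T / (2 * c) := by
          rw [hu', Real.exp_log]
          have hT0 : 0 < T := by linarith
          positivity
        have e7 : 0 ≤ ((1 : Mat m).trace).re := by
          rw [Matrix.trace_one, Fintype.card_fin, Complex.natCast_re]
          exact Nat.cast_nonneg m
        have e8 : (H (act g (base n))).trace.re ≤ Real.exp u * c :=
          e3.trans (mul_le_mul (Real.exp_le_exp.2 e1.le) e5 e7 (Real.exp_pos _).le)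
        have e9 : (L (act g (base n))).trace.re ≤ Real.exp u * c :=
          e4.trans (mul_le_mul (Real.exp_le_exp.2 e2.le) e5 e7 (Real.exp_pos _).le)
        have e10 : Real.exp u * c = T / 2 := by
          rw [e6]
          field_simp
        rw [trace_add, Complex.add_re] at hg2
        linarith
      have hms : MeasurableSet {g : SUGroup n | u ^ 2 ≤ f g} :=
        (isClosed_le continuous_const hcf).measurableSet
      have h8 : (mu n).real ({g : SUGroup n | ch g ≤ R} ∩ {g | u ^ 2 ≤ f g}) * u ^ 2 ≤
          ∫ g in {g : SUGroup n | ch g ≤ R}, f g ∂(mu n) := by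
        have hfin2 : (mu n) ({g : SUGroup n | ch g ≤ R} ∩ {g | u ^ 2 ≤ f g}) ≠ ⊤ :=
          measure_ne_top_of_subset Set.inter_subset_left hfin
        have hi : IntegrableOn f {g : SUGroup n | ch g ≤ R} (mu n) :=
          hcf.continuousOn.integrableOn_compact (isCompact_ball R)
        calc (mu n).real ({g : SUGroup n | ch g ≤ R} ∩ {g | u ^ 2 ≤ f g}) * u ^ 2
            = ∫ g in {g : SUGroup n | ch g ≤ R} ∩ {g | u ^ 2 ≤ f g}, u ^ 2 ∂(mu n) := by
              rw [setIntegral_const, smul_eq_mul]
          _ ≤ ∫ g in {g : SUGroup n | ch g ≤ R} ∩ {g | u ^ 2 ≤ f g}, f g ∂(mu n) := by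
              refine setIntegral_mono_on (integrableOn_const hfin2) (hi.mono_set Set.inter_subset_left)
                ((measurableSet_ball R).inter hms) fun g hg => hg.2
          _ ≤ ∫ g in {g : SUGroup n | ch g ≤ R}, f g ∂(mu n) :=
              setIntegral_mono_set hi (ae_of_all _ hf0)
                (Set.inter_subset_left.eventuallyLE)
      have h9 : (mu n).real {g : SUGroup n | ch g ≤ R ∧
          T < (H (act g (base n)) + L (act g (base n))).trace.re} ≤
          (mu n).real ({g : SUGroup n | ch g ≤ R} ∩ {g | u ^ 2 ≤ f g}) :=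
        measureReal_mono h7 (measure_ne_top_of_subset Set.inter_subset_left hfin)
      rw [le_div_iff₀ (by positivity)]
      have h11 := mul_le_mul_of_nonneg_right h9 (sq_nonneg u)
      linarith
    · exact measureReal_mono (fun g hg => hg.1) hfin

end Pool.Agent.Lib.MP_5d4057_al.NU.LG
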