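import Pool.Agent.Lib.MP_5d4057_al.NU.LGE
import Pool.Agent.Lib.MP_5d4057_al.HM.Lim2A

/-!
The averages `P_t L` approximate `L` in `L¹_loc`, uniformly in the metric `L`.
-/

namespace Pool.Agent.Lib.MP_5d4057_al.NU.LG

open Matrix MeasureTheory Filter Topology Pool.Agent.Lib.MP_5d4057_al Pool.Agent.Lib.MP_5d4057_al.Hyb
open Pool.Agent.Lib.MP_5d4057_al.HM Pool.Agent.Lib.MP_5d4057_al.HM.DD

open scoped ComplexOrder MatrixOrder Matrix.Norms.L2Operator

variable {n m : ℕ} {Γ : Subgroup (SUGroup n)}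

/-- Cauchy-Schwarz for the constant function. -/
private theorem l2b_cs {X : Type} [MeasurableSpace X] {ν : Measure X} [IsFiniteMeasure ν] {f : X → ℝ}
    (hf : Integrable f ν) (hf2 : Integrable (fun x => f x ^ 2) ν) (h0 : ∀ x, 0 ≤ f x) :
    ∫ x, f x ∂ν ≤ Real.sqrt (ν.real Set.univ) * Real.sqrt (∫ x, f x ^ 2 ∂ν) := by
  set V := ν.real Set.univ with hV
  have hV0 : 0 ≤ V := measureReal_nonneg
  have hI0 : 0 ≤ ∫ x, f x ^ 2 ∂ν := integral_nonneg fun x => sq_nonneg _
  have key : ∀ c : ℝ, 0 ≤ ∫ x, f x ^ 2 ∂ν - 2 * c * ∫ x, f x ∂ν + c ^ 2 * V := by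
    intro c
    have h1 : ∫ x, (f x ^ 2 - 2 * c * f x + c ^ 2) ∂ν =
        ∫ x, f x ^ 2 ∂ν - 2 * c * ∫ x, f x ∂ν + c ^ 2 * V := by
      rw [integral_add (f := fun x => f x ^ 2 - 2 * c * f x) (g := fun _ => c ^ 2)
        (hf2.sub (hf.const_mul _)) (integrable_const _),
        integral_sub (f := fun x => f x ^ 2) (g := fun x => 2 * c * f x) hf2 (hf.const_mul _),
        integral_const_mul, integral_const, smul_eq_mul, mul_comm V]
    rw [← h1]
    refine integral_nonneg fun x => ?_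
    have h2 : f x ^ 2 - 2 * c * f x + c ^ 2 = (f x - c) ^ 2 := by ring
    show 0 ≤ f x ^ 2 - 2 * c * f x + c ^ 2
    rw [h2]
    exact sq_nonneg _
  rw [← Real.sqrt_mul hV0]
  refine Real.le_sqrt_of_sq_le ?_
  rcases hV0.eq_or_lt with h | h
  · have h3 : ν = 0 := by
      have h4 : ν Set.univ = 0 := by
        have h5 : (ν Set.univ).toReal = 0 := by
          rw [← measureReal_def, ← hV, ← h]
        exact (ENNReal.toReal_eq_zero_iff _).1 h5 |>.resolve_right (measure_ne_top _ _)
      exact Measure.measure_univ_eq_zero.1 h4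
    rw [h3]
    simp
  · have h3 := key ((∫ x, f x ∂ν) / V)
    have h4 : ∫ x, f x ^ 2 ∂ν - 2 * ((∫ x, f x ∂ν) / V) * ∫ x, f x ∂ν +
        ((∫ x, f x ∂ν) / V) ^ 2 * V = ∫ x, f x ^ 2 ∂ν - (∫ x, f x ∂ν) ^ 2 / V := by
      field_simp
      ring
    rw [h4] at h3
    have h5 : (∫ x, f x ∂ν) ^ 2 / V ≤ ∫ x, f x ^ 2 ∂ν := by linarith
    rwa [div_le_iff₀ h, mul_comm] at h5

/-- The pointwise bound. -/
private theorem l2b_pt {ρ : Γ →* Mat m} {N t : ℕ} (ht : n + N < t) {C R : ℝ} {L : Vec n → Mat m}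
    (hL : Met ρ L) (hC : 0 ≤ C) (hR : 0 ≤ R)
    (hb : ∀ g : SUGroup n, ‖L (act g (base n))‖ ≤ C * ch g ^ (2 * N)) {g : SUGroup n}
    (hg : ch g ≤ R) :
    ENNReal.ofReal ‖P t L (act g (base n)) - L (act g (base n))‖ ≤
      ∫⁻ x, ENNReal.ofReal ((12 * 4 ^ N * C * R ^ (2 * N)) * (kap t x * ch x ^ (2 * N)) *
        dd L L x g) ∂(mu n) := by
  have hcg : Continuous fun x : SUGroup n => L (act (g * x) (base n)) :=
    (met_cont hL).comp (continuous_const_mul g)
  have hbx : ∀ x : SUGroup n, ‖L (act (g * x) (base n))‖ ≤ 4 ^ N * C * R ^ (2 * N) * ch x ^ (2 * N) := by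
    intro x
    refine (hb (g * x)).trans ?_
    have h1 : ch (g * x) ≤ 2 * R * ch x :=
      (ch_mul_le' g x).trans (mul_le_mul_of_nonneg_right (by linarith) (ch_pos x).le)
    have h2 := pow_le_pow_left₀ (ch_pos (g * x)).le h1 (2 * N)
    refine (mul_le_mul_of_nonneg_left h2 hC).trans (le_of_eq ?_)
    rw [mul_pow, mul_pow, pow_mul 2 2 N]
    norm_num
    ring
  have hbg : ∀ x : SUGroup n, ‖L (act g (base n))‖ ≤ 4 ^ N * C * R ^ (2 * N) * ch x ^ (2 * N) := by
    intro x
    have h1 := (hb g).trans (mul_le_mul_of_nonneg_left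
      (pow_le_pow_left₀ (ch_pos g).le hg (2 * N)) hC)
    refine h1.trans ?_
    have h2 : (1 : ℝ) ≤ 4 ^ N := one_le_pow₀ (by norm_num)
    have h3 : (1 : ℝ) ≤ ch x ^ (2 * N) := one_le_pow₀ (one_le_ch x)
    have h4 : 0 ≤ C * R ^ (2 * N) := mul_nonneg hC (pow_nonneg hR _)
    calc C * R ^ (2 * N) = C * R ^ (2 * N) * 1 * 1 := by ring
      _ ≤ C * R ^ (2 * N) * 4 ^ N * ch x ^ (2 * N) := by gcongr
      _ = _ := by ring
  have hi1 : Integrable (fun x => kap t x • L (act (g * x) (base n))) (mu n) := by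
    refine ((integrable_kap_pow ht).const_mul (4 ^ N * C * R ^ (2 * N))).mono'
      ((continuous_kap t).smul hcg).aestronglyMeasurable (ae_of_all _ fun x => ?_)
    rw [norm_smul, Real.norm_of_nonneg (kap_nonneg t x)]
    refine (mul_le_mul_of_nonneg_left (hbx x) (kap_nonneg t x)).trans (le_of_eq ?_)
    ring
  have hi2 : Integrable (fun x => kap t x • L (act g (base n))) (mu n) :=
    (integrable_kap (by omega)).smul_const _
  have e1 : P t L (act g (base n)) - L (act g (base n)) =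
      ∫ x, (kap t x • L (act (g * x) (base n)) - kap t x • L (act g (base n))) ∂(mu n) := by
    rw [integral_sub hi1 hi2, ← P_orbit, integral_smul_const, integral_kap (by omega), one_smul]
  rw [e1, ofReal_norm]
  refine (enorm_integral_le_lintegral_enorm _).trans (lintegral_mono fun x => ?_)
  rw [← smul_sub, ← ofReal_norm]
  refine ENNReal.ofReal_le_ofReal ?_
  rw [norm_smul, Real.norm_of_nonneg (kap_nonneg t x)]
  have h1 := norm_sub_le_dT (met_pos hL g) (met_pos hL (g * x))
  have h2 : ‖L (act g (base n))‖ + ‖L (act (g * x) (base n))‖ ≤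
      2 * (4 ^ N * C * R ^ (2 * N) * ch x ^ (2 * N)) := by linarith [hbg x, hbx x]
  have h3 : 0 ≤ 6 * dT (L (act g (base n))) (L (act (g * x) (base n))) :=
    mul_nonneg (by norm_num) (dT_nonneg _ _)
  have h4 := h1.trans (mul_le_mul_of_nonneg_left h2 h3)
  refine (mul_le_mul_of_nonneg_left h4 (kap_nonneg t x)).trans (le_of_eq ?_)
  rw [dd]
  ring

/-- The averages approximate `L` in `L¹` of a ball. -/
theorem lap_l1 {χ : SUGroup n → ℝ} (hχ : CutG Γ χ) (ρ : Γ →* Mat m) (N : ℕ) (C R : ℝ) :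
    ∃ (t₀ : ℕ) (D : ℝ), ∀ t : ℕ, t₀ ≤ t → ∀ (s : ℕ) (L : Vec n → Mat m), Met ρ L → FD χ L L →
      (∀ g : SUGroup n, ‖L (act g (base n))‖ ≤ C * ch g ^ (2 * N)) →
      (∀ x, disp χ L L x ≤ C * (Real.log (wt x) + 1 / Real.sqrt s)) →
      ∫ g in {g : SUGroup n | ch g ≤ R}, ‖P t L (act g (base n)) - L (act g (base n))‖ ∂(mu n) ≤
        D * (1 / Real.sqrt t + 1 / Real.sqrt s) := by
  obtain ⟨K, hK, hII⟩ := int_le_II (n := n) hχ R
  obtain ⟨t1, h1⟩ := P_contDiffOn (E := Mat m) n N
  obtain ⟨t2, C1, hC1, h2⟩ := mom_rpow n N (θ := 1 / 2) (by norm_num)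
  set B : Set (SUGroup n) := {g : SUGroup n | ch g ≤ R} with hB
  have hBm : MeasurableSet B := (isClosed_le continuous_ch continuous_const).measurableSet
  have hBf : IsFiniteMeasure ((mu n).restrict B) :=
    ⟨by rw [Measure.restrict_apply_univ]; exact (isCompact_ball R).measure_lt_top⟩
  set V : ℝ := ((mu n).restrict B).real Set.univ with hV
  have hV0 : 0 ≤ V := measureReal_nonneg
  set A : ℝ := 12 * 4 ^ N * |C| * |R| ^ (2 * N) with hA
  have hA0 : 0 ≤ A := by positivity
  set W : ℝ := A * (Real.sqrt (V * K) * |C|) with hW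
  have hW0 : 0 ≤ W := by positivity
  refine ⟨t1 + t2 + n + N + 1, W * (C1 + ((n : ℝ) + 1) ^ N), fun t ht s L hL hLL hb hd => ?_⟩
  have htp : (0 : ℝ) < t := by
    have : 0 < t := by omega
    exact_mod_cast this
  have hb' : ∀ g : SUGroup n, ‖L (act g (base n))‖ ≤ |C| * ch g ^ (2 * N) := fun g =>
    (hb g).trans (mul_le_mul_of_nonneg_right (le_abs_self C) (pow_nonneg (ch_pos g).le _))
  have hs0 : 0 ≤ 1 / Real.sqrt s := by positivity
  have hd' : ∀ x, disp χ L L x ≤ |C| * (Real.sqrt (ch x ^ 2 - 1) + 1 / Real.sqrt s) := by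
    intro x
    refine (hd x).trans ?_
    have h3 := log_wt_le x
    have h4 := log_wt_nonneg x
    exact mul_le_mul (le_abs_self C) (by linarith) (by linarith) (abs_nonneg C)
  -- the integral of the distance over the ball
  have hball : ∀ x, ∫⁻ g in B, ENNReal.ofReal (dd L L x g) ∂(mu n) ≤
      ENNReal.ofReal (Real.sqrt (V * K) * disp χ L L x) := by
    intro x
    have hi1 : Integrable (dd L L x) ((mu n).restrict B) :=
      (continuous_dd_right hL hL x).continuousOn.integrableOn_compact (isCompact_ball R)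
    have hi2 : Integrable (fun g => dd L L x g ^ 2) ((mu n).restrict B) :=
      ((continuous_dd_right hL hL x).pow 2).continuousOn.integrableOn_compact (isCompact_ball R)
    rw [← ofReal_integral_eq_lintegral_ofReal hi1 (ae_of_all _ fun g => dd_nonneg L L x g)]
    refine ENNReal.ofReal_le_ofReal ((l2b_cs hi1 hi2 fun g => dd_nonneg L L x g).trans ?_)
    have h3 := (hII (fun g => dd L L x g ^ 2) (hLL x).sq fun g => sq_nonneg _).2
    have h4 : Real.sqrt (∫ g in B, dd L L x g ^ 2 ∂(mu n)) ≤ Real.sqrt K * disp χ L L x := by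
      refine (Real.sqrt_le_sqrt h3).trans (le_of_eq ?_)
      rw [Real.sqrt_mul hK.le]
      rfl
    calc _ ≤ Real.sqrt V * (Real.sqrt K * disp χ L L x) :=
          mul_le_mul_of_nonneg_left h4 (Real.sqrt_nonneg _)
      _ = _ := by
        rw [Real.sqrt_mul hV0]
        ring
  -- measurability on the product
  have hcd : Continuous fun p : SUGroup n × SUGroup n => A * (kap t p.2 * ch p.2 ^ (2 * N)) *
      dd L L p.2 p.1 :=
    (continuous_const.mul (((continuous_kap t).comp continuous_snd).mul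
      ((continuous_ch.comp continuous_snd).pow _))).mul (continuous_dd' hL hL)
  have hmeas : AEMeasurable (fun p : SUGroup n × SUGroup n =>
      ENNReal.ofReal (A * (kap t p.2 * ch p.2 ^ (2 * N)) * dd L L p.2 p.1))
      (((mu n).restrict B).prod (mu n)) := hcd.measurable.ennreal_ofReal.aemeasurable
  have hkn : ∀ x : SUGroup n, 0 ≤ kap t x * ch x ^ (2 * N) := fun x =>
    mul_nonneg (kap_nonneg t x) (pow_nonneg (ch_pos x).le _)
  -- the last integral
  obtain ⟨hi3, hle3⟩ := h2 t (by omega)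
  have hi4 : Integrable (fun x : SUGroup n => kap t x * ch x ^ (2 * N)) (mu n) :=
    integrable_kap_pow (by omega)
  have hi5 : Integrable (fun x : SUGroup n => W * (kap t x * (ch x ^ (2 * N) *
      (ch x ^ 2 - 1) ^ (1 / 2 : ℝ)) + (1 / Real.sqrt s) * (kap t x * ch x ^ (2 * N)))) (mu n) :=
    (hi3.add (hi4.const_mul _)).const_mul _
  have hfin : ∫⁻ g in B, ENNReal.ofReal ‖P t L (act g (base n)) - L (act g (base n))‖ ∂(mu n) ≤
      ENNReal.ofReal (W * (C1 + ((n : ℝ) + 1) ^ N) * (1 / Real.sqrt t + 1 / Real.sqrt s)) := by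
    calc _ ≤ ∫⁻ g in B, ∫⁻ x, ENNReal.ofReal (A * (kap t x * ch x ^ (2 * N)) *
            dd L L x g) ∂(mu n) ∂(mu n) := by
          refine setLIntegral_mono_ae' hBm (ae_of_all _ fun g hg => ?_)
          have hg' : ch g ≤ |R| := le_trans hg (le_abs_self R)
          exact l2b_pt (by omega) hL (abs_nonneg C) (abs_nonneg R) hb' hg'
      _ = ∫⁻ x, ∫⁻ g in B, ENNReal.ofReal (A * (kap t x * ch x ^ (2 * N)) *
            dd L L x g) ∂(mu n) ∂(mu n) := lintegral_lintegral_swap hmeas
      _ ≤ ∫⁻ x, ENNReal.ofReal (W * (kap t x * (ch x ^ (2 * N) *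
            (ch x ^ 2 - 1) ^ (1 / 2 : ℝ)) + (1 / Real.sqrt s) * (kap t x * ch x ^ (2 * N)))) ∂(mu n) := by
          refine lintegral_mono fun x => ?_
          have e1 : ∀ g, ENNReal.ofReal (A * (kap t x * ch x ^ (2 * N)) * dd L L x g) =
              ENNReal.ofReal (A * (kap t x * ch x ^ (2 * N))) * ENNReal.ofReal (dd L L x g) :=
            fun g => ENNReal.ofReal_mul (mul_nonneg hA0 (hkn x))
          simp only [e1]
          rw [lintegral_const_mul _
            (continuous_dd_right hL hL x).measurable.ennreal_ofReal]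
          refine (mul_le_mul_right (hball x) _).trans ?_
          rw [← ENNReal.ofReal_mul (mul_nonneg hA0 (hkn x))]
          refine ENNReal.ofReal_le_ofReal ?_
          have h5 : Real.sqrt (V * K) * disp χ L L x ≤ Real.sqrt (V * K) *
              (|C| * (Real.sqrt (ch x ^ 2 - 1) + 1 / Real.sqrt s)) :=
            mul_le_mul_of_nonneg_left (hd' x) (Real.sqrt_nonneg _)
          refine (mul_le_mul_of_nonneg_left h5 (mul_nonneg hA0 (hkn x))).trans (le_of_eq ?_)
          have h6 : Real.sqrt (ch x ^ 2 - 1) = (ch x ^ 2 - 1) ^ (1 / 2 : ℝ) := Real.sqrt_eq_rpow _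
          rw [hW, h6]
          ring
      _ = ENNReal.ofReal (∫ x, W * (kap t x * (ch x ^ (2 * N) *
            (ch x ^ 2 - 1) ^ (1 / 2 : ℝ)) + (1 / Real.sqrt s) * (kap t x * ch x ^ (2 * N))) ∂(mu n)) := by
          refine (ofReal_integral_eq_lintegral_ofReal hi5 (ae_of_all _ fun x => ?_)).symm
          have h6 : 0 ≤ ch x ^ 2 - 1 := sub_nonneg.2 (one_le_pow₀ (one_le_ch x))
          exact mul_nonneg hW0 (add_nonneg (mul_nonneg (kap_nonneg t x) (mul_nonneg
            (pow_nonneg (ch_pos x).le _) (Real.rpow_nonneg h6 _))) (mul_nonneg hs0 (hkn x)))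
      _ ≤ _ := by
          refine ENNReal.ofReal_le_ofReal ?_
          rw [integral_const_mul, integral_add hi3 (hi4.const_mul _), integral_const_mul, mul_assoc W]
          refine mul_le_mul_of_nonneg_left ?_ hW0
          have h7 := integral_kap_pow_le (n := n) (s := t) (N := N) (by omega)
          have h8 : (t : ℝ) ^ (-(1 / 2 : ℝ)) = 1 / Real.sqrt t := by
            rw [Real.rpow_neg htp.le, ← Real.sqrt_eq_rpow, one_div]
          rw [h8] at hle3
          have h9 := mul_le_mul_of_nonneg_left h7 hs0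
          have h10 : 0 ≤ 1 / Real.sqrt t := by positivity
          have h11 : (0 : ℝ) ≤ ((n : ℝ) + 1) ^ N := by positivity
          nlinarith [mul_nonneg hC1.le hs0, mul_nonneg h11 h10]
  have hPc : Continuous fun g : SUGroup n => P t L (act g (base n)) :=
    (h1 t (by omega) |C| L ⟨(met_cont hL).aestronglyMeasurable, hb'⟩).continuousOn.comp_continuous
      continuous_orbit orbit_mem
  have hmm : AEStronglyMeasurable (fun g : SUGroup n =>
      ‖P t L (act g (base n)) - L (act g (base n))‖) ((mu n).restrict B) :=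
    (hPc.sub (met_cont hL)).norm.aestronglyMeasurable
  rw [integral_eq_lintegral_of_nonneg_ae (ae_of_all _ fun g => norm_nonneg _) hmm]
  refine ENNReal.toReal_le_of_le_ofReal ?_ hfin
  exact mul_nonneg (mul_nonneg hW0 (by positivity)) (by positivity)

end Pool.Agent.Lib.MP_5d4057_al.NU.LG
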