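import Pool.Agent.Lib.MP_5d4057_al.NU.PairN

/-!
The approximating sequences `(H_j + L_j) / 2` for a lattice.
-/

namespace Pool.Agent.Lib.MP_5d4057_al.NU.LG

open Matrix MeasureTheory Filter Topology Pool.Agent.Lib.MP_5d4057_al Pool.Agent.Lib.MP_5d4057_al.Hyb
open Pool.Agent.Lib.MP_5d4057_al.HM

open scoped ComplexOrder MatrixOrder Matrix.Norms.L2Operator

variable {n m : ℕ} {Γ : Subgroup (SUGroup n)} {ρ : Γ →* Mat m}

private theorem half_real (A : Mat m) : (1 / 2 : ℂ) • A = (1 / 2 : ℝ) • A := by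
  ext i j
  simp [Matrix.smul_apply]

private theorem half_inv {a b : Mat m} (ha : a.PosDef) (hb : b.PosDef) :
    ‖((1 / 2 : ℂ) • (a + b))⁻¹‖ ≤ 2 * ‖b⁻¹‖ := by
  rw [half_real]
  have hb2 : ((1 / 2 : ℝ) • b).PosDef := hb.smul (by norm_num)
  have ha2 : ((1 / 2 : ℝ) • a).PosDef := ha.smul (by norm_num)
  have h1 : (1 / 2 : ℝ) • b ≤ (1 / 2 : ℝ) • (a + b) := by
    rw [smul_add]
    exact le_add_of_nonneg_left ha2.posSemidef.nonneg
  have hab : ((1 / 2 : ℝ) • (a + b)).PosDef := (ha.add hb).smul (by norm_num)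
  have h3 := inv_le_inv_of_le hb2 h1
  have h4 := CStarAlgebra.norm_le_norm_of_nonneg_of_le hab.inv.posSemidef.nonneg h3
  refine h4.trans (le_of_eq ?_)
  have h5 : ((1 / 2 : ℝ) • b)⁻¹ = (2 : ℝ) • b⁻¹ := by
    apply Matrix.inv_eq_left_inv
    rw [smul_mul_smul_comm, nonsing_inv_mul _ ((isUnit_iff_isUnit_det b).1 hb.isUnit)]
    norm_num
  rw [h5, norm_smul]
  norm_num

/-- The approximating sequences `(H_j + L_j) / 2`. -/
theorem approx_of {N : ℕ} {C : ℝ} {s : ℕ → ℕ} {H L : ℕ → Vec n → Mat m} {F : Vec n → Mat m}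
    (hs : Tendsto s atTop atTop) (hge : ∀ j, n + N < s j) (hP : ∀ j, Pair ρ (s j) (H j) (L j))
    (hH : ∀ j (g : SUGroup n), ‖H j (act g (base n))‖ ≤ C * ch g ^ (2 * N))
    (hL : ∀ j (g : SUGroup n), ‖L j (act g (base n))‖ ≤ C * ch g ^ (2 * N))
    (hHi : ∀ j (g : SUGroup n), ‖(H j (act g (base n)))⁻¹‖ ≤ C * ch g ^ (2 * N))
    (hLi : ∀ j (g : SUGroup n), ‖(L j (act g (base n)))⁻¹‖ ≤ C * ch g ^ (2 * N))
    (hlH : ∀ᵐ g ∂(mu n), Tendsto (fun j => H j (act g (base n))) atTop (𝓝 (F (act g (base n)))))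
    (hlL : ∀ᵐ g ∂(mu n), Tendsto (fun j => L j (act g (base n))) atTop (𝓝 (F (act g (base n))))) :
    Approx N (2 * C) s (fun j v => (1 / 2 : ℂ) • (H j v + L j v)) F := by
  have hmes : ∀ A : Vec n → Mat m, ContinuousOn A (Cone n) → AEStronglyMeasurable
      (fun y : SUGroup n => A (act y (base n))) (mu n) := fun A hA =>
    (hA.comp_continuous continuous_orbit orbit_mem).aestronglyMeasurable
  refine ⟨hs, ?_, ?_, ?_, ?_, ?_, ?_, ?_⟩
  · intro j c hc v hv
    show (1 / 2 : ℂ) • (H j (c • v) + L j (c • v)) = _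
    rw [(hP j).metH.hom c hc v hv, (hP j).metL.hom c hc v hv]
  · intro j
    exact ((hP j).metH.cont.add (hP j).metL.cont).const_smul (1 / 2 : ℂ)
  · intro j v hv
    rw [half_real]
    exact (((hP j).metH.pos v hv).add ((hP j).metL.pos v hv)).smul (by norm_num)
  · intro j g
    have h1 := hH j g
    have h2 := hL j g
    have h3 : ‖(1 / 2 : ℂ) • (H j (act g (base n)) + L j (act g (base n)))‖ ≤
        (1 / 2) * (‖H j (act g (base n))‖ + ‖L j (act g (base n))‖) := by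
      rw [norm_smul]
      have h4 : ‖(1 / 2 : ℂ)‖ = 1 / 2 := by norm_num
      rw [h4]
      exact mul_le_mul_of_nonneg_left (norm_add_le _ _) (by norm_num)
    have h5 : 0 ≤ C * ch g ^ (2 * N) := (norm_nonneg _).trans h1
    linarith
  · intro j g
    refine (half_inv ((hP j).metH.pos _ (orbit_mem g)) ((hP j).metL.pos _ (orbit_mem g))).trans ?_
    have := hLi j g
    linarith
  · intro j
    have a1 : Adm N C (H j) := ⟨hmes (H j) (hP j).metH.cont, hH j⟩
    have a2 : Adm N C (fun v => (H j v)⁻¹) :=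
      ⟨hmes (fun v => (H j v)⁻¹) (met_inv (hP j).metH).cont, hHi j⟩
    have a3 : Adm N C (L j) := ⟨hmes (L j) (hP j).metL.cont, hL j⟩
    have a4 : Adm N C (fun v => (L j v)⁻¹) :=
      ⟨hmes (fun v => (L j v)⁻¹) (met_inv (hP j).metL).cont, hLi j⟩
    have hM := pair_meanN (hge j) (hP j) ⟨C, a1, a3, a2, a4⟩
    intro v hv
    exact hM v hv
  · filter_upwards [hlH, hlL] with g h1 h2
    have h3 := (h1.add h2).const_smul (1 / 2 : ℂ)
    have h4 : (1 / 2 : ℂ) • (F (act g (base n)) + F (act g (base n))) = F (act g (base n)) := by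
      rw [← two_smul ℂ, smul_smul]
      norm_num
    rwa [h4] at h3

end Pool.Agent.Lib.MP_5d4057_al.NU.LG
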