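import Pool.Agent.Lib.MP_5d4057_al.NU.LGI
import Pool.Agent.Lib.MP_5d4057_al.NU.BootN

/-!
The pairs of the existence theory satisfy the hypotheses of the limit theory.
-/

namespace Pool.Agent.Lib.MP_5d4057_al.NU.LG

open Matrix MeasureTheory Filter Topology Pool.Agent.Lib.MP_5d4057_al Pool.Agent.Lib.MP_5d4057_al.Hyb
open Pool.Agent.Lib.MP_5d4057_al.HM Pool.Agent.Lib.MP_5d4057_al.HM.DD

open scoped ComplexOrder MatrixOrder Matrix.Norms.L2Operator ENNReal

variable {n m : ℕ} {Γ : Subgroup (SUGroup n)} {ρ : Γ →* Mat m} {χ : SUGroup n → ℝ}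

/-- The Harnack inequality bounds the displacement. -/
theorem dd_le_of_harn {s : ℕ} {H : Vec n → Mat m}
    (h : ∀ g x : SUGroup n, H (act (g * x) (base n)) ≤ (wt x ^ (2 * s) : ℂ) • H (act g (base n)))
    (x g : SUGroup n) : dd H H x g ≤ (2 * s : ℕ) * Real.log (wt x) := by
  have h0 : 0 ≤ ((2 * s : ℕ) : ℝ) * Real.log (wt x) :=
    mul_nonneg (Nat.cast_nonneg _) (log_wt_nonneg x)
  have he : Real.exp (((2 * s : ℕ) : ℝ) * Real.log (wt x)) = wt x ^ (2 * s) := by
    rw [Real.exp_nat_mul, Real.exp_log (wt_pos x)]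
  refine dT_le h0 ?_ ?_
  · have h1 := h (g * x) x⁻¹
    rw [mul_inv_cancel_right, wt_inv] at h1
    rw [he]
    push_cast
    exact h1
  · rw [he]
    push_cast
    exact h g x

theorem fd_of_harn (hχ : CutG Γ χ) {s : ℕ} {H : Vec n → Mat m} (hH : Met ρ H)
    (h : ∀ g x : SUGroup n, H (act (g * x) (base n)) ≤ (wt x ^ (2 * s) : ℂ) • H (act g (base n))) :
    FD χ H H := fun x => by
  refine L2.of_bound hχ (continuous_dd_right hH hH x).aestronglyMeasurable
    (c := (2 * s : ℕ) * Real.log (wt x)) fun g => ?_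
  rw [abs_of_nonneg (dd_nonneg _ _ _ _)]
  exact dd_le_of_harn h x g

/-- Finite energy gives finite distance. -/
theorem fd_of_energy (hχ : CutG Γ χ) {s : ℕ} (hs : n < s) {H L : Vec n → Mat m} (hH : Met ρ H)
    (hL : Met ρ L) (h : FD χ H H) (hE : LE χ s H L < ⊤) : FD χ L H := by
  have hc : Continuous fun p : SUGroup n × SUGroup n => χ p.1 *
      (kap s p.2 * sig (L (act p.1 (base n))) (H (act (p.1 * p.2) (base n)))) :=
    (hχ.cont.comp continuous_fst).mul
      (((continuous_kap s).comp continuous_snd).mul (continuous_sig_pair hL hH))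
  rw [LE_eq hχ, lintegral_lintegral_swap hc.measurable.ennreal_ofReal.aemeasurable] at hE
  have hm : Measurable fun x => ∫⁻ g, ENNReal.ofReal (χ g *
      (kap s x * sig (L (act g (base n))) (H (act (g * x) (base n))))) ∂(mu n) := by
    have h1 : Measurable fun p : SUGroup n × SUGroup n => ENNReal.ofReal (χ p.2 *
        (kap s p.1 * sig (L (act p.2 (base n))) (H (act (p.2 * p.1) (base n))))) :=
      (hc.comp continuous_swap).measurable.ennreal_ofReal
    exact h1.lintegral_prod_right'
  obtain ⟨x0, hx0⟩ := (ae_lt_top hm hE.ne).exists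
  have hk : 0 < kap s x0 := kap_pos hs x0
  have hL2 : L2 χ (dd L H x0) := by
    have h1 : L1 χ fun g => dd L H x0 g ^ 2 := by
      refine L1.of_lint hχ ((continuous_dd_right hL hH x0).pow 2).aestronglyMeasurable
        (fun g => sq_nonneg _) ?_
      have h2 : ∀ g, ENNReal.ofReal (χ g) * ENNReal.ofReal (dd L H x0 g ^ 2) ≤
          ENNReal.ofReal (kap s x0)⁻¹ * ENNReal.ofReal (χ g *
            (kap s x0 * sig (L (act g (base n))) (H (act (g * x0) (base n))))) := by
        intro g
        rw [← ENNReal.ofReal_mul (hχ.nonneg g), ← ENNReal.ofReal_mul (inv_pos.2 hk).le]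
        refine ENNReal.ofReal_le_ofReal ?_
        have h3 := dT_sq_le_sig (met_pos hL g) (met_pos hH (g * x0))
        have h4 : (kap s x0)⁻¹ * (χ g * (kap s x0 *
            sig (L (act g (base n))) (H (act (g * x0) (base n))))) =
            χ g * sig (L (act g (base n))) (H (act (g * x0) (base n))) := by
          field_simp
        rw [h4]
        exact mul_le_mul_of_nonneg_left h3 (hχ.nonneg g)
      refine lt_of_le_of_lt (lintegral_mono h2) ?_
      rw [lintegral_const_mul' _ _ ENNReal.ofReal_ne_top]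
      exact ENNReal.mul_lt_top ENNReal.ofReal_lt_top hx0
    exact ⟨(continuous_dd_right hL hH x0).aestronglyMeasurable, h1.2⟩
  intro x
  have h1 : L2 χ fun g => dd H H (x0⁻¹ * x) (g * x0) :=
    ((h (x0⁻¹ * x)).mul_right hχ (dd_inv hH.equi hH.equi _) x0).1
  refine L2.mono hχ (continuous_dd_right hL hH x).aestronglyMeasurable (hL2.add hχ h1) fun g => ?_
  rw [abs_of_nonneg (dd_nonneg _ _ _ _)]
  have h3 := dT_triangle (met_pos hL g) (met_pos hH (g * x0)) (met_pos hH (g * x))
  unfold dd
  rw [mul_assoc, mul_inv_cancel_left]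
  exact h3

end Pool.Agent.Lib.MP_5d4057_al.NU.LG
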