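import Pool.Agent.Lib.MP_5d4057_al.NU.Defs
import Pool.Agent.Lib.MP_5d4057_al.HM.Cut

/-! Part L of the blueprint h37_nu: unfolding for lattices (L1, L2, L3). -/

namespace Pool.Agent.Lib.MP_5d4057_al.NU

open Matrix MeasureTheory Filter Topology Pool.Agent.Lib.MP_5d4057_al
  Pool.Agent.Lib.MP_5d4057_al.Hyb Pool.Agent.Lib.MP_5d4057_al.HM

open scoped ComplexOrder MatrixOrder Matrix.Norms.L2Operator ENNReal

variable {n m : ℕ} {Γ : Subgroup (SUGroup n)} {χ : SUGroup n → ℝ}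

/-- Only finitely many elements of a discrete subgroup are in a compact set. -/
theorem finite_disc (h : DiscreteTopology Γ) {K : Set (SUGroup n)} (hK : IsCompact K) :
    {γ : Γ | (γ : SUGroup n) ∈ K}.Finite := by
  have hcl : IsClosed (Γ : Set (SUGroup n)) := Subgroup.isClosed_of_discrete
  have h1 : IsCompact ((fun γ : Γ => (γ : SUGroup n)) ⁻¹' K) :=
    hcl.isClosedEmbedding_subtypeVal.isCompact_preimage hK
  exact isCompact_iff_finite.1 h1

theorem countable_disc (h : DiscreteTopology Γ) : Countable Γ :=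
  TopologicalSpace.separableSpace_iff_countable.1 inferInstance

/-- Only finitely many translates of a compact set meet a compact set. -/
theorem finite_meet_disc (h : DiscreteTopology Γ) {A B : Set (SUGroup n)} (hA : IsCompact A)
    (hB : IsCompact B) : {γ : Γ | ∃ a ∈ A, (γ : SUGroup n) * a ∈ B}.Finite := by
  have h1 : IsCompact ((fun p : SUGroup n × SUGroup n => p.2 * p.1⁻¹) '' (A ×ˢ B)) :=
    (hA.prod hB).image (by fun_prop)
  refine (finite_disc h h1).subset ?_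
  rintro γ ⟨a, ha, hb⟩
  exact ⟨(a, γ * a), ⟨ha, hb⟩, by simp⟩

/-- The number of `γ` with `ch (γ g) ≤ T` is bounded uniformly in `g` (blueprint L3). -/
theorem card_le (h : DiscreteTopology Γ) (T : ℝ) : ∃ M : ℕ, ∀ g : SUGroup n,
    {γ : Γ | ch ((γ : SUGroup n) * g) ≤ T}.Finite ∧
      {γ : Γ | ch ((γ : SUGroup n) * g) ≤ T}.ncard ≤ M := by
  have hfin := finite_disc h (isCompact_ball (n := n) (2 * T * T))
  refine ⟨{γ : Γ | (γ : SUGroup n) ∈ {x : SUGroup n | ch x ≤ 2 * T * T}}.ncard, fun g => ?_⟩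
  rcases Set.eq_empty_or_nonempty {γ : Γ | ch ((γ : SUGroup n) * g) ≤ T} with h0 | ⟨γ₁, h1⟩
  · rw [h0]
    exact ⟨Set.finite_empty, by simp⟩
  · have h1' : ch ((γ₁ : SUGroup n) * g) ≤ T := h1
    have hmaps : ∀ γ ∈ {γ : Γ | ch ((γ : SUGroup n) * g) ≤ T}, γ * γ₁⁻¹ ∈
        {γ : Γ | (γ : SUGroup n) ∈ {x : SUGroup n | ch x ≤ 2 * T * T}} := by
      intro γ hγ
      have hγ' : ch ((γ : SUGroup n) * g) ≤ T := hγ
      show ch ((γ * γ₁⁻¹ : Γ) : SUGroup n) ≤ 2 * T * T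
      have e1 : ((γ * γ₁⁻¹ : Γ) : SUGroup n) =
          ((γ : SUGroup n) * g) * ((γ₁ : SUGroup n) * g)⁻¹ := by
        rw [Subgroup.coe_mul, Subgroup.coe_inv]
        group
      rw [e1]
      refine (ch_mul_le' _ _).trans ?_
      rw [ch_inv]
      have h2 := one_le_ch ((γ : SUGroup n) * g)
      have h3 := one_le_ch ((γ₁ : SUGroup n) * g)
      have h4 : 2 * ch ((γ : SUGroup n) * g) ≤ 2 * T := by linarith
      exact mul_le_mul h4 h1' (by linarith) (by linarith)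
    have hinj : Set.InjOn (fun γ : Γ => γ * γ₁⁻¹) {γ : Γ | ch ((γ : SUGroup n) * g) ≤ T} :=
      fun a _ b _ hab => mul_right_cancel hab
    refine ⟨Set.Finite.of_finite_image (hfin.subset (Set.image_subset_iff.2 hmaps)) hinj, ?_⟩
    exact Set.ncard_le_ncard_of_injOn _ hmaps hinj hfin

theorem Lat.countable (h : Lat Γ χ) : Countable Γ := countable_disc h.disc

theorem Lat.summable (h : Lat Γ χ) (g : SUGroup n) :
    Summable fun γ : Γ => χ ((γ : SUGroup n) * g) := by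
  by_contra h0
  have h1 := h.sum g
  rw [tsum_eq_zero_of_not_summable h0] at h1
  exact zero_ne_one h1

theorem Lat.sum_le (h : Lat Γ χ) (g : SUGroup n) (T : Finset Γ) :
    ∑ γ ∈ T, χ ((γ : SUGroup n) * g) ≤ 1 := by
  rw [← h.sum g]
  exact (h.summable g).sum_le_tsum T fun γ _ => (h.pos _).le

theorem Lat.le_one (h : Lat Γ χ) (g : SUGroup n) : χ g ≤ 1 := by
  have h1 := h.sum_le g {1}
  rw [Finset.sum_singleton] at h1
  simpa using h1

theorem Lat.tsum_ofReal (h : Lat Γ χ) (g : SUGroup n) :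
    ∑' γ : Γ, ENNReal.ofReal (χ ((γ : SUGroup n) * g)) = 1 := by
  rw [← ENNReal.ofReal_tsum_of_nonneg (fun γ => (h.pos _).le) (h.summable g), h.sum g,
    ENNReal.ofReal_one]

theorem Lat.measurable (h : Lat Γ χ) : Measurable fun g => ENNReal.ofReal (χ g) :=
  h.cont.measurable.ennreal_ofReal

/-- Total mass. -/
theorem Lat.LI_one (h : Lat Γ χ) : LI χ 1 < ⊤ := by
  unfold LI
  simp only [Pi.one_apply, mul_one]
  rw [← ofReal_integral_eq_lintegral_ofReal h.int (Filter.Eventually.of_forall fun g => (h.pos g).le)]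
  exact ENNReal.ofReal_lt_top

theorem LI_mono {f₁ f₂ : SUGroup n → ℝ≥0∞} (h : ∀ g, f₁ g ≤ f₂ g) : LI χ f₁ ≤ LI χ f₂ :=
  lintegral_mono fun g => mul_le_mul_right (h g) _

theorem LI_mono_ae {f₁ f₂ : SUGroup n → ℝ≥0∞} (h : ∀ᵐ g ∂(mu n), f₁ g ≤ f₂ g) :
    LI χ f₁ ≤ LI χ f₂ :=
  lintegral_mono_ae (h.mono fun g hg => mul_le_mul_right hg _)

theorem LI_congr_ae {f₁ f₂ : SUGroup n → ℝ≥0∞} (h : ∀ᵐ g ∂(mu n), f₁ g = f₂ g) :
    LI χ f₁ = LI χ f₂ :=
  lintegral_congr_ae (h.mono fun g hg => by simp only [hg])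

theorem LI_const_mul (h : Lat Γ χ) (c : ℝ≥0∞) {f : SUGroup n → ℝ≥0∞}
    (hm : AEMeasurable f (mu n)) : LI χ (fun g => c * f g) = c * LI χ f := by
  have h1 := lintegral_const_mul'' c (h.measurable.aemeasurable.mul hm)
  simp only [Pi.mul_apply] at h1
  unfold LI
  rw [← h1]
  refine lintegral_congr fun g => ?_
  ring

theorem LI_add (h : Lat Γ χ) {f₁ f₂ : SUGroup n → ℝ≥0∞} (hm : AEMeasurable f₁ (mu n)) :
    LI χ (fun g => f₁ g + f₂ g) = LI χ f₁ + LI χ f₂ := by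
  have h1 := lintegral_add_left' (h.measurable.aemeasurable.mul hm)
    (fun g => ENNReal.ofReal (χ g) * f₂ g)
  simp only [Pi.mul_apply] at h1
  unfold LI
  rw [← h1]
  refine lintegral_congr fun g => ?_
  ring

/-- The general unfolding formula. -/
theorem lunfold' (h : Lat Γ χ) {f φ : SUGroup n → ℝ≥0∞} (hf : ∀ γ ∈ Γ, ∀ g, f (γ * g) = f g)
    (hm : AEMeasurable f (mu n)) (hφ : AEMeasurable φ (mu n)) :
    ∫⁻ g, φ g * f g ∂(mu n) = LI χ fun g => (∑' γ : Γ, φ ((γ : SUGroup n) * g)) * f g := by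
  have := h.countable
  have hqm : ∀ x : SUGroup n, Measure.QuasiMeasurePreserving (fun g => x * g) (mu n) (mu n) :=
    fun x => (measurePreserving_mul_left (mu n) x).quasiMeasurePreserving
  have e1 : ∀ g, φ g * f g = ∑' γ : Γ, ENNReal.ofReal (χ ((γ : SUGroup n) * g)) * (φ g * f g) := by
    intro g
    rw [ENNReal.tsum_mul_right, h.tsum_ofReal, one_mul]
  have hm1 : ∀ γ : Γ, AEMeasurable
      (fun g => ENNReal.ofReal (χ ((γ : SUGroup n) * g)) * (φ g * f g)) (mu n) := fun γ =>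
    ((h.measurable.comp (measurable_const_mul (γ : SUGroup n))).aemeasurable).mul (hφ.mul hm)
  have e2 : ∀ γ : Γ, ∫⁻ g, ENNReal.ofReal (χ ((γ : SUGroup n) * g)) * (φ g * f g) ∂(mu n) =
      ∫⁻ g, ENNReal.ofReal (χ g) * (φ (((γ⁻¹ : Γ) : SUGroup n) * g) * f g) ∂(mu n) := by
    intro γ
    rw [← lintegral_mul_left_eq_self
      (fun g => ENNReal.ofReal (χ ((γ : SUGroup n) * g)) * (φ g * f g)) ((γ⁻¹ : Γ) : SUGroup n)]
    refine lintegral_congr fun g => ?_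
    rw [hf _ (γ⁻¹).2, ← mul_assoc (γ : SUGroup n), ← Subgroup.coe_mul, mul_inv_cancel,
      Subgroup.coe_one, one_mul]
  have hm2 : ∀ γ : Γ, AEMeasurable
      (fun g => ENNReal.ofReal (χ g) * (φ (((γ⁻¹ : Γ) : SUGroup n) * g) * f g)) (mu n) := fun γ =>
    h.measurable.aemeasurable.mul ((hφ.comp_quasiMeasurePreserving (hqm _)).mul hm)
  calc ∫⁻ g, φ g * f g ∂(mu n)
      = ∫⁻ g, ∑' γ : Γ, ENNReal.ofReal (χ ((γ : SUGroup n) * g)) * (φ g * f g) ∂(mu n) :=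
        lintegral_congr e1
    _ = ∑' γ : Γ, ∫⁻ g, ENNReal.ofReal (χ ((γ : SUGroup n) * g)) * (φ g * f g) ∂(mu n) :=
        lintegral_tsum hm1
    _ = ∑' γ : Γ, ∫⁻ g, ENNReal.ofReal (χ g) *
          (φ (((γ⁻¹ : Γ) : SUGroup n) * g) * f g) ∂(mu n) := tsum_congr e2
    _ = ∫⁻ g, ∑' γ : Γ, ENNReal.ofReal (χ g) *
          (φ (((γ⁻¹ : Γ) : SUGroup n) * g) * f g) ∂(mu n) := (lintegral_tsum hm2).symm
    _ = LI χ fun g => (∑' γ : Γ, φ ((γ : SUGroup n) * g)) * f g := by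
        refine lintegral_congr fun g => ?_
        rw [ENNReal.tsum_mul_left, ENNReal.tsum_mul_right]
        congr 2
        exact (Equiv.inv Γ).tsum_eq fun γ : Γ => φ ((γ : SUGroup n) * g)

/-- Unfolding (blueprint L1). -/
theorem lunfold (h : Lat Γ χ) {f φ : SUGroup n → ℝ≥0∞} (hf : ∀ γ ∈ Γ, ∀ g, f (γ * g) = f g)
    (hm : AEMeasurable f (mu n)) (hφ : AEMeasurable φ (mu n)) {c : ℝ≥0∞}
    (hs : ∀ g, ∑' γ : Γ, φ ((γ : SUGroup n) * g) = c) :
    ∫⁻ g, φ g * f g ∂(mu n) = c * LI χ f := by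
  rw [lunfold' h hf hm hφ, ← LI_const_mul h c hm]
  simp only [hs]

theorem lunfold_le (h : Lat Γ χ) {f φ : SUGroup n → ℝ≥0∞} (hf : ∀ γ ∈ Γ, ∀ g, f (γ * g) = f g)
    (hm : AEMeasurable f (mu n)) (hφ : AEMeasurable φ (mu n)) {c : ℝ≥0∞}
    (hs : ∀ g, ∑' γ : Γ, φ ((γ : SUGroup n) * g) ≤ c) :
    ∫⁻ g, φ g * f g ∂(mu n) ≤ c * LI χ f := by
  rw [lunfold' h hf hm hφ, ← LI_const_mul h c hm]
  exact LI_mono fun g => mul_le_mul_left (hs g) _

theorem le_lunfold (h : Lat Γ χ) {f φ : SUGroup n → ℝ≥0∞} (hf : ∀ γ ∈ Γ, ∀ g, f (γ * g) = f g)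
    (hm : AEMeasurable f (mu n)) (hφ : AEMeasurable φ (mu n)) {c : ℝ≥0∞}
    (hs : ∀ g, c ≤ ∑' γ : Γ, φ ((γ : SUGroup n) * g)) :
    c * LI χ f ≤ ∫⁻ g, φ g * f g ∂(mu n) := by
  rw [lunfold' h hf hm hφ, ← LI_const_mul h c hm]
  exact LI_mono fun g => mul_le_mul_left (hs g) _

/-- Invariance of the integral over the quotient under right translations. -/
theorem LI_mul_right (h : Lat Γ χ) {f : SUGroup n → ℝ≥0∞} (hf : ∀ γ ∈ Γ, ∀ g, f (γ * g) = f g)
    (hm : AEMeasurable f (mu n)) (a : SUGroup n) : LI χ (fun g => f (g * a)) = LI χ f := by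
  have h1 : LI χ (fun g => f (g * a)) =
      ∫⁻ g, ENNReal.ofReal (χ (g * a⁻¹)) * f g ∂(mu n) := by
    unfold LI
    rw [← lintegral_mul_right_eq_self (fun g => ENNReal.ofReal (χ (g * a⁻¹)) * f g) a]
    simp
  have h2 : AEMeasurable (fun g => ENNReal.ofReal (χ (g * a⁻¹))) (mu n) :=
    (h.measurable.comp (measurable_mul_const a⁻¹)).aemeasurable
  rw [h1, lunfold h hf hm h2 (c := 1), one_mul]
  intro g
  rw [← h.tsum_ofReal (g * a⁻¹)]
  simp only [mul_assoc]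

/-- Integrals over balls (blueprint L3). -/
theorem setLIntegral_le (h : Lat Γ χ) (T : ℝ) : ∃ M : ℝ≥0∞, M ≠ ⊤ ∧
    ∀ f : SUGroup n → ℝ≥0∞, (∀ γ ∈ Γ, ∀ g, f (γ * g) = f g) → AEMeasurable f (mu n) →
      ∫⁻ g in {g | ch g ≤ T}, f g ∂(mu n) ≤ M * LI χ f := by
  obtain ⟨M, hM⟩ := card_le h.disc T
  refine ⟨M, ENNReal.natCast_ne_top M, fun f hf hm => ?_⟩
  have hS : MeasurableSet {g : SUGroup n | ch g ≤ T} := (isCompact_ball T).isClosed.measurableSet
  have e1 : ∫⁻ g in {g | ch g ≤ T}, f g ∂(mu n) =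
      ∫⁻ g, ({g : SUGroup n | ch g ≤ T}.indicator 1 g) * f g ∂(mu n) := by
    rw [← lintegral_indicator hS]
    refine lintegral_congr fun g => ?_
    by_cases hg : g ∈ {g : SUGroup n | ch g ≤ T}
    · rw [Set.indicator_of_mem hg, Set.indicator_of_mem hg, Pi.one_apply, one_mul]
    · rw [Set.indicator_of_notMem hg, Set.indicator_of_notMem hg, zero_mul]
  rw [e1]
  refine lunfold_le h hf hm ((measurable_one.indicator hS).aemeasurable) fun g => ?_
  obtain ⟨hfin, hcard⟩ := hM g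
  have e2 : ∀ γ : Γ, γ ∉ hfin.toFinset →
      {g : SUGroup n | ch g ≤ T}.indicator (1 : SUGroup n → ℝ≥0∞) ((γ : SUGroup n) * g) = 0 := by
    intro γ hγ
    refine Set.indicator_of_notMem ?_ _
    intro h0
    exact hγ ((Set.Finite.mem_toFinset _).2 h0)
  rw [tsum_eq_sum e2]
  calc ∑ γ ∈ hfin.toFinset,
        {g : SUGroup n | ch g ≤ T}.indicator (1 : SUGroup n → ℝ≥0∞) ((γ : SUGroup n) * g)
      ≤ ∑ _γ ∈ hfin.toFinset, 1 := by
        refine Finset.sum_le_sum fun γ _ => ?_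
        exact Set.indicator_le_self' (fun _ _ => zero_le) _
    _ = (hfin.toFinset.card : ℝ≥0∞) := by rw [Finset.sum_const, nsmul_eq_mul, mul_one]
    _ ≤ M := by
        rw [← Set.ncard_eq_toFinset_card _ hfin]
        exact_mod_cast hcard

end Pool.Agent.Lib.MP_5d4057_al.NU
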