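import Pool.Agent.Lib.MP_5d4057_al.NU.Base

/-! Averages of metrics at explicit levels `s > n + N`. -/

set_option autoImplicit false

namespace Pool.Agent.Lib.MP_5d4057_al.NU

open Matrix MeasureTheory Filter Topology Pool.Agent.Lib.MP_5d4057_al
  Pool.Agent.Lib.MP_5d4057_al.Hyb Pool.Agent.Lib.MP_5d4057_al.HM

open scoped ComplexOrder MatrixOrder Matrix.Norms.L2Operator

variable {n m : ℕ} {Γ : Subgroup (SUGroup n)}

theorem P_mono_N {s N : ℕ} (hs : n + N < s) {C C' : ℝ} {H K : Vec n → Mat m} (hH : Adm N C H)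
    (hK : Adm N C' K) (h : ∀ v ∈ Cone n, H v ≤ K v) {v : Vec n} (hv : v ∈ Cone n) :
    P s H v ≤ P s K v := by
  obtain ⟨g, c, hc, rfl⟩ := exists_act_eq hv
  rw [P_smul' s _ hc, P_smul' s _ hc, P_orbit, P_orbit]
  exact integral_mono_mat (int_adm hs hH g) (int_adm hs hK g) (Eventually.of_forall fun x =>
    rs_mono (kap_nonneg s x) (h _ (orbit_mem _)))

theorem P_posDef_N {s N : ℕ} (hs : n + N < s) {C : ℝ} {H : Vec n → Mat m} (hH : Adm N C H)
    (hp : ∀ v ∈ Cone n, (H v).PosDef) {v : Vec n} (hv : v ∈ Cone n) : (P s H v).PosDef := by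
  obtain ⟨g, c, hc, rfl⟩ := exists_act_eq hv
  rw [P_smul' s _ hc, P_orbit]
  exact integral_posDef (A := fun x : SUGroup n => kap s x • H (act (g * x) (base n)))
    (int_adm hs hH g) (fun x => (hp _ (orbit_mem (g * x))).smul (kap_pos (by omega) x))
    (NeZero.ne (mu n))

theorem P_rsmul (s : ℕ) (c : ℝ) (H : Vec n → Mat m) (v : Vec n) :
    P s (fun w => (c : ℂ) • H w) v = (c : ℂ) • P s H v := by
  rw [cr_smul, ← P_smul]
  exact P_congr' s (fun w _ => cr_smul c _) v

/-- the average, after a change of variables -/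
theorem P_orbit' (s : ℕ) (H : Vec n → Mat m) (g : SUGroup n) :
    P s H (act g (base n)) = ∫ z : SUGroup n, kap s (g⁻¹ * z) • H (act z (base n)) ∂(mu n) := by
  rw [P_orbit]
  have h1 := integral_mul_left_eq_self (μ := mu n)
    (fun z : SUGroup n => kap s (g⁻¹ * z) • H (act z (base n))) g
  simp only [inv_mul_cancel_left] at h1
  exact h1

theorem int_adm' {s N : ℕ} (hs : n + N < s) {C : ℝ} {H : Vec n → Mat m} (hH : Adm N C H)
    (g : SUGroup n) :
    Integrable (fun z : SUGroup n => kap s (g⁻¹ * z) • H (act z (base n))) (mu n) := by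
  have h1 := (int_adm hs hH g).comp_mul_left g⁻¹
  simp only [mul_inv_cancel_left] at h1
  exact h1

theorem kap_inv_mul_le (s : ℕ) (g x z : SUGroup n) :
    kap s ((g * x)⁻¹ * z) ≤ wt x ^ (2 * s) * kap s (g⁻¹ * z) := by
  unfold kap
  rw [← mul_div_assoc]
  refine div_le_div_of_nonneg_right ?_ (cs_nonneg n s)
  have h1 := inv_ch_le s (z⁻¹ * (g * x)) x⁻¹
  rw [wt_inv, mul_assoc, mul_assoc, mul_inv_cancel, mul_one] at h1
  have e1 : ch ((g * x)⁻¹ * z) = ch (z⁻¹ * (g * x)) := by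
    rw [← ch_inv]
    congr 1
    group
  have e2 : ch (g⁻¹ * z) = ch (z⁻¹ * g) := by
    rw [← ch_inv]
    congr 1
    group
  rw [e1, e2]
  exact h1

theorem P_harn_N {s N : ℕ} (hs : n + N < s) {C : ℝ} {H : Vec n → Mat m} (hH : Adm N C H)
    (hp : ∀ v ∈ Cone n, 0 ≤ H v) : Harn (2 * s) (P s H) := by
  intro g x
  obtain ⟨w, hw⟩ : ∃ w : ℝ, w = wt x ^ (2 * s) := ⟨_, rfl⟩
  rw [wt_pow_cast, P_orbit' s H (g * x), P_orbit' s H g, ← hw]
  have i1 := int_adm' hs hH (g * x)
  have i2 := int_adm' hs hH g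
  have i3 : Integrable (fun z : SUGroup n => w • (kap s (g⁻¹ * z) • H (act z (base n)))) (mu n) :=
    i2.smul w
  have e : w • ∫ z : SUGroup n, kap s (g⁻¹ * z) • H (act z (base n)) ∂(mu n) =
      ∫ z : SUGroup n, w • (kap s (g⁻¹ * z) • H (act z (base n))) ∂(mu n) :=
    (integral_smul w _).symm
  rw [e]
  refine integral_mono_mat i1 i3 (Eventually.of_forall fun z => ?_)
  show kap s ((g * x)⁻¹ * z) • H (act z (base n)) ≤ w • (kap s (g⁻¹ * z) • H (act z (base n)))
  rw [smul_smul, hw]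
  exact rs_mono_left (hp _ (orbit_mem z)) (kap_inv_mul_le s g x z)

/-- The map `A ↦ X A X^*`. -/
noncomputable def cjL (X : Mat m) : Mat m →L[ℝ] Mat m :=
  LinearMap.toContinuousLinearMap
    { toFun := fun A => X * A * Xᴴ
      map_add' := fun A B => by rw [Matrix.mul_add, Matrix.add_mul]
      map_smul' := fun c A => by rw [Matrix.mul_smul, Matrix.smul_mul, RingHom.id_apply] }

theorem cjL_apply (X A : Mat m) : cjL X A = X * A * Xᴴ := rfl

theorem P_equi_N {s N : ℕ} (hs : n + N < s) {C : ℝ} {ρ : Γ →* Mat m} {H : Vec n → Mat m}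
    (hH : Adm N C H) (he : Equi ρ H) : Equi ρ (P s H) := by
  intro γ v hv
  obtain ⟨g, c, hc, rfl⟩ := exists_act_eq hv
  rw [act_smul, P_smul' s _ hc, P_smul' s _ hc, ← act_mul, P_orbit, P_orbit, ← cjL_apply,
    ← (cjL (ρ γ)).integral_comp_comm (int_adm hs hH g)]
  refine integral_congr_ae (Eventually.of_forall fun x => ?_)
  show kap s x • H (act ((γ : SUGroup n) * g * x) (base n)) =
    cjL (ρ γ) (kap s x • H (act (g * x) (base n)))
  rw [map_smul, cjL_apply, mul_assoc, act_mul, he γ _ (orbit_mem _)]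

/-- Averages of metrics are metrics, at explicit levels. -/
theorem P_met_N {s N : ℕ} (hs : n + N < s) {C : ℝ} {ρ : Γ →* Mat m} {H : Vec n → Mat m}
    (hH : Adm N C H) (hm : Met ρ H) : Met ρ (P s H) ∧ Harn (2 * s) (P s H) := by
  have hh := P_harn_N hs hH fun v hv => Matrix.nonneg_iff_posSemidef.2 (hm.pos v hv).posSemidef
  refine ⟨⟨P_homog s H, ?_, fun v hv => P_posDef_N hs hH hm.pos hv, P_equi_N hs hH hm.equi⟩, hh⟩
  exact cont_of_harn (P_homog s H)
    (fun g => (P_posDef_N hs hH hm.pos (orbit_mem g)).posSemidef) hh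

end Pool.Agent.Lib.MP_5d4057_al.NU
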