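import Pool.Agent.Lib.MP_5d4057_al.NU.Barr
import Pool.Agent.Lib.MP_5d4057_al.NU.PExp

/-! Level `s`, perturbed operator (blueprint h37_nu, A5). -/

namespace Pool.Agent.Lib.MP_5d4057_al.NU

open Matrix MeasureTheory Filter Topology Pool.Agent.Lib.MP_5d4057_al
  Pool.Agent.Lib.MP_5d4057_al.Hyb Pool.Agent.Lib.MP_5d4057_al.HM

open scoped ComplexOrder MatrixOrder Matrix.Norms.L2Operator ENNReal

variable {n m : ℕ}

variable {Γ : Subgroup (SUGroup n)} {χ : SUGroup n → ℝ}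

/-- `P_s(H⁻¹) + η θ H₀⁻¹`. -/
noncomputable def PA (s : ℕ) (η : ℝ) (y : Vec n → ℝ) (a : ℕ) (H₀ H : Vec n → Mat m)
    (v : Vec n) : Mat m :=
  P s (fun w => (H w)⁻¹) v + ((η * th y a v : ℝ) : ℂ) • (H₀ v)⁻¹

/-- `P_s H + η θ H₀`. -/
noncomputable def PB (s : ℕ) (η : ℝ) (y : Vec n → ℝ) (a : ℕ) (H₀ H : Vec n → Mat m)
    (v : Vec n) : Mat m :=
  P s H v + ((η * th y a v : ℝ) : ℂ) • H₀ v

/-- The class of metrics between the barriers. -/
structure KK (ρ : Γ →* Mat m) (s : ℕ) (y : Vec n → ℝ) (a : ℕ) (H₀ : Vec n → Mat m) (A : ℝ)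
    (H : Vec n → Mat m) : Prop where
  met : Met ρ H
  harn : Harn (2 * s) H
  lo : ∀ v ∈ Cone n, MD y a H₀ v ≤ (A : ℂ) • H v
  hi : ∀ v ∈ Cone n, H v ≤ (A : ℂ) • MU y a H₀ v

variable {ρ : Γ →* Mat m} {T : ℝ} {y : Vec n → ℝ} {a b : ℕ} {c C : ℝ} {s : ℕ}
  {H₀ : Vec n → Mat m}

theorem psd_nn {A : Mat m} (hA : A.PosDef) : 0 ≤ A :=
  Matrix.nonneg_iff_posSemidef.2 hA.posSemidef

theorem cs_mono {A B : Mat m} {c : ℝ} (hc : 0 ≤ c) (h : A ≤ B) : (c : ℂ) • A ≤ (c : ℂ) • B := by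
  rw [cr_smul, cr_smul]
  exact rs_mono hc h

theorem cs_mono_left {A : Mat m} (hA : 0 ≤ A) {c d : ℝ} (h : c ≤ d) :
    (c : ℂ) • A ≤ (d : ℂ) • A := by
  rw [cr_smul, cr_smul]
  exact rs_mono_left hA h

theorem cs_inv {A : Mat m} (hA : A.PosDef) {c : ℝ} (hc : 0 < c) :
    ((c : ℂ) • A)⁻¹ = ((c⁻¹ : ℝ) : ℂ) • A⁻¹ := by
  rw [cr_smul, cr_smul]
  exact rs_inv hA hc

theorem cs_smul (c d : ℝ) (A : Mat m) : (c : ℂ) • (d : ℂ) • A = ((c * d : ℝ) : ℂ) • A := by
  rw [smul_smul]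
  push_cast
  rfl

theorem cs_posDef {A : Mat m} (hA : A.PosDef) {c : ℝ} (hc : 0 < c) : ((c : ℂ) • A).PosDef := by
  rw [cr_smul]
  exact hA.smul hc

/-- the height -/
theorem Brr.y_pos (hB : Brr ρ T y a b c C s H₀) {v : Vec n} (hv : v ∈ Cone n) : 0 < y v :=
  lt_of_lt_of_le one_pos (hB.ht.one_le v hv)

theorem Brr.y_le (hB : Brr ρ T y a b c C s H₀) (g x : SUGroup n) (k : ℕ) :
    y (act (g * x) (HM.base n)) ^ k ≤ wt x ^ (2 * k) * y (act g (HM.base n)) ^ k := by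
  have h1 := hB.ht.harn g x
  have h2 := pow_le_pow_left₀ (hB.y_pos (orbit_mem _)).le h1 k
  rwa [mul_pow, ← pow_mul] at h2

theorem Brr.y_ge (hB : Brr ρ T y a b c C s H₀) (g x : SUGroup n) (k : ℕ) :
    y (act g (HM.base n)) ^ k ≤ wt x ^ (2 * k) * y (act (g * x) (HM.base n)) ^ k := by
  have h1 := hB.y_le (g * x) x⁻¹ k
  rwa [mul_inv_cancel_right, wt_inv] at h1

/-- The upper barrier is a metric. -/
theorem Brr.MU_met (hB : Brr ρ T y a b c C s H₀) : Met ρ (MU y a H₀) where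
  hom := fun k hk v hv => by
    unfold MU
    rw [hB.ht.hom k hk v hv, hB.met.hom k hk v hv]
  cont := by
    unfold MU
    exact (Complex.continuous_ofReal.comp_continuousOn (hB.ht.cont.pow a)).smul hB.met.cont
  pos := fun v hv => by
    unfold MU
    exact cs_posDef (hB.met.pos v hv) (pow_pos (hB.y_pos hv) a)
  equi := fun γ v hv => by
    unfold MU
    rw [hB.ht.inv γ γ.2 v hv, hB.met.equi γ v hv, mul_smul_comm, smul_mul_assoc]

theorem Brr.MD_met (hB : Brr ρ T y a b c C s H₀) : Met ρ (MD y a H₀) where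
  hom := fun k hk v hv => by
    unfold MD
    rw [hB.ht.hom k hk v hv, hB.met.hom k hk v hv]
  cont := by
    unfold MD
    have h1 : ContinuousOn (fun v => (y v ^ a)⁻¹) (Cone n) :=
      (hB.ht.cont.pow a).inv₀ fun v hv => (pow_pos (hB.y_pos hv) a).ne'
    exact (Complex.continuous_ofReal.comp_continuousOn h1).smul hB.met.cont
  pos := fun v hv => by
    unfold MD
    exact cs_posDef (hB.met.pos v hv) (inv_pos.2 (pow_pos (hB.y_pos hv) a))
  equi := fun γ v hv => by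
    unfold MD
    rw [hB.ht.inv γ γ.2 v hv, hB.met.equi γ v hv, mul_smul_comm, smul_mul_assoc]

theorem Brr.MU_harn (hB : Brr ρ T y a b c C s H₀) : Harn (2 * (a + b)) (MU y a H₀) := by
  intro g x
  rw [wt_pow_cast]
  unfold MU
  rw [cr_smul, cr_smul]
  have h1 := harn_real hB.harn g x
  have h2 := hB.y_le g x a
  have p0 := psd_nn (hB.met.pos _ (orbit_mem g))
  calc (y (act (g * x) (HM.base n)) ^ a) • H₀ (act (g * x) (HM.base n))
      ≤ (y (act (g * x) (HM.base n)) ^ a) • (wt x ^ (2 * b) • H₀ (act g (HM.base n))) :=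
        rs_mono (pow_pos (hB.y_pos (orbit_mem _)) a).le h1
    _ = (y (act (g * x) (HM.base n)) ^ a * wt x ^ (2 * b)) • H₀ (act g (HM.base n)) :=
        smul_smul _ _ _
    _ ≤ (wt x ^ (2 * (a + b)) * y (act g (HM.base n)) ^ a) • H₀ (act g (HM.base n)) := by
        refine rs_mono_left p0 ?_
        rw [Nat.mul_add, pow_add]
        have h3 := mul_le_mul_of_nonneg_right h2 (wt_pow_pos x (2 * b)).le
        linarith
    _ = _ := (smul_smul _ _ _).symm

/-- `MD ≤ H₀ ≤ MU` -/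
theorem Brr.MD_le (hB : Brr ρ T y a b c C s H₀) {v : Vec n} (hv : v ∈ Cone n) :
    MD y a H₀ v ≤ H₀ v := by
  unfold MD
  have h1 : (1 : ℝ) ≤ y v ^ a := one_le_pow₀ (hB.ht.one_le v hv)
  have h2 := cs_mono_left (psd_nn (hB.met.pos v hv)) (inv_le_one_of_one_le₀ h1)
  rwa [Complex.ofReal_one, one_smul] at h2

theorem Brr.le_MU (hB : Brr ρ T y a b c C s H₀) {v : Vec n} (hv : v ∈ Cone n) :
    H₀ v ≤ MU y a H₀ v := by
  unfold MU
  have h1 : (1 : ℝ) ≤ y v ^ a := one_le_pow₀ (hB.ht.one_le v hv)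
  have h2 := cs_mono_left (psd_nn (hB.met.pos v hv)) h1
  rwa [Complex.ofReal_one, one_smul] at h2

/-- `MU(H₀⁻¹) = MD(H₀)⁻¹` and `MD(H₀⁻¹) = MU(H₀)⁻¹` -/
theorem Brr.MU_inv (hB : Brr ρ T y a b c C s H₀) {v : Vec n} (hv : v ∈ Cone n) :
    MU y a (fun w => (H₀ w)⁻¹) v = (MD y a H₀ v)⁻¹ := by
  unfold MU MD
  rw [cs_inv (hB.met.pos v hv) (inv_pos.2 (pow_pos (hB.y_pos hv) a)), inv_inv]

theorem Brr.MD_inv (hB : Brr ρ T y a b c C s H₀) {v : Vec n} (hv : v ∈ Cone n) :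
    MD y a (fun w => (H₀ w)⁻¹) v = (MU y a H₀ v)⁻¹ := by
  unfold MU MD
  rw [cs_inv (hB.met.pos v hv) (pow_pos (hB.y_pos hv) a)]

theorem KK.mono {A A' : ℝ} {H : Vec n → Mat m} (hA : A ≤ A') (h : KK ρ s y a H₀ A H)
    (hB : Brr ρ T y a b c C s H₀) : KK ρ s y a H₀ A' H where
  met := h.met
  harn := h.harn
  lo := fun v hv => (h.lo v hv).trans (cs_mono_left (psd_nn (h.met.pos v hv)) hA)
  hi := fun v hv => (h.hi v hv).trans (cs_mono_left (psd_nn (hB.MU_met.pos v hv)) hA)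

/-- the constant of the class is positive (or the matrices are empty) -/
theorem KK.pos {A : ℝ} {H : Vec n → Mat m} (h : KK ρ s y a H₀ A H)
    (hB : Brr ρ T y a b c C s H₀) (hm : 0 < m) : 0 < A := by
  by_contra hA
  push Not at hA
  have hv := base_mem n
  have h1 := h.hi _ hv
  have h2 : (A : ℂ) • MU y a H₀ (HM.base n) ≤ (0 : Mat m) := by
    have h3 := cs_mono_left (psd_nn (hB.MU_met.pos _ hv)) hA
    rwa [Complex.ofReal_zero, zero_smul] at h3
  have h3 := h1.trans h2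
  have h4 := (Matrix.le_iff.1 h3).trace_nonneg
  rw [zero_sub, trace_neg] at h4
  have : Nonempty (Fin m) := ⟨⟨0, hm⟩⟩
  have h5 := (h.met.pos _ hv).trace_pos
  have h6 := (Complex.le_def.1 h4).1
  have h7 := (Complex.lt_def.1 h5).1
  rw [Complex.neg_re, Complex.zero_re] at h6
  rw [Complex.zero_re] at h7
  linarith

theorem KK.dual {A : ℝ} {H : Vec n → Mat m} (h : KK ρ s y a H₀ A H)
    (hB : Brr ρ T y a b c C s H₀) :
    KK (HM.dual ρ) s y a (fun v => (H₀ v)⁻¹) A fun v => (H v)⁻¹ := by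
  refine ⟨met_inv h.met, harn_inv h.met h.harn, fun v hv => ?_, fun v hv => ?_⟩
  · rcases Nat.eq_zero_or_pos m with hm | hm
    · subst hm
      exact le_of_eq (Subsingleton.elim _ _)
    · have hA := h.pos hB hm
      have h1 := inv_le_inv_of_le (h.met.pos v hv) (h.hi v hv)
      rw [cs_inv (hB.MU_met.pos v hv) hA] at h1
      have h2 := cs_mono hA.le h1
      rw [cs_smul, mul_inv_cancel₀ hA.ne', Complex.ofReal_one, one_smul] at h2
      rw [hB.MD_inv hv]
      exact h2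
  · rcases Nat.eq_zero_or_pos m with hm | hm
    · subst hm
      exact le_of_eq (Subsingleton.elim _ _)
    · have hA := h.pos hB hm
      have h1 := inv_le_inv_of_le (hB.MD_met.pos v hv) (h.lo v hv)
      rw [cs_inv (h.met.pos v hv) hA] at h1
      have h2 := cs_mono hA.le h1
      rw [cs_smul, mul_inv_cancel₀ hA.ne', Complex.ofReal_one, one_smul] at h2
      rw [hB.MU_inv hv]
      exact h2

/-- `H₀` is in the class: `MD ≤ H₀ ≤ MU`, `2b ≤ 2s`. -/
theorem Brr.self (hB : Brr ρ T y a b c C s H₀) : KK ρ s y a H₀ 1 H₀ where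
  met := hB.met
  harn := by
    intro g x
    rw [wt_pow_cast]
    have hbig := hB.big
    have h1 := harn_real hB.harn g x
    refine h1.trans (rs_mono_left (psd_nn (hB.met.pos _ (orbit_mem g))) ?_)
    exact pow_le_pow_right₀ (one_le_wt x) (by omega)
  lo := fun v hv => by
    rw [Complex.ofReal_one, one_smul]
    exact hB.MD_le hv
  hi := fun v hv => by
    rw [Complex.ofReal_one, one_smul]
    exact hB.le_MU hv

/-- Uniform growth: `MU(ge) ≤ wt(g)^(2a+2b) MU(e) ≤ C' ch(g)^(2(a+b))`. -/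
theorem KK.adm (hB : Brr ρ T y a b c C s H₀) (A : ℝ) : ∃ C' : ℝ, ∀ H : Vec n → Mat m,
    KK ρ s y a H₀ A H → Adm (a + b) C' H ∧ Adm (a + b) C' fun v => (H v)⁻¹ := by
  have key : ∀ (Γ' : Subgroup (SUGroup n)) (ρ' : Γ' →* Mat m) (K₀ : Vec n → Mat m),
      Brr ρ' T y a b c C s K₀ → ∃ C' : ℝ, ∀ H : Vec n → Mat m, KK ρ' s y a K₀ A H →
        Adm (a + b) C' H := by
    intro Γ' ρ' K₀ hB
    refine ⟨|A| * (2 ^ (2 * (a + b)) * ‖MU y a K₀ (HM.base n)‖), fun H h => ?_⟩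
    refine ⟨(h.met.cont.comp_continuous continuous_orbit
      fun g => orbit_mem g).aestronglyMeasurable, fun g => ?_⟩
    have p1 := psd_nn (h.met.pos _ (orbit_mem g))
    have p2 := psd_nn (hB.MU_met.pos _ (orbit_mem g))
    have h1 := pn_norm_mono p1 (h.hi _ (orbit_mem g))
    rw [norm_smul, Complex.norm_real, Real.norm_eq_abs] at h1
    have h2 := harn_real hB.MU_harn 1 g
    rw [one_mul, act_one] at h2
    have h3 := pn_norm_mono p2 h2
    rw [norm_smul, Real.norm_eq_abs, abs_of_nonneg (wt_pow_pos g _).le] at h3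
    have h4 : wt g ^ (2 * (a + b)) ≤ 2 ^ (2 * (a + b)) * ch g ^ (2 * (a + b)) := by
      rw [← mul_pow]
      exact pow_le_pow_left₀ (by linarith [one_le_wt g]) (wt_le g) _
    calc ‖H (act g (HM.base n))‖ ≤ |A| * ‖MU y a K₀ (act g (HM.base n))‖ := h1
      _ ≤ |A| * ((2 ^ (2 * (a + b)) * ch g ^ (2 * (a + b))) * ‖MU y a K₀ (HM.base n)‖) :=
          mul_le_mul_of_nonneg_left (h3.trans (mul_le_mul_of_nonneg_right h4 (norm_nonneg _)))
            (abs_nonneg A)
      _ = _ := by ring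
  obtain ⟨C₁, h1⟩ := key Γ ρ H₀ hB
  obtain ⟨C₂, h2⟩ := key Γ (HM.dual ρ) _ hB.dual
  refine ⟨max C₁ C₂, fun H h => ⟨?_, ?_⟩⟩
  · have h3 := h1 H h
    exact ⟨h3.meas, fun g => (h3.bound g).trans (mul_le_mul_of_nonneg_right (le_max_left _ _)
      (pow_nonneg (ch_pos g).le _))⟩
  · have h3 := h2 _ (h.dual hB)
    exact ⟨h3.meas, fun g => (h3.bound g).trans (mul_le_mul_of_nonneg_right (le_max_right _ _)
      (pow_nonneg (ch_pos g).le _))⟩

theorem th_pos (hB : Brr ρ T y a b c C s H₀) {v : Vec n} (hv : v ∈ Cone n) : 0 < th y a v :=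
  inv_pos.2 (pow_pos (hB.y_pos hv) _)

theorem th_le_one (hB : Brr ρ T y a b c C s H₀) {v : Vec n} (hv : v ∈ Cone n) : th y a v ≤ 1 :=
  inv_le_one_of_one_le₀ (one_le_pow₀ (hB.ht.one_le v hv))

/-- The perturbing term. -/
theorem Brr.th_met (hB : Brr ρ T y a b c C s H₀) {η : ℝ} (hη : 0 ≤ η) :
    Homog (fun v => ((η * th y a v : ℝ) : ℂ) • H₀ v) ∧
      ContinuousOn (fun v => ((η * th y a v : ℝ) : ℂ) • H₀ v) (Cone n) ∧
      (∀ v ∈ Cone n, (((η * th y a v : ℝ) : ℂ) • H₀ v).PosSemidef) ∧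
      Equi ρ (fun v => ((η * th y a v : ℝ) : ℂ) • H₀ v) ∧
      Harn (2 * s) (fun v => ((η * th y a v : ℝ) : ℂ) • H₀ v) := by
  refine ⟨fun k hk v hv => ?_, ?_, fun v hv => ?_, fun γ v hv => ?_, fun g x => ?_⟩
  · beta_reduce
    unfold th
    rw [hB.ht.hom k hk v hv, hB.met.hom k hk v hv]
  · have h1 : ContinuousOn (fun v => η * th y a v) (Cone n) :=
      continuousOn_const.mul ((hB.ht.cont.pow (2 * a)).inv₀
        fun v hv => (pow_pos (hB.y_pos hv) _).ne')
    exact (Complex.continuous_ofReal.comp_continuousOn h1).smul hB.met.cont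
  · rw [cr_smul]
    exact (hB.met.pos v hv).posSemidef.smul (mul_nonneg hη (th_pos hB hv).le)
  · beta_reduce
    unfold th
    rw [hB.ht.inv γ γ.2 v hv, hB.met.equi γ v hv, mul_smul_comm, smul_mul_assoc]
  · beta_reduce
    have hbig := hB.big
    rw [wt_pow_cast, cr_smul, cr_smul]
    have h1 := harn_real hB.harn g x
    have p0 := psd_nn (hB.met.pos _ (orbit_mem g))
    have hθ : th y a (act (g * x) (HM.base n)) ≤ wt x ^ (4 * a) * th y a (act g (HM.base n)) := by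
      unfold th
      have h2 := hB.y_ge g x (2 * a)
      have q1 := pow_pos (hB.y_pos (orbit_mem g)) (2 * a)
      have q2 := pow_pos (hB.y_pos (orbit_mem (g * x))) (2 * a)
      rw [show 2 * (2 * a) = 4 * a by ring] at h2
      rw [← div_eq_mul_inv, le_div_iff₀ q1, inv_mul_le_iff₀ q2]
      linarith
    have q3 : 0 ≤ η * th y a (act (g * x) (HM.base n)) :=
      mul_nonneg hη (th_pos hB (orbit_mem _)).le
    calc (η * th y a (act (g * x) (HM.base n))) • H₀ (act (g * x) (HM.base n))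
        ≤ (η * th y a (act (g * x) (HM.base n))) • (wt x ^ (2 * b) • H₀ (act g (HM.base n))) :=
          rs_mono q3 h1
      _ = (η * th y a (act (g * x) (HM.base n)) * wt x ^ (2 * b)) • H₀ (act g (HM.base n)) :=
          smul_smul _ _ _
      _ ≤ (wt x ^ (2 * s) * (η * th y a (act g (HM.base n)))) • H₀ (act g (HM.base n)) := by
          refine rs_mono_left p0 ?_
          have e1 : wt x ^ (4 * a) * wt x ^ (2 * b) ≤ wt x ^ (2 * s) := by
            rw [← pow_add]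
            exact pow_le_pow_right₀ (one_le_wt x) (by omega)
          have q4 : 0 ≤ η * th y a (act g (HM.base n)) := mul_nonneg hη (th_pos hB (orbit_mem _)).le
          have q5 := (wt_pow_pos x (2 * b)).le
          calc η * th y a (act (g * x) (HM.base n)) * wt x ^ (2 * b)
              ≤ η * (wt x ^ (4 * a) * th y a (act g (HM.base n))) * wt x ^ (2 * b) :=
                mul_le_mul_of_nonneg_right (mul_le_mul_of_nonneg_left hθ hη) q5
            _ = (wt x ^ (4 * a) * wt x ^ (2 * b)) * (η * th y a (act g (HM.base n))) := by ring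
            _ ≤ _ := mul_le_mul_of_nonneg_right e1 q4
      _ = _ := (smul_smul _ _ _).symm

/-- The averages are positive definite, equivariant and satisfy Harnack with exponent `2s` (for `θ H₀` the exponent
is `4a + 2b ≤ 2s`). -/
theorem KK.ops (hB : Brr ρ T y a b c C s H₀) {η : ℝ} (hη : 0 ≤ η) {A : ℝ} {H : Vec n → Mat m}
    (h : KK ρ s y a H₀ A H) :
    Met (HM.dual ρ) (PA s η y a H₀ H) ∧ Met ρ (PB s η y a H₀ H) ∧
      Harn (2 * s) (PA s η y a H₀ H) ∧ Harn (2 * s) (PB s η y a H₀ H) := by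
  have key : ∀ (ρ' : Γ →* Mat m) (K₀ K : Vec n → Mat m), Brr ρ' T y a b c C s K₀ →
      KK ρ' s y a K₀ A K → Met ρ' (PB s η y a K₀ K) ∧ Harn (2 * s) (PB s η y a K₀ K) := by
    intro ρ' K₀ K hB h
    have hbig := hB.big
    obtain ⟨C', hadm⟩ := KK.adm hB A
    obtain ⟨t1, t2, t3, t4, t5⟩ := hB.th_met hη
    obtain ⟨m1, m2⟩ := P_met_N (s := s) (by omega) (hadm K h).1 h.met
    refine ⟨⟨fun k hk v hv => ?_, m1.cont.add t2, fun v hv => ?_, fun γ v hv => ?_⟩, fun g x => ?_⟩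
    · have e1 := t1 k hk v hv
      beta_reduce at e1
      show P s K (k • v) + _ = P s K v + _
      rw [m1.hom k hk v hv, e1]
    · exact (m1.pos v hv).add_posSemidef (t3 v hv)
    · have e1 := t4 γ v hv
      beta_reduce at e1
      show P s K (act (γ : SUGroup n) v) + _ = ρ' γ * (P s K v + _) * (ρ' γ)ᴴ
      rw [m1.equi γ v hv, e1, Matrix.mul_add, Matrix.add_mul]
    · have e1 := t5 g x
      beta_reduce at e1
      show P s K (act (g * x) (HM.base n)) + _ ≤ _ • (P s K (act g (HM.base n)) + _)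
      rw [smul_add]
      exact add_le_add (m2 g x) e1
  obtain ⟨a1, a2⟩ := key ρ H₀ H hB h
  obtain ⟨a3, a4⟩ := key (HM.dual ρ) _ _ hB.dual (h.dual hB)
  exact ⟨a3, a1, a4, a2⟩

/-- The comparison principle (`bar_harnack` with `c = 1`). -/
theorem cmp_le {A B u w : Mat m} (hA : A.PosDef) (hu : u.PosDef) (hw : w.PosDef)
    (h : u * A * u ≤ B) (hB : w * A * w = B) : u ≤ w := by
  have h1 : (u * A * u).PosDef := by
    have h2 := hA.mul_mul_conjTranspose_same (B := u) (Matrix.vecMul_injective_of_isUnit hu.isUnit)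
    rwa [hu.1.eq] at h2
  have h2 := bar_harnack (c := 1) one_pos hA hA h1 hu hw rfl hB (by rw [one_smul])
    (by rwa [one_smul])
  rwa [one_smul] at h2

theorem cmp_ge {A B u w : Mat m} (hA : A.PosDef) (hu : u.PosDef) (hw : w.PosDef)
    (hB' : B.PosDef) (h : B ≤ u * A * u) (hB : w * A * w = B) : w ≤ u := by
  have h2 := bar_harnack (c := 1) one_pos hA hA hB' hw hu hB rfl (by rw [one_smul])
    (by rwa [one_smul])
  rwa [one_smul] at h2

/-- the upper bound in A5 -/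
theorem T_hi (hB : Brr ρ T y a b c C s H₀) {η : ℝ} (hη : 0 < η) (hη1 : η ≤ 1) {A : ℝ}
    (hA : C * T ^ a / η + 1 ≤ A) {H : Vec n → Mat m} (h : KK ρ s y a H₀ A H) {v : Vec n}
    (hv : v ∈ Cone n) {L : Mat m} (hL : L.PosDef)
    (he : L * PA s η y a H₀ H v * L = PB s η y a H₀ H v) : L ≤ (A : ℂ) • MU y a H₀ v := by
  have hbig := hB.big
  have hT := hB.T_pos
  have hC := hB.one_le
  have hA1 : 1 ≤ A := by
    have : 0 ≤ C * T ^ a / η := by positivity
    linarith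
  have hA0 : 0 < A := by linarith
  obtain ⟨mA, mB, -, -⟩ := h.ops hB hη.le
  have pM := hB.MU_met.pos v hv
  obtain ⟨C₁, -, a1, a2⟩ := adm_of_harn hB.MU_met hB.MU_harn
  obtain ⟨C₂, ha⟩ := KK.adm hB A
  obtain ⟨a3', a4'⟩ := ha H h
  have hNs : n + (a + b) < s := by omega
  -- the averages
  have hPH : P s H v ≤ (A : ℂ) • P s (MU y a H₀) v := by
    rw [← P_rsmul]
    refine P_mono_N hNs a3' (C' := A * C₁) ?_ (fun w hw => h.hi w hw) hv
    refine ⟨?_, fun g => ?_⟩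
    · exact (a1.meas.const_smul (A : ℂ))
    · rw [norm_smul, Complex.norm_real, Real.norm_eq_abs, abs_of_pos hA0, mul_assoc]
      exact mul_le_mul_of_nonneg_left (a1.bound g) hA0.le
  have hPHi : ((A⁻¹ : ℝ) : ℂ) • P s (fun w => (MU y a H₀ w)⁻¹) v ≤
      P s (fun w => (H w)⁻¹) v := by
    rw [← P_rsmul]
    refine P_mono_N hNs (C := A⁻¹ * C₁) ?_ a4' (fun w hw => ?_) hv
    · refine ⟨?_, fun g => ?_⟩
      · exact (a2.meas.const_smul ((A⁻¹ : ℝ) : ℂ))
      · rw [norm_smul, Complex.norm_real, Real.norm_eq_abs, abs_of_pos (inv_pos.2 hA0), mul_assoc]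
        exact mul_le_mul_of_nonneg_left (a2.bound g) (inv_pos.2 hA0).le
    · have h1 := inv_le_inv_of_le (h.met.pos w hw) (h.hi w hw)
      rwa [cs_inv (hB.MU_met.pos w hw) hA0] at h1
  obtain ⟨u, hu⟩ : ∃ u : Mat m, u = (A : ℂ) • MU y a H₀ v := ⟨_, rfl⟩
  have pu : u.PosDef := by
    rw [hu]
    exact cs_posDef pM hA0
  rw [← hu]
  refine cmp_ge (mA.pos v hv) pu hL (mB.pos v hv) ?_ he
  -- the main inequality
  obtain ⟨X, hX⟩ : ∃ X : Mat m, X = MU y a H₀ v * P s (fun w => (MU y a H₀ w)⁻¹) v *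
    MU y a H₀ v := ⟨_, rfl⟩
  have hconj : ∀ {A' B' : Mat m}, A' ≤ B' → u * A' * u ≤ u * B' * u := by
    intro A' B' h
    have h1 := conj_le_conj h u
    rwa [pu.1.eq] at h1
  have h1 : (A : ℂ) • X ≤ u * P s (fun w => (H w)⁻¹) v * u := by
    refine le_trans (le_of_eq ?_) (hconj hPHi)
    rw [hX, hu]
    simp only [smul_mul_assoc, mul_smul_comm, smul_smul]
    congr 1
    rw [Complex.ofReal_inv]
    have : (A : ℂ) ≠ 0 := by exact_mod_cast hA0.ne'
    field_simp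
  have hyv := hB.y_pos hv
  have p0 := hB.met.pos v hv
  have h2 : u * (((η * th y a v : ℝ) : ℂ) • (H₀ v)⁻¹) * u = ((η * A ^ 2 : ℝ) : ℂ) • H₀ v := by
    rw [hu]
    unfold MU th
    simp only [smul_mul_assoc, mul_smul_comm, smul_smul]
    rw [mul_nonsing_inv _ ((isUnit_iff_isUnit_det _).1 p0.isUnit), Matrix.one_mul]
    congr 1
    have : (y v : ℂ) ≠ 0 := by exact_mod_cast hyv.ne'
    push_cast
    rw [show 2 * a = a + a by ring, pow_add]
    field_simp
  have h3 : u * PA s η y a H₀ H v * u = u * P s (fun w => (H w)⁻¹) v * u +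
      ((η * A ^ 2 : ℝ) : ℂ) • H₀ v := by
    unfold PA
    rw [Matrix.mul_add, Matrix.add_mul, h2]
  rw [h3]
  unfold PB
  have hθ1 := th_le_one hB hv
  have hθ0 := th_pos hB hv
  rcases le_total T (y v) with hTy | hTy
  · -- the cusp
    have h4 := hB.cuspU v hv hTy
    rw [← hX] at h4
    have hX0 : 0 ≤ X := by
      have h5 : 0 ≤ P s (MU y a H₀) v :=
        psd_nn (P_posDef_N hNs a1 hB.MU_met.pos hv)
      have h6 := h5.trans h4
      have hcs : 0 < 1 - c / s := by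
        have hs0 : (0 : ℝ) < s := lt_of_lt_of_le hB.c_pos hB.c_lt.le
        rw [sub_pos, div_lt_one hs0]
        exact hB.c_lt
      have h7 := cs_mono (inv_pos.2 hcs).le h6
      rw [smul_zero, cs_smul, inv_mul_cancel₀ hcs.ne', Complex.ofReal_one, one_smul] at h7
      exact h7
    have h5 : P s (MU y a H₀) v ≤ X := by
      refine h4.trans ?_
      have hcs : (1 : ℝ) - c / s ≤ 1 := by
        have := div_nonneg hB.c_pos.le (Nat.cast_nonneg (α := ℝ) s)
        linarith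
      have h6 := cs_mono_left hX0 hcs
      rwa [Complex.ofReal_one, one_smul] at h6
    refine add_le_add (hPH.trans ((cs_mono hA0.le h5).trans h1)) ?_
    refine cs_mono_left (psd_nn p0) ?_
    refine mul_le_mul_of_nonneg_left (hθ1.trans ?_) hη.le
    exact one_le_pow₀ hA1
  · -- below the level `T`
    have h4 := hB.up v hv
    have h5 : (A : ℂ) • P s (MU y a H₀) v ≤ ((A * (C * T ^ a) : ℝ) : ℂ) • H₀ v := by
      refine (cs_mono hA0.le h4).trans ?_
      unfold MU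
      rw [cs_smul, cs_smul]
      refine cs_mono_left (psd_nn p0) ?_
      have h6 : y v ^ a ≤ T ^ a := pow_le_pow_left₀ hyv.le hTy a
      have h7 : 0 ≤ A * C := by positivity
      nlinarith [mul_le_mul_of_nonneg_left h6 h7]
    have h6 : 0 ≤ u * P s (fun w => (H w)⁻¹) v * u := by
      have h7 := hconj (psd_nn (P_posDef_N hNs a4' (fun w hw => (h.met.pos w hw).inv) hv))
      rwa [Matrix.mul_zero, Matrix.zero_mul] at h7
    have h7 : P s H v + ((η * th y a v : ℝ) : ℂ) • H₀ v ≤ ((η * A ^ 2 : ℝ) : ℂ) • H₀ v := by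
      refine (add_le_add (hPH.trans h5) (le_refl (((η * th y a v : ℝ) : ℂ) • H₀ v))).trans ?_
      rw [← add_smul, ← Complex.ofReal_add]
      refine cs_mono_left (psd_nn p0) ?_
      have h8 : C * T ^ a + η ≤ η * A := by
        have h9 := mul_le_mul_of_nonneg_left hA hη.le
        rw [mul_add, mul_div_cancel₀ _ hη.ne', mul_one] at h9
        exact h9
      have h9 : η * th y a v ≤ A * η := by nlinarith
      nlinarith
    exact h7.trans (le_add_of_nonneg_left h6)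

/-- A5: the solution operator maps the class `KK A` to itself if `A ≥ A₀ = C T^a/η + 1`. Upper bound: `u = A MU`;
for `T ≤ y`: `u A⁻¹ P_s(MU⁻¹) u = A MU P_s(MU⁻¹) MU ≥ A P_s MU ≥ P_s H` (`cuspU`) and `η θ u H₀⁻¹ u = η A² H₀ ≥ η θ H₀`;
for `y ≤ T`: `η A² H₀ ≥ A C T^a H₀ + η θ H₀ ≥ A P_s MU + η θ H₀`. Then `cmp_ge`. Lower bound: the dual (the inverse of
the solution solves the dual equation). Harnack and equivariance: `bar_harnack` with `c = wt^(2s)`, uniqueness (`bar_unique`). -/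
theorem exists_T (hB : Brr ρ T y a b c C s H₀) {η : ℝ} (hη : 0 < η) (hη1 : η ≤ 1) :
    ∃ A₀ : ℝ, 1 ≤ A₀ ∧ ∀ A : ℝ, A₀ ≤ A → ∀ H : Vec n → Mat m, KK ρ s y a H₀ A H →
      ∃ L : Vec n → Mat m, KK ρ s y a H₀ A L ∧
        ∀ v ∈ Cone n, L v * PA s η y a H₀ H v * L v = PB s η y a H₀ H v := by
  have hT := hB.T_pos
  have hC := hB.one_le
  refine ⟨C * T ^ a / η + 1, ?_, fun A hA H h => ?_⟩
  · have : 0 ≤ C * T ^ a / η := by positivity
    linarith
  have hA0 : 0 < A := by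
    have : 0 ≤ C * T ^ a / η := by positivity
    linarith
  obtain ⟨mA, mB, harnA, harnB⟩ := h.ops hB hη.le
  have hex : ∀ v : Vec n, ∃ L : Mat m, v ∈ Cone n →
      L.PosDef ∧ L * PA s η y a H₀ H v * L = PB s η y a H₀ H v := by
    intro v
    by_cases hv : v ∈ Cone n
    · obtain ⟨L, h1, h2⟩ := exists_bar (mA.pos v hv) (mB.pos v hv)
      exact ⟨L, fun _ => ⟨h1, h2⟩⟩
    · exact ⟨0, fun h => absurd h hv⟩
  choose L hL using hex
  have pL : ∀ v ∈ Cone n, (L v).PosDef := fun v hv => (hL v hv).1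
  have eL : ∀ v ∈ Cone n, L v * PA s η y a H₀ H v * L v = PB s η y a H₀ H v := fun v hv =>
    (hL v hv).2
  have hom : Homog L := by
    intro k hk v hv
    have hkv := smul_mem_cone hk hv
    refine bar_unique (mA.pos v hv) (pL _ hkv) (pL v hv) ?_
    have h3 := eL _ hkv
    rw [mA.hom k hk v hv, mB.hom k hk v hv] at h3
    rw [h3, eL v hv]
  have hharn : Harn (2 * s) L := by
    intro g x
    rw [wt_pow_cast]
    exact bar_harnack (wt_pow_pos x _) (mA.pos _ (orbit_mem _)) (mA.pos _ (orbit_mem _))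
      (mB.pos _ (orbit_mem _)) (pL _ (orbit_mem _)) (pL _ (orbit_mem _))
      (eL _ (orbit_mem _)) (eL _ (orbit_mem _)) (harn_real' harnA g x) (harn_real harnB g x)
  have hequi : Equi ρ L := by
    intro γ v hv
    have hγv := act_mem (γ : SUGroup n) hv
    have r1 : ρ γ * ρ γ⁻¹ = 1 := by rw [← map_mul, mul_inv_cancel, map_one]
    have r2 : ρ γ⁻¹ * ρ γ = 1 := by rw [← map_mul, inv_mul_cancel, map_one]
    have hu : IsUnit (ρ γ) := ⟨⟨ρ γ, ρ γ⁻¹, r1, r2⟩, rfl⟩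
    refine bar_unique (mA.pos _ hγv) (pL _ hγv) ((pL v hv).mul_mul_conjTranspose_same
      (Matrix.vecMul_injective_of_isUnit hu)) ?_
    have e0 : HM.dual ρ γ = (ρ γ⁻¹)ᴴ := rfl
    rw [eL _ hγv, mA.equi γ v hv, mB.equi γ v hv, e0, conjTranspose_conjTranspose]
    have e1 : (ρ γ)ᴴ * (ρ γ⁻¹)ᴴ = 1 := by
      rw [← conjTranspose_mul, r2, conjTranspose_one]
    calc ρ γ * PB s η y a H₀ H v * (ρ γ)ᴴ
        = ρ γ * (L v * PA s η y a H₀ H v * L v) * (ρ γ)ᴴ := by rw [eL v hv]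
      _ = ρ γ * L v * ((ρ γ)ᴴ * (ρ γ⁻¹)ᴴ) * PA s η y a H₀ H v *
          (ρ γ⁻¹ * ρ γ) * L v * (ρ γ)ᴴ := by
          rw [e1, r2, Matrix.mul_one, Matrix.mul_one]
          simp only [Matrix.mul_assoc]
      _ = _ := by simp only [Matrix.mul_assoc]
  have hmet : Met ρ L := ⟨hom, cont_of_harn hom (fun g => (pL _ (orbit_mem g)).posSemidef) hharn,
    pL, hequi⟩
  refine ⟨L, ⟨hmet, hharn, fun v hv => ?_, fun v hv => T_hi hB hη hη1 hA h hv (pL v hv) (eL v hv)⟩,
    eL⟩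
  -- the lower bound by duality
  have hdet : IsUnit (L v).det := (isUnit_iff_isUnit_det _).1 (pL v hv).isUnit
  have eA : PA s η y a (fun w => (H₀ w)⁻¹) (fun w => (H w)⁻¹) v = PB s η y a H₀ H v := by
    unfold PA PB
    rw [P_congr' s (f := fun w => ((H w)⁻¹)⁻¹) (f' := H)
      (fun w hw => inv_inv_pos (h.met.pos w hw)) v, inv_inv_pos (hB.met.pos v hv)]
  have eB : PB s η y a (fun w => (H₀ w)⁻¹) (fun w => (H w)⁻¹) v = PA s η y a H₀ H v := rfl
  have e1 : (L v)⁻¹ * PA s η y a (fun w => (H₀ w)⁻¹) (fun w => (H w)⁻¹) v * (L v)⁻¹ =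
      PB s η y a (fun w => (H₀ w)⁻¹) (fun w => (H w)⁻¹) v := by
    rw [eA, eB, ← eL v hv]
    calc (L v)⁻¹ * (L v * PA s η y a H₀ H v * L v) * (L v)⁻¹
        = ((L v)⁻¹ * L v) * PA s η y a H₀ H v * (L v * (L v)⁻¹) := by
          simp only [Matrix.mul_assoc]
      _ = _ := by
          rw [nonsing_inv_mul _ hdet, mul_nonsing_inv _ hdet, Matrix.one_mul, Matrix.mul_one]
  have h1 := T_hi hB.dual hη hη1 hA (h.dual hB) hv (pL v hv).inv e1
  rw [hB.MU_inv hv] at h1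
  have h2 := inv_le_inv_of_le (pL v hv).inv h1
  rw [inv_inv_pos (pL v hv), cs_inv (hB.MD_met.pos v hv).inv hA0,
    inv_inv_pos (hB.MD_met.pos v hv)] at h2
  have h3 := cs_mono hA0.le h2
  rwa [cs_smul, mul_inv_cancel₀ hA0.ne', Complex.ofReal_one, one_smul] at h3

end Pool.Agent.Lib.MP_5d4057_al.NU
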