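import Pool.Agent.Lib.MP_5d4057_al.NU.LevN1
import Pool.Agent.Lib.MP_5d4057_al.NU.LatA2
import Pool.Agent.Lib.MP_5d4057_al.HM.AA

/-! Level `s`: the perturbed functional and its minimiser (blueprint h37_nu, A6). -/

namespace Pool.Agent.Lib.MP_5d4057_al.NU

open Matrix MeasureTheory Filter Topology Pool.Agent.Lib.MP_5d4057_al
  Pool.Agent.Lib.MP_5d4057_al.Hyb Pool.Agent.Lib.MP_5d4057_al.HM

open scoped ComplexOrder MatrixOrder Matrix.Norms.L2Operator ENNReal

variable {n m : ℕ}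

variable {Γ : Subgroup (SUGroup n)} {χ : SUGroup n → ℝ}

/-- `tr (A⁻¹ B)` in `[0, ∞]`. -/
noncomputable def tq (A B : Mat m) : ℝ≥0∞ := ENNReal.ofReal (A⁻¹ * B).trace.re

/-- The functional without perturbation. -/
noncomputable def J0 (χ : SUGroup n → ℝ) (s : ℕ) (H L : Vec n → Mat m) : ℝ≥0∞ :=
  LI χ fun g => ∫⁻ x, ENNReal.ofReal (kap s x) *
    (tq (L (act g (base n))) (H (act (g * x) (base n))) +
      tq (H (act (g * x) (base n))) (L (act g (base n)))) ∂(mu n)

/-- The perturbation. -/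
noncomputable def JP (χ : SUGroup n → ℝ) (y : Vec n → ℝ) (a : ℕ) (H₀ H : Vec n → Mat m) :
    ℝ≥0∞ :=
  LI χ fun g => ENNReal.ofReal (th y a (act g (base n))) *
    (tq (H (act g (base n))) (H₀ (act g (base n))) + tq (H₀ (act g (base n))) (H (act g (base n))))

/-- The perturbed functional. -/
noncomputable def JE (χ : SUGroup n → ℝ) (s : ℕ) (η : ℝ) (y : Vec n → ℝ) (a : ℕ)
    (H₀ H L : Vec n → Mat m) : ℝ≥0∞ :=
  J0 χ s H L + ENNReal.ofReal η * (JP χ y a H₀ H + JP χ y a H₀ L)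

/-- The result of the perturbed theory. -/
structure PE (ρ : Γ →* Mat m) (χ : SUGroup n → ℝ) (s : ℕ) (η : ℝ) (y : Vec n → ℝ) (a : ℕ)
    (H₀ H L : Vec n → Mat m) : Prop where
  kk : ∃ A : ℝ, KK ρ s y a H₀ A H ∧ KK ρ s y a H₀ A L
  eq1 : ∀ v ∈ Cone n, L v * PA s η y a H₀ H v * L v = PB s η y a H₀ H v
  eq2 : ∀ v ∈ Cone n, H v * PA s η y a H₀ L v * H v = PB s η y a H₀ L v
  le : JE χ s η y a H₀ H L ≤ JE χ s η y a H₀ H₀ H₀

variable {ρ : Γ →* Mat m} {T : ℝ} {y : Vec n → ℝ} {a b : ℕ} {c C : ℝ} {s : ℕ}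
  {H₀ : Vec n → Mat m}

/-! ### The quantity `tq` -/

theorem pd_unit {A : Mat m} (hA : A.PosDef) : IsUnit A.det :=
  (isUnit_iff_isUnit_det A).1 hA.isUnit

theorem tr_inv_nonneg {A B : Mat m} (hA : A.PosDef) (hB : B.PosDef) :
    0 ≤ (A⁻¹ * B).trace.re :=
  HM.trace_mul_nonneg hA.inv.posSemidef hB.posSemidef

theorem tq_inv {A B : Mat m} (hA : A.PosDef) : tq A⁻¹ B⁻¹ = tq B A := by
  unfold tq
  rw [nonsing_inv_nonsing_inv _ (pd_unit hA), trace_mul_comm]

theorem tq_conj {X A B : Mat m} (hX : IsUnit X) : tq (X * A * Xᴴ) (X * B * Xᴴ) = tq A B := by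
  unfold tq
  have hXd : IsUnit X.det := (isUnit_iff_isUnit_det X).1 hX
  have hXd' : IsUnit (Xᴴ).det := by
    rw [det_conjTranspose]
    exact hXd.star
  rw [Matrix.mul_inv_rev, Matrix.mul_inv_rev]
  congr 2
  calc (Xᴴ⁻¹ * (A⁻¹ * X⁻¹) * (X * B * Xᴴ)).trace
      = (Xᴴ⁻¹ * (A⁻¹ * (X⁻¹ * X) * B * Xᴴ)).trace := by simp only [Matrix.mul_assoc]
    _ = (A⁻¹ * (X⁻¹ * X) * B * Xᴴ * Xᴴ⁻¹).trace := trace_mul_comm _ _
    _ = (A⁻¹ * (X⁻¹ * X) * B * (Xᴴ * Xᴴ⁻¹)).trace := by simp only [Matrix.mul_assoc]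
    _ = _ := by rw [nonsing_inv_mul _ hXd, mul_nonsing_inv _ hXd', Matrix.mul_one, Matrix.mul_one]

theorem rho_unit (ρ : Γ →* Mat m) (γ : Γ) : IsUnit (ρ γ) :=
  ⟨⟨ρ γ, ρ γ⁻¹, by rw [← map_mul, mul_inv_cancel, map_one],
    by rw [← map_mul, inv_mul_cancel, map_one]⟩, rfl⟩

theorem met_orb {H : Vec n → Mat m} (hH : Met ρ H) :
    Continuous fun g : SUGroup n => H (act g (base n)) :=
  hH.cont.comp_continuous continuous_orbit fun g => orbit_mem g

theorem met_equi' {H : Vec n → Mat m} (hH : Met ρ H) {γ : SUGroup n} (hγ : γ ∈ Γ)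
    (g : SUGroup n) : H (act (γ * g) (base n)) = ρ ⟨γ, hγ⟩ * H (act g (base n)) * (ρ ⟨γ, hγ⟩)ᴴ := by
  have h1 := hH.equi ⟨γ, hγ⟩ _ (orbit_mem g)
  rw [← h1, act_mul]

/-- joint continuity of `tq` along continuous families -/
theorem continuous_tq {X : Type} [TopologicalSpace X] {A B : X → Mat m} (hA : Continuous A)
    (hp : ∀ x, (A x).PosDef) (hB : Continuous B) : Continuous fun x => tq (A x) (B x) := by
  unfold tq
  have h1 : Continuous fun x => (A x)⁻¹ := by
    rw [continuous_iff_continuousAt]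
    intro x
    obtain ⟨u, hu⟩ := (hp x).isUnit
    have h1 : ContinuousAt Ring.inverse (u : Mat m) := NormedRing.inverse_continuousAt u
    rw [hu] at h1
    have h2 := ContinuousAt.comp (f := A) (x := x) h1 hA.continuousAt
    simp only [nonsing_inv_eq_ringInverse]
    exact h2
  exact ENNReal.continuous_ofReal.comp (Complex.continuous_re.comp (h1.mul hB).matrix_trace)

/-- continuity of `tq` along sequences -/
theorem tendsto_tq {A B : ℕ → Mat m} {A' B' : Mat m} (hA : Tendsto A atTop (𝓝 A'))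
    (hp : A'.PosDef) (hB : Tendsto B atTop (𝓝 B')) :
    Tendsto (fun k => tq (A k) (B k)) atTop (𝓝 (tq A' B')) := by
  unfold tq
  have h1 : Tendsto (fun k => (A k)⁻¹) atTop (𝓝 A'⁻¹) := by
    obtain ⟨u, hu⟩ := hp.isUnit
    have h1 : ContinuousAt Ring.inverse (u : Mat m) := NormedRing.inverse_continuousAt u
    rw [hu] at h1
    have h2 := h1.tendsto.comp hA
    simp only [nonsing_inv_eq_ringInverse]
    exact h2
  have ct : Continuous fun A : Mat m => A.trace := continuous_id.matrix_trace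
  have h2 := (ct.tendsto _).comp (h1.mul hB)
  exact (ENNReal.continuous_ofReal.tendsto _).comp ((Complex.continuous_re.tendsto _).comp h2)

/-- the integrand -/
theorem continuous_phi {H L : Vec n → Mat m} (hH : Met ρ H) (hL : Met ρ L) :
    Continuous fun p : SUGroup n × SUGroup n => tq (L (act p.1 (base n))) (H (act p.2 (base n))) +
      tq (H (act p.2 (base n))) (L (act p.1 (base n))) := by
  have c1 : Continuous fun p : SUGroup n × SUGroup n => L (act p.1 (base n)) :=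
    (met_orb hL).comp continuous_fst
  have c2 : Continuous fun p : SUGroup n × SUGroup n => H (act p.2 (base n)) :=
    (met_orb hH).comp continuous_snd
  exact (continuous_tq c1 (fun p => hL.pos _ (orbit_mem _)) c2).add
    (continuous_tq c2 (fun p => hH.pos _ (orbit_mem _)) c1)

theorem continuous_psi {H L : Vec n → Mat m} (hH : Met ρ H) (hL : Met ρ L) :
    Continuous fun p : SUGroup n × SUGroup n =>
      tq (L (act p.1 (base n))) (H (act (p.1 * p.2) (base n))) +
      tq (H (act (p.1 * p.2) (base n))) (L (act p.1 (base n))) := by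
  have c1 : Continuous fun p : SUGroup n × SUGroup n => L (act p.1 (base n)) :=
    (met_orb hL).comp continuous_fst
  have c2 : Continuous fun p : SUGroup n × SUGroup n => H (act (p.1 * p.2) (base n)) :=
    (met_orb hH).comp (continuous_fst.mul continuous_snd)
  exact (continuous_tq c1 (fun p => hL.pos _ (orbit_mem _)) c2).add
    (continuous_tq c2 (fun p => hH.pos _ (orbit_mem _)) c1)

theorem measurable_kapE (s : ℕ) : Measurable fun x : SUGroup n => ENNReal.ofReal (kap s x) :=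
  (ENNReal.continuous_ofReal.comp (continuous_kap s)).measurable

/-- Symmetry (`Lat.LI_swap`). -/
theorem J0_symm (hΓ : Lat Γ χ) {H L : Vec n → Mat m} (hH : Met ρ H) (hL : Met ρ L) :
    J0 χ s H L = J0 χ s L H := by
  have h1 := LI_swap hΓ (Φ := fun g g' => tq (L (act g (base n))) (H (act g' (base n))) +
      tq (H (act g' (base n))) (L (act g (base n))))
    (continuous_phi hH hL).measurable.aemeasurable
    (fun γ hγ g g' => by
      rw [met_equi' hL hγ, met_equi' hH hγ, tq_conj (rho_unit ρ _), tq_conj (rho_unit ρ _)])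
    (κ := fun x => ENNReal.ofReal (kap s x)) (measurable_kapE s).aemeasurable
    (fun x => by rw [kap_inv])
  unfold J0
  rw [h1]
  congr 1
  funext g
  refine lintegral_congr fun x => ?_
  rw [add_comm]

theorem PE.symm (hΓ : Lat Γ χ) {η : ℝ} {H L : Vec n → Mat m} (h : PE ρ χ s η y a H₀ H L) :
    PE ρ χ s η y a H₀ L H := by
  obtain ⟨A, h1, h2⟩ := h.kk
  refine ⟨⟨A, h2, h1⟩, h.eq2, h.eq1, ?_⟩
  have h3 := h.le
  unfold JE at h3 ⊢
  rwa [J0_symm hΓ h2.met h1.met, add_comm (JP χ y a H₀ L)]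

/-- `tq (A⁻¹) (B⁻¹) = tq B A`. -/
theorem PE.dual (hB : Brr ρ T y a b c C s H₀) {η : ℝ} {H L : Vec n → Mat m}
    (h : PE ρ χ s η y a H₀ H L) :
    PE (HM.dual ρ) χ s η y a (fun v => (H₀ v)⁻¹) (fun v => (H v)⁻¹) fun v => (L v)⁻¹ := by
  have e0 : ∀ {H L : Vec n → Mat m}, Met ρ H → Met ρ L →
      J0 χ s (fun v => (H v)⁻¹) (fun v => (L v)⁻¹) = J0 χ s H L := by
    intro H L hH hL
    unfold J0
    congr 1
    funext g
    refine lintegral_congr fun x => ?_
    rw [tq_inv (hL.pos _ (orbit_mem g)), tq_inv (hH.pos _ (orbit_mem (g * x))), add_comm]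
  have e1 : ∀ {H : Vec n → Mat m}, Met ρ H →
      JP χ y a (fun v => (H₀ v)⁻¹) (fun v => (H v)⁻¹) = JP χ y a H₀ H := by
    intro H hH
    unfold JP
    congr 1
    funext g
    rw [tq_inv (hB.met.pos _ (orbit_mem g)), tq_inv (hH.pos _ (orbit_mem g)), add_comm]
  have e2 : ∀ {H L : Vec n → Mat m}, Met ρ H → Met ρ L →
      (∀ v ∈ Cone n, L v * PA s η y a H₀ H v * L v = PB s η y a H₀ H v) →
      ∀ v ∈ Cone n, (L v)⁻¹ * PA s η y a (fun w => (H₀ w)⁻¹) (fun w => (H w)⁻¹) v * (L v)⁻¹ =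
        PB s η y a (fun w => (H₀ w)⁻¹) (fun w => (H w)⁻¹) v := by
    intro H L hH hL he v hv
    have hdet := pd_unit (hL.pos v hv)
    have eA : PA s η y a (fun w => (H₀ w)⁻¹) (fun w => (H w)⁻¹) v = PB s η y a H₀ H v := by
      unfold PA PB
      rw [P_congr' s (f := fun w => ((H w)⁻¹)⁻¹) (f' := H)
        (fun w hw => inv_inv_pos (hH.pos w hw)) v, inv_inv_pos (hB.met.pos v hv)]
    have eB : PB s η y a (fun w => (H₀ w)⁻¹) (fun w => (H w)⁻¹) v = PA s η y a H₀ H v := rfl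
    rw [eA, eB, ← he v hv]
    calc (L v)⁻¹ * (L v * PA s η y a H₀ H v * L v) * (L v)⁻¹
        = ((L v)⁻¹ * L v) * PA s η y a H₀ H v * (L v * (L v)⁻¹) := by
          simp only [Matrix.mul_assoc]
      _ = _ := by
          rw [nonsing_inv_mul _ hdet, mul_nonsing_inv _ hdet, Matrix.one_mul, Matrix.mul_one]
  obtain ⟨A, h1, h2⟩ := h.kk
  refine ⟨⟨A, h1.dual hB, h2.dual hB⟩, e2 h1.met h2.met h.eq1, e2 h2.met h1.met h.eq2, ?_⟩
  have h3 := h.le
  unfold JE at h3 ⊢
  rw [e0 h1.met h2.met, e1 h1.met, e1 h2.met, e0 hB.met hB.met, e1 hB.met]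
  exact h3

/-! ### The inner integral -/

/-- the inner integral -/
theorem inner_tq {N : ℕ} (hs : n + N < s) {C₁ : ℝ} {H : Vec n → Mat m} (hH : Met ρ H)
    (a1 : Adm N C₁ H) (a2 : Adm N C₁ fun v => (H v)⁻¹) {X : Mat m} (hX : X.PosDef)
    (g : SUGroup n) :
    ∫⁻ x, ENNReal.ofReal (kap s x) * (tq X (H (act (g * x) (base n))) +
      tq (H (act (g * x) (base n))) X) ∂(mu n) =
      ENNReal.ofReal ((X⁻¹ * P s H (act g (base n))).trace.re +
        (P s (fun w => (H w)⁻¹) (act g (base n)) * X).trace.re) := by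
  obtain ⟨i1, e1⟩ := int_tr (int_adm hs a1 g) X⁻¹
  obtain ⟨i2, e2⟩ := int_tr (int_adm hs a2 g) X
  rw [← P_orbit] at e1
  rw [← P_orbit s (fun w => (H w)⁻¹) g] at e2
  have e3 : ∀ x : SUGroup n, ENNReal.ofReal (kap s x) * (tq X (H (act (g * x) (base n))) +
      tq (H (act (g * x) (base n))) X) =
      ENNReal.ofReal ((X⁻¹ * (kap s x • H (act (g * x) (base n)))).trace.re +
        (X * (kap s x • (H (act (g * x) (base n)))⁻¹)).trace.re) := by
    intro x
    have p1 := tr_inv_nonneg hX (hH.pos _ (orbit_mem (g * x)))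
    have p2 := tr_inv_nonneg (hH.pos _ (orbit_mem (g * x))) hX
    unfold tq
    rw [← ENNReal.ofReal_add p1 p2, ← ENNReal.ofReal_mul (kap_nonneg s x)]
    congr 1
    rw [mul_smul_comm, mul_smul_comm, trace_smul, trace_smul, Complex.smul_re, Complex.smul_re,
      trace_mul_comm X, mul_add, smul_eq_mul, smul_eq_mul]
  have e4 : ∫⁻ x, ENNReal.ofReal ((X⁻¹ * (kap s x • H (act (g * x) (base n)))).trace.re +
        (X * (kap s x • (H (act (g * x) (base n)))⁻¹)).trace.re) ∂(mu n) =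
      ENNReal.ofReal (∫ x, ((X⁻¹ * (kap s x • H (act (g * x) (base n)))).trace.re +
        (X * (kap s x • (H (act (g * x) (base n)))⁻¹)).trace.re) ∂(mu n)) := by
    refine (ofReal_integral_eq_lintegral_ofReal (i1.add i2) (Eventually.of_forall fun x => ?_)).symm
    have p1 := tr_inv_nonneg hX (hH.pos _ (orbit_mem (g * x)))
    have p2 := tr_inv_nonneg (hH.pos _ (orbit_mem (g * x))) hX
    show 0 ≤ (X⁻¹ * (kap s x • H (act (g * x) (base n)))).trace.re +
        (X * (kap s x • (H (act (g * x) (base n)))⁻¹)).trace.re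
    rw [mul_smul_comm, mul_smul_comm, trace_smul, trace_smul, Complex.smul_re, Complex.smul_re,
      trace_mul_comm X, smul_eq_mul, smul_eq_mul, ← mul_add]
    exact mul_nonneg (kap_nonneg s x) (add_nonneg p1 p2)
  rw [lintegral_congr e3, e4, integral_add i1 i2, e1, e2, trace_mul_comm X]

/-- `Q(X, g) = tr (X⁻¹ PB) + tr (PA X)` -/
theorem JE_eq (hΓ : Lat Γ χ) (hB : Brr ρ T y a b c C s H₀) {η A : ℝ} (hη : 0 < η)
    {H L : Vec n → Mat m} (hH : KK ρ s y a H₀ A H) (hL : Met ρ L) :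
    JE χ s η y a H₀ H L = LI χ (fun g => ENNReal.ofReal
      (((L (act g (base n)))⁻¹ * PB s η y a H₀ H (act g (base n))).trace +
        (PA s η y a H₀ H (act g (base n)) * L (act g (base n))).trace).re) +
      ENNReal.ofReal η * JP χ y a H₀ H := by
  have hbig := hB.big
  obtain ⟨C₁, ha⟩ := KK.adm hB A
  obtain ⟨a1, a2⟩ := ha H hH
  have hs : n + (a + b) < s := by omega
  have hmP : Measurable fun g : SUGroup n => ENNReal.ofReal (th y a (act g (HM.base n))) *
    (tq (L (act g (HM.base n))) (H₀ (act g (HM.base n))) +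
      tq (H₀ (act g (HM.base n))) (L (act g (HM.base n)))) := by
    have c0 : ContinuousOn (fun v => th y a v) (Cone n) :=
      (hB.ht.cont.pow (2 * a)).inv₀ fun v hv => (pow_pos (hB.y_pos hv) _).ne'
    have c1 : Continuous fun g : SUGroup n => th y a (act g (HM.base n)) :=
      c0.comp_continuous continuous_orbit fun g => orbit_mem g
    have c2 := continuous_tq (met_orb hL) (fun g => hL.pos _ (orbit_mem g)) (met_orb hB.met)
    have c3 := continuous_tq (met_orb hB.met) (fun g => hB.met.pos _ (orbit_mem g)) (met_orb hL)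
    exact (ENNReal.continuous_ofReal.comp c1).measurable.mul (c2.add c3).measurable
  have e1 : J0 χ s H L = LI χ fun g => ENNReal.ofReal
      (((L (act g (HM.base n)))⁻¹ * P s H (act g (HM.base n))).trace.re +
        (P s (fun w => (H w)⁻¹) (act g (HM.base n)) * L (act g (HM.base n))).trace.re) := by
    unfold J0
    congr 1
    funext g
    exact inner_tq hs hH.met a1 a2 (hL.pos _ (orbit_mem g)) g
  have e2 : ENNReal.ofReal η * JP χ y a H₀ L = LI χ fun g => ENNReal.ofReal η *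
      (ENNReal.ofReal (th y a (act g (HM.base n))) *
        (tq (L (act g (HM.base n))) (H₀ (act g (HM.base n))) +
          tq (H₀ (act g (HM.base n))) (L (act g (HM.base n))))) := by
    rw [LI_const_mul hΓ _ hmP.aemeasurable]
    rfl
  unfold JE
  rw [mul_add, ← add_assoc, add_right_comm, e1, e2, add_comm (LI χ _) (LI χ _),
    ← LI_add hΓ (hmP.const_mul _).aemeasurable]
  congr 2
  funext g
  obtain ⟨mA, mB, -, -⟩ := hH.ops hB hη.le
  have hv := orbit_mem g
  have pL := hL.pos _ hv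
  have p0 := hB.met.pos _ hv
  have q1 := tr_inv_nonneg pL p0
  have q2 := tr_inv_nonneg p0 pL
  have hθ := (th_pos hB hv).le
  obtain ⟨t, ht⟩ : ∃ t : ℝ, t = th y a (act g (HM.base n)) := ⟨_, rfl⟩
  have hs' : n + (a + b) < s := hs
  have pP : (P s H (act g (HM.base n))).PosDef := P_posDef_N hs a1 hH.met.pos hv
  have pPi : (P s (fun w => (H w)⁻¹) (act g (HM.base n))).PosDef :=
    P_posDef_N hs a2 (fun w hw => (hH.met.pos w hw).inv) hv
  have q3 := tr_inv_nonneg pL pP
  have q4 := HM.trace_mul_nonneg pPi.posSemidef pL.posSemidef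
  have e3 : (((L (act g (HM.base n)))⁻¹ * PB s η y a H₀ H (act g (HM.base n))).trace +
        (PA s η y a H₀ H (act g (HM.base n)) * L (act g (HM.base n))).trace).re =
      η * (t * (((L (act g (HM.base n)))⁻¹ * H₀ (act g (HM.base n))).trace.re +
        ((H₀ (act g (HM.base n)))⁻¹ * L (act g (HM.base n))).trace.re)) +
      (((L (act g (HM.base n)))⁻¹ * P s H (act g (HM.base n))).trace.re +
        (P s (fun w => (H w)⁻¹) (act g (HM.base n)) * L (act g (HM.base n))).trace.re) := by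
    unfold PA PB
    rw [← ht, Matrix.mul_add, Matrix.add_mul, mul_smul_comm, smul_mul_assoc, trace_add, trace_add,
      trace_smul, trace_smul]
    simp only [Complex.add_re, smul_eq_mul, Complex.re_ofReal_mul]
    ring
  rw [← ht] at hθ
  rw [e3, ← ht]
  unfold tq
  rw [← ENNReal.ofReal_add q1 q2, ← ENNReal.ofReal_mul hθ, ← ENNReal.ofReal_mul hη.le,
    ← ENNReal.ofReal_add (mul_nonneg hη.le (mul_nonneg hθ (add_nonneg q1 q2)))
      (add_nonneg q3 q4)]

/-- continuity of `Q` -/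
theorem continuous_Q (hB : Brr ρ T y a b c C s H₀) {η A : ℝ} (hη : 0 < η)
    {H L : Vec n → Mat m} (hH : KK ρ s y a H₀ A H) (hL : Met ρ L) :
    Continuous fun g : SUGroup n =>
      (((L (act g (base n)))⁻¹ * PB s η y a H₀ H (act g (base n))).trace +
        (PA s η y a H₀ H (act g (base n)) * L (act g (base n))).trace).re := by
  obtain ⟨mA, mB, -, -⟩ := hH.ops hB hη.le
  have c1 : Continuous fun g : SUGroup n => (L (act g (base n)))⁻¹ := met_orb (met_inv hL)
  have c2 := met_orb mA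
  have c3 := met_orb mB
  have c4 := met_orb hL
  exact Complex.continuous_re.comp ((c1.mul c3).matrix_trace.add (c2.mul c4).matrix_trace)

/-- `JE(H₀, H₀) ≤ (2m(1 + C/s) + 4m) I(1) < ∞`, for all `η ≤ 1`. -/
theorem JE_self (hΓ : Lat Γ χ) (hB : Brr ρ T y a b c C s H₀) : ∃ K : ℝ, ∀ η : ℝ, 0 ≤ η →
    η ≤ 1 → JE χ s η y a H₀ H₀ H₀ ≤ ENNReal.ofReal K := by
  have hbig := hB.big
  obtain ⟨C₁, -, a1, a2⟩ := adm_of_harn hB.met hB.harn
  obtain ⟨M, hM⟩ : ∃ M : ℝ≥0∞, M = LI χ 1 := ⟨_, rfl⟩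
  have hM' : M ≠ ⊤ := by
    rw [hM]
    exact hΓ.LI_one.ne
  have hconst : ∀ K : ℝ≥0∞, LI χ (fun _ : SUGroup n => K) = K * M := by
    intro K
    have h1 := LI_const_mul hΓ K (f := 1) measurable_one.aemeasurable
    simp only [Pi.one_apply, mul_one] at h1
    rw [h1, hM]
  have h0 : J0 χ s H₀ H₀ ≤ ENNReal.ofReal ((1 + C / s) * m + (1 + C / s) * m) * M := by
    rw [← hconst]
    unfold J0
    refine LI_mono fun g => ?_
    have hv := orbit_mem g
    have p0 := hB.met.pos _ hv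
    have hu := pd_unit p0
    rw [inner_tq (by omega) hB.met a1 a2 p0 g]
    refine ENNReal.ofReal_le_ofReal (add_le_add ?_ ?_)
    · have h1 := HM.trace_mul_le (hB.base _ hv) p0.inv.posSemidef
      rw [trace_mul_comm, smul_mul_assoc, mul_nonsing_inv _ hu, trace_smul, trace_one,
        smul_eq_mul, Complex.re_ofReal_mul, Fintype.card_fin, Complex.natCast_re] at h1
      exact h1
    · have h1 := HM.trace_mul_le (hB.base' _ hv) p0.posSemidef
      rw [smul_mul_assoc, nonsing_inv_mul _ hu, trace_smul, trace_one,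
        smul_eq_mul, Complex.re_ofReal_mul, Fintype.card_fin, Complex.natCast_re] at h1
      exact h1
  have h1 : JP χ y a H₀ H₀ ≤ ENNReal.ofReal (m + m) * M := by
    rw [← hconst]
    unfold JP
    refine LI_mono fun g => ?_
    have hv := orbit_mem g
    have hu := pd_unit (hB.met.pos _ hv)
    have h2 : ENNReal.ofReal (th y a (act g (HM.base n))) ≤ 1 := by
      rw [← ENNReal.ofReal_one]
      exact ENNReal.ofReal_le_ofReal (th_le_one hB hv)
    have h3 : tq (H₀ (act g (HM.base n))) (H₀ (act g (HM.base n))) = ENNReal.ofReal m := by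
      unfold tq
      rw [nonsing_inv_mul _ hu, trace_one, Fintype.card_fin, Complex.natCast_re]
    rw [h3, ← ENNReal.ofReal_add (Nat.cast_nonneg _) (Nat.cast_nonneg _)]
    calc _ ≤ 1 * ENNReal.ofReal ((m : ℝ) + m) := mul_le_mul_left h2 _
      _ = _ := one_mul _
  obtain ⟨K', hK'⟩ : ∃ K' : ℝ≥0∞, K' = ENNReal.ofReal ((1 + C / s) * m + (1 + C / s) * m) * M +
    (ENNReal.ofReal (m + m) * M + ENNReal.ofReal (m + m) * M) := ⟨_, rfl⟩
  have hK'' : K' ≠ ⊤ := by
    rw [hK']
    have q1 := ENNReal.mul_ne_top (ENNReal.ofReal_ne_top (r := ((1 + C / s) * m + (1 + C / s) * m)))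
      hM'
    have q2 := ENNReal.mul_ne_top (ENNReal.ofReal_ne_top (r := ((m : ℝ) + m))) hM'
    exact ENNReal.add_ne_top.2 ⟨q1, ENNReal.add_ne_top.2 ⟨q2, q2⟩⟩
  refine ⟨K'.toReal, fun η hη hη1 => ?_⟩
  rw [ENNReal.ofReal_toReal hK'', hK']
  unfold JE
  refine add_le_add h0 ?_
  have h2 : ENNReal.ofReal η ≤ 1 := by
    rw [← ENNReal.ofReal_one]
    exact ENNReal.ofReal_le_ofReal hη1
  calc _ ≤ 1 * (JP χ y a H₀ H₀ + JP χ y a H₀ H₀) := mul_le_mul_left h2 _
    _ = JP χ y a H₀ H₀ + JP χ y a H₀ H₀ := one_mul _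
    _ ≤ _ := add_le_add h1 h1

/-- The functional in terms of the operators, for a fixed `H` in the class: the inner integral is
`tr (L⁻¹ P_s H) + tr (P_s(H⁻¹) L)`; so `JE` is minimal exactly for the solution `L` (`bar_min`; `χ > 0`, continuity). -/
theorem JE_min (hΓ : Lat Γ χ) (hB : Brr ρ T y a b c C s H₀) {η A : ℝ} (hη : 0 < η)
    {H L L' : Vec n → Mat m} (hH : KK ρ s y a H₀ A H) (hL : KK ρ s y a H₀ A L)
    (hL' : KK ρ s y a H₀ A L')
    (he : ∀ v ∈ Cone n, L v * PA s η y a H₀ H v * L v = PB s η y a H₀ H v) :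
    JE χ s η y a H₀ H L ≤ JE χ s η y a H₀ H L' ∧
      (JE χ s η y a H₀ H L' ≤ JE χ s η y a H₀ H L → JE χ s η y a H₀ H L < ⊤ →
        ∀ v ∈ Cone n, L' v = L v) := by
  obtain ⟨mA, mB, -, -⟩ := hH.ops hB hη.le
  have hmin := fun g : SUGroup n => bar_min (mA.pos _ (orbit_mem g)) (hL.met.pos _ (orbit_mem g))
    (hL'.met.pos _ (orbit_mem g)) (he _ (orbit_mem g))
  rw [JE_eq hΓ hB hη hH hL.met, JE_eq hΓ hB hη hH hL'.met]
  have cQ := continuous_Q hB hη hH hL.met
  have cQ' := continuous_Q hB hη hH hL'.met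
  refine ⟨add_le_add (LI_mono fun g => ENNReal.ofReal_le_ofReal (hmin g).1) le_rfl,
    fun h1 h2 => ?_⟩
  have h3 : ENNReal.ofReal η * JP χ y a H₀ H ≠ ⊤ := (ENNReal.add_lt_top.1 h2).2.ne
  have h4 := (ENNReal.add_lt_top.1 h2).1.ne
  have h5 := (ENNReal.add_le_add_iff_right h3).1 h1
  unfold LI at h4 h5
  have h6 := ae_eq_of_ae_le_of_lintegral_le (Eventually.of_forall fun g =>
    mul_le_mul_right (ENNReal.ofReal_le_ofReal (hmin g).1) _) h4
    (hΓ.measurable.mul (ENNReal.continuous_ofReal.comp cQ').measurable).aemeasurable h5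
  have h7 : (fun g : SUGroup n =>
      (((L (act g (HM.base n)))⁻¹ * PB s η y a H₀ H (act g (HM.base n))).trace +
        (PA s η y a H₀ H (act g (HM.base n)) * L (act g (HM.base n))).trace).re) =ᵐ[mu n]
      fun g => (((L' (act g (HM.base n)))⁻¹ * PB s η y a H₀ H (act g (HM.base n))).trace +
        (PA s η y a H₀ H (act g (HM.base n)) * L' (act g (HM.base n))).trace).re := by
    filter_upwards [h6] with g hg
    have hχ : ENNReal.ofReal (χ g) ≠ 0 := by
      rw [ne_eq, ENNReal.ofReal_eq_zero, not_le]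
      exact hΓ.pos g
    have h8 := (ENNReal.mul_right_inj hχ ENNReal.ofReal_ne_top).1 hg
    have pL := hL.met.pos _ (orbit_mem g)
    have pL' := hL'.met.pos _ (orbit_mem g)
    have pA := mA.pos _ (orbit_mem g)
    have pB := mB.pos _ (orbit_mem g)
    have q1 := tr_inv_nonneg pL pB
    have q2 := HM.trace_mul_nonneg pA.posSemidef pL.posSemidef
    have q3 := tr_inv_nonneg pL' pB
    have q4 := HM.trace_mul_nonneg pA.posSemidef pL'.posSemidef
    refine (ENNReal.ofReal_eq_ofReal_iff ?_ ?_).1 h8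
    · rw [Complex.add_re]
      exact add_nonneg q1 q2
    · rw [Complex.add_re]
      exact add_nonneg q3 q4
  have h8 := Measure.eq_of_ae_eq h7 cQ cQ'
  have h9 : ∀ g : SUGroup n, L' (act g (HM.base n)) = L (act g (HM.base n)) := fun g =>
    (hmin g).2 (le_of_eq (congrFun h8 g).symm)
  intro v hv
  obtain ⟨g, k, hk, rfl⟩ := exists_act_eq hv
  rw [hL.met.hom k hk _ (orbit_mem g), hL'.met.hom k hk _ (orbit_mem g), h9]

/-! ### Compactness -/

private theorem n2_continuousOn_sec : ContinuousOn (sec n) (Cone n) := by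
  rw [(isClosedEmbedding_toMatrix n).isInducing.continuousOn_iff]
  exact (contDiffOn_sec n).continuousOn

/-- Compactness of the class for pointwise convergence on the cone (as in `LevB.exists_lim`: the Harnack inequality gives
equicontinuity, the barriers bounds; diagonal sequence). -/
theorem KK.compact (hB : Brr ρ T y a b c C s H₀) {A : ℝ} (H : ℕ → Vec n → Mat m)
    (hH : ∀ k, KK ρ s y a H₀ A (H k)) : ∃ (φ : ℕ → ℕ) (H' : Vec n → Mat m), StrictMono φ ∧
      KK ρ s y a H₀ A H' ∧ ∀ v ∈ Cone n, Tendsto (fun k => H (φ k) v) atTop (𝓝 (H' v)) := by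
  have hbound : ∀ v ∈ Cone n, ∀ k, ‖H k v‖ ≤ ‖(A : ℂ) • MU y a H₀ v‖ := fun v hv k =>
    pn_norm_mono (psd_nn ((hH k).met.pos v hv)) ((hH k).hi v hv)
  obtain ⟨φ, f, hφ, hf, hlim⟩ := exists_subseq (isOpen_cone n) (F := H)
    (fun v hv => ⟨_, hbound v hv⟩)
    (fun v hv ε hε => by
      obtain ⟨w, hw⟩ : ∃ w : Vec n → ℝ, w = fun u => wt ((sec n v)⁻¹ * sec n u) ^ (2 * s) :=
        ⟨_, rfl⟩
      obtain ⟨B, hBd⟩ : ∃ B : ℝ, B = ‖(A : ℂ) • MU y a H₀ v‖ := ⟨_, rfl⟩
      have hB0 : 0 ≤ B := by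
        rw [hBd]
        exact norm_nonneg _
      have hwc : ContinuousAt w v := by
        have h1 : ContinuousAt (sec n) v :=
          n2_continuousOn_sec.continuousAt ((isOpen_cone n).mem_nhds hv)
        rw [hw]
        have h2 : Continuous fun g : SUGroup n => wt ((sec n v)⁻¹ * g) ^ (2 * s) :=
          (continuous_wt.comp (continuous_const_mul _)).pow _
        exact ContinuousAt.comp (f := sec n) (x := v) h2.continuousAt h1
      have hw1 : w v = 1 := by
        rw [hw]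
        show wt ((sec n v)⁻¹ * sec n v) ^ (2 * s) = 1
        rw [inv_mul_cancel, wt_one, one_pow]
      have hwge : ∀ u, 1 ≤ w u := fun u => by
        rw [hw]
        exact one_le_pow₀ (one_le_wt _)
      have hc : ContinuousAt (fun u => 3 * ((w u - 1) * (B + w u * B))) v :=
        continuousAt_const.mul ((hwc.sub continuousAt_const).mul
          (continuousAt_const.add (hwc.mul continuousAt_const)))
      have h0 : ∀ᶠ u in 𝓝 v, 3 * ((w u - 1) * (B + w u * B)) < ε := by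
        refine hc.eventually_lt continuousAt_const ?_
        rw [hw1, sub_self, zero_mul, mul_zero]
        exact hε
      have h5 : ∀ᶠ u in 𝓝 v, u ∈ Cone n := (isOpen_cone n).mem_nhds hv
      obtain ⟨δ, hδ, h6⟩ := Metric.eventually_nhds_iff.1 (h0.and h5)
      refine ⟨δ, hδ, fun u hu k => ?_⟩
      obtain ⟨h7, hu'⟩ := h6 (y := u) (by rw [dist_eq_norm]; exact hu)
      have e1 := eq_sec (hH k).met.hom hv
      have e2 := eq_sec (hH k).met.hom hu'
      have h1 := harn_real (hH k).harn (sec n v) ((sec n v)⁻¹ * sec n u)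
      have h2 := harn_real' (hH k).harn (sec n v) ((sec n v)⁻¹ * sec n u)
      rw [mul_inv_cancel_left, ← e1, ← e2] at h1 h2
      have e : (wt ((sec n v)⁻¹ * sec n u) ^ (2 * s) : ℝ) = w u := by rw [hw]
      rw [e] at h1 h2
      have p1 := ((hH k).met.pos v hv).posSemidef
      have p2 := ((hH k).met.pos u hu').posSemidef
      have h3 := DD.norm_sub_le_of_le p1 p2 (hwge u) (by rwa [cr_smul]) (by rwa [cr_smul])
      have h4 := hbound v hv k
      have h8 := pn_norm_mono (psd_nn ((hH k).met.pos u hu')) h1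
      rw [← hBd] at h4
      rw [norm_smul, Real.norm_eq_abs, abs_of_nonneg (by linarith [hwge u])] at h8
      refine (h3.trans ?_).trans h7.le
      have h9 : 0 ≤ w u - 1 := by linarith [hwge u]
      have h10 : w u * ‖H k v‖ ≤ w u * B := mul_le_mul_of_nonneg_left h4 (by linarith)
      have h11 := mul_le_mul_of_nonneg_left (add_le_add h4 (h8.trans h10)) h9
      linarith)
  have hlim' : ∀ v ∈ Cone n, Tendsto (fun k => H (φ k) v) atTop (𝓝 (f v)) := fun v hv =>
    hlim.tendsto_at hv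
  have hlo : ∀ v ∈ Cone n, MD y a H₀ v ≤ (A : ℂ) • f v := fun v hv =>
    ge_of_tendsto' ((hlim' v hv).const_smul (A : ℂ)) fun k => (hH _).lo v hv
  have hhi : ∀ v ∈ Cone n, f v ≤ (A : ℂ) • MU y a H₀ v := fun v hv =>
    le_of_tendsto' (hlim' v hv) fun k => (hH _).hi v hv
  refine ⟨φ, f, hφ, ⟨⟨fun c hc v hv => ?_, hf, fun v hv => ?_, fun γ v hv => ?_⟩, fun g x => ?_,
    hlo, hhi⟩, hlim'⟩
  · have h1 := hlim' _ (smul_mem_cone hc hv)
    have h2 : (fun k => H (φ k) (c • v)) = fun k => H (φ k) v := by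
      funext k
      exact (hH _).met.hom c hc v hv
    rw [h2] at h1
    exact tendsto_nhds_unique h1 (hlim' v hv)
  · rcases Nat.eq_zero_or_pos m with hm | hm
    · subst hm
      rw [Subsingleton.elim (f v) (H₀ v)]
      exact hB.met.pos v hv
    · have hA := (hH 0).pos hB hm
      have h1 := cs_mono (inv_pos.2 hA).le (hlo v hv)
      rw [cs_smul, inv_mul_cancel₀ hA.ne', Complex.ofReal_one, one_smul] at h1
      have h2 := cs_posDef (hB.MD_met.pos v hv) (inv_pos.2 hA)
      have h3 := h2.add_posSemidef (Matrix.le_iff.1 h1)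
      rwa [add_sub_cancel] at h3
  · have h1 := hlim' _ (act_mem (γ : SUGroup n) hv)
    have h2 : (fun k => H (φ k) (act (γ : SUGroup n) v)) = fun k => ρ γ * H (φ k) v * (ρ γ)ᴴ := by
      funext k
      exact (hH _).met.equi γ v hv
    rw [h2] at h1
    have h3 : Tendsto (fun k => ρ γ * H (φ k) v * (ρ γ)ᴴ) atTop (𝓝 (ρ γ * f v * (ρ γ)ᴴ)) :=
      ((hlim' v hv).const_mul _).mul_const _
    exact tendsto_nhds_unique h1 h3
  · exact le_of_tendsto_of_tendsto' (hlim' _ (orbit_mem _)) ((hlim' _ (orbit_mem _)).const_smul _)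
      fun k => (hH _).harn g x

/-! ### Lower semicontinuity -/

theorem J0_prod (hΓ : Lat Γ χ) {H L : Vec n → Mat m} (hH : Met ρ H) (hL : Met ρ L) :
    J0 χ s H L = ∫⁻ p : SUGroup n × SUGroup n, ENNReal.ofReal (χ p.1) *
      (ENNReal.ofReal (kap s p.2) * (tq (L (act p.1 (base n))) (H (act (p.1 * p.2) (base n))) +
      tq (H (act (p.1 * p.2) (base n))) (L (act p.1 (base n))))) ∂((mu n).prod (mu n)) := by
  have hm : Measurable fun p : SUGroup n × SUGroup n => ENNReal.ofReal (χ p.1) *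
      (ENNReal.ofReal (kap s p.2) * (tq (L (act p.1 (base n))) (H (act (p.1 * p.2) (base n))) +
      tq (H (act (p.1 * p.2) (base n))) (L (act p.1 (base n))))) :=
    (hΓ.measurable.comp measurable_fst).mul (((measurable_kapE s).comp measurable_snd).mul
      (continuous_psi hH hL).measurable)
  rw [lintegral_prod _ hm.aemeasurable]
  unfold J0 LI
  exact lintegral_congr fun g => (lintegral_const_mul' _ _ ENNReal.ofReal_ne_top).symm

/-- Fatou. -/
theorem J0_liminf (hΓ : Lat Γ χ) {H L : ℕ → Vec n → Mat m} {H' L' : Vec n → Mat m}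
    (hH : ∀ k, Met ρ (H k)) (hL : ∀ k, Met ρ (L k)) (hH' : Met ρ H') (hL' : Met ρ L')
    (tH : ∀ v ∈ Cone n, Tendsto (fun k => H k v) atTop (𝓝 (H' v)))
    (tL : ∀ v ∈ Cone n, Tendsto (fun k => L k v) atTop (𝓝 (L' v))) :
    J0 χ s H' L' ≤ liminf (fun k => J0 χ s (H k) (L k)) atTop := by
  have e1 : (fun k => J0 χ s (H k) (L k)) = fun k => ∫⁻ p : SUGroup n × SUGroup n,
      ENNReal.ofReal (χ p.1) * (ENNReal.ofReal (kap s p.2) *
      (tq (L k (act p.1 (base n))) (H k (act (p.1 * p.2) (base n))) +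
      tq (H k (act (p.1 * p.2) (base n))) (L k (act p.1 (base n))))) ∂((mu n).prod (mu n)) := by
    funext k
    exact J0_prod hΓ (hH k) (hL k)
  rw [e1, J0_prod hΓ hH' hL']
  have hm : ∀ k, Measurable fun p : SUGroup n × SUGroup n => ENNReal.ofReal (χ p.1) *
      (ENNReal.ofReal (kap s p.2) *
      (tq (L k (act p.1 (base n))) (H k (act (p.1 * p.2) (base n))) +
      tq (H k (act (p.1 * p.2) (base n))) (L k (act p.1 (base n))))) := fun k =>
    (hΓ.measurable.comp measurable_fst).mul (((measurable_kapE s).comp measurable_snd).mul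
      (continuous_psi (hH k) (hL k)).measurable)
  refine le_trans (lintegral_mono fun p => ?_) (lintegral_liminf_le hm)
  refine le_of_eq (Tendsto.liminf_eq ?_).symm
  have h1 := tL _ (orbit_mem p.1)
  have h2 := tH _ (orbit_mem (p.1 * p.2))
  have h3 := (tendsto_tq h1 (hL'.pos _ (orbit_mem p.1)) h2).add
    (tendsto_tq h2 (hH'.pos _ (orbit_mem (p.1 * p.2))) h1)
  exact ENNReal.Tendsto.const_mul (ENNReal.Tendsto.const_mul h3 (Or.inr ENNReal.ofReal_ne_top))
    (Or.inr ENNReal.ofReal_ne_top)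

theorem JP_liminf (hΓ : Lat Γ χ) (hB : Brr ρ T y a b c C s H₀) {H : ℕ → Vec n → Mat m}
    {H' : Vec n → Mat m} (hH : ∀ k, Met ρ (H k)) (hH' : Met ρ H')
    (tH : ∀ v ∈ Cone n, Tendsto (fun k => H k v) atTop (𝓝 (H' v))) :
    JP χ y a H₀ H' ≤ liminf (fun k => JP χ y a H₀ (H k)) atTop := by
  unfold JP LI
  have hm : ∀ k, Measurable fun g : SUGroup n => ENNReal.ofReal (χ g) *
      (ENNReal.ofReal (th y a (act g (HM.base n))) *
      (tq (H k (act g (HM.base n))) (H₀ (act g (HM.base n))) +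
        tq (H₀ (act g (HM.base n))) (H k (act g (HM.base n))))) := by
    intro k
    have c0 : ContinuousOn (fun v => th y a v) (Cone n) :=
      (hB.ht.cont.pow (2 * a)).inv₀ fun v hv => (pow_pos (hB.y_pos hv) _).ne'
    have c1 : Continuous fun g : SUGroup n => th y a (act g (HM.base n)) :=
      c0.comp_continuous continuous_orbit fun g => orbit_mem g
    have c2 := continuous_tq (met_orb (hH k)) (fun g => (hH k).pos _ (orbit_mem g))
      (met_orb hB.met)
    have c3 := continuous_tq (met_orb hB.met) (fun g => hB.met.pos _ (orbit_mem g))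
      (met_orb (hH k))
    exact hΓ.measurable.mul
      ((ENNReal.continuous_ofReal.comp c1).measurable.mul (c2.add c3).measurable)
  refine le_trans (lintegral_mono fun g => ?_) (lintegral_liminf_le hm)
  refine le_of_eq (Tendsto.liminf_eq ?_).symm
  have h2 := tH _ (orbit_mem g)
  have h1 : Tendsto (fun _ : ℕ => H₀ (act g (HM.base n))) atTop (𝓝 (H₀ (act g (HM.base n)))) :=
    tendsto_const_nhds
  have h3 := (tendsto_tq h2 (hH'.pos _ (orbit_mem g)) h1).add
    (tendsto_tq h1 (hB.met.pos _ (orbit_mem g)) h2)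
  exact ENNReal.Tendsto.const_mul (ENNReal.Tendsto.const_mul h3 (Or.inr ENNReal.ofReal_ne_top))
    (Or.inr ENNReal.ofReal_ne_top)

theorem enn_liminf_add (u v : ℕ → ℝ≥0∞) :
    liminf u atTop + liminf v atTop ≤ liminf (fun k => u k + v k) atTop := by
  rw [liminf_eq_iSup_iInf_of_nat, liminf_eq_iSup_iInf_of_nat, liminf_eq_iSup_iInf_of_nat,
    ENNReal.iSup_add_iSup_of_monotone]
  · exact iSup_mono fun k => le_iInf₂ fun i hi => add_le_add (iInf₂_le i hi) (iInf₂_le i hi)
  · exact fun i j hij => le_iInf₂ fun k hk => iInf₂_le k (hij.trans hk)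
  · exact fun i j hij => le_iInf₂ fun k hk => iInf₂_le k (hij.trans hk)

theorem JE_liminf (hΓ : Lat Γ χ) (hB : Brr ρ T y a b c C s H₀) {η : ℝ}
    {H L : ℕ → Vec n → Mat m} {H' L' : Vec n → Mat m}
    (hH : ∀ k, Met ρ (H k)) (hL : ∀ k, Met ρ (L k)) (hH' : Met ρ H') (hL' : Met ρ L')
    (tH : ∀ v ∈ Cone n, Tendsto (fun k => H k v) atTop (𝓝 (H' v)))
    (tL : ∀ v ∈ Cone n, Tendsto (fun k => L k v) atTop (𝓝 (L' v))) :
    JE χ s η y a H₀ H' L' ≤ liminf (fun k => JE χ s η y a H₀ (H k) (L k)) atTop := by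
  have h1 := J0_liminf (s := s) hΓ hH hL hH' hL' tH tL
  have h2 := JP_liminf hΓ hB hH hH' tH
  have h3 := JP_liminf hΓ hB hL hL' tL
  have h4 : JP χ y a H₀ H' + JP χ y a H₀ L' ≤
      liminf (fun k => JP χ y a H₀ (H k) + JP χ y a H₀ (L k)) atTop :=
    (add_le_add h2 h3).trans (enn_liminf_add _ _)
  have h5 : ENNReal.ofReal η * (JP χ y a H₀ H' + JP χ y a H₀ L') ≤
      liminf (fun k => ENNReal.ofReal η * (JP χ y a H₀ (H k) + JP χ y a H₀ (L k))) atTop := by
    rw [ENNReal.liminf_const_mul_of_ne_top ENNReal.ofReal_ne_top]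
    exact mul_le_mul_right h4 _
  unfold JE
  exact (add_le_add h1 h5).trans (enn_liminf_add _ _)

/-- A6: the minimiser of `JE` on `KK A × KK A` (`A = A₀(η)`) is a solution. -/
theorem exists_PE (hΓ : Lat Γ χ) (hB : Brr ρ T y a b c C s H₀) {η : ℝ} (hη : 0 < η)
    (hη1 : η ≤ 1) : ∃ H L : Vec n → Mat m, PE ρ χ s η y a H₀ H L := by
  obtain ⟨A, hA1, hT⟩ := exists_T hB hη hη1
  obtain ⟨K, hK⟩ := JE_self hΓ hB
  have h00 := (hB.self).mono hA1 hB
  -- the infimum
  obtain ⟨S, hS⟩ : ∃ S : Set ℝ≥0∞, S = {r | ∃ H L : Vec n → Mat m, KK ρ s y a H₀ A H ∧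
    KK ρ s y a H₀ A L ∧ r = JE χ s η y a H₀ H L} := ⟨_, rfl⟩
  have hS0 : S.Nonempty := ⟨_, by rw [hS]; exact ⟨H₀, H₀, h00, h00, rfl⟩⟩
  obtain ⟨u, -, hu, huS⟩ := exists_seq_tendsto_sInf hS0 (OrderBot.bddBelow S)
  have hlow : ∀ H L : Vec n → Mat m, KK ρ s y a H₀ A H → KK ρ s y a H₀ A L →
      sInf S ≤ JE χ s η y a H₀ H L := fun H L h1 h2 => sInf_le (by rw [hS]; exact ⟨H, L, h1, h2, rfl⟩)
  have hseq : ∀ k, ∃ H L : Vec n → Mat m, KK ρ s y a H₀ A H ∧ KK ρ s y a H₀ A L ∧
      u k = JE χ s η y a H₀ H L := fun k => by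
    have h1 := huS k
    rw [hS] at h1
    exact h1
  choose H L hH hL huk using hseq
  obtain ⟨φ, H', hφ, hH', tH⟩ := KK.compact hB H hH
  obtain ⟨ψ, L', hψ, hL', tL⟩ := KK.compact hB (fun k => L (φ k)) fun k => hL (φ k)
  have tH' : ∀ v ∈ Cone n, Tendsto (fun k => H (φ (ψ k)) v) atTop (𝓝 (H' v)) := fun v hv =>
    (tH v hv).comp hψ.tendsto_atTop
  have h1 := JE_liminf (η := η) hΓ hB (fun k => (hH (φ (ψ k))).met) (fun k => (hL (φ (ψ k))).met)
    hH'.met hL'.met tH' tL
  have h2 : (fun k => JE χ s η y a H₀ (H (φ (ψ k))) (L (φ (ψ k)))) = fun k => u (φ (ψ k)) := by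
    funext k
    exact (huk _).symm
  have h3 : Tendsto (fun k => u (φ (ψ k))) atTop (𝓝 (sInf S)) :=
    hu.comp (hφ.tendsto_atTop.comp hψ.tendsto_atTop)
  rw [h2, h3.liminf_eq] at h1
  -- `(H', L')` is a minimiser
  have hle : JE χ s η y a H₀ H' L' ≤ JE χ s η y a H₀ H₀ H₀ := h1.trans (hlow _ _ h00 h00)
  have hfin : JE χ s η y a H₀ H' L' < ⊤ :=
    (hle.trans (hK η hη.le hη1)).trans_lt ENNReal.ofReal_lt_top
  have hsym : ∀ {H L : Vec n → Mat m}, Met ρ H → Met ρ L →
      JE χ s η y a H₀ H L = JE χ s η y a H₀ L H := by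
    intro H L hH hL
    unfold JE
    rw [J0_symm hΓ hH hL, add_comm (JP χ y a H₀ H)]
  have key : ∀ {H L : Vec n → Mat m}, KK ρ s y a H₀ A H → KK ρ s y a H₀ A L →
      JE χ s η y a H₀ H L ≤ sInf S → JE χ s η y a H₀ H L < ⊤ →
      ∀ v ∈ Cone n, L v * PA s η y a H₀ H v * L v = PB s η y a H₀ H v := by
    intro H L hH hL hle hlt v hv
    obtain ⟨L₁, hL₁, he⟩ := hT A le_rfl H hH
    obtain ⟨m1, m2⟩ := JE_min hΓ hB hη hH hL₁ hL he
    have h4 := m2 (hle.trans (hlow _ _ hH hL₁)) (m1.trans_lt hlt)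
    rw [h4 v hv]
    exact he v hv
  refine ⟨H', L', ⟨A, hH', hL'⟩, key hH' hL' h1 hfin, ?_, hle⟩
  refine key hL' hH' ?_ ?_
  · rw [hsym hL'.met hH'.met]
    exact h1
  · rw [hsym hL'.met hH'.met]
    exact hfin

end Pool.Agent.Lib.MP_5d4057_al.NU
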