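import Pool.Agent.Lib.MP_5d4057_al.NU.LevN2
import Pool.Agent.Lib.MP_5d4057_al.NU.LatA2

/-! Level `s`: bounds independent of the perturbation (blueprint h37_nu, A7, A8). -/

namespace Pool.Agent.Lib.MP_5d4057_al.NU

open Matrix MeasureTheory Filter Topology Pool.Agent.Lib.MP_5d4057_al
  Pool.Agent.Lib.MP_5d4057_al.Hyb Pool.Agent.Lib.MP_5d4057_al.HM

open scoped ComplexOrder MatrixOrder Matrix.Norms.L2Operator ENNReal

variable {n m : ℕ}

variable {Γ : Subgroup (SUGroup n)} {χ : SUGroup n → ℝ}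

variable {ρ : Γ →* Mat m} {T : ℝ} {y : Vec n → ℝ} {a b : ℕ} {c C : ℝ} {s : ℕ}
  {H₀ : Vec n → Mat m}

/-! ### Traces and the order -/

private theorem t_nonneg {A B : Mat m} (hA : A.PosDef) (hB : B.PosDef) :
    0 ≤ (A⁻¹ * B).trace.re := trace_mul_nonneg hA.inv.posSemidef hB.posSemidef

private theorem t_re_smul (r : ℝ) (A : Mat m) : (r • A).trace.re = r * A.trace.re := by
  rw [trace_smul, Complex.real_smul, Complex.re_ofReal_mul]

private theorem t_inv_mul {A : Mat m} (hA : A.PosDef) : A⁻¹ * A = 1 :=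
  nonsing_inv_mul _ ((isUnit_iff_isUnit_det _).1 hA.isUnit)

private theorem t_mul_inv {A : Mat m} (hA : A.PosDef) : A * A⁻¹ = 1 :=
  mul_nonsing_inv _ ((isUnit_iff_isUnit_det _).1 hA.isUnit)

private theorem t_one_re : ((1 : Mat m).trace).re = m := by
  rw [trace_one, Fintype.card_fin, Complex.natCast_re]

/-- `B ≤ r A` implies `tr (A⁻¹ B) ≤ r m` -/
private theorem t_le {A B : Mat m} {r : ℝ} (hA : A.PosDef) (h : B ≤ r • A) :
    (A⁻¹ * B).trace.re ≤ r * m := by
  have h1 := trace_mul_le h hA.inv.posSemidef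
  rw [smul_mul_assoc, t_mul_inv hA, t_re_smul, t_one_re, trace_mul_comm] at h1
  exact h1

/-- `r A ≤ B` implies `r m ≤ tr (A⁻¹ B)` -/
private theorem t_ge {A B : Mat m} {r : ℝ} (hA : A.PosDef) (h : r • A ≤ B) :
    r * m ≤ (A⁻¹ * B).trace.re := by
  have h1 := trace_mul_le h hA.inv.posSemidef
  rw [smul_mul_assoc, t_mul_inv hA, t_re_smul, t_one_re, trace_mul_comm B] at h1
  exact h1

/-- `tr (A⁻¹ B) ≤ r` implies `B ≤ r A` -/
private theorem t_le_of {A B : Mat m} {r : ℝ} (hA : A.PosDef) (hB : B.PosDef)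
    (h : (A⁻¹ * B).trace.re ≤ r) : B ≤ r • A := by
  obtain ⟨P, d, hP, hd, rfl, rfl⟩ := BarAux.simdiag hA hB
  have hPc : IsUnit Pᴴ := BarAux.unit_conj hP
  have e1 : (P * Pᴴ)⁻¹ * (P * diagonal (fun i => (d i : ℂ)) * Pᴴ) =
      (Pᴴ)⁻¹ * diagonal (fun i => (d i : ℂ)) * Pᴴ := by
    rw [Matrix.mul_inv_rev]
    calc (Pᴴ)⁻¹ * P⁻¹ * (P * diagonal (fun i => (d i : ℂ)) * Pᴴ)
        = (Pᴴ)⁻¹ * (P⁻¹ * P) * diagonal (fun i => (d i : ℂ)) * Pᴴ := by
          simp only [Matrix.mul_assoc]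
      _ = _ := by rw [BarAux.inv_mul_unit hP, Matrix.mul_one]
  have e2 : ((P * Pᴴ)⁻¹ * (P * diagonal (fun i => (d i : ℂ)) * Pᴴ)).trace.re = ∑ i, d i := by
    rw [e1, trace_mul_comm, ← Matrix.mul_assoc, BarAux.mul_inv_unit hPc, Matrix.one_mul,
      trace_diagonal, Complex.re_sum]
    simp
  rw [e2] at h
  rw [BarAux.diag_le_iff hP]
  intro i
  exact (Finset.single_le_sum (f := d) (fun j _ => (hd j).le) (Finset.mem_univ i)).trans h

private theorem t_pos_trace (hm : 0 < m) {A : Mat m} (hA : A.PosDef) : 0 < A.trace.re := by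
  have : Nonempty (Fin m) := ⟨⟨0, hm⟩⟩
  exact (Complex.lt_def.1 hA.trace_pos).1

private theorem t_trace_mono {A B : Mat m} (h : A ≤ B) : A.trace.re ≤ B.trace.re := by
  have h1 := trace_mul_le h (PosSemidef.one (n := Fin m) (R := ℂ))
  rwa [mul_one, mul_one] at h1

private theorem t_le_one {A : Mat m} (hA : A.PosSemidef) : A ≤ A.trace.re • (1 : Mat m) := by
  have h := le_trace_smul_one hA
  rwa [cr_smul] at h

private theorem t_nn {A : Mat m} (hA : A.PosDef) : 0 ≤ A :=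
  Matrix.nonneg_iff_posSemidef.2 hA.posSemidef

/-- inversion of an inequality -/
private theorem t_flip {A B : Mat m} {r : ℝ} (hr : 0 < r) (hA : A.PosDef) (hB : B.PosDef)
    (h : A ≤ r • B) : r⁻¹ • B⁻¹ ≤ A⁻¹ := by
  have h1 := inv_le_inv_of_le hA h
  rwa [rs_inv hB hr] at h1

private theorem t_move {A B : Mat m} {r : ℝ} (hr : 0 < r) (h : r⁻¹ • A ≤ B) : A ≤ r • B := by
  have h1 := rs_mono hr.le h
  rwa [smul_smul, mul_inv_cancel₀ hr.ne', one_smul] at h1

private theorem t_move' {A B : Mat m} {r : ℝ} (hr : 0 < r) (h : A ≤ r • B) : r⁻¹ • A ≤ B := by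
  have h1 := rs_mono (inv_pos.2 hr).le h
  rwa [smul_smul, inv_mul_cancel₀ hr.ne', one_smul] at h1

/-! ### Averages of traces -/

private theorem k_inner {H : Vec n → Mat m} {A : Mat m} {g : SUGroup n}
    (hi : Integrable (fun x => kap s x • H (act (g * x) (base n))) (mu n))
    (h0 : ∀ x : SUGroup n, 0 ≤ (A * H (act (g * x) (base n))).trace.re) :
    ∫⁻ x, ENNReal.ofReal (kap s x) * ENNReal.ofReal (A * H (act (g * x) (base n))).trace.re
      ∂(mu n) = ENNReal.ofReal (A * P s H (act g (base n))).trace.re := by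
  obtain ⟨i1, e1⟩ := int_tr hi A
  rw [P_orbit, ← e1, ofReal_integral_eq_lintegral_ofReal i1 (Eventually.of_forall fun x => ?_)]
  · refine lintegral_congr fun x => ?_
    rw [← ENNReal.ofReal_mul (kap_nonneg s x), mul_smul_comm, t_re_smul]
  · beta_reduce
    rw [Pi.zero_apply, mul_smul_comm, t_re_smul]
    exact mul_nonneg (kap_nonneg s x) (h0 x)

private theorem m_tq {X : Type*} [TopologicalSpace X] {ρ' : Γ →* Mat m} {A B : Vec n → Mat m}
    (hA : Met ρ' A) (hB : Met ρ' B) {u v : X → SUGroup n} (hu : Continuous u)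
    (hv : Continuous v) : Continuous fun x : X =>
      ((A (act (u x) (base n)))⁻¹ * B (act (v x) (base n))).trace.re := by
  have c1 : Continuous fun g : SUGroup n => (A (act g (base n)))⁻¹ :=
    continuous_orbit_of (met_inv hA).cont
  have c2 : Continuous fun g : SUGroup n => B (act g (base n)) := continuous_orbit_of hB.cont
  have c3 : Continuous fun x : X => (A (act (u x) (base n)))⁻¹ := c1.comp hu
  have c4 : Continuous fun x : X => B (act (v x) (base n)) := c2.comp hv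
  exact Complex.continuous_re.comp (c3.matrix_mul c4).matrix_trace

private theorem m_tq' {ρ' : Γ →* Mat m} {A B : Vec n → Mat m} (hA : Met ρ' A)
    (hB : Met ρ' B) : Measurable fun g : SUGroup n => tq (A (act g (base n))) (B (act g (base n))) :=
  (m_tq hA hB continuous_id continuous_id).measurable.ennreal_ofReal

private theorem m_prod {f : SUGroup n × SUGroup n → ℝ} (hf : Continuous f) :
    AEMeasurable (fun p => ENNReal.ofReal (f p)) ((mu n).prod (mu n)) := by
  have h1 : AEStronglyMeasurable f ((mu n).prod (mu n)) := hf.aestronglyMeasurable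
  exact h1.aemeasurable.ennreal_ofReal

private theorem m_pair {ρ' : Γ →* Mat m} {A B : Vec n → Mat m} (hA : Met ρ' A)
    (hB : Met ρ' B) : AEMeasurable (Function.uncurry fun g h : SUGroup n =>
      tq (A (act g (base n))) (B (act h (base n)))) ((mu n).prod (mu n)) :=
  m_prod (m_tq hA hB continuous_fst continuous_snd)

private theorem tq_equi {ρ' : Γ →* Mat m} {A B : Vec n → Mat m} (hA : Met ρ' A)
    (hB : Met ρ' B) {γ : SUGroup n} (hγ : γ ∈ Γ) (g h : SUGroup n) :
    tq (A (act (γ * g) (base n))) (B (act (γ * h) (base n))) =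
      tq (A (act g (base n))) (B (act h (base n))) := by
  have h1 := hA.equi ⟨γ, hγ⟩ _ (orbit_mem g)
  have h2 := hB.equi ⟨γ, hγ⟩ _ (orbit_mem h)
  obtain ⟨X, hX⟩ : ∃ X : Mat m, X = ρ' ⟨γ, hγ⟩ := ⟨_, rfl⟩
  obtain ⟨Y, hY⟩ : ∃ Y : Mat m, Y = ρ' (⟨γ, hγ⟩ : Γ)⁻¹ := ⟨_, rfl⟩
  have e1 : X * Y = 1 := by rw [hX, hY, ← map_mul, mul_inv_cancel, map_one]
  have e2 : Y * X = 1 := by rw [hX, hY, ← map_mul, inv_mul_cancel, map_one]
  have e3 : Yᴴ * Xᴴ = 1 := by rw [← conjTranspose_mul, e1, conjTranspose_one]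
  have e4 : Xᴴ * Yᴴ = 1 := by rw [← conjTranspose_mul, e2, conjTranspose_one]
  rw [← hX] at h1 h2
  have e5 : (X * A (act g (base n)) * Xᴴ)⁻¹ = Yᴴ * (A (act g (base n)))⁻¹ * Y := by
    rw [Matrix.mul_inv_rev, Matrix.mul_inv_rev, Matrix.inv_eq_right_inv e1,
      Matrix.inv_eq_right_inv e4, Matrix.mul_assoc]
  unfold tq
  rw [act_mul, act_mul, h1, h2, e5]
  congr 2
  calc (Yᴴ * (A (act g (base n)))⁻¹ * Y * (X * B (act h (base n)) * Xᴴ)).trace
      = (Yᴴ * ((A (act g (base n)))⁻¹ * (Y * X) * B (act h (base n)) * Xᴴ)).trace := by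
        simp only [Matrix.mul_assoc]
    _ = ((A (act g (base n)))⁻¹ * B (act h (base n)) * (Xᴴ * Yᴴ)).trace := by
        rw [e2, Matrix.mul_one, trace_mul_comm]
        simp only [Matrix.mul_assoc]
    _ = _ := by rw [e4, Matrix.mul_one]

private theorem kk_int (hB : Brr ρ T y a b c C s H₀) {A : ℝ} {H : Vec n → Mat m}
    (h : KK ρ s y a H₀ A H) (g : SUGroup n) :
    Integrable (fun x => kap s x • H (act (g * x) (base n))) (mu n) ∧
      Integrable (fun x => kap s x • (fun w => (H w)⁻¹) (act (g * x) (base n))) (mu n) := by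
  obtain ⟨C', hC⟩ := KK.adm hB A
  obtain ⟨h1, h2⟩ := hC H h
  have hs : n + (a + b) < s := by have := hB.big; omega
  exact ⟨int_adm hs h1 g, int_adm hs h2 g⟩

/-- the first inner integral -/
private noncomputable def K1 (s : ℕ) (H L : Vec n → Mat m) (g : SUGroup n) : ℝ≥0∞ :=
  ∫⁻ x, ENNReal.ofReal (kap s x) * tq (L (act g (base n))) (H (act (g * x) (base n))) ∂(mu n)

/-- the second inner integral -/
private noncomputable def K2 (s : ℕ) (H L : Vec n → Mat m) (g : SUGroup n) : ℝ≥0∞ :=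
  ∫⁻ x, ENNReal.ofReal (kap s x) * tq (H (act (g * x) (base n))) (L (act g (base n))) ∂(mu n)

private theorem K1_eq (hB : Brr ρ T y a b c C s H₀) {A : ℝ} {H L : Vec n → Mat m}
    (h : KK ρ s y a H₀ A H) (hL : Met ρ L) (g : SUGroup n) :
    K1 s H L g = ENNReal.ofReal ((L (act g (base n)))⁻¹ * P s H (act g (base n))).trace.re :=
  k_inner (kk_int hB h g).1 fun _ => t_nonneg (hL.pos _ (orbit_mem g)) (h.met.pos _ (orbit_mem _))

private theorem K2_eq (hB : Brr ρ T y a b c C s H₀) {A : ℝ} {H L : Vec n → Mat m}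
    (h : KK ρ s y a H₀ A H) (hL : Met ρ L) (g : SUGroup n) :
    K2 s H L g = ENNReal.ofReal
      (L (act g (base n)) * P s (fun w => (H w)⁻¹) (act g (base n))).trace.re := by
  have e := k_inner (A := L (act g (base n))) (H := fun w => (H w)⁻¹) (kk_int hB h g).2
    fun _ => by
      rw [trace_mul_comm]
      exact t_nonneg (h.met.pos _ (orbit_mem _)) (hL.pos _ (orbit_mem g))
  rw [← e]
  refine lintegral_congr fun x => ?_
  unfold tq
  rw [trace_mul_comm]

private theorem m_kap (n s : ℕ) : AEMeasurable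
    (fun p : SUGroup n × SUGroup n => ENNReal.ofReal (kap s p.2)) ((mu n).prod (mu n)) :=
  m_prod ((continuous_kap s).comp continuous_snd)

private theorem m_mulc (n : ℕ) : Continuous fun p : SUGroup n × SUGroup n => p.1 * p.2 :=
  continuous_fst.mul continuous_snd

private theorem m_K1 {H L : Vec n → Mat m} (hH : Met ρ H) (hL : Met ρ L) :
    AEMeasurable (K1 s H L) (mu n) := by
  have h1 := m_prod (m_tq hL hH continuous_fst (m_mulc n))
  have h2 := (m_kap n s).mul h1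
  exact h2.lintegral_prod_right'

private theorem m_K2 {H L : Vec n → Mat m} (hH : Met ρ H) (hL : Met ρ L) :
    AEMeasurable (K2 s H L) (mu n) := by
  have h1 := m_prod (m_tq hH hL (m_mulc n) continuous_fst)
  have h2 := (m_kap n s).mul h1
  exact h2.lintegral_prod_right'

private theorem J0_eq (hΓ : Lat Γ χ) {H L : Vec n → Mat m} (hH : Met ρ H) (hL : Met ρ L) :
    J0 χ s H L = LI χ (K1 s H L) + LI χ (K2 s H L) := by
  rw [← LI_add hΓ (m_K1 hH hL)]
  unfold J0
  congr 1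
  funext g
  unfold K1 K2
  have hm : Measurable fun x : SUGroup n => ENNReal.ofReal (kap s x) *
      tq (L (act g (base n))) (H (act (g * x) (base n))) := by
    have h1 : Continuous fun x : SUGroup n =>
        ((L (act g (base n)))⁻¹ * H (act (g * x) (base n))).trace.re :=
      m_tq hL hH continuous_const (continuous_const_mul g)
    have h2 := (continuous_kap (n := n) s).measurable.ennreal_ofReal
    exact h2.mul h1.measurable.ennreal_ofReal
  rw [← lintegral_add_left hm]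
  refine lintegral_congr fun x => ?_
  rw [mul_add]

/-- the swap -/
private theorem K_swap (hΓ : Lat Γ χ) {H L : Vec n → Mat m} (hH : Met ρ H) (hL : Met ρ L) :
    LI χ (K1 s H L) = LI χ (K2 s L H) := by
  have h := LI_swap hΓ (Φ := fun g h => tq (L (act g (base n))) (H (act h (base n))))
    (m_pair hL hH) (fun γ hγ g g' => tq_equi hL hH hγ g g')
    (κ := fun x => ENNReal.ofReal (kap s x))
    ((continuous_kap s).measurable.ennreal_ofReal.aemeasurable) (fun x => by rw [kap_inv])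
  exact h

/-- the equation, in terms of traces -/
private theorem eq_tr (hB : Brr ρ T y a b c C s H₀) {η : ℝ} (hη : 0 < η) {A : ℝ}
    {H L : Vec n → Mat m} (h : KK ρ s y a H₀ A H) (hL : Met ρ L)
    (he : ∀ v ∈ Cone n, L v * PA s η y a H₀ H v * L v = PB s η y a H₀ H v) (g : SUGroup n) :
    K2 s H L g + ENNReal.ofReal η * (ENNReal.ofReal (th y a (act g (base n))) *
        tq (H₀ (act g (base n))) (L (act g (base n)))) =
      K1 s H L g + ENNReal.ofReal η * (ENNReal.ofReal (th y a (act g (base n))) *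
        tq (L (act g (base n))) (H₀ (act g (base n)))) := by
  have hg := orbit_mem g
  have hLp := hL.pos _ hg
  have h0p := hB.met.pos _ hg
  have hth : 0 ≤ th y a (act g (base n)) :=
    inv_nonneg.2 (pow_nonneg (zero_le_one.trans (hB.ht.one_le _ hg)) _)
  have e1 := he _ hg
  unfold PA PB at e1
  rw [cr_smul, cr_smul] at e1
  have e2 : (L (act g (base n)) * (P s (fun w => (H w)⁻¹) (act g (base n)) +
      (η * th y a (act g (base n))) • (H₀ (act g (base n)))⁻¹)).trace =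
      ((L (act g (base n)))⁻¹ * (P s H (act g (base n)) +
        (η * th y a (act g (base n))) • H₀ (act g (base n)))).trace := by
    rw [← e1, trace_mul_comm (L (act g (base n)))⁻¹]
    rw [Matrix.mul_assoc, t_mul_inv hLp, Matrix.mul_one]
  have e3 : (L (act g (base n)) * P s (fun w => (H w)⁻¹) (act g (base n))).trace.re +
      η * (th y a (act g (base n)) * ((H₀ (act g (base n)))⁻¹ * L (act g (base n))).trace.re) =
      ((L (act g (base n)))⁻¹ * P s H (act g (base n))).trace.re +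
      η * (th y a (act g (base n)) * ((L (act g (base n)))⁻¹ * H₀ (act g (base n))).trace.re) := by
    have e4 := congrArg Complex.re e2
    rw [mul_add, mul_add, trace_add, trace_add, Complex.add_re, Complex.add_re, mul_smul_comm,
      mul_smul_comm, t_re_smul, t_re_smul, trace_mul_comm (L (act g (base n))) (H₀ _)⁻¹] at e4
    rw [← mul_assoc, ← mul_assoc]
    exact e4
  have p1 := t_nonneg h0p hLp
  have p2 := t_nonneg hLp h0p
  have q1 : 0 ≤ ((L (act g (base n)))⁻¹ * P s H (act g (base n))).trace.re := by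
    obtain ⟨i1, e5⟩ := int_tr (kk_int hB h g).1 (L (act g (base n)))⁻¹
    rw [P_orbit, ← e5]
    refine integral_nonneg fun x => ?_
    show 0 ≤ ((L (act g (base n)))⁻¹ * (kap s x • H (act (g * x) (base n)))).trace.re
    rw [mul_smul_comm, t_re_smul]
    exact mul_nonneg (kap_nonneg s x) (t_nonneg hLp (h.met.pos _ (orbit_mem _)))
  have q2 : 0 ≤ (L (act g (base n)) * P s (fun w => (H w)⁻¹) (act g (base n))).trace.re := by
    obtain ⟨i1, e5⟩ := int_tr (kk_int hB h g).2 (L (act g (base n)))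
    rw [P_orbit, ← e5]
    refine integral_nonneg fun x => ?_
    show 0 ≤ (L (act g (base n)) * (kap s x • (H (act (g * x) (base n)))⁻¹)).trace.re
    rw [mul_smul_comm, t_re_smul, trace_mul_comm]
    exact mul_nonneg (kap_nonneg s x) (t_nonneg (h.met.pos _ (orbit_mem _)) hLp)
  rw [K1_eq hB h hL, K2_eq hB h hL]
  unfold tq
  rw [← ENNReal.ofReal_mul hth, ← ENNReal.ofReal_mul hth, ← ENNReal.ofReal_mul hη.le,
    ← ENNReal.ofReal_mul hη.le, ← ENNReal.ofReal_add q2 (mul_nonneg hη.le (mul_nonneg hth p1)),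
    ← ENNReal.ofReal_add q1 (mul_nonneg hη.le (mul_nonneg hth p2)), e3]

private theorem m_th (hB : Brr ρ T y a b c C s H₀) :
    Measurable fun g : SUGroup n => ENNReal.ofReal (th y a (act g (base n))) := by
  have h1 : Continuous fun g : SUGroup n => y (act g (base n)) :=
    hB.ht.cont.comp_continuous continuous_orbit orbit_mem
  have h2 : Continuous fun g : SUGroup n => th y a (act g (base n)) := by
    unfold th
    refine (h1.pow _).inv₀ fun g => ?_
    have := hB.ht.one_le _ (orbit_mem g)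
    exact pow_ne_zero _ (by linarith)
  exact h2.measurable.ennreal_ofReal

/-- A7 (scale balance): `tr (L⁻¹ .)` of `eq1` and `tr (H⁻¹ .)` of `eq2`, integrated, and `Lat.LI_swap` (all terms are
finite, `η > 0`). -/
theorem PE.balance (hΓ : Lat Γ χ) (hB : Brr ρ T y a b c C s H₀) {η : ℝ} (hη : 0 < η)
    (hη1 : η ≤ 1) {H L : Vec n → Mat m} (h : PE ρ χ s η y a H₀ H L) :
    LI χ (fun g => ENNReal.ofReal (th y a (act g (base n))) *
        (tq (H₀ (act g (base n))) (H (act g (base n))) +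
          tq (H₀ (act g (base n))) (L (act g (base n))))) =
      LI χ fun g => ENNReal.ofReal (th y a (act g (base n))) *
        (tq (H (act g (base n))) (H₀ (act g (base n))) +
          tq (L (act g (base n))) (H₀ (act g (base n)))) := by
  obtain ⟨A, hH, hL⟩ := h.kk
  have m1 := m_th (a := a) hB
  have mHL : AEMeasurable (fun g : SUGroup n => ENNReal.ofReal (th y a (act g (base n))) *
      tq (H₀ (act g (base n))) (H (act g (base n)))) (mu n) :=
    (m1.mul (m_tq' hB.met hH.met)).aemeasurable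
  have mLL : AEMeasurable (fun g : SUGroup n => ENNReal.ofReal (th y a (act g (base n))) *
      tq (H₀ (act g (base n))) (L (act g (base n)))) (mu n) :=
    (m1.mul (m_tq' hB.met hL.met)).aemeasurable
  have mH0 : AEMeasurable (fun g : SUGroup n => ENNReal.ofReal (th y a (act g (base n))) *
      tq (H (act g (base n))) (H₀ (act g (base n)))) (mu n) :=
    (m1.mul (m_tq' hH.met hB.met)).aemeasurable
  have mL0 : AEMeasurable (fun g : SUGroup n => ENNReal.ofReal (th y a (act g (base n))) *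
      tq (L (act g (base n))) (H₀ (act g (base n)))) (mu n) :=
    (m1.mul (m_tq' hL.met hB.met)).aemeasurable
  obtain ⟨K, hK⟩ := JE_self hΓ hB
  have hfin : LI χ (K1 s H L) + LI χ (K2 s H L) < ⊤ := by
    rw [← J0_eq hΓ hH.met hL.met]
    have h1 : J0 χ s H L ≤ JE χ s η y a H₀ H L := le_self_add
    exact (h1.trans (h.le.trans (hK η hη.le hη1))).trans_lt ENNReal.ofReal_lt_top
  have E1 : LI χ (K2 s H L) + ENNReal.ofReal η * LI χ (fun g =>
      ENNReal.ofReal (th y a (act g (base n))) * tq (H₀ (act g (base n))) (L (act g (base n)))) =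
      LI χ (K1 s H L) + ENNReal.ofReal η * LI χ (fun g =>
      ENNReal.ofReal (th y a (act g (base n))) * tq (L (act g (base n))) (H₀ (act g (base n)))) := by
    rw [← LI_const_mul hΓ _ mLL, ← LI_const_mul hΓ _ mL0,
      ← LI_add hΓ (m_K2 hH.met hL.met), ← LI_add hΓ (m_K1 hH.met hL.met)]
    congr 1
    funext g
    exact eq_tr hB hη hH hL.met h.eq1 g
  have E2 : LI χ (K2 s L H) + ENNReal.ofReal η * LI χ (fun g =>
      ENNReal.ofReal (th y a (act g (base n))) * tq (H₀ (act g (base n))) (H (act g (base n)))) =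
      LI χ (K1 s L H) + ENNReal.ofReal η * LI χ (fun g =>
      ENNReal.ofReal (th y a (act g (base n))) * tq (H (act g (base n))) (H₀ (act g (base n)))) := by
    rw [← LI_const_mul hΓ _ mHL, ← LI_const_mul hΓ _ mH0,
      ← LI_add hΓ (m_K2 hL.met hH.met), ← LI_add hΓ (m_K1 hL.met hH.met)]
    congr 1
    funext g
    exact eq_tr hB hη hL hH.met h.eq2 g
  rw [← K_swap hΓ hH.met hL.met] at E2
  rw [K_swap hΓ hL.met hH.met] at E2
  have eX : LI χ (fun g => ENNReal.ofReal (th y a (act g (base n))) *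
        (tq (H₀ (act g (base n))) (H (act g (base n))) +
          tq (H₀ (act g (base n))) (L (act g (base n))))) = LI χ (fun g =>
      ENNReal.ofReal (th y a (act g (base n))) * tq (H₀ (act g (base n))) (H (act g (base n)))) +
      LI χ (fun g =>
      ENNReal.ofReal (th y a (act g (base n))) * tq (H₀ (act g (base n))) (L (act g (base n)))) := by
    rw [← LI_add hΓ mHL]
    simp only [mul_add]
  have eY : LI χ (fun g => ENNReal.ofReal (th y a (act g (base n))) *
        (tq (H (act g (base n))) (H₀ (act g (base n))) +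
          tq (L (act g (base n))) (H₀ (act g (base n))))) = LI χ (fun g =>
      ENNReal.ofReal (th y a (act g (base n))) * tq (H (act g (base n))) (H₀ (act g (base n)))) +
      LI χ (fun g =>
      ENNReal.ofReal (th y a (act g (base n))) * tq (L (act g (base n))) (H₀ (act g (base n)))) := by
    rw [← LI_add hΓ mH0]
    simp only [mul_add]
  rw [eX, eY]
  obtain ⟨i1, hi1⟩ : ∃ i, i = LI χ (K1 s H L) := ⟨_, rfl⟩
  obtain ⟨i2, hi2⟩ : ∃ i, i = LI χ (K2 s H L) := ⟨_, rfl⟩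
  rw [← hi1, ← hi2] at hfin E1 E2
  have hne : i1 + i2 ≠ ⊤ := hfin.ne
  have e0 : ENNReal.ofReal η ≠ 0 := (ENNReal.ofReal_pos.2 hη).ne'
  have key := congrArg₂ (· + ·) E2 E1
  beta_reduce at key
  have k2 : ∀ x y z w e : ℝ≥0∞, (x + e * z) + (y + e * w) = (x + y) + e * (z + w) := by
    intro x y z w e
    ring
  rw [k2, k2, add_comm i2 i1] at key
  have k3 := (ENNReal.add_right_inj hne).1 key
  exact (ENNReal.mul_right_inj e0 ENNReal.ofReal_ne_top).1 k3

/-! ### The lower bound from irreducibility -/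

private theorem t_trace_eq {A : Mat m} (hA : A.PosSemidef) : A.trace = (A.trace.re : ℂ) := by
  have h := hA.trace_nonneg
  exact Complex.ext (by simp) (by simpa using (Complex.le_def.1 h).2.symm)

/-- The lower bound from irreducibility (`LevB.lev_low`, which does not use that `Γ` is cocompact). -/
theorem lev_low' (ρ : Γ →* Mat m) (hρ : Submodule.span ℂ (Set.range ρ) = ⊤) (k : ℕ) :
    ∃ δ : ℝ, 0 < δ ∧ ∀ H : Vec n → Mat m, Met ρ H → Harn k H → ∀ g : SUGroup n,
      (H (act g (base n))).trace.re ≤ wt g ^ k * (H (base n)).trace.re ∧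
        ((δ / wt g ^ k * (H (base n)).trace.re : ℝ) : ℂ) • (1 : Mat m) ≤
          H (act g (base n)) := by
  classical
  obtain ⟨S, hS⟩ := exists_finite_span (fun γ : Γ => ρ γ) hρ
  have hS' : Submodule.span ℂ (Set.range fun γ : S => ρ (γ : Γ)) = ⊤ := by
    rw [← hS]
    congr 1
    ext A
    constructor
    · rintro ⟨γ, rfl⟩
      exact ⟨γ, γ.2, rfl⟩
    · rintro ⟨γ, hγ, rfl⟩
      exact ⟨⟨γ, hγ⟩, rfl⟩
  obtain ⟨δ, hδ, hδ'⟩ := exists_delta (fun γ : S => ρ (γ : Γ)) hS'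
    (∑ γ ∈ S, wt (γ : SUGroup n) ^ k)
  refine ⟨δ, hδ, fun H hH hh g => ?_⟩
  have hp0 : (H (base n)).PosDef := hH.pos _ (base_mem n)
  obtain ⟨τ, hτ⟩ : ∃ τ : ℝ, τ = (H (base n)).trace.re := ⟨_, rfl⟩
  have hτ0 : 0 ≤ τ := by
    rw [hτ]
    exact (Complex.le_def.1 hp0.posSemidef.trace_nonneg).1
  rw [← hτ]
  have h1 := harn_real hh 1 g
  rw [one_mul, act_one] at h1
  have hw : 0 < wt g ^ k := wt_pow_pos g k
  have h0 : (δ * τ) • (1 : Mat m) ≤ H (base n) := by
    rcases hτ0.eq_or_lt with h | h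
    · rw [← h, mul_zero, zero_smul]
      exact t_nn hp0
    · have hA : (τ⁻¹ • H (base n)).PosSemidef := by
        rw [← Matrix.nonneg_iff_posSemidef]
        exact smul_nonneg_mat (inv_pos.2 h).le (t_nn hp0)
      have ht : (τ⁻¹ • H (base n)).trace = 1 := by
        rw [t_trace_eq hA, t_re_smul, ← hτ, inv_mul_cancel₀ h.ne', Complex.ofReal_one]
      have h2 := hδ' _ hA ht fun γ => by
        rw [cr_smul, mul_smul_comm, smul_mul_assoc, smul_comm]
        refine rs_mono (inv_pos.2 h).le ?_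
        have h3 := harn_real hh 1 ((γ : Γ) : SUGroup n)
        rw [one_mul, act_one, hH.equi (γ : Γ) _ (base_mem n)] at h3
        refine h3.trans (rs_mono_left (t_nn hp0) ?_)
        exact Finset.single_le_sum (f := fun γ : Γ => wt (γ : SUGroup n) ^ k)
          (fun i _ => (wt_pow_pos _ k).le) γ.2
      rw [cr_smul] at h2
      have h3 := rs_mono h.le h2
      rwa [smul_smul, smul_smul, mul_inv_cancel₀ h.ne', one_smul, mul_comm] at h3
  refine ⟨?_, ?_⟩
  · have h2 := t_trace_mono h1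
    rwa [t_re_smul, ← hτ] at h2
  · have h2 := harn_real' hh 1 g
    rw [one_mul, act_one] at h2
    have h3 := t_move' hw (h0.trans h2)
    rw [smul_smul] at h3
    rw [cr_smul]
    have e : (wt g ^ k)⁻¹ * (δ * τ) = δ / wt g ^ k * τ := by
      rw [div_eq_mul_inv]
      ring
    rwa [e] at h3

/-- inequalities may be checked on a translate -/
private theorem equi_le {X Z : Vec n → Mat m} (hX : Met ρ X) (hZ : Met ρ Z) {γ : SUGroup n}
    (hγ : γ ∈ Γ) {g : SUGroup n} {r : ℝ}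
    (h : X (act (γ * g) (base n)) ≤ r • Z (act (γ * g) (base n))) :
    X (act g (base n)) ≤ r • Z (act g (base n)) := by
  have h1 := hX.equi (⟨γ, hγ⟩ : Γ)⁻¹ _ (orbit_mem (γ * g))
  have h2 := hZ.equi (⟨γ, hγ⟩ : Γ)⁻¹ _ (orbit_mem (γ * g))
  have e : act (((⟨γ, hγ⟩ : Γ)⁻¹ : Γ) : SUGroup n) (act (γ * g) (base n)) = act g (base n) := by
    rw [← act_mul]
    congr 1
    show γ⁻¹ * (γ * g) = g
    group
  rw [e] at h1 h2
  rw [h1, h2]
  have h3 := conj_le_conj h (ρ (⟨γ, hγ⟩ : Γ)⁻¹)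
  rwa [mul_smul_comm, smul_mul_assoc] at h3

/-- comparison with the base metric on `{y ≤ R}` -/
private theorem exists_cmp (hm : 0 < m) (hB : Brr ρ T y a b c C s H₀)
    (hρ : Submodule.span ℂ (Set.range ρ) = ⊤) (k : ℕ) (R : ℝ) : ∃ B : ℝ, 1 ≤ B ∧
      ∀ X : Vec n → Mat m, Met ρ X → Harn k X → 0 < (X (base n)).trace.re ∧
        ∀ v ∈ Cone n, y v ≤ R → H₀ v ≤ (B / (X (base n)).trace.re) • X v ∧
          X v ≤ (B * (X (base n)).trace.re) • H₀ v := by
  obtain ⟨F, hF, hcov⟩ := hB.ht.cpt R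
  obtain ⟨W₀, hW₀⟩ := hF.exists_bound_of_continuousOn
    (continuous_wt (n := n)).continuousOn (f := fun g => wt g)
  obtain ⟨W, hW⟩ : ∃ W : ℝ, W = max W₀ 1 := ⟨_, rfl⟩
  have hW1 : 1 ≤ W := by rw [hW]; exact le_max_right _ _
  have hWp : 0 < W := by linarith
  have hWF : ∀ g ∈ F, wt g ≤ W := fun g hg => by
    rw [hW]
    exact ((le_abs_self _).trans (hW₀ g hg)).trans (le_max_left _ _)
  obtain ⟨δ, hδ, hl⟩ := lev_low' ρ hρ k
  obtain ⟨δ₀, hδ₀, hl₀⟩ := lev_low' ρ hρ (2 * b)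
  obtain ⟨τ₀, hτ₀⟩ : ∃ τ : ℝ, τ = (H₀ (base n)).trace.re := ⟨_, rfl⟩
  have hτ₀p : 0 < τ₀ := by rw [hτ₀]; exact t_pos_trace hm (hB.met.pos _ (base_mem n))
  obtain ⟨B₁, hB₁⟩ : ∃ B₁ : ℝ, B₁ = W ^ k * (W ^ (2 * b) / (δ₀ * τ₀)) := ⟨_, rfl⟩
  obtain ⟨B₂, hB₂⟩ : ∃ B₂ : ℝ, B₂ = W ^ (2 * b) * τ₀ * (W ^ k / δ) := ⟨_, rfl⟩
  refine ⟨max 1 (max B₁ B₂), le_max_left _ _, fun X hX hh => ?_⟩
  obtain ⟨τ, hτ⟩ : ∃ τ : ℝ, τ = (X (base n)).trace.re := ⟨_, rfl⟩
  have hτp : 0 < τ := by rw [hτ]; exact t_pos_trace hm (hX.pos _ (base_mem n))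
  rw [← hτ]
  refine ⟨hτp, ?_⟩
  have key : ∀ g ∈ F, H₀ (act g (base n)) ≤ (max 1 (max B₁ B₂) / τ) • X (act g (base n)) ∧
      X (act g (base n)) ≤ (max 1 (max B₁ B₂) * τ) • H₀ (act g (base n)) := by
    intro g hg
    have hpX := hX.pos _ (orbit_mem g)
    have hp0 := hB.met.pos _ (orbit_mem g)
    obtain ⟨u1, u2⟩ := hl X hX hh g
    obtain ⟨v1, v2⟩ := hl₀ H₀ hB.met hB.harn g
    rw [← hτ] at u1 u2
    rw [← hτ₀] at v1 v2
    rw [cr_smul] at u2 v2
    have hone : (0 : Mat m) ≤ 1 := Matrix.nonneg_iff_posSemidef.2 PosSemidef.one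
    have hwk : wt g ^ k ≤ W ^ k := pow_le_pow_left₀ (zero_le_one.trans (one_le_wt g)) (hWF g hg) k
    have hwb : wt g ^ (2 * b) ≤ W ^ (2 * b) := pow_le_pow_left₀ (zero_le_one.trans (one_le_wt g)) (hWF g hg) (2 * b)
    have hk0 := wt_pow_pos g k
    have hb0 := wt_pow_pos g (2 * b)
    have hWk : 0 < W ^ k := pow_pos hWp k
    have hWb : 0 < W ^ (2 * b) := pow_pos hWp (2 * b)
    have w1 : X (act g (base n)) ≤ (W ^ k * τ) • (1 : Mat m) :=
      (t_le_one hpX.posSemidef).trans (rs_mono_left hone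
        (u1.trans (mul_le_mul_of_nonneg_right hwk hτp.le)))
    have w2 : H₀ (act g (base n)) ≤ (W ^ (2 * b) * τ₀) • (1 : Mat m) :=
      (t_le_one hp0.posSemidef).trans (rs_mono_left hone
        (v1.trans (mul_le_mul_of_nonneg_right hwb hτ₀p.le)))
    have w3 : (1 : Mat m) ≤ (W ^ k / (δ * τ)) • X (act g (base n)) := by
      have e : (δ / W ^ k * τ) • (1 : Mat m) ≤ X (act g (base n)) :=
        (rs_mono_left hone (mul_le_mul_of_nonneg_right
          (div_le_div_of_nonneg_left hδ.le hk0 hwk) hτp.le)).trans u2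
      have e2 : (δ / W ^ k * τ) = (W ^ k / (δ * τ))⁻¹ := by
        rw [inv_div]
        ring
      rw [e2] at e
      exact t_move (by positivity) e
    have w4 : (1 : Mat m) ≤ (W ^ (2 * b) / (δ₀ * τ₀)) • H₀ (act g (base n)) := by
      have e : (δ₀ / W ^ (2 * b) * τ₀) • (1 : Mat m) ≤ H₀ (act g (base n)) :=
        (rs_mono_left hone (mul_le_mul_of_nonneg_right
          (div_le_div_of_nonneg_left hδ₀.le hb0 hwb) hτ₀p.le)).trans v2
      have e2 : (δ₀ / W ^ (2 * b) * τ₀) = (W ^ (2 * b) / (δ₀ * τ₀))⁻¹ := by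
        rw [inv_div]
        ring
      rw [e2] at e
      exact t_move (by positivity) e
    constructor
    · have h1 := w2.trans (rs_mono (by positivity) w3)
      rw [smul_smul] at h1
      refine h1.trans (rs_mono_left (t_nn hpX) ?_)
      have e : W ^ (2 * b) * τ₀ * (W ^ k / (δ * τ)) = B₂ / τ := by
        rw [hB₂]
        field_simp
      rw [e]
      exact div_le_div_of_nonneg_right ((le_max_right _ _).trans (le_max_right _ _)) hτp.le
    · have h1 := w1.trans (rs_mono (by positivity) w4)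
      rw [smul_smul] at h1
      refine h1.trans (rs_mono_left (t_nn hp0) ?_)
      have e : W ^ k * τ * (W ^ (2 * b) / (δ₀ * τ₀)) = B₁ * τ := by
        rw [hB₁]
        ring
      rw [e]
      exact mul_le_mul_of_nonneg_right ((le_max_left _ _).trans (le_max_right _ _)) hτp.le
  intro v hv hyv
  obtain ⟨g, d, hd, rfl⟩ := exists_act_eq hv
  rw [hX.hom d hd _ (orbit_mem g), hB.met.hom d hd _ (orbit_mem g)]
  rw [hB.ht.hom d hd _ (orbit_mem g)] at hyv
  obtain ⟨γ, hγ, hg⟩ := hcov g hyv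
  obtain ⟨k1, k2⟩ := key _ hg
  exact ⟨equi_le hB.met hX hγ k1, equi_le hX hB.met hγ k2⟩

/-- at some point close to the origin the two metrics are comparable -/
private theorem exists_pt (hΓ : Lat Γ χ) (hB : Brr ρ T y a b c C s H₀) : ∃ D : ℝ, 1 ≤ D ∧
    ∀ η : ℝ, 0 < η → η ≤ 1 → ∀ H L : Vec n → Mat m, PE ρ χ s η y a H₀ H L →
      ∃ g : SUGroup n, ch g ≤ 2 ∧ H (act g (base n)) ≤ D • L (act g (base n)) ∧
        L (act g (base n)) ≤ D • H (act g (base n)) := by
  obtain ⟨K, hK⟩ := JE_self hΓ hB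
  have hsn : n < s := by have := hB.big; omega
  obtain ⟨Cw, hCw⟩ : ∃ Cw : ℝ≥0∞, Cw = ∫⁻ x : SUGroup n, ENNReal.ofReal (kap s x) *
    ENNReal.ofReal (wt x ^ (2 * s))⁻¹ ∂(mu n) := ⟨_, rfl⟩
  obtain ⟨w0, hw0⟩ : ∃ w0 : ℝ≥0∞, w0 = ∫⁻ g in {g : SUGroup n | ch g ≤ 2},
    ENNReal.ofReal (χ g) ∂(mu n) := ⟨_, rfl⟩
  have mk : Measurable fun x : SUGroup n => ENNReal.ofReal (kap s x) :=
    (continuous_kap (n := n) s).measurable.ennreal_ofReal
  have mw : Measurable fun x : SUGroup n => ENNReal.ofReal (wt x ^ (2 * s))⁻¹ :=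
    ((continuous_wt (n := n)).pow (2 * s)).measurable.inv.ennreal_ofReal
  have mkw : Measurable fun x : SUGroup n => ENNReal.ofReal (kap s x) *
      ENNReal.ofReal (wt x ^ (2 * s))⁻¹ := mk.mul mw
  have hS : MeasurableSet {g : SUGroup n | ch g ≤ 2} := (isCompact_ball 2).isClosed.measurableSet
  have hCw0 : Cw ≠ 0 := by
    rw [hCw]
    refine ((lintegral_pos_iff_support mkw).2 ?_).ne'
    have e : Function.support (fun x : SUGroup n => ENNReal.ofReal (kap s x) *
        ENNReal.ofReal (wt x ^ (2 * s))⁻¹) = Set.univ := by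
      rw [Set.eq_univ_iff_forall]
      intro x
      rw [Function.mem_support]
      exact mul_ne_zero (ENNReal.ofReal_pos.2 (kap_pos hsn x)).ne'
        (ENNReal.ofReal_pos.2 (inv_pos.2 (wt_pow_pos x _))).ne'
    rw [e]
    exact (ball_two n).1.trans_le (measure_mono (Set.subset_univ _))
  have hCwt : Cw ≠ ⊤ := by
    rw [hCw]
    refine ne_top_of_le_ne_top (integrable_kap hsn).lintegral_lt_top.ne (lintegral_mono fun x => ?_)
    refine (mul_le_mul_right (ENNReal.ofReal_le_ofReal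
      (inv_le_one_of_one_le₀ (one_le_pow₀ (one_le_wt x)))) _).trans (le_of_eq ?_)
    rw [ENNReal.ofReal_one, mul_one]
  have hw00 : w0 ≠ 0 := by
    rw [hw0]
    refine (setLIntegral_pos_iff hΓ.measurable).2 ?_ |>.ne'
    have e : Function.support (fun g : SUGroup n => ENNReal.ofReal (χ g)) = Set.univ := by
      rw [Set.eq_univ_iff_forall]
      intro x
      exact (ENNReal.ofReal_pos.2 (hΓ.pos x)).ne'
    rw [e, Set.univ_inter]
    exact (ball_two n).1
  have hw0t : w0 ≠ ⊤ := by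
    rw [hw0]
    refine ne_top_of_le_ne_top hΓ.LI_one.ne ?_
    unfold LI
    simp only [Pi.one_apply, mul_one]
    exact setLIntegral_le_lintegral _ _
  obtain ⟨M, hM⟩ : ∃ M : ℝ≥0∞, M = (ENNReal.ofReal K + 1) / (w0 * Cw) := ⟨_, rfl⟩
  have hwc0 : w0 * Cw ≠ 0 := mul_ne_zero hw00 hCw0
  have hwct : w0 * Cw ≠ ⊤ := ENNReal.mul_ne_top hw0t hCwt
  have hMt : M ≠ ⊤ := by
    rw [hM]
    exact ENNReal.div_ne_top (by simp) hwc0
  have hMe : w0 * Cw * M = ENNReal.ofReal K + 1 := by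
    rw [hM]
    exact ENNReal.mul_div_cancel hwc0 hwct
  refine ⟨max 1 M.toReal, le_max_left _ _, fun η hη hη1 H L h => ?_⟩
  obtain ⟨A, hH, hL⟩ := h.kk
  have hJ : J0 χ s H L ≤ ENNReal.ofReal K := by
    have h1 : J0 χ s H L ≤ JE χ s η y a H₀ H L := le_self_add
    exact h1.trans (h.le.trans (hK η hη.le hη1))
  have hinner : ∀ g : SUGroup n, Cw * (tq (L (act g (base n))) (H (act g (base n))) +
      tq (H (act g (base n))) (L (act g (base n)))) ≤
      ∫⁻ x, ENNReal.ofReal (kap s x) * (tq (L (act g (base n))) (H (act (g * x) (base n))) +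
        tq (H (act (g * x) (base n))) (L (act g (base n)))) ∂(mu n) := by
    intro g
    rw [hCw, ← lintegral_mul_const _ mkw]
    refine lintegral_mono fun x => ?_
    have pg := orbit_mem g
    have pgx := orbit_mem (g * x)
    have hwx := wt_pow_pos x (2 * s)
    have e1 : ENNReal.ofReal (wt x ^ (2 * s))⁻¹ * tq (L (act g (base n))) (H (act g (base n))) ≤
        tq (L (act g (base n))) (H (act (g * x) (base n))) := by
      unfold tq
      rw [← ENNReal.ofReal_mul (inv_pos.2 hwx).le]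
      refine ENNReal.ofReal_le_ofReal ?_
      have h1 := trace_mul_le (harn_real' hH.harn g x) (hL.met.pos _ pg).inv.posSemidef
      rw [smul_mul_assoc, t_re_smul, trace_mul_comm, trace_mul_comm (H (act (g * x) (base n)))] at h1
      rw [inv_mul_le_iff₀ hwx]
      exact h1
    have e2 : ENNReal.ofReal (wt x ^ (2 * s))⁻¹ * tq (H (act g (base n))) (L (act g (base n))) ≤
        tq (H (act (g * x) (base n))) (L (act g (base n))) := by
      unfold tq
      rw [← ENNReal.ofReal_mul (inv_pos.2 hwx).le]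
      refine ENNReal.ofReal_le_ofReal ?_
      have h1 := trace_mul_le (harn_real' (harn_inv_of hH.met.pos hH.harn) g x)
        (hL.met.pos _ pg).posSemidef
      rw [smul_mul_assoc, t_re_smul] at h1
      rw [inv_mul_le_iff₀ hwx]
      exact h1
    show ENNReal.ofReal (kap s x) * ENNReal.ofReal (wt x ^ (2 * s))⁻¹ *
      (tq (L (act g (base n))) (H (act g (base n))) +
      tq (H (act g (base n))) (L (act g (base n)))) ≤ _
    rw [mul_assoc]
    refine mul_le_mul_right ?_ _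
    rw [mul_add]
    exact add_le_add e1 e2
  obtain ⟨g, hg, hgM⟩ : ∃ g : SUGroup n, ch g ≤ 2 ∧
      tq (L (act g (base n))) (H (act g (base n))) +
        tq (H (act g (base n))) (L (act g (base n))) ≤ M := by
    by_contra hcon
    push Not at hcon
    have h1 : w0 * Cw * M ≤ J0 χ s H L := by
      unfold J0 LI
      have h2 : ∫⁻ g in {g : SUGroup n | ch g ≤ 2}, ENNReal.ofReal (χ g) * (Cw * M) ∂(mu n) =
          w0 * Cw * M := by
        rw [lintegral_mul_const _ hΓ.measurable, ← hw0, mul_assoc]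
      rw [← h2]
      refine le_trans ?_ (setLIntegral_le_lintegral {g : SUGroup n | ch g ≤ 2} _)
      refine setLIntegral_mono' hS fun g hg => ?_
      refine mul_le_mul_right ?_ _
      exact (mul_le_mul_right (hcon g hg).le _).trans (hinner g)
    have h2 := h1.trans hJ
    rw [hMe] at h2
    exact absurd h2 (not_le.2 (ENNReal.lt_add_right ENNReal.ofReal_ne_top one_ne_zero))
  refine ⟨g, hg, ?_, ?_⟩
  · refine t_le_of (hL.met.pos _ (orbit_mem g)) (hH.met.pos _ (orbit_mem g)) ?_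
    have h1 : tq (L (act g (base n))) (H (act g (base n))) ≤ M := le_self_add.trans hgM
    exact ((ENNReal.ofReal_le_iff_le_toReal hMt).1 h1).trans (le_max_right _ _)
  · refine t_le_of (hH.met.pos _ (orbit_mem g)) (hL.met.pos _ (orbit_mem g)) ?_
    have h1 : tq (H (act g (base n))) (L (act g (base n))) ≤ M := le_add_self.trans hgM
    exact ((ENNReal.ofReal_le_iff_le_toReal hMt).1 h1).trans (le_max_right _ _)

/-- A8, first step: the values of `H` and `L` are comparable to `τ H₀`, `τ = tr H(e)`, on `{y ≤ R}`, uniformly in `η`.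
(`JE ≤ K`, so at some `g₁` with `ch g₁ ≤ 2` the inner integral is bounded; `P_s H ≥ c_s H` by Harnack; so
`tr(L⁻¹ H), tr(H⁻¹ L) ≤ C_s` at `g₁`; then `lev_low'`, Harnack, equivariance and `Ht.cpt`.) -/
theorem PE.core (hm : 0 < m) (hΓ : Lat Γ χ) (hB : Brr ρ T y a b c C s H₀)
    (hρ : Submodule.span ℂ (Set.range ρ) = ⊤) (R : ℝ) : ∃ B : ℝ, 1 ≤ B ∧ ∀ η : ℝ, 0 < η →
      η ≤ 1 → ∀ H L : Vec n → Mat m, PE ρ χ s η y a H₀ H L → 0 < (H (base n)).trace.re ∧
        ∀ v ∈ Cone n, y v ≤ R →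
        (H₀ v ≤ ((B / (H (base n)).trace.re : ℝ) : ℂ) • H v ∧
          H₀ v ≤ ((B / (H (base n)).trace.re : ℝ) : ℂ) • L v) ∧
        (H v ≤ ((B * (H (base n)).trace.re : ℝ) : ℂ) • H₀ v ∧
          L v ≤ ((B * (H (base n)).trace.re : ℝ) : ℂ) • H₀ v) := by
  obtain ⟨B, hB1, hcmp⟩ := exists_cmp hm hB hρ (2 * s) R
  obtain ⟨D, hD1, hpt⟩ := exists_pt hΓ hB
  obtain ⟨E, hE⟩ : ∃ E : ℝ, E = 4 ^ (2 * s) * 4 ^ (2 * s) * D := ⟨_, rfl⟩
  have h4 : (1 : ℝ) ≤ 4 ^ (2 * s) := one_le_pow₀ (by norm_num)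
  have hE1 : 1 ≤ E := by
    rw [hE]
    exact one_le_mul_of_one_le_of_one_le (one_le_mul_of_one_le_of_one_le h4 h4) hD1
  have hEp : 0 < E := by linarith
  have hBp : 0 < B := by linarith
  refine ⟨B * E, one_le_mul_of_one_le_of_one_le hB1 hE1, fun η hη hη1 H L h => ?_⟩
  obtain ⟨A, hH, hL⟩ := h.kk
  obtain ⟨g, hg, g1, g2⟩ := hpt η hη hη1 H L h
  have hw : wt g ≤ 4 := (wt_le g).trans (by linarith)
  have hwp : wt g ^ (2 * s) ≤ 4 ^ (2 * s) :=
    pow_le_pow_left₀ (zero_le_one.trans (one_le_wt g)) hw _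
  have hw0 := wt_pow_pos g (2 * s)
  have comp : ∀ X Z : Vec n → Mat m, KK ρ s y a H₀ A X → KK ρ s y a H₀ A Z →
      X (act g (base n)) ≤ D • Z (act g (base n)) → X (base n) ≤ E • Z (base n) := by
    intro X Z hX hZ hXZ
    have a1 := harn_real' hX.harn 1 g
    have a2 := harn_real hZ.harn 1 g
    rw [one_mul, act_one] at a1 a2
    have a3 := (a1.trans (rs_mono hw0.le (hXZ.trans (rs_mono (by linarith) a2))))
    rw [smul_smul, smul_smul] at a3
    refine a3.trans (rs_mono_left (t_nn (hZ.met.pos _ (base_mem n))) ?_)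
    rw [hE]
    calc wt g ^ (2 * s) * D * wt g ^ (2 * s) = wt g ^ (2 * s) * wt g ^ (2 * s) * D := by ring
      _ ≤ _ := mul_le_mul_of_nonneg_right (mul_le_mul hwp hwp hw0.le (by positivity)) (by linarith)
  have t1 := t_trace_mono (comp H L hH hL g1)
  have t2 := t_trace_mono (comp L H hL hH g2)
  rw [t_re_smul] at t1 t2
  obtain ⟨p1, q1⟩ := hcmp H hH.met hH.harn
  obtain ⟨p2, q2⟩ := hcmp L hL.met hL.harn
  obtain ⟨τ, hτ⟩ : ∃ τ : ℝ, τ = (H (base n)).trace.re := ⟨_, rfl⟩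
  obtain ⟨τ', hτ'⟩ : ∃ τ : ℝ, τ = (L (base n)).trace.re := ⟨_, rfl⟩
  rw [← hτ] at p1 q1 t1 t2
  rw [← hτ'] at p2 q2 t1 t2
  rw [← hτ]
  refine ⟨p1, fun v hv hy => ?_⟩
  obtain ⟨r1, r2⟩ := q1 v hv hy
  obtain ⟨r3, r4⟩ := q2 v hv hy
  have nH := t_nn (hH.met.pos v hv)
  have nL := t_nn (hL.met.pos v hv)
  have n0 := t_nn (hB.met.pos v hv)
  simp only [cr_smul]
  refine ⟨⟨r1.trans (rs_mono_left nH ?_), r3.trans (rs_mono_left nL ?_)⟩,
    ⟨r2.trans (rs_mono_left n0 ?_), r4.trans (rs_mono_left n0 ?_)⟩⟩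
  · refine div_le_div_of_nonneg_right ?_ p1.le
    nlinarith
  · rw [div_le_div_iff₀ p2 p1]
    nlinarith
  · refine mul_le_mul_of_nonneg_right ?_ p1.le
    nlinarith
  · rw [mul_assoc]
    exact mul_le_mul_of_nonneg_left t2 hBp.le

/-! ### The lower barrier -/

private theorem md_eq (v : Vec n) : MD y a H₀ v = (y v ^ a)⁻¹ • H₀ v := by
  unfold MD
  rw [cr_smul]

private theorem mu_eq (v : Vec n) : MU y a H₀ v = (y v ^ a) • H₀ v := by
  unfold MU
  rw [cr_smul]

private theorem md_le (hB : Brr ρ T y a b c C s H₀) {v : Vec n} (hv : v ∈ Cone n) :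
    MD y a H₀ v ≤ H₀ v := by
  rw [md_eq]
  have h1 : 1 ≤ y v ^ a := one_le_pow₀ (hB.ht.one_le v hv)
  have h2 := rs_mono_left (t_nn (hB.met.pos v hv)) (inv_le_one_of_one_le₀ h1)
  rwa [one_smul] at h2

/-- the lower barrier is in the class -/
private theorem kk_md (hB : Brr ρ T y a b c C s H₀) : KK ρ s y a H₀ 1 (MD y a H₀) := by
  have hy1 : ∀ v ∈ Cone n, 0 < y v ^ a := fun v hv =>
    pow_pos (lt_of_lt_of_le one_pos (hB.ht.one_le v hv)) a
  refine ⟨⟨fun d hd v hv => ?_, ?_, fun v hv => ?_, fun γ v hv => ?_⟩, fun g x => ?_,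
    fun v _ => ?_, fun v hv => ?_⟩
  · rw [md_eq, md_eq, hB.ht.hom d hd v hv, hB.met.hom d hd v hv]
  · have h1 : ContinuousOn (fun v => (y v ^ a)⁻¹) (Cone n) :=
      (hB.ht.cont.pow a).inv₀ fun v hv => (hy1 v hv).ne'
    exact (h1.smul hB.met.cont).congr fun v _ => md_eq v
  · unfold MD
    exact (hB.met.pos v hv).smul (by exact_mod_cast inv_pos.2 (hy1 v hv))
  · rw [md_eq, md_eq, hB.ht.inv _ γ.2 v hv, hB.met.equi γ v hv, mul_smul_comm, smul_mul_assoc]
  · rw [wt_pow_cast, md_eq, md_eq, smul_smul]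
    have pg := orbit_mem g
    have pgx := orbit_mem (g * x)
    have h0 := hy1 _ pg
    have h0x := hy1 _ pgx
    have h1 := harn_real hB.harn g x
    have h2 := rs_mono (inv_pos.2 h0x).le h1
    rw [smul_smul] at h2
    refine h2.trans (rs_mono_left (t_nn (hB.met.pos _ pg)) ?_)
    have h3 : y (act g (base n)) ^ a ≤ wt x ^ (2 * a) * y (act (g * x) (base n)) ^ a := by
      rw [pow_mul, ← mul_pow]
      exact pow_le_pow_left₀ (zero_le_one.trans (hB.ht.one_le _ pg)) (hB.ht.inv_harn g x) a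
    have hw := wt_pow_pos x (2 * a)
    have h4 : (y (act (g * x) (base n)) ^ a)⁻¹ ≤ wt x ^ (2 * a) * (y (act g (base n)) ^ a)⁻¹ := by
      rw [← div_eq_mul_inv, inv_eq_one_div, div_le_div_iff₀ h0x h0, one_mul]
      exact h3
    calc (y (act (g * x) (base n)) ^ a)⁻¹ * wt x ^ (2 * b) ≤
        (wt x ^ (2 * a) * (y (act g (base n)) ^ a)⁻¹) * wt x ^ (2 * b) :=
          mul_le_mul_of_nonneg_right h4 (wt_pow_pos x (2 * b)).le
      _ = wt x ^ (2 * a + 2 * b) * (y (act g (base n)) ^ a)⁻¹ := by rw [pow_add]; ring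
      _ ≤ wt x ^ (2 * s) * (y (act g (base n)) ^ a)⁻¹ := by
          refine mul_le_mul_of_nonneg_right (pow_le_pow_right₀ (one_le_wt x) ?_) (inv_pos.2 h0).le
          have := hB.big
          omega
  · rw [cr_smul, one_smul]
  · rw [cr_smul, one_smul, mu_eq]
    refine (md_le hB hv).trans ?_
    have h1 : 1 ≤ y v ^ a := one_le_pow₀ (hB.ht.one_le v hv)
    have h2 := rs_mono_left (t_nn (hB.met.pos v hv)) h1
    rwa [one_smul] at h2

/-- monotonicity of the averages -/
private theorem p_mono {X Z : Vec n → Mat m} {v : Vec n} (hv : v ∈ Cone n)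
    (hX : ∀ g : SUGroup n, Integrable (fun x => kap s x • X (act (g * x) (base n))) (mu n))
    (hZ : ∀ g : SUGroup n, Integrable (fun x => kap s x • Z (act (g * x) (base n))) (mu n))
    (h : ∀ w ∈ Cone n, X w ≤ Z w) : P s X v ≤ P s Z v := by
  obtain ⟨g, d, hd, rfl⟩ := exists_act_eq hv
  rw [P_smul' s X hd, P_smul' s Z hd, P_orbit, P_orbit]
  exact integral_mono_mat (hX g) (hZ g) (Eventually.of_forall fun x =>
    rs_mono (kap_nonneg s x) (h _ (orbit_mem _)))

private theorem p_smul_int {X : Vec n → Mat m} (r : ℝ) {g : SUGroup n}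
    (hX : Integrable (fun x => kap s x • X (act (g * x) (base n))) (mu n)) :
    Integrable (fun x => kap s x • (fun w => r • X w) (act (g * x) (base n))) (mu n) := by
  refine (hX.smul r).congr (Eventually.of_forall fun x => ?_)
  show r • kap s x • X (act (g * x) (base n)) = kap s x • r • X (act (g * x) (base n))
  rw [smul_comm]

/-- one step of the improvement of the lower barrier, for one of the two metrics -/
private theorem low_step (hB : Brr ρ T y a b c C s H₀) {η : ℝ} (hη : 0 < η) {A : ℝ}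
    {H L : Vec n → Mat m} (hH : KK ρ s y a H₀ A H) (hL : KK ρ s y a H₀ A L)
    (he : ∀ v ∈ Cone n, L v * PA s η y a H₀ H v * L v = PB s η y a H₀ H v) {α lam : ℝ}
    (hα : 0 < α) (hlam : 0 < lam) (hlam1 : lam ≤ 1) (hla : lam ^ 2 * (1 - c / s) ≤ α ^ 2)
    (ha : ∀ v ∈ Cone n, α • MD y a H₀ v ≤ H v) {v : Vec n} (hv : v ∈ Cone n) (hy : T ≤ y v) :
    lam • MD y a H₀ v ≤ L v := by
  have kmd := kk_md hB
  have hM := kmd.met.pos v hv
  have h0p := hB.met.pos v hv
  have hs0 : (0 : ℝ) < s := by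
    have := hB.c_pos.trans hB.c_lt
    exact this
  have hcs : 0 ≤ 1 - c / s := by
    rw [sub_nonneg, div_le_one hs0]
    exact hB.c_lt.le
  have hyp : 0 < y v := lt_of_lt_of_le one_pos (hB.ht.one_le v hv)
  have hth : 0 ≤ th y a v := inv_nonneg.2 (pow_nonneg hyp.le _)
  obtain ⟨o1, o2, -, -⟩ := KK.ops hB hη.le hH
  have hA := o1.pos v hv
  have hu : (lam • MD y a H₀ v).PosDef := by
    rw [← cr_smul]
    exact hM.smul (by exact_mod_cast hlam)
  refine cmp_le hA hu (hL.met.pos v hv) ?_ (he v hv)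
  unfold PA PB
  rw [cr_smul, cr_smul]
  obtain ⟨p1, p2⟩ : ∃ p1 p2 : Mat m, p1 = P s (fun w => (H w)⁻¹) v ∧
      p2 = P s (fun w => (MD y a H₀ w)⁻¹) v := ⟨_, _, rfl, rfl⟩
  have i1 : P s (fun w => (H w)⁻¹) v ≤ α⁻¹ • P s (fun w => (MD y a H₀ w)⁻¹) v := by
    rw [← P_smul]
    refine p_mono hv (fun g => (kk_int hB hH g).2)
      (fun g => p_smul_int (X := fun w => (MD y a H₀ w)⁻¹) α⁻¹ (kk_int hB kmd g).2)
      fun w hw => ?_
    have h1 := inv_le_inv_of_le (by
      rw [← cr_smul]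
      exact (kmd.met.pos w hw).smul (by exact_mod_cast hα)) (ha w hw)
    rwa [rs_inv (kmd.met.pos w hw) hα] at h1
  have i2 : α • P s (MD y a H₀) v ≤ P s H v := by
    rw [← P_smul]
    exact p_mono hv (fun g => p_smul_int (X := MD y a H₀) α (kk_int hB kmd g).1)
      (fun g => (kk_int hB hH g).1) ha
  have i3 := hB.cuspD v hv hy
  rw [cr_smul] at i3
  have hMH : (MD y a H₀ v)ᴴ = MD y a H₀ v := hM.1.eq
  have i4 : MD y a H₀ v * P s (fun w => (H w)⁻¹) v * MD y a H₀ v ≤
      (α⁻¹ * (1 - c / s)) • P s (MD y a H₀) v := by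
    have h1 := conj_le_conj i1 (MD y a H₀ v)
    rw [hMH, mul_smul_comm, smul_mul_assoc] at h1
    have h2 := rs_mono (inv_pos.2 hα).le i3
    rw [smul_smul] at h2
    exact h1.trans h2
  have hPM : 0 ≤ P s (MD y a H₀) v := by
    obtain ⟨g, d, hd, rfl⟩ := exists_act_eq hv
    rw [P_smul' s _ hd, P_orbit]
    exact int_nonneg_mat (kk_int hB kmd g).1 fun x =>
      smul_nonneg_mat (kap_nonneg s x) (t_nn (kmd.met.pos _ (orbit_mem _)))
  have e1 : lam • MD y a H₀ v * (P s (fun w => (H w)⁻¹) v + (η * th y a v) • (H₀ v)⁻¹) *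
      (lam • MD y a H₀ v) = (lam ^ 2) • (MD y a H₀ v * P s (fun w => (H w)⁻¹) v * MD y a H₀ v) +
      (lam ^ 2 * (η * th y a v)) • (MD y a H₀ v * (H₀ v)⁻¹ * MD y a H₀ v) := by
    rw [Matrix.mul_add, Matrix.add_mul]
    simp only [Matrix.smul_mul, Matrix.mul_smul, smul_smul]
    congr 2 <;> ring
  have e2 : MD y a H₀ v * (H₀ v)⁻¹ * MD y a H₀ v = ((y v ^ a)⁻¹ * (y v ^ a)⁻¹) • H₀ v := by
    rw [md_eq]
    simp only [Matrix.smul_mul, Matrix.mul_smul, smul_smul]
    rw [t_mul_inv h0p, Matrix.one_mul]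
  rw [e1, e2, smul_smul]
  have i5 : (lam ^ 2) • (MD y a H₀ v * P s (fun w => (H w)⁻¹) v * MD y a H₀ v) ≤ P s H v := by
    refine le_trans ?_ i2
    have h1 := rs_mono (sq_nonneg lam) i4
    rw [smul_smul] at h1
    refine h1.trans (rs_mono_left hPM ?_)
    have e3 : lam ^ 2 * (α⁻¹ * (1 - c / s)) = (lam ^ 2 * (1 - c / s)) / α := by
      rw [div_eq_mul_inv]
      ring
    rw [e3, div_le_iff₀ hα]
    calc lam ^ 2 * (1 - c / s) ≤ α ^ 2 := hla
      _ = α * α := by ring
  refine add_le_add i5 (rs_mono_left (t_nn h0p) ?_)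
  have h1 : (y v ^ a)⁻¹ ≤ 1 := inv_le_one_of_one_le₀ (one_le_pow₀ (hB.ht.one_le v hv))
  have h2 : 0 ≤ (y v ^ a)⁻¹ := inv_nonneg.2 (pow_nonneg hyp.le _)
  have h3 : (y v ^ a)⁻¹ * (y v ^ a)⁻¹ ≤ 1 := by nlinarith
  have h4 : lam ^ 2 ≤ 1 := pow_le_one₀ hlam.le hlam1
  have h5 : 0 ≤ η * th y a v := mul_nonneg hη.le hth
  calc lam ^ 2 * (η * th y a v) * ((y v ^ a)⁻¹ * (y v ^ a)⁻¹) ≤
      1 * (η * th y a v) * 1 := by
        refine mul_le_mul (mul_le_mul_of_nonneg_right h4 h5) h3 (by positivity) (by linarith)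
    _ = η * th y a v := by ring

/-- A8, second step (lower barrier): if `β H₀ ≤ H, L` on `{y ≤ T}` then `min 1 β • MD ≤ H, L` everywhere. Let `α` be the
largest number with `α MD ≤ H, L` on the cone. In the cusp take `u = λ MD`, `λ = min ((1 - c/s)^(-1/2) α) 1`:
`u (P_s(H⁻¹) + η θ H₀⁻¹) u ≤ λ² α⁻¹ (1 - c/s) P_s MD + η θ λ² H₀ ≤ α P_s MD + η θ H₀ ≤ P_s H + η θ H₀`, so `u ≤ L` (`cmp_le`). -/
theorem PE.lower (hB : Brr ρ T y a b c C s H₀) {η : ℝ} (hη : 0 < η) (hη1 : η ≤ 1)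
    {H L : Vec n → Mat m} (h : PE ρ χ s η y a H₀ H L) {β : ℝ} (hβ : 0 < β)
    (hc : ∀ v ∈ Cone n, y v ≤ T → (β : ℂ) • H₀ v ≤ H v ∧ (β : ℂ) • H₀ v ≤ L v) :
    ∀ v ∈ Cone n, ((min 1 β : ℝ) : ℂ) • MD y a H₀ v ≤ H v ∧
      ((min 1 β : ℝ) : ℂ) • MD y a H₀ v ≤ L v := by
  obtain ⟨A, hH, hL⟩ := h.kk
  have kmd := kk_md hB
  obtain ⟨β', hβ'⟩ : ∃ β' : ℝ, β' = min 1 β := ⟨_, rfl⟩
  have hβ'p : 0 < β' := by rw [hβ']; exact lt_min one_pos hβ
  have hβ'1 : β' ≤ 1 := by rw [hβ']; exact min_le_left _ _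
  have hβ'b : β' ≤ β := by rw [hβ']; exact min_le_right _ _
  have hs0 : (0 : ℝ) < s := hB.c_pos.trans hB.c_lt
  have hcs : 0 < 1 - c / s := by
    rw [sub_pos, div_lt_one hs0]
    exact hB.c_lt
  have hcs1 : 1 - c / s < 1 := by
    have := div_pos hB.c_pos hs0
    linarith
  obtain ⟨κ, hκ⟩ : ∃ κ : ℝ, κ = (Real.sqrt (1 - c / s))⁻¹ := ⟨_, rfl⟩
  have hsq : 0 < Real.sqrt (1 - c / s) := Real.sqrt_pos.2 hcs
  have hκ1 : 1 < κ := by
    rw [hκ]
    refine (one_lt_inv₀ hsq).2 ?_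
    rw [Real.sqrt_lt' one_pos]
    linarith
  have hκ2 : κ ^ 2 * (1 - c / s) = 1 := by
    rw [hκ, inv_pow, Real.sq_sqrt hcs.le, inv_mul_cancel₀ hcs.ne']
  obtain ⟨A', hA'⟩ : ∃ A' : ℝ, A' = max A 1 := ⟨_, rfl⟩
  have hA'1 : 1 ≤ A' := by rw [hA']; exact le_max_right _ _
  have hA'p : 0 < A' := by linarith
  have start : ∀ X : Vec n → Mat m, KK ρ s y a H₀ A X → ∀ v ∈ Cone n,
      A'⁻¹ • MD y a H₀ v ≤ X v := by
    intro X hX v hv
    refine t_move' hA'p ?_
    have h1 := hX.lo v hv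
    rw [cr_smul] at h1
    exact h1.trans (rs_mono_left (t_nn (hX.met.pos v hv)) (by rw [hA']; exact le_max_left _ _))
  have small : ∀ v ∈ Cone n, y v ≤ T → β' • MD y a H₀ v ≤ H v ∧ β' • MD y a H₀ v ≤ L v := by
    intro v hv hy
    obtain ⟨c1, c2⟩ := hc v hv hy
    rw [cr_smul] at c1 c2
    have h1 : β' • MD y a H₀ v ≤ β • H₀ v :=
      (rs_mono hβ'p.le (md_le hB hv)).trans (rs_mono_left (t_nn (hB.met.pos v hv)) hβ'b)
    exact ⟨h1.trans c1, h1.trans c2⟩
  have iter : ∀ k : ℕ, ∀ v ∈ Cone n, (min (κ ^ k * A'⁻¹) β') • MD y a H₀ v ≤ H v ∧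
      (min (κ ^ k * A'⁻¹) β') • MD y a H₀ v ≤ L v := by
    intro k
    induction k with
    | zero =>
      intro v hv
      have hn := t_nn (kmd.met.pos v hv)
      have h1 : (min (κ ^ 0 * A'⁻¹) β') • MD y a H₀ v ≤ A'⁻¹ • MD y a H₀ v :=
        rs_mono_left hn ((min_le_left _ _).trans (by rw [pow_zero, one_mul]))
      exact ⟨h1.trans (start H hH v hv), h1.trans (start L hL v hv)⟩
    | succ k ih =>
      intro v hv
      have hn := t_nn (kmd.met.pos v hv)
      obtain ⟨α, hα⟩ : ∃ α : ℝ, α = min (κ ^ k * A'⁻¹) β' := ⟨_, rfl⟩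
      obtain ⟨lam, hlam⟩ : ∃ lam : ℝ, lam = min (κ ^ (k + 1) * A'⁻¹) β' := ⟨_, rfl⟩
      have hκ0 : 0 < κ := by linarith
      have hαp : 0 < α := by
        rw [hα]
        exact lt_min (by positivity) hβ'p
      have hlp : 0 < lam := by
        rw [hlam]
        exact lt_min (by positivity) hβ'p
      have hl1 : lam ≤ 1 := by
        rw [hlam]
        exact (min_le_right _ _).trans hβ'1
      have hlα : lam ≤ κ * α := by
        rw [hlam, hα, mul_min_of_nonneg _ _ hκ0.le]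
        refine min_le_min (le_of_eq (by ring)) ?_
        nlinarith
      have hla : lam ^ 2 * (1 - c / s) ≤ α ^ 2 := by
        have h1 : lam ^ 2 ≤ (κ * α) ^ 2 := pow_le_pow_left₀ hlp.le hlα 2
        calc lam ^ 2 * (1 - c / s) ≤ (κ * α) ^ 2 * (1 - c / s) :=
              mul_le_mul_of_nonneg_right h1 hcs.le
          _ = α ^ 2 * (κ ^ 2 * (1 - c / s)) := by ring
          _ = α ^ 2 := by rw [hκ2, mul_one]
      rw [← hlam]
      rw [← hα] at ih
      rcases le_total (y v) T with hy | hy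
      · obtain ⟨s1, s2⟩ := small v hv hy
        have h1 : lam • MD y a H₀ v ≤ β' • MD y a H₀ v :=
          rs_mono_left hn (by rw [hlam]; exact min_le_right _ _)
        exact ⟨h1.trans s1, h1.trans s2⟩
      · exact ⟨low_step hB hη hL hH h.eq2 hαp hlp hl1 hla (fun w hw => (ih w hw).2) hv hy,
          low_step hB hη hH hL h.eq1 hαp hlp hl1 hla (fun w hw => (ih w hw).1) hv hy⟩
  obtain ⟨k, hk⟩ := pow_unbounded_of_one_lt (β' * A') hκ1
  have hmin : min (κ ^ k * A'⁻¹) β' = β' := by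
    refine min_eq_right ?_
    rw [← div_eq_mul_inv, le_div_iff₀ hA'p]
    exact hk.le
  intro v hv
  have h1 := iter k v hv
  rw [hmin, hβ'] at h1
  rw [cr_smul]
  exact h1

/-- A8: `τ` is bounded. From `PE.balance`: `c₁ τ ≤ c₂/τ + 2m (1/α) I(y^(-a))`, `α = min 1 (τ/B)` (`PE.lower`). -/
theorem PE.tau_le (hm : 0 < m) (hΓ : Lat Γ χ) (hB : Brr ρ T y a b c C s H₀)
    (hρ : Submodule.span ℂ (Set.range ρ) = ⊤) : ∃ K : ℝ, ∀ η : ℝ, 0 < η → η ≤ 1 →
      ∀ H L : Vec n → Mat m, PE ρ χ s η y a H₀ H L → (H (base n)).trace.re ≤ K := by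
  obtain ⟨R, hR⟩ : ∃ R : ℝ, R = max T (16 * y (base n)) := ⟨_, rfl⟩
  obtain ⟨B, hB1, hcore⟩ := PE.core hm hΓ hB hρ R
  have hBp : 0 < B := by linarith
  have hTR : T ≤ R := by rw [hR]; exact le_max_left _ _
  have hR1 : 1 ≤ R := hB.T_pos.trans hTR
  have hRp : 0 < R := by linarith
  have hmp : (0 : ℝ) < m := by exact_mod_cast hm
  obtain ⟨w0, hw0⟩ : ∃ w0 : ℝ≥0∞, w0 = ∫⁻ g in {g : SUGroup n | ch g ≤ 2},
    ENNReal.ofReal (χ g) ∂(mu n) := ⟨_, rfl⟩
  have hS : MeasurableSet {g : SUGroup n | ch g ≤ 2} := (isCompact_ball 2).isClosed.measurableSet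
  have hw00 : w0 ≠ 0 := by
    rw [hw0]
    refine (setLIntegral_pos_iff hΓ.measurable).2 ?_ |>.ne'
    have e : Function.support (fun g : SUGroup n => ENNReal.ofReal (χ g)) = Set.univ := by
      rw [Set.eq_univ_iff_forall]
      intro x
      exact (ENNReal.ofReal_pos.2 (hΓ.pos x)).ne'
    rw [e, Set.univ_inter]
    exact (ball_two n).1
  have hw0t : w0 ≠ ⊤ := by
    rw [hw0]
    refine ne_top_of_le_ne_top hΓ.LI_one.ne ?_
    unfold LI
    simp only [Pi.one_apply, mul_one]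
    exact setLIntegral_le_lintegral _ _
  have hI := hΓ.LI_one.ne
  obtain ⟨w, hw⟩ : ∃ w : ℝ, w = w0.toReal := ⟨_, rfl⟩
  obtain ⟨I, hI'⟩ : ∃ I : ℝ, I = (LI χ 1).toReal := ⟨_, rfl⟩
  have hwp : 0 < w := by rw [hw]; exact ENNReal.toReal_pos hw00 hw0t
  obtain ⟨θ, hθ⟩ : ∃ θ : ℝ, θ = (R ^ (2 * a))⁻¹ := ⟨_, rfl⟩
  have hθp : 0 < θ := by rw [hθ]; positivity
  refine ⟨max B (2 * m * I / (θ * (m / B) * w)), fun η hη hη1 H L h => ?_⟩
  obtain ⟨A, hH, hL⟩ := h.kk
  obtain ⟨hτ, hcr⟩ := hcore η hη hη1 H L h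
  obtain ⟨τ, hτ'⟩ : ∃ τ : ℝ, τ = (H (base n)).trace.re := ⟨_, rfl⟩
  rw [← hτ'] at hτ hcr
  rw [← hτ']
  rcases le_total τ B with hle | hle
  · exact hle.trans (le_max_left _ _)
  refine le_trans ?_ (le_max_right _ _)
  have hlow := PE.lower hB hη hη1 h (β := τ / B) (by positivity) (fun v hv hy => by
    obtain ⟨⟨c1, c2⟩, -⟩ := hcr v hv (hy.trans hTR)
    rw [cr_smul] at c1 c2
    rw [cr_smul]
    have e : (τ / B) = (B / τ)⁻¹ := by rw [inv_div]
    rw [e]
    exact ⟨t_move' (by positivity) c1, t_move' (by positivity) c2⟩)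
  have hmin : min 1 (τ / B) = 1 := min_eq_left ((one_le_div hBp).2 hle)
  rw [hmin] at hlow
  have hbal := PE.balance hΓ hB hη hη1 h
  -- upper bound of the right side
  have hup : LI χ (fun g => ENNReal.ofReal (th y a (act g (base n))) *
        (tq (H (act g (base n))) (H₀ (act g (base n))) +
          tq (L (act g (base n))) (H₀ (act g (base n))))) ≤ ENNReal.ofReal (2 * m * I) := by
    have h1 : ∀ g : SUGroup n, ENNReal.ofReal (th y a (act g (base n))) *
        (tq (H (act g (base n))) (H₀ (act g (base n))) +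
          tq (L (act g (base n))) (H₀ (act g (base n)))) ≤
        ENNReal.ofReal (2 * m) * (1 : SUGroup n → ℝ≥0∞) g := by
      intro g
      have pg := orbit_mem g
      have h1 := hB.ht.one_le _ pg
      obtain ⟨l1, l2⟩ := hlow _ pg
      rw [Complex.ofReal_one, one_smul, md_eq] at l1 l2
      have hya : 0 < y (act g (base n)) ^ a := by positivity
      have u1 := t_le (hH.met.pos _ pg) (t_move hya l1)
      have u2 := t_le (hL.met.pos _ pg) (t_move hya l2)
      have hth : 0 ≤ th y a (act g (base n)) := inv_nonneg.2 (by positivity)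
      unfold tq
      rw [← ENNReal.ofReal_add (t_nonneg (hH.met.pos _ pg) (hB.met.pos _ pg))
        (t_nonneg (hL.met.pos _ pg) (hB.met.pos _ pg)), ← ENNReal.ofReal_mul hth, Pi.one_apply,
        mul_one]
      refine ENNReal.ofReal_le_ofReal ?_
      have h3 : th y a (act g (base n)) * (y (act g (base n)) ^ a) ≤ 1 := by
        unfold th
        rw [inv_mul_le_iff₀ (by positivity), mul_one]
        exact pow_le_pow_right₀ h1 (by omega)
      calc th y a (act g (base n)) * (((H (act g (base n)))⁻¹ * H₀ (act g (base n))).trace.re +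
            ((L (act g (base n)))⁻¹ * H₀ (act g (base n))).trace.re)
          ≤ th y a (act g (base n)) * (y (act g (base n)) ^ a * m + y (act g (base n)) ^ a * m) :=
            mul_le_mul_of_nonneg_left (add_le_add u1 u2) hth
        _ = (th y a (act g (base n)) * (y (act g (base n)) ^ a)) * (2 * m) := by ring
        _ ≤ 1 * (2 * m) := mul_le_mul_of_nonneg_right h3 (by positivity)
        _ = 2 * m := one_mul _
    refine (LI_mono h1).trans ?_
    rw [LI_const_mul hΓ _ measurable_one.aemeasurable, hI',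
      ENNReal.ofReal_mul (by positivity : (0 : ℝ) ≤ 2 * m), ENNReal.ofReal_toReal hI]
  -- lower bound of the left side
  have hlo : ENNReal.ofReal (θ * (m / B) * τ * w) ≤
      LI χ (fun g => ENNReal.ofReal (th y a (act g (base n))) *
        (tq (H₀ (act g (base n))) (H (act g (base n))) +
          tq (H₀ (act g (base n))) (L (act g (base n))))) := by
    have h1 : ENNReal.ofReal (θ * (m / B) * τ * w) =
        ∫⁻ g in {g : SUGroup n | ch g ≤ 2}, ENNReal.ofReal (χ g) *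
          ENNReal.ofReal (θ * (m / B) * τ) ∂(mu n) := by
      rw [lintegral_mul_const _ hΓ.measurable, ← hw0, mul_comm, hw,
        ENNReal.ofReal_mul ENNReal.toReal_nonneg, ENNReal.ofReal_toReal hw0t]
    rw [h1]
    unfold LI
    refine le_trans ?_ (setLIntegral_le_lintegral {g : SUGroup n | ch g ≤ 2} _)
    refine setLIntegral_mono' hS fun g hg => ?_
    have hg' : ch g ≤ 2 := hg
    refine mul_le_mul_right ?_ _
    have pg := orbit_mem g
    have h1 := hB.ht.one_le _ pg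
    have hwg : wt g ≤ 4 := (wt_le g).trans (by linarith)
    have hyR : y (act g (base n)) ≤ R := by
      have h2 := hB.ht.harn 1 g
      rw [one_mul, act_one] at h2
      have hb := hB.ht.one_le _ (base_mem n)
      have h3 : wt g ^ 2 ≤ 16 := by
        have := one_le_wt g
        nlinarith
      rw [hR]
      refine le_trans (h2.trans (mul_le_mul_of_nonneg_right h3 (by linarith))) (le_max_right _ _)
    obtain ⟨⟨c1, -⟩, -⟩ := hcr _ pg hyR
    rw [cr_smul] at c1
    have c2 : (τ / B) • H₀ (act g (base n)) ≤ H (act g (base n)) := by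
      have e : (τ / B) = (B / τ)⁻¹ := by rw [inv_div]
      rw [e]
      exact t_move' (by positivity) c1
    have c3 := t_ge (hB.met.pos _ pg) c2
    have hthl : θ ≤ th y a (act g (base n)) := by
      rw [hθ]
      unfold th
      exact inv_anti₀ (by positivity) (pow_le_pow_left₀ (by linarith) hyR _)
    have c4 : ENNReal.ofReal (θ * (m / B) * τ) ≤ ENNReal.ofReal (th y a (act g (base n))) *
        tq (H₀ (act g (base n))) (H (act g (base n))) := by
      unfold tq
      rw [← ENNReal.ofReal_mul (hθp.le.trans hthl)]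
      refine ENNReal.ofReal_le_ofReal ?_
      calc θ * (m / B) * τ = θ * (τ / B * m) := by ring
        _ ≤ _ := mul_le_mul hthl c3 (by positivity) (hθp.le.trans hthl)
    exact c4.trans (mul_le_mul_right le_self_add _)
  have hfin := hlo.trans (hbal.le.trans hup)
  have hI0 : 0 ≤ I := by rw [hI']; exact ENNReal.toReal_nonneg
  rw [ENNReal.ofReal_le_ofReal_iff (by positivity)] at hfin
  rw [le_div_iff₀ (by positivity)]
  calc τ * (θ * (m / B) * w) = θ * (m / B) * τ * w := by ring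
    _ ≤ _ := hfin

private theorem dual_span (ρ : Γ →* Mat m) (hρ : Submodule.span ℂ (Set.range ρ) = ⊤) :
    Submodule.span ℂ (Set.range (HM.dual ρ)) = ⊤ := by
  rw [eq_top_iff]
  intro A _
  have h1 : Aᴴ ∈ Submodule.span ℂ (Set.range ρ) := by rw [hρ]; exact Submodule.mem_top
  have key : ∀ X ∈ Submodule.span ℂ (Set.range ρ),
      Xᴴ ∈ Submodule.span ℂ (Set.range (HM.dual ρ)) := by
    intro X hX
    induction hX using Submodule.span_induction with
    | mem x hx =>
      obtain ⟨γ, rfl⟩ := hx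
      refine Submodule.subset_span ⟨γ⁻¹, ?_⟩
      show (ρ γ⁻¹⁻¹)ᴴ = _
      rw [inv_inv]
    | zero => rw [conjTranspose_zero]; exact Submodule.zero_mem _
    | add x z _ _ hx hz => rw [conjTranspose_add]; exact Submodule.add_mem _ hx hz
    | smul r x _ hx => rw [conjTranspose_smul]; exact Submodule.smul_mem _ _ hx
  have h2 := key _ h1
  rwa [conjTranspose_conjTranspose] at h2

/-- the uniform upper bound -/
private theorem unif_hi (hm : 0 < m) (hΓ : Lat Γ χ) (hB : Brr ρ T y a b c C s H₀)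
    (hρ : Submodule.span ℂ (Set.range ρ) = ⊤) : ∃ D : ℝ, 1 ≤ D ∧ ∀ η : ℝ, 0 < η → η ≤ 1 →
      ∀ H L : Vec n → Mat m, PE ρ χ s η y a H₀ H L →
        ∀ v ∈ Cone n, H v ≤ D • MU y a H₀ v ∧ L v ≤ D • MU y a H₀ v := by
  obtain ⟨B, hB1, hcore⟩ := PE.core hm hΓ hB hρ T
  obtain ⟨K₀, hK₀⟩ := PE.tau_le hm hΓ hB hρ
  obtain ⟨K, hK⟩ : ∃ K : ℝ, K = max K₀ 1 := ⟨_, rfl⟩
  have hK1 : 1 ≤ K := by rw [hK]; exact le_max_right _ _
  have hBK : 1 ≤ B * K := one_le_mul_of_one_le_of_one_le hB1 hK1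
  have hBKp : 0 < B * K := by linarith
  refine ⟨B * K, hBK, fun η hη hη1 H L h => ?_⟩
  obtain ⟨A, hH, hL⟩ := h.kk
  obtain ⟨hτ, hcr⟩ := hcore η hη hη1 H L h
  have hτK : (H (base n)).trace.re ≤ K := (hK₀ η hη hη1 H L h).trans (by
    rw [hK]; exact le_max_left _ _)
  have hd := PE.lower (β := (B * K)⁻¹) hB.dual hη hη1 (PE.dual hB h) (inv_pos.2 hBKp)
    (fun v hv hy => by
      obtain ⟨-, c1, c2⟩ := hcr v hv hy
      rw [cr_smul] at c1 c2
      have h0 := hB.met.pos v hv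
      have n0 := t_nn h0
      have hle : B * (H (base n)).trace.re ≤ B * K :=
        mul_le_mul_of_nonneg_left hτK (by linarith)
      rw [cr_smul]
      exact ⟨t_flip hBKp (hH.met.pos v hv) h0 (c1.trans (rs_mono_left n0 hle)),
        t_flip hBKp (hL.met.pos v hv) h0 (c2.trans (rs_mono_left n0 hle))⟩)
  intro v hv
  obtain ⟨d1, d2⟩ := hd v hv
  have hmin : min 1 (B * K)⁻¹ = (B * K)⁻¹ := min_eq_right (inv_le_one_of_one_le₀ hBK)
  have h0 := hB.met.pos v hv
  have hya : 0 < y v ^ a := pow_pos (lt_of_lt_of_le one_pos (hB.ht.one_le v hv)) a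
  have hr : 0 < B * K * y v ^ a := mul_pos hBKp hya
  have fin : ∀ X : Vec n → Mat m, (X v).PosDef →
      (((min 1 (B * K)⁻¹ : ℝ) : ℂ) • MD y a (fun v => (H₀ v)⁻¹) v ≤ (X v)⁻¹) →
      X v ≤ (B * K) • MU y a H₀ v := by
    intro X hX hle
    rw [hmin, cr_smul, md_eq, smul_smul, ← mul_inv] at hle
    have hpd : ((B * K * y v ^ a)⁻¹ • (H₀ v)⁻¹).PosDef := by
      rw [← cr_smul]
      exact h0.inv.smul (by exact_mod_cast inv_pos.2 hr)
    have h1 := inv_le_inv_of_le hpd hle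
    rw [rs_inv h0.inv (inv_pos.2 hr), inv_inv, inv_inv_pos hX, inv_inv_pos h0] at h1
    rw [mu_eq, smul_smul]
    exact h1
  exact ⟨fin H (hH.met.pos v hv) d1, fin L (hL.met.pos v hv) d2⟩

/-- A8, RESULT: the solutions are in one class `KK D`, for all `η` in `(0, 1]` (`PE.core`, `PE.lower`, `PE.tau_le` and their duals). -/
theorem PE.unif (hm : 0 < m) (hΓ : Lat Γ χ) (hB : Brr ρ T y a b c C s H₀)
    (hρ : Submodule.span ℂ (Set.range ρ) = ⊤) : ∃ D : ℝ, ∀ η : ℝ, 0 < η → η ≤ 1 →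
      ∀ H L : Vec n → Mat m, PE ρ χ s η y a H₀ H L →
        KK ρ s y a H₀ D H ∧ KK ρ s y a H₀ D L := by
  obtain ⟨D₁, hD₁, h1⟩ := unif_hi hm hΓ hB hρ
  obtain ⟨D₂, hD₂, h2⟩ := unif_hi hm hΓ hB.dual (dual_span ρ hρ)
  refine ⟨max D₁ D₂, fun η hη hη1 H L h => ?_⟩
  obtain ⟨A, hH, hL⟩ := h.kk
  have hhi := h1 η hη hη1 H L h
  have hlo := h2 η hη hη1 _ _ (PE.dual hB h)
  have key : ∀ X : Vec n → Mat m, KK ρ s y a H₀ A X →
      (∀ v ∈ Cone n, X v ≤ D₁ • MU y a H₀ v) →
      (∀ v ∈ Cone n, (X v)⁻¹ ≤ D₂ • MU y a (fun v => (H₀ v)⁻¹) v) →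
      KK ρ s y a H₀ (max D₁ D₂) X := by
    intro X hX u l
    refine ⟨hX.met, hX.harn, fun v hv => ?_, fun v hv => ?_⟩
    · have h0 := hB.met.pos v hv
      have pX := hX.met.pos v hv
      have hya : 0 < y v ^ a := pow_pos (lt_of_lt_of_le one_pos (hB.ht.one_le v hv)) a
      have h3 := l v hv
      rw [mu_eq, smul_smul] at h3
      have hD2p : 0 < D₂ := by linarith
      have h4 := t_flip (mul_pos hD2p hya) pX.inv h0.inv h3
      rw [inv_inv_pos h0, inv_inv_pos pX, mul_inv, ← smul_smul, ← md_eq] at h4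
      rw [cr_smul]
      exact (t_move hD2p h4).trans (rs_mono_left (t_nn pX) (le_max_right _ _))
    · rw [cr_smul]
      refine (u v hv).trans (rs_mono_left ?_ (le_max_left _ _))
      rw [mu_eq]
      exact smul_nonneg_mat (pow_nonneg (zero_le_one.trans (hB.ht.one_le v hv)) a)
        (t_nn (hB.met.pos v hv))
  exact ⟨key H hH (fun v hv => (hhi v hv).1) fun v hv => (hlo v hv).1,
    key L hL (fun v hv => (hhi v hv).2) fun v hv => (hlo v hv).2⟩

end Pool.Agent.Lib.MP_5d4057_al.NU
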