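import Pool.Agent.Lib.MP_5d4057_al.NU.LevN3

/-! Level `s`: the critical pair and its growth (blueprint h37_nu, A9). -/

namespace Pool.Agent.Lib.MP_5d4057_al.NU

open Matrix MeasureTheory Filter Topology Pool.Agent.Lib.MP_5d4057_al
  Pool.Agent.Lib.MP_5d4057_al.Hyb Pool.Agent.Lib.MP_5d4057_al.HM

open scoped ComplexOrder MatrixOrder Matrix.Norms.L2Operator ENNReal

variable {n m : ℕ}

variable {Γ : Subgroup (SUGroup n)} {χ : SUGroup n → ℝ}

variable {ρ : Γ →* Mat m} {T : ℝ} {y : Vec n → ℝ} {a b : ℕ} {c C : ℝ} {s : ℕ}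
  {H₀ : Vec n → Mat m}

private theorem l4_cone {p : Vec n → Prop} (h1 : ∀ g : SUGroup n, p (act g (base n)))
    (h2 : ∀ c : ℂ, c ≠ 0 → ∀ v ∈ Cone n, p v → p (c • v)) : ∀ v ∈ Cone n, p v := by
  intro v hv
  obtain ⟨g, c, hc, rfl⟩ := exists_act_eq hv
  exact h2 c hc _ (orbit_mem g) (h1 g)

private theorem l4_mono {s N : ℕ} (hs : n + N < s) {C C' : ℝ} {f f' : Vec n → Mat m}
    (hf : Adm N C f) (hf' : Adm N C' f') (h : ∀ v ∈ Cone n, f v ≤ f' v) :
    ∀ v ∈ Cone n, P s f v ≤ P s f' v := by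
  intro v hv
  obtain ⟨g, c, hc, rfl⟩ := exists_act_eq hv
  rw [P_smul' s f hc, P_smul' s f' hc, P_orbit, P_orbit]
  refine integral_mono_mat (int_adm hs hf g) (int_adm hs hf' g)
    (Eventually.of_forall fun x => ?_)
  exact rs_mono (kap_nonneg s x) (h _ (orbit_mem _))

private theorem l4_pos {s N : ℕ} (hs : n + N < s) {C : ℝ} {f : Vec n → Mat m}
    (hf : Adm N C f) (h : ∀ v ∈ Cone n, (f v).PosDef) :
    ∀ v ∈ Cone n, (P s f v).PosDef := by
  intro v hv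
  obtain ⟨g, c, hc, rfl⟩ := exists_act_eq hv
  rw [P_smul' s f hc, P_orbit]
  exact integral_posDef (int_adm hs hf g)
    (fun x => (h _ (orbit_mem _)).smul (kap_pos (by omega) x)) (NeZero.ne (mu n))

private theorem l4_tendsto {s N : ℕ} (hs : n + N < s) {C : ℝ} {f : ℕ → Vec n → Mat m}
    {f' : Vec n → Mat m} (hf : ∀ k, Adm N C (f k))
    (h : ∀ v ∈ Cone n, Tendsto (fun k => f k v) atTop (𝓝 (f' v))) :
    ∀ v ∈ Cone n, Tendsto (fun k => P s (f k) v) atTop (𝓝 (P s f' v)) := by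
  intro v hv
  obtain ⟨g, c, hc, rfl⟩ := exists_act_eq hv
  simp only [P_smul' s _ hc, P_orbit]
  refine tendsto_integral_of_dominated_convergence
    (fun x => (C * (2 * ch g) ^ (2 * N)) * (kap s x * ch x ^ (2 * N)))
    (fun k => (int_adm hs (hf k) g).aestronglyMeasurable)
    ((integrable_kap_pow hs).const_mul _) (fun k => Eventually.of_forall fun x => ?_)
    (Eventually.of_forall fun x => (h _ (orbit_mem _)).const_smul _)
  have hC := adm_nonneg (hf k)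
  rw [norm_smul, Real.norm_eq_abs, abs_of_nonneg (kap_nonneg s x)]
  have h2 := (hf k).bound (g * x)
  have h3 : ch (g * x) ^ (2 * N) ≤ (2 * ch g * ch x) ^ (2 * N) :=
    pow_le_pow_left₀ (ch_pos _).le (ch_mul_le' g x) _
  have h4 : C * ch (g * x) ^ (2 * N) ≤ C * (2 * ch g * ch x) ^ (2 * N) :=
    mul_le_mul_of_nonneg_left h3 hC
  calc kap s x * ‖f k (act (g * x) (base n))‖ ≤ kap s x * (C * (2 * ch g * ch x) ^ (2 * N)) :=
        mul_le_mul_of_nonneg_left (h2.trans h4) (kap_nonneg s x)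
    _ = (C * (2 * ch g) ^ (2 * N)) * (kap s x * ch x ^ (2 * N)) := by
        rw [mul_pow]
        ring

private theorem l4_tinv {A : ℕ → Mat m} {B : Mat m} (h : Tendsto A atTop (𝓝 B))
    (hB : B.PosDef) : Tendsto (fun k => (A k)⁻¹) atTop (𝓝 B⁻¹) := by
  obtain ⟨u, hu⟩ := hB.isUnit
  have h1 : ContinuousAt Ring.inverse (u : Mat m) := NormedRing.inverse_continuousAt u
  rw [hu] at h1
  have h2 := h1.tendsto.comp h
  simp only [nonsing_inv_eq_ringInverse]
  exact h2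

/-! ### The upper barrier -/

private theorem l4_MU_eq (y : Vec n → ℝ) (a : ℕ) (H₀ : Vec n → Mat m) (v : Vec n) :
    MU y a H₀ v = (y v ^ a) • H₀ v := cr_smul _ _

private theorem l4_y_pos (hy : Ht Γ T y) {v : Vec n} (hv : v ∈ Cone n) : 0 < y v :=
  lt_of_lt_of_le one_pos (hy.one_le v hv)

private theorem l4_MU_met (hy : Ht Γ T y) (hH : Met ρ H₀) : Met ρ (MU y a H₀) where
  hom := fun c hc v hv => by
    rw [l4_MU_eq, l4_MU_eq, hy.hom c hc v hv, hH.hom c hc v hv]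
  cont := by
    have h1 : ContinuousOn (fun v => (y v ^ a) • H₀ v) (Cone n) := (hy.cont.pow a).smul hH.cont
    exact h1.congr fun v _ => l4_MU_eq y a H₀ v
  pos := fun v hv => by
    rw [l4_MU_eq]
    exact (hH.pos v hv).smul (pow_pos (l4_y_pos hy hv) a)
  equi := fun γ v hv => by
    rw [l4_MU_eq, l4_MU_eq, hy.inv γ γ.2 v hv, hH.equi γ v hv, mul_smul_comm, smul_mul_assoc]

private theorem l4_MU_harn (hy : Ht Γ T y) (hH : Met ρ H₀) (hh : Harn (2 * b) H₀) :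
    Harn (2 * (a + b)) (MU y a H₀) := by
  intro g x
  rw [wt_pow_cast, l4_MU_eq, l4_MU_eq]
  have h1 := harn_real hh g x
  have h2 : y (act (g * x) (base n)) ^ a ≤ (wt x ^ 2 * y (act g (base n))) ^ a :=
    pow_le_pow_left₀ (l4_y_pos hy (orbit_mem _)).le (hy.harn g x) a
  have h3 := rs_mono (pow_nonneg (l4_y_pos hy (orbit_mem (g * x))).le a) h1
  have h4 : 0 ≤ wt x ^ (2 * b) • H₀ (act g (base n)) :=
    smul_nonneg_mat (wt_pow_pos x _).le (hH.pos _ (orbit_mem g)).posSemidef.nonneg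
  refine (h3.trans (rs_mono_left h4 h2)).trans (le_of_eq ?_)
  rw [smul_smul, smul_smul]
  congr 1
  rw [mul_pow, ← pow_mul, Nat.mul_add, pow_add]
  ring

private theorem l4_conj {A B : Mat m} (h : A ≤ B) {M : Mat m} (hM : M.IsHermitian) :
    M * A * M ≤ M * B * M := by
  have h1 := conj_le_conj h M
  rwa [hM.eq] at h1


/-- One step in the cusp. -/
private theorem l4_cusp (hB : Brr ρ T y a b c C s H₀) {H L : Vec n → Mat m} (h : Pair ρ s H L)
    {D : ℝ} (hH : KK ρ s y a H₀ D H) {α : ℝ} (hα : 0 < α)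
    (h1 : ∀ v ∈ Cone n, H v ≤ (α : ℂ) • MU y a H₀ v) {v : Vec n} (hv : v ∈ Cone n)
    (hT : T ≤ y v) : L v ≤ ((α * Real.sqrt (1 - c / s) : ℝ) : ℂ) • MU y a H₀ v := by
  have hM := l4_MU_met (a := a) hB.ht hB.met
  obtain ⟨C1, -, a1, a2⟩ := adm_of_harn hM (l4_MU_harn (a := a) hB.ht hB.met hB.harn)
  obtain ⟨C2, hC2⟩ := KK.adm hB D
  obtain ⟨b1, b2⟩ := hC2 H hH
  have hs : n + (a + b) < s := by have := hB.big; omega
  have hs0 : (0 : ℝ) < s := by
    have := hB.c_pos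
    have := hB.c_lt
    linarith
  have hθ : 0 < 1 - c / s := by
    rw [sub_pos, div_lt_one hs0]
    exact hB.c_lt
  obtain ⟨θ, hθd⟩ : ∃ θ : ℝ, θ = Real.sqrt (1 - c / s) := ⟨_, rfl⟩
  have hθ0 : 0 < θ := by rw [hθd]; exact Real.sqrt_pos.2 hθ
  have hθ2 : θ * θ = 1 - c / s := by rw [hθd]; exact Real.mul_self_sqrt hθ.le
  rw [← hθd]
  have hMv : (MU y a H₀ v).PosDef := hM.pos v hv
  -- upper bound of `P s H`
  have u1 : P s H v ≤ α • P s (MU y a H₀) v := by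
    rw [← P_smul]
    have ha : Adm (a + b) (α * C1) fun w => α • MU y a H₀ w := by
      refine ⟨a1.meas.const_smul α, fun g => ?_⟩
      rw [norm_smul, Real.norm_eq_abs, abs_of_pos hα, mul_assoc]
      exact mul_le_mul_of_nonneg_left (a1.bound g) hα.le
    refine l4_mono hs b1 ha (fun w hw => ?_) v hv
    rw [← cr_smul]
    exact h1 w hw
  -- lower bound of `P s H⁻¹`
  have u2 : α⁻¹ • P s (fun w => (MU y a H₀ w)⁻¹) v ≤ P s (fun w => (H w)⁻¹) v := by
    rw [← P_smul]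
    have ha : Adm (a + b) (α⁻¹ * C1) fun w => α⁻¹ • (MU y a H₀ w)⁻¹ := by
      refine ⟨a2.meas.const_smul α⁻¹, fun g => ?_⟩
      rw [norm_smul, Real.norm_eq_abs, abs_of_pos (inv_pos.2 hα), mul_assoc]
      exact mul_le_mul_of_nonneg_left (a2.bound g) (inv_pos.2 hα).le
    refine l4_mono hs ha b2 (fun w hw => ?_) v hv
    have h2 := inv_le_inv_of_le (hH.met.pos w hw) (h1 w hw)
    rw [cr_smul, rs_inv (hM.pos w hw) hα] at h2
    exact h2
  have u3 := hB.cuspU v hv hT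
  rw [cr_smul, ← hθ2] at u3
  have hA := l4_pos hs b2 (fun w hw => (hH.met.pos w hw).inv) v hv
  have hBp := l4_pos hs b1 hH.met.pos v hv
  have hαθ : 0 < α * θ := mul_pos hα hθ0
  rw [cr_smul]
  refine cmp_ge hA (hMv.smul hαθ) (h.metL.pos v hv) hBp ?_ (h.el1 v hv)
  have u4 := l4_conj u2 hMv.isHermitian
  have u5 : (α * θ) • MU y a H₀ v * P s (fun w => (H w)⁻¹) v * (α * θ) • MU y a H₀ v =
      (α * θ * (α * θ)) • (MU y a H₀ v * P s (fun w => (H w)⁻¹) v * MU y a H₀ v) := by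
    rw [smul_mul_assoc, smul_mul_assoc, mul_smul_comm, smul_smul]
  rw [u5]
  have u6 := rs_mono (mul_pos hαθ hαθ).le u4
  have u7 := rs_mono hα.le u3
  refine (u1.trans u7).trans (le_trans (le_of_eq ?_) u6)
  rw [mul_smul_comm, smul_mul_assoc, smul_smul, smul_smul]
  congr 1
  field_simp

/-- Upper barrier: if `H, L ≤ β H₀` on `{y ≤ T}` then `H, L ≤ β MU` everywhere, for a pair in the class. (`α` the least
number with `H, L ≤ α MU`; in the cusp `H, L ≤ (1 - c/s)^(1/2) α MU` by `cuspU` and `cmp_ge`.) -/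
theorem pair_upper (hB : Brr ρ T y a b c C s H₀) {H L : Vec n → Mat m} (h : Pair ρ s H L)
    {D : ℝ} (hH : KK ρ s y a H₀ D H) (hL : KK ρ s y a H₀ D L) {β : ℝ} (hβ : 0 < β)
    (hc : ∀ v ∈ Cone n, y v ≤ T → H v ≤ (β : ℂ) • H₀ v ∧ L v ≤ (β : ℂ) • H₀ v) :
    ∀ v ∈ Cone n, H v ≤ (β : ℂ) • MU y a H₀ v ∧ L v ≤ (β : ℂ) • MU y a H₀ v := by
  have hM := l4_MU_met (a := a) hB.ht hB.met
  have hs0 : (0 : ℝ) < s := by
    have := hB.c_pos
    have := hB.c_lt
    linarith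
  obtain ⟨θ, hθd⟩ : ∃ θ : ℝ, θ = Real.sqrt (1 - c / s) := ⟨_, rfl⟩
  have hθ0 : 0 ≤ θ := by rw [hθd]; exact Real.sqrt_nonneg _
  have hθ1 : θ < 1 := by
    rw [hθd, Real.sqrt_lt' one_pos, one_pow, sub_lt_self_iff]
    exact div_pos hB.c_pos hs0
  have key : ∀ k : ℕ, ∀ v ∈ Cone n, H v ≤ ((max β (θ ^ k * max D 1) : ℝ) : ℂ) • MU y a H₀ v ∧
      L v ≤ ((max β (θ ^ k * max D 1) : ℝ) : ℂ) • MU y a H₀ v := by
    intro k
    induction k with
    | zero =>
      intro v hv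
      have h1 : D ≤ max β (θ ^ 0 * max D 1) := by
        rw [pow_zero, one_mul]
        exact (le_max_left D 1).trans (le_max_right _ _)
      have h2 := rs_mono_left (hM.pos v hv).posSemidef.nonneg h1
      rw [← cr_smul, ← cr_smul] at h2
      exact ⟨(hH.hi v hv).trans h2, (hL.hi v hv).trans h2⟩
    | succ k ih =>
      intro v hv
      obtain ⟨α, hα⟩ : ∃ α : ℝ, α = max β (θ ^ k * max D 1) := ⟨_, rfl⟩
      have hα0 : 0 < α := by rw [hα]; exact lt_max_of_lt_left hβ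
      rw [← hα] at ih
      rcases le_total (y v) T with hv1 | hv1
      · have h2 : H₀ v ≤ MU y a H₀ v := by
          rw [l4_MU_eq]
          have h3 := rs_mono_left (hB.met.pos v hv).posSemidef.nonneg
            (one_le_pow₀ (hB.ht.one_le v hv) : (1 : ℝ) ≤ y v ^ a)
          rwa [one_smul] at h3
        have h3 := rs_mono hβ.le h2
        have h4 := rs_mono_left (hM.pos v hv).posSemidef.nonneg
          (le_max_left β (θ ^ (k + 1) * max D 1))
        have h5 := h3.trans h4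
        rw [← cr_smul, ← cr_smul] at h5
        exact ⟨(hc v hv hv1).1.trans h5, (hc v hv hv1).2.trans h5⟩
      · have h2 : α * θ ≤ max β (θ ^ (k + 1) * max D 1) := by
          rw [hα, max_mul_of_nonneg _ _ hθ0]
          refine max_le_max ?_ (le_of_eq ?_)
          · exact mul_le_of_le_one_right hβ.le hθ1.le
          · rw [pow_succ]
            ring
        have h3 := rs_mono_left (hM.pos v hv).posSemidef.nonneg h2
        rw [← cr_smul, ← cr_smul] at h3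
        have h4 := l4_cusp hB h hH hα0 (fun w hw => (ih w hw).1) hv hv1
        have h5 := l4_cusp hB ⟨h.metL, h.metH, h.el2, h.el1⟩ hL hα0 (fun w hw => (ih w hw).2)
          hv hv1
        rw [← hθd] at h4 h5
        exact ⟨h5.trans h3, h4.trans h3⟩
  have h1 : Tendsto (fun k : ℕ => θ ^ k * max D 1) atTop (𝓝 (0 * max D 1)) :=
    (tendsto_pow_atTop_nhds_zero_of_lt_one hθ0 hθ1).mul_const _
  rw [zero_mul] at h1
  obtain ⟨k, hk⟩ := (h1.eventually (gt_mem_nhds hβ)).exists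
  have h2 := key k
  rw [max_eq_left hk.le] at h2
  exact h2


/-! ### The energy -/

private theorem l4_tq {A B : Mat m} (hA : A.PosDef) (hB : B.PosDef) :
    tq A B + tq B A = ENNReal.ofReal (2 * m) + ENNReal.ofReal (sig A B) := by
  have h1 : 0 ≤ (A⁻¹ * B).trace.re := trace_mul_nonneg hA.inv.posSemidef hB.posSemidef
  have h2 : 0 ≤ (B⁻¹ * A).trace.re := trace_mul_nonneg hB.inv.posSemidef hA.posSemidef
  rw [tq, tq, ← ENNReal.ofReal_add h1 h2, ← ENNReal.ofReal_add (by positivity)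
    (sig_nonneg hA hB), sig, Complex.add_re]
  congr 1
  ring

private theorem l4_lint_kap (hs : n < s) : ∫⁻ x : SUGroup n, ENNReal.ofReal (kap s x) ∂(mu n) = 1 := by
  rw [← ofReal_integral_eq_lintegral_ofReal (integrable_kap hs)
    (Eventually.of_forall fun x => kap_nonneg s x), integral_kap hs, ENNReal.ofReal_one]

private theorem l4_J0 (hΓ : Lat Γ χ) (hs : n < s) {H L : Vec n → Mat m} (hH : Met ρ H)
    (hL : Met ρ L) : J0 χ s H L = ENNReal.ofReal (2 * m) * LI χ 1 + LE χ s H L := by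
  have h1 : ∀ g : SUGroup n, ∫⁻ x, ENNReal.ofReal (kap s x) *
      (tq (L (act g (base n))) (H (act (g * x) (base n))) +
        tq (H (act (g * x) (base n))) (L (act g (base n)))) ∂(mu n) =
      ENNReal.ofReal (2 * m) * (1 : SUGroup n → ℝ≥0∞) g + ∫⁻ x, ENNReal.ofReal (kap s x) *
        ENNReal.ofReal (sig (L (act g (base n))) (H (act (g * x) (base n)))) ∂(mu n) := by
    intro g
    have e1 : ∀ x : SUGroup n, ENNReal.ofReal (kap s x) *
        (tq (L (act g (base n))) (H (act (g * x) (base n))) +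
          tq (H (act (g * x) (base n))) (L (act g (base n)))) =
        ENNReal.ofReal (2 * m) * ENNReal.ofReal (kap s x) + ENNReal.ofReal (kap s x) *
          ENNReal.ofReal (sig (L (act g (base n))) (H (act (g * x) (base n)))) := by
      intro x
      rw [l4_tq (hL.pos _ (orbit_mem _)) (hH.pos _ (orbit_mem _)), mul_add, mul_comm]
    simp only [e1]
    have hm : Measurable fun x : SUGroup n => ENNReal.ofReal (kap s x) :=
      (continuous_kap s).measurable.ennreal_ofReal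
    rw [lintegral_add_left (hm.const_mul _), lintegral_const_mul _ hm, l4_lint_kap hs,
      Pi.one_apply]
  unfold J0
  simp only [h1]
  rw [LI_add hΓ (by simp), LI_const_mul hΓ _ (f := 1) aemeasurable_one]
  rfl

/-- `J0 = LE + 2m I(1)`, and `LE(H₀, H₀) ≤ C'/s` (`LevC.sig_harn`), `C'` depends on `m, b, n, χ` only. -/
theorem LE_le (m b : ℕ) (hΓ : Lat Γ χ) : ∃ (s₂ : ℕ) (C' : ℝ), 0 < C' ∧ ∀ (ρ : Γ →* Mat m)
    (T : ℝ) (y : Vec n → ℝ) (a : ℕ) (c C : ℝ) (s : ℕ) (H₀ H L : Vec n → Mat m), s₂ ≤ s →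
    Brr ρ T y a b c C s H₀ → Met ρ H → Met ρ L → J0 χ s H L ≤ J0 χ s H₀ H₀ →
      LE χ s H L ≤ ENNReal.ofReal (C' / s) := by
  obtain ⟨C1, hC1, hsig⟩ := sig_avg n m b
  refine ⟨0, C1 * (LI χ 1).toReal + 1, by positivity, ?_⟩
  intro ρ T y a c C s H₀ H L _ hB hH hL hJ
  have hbig := hB.big
  rw [l4_J0 hΓ (by omega) hH hL, l4_J0 hΓ (by omega) hB.met hB.met] at hJ
  have hI := hΓ.LI_one
  have hfin : ENNReal.ofReal (2 * m) * LI χ 1 ≠ ⊤ :=
    ENNReal.mul_ne_top ENNReal.ofReal_ne_top hI.ne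
  have h1 : LE χ s H L ≤ LE χ s H₀ H₀ := (ENNReal.add_le_add_iff_left hfin).1 hJ
  have hs0 : (0 : ℝ) < s := by
    have := hB.c_pos
    have := hB.c_lt
    linarith
  have h2 : ∀ g : SUGroup n, ∫⁻ x, ENNReal.ofReal (kap s x) *
      ENNReal.ofReal (sig (H₀ (act g (base n))) (H₀ (act (g * x) (base n)))) ∂(mu n) ≤
      ENNReal.ofReal (C1 / s) * (1 : SUGroup n → ℝ≥0∞) g := by
    intro g
    obtain ⟨i1, i2⟩ := hsig s (by omega) H₀ hB.met.pos hB.met.cont hB.harn g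
    have e1 : ∀ x : SUGroup n, ENNReal.ofReal (kap s x) *
        ENNReal.ofReal (sig (H₀ (act g (base n))) (H₀ (act (g * x) (base n)))) =
        ENNReal.ofReal (kap s x * sig (H₀ (act g (base n))) (H₀ (act (g * x) (base n)))) :=
      fun x => (ENNReal.ofReal_mul (kap_nonneg s x)).symm
    simp only [e1]
    rw [← ofReal_integral_eq_lintegral_ofReal i1 (Eventually.of_forall fun x =>
      mul_nonneg (kap_nonneg s x) (sig_nonneg (hB.met.pos _ (orbit_mem _))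
        (hB.met.pos _ (orbit_mem _)))), Pi.one_apply, mul_one]
    exact ENNReal.ofReal_le_ofReal i2
  have h3 : LE χ s H₀ H₀ ≤ ENNReal.ofReal (C1 / s) * LI χ 1 := by
    unfold LE
    refine (LI_mono h2).trans (le_of_eq ?_)
    exact LI_const_mul hΓ _ aemeasurable_const
  refine (h1.trans h3).trans ?_
  have e2 : LI χ 1 = ENNReal.ofReal (LI χ 1).toReal := (ENNReal.ofReal_toReal hI.ne).symm
  rw [e2, ← ENNReal.ofReal_mul (by positivity)]
  refine ENNReal.ofReal_le_ofReal ?_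
  rw [ENNReal.toReal_ofReal ENNReal.toReal_nonneg, div_mul_eq_mul_div]
  gcongr
  linarith


/-! ### The limit -/

private theorem l4_ops (hB : Brr ρ T y a b c C s H₀) {D : ℝ} {H L : ℕ → Vec n → Mat m}
    {H' L' : Vec n → Mat m} {η : ℕ → ℝ} (hη : Tendsto η atTop (𝓝 0))
    (hH : ∀ k, KK ρ s y a H₀ D (H k)) (hH' : KK ρ s y a H₀ D H')
    (tH : ∀ v ∈ Cone n, Tendsto (fun k => H k v) atTop (𝓝 (H' v)))
    (tL : ∀ v ∈ Cone n, Tendsto (fun k => L k v) atTop (𝓝 (L' v)))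
    (he : ∀ k, ∀ v ∈ Cone n, L k v * PA s (η k) y a H₀ (H k) v * L k v =
      PB s (η k) y a H₀ (H k) v) :
    ∀ v ∈ Cone n, L' v * P s (fun w => (H' w)⁻¹) v * L' v = P s H' v := by
  intro v hv
  have hs : n + (a + b) < s := by have := hB.big; omega
  obtain ⟨C', hC'⟩ := KK.adm hB D
  have t1 := l4_tendsto hs (fun k => (hC' (H k) (hH k)).1) tH v hv
  have t2 := l4_tendsto hs (fun k => (hC' (H k) (hH k)).2)
    (fun w hw => l4_tinv (tH w hw) (hH'.met.pos w hw)) v hv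
  have t3 : ∀ A : Mat m, Tendsto (fun k => ((η k * th y a v : ℝ) : ℂ) • A) atTop (𝓝 0) := by
    intro A
    have h1 : Tendsto (fun k => (η k * th y a v) • A) atTop (𝓝 ((0 * th y a v) • A)) :=
      (hη.mul_const _).smul_const A
    rw [zero_mul, zero_smul] at h1
    simp only [cr_smul]
    exact h1
  have t4 : Tendsto (fun k => PA s (η k) y a H₀ (H k) v) atTop
      (𝓝 (P s (fun w => (H' w)⁻¹) v + 0)) := t2.add (t3 _)
  have t5 : Tendsto (fun k => PB s (η k) y a H₀ (H k) v) atTop (𝓝 (P s H' v + 0)) :=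
    t1.add (t3 _)
  rw [add_zero] at t4 t5
  have t6 := ((tL v hv).mul t4).mul (tL v hv)
  refine tendsto_nhds_unique t6 (t5.congr fun k => ?_)
  exact (he k v hv).symm

/-- The limit `η = 1/(k+1) → 0` (`KK.compact`, dominated convergence for `P_s`, Fatou for `J0`). -/
theorem exists_pair_N (hm : 0 < m) (hΓ : Lat Γ χ) (hB : Brr ρ T y a b c C s H₀)
    (hρ : Submodule.span ℂ (Set.range ρ) = ⊤) : ∃ (D : ℝ) (H L : Vec n → Mat m),
      Pair ρ s H L ∧ KK ρ s y a H₀ D H ∧ KK ρ s y a H₀ D L ∧ J0 χ s H L ≤ J0 χ s H₀ H₀ := by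
  obtain ⟨η, hη⟩ : ∃ η : ℕ → ℝ, ∀ k, η k = 1 / ((k : ℝ) + 1) := ⟨_, fun _ => rfl⟩
  have hη0 : ∀ k, 0 < η k := fun k => by rw [hη]; positivity
  have hη1 : ∀ k, η k ≤ 1 := fun k => by
    rw [hη, div_le_one (by positivity)]
    linarith [(Nat.cast_nonneg k : (0 : ℝ) ≤ k)]
  have hηt : Tendsto η atTop (𝓝 0) :=
    (tendsto_one_div_add_atTop_nhds_zero_nat).congr fun k => (hη k).symm
  choose H L hPE using fun k => exists_PE hΓ hB (hη0 k) (hη1 k)
  obtain ⟨D, hD⟩ := PE.unif hm hΓ hB hρ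
  have hDk := fun k => hD (η k) (hη0 k) (hη1 k) (H k) (L k) (hPE k)
  obtain ⟨φ, H', hφ, hH', tH⟩ := KK.compact hB H fun k => (hDk k).1
  obtain ⟨ψ, L', hψ, hL', tL⟩ := KK.compact hB (fun k => L (φ k)) fun k => (hDk (φ k)).2
  have tH' : ∀ v ∈ Cone n, Tendsto (fun k => H (φ (ψ k)) v) atTop (𝓝 (H' v)) := fun v hv =>
    (tH v hv).comp hψ.tendsto_atTop
  have hηt' : Tendsto (fun k => η (φ (ψ k))) atTop (𝓝 0) :=
    hηt.comp (hφ.tendsto_atTop.comp hψ.tendsto_atTop)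
  refine ⟨D, H', L', ⟨hH'.met, hL'.met, ?_, ?_⟩, hH', hL', ?_⟩
  · exact l4_ops hB hηt' (fun k => (hDk (φ (ψ k))).1) hH' tH' tL fun k =>
      (hPE (φ (ψ k))).eq1
  · exact l4_ops hB hηt' (fun k => (hDk (φ (ψ k))).2) hL' tL tH' fun k =>
      (hPE (φ (ψ k))).eq2
  · have h1 : J0 χ s H' L' ≤ liminf (fun k => J0 χ s (H (φ (ψ k))) (L (φ (ψ k)))) atTop :=
      J0_liminf hΓ (fun k => (hDk (φ (ψ k))).1.met) (fun k => (hDk (φ (ψ k))).2.met) hH'.met
        hL'.met tH' tL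
    obtain ⟨K, hK⟩ := JE_self hΓ hB
    have h2 := hK 1 zero_le_one le_rfl
    obtain ⟨Q, hQ⟩ : ∃ Q : ℝ≥0∞, Q = JP χ y a H₀ H₀ + JP χ y a H₀ H₀ := ⟨_, rfl⟩
    have hQf : Q ≠ ⊤ := by
      rw [JE, ENNReal.ofReal_one, one_mul, ← hQ] at h2
      exact ne_top_of_le_ne_top ENNReal.ofReal_ne_top (le_add_self.trans h2)
    have h3 : ∀ k, J0 χ s (H (φ (ψ k))) (L (φ (ψ k))) ≤
        J0 χ s H₀ H₀ + ENNReal.ofReal (η (φ (ψ k))) * Q := by
      intro k
      have h4 := (hPE (φ (ψ k))).le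
      rw [JE, JE, ← hQ] at h4
      exact le_self_add.trans h4
    have h5 : Tendsto (fun k => J0 χ s H₀ H₀ + ENNReal.ofReal (η (φ (ψ k))) * Q) atTop
        (𝓝 (J0 χ s H₀ H₀ + ENNReal.ofReal 0 * Q)) := by
      refine Tendsto.const_add _ ?_
      exact ENNReal.Tendsto.mul_const (ENNReal.tendsto_ofReal hηt') (Or.inr hQf)
    rw [ENNReal.ofReal_zero, zero_mul, add_zero] at h5
    refine h1.trans ?_
    rw [← h5.liminf_eq]
    exact liminf_le_liminf (Eventually.of_forall h3)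


/-! ### Growth -/

private theorem l4_trace_mono {A B : Mat m} (h : A ≤ B) : A.trace.re ≤ B.trace.re := by
  have h1 := trace_mul_le h (PosSemidef.one (n := Fin m) (R := ℂ))
  rwa [mul_one, mul_one] at h1

private theorem l4_trace_smul (r : ℝ) (A : Mat m) : (r • A).trace.re = r * A.trace.re := by
  rw [trace_smul, Complex.real_smul, Complex.re_ofReal_mul]

private theorem l4_trace_pos (hm : 0 < m) {A : Mat m} (hA : A.PosDef) : 0 < A.trace.re := by
  have : Nonempty (Fin m) := ⟨⟨0, hm⟩⟩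
  exact (Complex.lt_def.1 hA.trace_pos).1

/-- Inequalities between metrics are invariant. -/
private theorem l4_inv {H K : Vec n → Mat m} (hH : Met ρ H) (hK : Met ρ K) (γ : Γ) {v : Vec n}
    (hv : v ∈ Cone n) {r : ℝ} (h : H (act (γ : SUGroup n) v) ≤ r • K (act (γ : SUGroup n) v)) :
    H v ≤ r • K v := by
  have h1 : ρ γ⁻¹ * ρ γ = 1 := by rw [← map_mul, inv_mul_cancel, map_one]
  have key : ∀ A : Mat m, ρ γ⁻¹ * (ρ γ * A * (ρ γ)ᴴ) * (ρ γ⁻¹)ᴴ = A := by
    intro A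
    calc ρ γ⁻¹ * (ρ γ * A * (ρ γ)ᴴ) * (ρ γ⁻¹)ᴴ =
        (ρ γ⁻¹ * ρ γ) * A * (ρ γ⁻¹ * ρ γ)ᴴ := by
          rw [conjTranspose_mul]
          simp only [Matrix.mul_assoc]
      _ = A := by rw [h1, conjTranspose_one, Matrix.one_mul, Matrix.mul_one]
  have h2 := conj_le_conj h (ρ γ⁻¹)
  rw [hH.equi γ v hv, hK.equi γ v hv, mul_smul_comm, smul_mul_assoc, key, key] at h2
  exact h2

private theorem l4_up (hm : 0 < m) {F₀ : Set (SUGroup n)} (hF : IsCompact F₀)
    (hne : F₀.Nonempty) (hH₀ : Met ρ H₀) (hh : Harn (2 * b) H₀) (hy : Ht Γ T y) (a : ℕ)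
    (hcov : ∀ g : SUGroup n, y (act g (base n)) ≤ T → ∃ γ ∈ Γ, γ * g ∈ F₀) :
    ∃ C₁ : ℝ, 0 < C₁ ∧ ∀ (c C : ℝ) (s : ℕ) (D : ℝ) (H L : Vec n → Mat m),
      Brr ρ T y a b c C s H₀ → Pair ρ s H L → KK ρ s y a H₀ D H → KK ρ s y a H₀ D L →
      ∀ K : ℝ, (∀ g ∈ F₀, (H (act g (base n)) + L (act g (base n))).trace.re ≤ K) →
        0 < K ∧ ∀ g : SUGroup n, (H (act g (base n)) + L (act g (base n))).trace.re ≤
          C₁ * K * ch g ^ (2 * (a + b)) := by
  have hM := l4_MU_met (a := a) hy hH₀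
  have hMh := l4_MU_harn (a := a) hy hH₀ hh
  -- the lower bound of `H₀` on `F₀`
  obtain ⟨κ, hκ⟩ : ∃ κ : ℝ, 0 < κ ∧ ∀ g ∈ F₀, (1 : Mat m) ≤ κ • H₀ (act g (base n)) := by
    have hc : Continuous fun g : SUGroup n => ((H₀ (act g (base n)))⁻¹).trace.re :=
      Complex.continuous_re.comp (continuous_orbit_of (met_inv hH₀).cont).matrix_trace
    obtain ⟨M, hMb⟩ := hF.exists_bound_of_continuousOn hc.continuousOn
    refine ⟨|M| + 1, by positivity, fun g hg => ?_⟩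
    have hp := hH₀.pos _ (orbit_mem g)
    have h1 := le_trace_smul_one hp.inv.posSemidef
    have h2 : ((H₀ (act g (base n)))⁻¹).trace.re ≤ |M| + 1 := by
      have h3 := (le_abs_self _).trans (hMb g hg)
      have h4 := le_abs_self M
      linarith
    rw [cr_smul] at h1
    have h3 := h1.trans (rs_mono_left PosSemidef.one.nonneg h2)
    have h4 := inv_le_inv_of_le hp.inv h3
    rw [inv_inv_pos hp, rs_inv PosDef.one (by positivity), inv_one] at h4
    have h5 := rs_mono (by positivity : (0 : ℝ) ≤ |M| + 1) h4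
    rwa [smul_smul, mul_inv_cancel₀ (by positivity), one_smul] at h5
  obtain ⟨hκ0, hκ1⟩ := hκ
  have hτ := l4_trace_pos hm (hM.pos _ (base_mem n))
  refine ⟨2 * κ * (2 : ℝ) ^ (2 * (a + b)) * (MU y a H₀ (base n)).trace.re, by positivity, ?_⟩
  intro c C s D H L hB hP hH hL K hK
  have hK0 : 0 < K := by
    obtain ⟨g, hg⟩ := hne
    refine lt_of_lt_of_le ?_ (hK g hg)
    exact l4_trace_pos hm ((hH.met.pos _ (orbit_mem g)).add (hL.met.pos _ (orbit_mem g)))
  refine ⟨hK0, ?_⟩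
  have hβ : 0 < K * κ := mul_pos hK0 hκ0
  have key : ∀ {X Y : Vec n → Mat m}, Met ρ X → Met ρ Y →
      (∀ g ∈ F₀, (X (act g (base n)) + Y (act g (base n))).trace.re ≤ K) →
      ∀ v ∈ Cone n, y v ≤ T → X v ≤ (K * κ) • H₀ v := by
    intro X Y hX hY hXY v hv hyv
    obtain ⟨g, d, hd, rfl⟩ := exists_act_eq hv
    rw [hX.hom d hd _ (orbit_mem g), hH₀.hom d hd _ (orbit_mem g)]
    rw [hy.hom d hd _ (orbit_mem g)] at hyv
    obtain ⟨γ, hγ, hg⟩ := hcov g hyv
    refine l4_inv hX hH₀ ⟨γ, hγ⟩ (orbit_mem g) ?_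
    rw [← act_mul]
    have p1 := hX.pos _ (orbit_mem (γ * g))
    have p2 := hY.pos _ (orbit_mem (γ * g))
    have h1 := le_trace_smul_one p1.posSemidef
    have h2 : (X (act (γ * g) (base n))).trace.re ≤ K := by
      have h3 := hXY _ hg
      rw [trace_add, Complex.add_re] at h3
      have h4 := l4_trace_pos hm p2
      linarith
    rw [cr_smul] at h1
    have h3 := h1.trans (rs_mono_left PosSemidef.one.nonneg h2)
    have h4 := h3.trans (rs_mono hK0.le (hκ1 _ hg))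
    rwa [smul_smul] at h4
  have hup := pair_upper hB hP hH hL hβ (fun v hv hyv => by
    rw [cr_smul]
    refine ⟨key hH.met hL.met hK v hv hyv, key hL.met hH.met (fun g hg => ?_) v hv hyv⟩
    rw [add_comm]
    exact hK g hg)
  intro g
  obtain ⟨h1, h2⟩ := hup _ (orbit_mem g)
  have h3 := harn_real hMh 1 g
  rw [one_mul, act_one] at h3
  have h4 := l4_trace_mono h1
  have h5 := l4_trace_mono h2
  have h6 := l4_trace_mono h3
  rw [cr_smul, l4_trace_smul] at h4 h5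
  rw [l4_trace_smul] at h6
  have h7 : wt g ^ (2 * (a + b)) ≤ (2 * ch g) ^ (2 * (a + b)) :=
    pow_le_pow_left₀ (zero_le_one.trans (one_le_wt g)) (wt_le g) _
  have h8 : (MU y a H₀ (act g (base n))).trace.re ≤
      (2 * ch g) ^ (2 * (a + b)) * (MU y a H₀ (base n)).trace.re :=
    h6.trans (mul_le_mul_of_nonneg_right h7 hτ.le)
  rw [trace_add, Complex.add_re]
  calc _ ≤ K * κ * (MU y a H₀ (act g (base n))).trace.re +
        K * κ * (MU y a H₀ (act g (base n))).trace.re := add_le_add h4 h5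
    _ = 2 * (K * κ) * (MU y a H₀ (act g (base n))).trace.re := by ring
    _ ≤ 2 * (K * κ) * ((2 * ch g) ^ (2 * (a + b)) * (MU y a H₀ (base n)).trace.re) :=
        mul_le_mul_of_nonneg_left h8 (by positivity)
    _ = _ := by
        rw [mul_pow]
        ring

/-- A9, RESULT. `F₀` from `Ht.cpt` with `R = T`, `N = a + b`. -/
theorem exists_PN (hn : 1 ≤ n) (hm : 0 < m) (hΓ : Lat Γ χ) {T : ℝ} {y : Vec n → ℝ}
    (hy : Ht Γ T y) (ρ : Γ →* Mat m) {N₀ : ℕ} {C₀ : ℝ} (hg : Grow ρ N₀ C₀)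
    (hρ : Submodule.span ℂ (Set.range ρ) = ⊤) : ∃ (F₀ : Set (SUGroup n)) (N s₀ : ℕ) (C : ℝ),
      IsCompact F₀ ∧ F₀.Nonempty ∧ 0 < C ∧ ∀ s : ℕ, s₀ ≤ s → ∃ H L : Vec n → Mat m,
        PN ρ χ F₀ N C s H L := by
  obtain ⟨b, s₀, C1, H₀, hbas⟩ := exists_bas hΓ ρ hg
  have hy' : Ht Γ (max T 1) y := hy.mono (le_max_left T 1)
  obtain ⟨a, s₁, c, C2, hbrr⟩ := exists_brr hn hy' (le_max_right T 1) hbas
  obtain ⟨F, hF, hcov⟩ := hy'.cpt (max T 1)
  have hF' : IsCompact (F ∪ {1}) := hF.union isCompact_singleton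
  have hne : (F ∪ {1}).Nonempty := ⟨1, Or.inr rfl⟩
  have hcov' : ∀ g : SUGroup n, y (act g (base n)) ≤ max T 1 → ∃ γ ∈ Γ, γ * g ∈ F ∪ {1} :=
    fun g hg => by
      obtain ⟨γ, h1, h2⟩ := hcov g hg
      exact ⟨γ, h1, Or.inl h2⟩
  obtain ⟨C3, hC3, h3⟩ := l4_up hm hF' hne hbas.met hbas.harn hy' a hcov'
  obtain ⟨C4, hC4, h4⟩ := l4_up hm hF' hne (met_inv hbas.met) (harn_inv hbas.met hbas.harn)
    hy' a hcov'
  obtain ⟨s₂, C5, hC5, h5⟩ := LE_le m b hΓ
  refine ⟨F ∪ {1}, a + b, max s₁ s₂, max C3 (max C4 C5), hF', hne, lt_max_of_lt_left hC3,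
    fun s hs => ?_⟩
  have hB := hbrr s ((le_max_left _ _).trans hs)
  obtain ⟨D, H, L, hP, hH, hL, hJ⟩ := exists_pair_N hm hΓ hB hρ
  obtain ⟨C6, hC6⟩ := KK.adm hB D
  have hch : ∀ g : SUGroup n, 0 ≤ ch g ^ (2 * (a + b)) := fun g =>
    pow_nonneg (zero_le_one.trans (one_le_ch g)) _
  have hs0 : (0 : ℝ) < s := by
    have := hB.c_pos
    have := hB.c_lt
    linarith
  refine ⟨H, L, ⟨hP, hH.harn, hL.harn, ⟨C6, (hC6 H hH).1, (hC6 L hL).1, (hC6 H hH).2,
    (hC6 L hL).2⟩, ?_, ?_, ?_⟩⟩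
  · intro K hK g
    obtain ⟨hK0, h⟩ := h3 c C2 s D H L hB hP hH hL K hK
    refine (h g).trans (mul_le_mul_of_nonneg_right ?_ (hch g))
    exact mul_le_mul_of_nonneg_right (le_max_left _ _) hK0.le
  · intro K hK g
    obtain ⟨hK0, h⟩ := h4 c C2 s D _ _ hB.dual hP.inv (hH.dual hB) (hL.dual hB) K hK
    refine (h g).trans (mul_le_mul_of_nonneg_right ?_ (hch g))
    exact mul_le_mul_of_nonneg_right ((le_max_left _ _).trans (le_max_right _ _)) hK0.le
  · refine (h5 ρ (max T 1) y a c C2 s H₀ H L ((le_max_right _ _).trans hs) hB hH.met hL.met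
      hJ).trans (ENNReal.ofReal_le_ofReal ?_)
    exact div_le_div_of_nonneg_right ((le_max_right _ _).trans (le_max_right _ _)) hs0.le

end Pool.Agent.Lib.MP_5d4057_al.NU
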