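import Mathlib

/-! A group generated by elements with small iterated commutators is nilpotent
(C14 of the blueprint h37_nu). -/

namespace Pool.Agent.Lib.MP_5d4057_al.NU

variable {G : Type*} [Group G]

/-- If the iterated commutators `[s₁, [s₂, ..., [s_k, s]]]` of generators are trivial, the group is
nilpotent. -/
theorem nilpotent_of_comm {S : Set G} (hS : Subgroup.closure S = ⊤) (T : ℕ → Set G)
    (h0 : S ⊆ T 0) (hstep : ∀ j, ∀ s ∈ S, ∀ t ∈ T j, s * t * s⁻¹ * t⁻¹ ∈ T (j + 1)) {k : ℕ}
    (hk : T k ⊆ {1}) : Group.IsNilpotent G := by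
  have key : ∀ j, j ≤ k → T (k - j) ⊆ Subgroup.upperCentralSeries G j := by
    intro j
    induction j with
    | zero =>
      intro _ t ht
      rw [Subgroup.upperCentralSeries_zero]
      rw [Nat.sub_zero] at ht
      exact hk ht
    | succ j ih =>
      intro hj t ht
      have hc : ∀ s ∈ S, s * t * s⁻¹ * t⁻¹ ∈ Subgroup.upperCentralSeries G j := by
        intro s hs
        have h1 := hstep _ s hs t ht
        have h2 : k - (j + 1) + 1 = k - j := by omega
        rw [h2] at h1
        exact ih (by omega) h1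
      -- the elements commuting with `t` modulo the normal subgroup
      have hall : ∀ y : G, y * t * y⁻¹ * t⁻¹ ∈ Subgroup.upperCentralSeries G j := by
        intro y
        have hy : y ∈ Subgroup.closure S := by rw [hS]; exact Subgroup.mem_top y
        induction hy using Subgroup.closure_induction with
        | mem x hx => exact hc x hx
        | one => simp
        | mul x y _ _ hx hy =>
          have h1 := (inferInstance : (Subgroup.upperCentralSeries G j).Normal).conj_mem _ hy x
          have h2 := mul_mem h1 hx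
          have e : x * (y * t * y⁻¹ * t⁻¹) * x⁻¹ * (x * t * x⁻¹ * t⁻¹) =
              x * y * t * (x * y)⁻¹ * t⁻¹ := by group
          rwa [e] at h2
        | inv x _ hx =>
          have h1 := (inferInstance : (Subgroup.upperCentralSeries G j).Normal).conj_mem _
            (inv_mem hx) x⁻¹
          have e : x⁻¹ * (x * t * x⁻¹ * t⁻¹)⁻¹ * x⁻¹⁻¹ = x⁻¹ * t * x⁻¹⁻¹ * t⁻¹ := by group
          rwa [e] at h1
      refine Subgroup.mem_upperCentralSeries_succ_iff.2 fun y => ?_
      have h1 := inv_mem (hall y)
      have e : (y * t * y⁻¹ * t⁻¹)⁻¹ = t * y * t⁻¹ * y⁻¹ := by group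
      rw [e] at h1
      exact h1
  refine ⟨k, ?_⟩
  rw [eq_top_iff, ← hS, Subgroup.closure_le]
  intro s hs
  have := key k le_rfl
  rw [Nat.sub_self] at this
  exact this (h0 hs)

/-- The same with a length function: the commutator of a generator and a small element has at most
half the length of the small element, and there are no nontrivial elements of very small length. -/
theorem nilpotent_of_small {S : Set G} (hS : Subgroup.closure S = ⊤) (d : G → ℝ) {ε δ : ℝ}
    (hε : ∀ s ∈ S, d s ≤ ε) (hδ : 0 < δ) (h1 : ∀ g, d g < δ → g = 1)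
    (hstep : ∀ s ∈ S, ∀ t, d t ≤ ε → d (s * t * s⁻¹ * t⁻¹) ≤ d t / 2) : Group.IsNilpotent G := by
  rcases le_or_gt ε 0 with h0 | h0
  · refine nilpotent_of_comm hS (fun _ => {g | d g ≤ 0}) (fun s hs => (hε s hs).trans h0) ?_ (k := 0)
      (fun g hg => h1 g (lt_of_le_of_lt hg hδ))
    intro _ s hs t ht
    have h3 : d t ≤ 0 := ht
    by_cases h4 : d t ≤ ε
    · have := hstep s hs t h4
      change d _ ≤ 0
      linarith
    · have ht1 : t = 1 := h1 t (lt_of_le_of_lt h3 hδ)
      have e : s * t * s⁻¹ * t⁻¹ = t := by rw [ht1]; group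
      rw [e]
      exact ht
  · obtain ⟨k, hk⟩ := exists_pow_lt_of_lt_one (div_pos hδ h0) (by norm_num : (1 / 2 : ℝ) < 1)
    rw [lt_div_iff₀ h0] at hk
    refine nilpotent_of_comm hS (fun j => {g | d g ≤ (1 / 2) ^ j * ε}) ?_ ?_ (k := k) ?_
    · intro s hs
      change d s ≤ (1 / 2) ^ 0 * ε
      simpa using hε s hs
    · intro j s hs t ht
      have h2 : d t ≤ (1 / 2) ^ j * ε := ht
      have h3 : d t ≤ ε := h2.trans (by
        have : ((1 / 2 : ℝ)) ^ j ≤ 1 := pow_le_one₀ (by norm_num) (by norm_num)
        nlinarith)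
      have h4 := hstep s hs t h3
      change d _ ≤ (1 / 2) ^ (j + 1) * ε
      rw [pow_succ]
      linarith
    · intro g hg
      exact h1 g (lt_of_le_of_lt hg hk)

end Pool.Agent.Lib.MP_5d4057_al.NU
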