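import Mathlib

/-! A nilpotent group of affine isometries with a cobounded orbit consists of translations
(C15 of the blueprint h37_nu). -/

namespace Pool.Agent.Lib.MP_5d4057_al.NU

variable {D V : Type*} [Group D] [NormedAddCommGroup V] [InnerProductSpace ℂ V]

private theorem rot_fix_of_sq {A : V →ₗ[ℂ] V} (hI : ∀ u v, inner ℂ (A u) (A v) = inner ℂ u v) {v : V}
    (h : A (A v - v) - (A v - v) = 0) : A v = v := by
  have h1 : A (A v - v) = A v - v := sub_eq_zero.1 h
  have h2 := hI v (A v - v)
  rw [h1] at h2
  have h3 : inner ℂ (A v - v) (A v - v) = 0 := by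
    rw [inner_sub_left, h2, sub_self]
  rw [inner_self_eq_zero] at h3
  exact sub_eq_zero.1 h3

/-- C15: `D` nilpotent, acting on `V` by the affine isometries `ζ ↦ A x ζ + b x` with a cobounded
orbit of `0`. Then `A x = 1` for all `x`. -/
theorem rot_trivial [hD : Group.IsNilpotent D] (A : D → V →ₗ[ℂ] V) (b : D → V)
    (hA : ∀ x y, A (x * y) = A x ∘ₗ A y) (hA1 : A 1 = LinearMap.id)
    (hI : ∀ x u v, inner ℂ (A x u) (A x v) = inner ℂ u v)
    (hb : ∀ x y, b (x * y) = b x + A x (b y)) {B : ℝ} (hB : ∀ ζ, ∃ x, ‖b x - ζ‖ ≤ B) (x : D) :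
    A x = LinearMap.id := by
  have hA' : ∀ x y v, A (x * y) v = A x (A y v) := fun x y v => by rw [hA]; rfl
  have hb1 : b 1 = 0 := by
    have := hb 1 1
    rw [one_mul, hA1, LinearMap.id_apply, left_eq_add] at this
    exact this
  have hnorm : ∀ x v, ‖A x v‖ = ‖v‖ := fun x v => by
    rw [@norm_eq_sqrt_re_inner ℂ, @norm_eq_sqrt_re_inner ℂ, hI]
  have key : ∀ j : ℕ, ∀ z ∈ Subgroup.upperCentralSeries D j, A z = LinearMap.id := by
    intro j
    induction j with
    | zero =>
      intro z hz
      rw [Subgroup.upperCentralSeries_zero, Subgroup.mem_bot] at hz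
      rw [hz, hA1]
    | succ j ih =>
      -- rotations fix the translations of the elements of the central series
      have hfix : ∀ i : ℕ, i ≤ j → ∀ c ∈ Subgroup.upperCentralSeries D i, ∀ z, A z (b c) = b c := by
        intro i
        induction i with
        | zero =>
          intro _ c hc z
          rw [Subgroup.upperCentralSeries_zero, Subgroup.mem_bot] at hc
          rw [hc, hb1, map_zero]
        | succ i ihi =>
          intro hij c hc z
          have hcA : A c = LinearMap.id := ih c (Subgroup.upperCentralSeries_mono D hij hc)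
          have hc1 : z * c * z⁻¹ * c⁻¹ ∈ Subgroup.upperCentralSeries D i := by
            have := (Subgroup.upperCentralSeries D i).inv_mem
              ((Subgroup.mem_upperCentralSeries_succ_iff.1 hc) z)
            rw [commutatorElement_inv] at this
            exact this
          have h1 := ihi (by omega) _ hc1 z
          have hcA1 : A (z * c * z⁻¹ * c⁻¹) = LinearMap.id :=
            ih _ (Subgroup.upperCentralSeries_mono D (by omega) hc1)
          have h2 : b (z * c) = b (z * c * z⁻¹ * c⁻¹) + b (c * z) := by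
            have : z * c = (z * c * z⁻¹ * c⁻¹) * (c * z) := by group
            conv_lhs => rw [this, hb, hcA1]
            rfl
          rw [hb z c, hb c z, hcA, LinearMap.id_apply] at h2
          have h3 : b (z * c * z⁻¹ * c⁻¹) = A z (b c) - b c := by
            rw [eq_sub_iff_add_eq]
            have : b z + A z (b c) = b z + (b (z * c * z⁻¹ * c⁻¹) + b c) := by
              rw [h2]; abel
            exact (add_left_cancel this).symm
          rw [h3] at h1
          exact rot_fix_of_sq (hI z) (by rw [h1, sub_self])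
      intro z hz
      have hcz : ∀ x, x⁻¹ * z⁻¹ * x * z ∈ Subgroup.upperCentralSeries D j := by
        intro x
        have h1 := (Subgroup.mem_upperCentralSeries_succ_iff.1
          ((Subgroup.upperCentralSeries D (j+1)).inv_mem hz)) x⁻¹
        have h2 := (Subgroup.upperCentralSeries D j).inv_mem h1
        rw [commutatorElement_inv] at h2
        rwa [commutatorElement_def, inv_inv, inv_inv] at h2
      -- the function which is invariant
      have hAcomm : ∀ x v, A z (A x v) = A x (A z v) := by
        intro x v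
        have hc := hcz x
        have e : x * z = (z * x) * (x⁻¹ * z⁻¹ * x * z) := by group
        rw [← hA', ← hA' x z, e, hA' (z * x), ih _ hc, LinearMap.id_apply]
      have hcomm : ∀ x, ∃ τ, A z τ = τ ∧ b (x * z) = b (z * x) + τ := by
        intro x
        have hc := hcz x
        refine ⟨b (x⁻¹ * z⁻¹ * x * z), hfix j le_rfl _ hc z, ?_⟩
        have e : x * z = (z * x) * (x⁻¹ * z⁻¹ * x * z) := by group
        conv_lhs => rw [e]
        rw [hb, hfix j le_rfl _ hc]
      set f : V → V := fun ζ => A z (A z ζ + b z - ζ) - (A z ζ + b z - ζ) with hf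
      have hinv : ∀ x, ‖f (b x)‖ = ‖f 0‖ := by
        intro x
        obtain ⟨τ, h1, h2⟩ := hcomm x
        rw [hb, hb] at h2
        have h3 : f (b x) = A x (f 0) := by
          simp only [hf, map_zero, map_sub, map_add, zero_add, sub_zero]
          have h4 : A z (b x) + b z - b x = A x (b z) - τ := by
            rw [sub_eq_iff_eq_add, sub_add_eq_add_sub, eq_sub_iff_add_eq, add_comm (A x (b z)), h2]
            abel
          have h5 : A z (A z (b x)) + A z (b z) - A z (b x) = A z (A x (b z)) - τ := by
            rw [← map_add, ← map_sub, h4, map_sub, h1]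
          rw [h5, h4, hAcomm]
          abel
        rw [h3, hnorm]
      have hlin : ∀ ζ ξ, f ζ = f ξ + (A z (A z (ζ - ξ)) - A z (ζ - ξ) - (A z (ζ - ξ) - (ζ - ξ))) := by
        intro ζ ξ
        simp only [hf, map_sub, map_add]
        abel
      have hbd : ∀ ζ, ‖f ζ‖ ≤ ‖f 0‖ + 4 * B := by
        intro ζ
        obtain ⟨x, hx⟩ := hB ζ
        rw [hlin ζ (b x)]
        have e : ‖ζ - b x‖ ≤ B := by rwa [norm_sub_rev]
        have n1 := hnorm z (ζ - b x)
        have n2 := hnorm z (A z (ζ - b x))
        calc _ ≤ ‖f (b x)‖ + ‖A z (A z (ζ - b x)) - A z (ζ - b x) - (A z (ζ - b x) - (ζ - b x))‖ :=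
              norm_add_le _ _
          _ ≤ ‖f (b x)‖ + ((‖A z (A z (ζ - b x))‖ + ‖A z (ζ - b x)‖) +
              (‖A z (ζ - b x)‖ + ‖ζ - b x‖)) := by
              gcongr
              exact (norm_sub_le _ _).trans (add_le_add (norm_sub_le _ _) (norm_sub_le _ _))
          _ ≤ _ := by rw [hinv, n2, n1]; linarith
      have hzero : ∀ ζ, A z (A z ζ - ζ) - (A z ζ - ζ) = 0 := by
        intro ζ
        by_contra hne
        set w := A z (A z ζ - ζ) - (A z ζ - ζ) with hw
        have hwp : 0 < ‖w‖ := norm_pos_iff.2 hne
        obtain ⟨k, hk⟩ := exists_nat_gt ((2 * ‖f 0‖ + 4 * B) / ‖w‖)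
        rw [div_lt_iff₀ hwp] at hk
        have h1 := hbd ((k : ℂ) • ζ)
        have h2 : f ((k : ℂ) • ζ) = f 0 + (k : ℂ) • w := by
          rw [hlin _ 0, sub_zero, hw]
          simp only [map_smul, map_sub, smul_sub]
        rw [h2] at h1
        have h3 : ‖(k : ℂ) • w‖ ≤ ‖f 0 + (k : ℂ) • w‖ + ‖f 0‖ := by
          have := norm_sub_le (f 0 + (k : ℂ) • w) (f 0)
          rwa [add_sub_cancel_left] at this
        rw [norm_smul, Complex.norm_natCast] at h3
        linarith
      refine LinearMap.ext fun ζ => ?_
      exact rot_fix_of_sq (hI z) (hzero ζ)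
  obtain ⟨n, hn⟩ := hD.nilpotent'
  exact key n x (by rw [hn]; exact Subgroup.mem_top x)

end Pool.Agent.Lib.MP_5d4057_al.NU
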