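import Pool.Agent.Lib.MP_5d4057_al.NU.VanK
import Pool.Agent.Lib.MP_5d4057_al.NU.DivN

/-! The vanishing theorem for sections of `T ⊗ L²` over lattices. -/

set_option autoImplicit false

namespace Pool.Agent.Lib.MP_5d4057_al.NU

open Matrix MeasureTheory Filter Topology Pool.Agent.Lib.MP_5d4057_al
  Pool.Agent.Lib.MP_5d4057_al.Hyb Pool.Agent.Lib.MP_5d4057_al.HM

variable {n : ℕ}

/-! ### The weight -/

/-- `T` for `y ≤ T` and `T + (y - T)^2 / y` for `y ≥ T`. -/
noncomputable def mw (T y : ℝ) : ℝ := T + max (y - T) 0 ^ 2 / y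

/-- The cut-off weight. -/
noncomputable def fw (ε T y : ℝ) : ℝ := max (1 - ε * mw T y) 0 ^ 3 / mw T y

theorem hasDerivAt_max_sq (x : ℝ) : HasDerivAt (fun x : ℝ => max x 0 ^ 2) (2 * max x 0) x := by
  rcases lt_trichotomy x 0 with h | h | h
  · have h1 : (fun x : ℝ => max x 0 ^ 2) =ᶠ[𝓝 x] fun _ => (0 : ℝ) := by
      filter_upwards [eventually_lt_nhds h] with y hy
      rw [max_eq_right hy.le]
      norm_num
    rw [max_eq_right h.le, mul_zero]
    exact (hasDerivAt_const x (0 : ℝ)).congr_of_eventuallyEq h1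
  · subst h
    rw [max_self, mul_zero, hasDerivAt_iff_isLittleO]
    simp only [max_self, sub_zero, smul_zero]
    refine Asymptotics.IsBigO.trans_isLittleO (g := fun x : ℝ => x ^ 2) ?_ ?_
    · refine Asymptotics.IsBigO.of_bound 1 (Eventually.of_forall fun x => ?_)
      rw [one_mul, Real.norm_eq_abs, Real.norm_eq_abs, abs_of_nonneg (sq_nonneg x)]
      have h1 : 0 ≤ max x 0 ^ 2 - 0 ^ 2 := by
        rw [zero_pow two_ne_zero, sub_zero]
        positivity
      rw [abs_of_nonneg h1, zero_pow two_ne_zero, sub_zero]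
      rcases le_total x 0 with h2 | h2
      · rw [max_eq_right h2]
        nlinarith
      · rw [max_eq_left h2]
    · have h1 := Asymptotics.isLittleO_pow_pow (𝕜 := ℝ) (one_lt_two)
      simpa using h1
  · have h1 : (fun x : ℝ => max x 0 ^ 2) =ᶠ[𝓝 x] fun x => x ^ 2 := by
      filter_upwards [eventually_gt_nhds h] with y hy
      rw [max_eq_left hy.le]
    rw [max_eq_left h.le]
    have h2 : HasDerivAt (fun x : ℝ => x ^ 2) (2 * x) x := by
      simpa using hasDerivAt_pow 2 x
    exact h2.congr_of_eventuallyEq h1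

theorem hasDerivAt_max_cube (x : ℝ) :
    HasDerivAt (fun x : ℝ => max x 0 ^ 3) (3 * max x 0 ^ 2) x := by
  have h1 : (fun x : ℝ => max x 0 ^ 3) = fun x => max x 0 ^ 2 * x := by
    funext y
    rcases le_total y 0 with h | h
    · rw [max_eq_right h]
      norm_num
    · rw [max_eq_left h]
      ring
  rw [h1]
  refine ((hasDerivAt_max_sq x).mul (hasDerivAt_id x)).congr_deriv ?_
  rcases le_total x 0 with h | h
  · simp [max_eq_right h]
  · simp only [max_eq_left h, id]
    ring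

theorem mw_pos {T y : ℝ} (hT : 0 < T) (hy : 0 < y) : 0 < mw T y := by
  rw [mw]
  positivity

theorem mw_of_le {T y : ℝ} (h : y ≤ T) : mw T y = T := by
  rw [mw, max_eq_right (by linarith)]
  simp

theorem le_mw {T y : ℝ} (hT : 0 < T) (hy : 0 < y) : y ≤ 4 / 3 * mw T y := by
  rcases le_total y T with h | h
  · rw [mw_of_le h]
    linarith
  · rw [mw, max_eq_left (by linarith)]
    have h1 : 4 / 3 * (T + (y - T) ^ 2 / y) - y = 4 / 3 * ((y / 2 - T) ^ 2 / y) := by
      field_simp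
      ring
    have h2 : 0 ≤ 4 / 3 * ((y / 2 - T) ^ 2 / y) := by positivity
    linarith

/-- The derivative of `mw`. -/
noncomputable def mw' (T y : ℝ) : ℝ := 2 * max (y - T) 0 / y - max (y - T) 0 ^ 2 / y ^ 2

theorem hasDerivAt_mw {T y : ℝ} (hy : 0 < y) : HasDerivAt (mw T) (mw' T y) y := by
  have h1 : HasDerivAt (fun y : ℝ => y - T) 1 y := (hasDerivAt_id y).sub_const T
  have h2 : HasDerivAt (fun y : ℝ => max (y - T) 0 ^ 2) (2 * max (y - T) 0 * 1) y :=
    HasDerivAt.comp (h₂ := fun x : ℝ => max x 0 ^ 2) y (hasDerivAt_max_sq (y - T)) h1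
  have h3 := (h2.div (hasDerivAt_id y) hy.ne').const_add T
  refine h3.congr_deriv ?_
  rw [mw']
  simp only [id]
  field_simp

theorem mw'_bound {T y : ℝ} (hT : 0 < T) (hy : 0 < y) :
    0 ≤ mw' T y ∧ y * mw' T y ≤ 6 / 5 * mw T y := by
  rcases le_total y T with h | h
  · have h0 : mw' T y = 0 := by
      rw [mw', max_eq_right (by linarith)]
      simp
    rw [h0, mul_zero]
    exact ⟨le_rfl, by have := mw_pos hT hy; positivity⟩
  · have h1 : mw' T y = (y ^ 2 - T ^ 2) / y ^ 2 := by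
      rw [mw', max_eq_left (by linarith)]
      field_simp
      ring
    have h2 : mw T y = (y ^ 2 - T * y + T ^ 2) / y := by
      rw [mw, max_eq_left (by linarith)]
      field_simp
      ring
    refine ⟨?_, ?_⟩
    · rw [h1]
      have : 0 ≤ y ^ 2 - T ^ 2 := by nlinarith
      positivity
    · rw [h1, h2]
      have h3 : y * ((y ^ 2 - T ^ 2) / y ^ 2) = (y ^ 2 - T ^ 2) / y := by
        field_simp
      rw [h3, ← mul_div_assoc]
      gcongr
      nlinarith [sq_nonneg (y - 3 * T), sq_nonneg T]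

/-- The derivative of the weight. -/
noncomputable def fw' (ε T y : ℝ) : ℝ :=
  -(max (1 - ε * mw T y) 0 ^ 2 * mw' T y * (3 * ε * mw T y + max (1 - ε * mw T y) 0)) /
    mw T y ^ 2

theorem hasDerivAt_fw {ε T y : ℝ} (hT : 0 < T) (hy : 0 < y) :
    HasDerivAt (fw ε T) (fw' ε T y) y := by
  have hm := hasDerivAt_mw (T := T) hy
  have hm0 := mw_pos hT hy
  have h1 : HasDerivAt (fun y => 1 - ε * mw T y) (-(ε * mw' T y)) y :=
    (hm.const_mul ε).const_sub 1
  have h2 : HasDerivAt (fun y => max (1 - ε * mw T y) 0 ^ 3)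
      (3 * max (1 - ε * mw T y) 0 ^ 2 * (-(ε * mw' T y))) y :=
    HasDerivAt.comp (h₂ := fun x : ℝ => max x 0 ^ 3) y (hasDerivAt_max_cube (1 - ε * mw T y)) h1
  have h3 := h2.div hm hm0.ne'
  refine h3.congr_deriv ?_
  rw [fw']
  congr 1
  ring

theorem continuousOn_fw' {ε T : ℝ} (hT : 0 < T) : ContinuousOn (fw' ε T) (Set.Ioi 0) := by
  have h1 : ContinuousOn (mw T) (Set.Ioi 0) := fun y hy =>
    (hasDerivAt_mw hy).continuousAt.continuousWithinAt
  have h2 : ContinuousOn (mw' T) (Set.Ioi 0) := by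
    unfold mw'
    have h3 : Continuous fun y : ℝ => max (y - T) 0 := by fun_prop
    refine (((continuous_const.mul h3).continuousOn.div continuousOn_id fun y hy => ?_).sub
      ((h3.pow 2).continuousOn.div (continuous_pow 2).continuousOn fun y hy => ?_))
    · exact (Set.mem_Ioi.1 hy).ne'
    · exact pow_ne_zero 2 (Set.mem_Ioi.1 hy).ne'
  have h3 : ContinuousOn (fun y => max (1 - ε * mw T y) 0) (Set.Ioi 0) :=
    (continuousOn_const.sub (continuousOn_const.mul h1)).sup continuousOn_const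
  unfold fw'
  refine ContinuousOn.div ?_ (h1.pow 2) fun y hy => pow_ne_zero 2 (mw_pos hT hy).ne'
  exact (((h3.pow 2).mul h2).mul ((continuousOn_const.mul h1).add h3)).neg

theorem contDiffOn_fw {ε T : ℝ} (hT : 0 < T) : ContDiffOn ℝ 1 (fw ε T) (Set.Ioi 0) := by
  have h0 : Set.EqOn (deriv (fw ε T)) (fw' ε T) (Set.Ioi 0) := fun y hy =>
    (hasDerivAt_fw hT hy).deriv
  rw [show (1 : WithTop ℕ∞) = 0 + 1 from (zero_add 1).symm,
    contDiffOn_succ_iff_deriv_of_isOpen isOpen_Ioi]
  exact ⟨fun y hy => (hasDerivAt_fw hT hy).differentiableAt.differentiableWithinAt, by simp,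
    contDiffOn_zero.2 ((continuousOn_fw' hT).congr h0)⟩

/-! ### The weight on the cone -/

variable {Γ : Subgroup (SUGroup n)} {T : ℝ} {y : Vec n → ℝ}

/-- Near a point of height at least `T` the height is the height of an isotropic vector. -/
theorem Ht.smooth0 (hy : Ht Γ T y) {v : Vec n} (hv : v ∈ Cone n) (hT : T ≤ y v) :
    ∃ p : Vec n, p ≠ 0 ∧ q p = 0 ∧ y =ᶠ[𝓝 v] yp p := by
  obtain ⟨g, c, hc, rfl⟩ := exists_act_eq hv
  rw [hy.hom c hc _ (orbit_mem g)] at hT
  obtain ⟨p, hp, hq, h1, -, h2⟩ := hy.nul g hT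
  have hne : herm (c • act g (base n)) p ≠ 0 := by
    rw [herm_comm p]
    exact star_ne_zero.2 (herm_null_ne hp hq hv)
  have hev : ∀ᶠ w in 𝓝 (c • act g (base n)), T < 4 * yp p w := by
    have h3 : ContinuousAt (fun w => 4 * yp p w) (c • act g (base n)) :=
      (contDiffAt_yp hne).continuousAt.const_smul (4 : ℝ)
    refine h3.eventually_const_lt ?_
    show T < 4 * yp p (c • act g (base n))
    rw [yp_homog p c hc _ (orbit_mem g)]
    have h4 := yp_pos hp hq (orbit_mem g)
    rw [h1] at hT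
    linarith
  refine ⟨p, hp, hq, ?_⟩
  filter_upwards [hev, (isOpen_cone n).mem_nhds hv] with w hw hwc
  obtain ⟨h, d, hd, rfl⟩ := exists_act_eq hwc
  rw [yp_homog p d hd _ (orbit_mem h)] at hw
  rw [hy.hom d hd _ (orbit_mem h), yp_homog p d hd _ (orbit_mem h)]
  exact h2 h hw.le

private theorem vn_cont (hy : Ht Γ T y) : ContinuousOn y (Cone n) := by
  have hG : Continuous fun g : SUGroup n => Real.log (y (act g (base n))) := by
    rw [continuous_iff_continuousAt]
    intro g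
    have h1 : Tendsto (fun h : SUGroup n => 2 * Real.log (wt (g⁻¹ * h))) (𝓝 g) (𝓝 0) := by
      have h2 : Tendsto (fun h : SUGroup n => wt (g⁻¹ * h)) (𝓝 g) (𝓝 1) := by
        have h3 : Continuous fun h : SUGroup n => wt (g⁻¹ * h) :=
          continuous_wt.comp (continuous_const_mul g⁻¹)
        have h4 := h3.tendsto g
        rwa [inv_mul_cancel, wt_one] at h4
      have h5 := (h2.log one_ne_zero).const_mul 2
      rwa [Real.log_one, mul_zero] at h5
    rw [ContinuousAt, tendsto_iff_norm_sub_tendsto_zero]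
    exact squeeze_zero (fun h => norm_nonneg _) (fun h => hy.log_le g h) h1
  have h1 : ContinuousOn (fun v => Real.exp (Real.log (y (act (sec n v) (base n))))) (Cone n) :=
    Real.continuous_exp.comp_continuousOn (hG.comp_continuousOn continuousOn_sec_n)
  refine h1.congr fun v hv => ?_
  obtain ⟨c, hc, h⟩ := sec_spec hv
  show y v = Real.exp (Real.log (y (act (sec n v) (base n))))
  rw [Real.exp_log (hy.pos (orbit_mem _))]
  conv_lhs => rw [h]
  rw [hy.hom c hc _ (orbit_mem _)]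

theorem fw_of_le {ε y : ℝ} (h : y ≤ T) : fw ε T y = max (1 - ε * T) 0 ^ 3 / T := by
  rw [fw, mw_of_le h]

theorem contDiffOn_wt (hy : Ht Γ T y) (hT : 0 < T) (ε : ℝ) :
    ContDiffOn ℝ 1 (fun v => fw ε T (y v)) (Cone n) := by
  intro v hv
  refine ContDiffAt.contDiffWithinAt ?_
  rcases le_or_gt T (y v) with h | h
  · obtain ⟨p, hp, hq, hyp⟩ := Ht.smooth0 hy hv h
    have h1 : ContDiffAt ℝ 1 (yp p) v := by
      refine (contDiffAt_yp ?_).of_le (by exact_mod_cast le_top)
      rw [herm_comm p]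
      exact star_ne_zero.2 (herm_null_ne hp hq hv)
    have h2 : ContDiffAt ℝ 1 (fw ε T) (yp p v) :=
      (contDiffOn_fw hT).contDiffAt (isOpen_Ioi.mem_nhds (yp_pos hp hq hv))
    refine (h2.comp v h1).congr_of_eventuallyEq ?_
    filter_upwards [hyp] with w hw
    show fw ε T (y w) = fw ε T (yp p w)
    rw [hw]
  · have h1 : ContinuousAt y v := (vn_cont hy).continuousAt ((isOpen_cone n).mem_nhds hv)
    refine (contDiffAt_const (c := max (1 - ε * T) 0 ^ 3 / T)).congr_of_eventuallyEq ?_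
    filter_upwards [h1.eventually_lt_const h] with w hw
    exact fw_of_le hw.le

/-- The chain rule for the complex linear part. -/
theorem pz_comp_real {u : Vec n → ℝ} {f : ℝ → ℝ} {f' : ℝ} {v : Vec n}
    (hu : DifferentiableAt ℝ u v) (hf : HasDerivAt f f' (u v)) (b : Vec n) :
    pz (fun w => ((f (u w) : ℝ) : ℂ)) v b = (f' : ℂ) * pz (fun w => ((u w : ℝ) : ℂ)) v b := by
  have h1 : HasFDerivAt (fun w => ((u w : ℝ) : ℂ)) (Complex.ofRealCLM.comp (fderiv ℝ u v)) v :=
    Complex.ofRealCLM.hasFDerivAt.comp v hu.hasFDerivAt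
  have h2 : HasFDerivAt (fun w => f (u w)) (f' • fderiv ℝ u v) v :=
    hf.comp_hasFDerivAt v hu.hasFDerivAt
  have h3 : HasFDerivAt (fun w => ((f (u w) : ℝ) : ℂ))
      (Complex.ofRealCLM.comp (f' • fderiv ℝ u v)) v :=
    Complex.ofRealCLM.hasFDerivAt.comp v h2
  rw [pz, pz, h1.fderiv, h3.fderiv]
  simp only [ContinuousLinearMap.comp_apply, Complex.ofRealCLM_apply, _root_.smul_apply,
    smul_eq_mul, Complex.ofReal_mul]
  ring

theorem pz_yp {p v b : Vec n} (hp : herm p v ≠ 0) (hb : herm v b = 0) :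
    pz (fun w => ((yp p w : ℝ) : ℂ)) v b = -(yp p v : ℂ) * (herm p b / herm p v) := by
  have h1 : (fun w => ((yp p w : ℝ) : ℂ)) =
      fun w => -(q w : ℂ) * (herm p w * star (herm p w))⁻¹ := by
    funext w
    have h2 : herm p w * star (herm p w) = ((‖herm w p‖ ^ 2 : ℝ) : ℂ) := by
      rw [RCLike.star_def, Complex.mul_conj, Complex.normSq_eq_norm_sq, herm_comm w p, norm_star]
    rw [h2, yp]
    push_cast
    rw [div_eq_mul_inv]
  have h3 := hasZ_herm_left p v b
  have hs : star (herm p v) ≠ 0 := star_ne_zero.2 hp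
  have h4 := (hasZ_q v b).neg.mul' ((h3.mul' (hasZ_conj h3)).inv (mul_ne_zero hp hs))
  rw [h1, h4.pz, hb]
  have h5 : ((yp p v : ℝ) : ℂ) = -(q v : ℂ) * (herm p v * star (herm p v))⁻¹ := congrFun h1 v
  rw [h5, star_zero]
  field_simp
  ring

theorem norm_pz_yp {p v b : Vec n} (hv : v ∈ Cone n) (hqv : q v = -1) (hp : p ≠ 0)
    (hq : q p = 0) (hb : herm v b = 0) :
    ‖pz (fun w => ((yp p w : ℝ) : ℂ)) v b‖ ≤ yp p v * Real.sqrt (q b) := by
  have hpv := herm_null_ne hp hq hv
  have hpv0 : 0 < ‖herm p v‖ := norm_pos_iff.2 hpv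
  have hy0 := yp_pos hp hq hv
  rw [pz_yp hpv hb, norm_mul, norm_neg, Complex.norm_real, Real.norm_eq_abs, abs_of_pos hy0,
    norm_div]
  refine mul_le_mul_of_nonneg_left ?_ hy0.le
  rw [div_le_iff₀ hpv0]
  have h1 : herm p b = herm (prj v p) b := by
    rw [prj, herm_sub_left, herm_smul_left, hb, mul_zero, sub_zero]
  have h2 := cauchy_orth hv (herm_prj hv p) hb
  have h3 : q (prj v p) = ‖herm p v‖ ^ 2 := by
    have h4 := q_prj hv p
    rw [hq, hqv, herm_comm p v, norm_star] at h4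
    linarith
  rw [h3, ← h1] at h2
  have h4 : 0 ≤ q b := q_nonneg_of_orth hv hb
  refine le_of_sq_le_sq ?_ (by positivity)
  rw [mul_pow, Real.sq_sqrt h4]
  linarith

/-! ### The weighted identity -/

variable {β : Vec n → Vec n}

/-- The weight as a complex function. -/
noncomputable def fc (ε T : ℝ) (y : Vec n → ℝ) (v : Vec n) : ℂ := ((fw ε T (y v) : ℝ) : ℂ)

theorem contDiffOn_fc (hy : Ht Γ T y) (hT : 0 < T) (ε : ℝ) :
    ContDiffOn ℝ 1 (fc ε T y) (Cone n) :=
  Complex.ofRealCLM.contDiff.comp_contDiffOn (contDiffOn_wt hy hT ε)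

theorem fc_diff (hy : Ht Γ T y) (hT : 0 < T) (ε : ℝ) {v : Vec n} (hv : v ∈ Cone n) :
    DifferentiableAt ℝ (fc ε T y) v :=
  ((contDiffOn_fc hy hT ε).contDiffAt (mem_nhds_cone hv)).differentiableAt one_ne_zero

theorem Yb_cd (h : Sec Γ β) (a : Vec n) : ContDiffOn ℝ 1 (fun v => Yb β v a) (Cone n) := by
  have hq1 : ContDiff ℝ 1 fun w : Vec n => (q w : ℂ) := contDiff_qc.of_le one_le_two
  have h1 : ContDiffOn ℝ 1 (fun v => herm a (β v)) (Cone n) :=
    ((hmL n (star a)).restrictScalars ℝ).contDiff.comp_contDiffOn h.cd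
  have h2 : ContDiffOn ℝ 1 (fun v => -(q v : ℂ) * dv β v) (Cone n) :=
    (hq1.neg.contDiffOn).mul h.dv_cd
  exact h1.mul (Complex.conjCLE.contDiff.comp_contDiffOn h2)

/-- The divergence of the weighted vector field. -/
theorem div_wt (h : Sec Γ β) (hy : Ht Γ T y) (hT : 0 < T) (ε : ℝ) {v : Vec n}
    (hv : v ∈ Cone n) :
    ∑ c : Fin (n + 1), J n c c * dzc (fun w => fc ε T y w * Yb β w (Pi.single c 1)) v
      (Pi.single c 1) =
      fc ε T y v * ((-q v * ‖dv β v‖ ^ 2 + ((n : ℝ) - 1) * q (β v) : ℝ) : ℂ) +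
        pz (fc ε T y) v (β v) * star (-(q v : ℂ) * dv β v) := by
  have K : ∀ c : Fin (n + 1), J n c c *
      dzc (fun w => fc ε T y w * Yb β w (Pi.single c 1)) v (Pi.single c 1) =
      fc ε T y v * (J n c c * dzc (fun w => Yb β w (Pi.single c 1)) v (Pi.single c 1)) +
        (β v c * pz (fc ε T y) v (Pi.single c 1)) * star (-(q v : ℂ) * dv β v) := by
    intro c
    set e : Vec n := Pi.single c 1 with he
    have hYd : DifferentiableAt ℝ (fun w => Yb β w e) v :=
      ((Yb_cd h e).contDiffAt (mem_nhds_cone hv)).differentiableAt one_ne_zero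
    have h1 := hasZ (fc_diff hy hT ε hv) e
    have h2 := hasZ hYd e
    have h3 := (h1.mul' h2).pz
    have h4 : dzc (fun w => fc ε T y w * Yb β w e) v e = pz (fun w => fc ε T y w * Yb β w e) v e :=
      rfl
    have h5 : dzc (fun w => Yb β w e) v e = pz (fun w => Yb β w e) v e := rfl
    rw [h4, h5, h3]
    have h6 : Yb β v e = J n c c * β v c * star (-(q v : ℂ) * dv β v) := by
      rw [Yb, he, herm_single_left]
    rw [h6]
    have hJ := J_sq (n := n) c
    linear_combination (β v c * pz (fc ε T y) v e * star (-(q v : ℂ) * dv β v)) * hJ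
  simp only [K]
  rw [Finset.sum_add_distrib, ← Finset.mul_sum, h.div_Yb hv, ← Finset.sum_mul]
  congr 2
  exact (pz_eq_sum _ _ _).symm

/-- The lower bound for the weighted divergence. -/
noncomputable def rw' (n : ℕ) (ε T y B : ℝ) : ℝ :=
  B / mw T y * (((n : ℝ) - 1) * max (1 - ε * mw T y) 0 ^ 3 -
    9 / 25 * (max (1 - ε * mw T y) 0 * (1 + 2 * (ε * mw T y)) ^ 2))

private theorem rw_alg {φ m e a s B A k : ℝ} (hφ : 0 ≤ φ) (hm : 0 < m) (hB : B = s ^ 2)
    (hA : A = a ^ 2) {x : ℝ}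
    (hx : |x| ≤ 6 / 5 * (φ ^ 2 * (1 + 2 * e) / m) * s * a) :
    B / m * (k * φ ^ 3 - 9 / 25 * (φ * (1 + 2 * e) ^ 2)) ≤ φ ^ 3 / m * (A + k * B) + x := by
  have h1 : -(6 / 5 * (φ ^ 2 * (1 + 2 * e) / m) * s * a) ≤ x := by
    have := neg_abs_le x
    linarith
  have h2 : φ ^ 3 / m * (A + k * B) - 6 / 5 * (φ ^ 2 * (1 + 2 * e) / m) * s * a -
      B / m * (k * φ ^ 3 - 9 / 25 * (φ * (1 + 2 * e) ^ 2)) =
      φ * (φ * a - 3 / 5 * (1 + 2 * e) * s) ^ 2 / m := by
    rw [hB, hA]
    field_simp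
    ring
  have h3 : 0 ≤ φ * (φ * a - 3 / 5 * (1 + 2 * e) * s) ^ 2 / m := by positivity
  linarith

theorem rw_le (h : Sec Γ β) (hy : Ht Γ T y) (hT : 0 < T) {ε : ℝ} (hε : 0 ≤ ε)
    {v : Vec n} (hv : v ∈ Cone n) (hqv : q v = -1) :
    rw' n ε T (y v) (q (β v)) ≤ fw ε T (y v) * (‖dv β v‖ ^ 2 + ((n : ℝ) - 1) * q (β v)) +
      (pz (fc ε T y) v (β v) * star (dv β v)).re := by
  have hy0 : 0 < y v := hy.pos hv
  have hm0 := mw_pos hT hy0
  have hB0 : 0 ≤ q (β v) := q_nonneg_of_orth hv (h.orth v hv)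
  have hφ : 0 ≤ max (1 - ε * mw T (y v)) 0 := le_max_right _ _
  rw [rw', fw]
  refine rw_alg (e := ε * mw T (y v)) (s := Real.sqrt (q (β v))) (a := ‖dv β v‖) hφ hm0
    (Real.sq_sqrt hB0).symm rfl ?_
  refine (Complex.abs_re_le_norm _).trans ?_
  rw [norm_mul, norm_star]
  refine mul_le_mul_of_nonneg_right ?_ (norm_nonneg _)
  rcases le_or_gt T (y v) with hTy | hTy
  · obtain ⟨p, hp, hq, hyp⟩ := Ht.smooth0 hy hv hTy
    have hpv := herm_null_ne hp hq hv
    have hyv : y v = yp p v := hyp.self_of_nhds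
    have hu : DifferentiableAt ℝ (yp p) v :=
      (contDiffAt_yp (by
        rw [herm_comm p]
        exact star_ne_zero.2 hpv)).differentiableAt (by simp)
    have e1 : fc ε T y =ᶠ[𝓝 v] fun w => ((fw ε T (yp p w) : ℝ) : ℂ) := by
      filter_upwards [hyp] with w hw
      rw [fc, hw]
    have hd := hasDerivAt_fw (ε := ε) hT (hyv ▸ hy0 : 0 < yp p v)
    rw [pz_congr e1, pz_comp_real hu hd, norm_mul, Complex.norm_real, Real.norm_eq_abs]
    have h1 := norm_pz_yp hv hqv hp hq (h.orth v hv)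
    rw [← hyv] at h1 ⊢
    obtain ⟨hm1, hm2⟩ := mw'_bound hT hy0
    set m := mw T (y v) with hm
    set m' := mw' T (y v) with hm'
    set φ := max (1 - ε * m) 0 with hφ'
    have h2 : |fw' ε T (y v)| = φ ^ 2 * m' * (1 + 2 * (ε * m)) / m ^ 2 := by
      rw [fw', ← hm, ← hm', ← hφ', abs_div, abs_neg, abs_of_nonneg (by positivity),
        abs_of_pos (by positivity)]
      congr 1
      rcases le_total (1 - ε * m) 0 with h3 | h3
      · rw [hφ', max_eq_right h3]
        ring
      · rw [hφ', max_eq_left h3]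
        ring
    rw [h2]
    calc φ ^ 2 * m' * (1 + 2 * (ε * m)) / m ^ 2 * ‖pz (fun w => ((yp p w : ℝ) : ℂ)) v (β v)‖
        ≤ φ ^ 2 * m' * (1 + 2 * (ε * m)) / m ^ 2 * (y v * Real.sqrt (q (β v))) :=
          mul_le_mul_of_nonneg_left h1 (by positivity)
      _ = (φ ^ 2 * (1 + 2 * (ε * m)) / m ^ 2) * Real.sqrt (q (β v)) * (y v * m') := by ring
      _ ≤ (φ ^ 2 * (1 + 2 * (ε * m)) / m ^ 2) * Real.sqrt (q (β v)) * (6 / 5 * m) :=
          mul_le_mul_of_nonneg_left hm2 (by positivity)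
      _ = _ := by
          field_simp
  · have h1 : ContinuousAt y v := (vn_cont hy).continuousAt ((isOpen_cone n).mem_nhds hv)
    have e1 : fc ε T y =ᶠ[𝓝 v] fun _ => ((max (1 - ε * T) 0 ^ 3 / T : ℝ) : ℂ) := by
      filter_upwards [h1.eventually_lt_const hTy] with w hw
      rw [fc, fw_of_le hw.le]
    rw [pz_congr e1, (hasZ_const _ v _).pz, norm_zero]
    positivity

theorem fc_hom (hy : Ht Γ T y) (ε : ℝ) : Homog (fc ε T y) := by
  intro c hc v hv
  rw [fc, fc, hy.hom c hc v hv]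

theorem fc_act (hy : Ht Γ T y) (ε : ℝ) {γ : SUGroup n} (hγ : γ ∈ Γ) {v : Vec n}
    (hv : v ∈ Cone n) : fc ε T y (act γ v) = fc ε T y v := by
  rw [fc, fc, hy.inv γ hγ v hv]

theorem pz_fc_act (h : Sec Γ β) (hy : Ht Γ T y) (hT : 0 < T) (ε : ℝ) {γ : SUGroup n}
    (hγ : γ ∈ Γ) {v : Vec n} (hv : v ∈ Cone n) :
    pz (fc ε T y) (act γ v) (β (act γ v)) = pz (fc ε T y) v (β v) := by
  have h1 : HasZ (fun w => fc ε T y (actC γ w)) v (β v) _ _ :=
    (hasZ (fc_diff hy hT ε (act_mem γ hv)) (actC γ (β v))).comp_lin (actC γ)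
  have h3 : (fun w => fc ε T y (actC γ w)) =ᶠ[𝓝 v] fc ε T y := by
    filter_upwards [mem_nhds_cone hv] with w hw
    exact fc_act hy ε hγ hw
  have h4 := pz_congr h3 (β v)
  rw [h1.pz] at h4
  rw [h.equi γ hγ v hv]
  exact h4

theorem mw_tendsto {T y : ℝ} :
    Tendsto (fun k : ℕ => max (1 - 1 / ((k : ℝ) + 1) * mw T y) 0) atTop (𝓝 1) := by
  have h1 : Tendsto (fun k : ℕ => 1 / ((k : ℝ) + 1)) atTop (𝓝 0) :=
    tendsto_one_div_add_atTop_nhds_zero_nat
  have h2 : Tendsto (fun k : ℕ => max (1 - 1 / ((k : ℝ) + 1) * mw T y) 0) atTop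
      (𝓝 (max (1 - 0 * mw T y) 0)) :=
    (tendsto_const_nhds.sub (h1.mul_const _)).max tendsto_const_nhds
  rw [zero_mul, sub_zero, max_eq_left zero_le_one] at h2
  exact h2

private theorem rw_abs {B m K k ε : ℝ} (hB : 0 ≤ B) (hm : 0 < m) (hK : B ≤ K * m) (hk : 0 ≤ k)
    (hε : 0 ≤ ε) : |B / m * (k * max (1 - ε * m) 0 ^ 3 -
      9 / 25 * (max (1 - ε * m) 0 * (1 + 2 * (ε * m)) ^ 2))| ≤ K * (k + 4) := by
  have h1 : B / m ≤ K := by rwa [div_le_iff₀ hm]
  have h0 : 0 ≤ B / m := by positivity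
  have he : 0 ≤ ε * m := by positivity
  set φ := max (1 - ε * m) 0 with hφ
  have hφ0 : 0 ≤ φ := le_max_right _ _
  have hφ1 : φ ≤ 1 := max_le (by linarith) zero_le_one
  have h2 : φ ^ 3 ≤ 1 := pow_le_one₀ hφ0 hφ1
  have h3 : 0 ≤ φ ^ 3 := by positivity
  have h4 : φ * (1 + 2 * (ε * m)) ^ 2 ≤ 9 := by
    rcases le_total (1 - ε * m) 0 with h5 | h5
    · rw [hφ, max_eq_right h5, zero_mul]
      norm_num
    · have h6 : (1 + 2 * (ε * m)) ^ 2 ≤ 9 := by nlinarith
      calc φ * (1 + 2 * (ε * m)) ^ 2 ≤ 1 * (1 + 2 * (ε * m)) ^ 2 := by gcongr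
        _ ≤ 9 := by linarith
  have h5 : 0 ≤ φ * (1 + 2 * (ε * m)) ^ 2 := by positivity
  rw [abs_mul, abs_of_nonneg h0]
  refine mul_le_mul h1 ?_ (abs_nonneg _) (h0.trans h1)
  rw [abs_le]
  constructor
  · have := mul_nonneg hk h3
    linarith
  · have := mul_le_mul_of_nonneg_left h2 hk
    linarith

/-- The vanishing theorem for lattices. -/
theorem Sec.zero_lat (h : Sec Γ β) (hn : 2 ≤ n) {χ : SUGroup n → ℝ} (hL : Lat Γ χ)
    (hy : HtT Γ T y) (hT : 1 ≤ T) {C : ℝ} {N : ℕ}
    (hg : ∀ g : SUGroup n, ‖β (act g (base n))‖ ≤ C * ch g ^ N) : ∀ v ∈ Cone n, β v = 0 := by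
  have hT0 : 0 < T := by linarith
  have hyt := hy.ht
  obtain ⟨C', hC', hB⟩ := Sec.growth h hy hT hg
  have hn1 : (1 : ℝ) ≤ (n : ℝ) - 1 := by
    have : (2 : ℝ) ≤ n := by exact_mod_cast hn
    linarith
  set o : SUGroup n → Vec n := fun g => act g (base n) with ho
  have hoc : ∀ g, o g ∈ Cone n := orbit_mem
  have hqo : ∀ g, q (o g) = -1 := q_orbit
  have hB0 : ∀ g, 0 ≤ q (β (o g)) := fun g => q_nonneg_of_orth (hoc g) (h.orth _ (hoc g))
  have hyp : ∀ g, 0 < y (o g) := fun g => hyt.pos (hoc g)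
  have hmp : ∀ g, 0 < mw T (y (o g)) := fun g => mw_pos hT0 (hyp g)
  -- continuity
  have hcβ : Continuous fun g : SUGroup n => β (o g) := continuous_orb h.cd.continuousOn
  have hcq : Continuous fun g : SUGroup n => q (β (o g)) := continuous_q.comp hcβ
  have hcd : Continuous fun g : SUGroup n => dv β (o g) := continuous_orb h.dv_cd.continuousOn
  have hcy : Continuous fun g : SUGroup n => y (o g) := continuous_orb (vn_cont hyt)
  have hcm : Continuous fun g : SUGroup n => mw T (y (o g)) := by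
    have h1 : ContinuousOn (mw T) (Set.Ioi 0) := fun y hy =>
      (hasDerivAt_mw hy).continuousAt.continuousWithinAt
    exact h1.comp_continuous hcy fun g => hyp g
  -- bounds
  set K : ℝ := C' * (4 / 3) with hK
  have hBm : ∀ g, q (β (o g)) ≤ K * mw T (y (o g)) := by
    intro g
    have h1 := hB g
    have h2 := mul_le_mul_of_nonneg_left (le_mw hT0 (hyp g)) hC'
    rw [hK]
    calc q (β (o g)) ≤ C' * y (o g) := h1
      _ ≤ C' * (4 / 3 * mw T (y (o g))) := h2
      _ = _ := by ring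
  have hrabs : ∀ ε : ℝ, 0 ≤ ε → ∀ g, |rw' n ε T (y (o g)) (q (β (o g)))| ≤
      K * (((n : ℝ) - 1) + 4) := fun ε hε g =>
    rw_abs (hB0 g) (hmp g) (hBm g) (by linarith) hε
  have hrb : ∀ ε : ℝ, 0 ≤ ε →
      Integrable (fun g => χ g • rw' n ε T (y (o g)) (q (β (o g)))) (mu n) := by
    intro ε hε
    refine Lat.integrable_smul hL ?_ ⟨_, hrabs ε hε⟩
    unfold rw'
    have h1 : Continuous fun g : SUGroup n => max (1 - ε * mw T (y (o g))) 0 :=
      (continuous_const.sub (continuous_const.mul hcm)).max continuous_const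
    refine Continuous.aestronglyMeasurable ?_
    refine (hcq.div hcm fun g => (hmp g).ne').mul ?_
    exact (continuous_const.mul (h1.pow 3)).sub (continuous_const.mul (h1.mul
      ((continuous_const.add (continuous_const.mul (continuous_const.mul hcm))).pow 2)))
  -- the identity
  have key : ∀ ε : ℝ, 0 < ε → II χ (fun g => rw' n ε T (y (o g)) (q (β (o g)))) ≤ 0 := by
    intro ε hε
    obtain ⟨Q, hQ, hcov⟩ := hyt.cpt (4 / (3 * ε))
    have hfar : ∀ g, (¬ ∃ γ ∈ Γ, γ * g ∈ Q) → fc ε T y =ᶠ[𝓝 (o g)] fun _ => 0 := by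
      intro g hgn
      have h1 : 4 / (3 * ε) < y (o g) := by
        by_contra hle
        push Not at hle
        exact hgn (hcov g hle)
      have h2 : ContinuousAt y (o g) := (vn_cont hyt).continuousAt ((isOpen_cone n).mem_nhds (hoc g))
      filter_upwards [h2.eventually_const_lt h1, mem_nhds_cone (hoc g)] with w hw hwC
      have hw0 := hyt.pos hwC
      have h3 := le_mw hT0 hw0
      have h4 : 1 - ε * mw T (y w) ≤ 0 := by
        rw [div_lt_iff₀ (by positivity)] at hw
        nlinarith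
      rw [fc, fw, max_eq_right h4]
      norm_num
    have hdiv := II_divN hL hQ (Y := fun v a => fc ε T y v * Yb β v a) ?_ ?_ ?_ ?_ ?_ ?_ ?_
    rotate_left
    · intro v a b
      rw [Yb, Yb, Yb, herm_add_left]
      ring
    · intro v r a
      rw [Yb, Yb, herm_smul_left]
      ring
    · intro a
      exact (contDiffOn_fc hyt hT0 ε).mul (Yb_cd h a)
    · intro v hv
      rw [Yb, h.orth v hv, zero_mul, mul_zero]
    · intro c hc v hv a
      have hc' : star c ≠ 0 := star_ne_zero.2 hc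
      rw [fc_hom hyt ε c hc v hv, Yb, Yb, h.hom c hc v hv, h.dv_smul hc hv, herm_smul_left,
        herm_smul_right, q_smul']
      simp only [star_mul', star_neg, star_inv₀, star_star]
      field_simp
    · intro γ hγ v hv a
      rw [fc_act hyt ε hγ hv, Yb, Yb, h.equi γ hγ v hv, h.dv_act hγ hv, herm_act, q_act]
    · intro g hgn a
      filter_upwards [hfar g hgn] with w hw
      rw [hw, zero_mul]
    -- the integrand
    set G : SUGroup n → ℂ := fun g =>
      fc ε T y (o g) * ((‖dv β (o g)‖ ^ 2 + ((n : ℝ) - 1) * q (β (o g)) : ℝ) : ℂ) +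
        pz (fc ε T y) (o g) (β (o g)) * star (dv β (o g)) with hG
    have hGI : II χ G = 0 := by
      rw [← hdiv]
      refine II_congr fun g => ?_
      rw [div_wt h hyt hT0 ε (orbit_mem g), q_orbit]
      simp only [hG, ho]
      push_cast
      rw [neg_neg, one_mul, one_mul]
    have hGc : Continuous G := by
      have h1 : Continuous fun g : SUGroup n => fc ε T y (o g) :=
        continuous_orb (contDiffOn_fc hyt hT0 ε).continuousOn
      have h2 : Continuous fun g : SUGroup n => fderiv ℝ (fc ε T y) (o g) :=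
        continuous_orb ((contDiffOn_fc hyt hT0 ε).continuousOn_fderiv_of_isOpen (isOpen_cone n)
          le_rfl)
      have h3 : Continuous fun g : SUGroup n => pz (fc ε T y) (o g) (β (o g)) := by
        have h4 : Continuous fun g : SUGroup n => Complex.I • β (o g) := by
          have h5 : Continuous fun x : Vec n => Complex.I • x := continuous_const_smul Complex.I
          exact h5.comp hcβ
        have h6 : Continuous fun g : SUGroup n => (1 / 2 : ℂ) *
            (fderiv ℝ (fc ε T y) (o g) (β (o g)) -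
              Complex.I * fderiv ℝ (fc ε T y) (o g) (Complex.I • β (o g))) :=
          continuous_const.mul ((h2.clm_apply hcβ).sub (continuous_const.mul (h2.clm_apply h4)))
        exact h6
      refine (h1.mul (Complex.continuous_ofReal.comp ?_)).add (h3.mul hcd.star)
      exact (hcd.norm.pow 2).add (continuous_const.mul hcq)
    have hGi : ∀ γ ∈ Γ, ∀ g, G (γ * g) = G g := by
      intro γ hγ g
      simp only [hG, ho, act_mul]
      rw [pz_fc_act h hyt hT0 ε hγ (orbit_mem g), fc_act hyt ε hγ (orbit_mem g),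
        h.equi γ hγ _ (orbit_mem g), h.dv_act hγ (orbit_mem g), q_act]
    have hGo : Off Γ Q G := by
      intro g hne
      by_contra hgn
      apply hne
      have h1 := hfar g hgn
      simp only [hG]
      rw [pz_congr h1, (hasZ_const _ _ _).pz, h1.self_of_nhds]
      ring
    obtain ⟨D, hD⟩ := Off.bdd hQ hGo hGc hGi
    have hGint : Integrable (fun g => χ g • G g) (mu n) :=
      Lat.integrable_smul hL hGc.aestronglyMeasurable ⟨D, hD⟩
    have hre : II χ (fun g => (G g).re) = 0 := by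
      have h1 : (II χ G).re = II χ (fun g => (G g).re) := by
        unfold II
        rw [← Complex.reCLM_apply, ← Complex.reCLM.integral_comp_comm hGint]
        refine integral_congr_ae (Eventually.of_forall fun g => ?_)
        simp
      rw [← h1, hGI, Complex.zero_re]
    rw [← hre]
    have hrint : Integrable (fun g => χ g • (G g).re) (mu n) := by
      refine Lat.integrable_smul hL (Complex.continuous_re.comp hGc).aestronglyMeasurable ⟨D, ?_⟩
      intro g
      exact (Complex.abs_re_le_norm _).trans (hD g)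
    refine integral_mono (hrb ε hε.le) hrint fun g => ?_
    refine mul_le_mul_of_nonneg_left ?_ (hL.pos g).le
    refine (rw_le h hyt hT0 hε.le (hoc g) (hqo g)).trans (le_of_eq ?_)
    simp only [hG, fc]
    rw [Complex.add_re, ← Complex.ofReal_mul, Complex.ofReal_re]
  -- the limit
  have hlim : Tendsto (fun k : ℕ => ∫ g, χ g • rw' n (1 / ((k : ℝ) + 1)) T (y (o g))
      (q (β (o g))) ∂(mu n)) atTop
      (𝓝 (∫ g, χ g • (q (β (o g)) / mw T (y (o g)) * (((n : ℝ) - 1) - 9 / 25)) ∂(mu n))) := by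
    refine tendsto_integral_of_dominated_convergence (fun g => χ g * (K * (((n : ℝ) - 1) + 4)))
      (fun k => (hrb _ (by positivity)).aestronglyMeasurable) (hL.int.mul_const _) ?_ ?_
    · intro k
      refine Eventually.of_forall fun g => ?_
      rw [norm_smul, Real.norm_eq_abs, Real.norm_eq_abs, abs_of_pos (hL.pos g)]
      exact mul_le_mul_of_nonneg_left (hrabs _ (by positivity) g) (hL.pos g).le
    · refine Eventually.of_forall fun g => ?_
      refine Tendsto.const_smul ?_ _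
      unfold rw'
      refine Tendsto.const_mul _ ?_
      have h1 := mw_tendsto (T := T) (y := y (o g))
      have h2 : Tendsto (fun k : ℕ => 1 / ((k : ℝ) + 1)) atTop (𝓝 0) :=
        tendsto_one_div_add_atTop_nhds_zero_nat
      have h3 : Tendsto (fun k : ℕ => 1 + 2 * (1 / ((k : ℝ) + 1) * mw T (y (o g)))) atTop
          (𝓝 (1 + 2 * (0 * mw T (y (o g))))) := (((h2.mul_const _).const_mul 2)).const_add 1
      have h4 := ((h1.pow 3).const_mul ((n : ℝ) - 1)).sub
        ((h1.mul (h3.pow 2)).const_mul (9 / 25 : ℝ))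
      have h5 : ((n : ℝ) - 1) * 1 ^ 3 - 9 / 25 * (1 * (1 + 2 * (0 * mw T (y (o g)))) ^ 2) =
          (n : ℝ) - 1 - 9 / 25 := by ring
      rw [h5] at h4
      exact h4
  have hle : ∫ g, χ g • (q (β (o g)) / mw T (y (o g)) * (((n : ℝ) - 1) - 9 / 25)) ∂(mu n) ≤ 0 :=
    le_of_tendsto' hlim fun k => key _ (by positivity)
  set f : SUGroup n → ℝ := fun g =>
    χ g • (q (β (o g)) / mw T (y (o g)) * (((n : ℝ) - 1) - 9 / 25)) with hf
  have hf0 : ∀ g, 0 ≤ f g := by
    intro g
    refine mul_nonneg (hL.pos g).le (mul_nonneg (div_nonneg (hB0 g) (hmp g).le) ?_)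
    linarith
  have hfc : Continuous f := by
    refine hL.cont.smul ((hcq.div hcm fun g => (hmp g).ne').mul continuous_const)
  have hfi : Integrable f (mu n) := by
    refine Lat.integrable_smul hL ?_ ⟨K * (((n : ℝ) - 1) - 9 / 25), fun g => ?_⟩
    · exact ((hcq.div hcm fun g => (hmp g).ne').mul continuous_const).aestronglyMeasurable
    · have h1 : 0 ≤ q (β (o g)) / mw T (y (o g)) := div_nonneg (hB0 g) (hmp g).le
      have h2 : q (β (o g)) / mw T (y (o g)) ≤ K := by
        rw [div_le_iff₀ (hmp g)]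
        exact hBm g
      rw [Real.norm_eq_abs, abs_of_nonneg (mul_nonneg h1 (by linarith))]
      exact mul_le_mul_of_nonneg_right h2 (by linarith)
  have hfz : f =ᵐ[mu n] 0 :=
    (integral_eq_zero_iff_of_nonneg hf0 hfi).1 (le_antisymm hle (integral_nonneg hf0))
  have hfe : f = 0 := Continuous.ae_eq_iff_eq (mu n) hfc continuous_const |>.1 hfz
  have hβ : ∀ g : SUGroup n, β (o g) = 0 := by
    intro g
    by_contra hne
    have h1 := q_pos_of_orth (hoc g) (h.orth _ (hoc g)) hne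
    have h2 : f g = 0 := congrFun hfe g
    have h3 : 0 < f g := by
      refine mul_pos (hL.pos g) (mul_pos (div_pos h1 (hmp g)) ?_)
      linarith
    linarith
  intro v hv
  obtain ⟨g, c, hc0, rfl⟩ := exists_act_eq hv
  rw [h.hom c hc0 _ (orbit_mem g), show β (act g (base n)) = 0 from hβ g, smul_zero]

end Pool.Agent.Lib.MP_5d4057_al.NU
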